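import Pool.Agent.P.MP_c9b50d_al.H.Rel

/-!
The second derived algebra of H(2,1) consists of the Hamiltonian derivations of the elements
without top term.
-/

namespace Pool.Agent.H25

variable {k : Type*} [Field k] [CharP k 5]

variable (k) in
/-- The second derived algebra, as an ideal of the subalgebra H(2,1). -/
noncomputable abbrev G : LieIdeal k (H k) := LieAlgebra.derivedSeries k (H k) 2

theorem ham_apply (f g : O k) : ham f g = jac f g := by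
  simp only [ham, jac, Derivation.sub_apply, Derivation.smul_apply, smul_eq_mul]

theorem ham_x (f : O k) : ham f x = -pd 1 f := by rw [ham_apply, jac, pd1_x, pd0_x]; ring

theorem ham_y (f : O k) : ham f y = pd 0 f := by rw [ham_apply, jac, pd1_y, pd0_y]; ring

theorem mem_H {D : W k} : D ∈ H k ↔ pd 0 (D x) + pd 1 (D y) = 0 := Iff.rfl

theorem ham_mem (f : O k) : ham f ∈ H k := by
  rw [mem_H, ham_x, ham_y, der_neg, pd_comm]; ring

theorem ham_add (f g : O k) : ham (f + g) = ham f + ham g :=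
  W_ext (by rw [Derivation.add_apply, ham_x, ham_x, ham_x, der_add]; ring)
    (by rw [Derivation.add_apply, ham_y, ham_y, ham_y, der_add])

theorem ham_smul (c : k) (f : O k) : ham (c • f) = c • ham f :=
  W_ext (by rw [Derivation.smul_apply, ham_x, ham_x, der_smul, smul_neg])
    (by rw [Derivation.smul_apply, ham_y, ham_y, der_smul])

theorem ham_alg (c : k) : ham (algebraMap k (O k) c) = 0 :=
  W_ext (by rw [ham_x, der_alg, neg_zero, Derivation.zero_apply])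
    (by rw [ham_y, der_alg, Derivation.zero_apply])

omit [CharP k 5] in
theorem br_apply (D E : W k) (f : O k) : ⁅D, E⁆ f = D (E f) - E (D f) :=
  Derivation.commutator_apply f

theorem br_div {D E : W k} (hD : D ∈ H k) (hE : E ∈ H k) :
    ⁅D, E⁆ = ham (D x * E y - D y * E x) := by
  rw [mem_H] at hD hE
  apply W_ext
  · rw [br_apply, ham_x, chain D (E x), chain E (D x), der_sub, der_mul, der_mul]
    linear_combination D x * hE - E x * hD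
  · rw [br_apply, ham_y, chain D (E y), chain E (D y), der_sub, der_mul, der_mul]
    linear_combination D y * hE - E y * hD

theorem br_ham' {E : W k} (hE : E ∈ H k) (f : O k) : ⁅E, ham f⁆ = ham (E f) := by
  rw [br_div hE (ham_mem f), ham_x, ham_y, chain E f]
  exact congrArg ham (by ring)

theorem br_ham (f g : O k) : ⁅ham f, ham g⁆ = ham (jac f g) := by
  rw [br_ham' (ham_mem f), ham_apply]

theorem top_der {E : W k} (hE : E ∈ H k) (f : O k) : top (E f) = 0 := by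
  rw [mem_H] at hE
  have : E f = pd 0 (E x * f) + pd 1 (E y * f) := by
    rw [chain E f, der_mul, der_mul]
    linear_combination (-f) * hE
  rw [this, top_add, top_pd0, top_pd1, add_zero]

theorem const_of_pd {f : O k} (h0 : pd 0 f = 0) (h1 : pd 1 f = 0) :
    f = algebraMap k (O k) (c0 f) := by
  obtain ⟨a00, a10, a01, a20, a11, a02, a30, a21, a12, a03, a40, a31, a22, a13, a04, a41, a32, a23, a14, a42, a33, a24, a43, a34, a44, rfl⟩ := mk_surj f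
  rw [pd0_mk, zero_eq, mk_inj] at h0
  rw [pd1_mk, zero_eq, mk_inj] at h1
  rw [c0_mk, alg_eq, mk_inj]
  refine ⟨?_, ?_, ?_, ?_, ?_, ?_, ?_, ?_, ?_, ?_, ?_, ?_, ?_, ?_, ?_, ?_, ?_, ?_, ?_, ?_, ?_, ?_, ?_, ?_, ?_⟩ <;> grind

theorem ham_inj {f g : O k} (h : ham f = ham g) : ∃ c : k, f = g + algebraMap k (O k) c := by
  have h0 := congrArg (fun E : W k => E y) h
  have h1 := congrArg (fun E : W k => E x) h
  simp only [ham_x, ham_y, neg_inj] at h0 h1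
  refine ⟨c0 (f - g), ?_⟩
  rw [← const_of_pd (by rw [der_sub, h0, sub_self]) (by rw [der_sub, h1, sub_self])]
  ring

omit [CharP k 5] in
theorem top_alg (c : k) : top (algebraMap k (O k) c) = 0 := by rw [alg_eq, top_coord]

/-- The ideal of all Hamiltonian derivations. -/
noncomputable def K1 : LieIdeal k (H k) where
  carrier := {D | ∃ f, (D : W k) = ham f}
  add_mem' := by
    rintro D E ⟨f, hf⟩ ⟨g, hg⟩
    exact ⟨f + g, by rw [ham_add, ← hf, ← hg]; rfl⟩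
  zero_mem' := ⟨algebraMap k _ 0, (ham_alg 0).symm⟩
  smul_mem' := by
    rintro c D ⟨f, hf⟩
    exact ⟨c • f, by rw [ham_smul, ← hf]; rfl⟩
  lie_mem := by
    rintro E D ⟨f, hf⟩
    exact ⟨(E : W k) f, by rw [← br_ham' E.2, ← hf]; rfl⟩

/-- The ideal of the Hamiltonian derivations of elements without top term. -/
noncomputable def K2 : LieIdeal k (H k) where
  carrier := {D | ∃ f, top f = 0 ∧ (D : W k) = ham f}
  add_mem' := by
    rintro D E ⟨f, f0, hf⟩ ⟨g, g0, hg⟩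
    exact ⟨f + g, by rw [top_add, f0, g0, add_zero], by rw [ham_add, ← hf, ← hg]; rfl⟩
  zero_mem' := ⟨algebraMap k _ 0, top_alg 0, (ham_alg 0).symm⟩
  smul_mem' := by
    rintro c D ⟨f, f0, hf⟩
    exact ⟨c • f, by rw [top_smul, f0, mul_zero], by rw [ham_smul, ← hf]; rfl⟩
  lie_mem := by
    rintro E D ⟨f, -, hf⟩
    exact ⟨(E : W k) f, top_der E.2 f, by rw [← br_ham' E.2, ← hf]; rfl⟩

/-- A Hamiltonian derivation as an element of H(2,1). -/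
noncomputable def hH (f : O k) : H k := ⟨ham f, ham_mem f⟩

theorem hH_br (f g : O k) : hH (jac f g) = ⁅hH f, hH g⁆ := Subtype.ext (br_ham f g).symm

theorem hH_add (f g : O k) : hH (f + g) = hH f + hH g := Subtype.ext (ham_add f g)

theorem ds1 : LieAlgebra.derivedSeries k (H k) 1 = ⁅(⊤ : LieIdeal k (H k)), (⊤ : LieIdeal k (H k))⁆ :=
  rfl

theorem ds2 : G k = ⁅LieAlgebra.derivedSeries k (H k) 1, LieAlgebra.derivedSeries k (H k) 1⁆ :=
  rfl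

theorem mem_ds1 {f : O k} (hf : top f = 0) : hH f ∈ LieAlgebra.derivedSeries k (H k) 1 := by
  obtain ⟨a00, a10, a01, a20, a11, a02, a30, a21, a12, a03, a40, a31, a22, a13, a04, a41, a32, a23, a14, a42, a33, a24, a43, a34, a44, rfl⟩ := mk_surj f
  rw [top_coord] at hf
  subst hf
  have e : mk a00 a10 a01 a20 a11 a02 a30 a21 a12 a03 a40 a31 a22 a13 a04 a41 a32 a23 a14 a42 a33 a24 a43 a34 0 =
      jac x (mk 0 0 a00 0 a10 (-2*a01) 0 a20 (-2*a11) (2*a02) 0 a30 (-2*a21) (2*a12) (-a03) a40 (-2*a31)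
      (2*a22) (-a13) (-2*a41) (2*a32) (-a23) (2*a42) (-a33) (-a43)) +
      jac y (mk 0 0 0 0 0 0 0 0 0 0 0 0 0 0 0 0 0 0 (-a04) 0 0 (2*a14) 0 (-2*a24) a34) := by
    rw [jac, jac, pd0_x, pd1_x, pd0_y, pd1_y, zero_mul, zero_mul, one_mul, one_mul, sub_zero,
      zero_sub, pd1_mk, pd0_mk, mk_neg, mk_add, mk_inj]
    refine ⟨?_, ?_, ?_, ?_, ?_, ?_, ?_, ?_, ?_, ?_, ?_, ?_, ?_, ?_, ?_, ?_, ?_, ?_, ?_, ?_, ?_, ?_, ?_, ?_, ?_⟩ <;> grind
  rw [e, hH_add, hH_br, hH_br, ds1]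
  exact add_mem (LieSubmodule.lie_mem_lie (LieSubmodule.mem_top _) (LieSubmodule.mem_top _))
    (LieSubmodule.lie_mem_lie (LieSubmodule.mem_top _) (LieSubmodule.mem_top _))

theorem mem_ds2 {f : O k} (hf : top f = 0) : hH f ∈ G k := by
  obtain ⟨a00, a10, a01, a20, a11, a02, a30, a21, a12, a03, a40, a31, a22, a13, a04, a41, a32, a23, a14, a42, a33, a24, a43, a34, a44, rfl⟩ := mk_surj f
  rw [top_coord] at hf
  subst hf
  have e : mk a00 a10 a01 a20 a11 a02 a30 a21 a12 a03 a40 a31 a22 a13 a04 a41 a32 a23 a14 a42 a33 a24 a43 a34 0 =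
      jac (mk 0 1 0 0 0 0 0 0 0 0 0 0 0 0 0 0 0 0 0 0 0 0 0 0 0) (mk 0 0 a00 0 a10 (-2*a01) 0 a20 (-2*a11) (2*a02) 0 a30 (-2*a21) (2*a12) (-a03) a40 (-2*a31)
      (2*a22) (-a13) (-2*a41) (2*a32) (-a23) (2*a42) (-a33) 0) +
      jac (mk 0 0 1 0 0 0 0 0 0 0 0 0 0 0 0 0 0 0 0 0 0 0 0 0 0) (mk 0 0 0 0 0 0 0 0 0 0 0 0 0 0 0 0 0 0 (-a04) 0 0 (2*a14) 0 (-2*a24) 0) +
      jac (mk 0 0 0 1 0 0 0 0 0 0 0 0 0 0 0 0 0 0 0 0 0 0 0 0 0) (mk 0 0 0 0 0 0 0 0 0 0 0 0 0 0 0 0 0 0 0 0 0 0 0 (2*a43) 0) +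
      jac (mk 0 0 0 0 0 1 0 0 0 0 0 0 0 0 0 0 0 0 0 0 0 0 0 0 0) (mk 0 0 0 0 0 0 0 0 0 0 0 0 0 0 0 0 0 0 0 0 0 0 (-2*a34) 0 0) := by
    rw [jac_mk, jac_mk, jac_mk, jac_mk, mk_add, mk_add, mk_add, mk_inj]
    refine ⟨?_, ?_, ?_, ?_, ?_, ?_, ?_, ?_, ?_, ?_, ?_, ?_, ?_, ?_, ?_, ?_, ?_, ?_, ?_, ?_, ?_, ?_, ?_, ?_, ?_⟩ <;> grind
  rw [e, hH_add, hH_add, hH_add, hH_br, hH_br, hH_br, hH_br, ds2]
  refine add_mem (add_mem (add_mem ?_ ?_) ?_) ?_ <;>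
    exact LieSubmodule.lie_mem_lie (mem_ds1 (top_coord ..)) (mem_ds1 (top_coord ..))

theorem mem_G {E : H k} : E ∈ G k ↔ ∃ f, top f = 0 ∧ (E : W k) = ham f := by
  constructor
  · intro hE
    have h1 : LieAlgebra.derivedSeries k (H k) 1 ≤ K1 := by
      rw [ds1, LieSubmodule.lie_le_iff]
      intro D _ E _
      exact ⟨_, br_div D.2 E.2⟩
    have h2 : G k ≤ K2 := by
      rw [ds2, LieSubmodule.lie_le_iff]
      intro D _ E hE
      obtain ⟨f, hf⟩ := h1 hE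
      exact ⟨(D : W k) f, top_der D.2 f, by rw [← br_ham' D.2, ← hf]; rfl⟩
    exact h2 hE
  · rintro ⟨f, f0, hf⟩
    have : E = hH f := Subtype.ext hf
    rw [this]
    exact mem_ds2 f0

/-- The derivation underlying an element of the second derived algebra. -/
noncomputable def val (E : G k) : W k := ((E : H k) : W k)

theorem val_inj {E F : G k} (h : val E = val F) : E = F := Subtype.ext (Subtype.ext h)
theorem val_lie (E F : G k) : val ⁅E, F⁆ = ⁅val E, val F⁆ := rfl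
theorem val_add (E F : G k) : val (E + F) = val E + val F := rfl
theorem val_smul (c : k) (E : G k) : val (c • E) = c • val E := rfl
theorem val_zero : val (0 : G k) = 0 := rfl
theorem val_mem (E : G k) : val E ∈ H k := (E : H k).2
theorem val_ham (E : G k) : ∃ f, top f = 0 ∧ val E = ham f := mem_G.mp E.2

/-- An element of the second derived algebra from a derivation. -/
noncomputable def mkG (D : W k) (h : ∃ f, top f = 0 ∧ D = ham f) : G k :=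
  ⟨⟨D, by obtain ⟨f, -, rfl⟩ := h; exact ham_mem f⟩, mem_G.mpr h⟩

theorem val_mkG (D : W k) (h : ∃ f, top f = 0 ∧ D = ham f) : val (mkG D h) = D := rfl

/-- The element of the second derived algebra with the given coordinates. -/
noncomputable def hm (a10 a01 a20 a11 a02 a30 a21 a12 a03 a40 a31 a22 a13 a04 a41 a32 a23 a14 a42 a33 a24 a43 a34 : k) : G k :=
  mkG (ham (mk 0 a10 a01 a20 a11 a02 a30 a21 a12 a03 a40 a31 a22 a13 a04 a41 a32 a23 a14 a42 a33 a24 a43 a34 0)) ⟨_, top_coord .., rfl⟩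

section
variable (a10 a01 a20 a11 a02 a30 a21 a12 a03 a40 a31 a22 a13 a04 a41 a32 a23 a14 a42 a33 a24 a43 a34 : k)
  (b10 b01 b20 b11 b02 b30 b21 b12 b03 b40 b31 b22 b13 b04 b41 b32 b23 b14 b42 b33 b24 b43 b34 c : k)

theorem val_hm : val (hm a10 a01 a20 a11 a02 a30 a21 a12 a03 a40 a31 a22 a13 a04 a41 a32 a23 a14 a42 a33 a24 a43 a34) =
    ham (mk 0 a10 a01 a20 a11 a02 a30 a21 a12 a03 a40 a31 a22 a13 a04 a41 a32 a23 a14 a42 a33 a24 a43 a34 0) := rfl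

theorem ham_c0 (a00 a44 : k) : ham (mk a00 a10 a01 a20 a11 a02 a30 a21 a12 a03 a40 a31 a22 a13 a04 a41 a32 a23 a14 a42 a33 a24 a43 a34 a44) =
    ham (mk 0 a10 a01 a20 a11 a02 a30 a21 a12 a03 a40 a31 a22 a13 a04 a41 a32 a23 a14 a42 a33 a24 a43 a34 a44) := by
  have : mk a00 a10 a01 a20 a11 a02 a30 a21 a12 a03 a40 a31 a22 a13 a04 a41 a32 a23 a14 a42 a33 a24 a43 a34 a44 =
      mk 0 a10 a01 a20 a11 a02 a30 a21 a12 a03 a40 a31 a22 a13 a04 a41 a32 a23 a14 a42 a33 a24 a43 a34 a44 + algebraMap k (O k) a00 := by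
    rw [alg_eq, mk_add]; simp only [add_zero, zero_add]
  rw [this, ham_add, ham_alg, add_zero]

theorem hm_add : hm a10 a01 a20 a11 a02 a30 a21 a12 a03 a40 a31 a22 a13 a04 a41 a32 a23 a14 a42 a33 a24 a43 a34 +
    hm b10 b01 b20 b11 b02 b30 b21 b12 b03 b40 b31 b22 b13 b04 b41 b32 b23 b14 b42 b33 b24 b43 b34 =
    hm (a10 + b10) (a01 + b01) (a20 + b20) (a11 + b11) (a02 + b02) (a30 + b30) (a21 + b21) (a12 +
      b12) (a03 + b03) (a40 + b40) (a31 + b31) (a22 + b22) (a13 + b13) (a04 + b04) (a41 + b41)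
      (a32 + b32) (a23 + b23) (a14 + b14) (a42 + b42) (a33 + b33) (a24 + b24) (a43 + b43) (a34 +
      b34) := by
  apply val_inj
  rw [val_add, val_hm, val_hm, val_hm, ← ham_add, mk_add, add_zero]

theorem hm_smul : c • hm a10 a01 a20 a11 a02 a30 a21 a12 a03 a40 a31 a22 a13 a04 a41 a32 a23 a14 a42 a33 a24 a43 a34 =
    hm (c * a10) (c * a01) (c * a20) (c * a11) (c * a02) (c * a30) (c * a21) (c * a12) (c * a03) (c *
      a40) (c * a31) (c * a22) (c * a13) (c * a04) (c * a41) (c * a32) (c * a23) (c * a14) (c *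
      a42) (c * a33) (c * a24) (c * a43) (c * a34) := by
  apply val_inj
  rw [val_smul, val_hm, val_hm, ← ham_smul, mk_smul, mul_zero]

theorem br_hm : ⁅hm a10 a01 a20 a11 a02 a30 a21 a12 a03 a40 a31 a22 a13 a04 a41 a32 a23 a14 a42 a33 a24 a43 a34,
    hm b10 b01 b20 b11 b02 b30 b21 b12 b03 b40 b31 b22 b13 b04 b41 b32 b23 b14 b42 b33 b24 b43 b34⁆ =
    hm (-2*a01*b20 + a10*b11 - a11*b10 + 2*a20*b01) (-a01*b11 - 2*a02*b10 + 2*a10*b02 + a11*b01)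
      (2*a01*b30 + a10*b21 - 2*a11*b20 + 2*a20*b11 - a21*b10 - 2*a30*b01) (-2*a01*b21 + a02*b20 +
      2*a10*b12 - 2*a12*b10 - a20*b02 + 2*a21*b01) (-a01*b12 - 2*a02*b11 + 2*a03*b10 - 2*a10*b03
      + 2*a11*b02 + a12*b01) (a01*b40 + a10*b31 + 2*a11*b30 + 2*a20*b21 - 2*a21*b20 - 2*a30*b11 -
      a31*b10 - a40*b01) (2*a01*b31 - a02*b30 + 2*a10*b22 - a11*b21 + a12*b20 - a20*b12 + a21*b11
      - 2*a22*b10 + a30*b02 - 2*a31*b01) (-2*a01*b22 + a02*b21 - a03*b20 - 2*a10*b13 + a11*b12 -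
      a12*b11 + 2*a13*b10 + a20*b03 - a21*b02 + 2*a22*b01) (-a01*b13 - 2*a02*b12 + 2*a03*b11 +
      a04*b10 - a10*b04 - 2*a11*b03 + 2*a12*b02 + a13*b01) (a10*b41 + a11*b40 + 2*a20*b31 +
      2*a21*b30 - 2*a30*b21 - 2*a31*b20 - a40*b11 - a41*b10) (a01*b41 + 2*a02*b40 + 2*a10*b32 -
      2*a11*b31 - a12*b30 - a20*b22 + a22*b20 + a30*b12 + 2*a31*b11 - 2*a32*b10 - 2*a40*b02 -
      a41*b01) (2*a01*b32 - a02*b31 + a03*b30 - 2*a10*b23 + 2*a12*b21 - a13*b20 + a20*b13 -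
      2*a21*b12 + 2*a23*b10 - a30*b03 + a31*b02 - 2*a32*b01) (-2*a01*b23 + a02*b22 - a03*b21 +
      2*a04*b20 - a10*b14 + 2*a11*b13 - 2*a13*b11 + a14*b10 - 2*a20*b04 + a21*b03 - a22*b02 +
      2*a23*b01) (-a01*b14 - 2*a02*b13 + 2*a03*b12 + a04*b11 - a11*b04 - 2*a12*b03 + 2*a13*b02 +
      a14*b01) (2*a10*b42 + 2*a11*b41 + 2*a12*b40 - a20*b32 - a21*b31 - a22*b30 + a30*b22 +
      a31*b21 + a32*b20 - 2*a40*b12 - 2*a41*b11 - 2*a42*b10) (a01*b42 + 2*a02*b41 - 2*a03*b40 -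
      2*a10*b33 - a11*b32 + a13*b30 + a20*b23 + 2*a21*b22 - 2*a22*b21 - a23*b20 - a30*b13 +
      a32*b11 + 2*a33*b10 + 2*a40*b03 - 2*a41*b02 - a42*b01) (2*a01*b33 - a02*b32 + a03*b31 -
      2*a04*b30 - a10*b24 + a11*b23 - 2*a12*b22 + 2*a14*b20 - 2*a20*b14 + 2*a22*b12 - a23*b11 +
      a24*b10 + 2*a30*b04 - a31*b03 + a32*b02 - 2*a33*b01) (-2*a01*b24 + a02*b23 - a03*b22 +
      2*a04*b21 - 2*a11*b14 + a12*b13 - a13*b12 + 2*a14*b11 - 2*a21*b04 + a22*b03 - a23*b02 +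
      2*a24*b01) (-2*a10*b43 - 2*a11*b42 - 2*a12*b41 - 2*a13*b40 + a20*b33 + a21*b32 + a22*b31 +
      a23*b30 - a30*b23 - a31*b22 - a32*b21 - a33*b20 + 2*a40*b13 + 2*a41*b12 + 2*a42*b11 +
      2*a43*b10) (a01*b43 + 2*a02*b42 - 2*a03*b41 - a04*b40 - a10*b34 + a12*b32 + 2*a13*b31 -
      2*a14*b30 - 2*a20*b24 - a21*b23 + a23*b21 + 2*a24*b20 + 2*a30*b14 - 2*a31*b13 - a32*b12 +
      a34*b10 + a40*b04 + 2*a41*b03 - 2*a42*b02 - a43*b01) (2*a01*b34 - a02*b33 + a03*b32 -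
      2*a04*b31 + 2*a11*b24 - a12*b23 + a13*b22 - 2*a14*b21 + 2*a21*b14 - a22*b13 + a23*b12 -
      2*a24*b11 + 2*a31*b04 - a32*b03 + a33*b02 - 2*a34*b01) (-a11*b43 - a12*b42 - a13*b41 -
      a14*b40 - 2*a20*b34 - 2*a21*b33 - 2*a22*b32 - 2*a23*b31 - 2*a24*b30 + 2*a30*b24 + 2*a31*b23
      + 2*a32*b22 + 2*a33*b21 + 2*a34*b20 + a40*b14 + a41*b13 + a42*b12 + a43*b11) (2*a02*b43 -
      2*a03*b42 - a04*b41 + a11*b34 + 2*a12*b33 - 2*a13*b32 - a14*b31 + a21*b24 + 2*a22*b23 -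
      2*a23*b22 - a24*b21 + a31*b14 + 2*a32*b13 - 2*a33*b12 - a34*b11 + a41*b04 + 2*a42*b03 -
      2*a43*b02) := by
  apply val_inj
  rw [val_lie, val_hm, val_hm, val_hm, br_ham, jac_mk, ham_c0]
  refine congrArg ham (mk_inj.mpr ⟨?_, ?_, ?_, ?_, ?_, ?_, ?_, ?_, ?_, ?_, ?_, ?_, ?_, ?_, ?_, ?_, ?_, ?_, ?_, ?_, ?_, ?_, ?_, ?_, ?_⟩) <;> grind

end

theorem hm_zero : (0 : G k) = hm 0 0 0 0 0 0 0 0 0 0 0 0 0 0 0 0 0 0 0 0 0 0 0 := by
  apply val_inj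
  rw [val_zero, val_hm, ← alg_eq, ham_alg]

theorem hm_inj {a10 a01 a20 a11 a02 a30 a21 a12 a03 a40 a31 a22 a13 a04 a41 a32 a23 a14 a42 a33 a24 a43 a34 : k}
    {b10 b01 b20 b11 b02 b30 b21 b12 b03 b40 b31 b22 b13 b04 b41 b32 b23 b14 b42 b33 b24 b43 b34 : k} :
    hm a10 a01 a20 a11 a02 a30 a21 a12 a03 a40 a31 a22 a13 a04 a41 a32 a23 a14 a42 a33 a24 a43 a34 =
    hm b10 b01 b20 b11 b02 b30 b21 b12 b03 b40 b31 b22 b13 b04 b41 b32 b23 b14 b42 b33 b24 b43 b34 ↔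
    a10 = b10 ∧ a01 = b01 ∧ a20 = b20 ∧ a11 = b11 ∧ a02 = b02 ∧ a30 = b30 ∧ a21 = b21 ∧ a12 = b12 ∧
      a03 = b03 ∧ a40 = b40 ∧ a31 = b31 ∧ a22 = b22 ∧ a13 = b13 ∧ a04 = b04 ∧ a41 = b41 ∧ a32 =
      b32 ∧ a23 = b23 ∧ a14 = b14 ∧ a42 = b42 ∧ a33 = b33 ∧ a24 = b24 ∧ a43 = b43 ∧ a34 = b34 := by
  constructor
  · intro h
    obtain ⟨c, hc⟩ := ham_inj (congrArg val h)
    rw [alg_eq, mk_add, mk_inj] at hc
    simp only [add_zero] at hc
    tauto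
  · rintro ⟨rfl, rfl, rfl, rfl, rfl, rfl, rfl, rfl, rfl, rfl, rfl, rfl, rfl, rfl, rfl, rfl, rfl, rfl, rfl, rfl, rfl, rfl, rfl⟩
    rfl

theorem eq_hm {E : G k} {a00 a10 a01 a20 a11 a02 a30 a21 a12 a03 a40 a31 a22 a13 a04 a41 a32 a23 a14 a42 a33 a24 a43 a34 a44 : k}
    (h : val E = ham (mk a00 a10 a01 a20 a11 a02 a30 a21 a12 a03 a40 a31 a22 a13 a04 a41 a32 a23 a14 a42 a33 a24 a43 a34 a44)) :
    a44 = 0 ∧ E = hm a10 a01 a20 a11 a02 a30 a21 a12 a03 a40 a31 a22 a13 a04 a41 a32 a23 a14 a42 a33 a24 a43 a34 := by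
  obtain ⟨f, f0, hf⟩ := val_ham E
  obtain ⟨c, hc⟩ := ham_inj (h.symm.trans hf)
  have h0 : a44 = 0 := by
    have := congrArg top hc
    rwa [top_coord, top_add, f0, top_alg, add_zero] at this
  subst h0
  exact ⟨rfl, val_inj (by rw [h, val_hm, ham_c0])⟩

theorem hm_surj (E : G k) : ∃ a10 a01 a20 a11 a02 a30 a21 a12 a03 a40 a31 a22 a13 a04 a41 a32 a23 a14 a42 a33 a24 a43 a34 : k,
    E = hm a10 a01 a20 a11 a02 a30 a21 a12 a03 a40 a31 a22 a13 a04 a41 a32 a23 a14 a42 a33 a24 a43 a34 := by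
  obtain ⟨f, -, hf⟩ := val_ham E
  obtain ⟨a00, a10, a01, a20, a11, a02, a30, a21, a12, a03, a40, a31, a22, a13, a04, a41, a32, a23, a14, a42, a33, a24, a43, a34, a44, rfl⟩ := mk_surj f
  exact ⟨_, _, _, _, _, _, _, _, _, _, _, _, _, _, _, _, _, _, _, _, _, _, _, (eq_hm hf).2⟩

end Pool.Agent.H25

/-!
Every Lie algebra automorphism of H(2,1)^(2), p = 5, preserves the standard maximal subalgebra.
-/

namespace Pool.Agent.H25

variable {k : Type*} [Field k] [hp : CharP k 5]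

/-- Sandwich elements. -/
def Sw (S : G k) : Prop := ∀ F : G k, ⁅S, ⁅S, F⁆⁆ = 0

/-- The centraliser of the sandwich elements. -/
def Cz (Z : G k) : Prop := ∀ S : G k, Sw S → ⁅S, Z⁆ = 0

/-- The normaliser of that centraliser. -/
def Nz (E : G k) : Prop := ∀ Z : G k, Cz Z → Cz ⁅E, Z⁆

theorem Sw.map (σ : G k ≃ₗ⁅k⁆ G k) {S : G k} (h : Sw S) : Sw (σ S) := by
  intro F
  rw [← σ.apply_symm_apply F, ← σ.map_lie, ← σ.map_lie, h]
  exact map_zero σ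

theorem Cz.map (σ : G k ≃ₗ⁅k⁆ G k) {Z : G k} (h : Cz Z) : Cz (σ Z) := by
  intro S hS
  have := h _ (hS.map σ.symm)
  have h2 := congrArg σ this
  rw [σ.map_lie, σ.apply_symm_apply] at h2
  rw [h2]
  exact map_zero σ

theorem Nz.map (σ : G k ≃ₗ⁅k⁆ G k) {E : G k} (h : Nz E) : Nz (σ E) := by
  intro Z hZ
  have := (h _ (hZ.map σ.symm)).map σ
  rwa [σ.map_lie, σ.apply_symm_apply] at this

theorem sw1 {a10 a01 a20 a11 a02 a30 a21 a12 a03 a40 a31 a22 a13 a04 a41 a32 a23 a14 a42 a33 a24 a43 a34 : k}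
    (h : Sw (hm a10 a01 a20 a11 a02 a30 a21 a12 a03 a40 a31 a22 a13 a04 a41 a32 a23 a14 a42 a33 a24 a43 a34)) : a10 = 0 ∧ a01 = 0 := by
  have t := h (hm 0 0 0 0 0 1 0 0 0 0 0 0 0 0 0 0 0 0 0 0 0 0 0)
  rw [br_hm, br_hm, hm_zero, hm_inj] at t
  have p10 : a01*a01 = (0 : k) := by
    have := t.1
    clear * - hp this
    grind
  clear t
  have t := h (hm 0 0 0 0 0 0 0 0 1 0 0 0 0 0 0 0 0 0 0 0 0 0 0)
  rw [br_hm, br_hm, hm_zero, hm_inj] at t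
  have q01 : a10*a10 = (0 : k) := by
    have := t.2.1
    clear * - hp this
    grind
  clear t
  clear h
  constructor <;> grind

theorem sw2 {a20 a11 a02 a30 a21 a12 a03 a40 a31 a22 a13 a04 a41 a32 a23 a14 a42 a33 a24 a43 a34 : k}
    (h : Sw (hm 0 0 a20 a11 a02 a30 a21 a12 a03 a40 a31 a22 a13 a04 a41 a32 a23 a14 a42 a33 a24 a43 a34)) : a20 = 0 ∧ a11 = 0 ∧ a02 = 0 := by
  have t := h (hm 0 0 1 0 0 0 0 0 0 0 0 0 0 0 0 0 0 0 0 0 0 0 0)
  rw [br_hm, br_hm, hm_zero, hm_inj] at t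
  have p02 : -2*a02*a02 = (0 : k) := by
    have := t.2.2.2.2.1
    clear * - hp this
    grind
  clear t
  have t := h (hm 0 0 0 0 1 0 0 0 0 0 0 0 0 0 0 0 0 0 0 0 0 0 0)
  rw [br_hm, br_hm, hm_zero, hm_inj] at t
  have q20 : -2*a20*a20 = (0 : k) := by
    have := t.2.2.1
    clear * - hp this
    grind
  clear t
  have t := h (hm 0 0 1 0 0 0 0 0 0 0 0 0 0 0 0 0 0 0 0 0 0 0 0)
  rw [br_hm, br_hm, hm_zero, hm_inj] at t
  have r20 : 2*a02*a20 - a11*a11 = (0 : k) := by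
    have := t.2.2.1
    clear * - hp this
    grind
  clear t
  clear h
  have e1 : a02 = 0 := by grind
  have e2 : a20 = 0 := by grind
  subst e1 e2
  refine ⟨rfl, ?_, rfl⟩
  grind

theorem sw3 {a30 a21 a12 a03 a40 a31 a22 a13 a04 a41 a32 a23 a14 a42 a33 a24 a43 a34 : k}
    (h : Sw (hm 0 0 0 0 0 a30 a21 a12 a03 a40 a31 a22 a13 a04 a41 a32 a23 a14 a42 a33 a24 a43 a34)) : a30 = 0 ∧ a21 = 0 ∧ a12 = 0 ∧ a03 = 0 := by
  have t := h (hm 0 0 1 0 0 0 0 0 0 0 0 0 0 0 0 0 0 0 0 0 0 0 0)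
  rw [br_hm, br_hm, hm_zero, hm_inj] at t
  have p04 : -2*a03*a03 = (0 : k) := by
    have := t.2.2.2.2.2.2.2.2.2.2.2.2.2.1
    clear * - hp this
    grind
  have p22 : 2*a12*a12 = (0 : k) := by
    have := t.2.2.2.2.2.2.2.2.2.2.2.1
    clear * - hp this
    grind
  clear t
  have t := h (hm 0 0 0 0 1 0 0 0 0 0 0 0 0 0 0 0 0 0 0 0 0 0 0)
  rw [br_hm, br_hm, hm_zero, hm_inj] at t
  have q40 : -2*a30*a30 = (0 : k) := by
    have := t.2.2.2.2.2.2.2.2.2.1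
    clear * - hp this
    grind
  have q22 : 2*a21*a21 = (0 : k) := by
    have := t.2.2.2.2.2.2.2.2.2.2.2.1
    clear * - hp this
    grind
  clear t
  clear h
  refine ⟨?_, ?_, ?_, ?_⟩ <;> grind

theorem cz_top (a42 a33 a24 a43 a34 : k) : Cz (hm 0 0 0 0 0 0 0 0 0 0 0 0 0 0 0 0 0 0 a42 a33 a24 a43 a34) := by
  intro S hS
  obtain ⟨b10, b01, b20, b11, b02, b30, b21, b12, b03, b40, b31, b22, b13, b04, b41, b32, b23, b14, b42, b33, b24, b43, b34, rfl⟩ := hm_surj S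
  obtain ⟨rfl, rfl⟩ := sw1 hS
  obtain ⟨rfl, rfl, rfl⟩ := sw2 hS
  obtain ⟨rfl, rfl, rfl, rfl⟩ := sw3 hS
  rw [br_hm, hm_zero, hm_inj]
  simp

theorem sw_pow (S : G k) (l : O k) (hl : Ord 1 l) (hS : val S = ham (l ^ 4)) : Sw S := by
  intro F
  obtain ⟨f, -, hf⟩ := val_ham F
  apply val_inj
  rw [val_lie, val_lie, hS, hf, br_ham, br_ham, val_zero, ← ham_alg 0, map_zero]
  refine congrArg ham ?_
  have h5 := hl.pow5
  have e : ∀ g, jac (l ^ 4) g = 4 * l ^ 3 * jac l g := by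
    intro g
    rw [jac, jac, der_pow, der_pow]
    push_cast
    ring
  have e2 : ∀ g, jac l (4 * l ^ 3 * g) = 4 * l ^ 3 * jac l g := by
    intro g
    have h4 : ∀ E : W k, E 4 = 0 := fun E => by
      have := der_alg E 4
      rwa [map_ofNat] at this
    rw [jac, jac, der_mul, der_mul, der_mul, der_mul, der_pow, der_pow, h4, h4]
    ring
  rw [e, e, e2]
  linear_combination (16 * l * jac l (jac l f)) * h5

theorem sw_lin (s t : k) : Sw (hm 0 0 0 0 0 0 0 0 0 (s^(4:ℕ)) (-s*s*s*t) (s*s*t*t) (-s*t*t*t) (t^(4:ℕ)) 0 0 0 0 0 0 0 0 0) := by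
  refine sw_pow _ (s • x + t • y) ((ord_x.smul _).add (ord_y.smul _)) ?_
  rw [val_hm, x_eq, y_eq, mk_smul, mk_smul, mk_add]
  refine congrArg ham ?_
  have e : ∀ X : O k, X ^ 4 = X * X * (X * X) := fun X => by ring
  rw [e, mk_mul]
  simp only [mul_zero, zero_mul, add_zero, zero_add, mul_one]
  rw [mk_mul, mk_inj]
  refine ⟨?_, ?_, ?_, ?_, ?_, ?_, ?_, ?_, ?_, ?_, ?_, ?_, ?_, ?_, ?_, ?_, ?_, ?_, ?_, ?_, ?_, ?_, ?_, ?_, ?_⟩ <;> grind

theorem cz_shape {Z : G k} (h : Cz Z) :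
    ∃ a42 a33 a24 a43 a34 : k, Z = hm 0 0 0 0 0 0 0 0 0 0 0 0 0 0 0 0 0 0 a42 a33 a24 a43 a34 := by
  obtain ⟨a10, a01, a20, a11, a02, a30, a21, a12, a03, a40, a31, a22, a13, a04, a41, a32, a23, a14, a42, a33, a24, a43, a34, rfl⟩ := hm_surj Z
  have ha := h _ (sw_lin 1 0)
  have hb := h _ (sw_lin 0 1)
  have hc := h _ (sw_lin 1 1)
  have hd := h _ (sw_lin 1 (-1))
  rw [br_hm, hm_zero, hm_inj] at ha hb hc hd
  refine ⟨a42, a33, a24, a43, a34, ?_⟩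
  rw [hm_inj]
  clear h
  refine ⟨?_, ?_, ?_, ?_, ?_, ?_, ?_, ?_, ?_, ?_, ?_, ?_, ?_, ?_, ?_, ?_, ?_, ?_, ?_, ?_, ?_, ?_, ?_⟩ <;> grind

theorem nz_iff (a10 a01 a20 a11 a02 a30 a21 a12 a03 a40 a31 a22 a13 a04 a41 a32 a23 a14 a42 a33 a24 a43 a34 : k) :
    Nz (hm a10 a01 a20 a11 a02 a30 a21 a12 a03 a40 a31 a22 a13 a04 a41 a32 a23 a14 a42 a33 a24 a43 a34) ↔ a10 = 0 ∧ a01 = 0 := by
  constructor
  · intro h
    obtain ⟨b42, b33, b24, b43, b34, hc⟩ := cz_shape (h _ (cz_top 0 1 0 0 0))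
    rw [br_hm, hm_inj] at hc
    have h1 := hc.2.2.2.2.2.2.2.2.2.2.2.2.2.2.2.1
    have h2 := hc.2.2.2.2.2.2.2.2.2.2.2.2.2.2.2.2.1
    clear h hc
    constructor <;> grind
  · rintro ⟨rfl, rfl⟩ Z hZ
    obtain ⟨b42, b33, b24, b43, b34, rfl⟩ := cz_shape hZ
    rw [br_hm]
    simp only [mul_zero, zero_mul, add_zero, zero_add, sub_zero, neg_zero, zero_sub]
    exact cz_top _ _ _ _ _

end Pool.Agent.H25

/-!
Automorphisms of H(2,1)^(2), p = 5, are induced by substitutions with constant Jacobian;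
conjugacy of characters is the relation Rel.
-/

namespace Pool.Agent.H25

variable {k : Type*} [Field k]

/-- Transport of a derivation along an automorphism. -/
noncomputable def cj (φ : O k ≃ₐ[k] O k) (E : W k) : W k :=
  Derivation.mk' (φ.toLinearMap ∘ₗ (E : O k →ₗ[k] O k) ∘ₗ φ.symm.toLinearMap) (by
    intro a b
    simp [Derivation.leibniz])

theorem cj_apply (φ : O k ≃ₐ[k] O k) (E : W k) (f : O k) : cj φ E f = φ (E (φ.symm f)) := rfl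

theorem c0_add (f g : O k) : c0 (f + g) = c0 f + c0 g := by rw [c0, c0, c0, add_mul, top_add]

theorem c0_sub (f g : O k) : c0 (f - g) = c0 f - c0 g := by rw [c0, c0, c0, sub_mul, top_sub]

theorem c0_mul (f g : O k) : c0 (f * g) = c0 f * c0 g := by
  obtain ⟨a00, a10, a01, a20, a11, a02, a30, a21, a12, a03, a40, a31, a22, a13, a04, a41, a32, a23, a14, a42, a33, a24, a43, a34, a44, rfl⟩ := mk_surj f
  obtain ⟨b00, b10, b01, b20, b11, b02, b30, b21, b12, b03, b40, b31, b22, b13, b04, b41, b32, b23, b14, b42, b33, b24, b43, b34, b44, rfl⟩ := mk_surj g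
  rw [mk_mul, c0_mk, c0_mk, c0_mk]

theorem smul_br (A B : W k) (f : O k) : ⁅A, f • B⁆ = A f • B + f • ⁅A, B⁆ := by
  ext g
  simp only [Derivation.commutator_apply, Derivation.add_apply, Derivation.smul_apply,
    Derivation.leibniz, smul_eq_mul]
  ring

theorem br_add (A B C : W k) : ⁅A, B + C⁆ = ⁅A, B⁆ + ⁅A, C⁆ := lie_add A B C

variable [hp : CharP k 5]

theorem cj_ham (φ : O k ≃ₐ[k] O k) {c : k} (hc : c ≠ 0)
    (hj : jac (φ x) (φ y) = algebraMap k (O k) c) (f : O k) : cj φ (ham f) = ham (c⁻¹ • φ f) := by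
  ext g
  have h := jac_eqv φ f (φ.symm g)
  rw [φ.apply_symm_apply, hj, mul_comm, ← sm] at h
  rw [cj_apply, ham_smul, Derivation.smul_apply, ham_apply, ham_apply, h, smul_smul,
    inv_mul_cancel₀ hc, one_smul]

theorem cj_mem (φ : O k ≃ₐ[k] O k) {c : k} (hc : c ≠ 0)
    (hj : jac (φ x) (φ y) = algebraMap k (O k) c) (E : G k) :
    ∃ f, top f = 0 ∧ cj φ (val E) = ham f := by
  obtain ⟨f, f0, hf⟩ := val_ham E
  exact ⟨c⁻¹ • φ f, by rw [top_smul, top_eqv φ hc hj, f0, mul_zero, mul_zero],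
    by rw [hf, cj_ham φ hc hj]⟩

/-- The automorphism of the second derived algebra induced by a substitution with constant
Jacobian. -/
noncomputable def cjG (φ : O k ≃ₐ[k] O k) {c : k} (hc : c ≠ 0)
    (hj : jac (φ x) (φ y) = algebraMap k (O k) c) : G k ≃ₗ⁅k⁆ G k where
  toFun E := mkG _ (cj_mem φ hc hj E)
  invFun E := mkG _ (cj_mem φ.symm (inv_ne_zero hc) (jac_symm φ hc hj) E)
  map_add' E F := val_inj (by
    change cj φ (val E + val F) = cj φ (val E) + cj φ (val F); ext f; simp [cj_apply])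
  map_smul' a E := val_inj (by
    change cj φ (a • val E) = a • cj φ (val E); ext f; simp [cj_apply])
  map_lie' {E F} := val_inj (by
    change cj φ ⁅val E, val F⁆ = ⁅cj φ (val E), cj φ (val F)⁆; ext f
    simp [cj_apply, Derivation.commutator_apply])
  left_inv E := val_inj (by rw [val_mkG, val_mkG]; ext f; simp [cj_apply])
  right_inv E := val_inj (by rw [val_mkG, val_mkG]; ext f; simp [cj_apply])

theorem val_cjG (φ : O k ≃ₐ[k] O k) {c : k} (hc : c ≠ 0)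
    (hj : jac (φ x) (φ y) = algebraMap k (O k) c) (E : G k) :
    val (cjG φ hc hj E) = cj φ (val E) := rfl

theorem val_cjG_symm (φ : O k ≃ₐ[k] O k) {c : k} (hc : c ≠ 0)
    (hj : jac (φ x) (φ y) = algebraMap k (O k) c) (E : G k) :
    val ((cjG φ hc hj).symm E) = cj φ.symm (val E) := rfl

/-- The first partial derivative. -/
noncomputable def d0 : G k := hm 0 (-1) 0 0 0 0 0 0 0 0 0 0 0 0 0 0 0 0 0 0 0 0 0

/-- The second partial derivative. -/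
noncomputable def d1 : G k := hm 1 0 0 0 0 0 0 0 0 0 0 0 0 0 0 0 0 0 0 0 0 0 0

theorem val_d0 : val (d0 : G k) = pd 0 := by
  apply W_ext
  · rw [d0, val_hm, ham_x, pd0_x, pd1_mk, mk_neg, one_eq]; simp
  · rw [d0, val_hm, ham_y, pd0_y, pd0_mk, zero_eq]; simp

theorem val_d1 : val (d1 : G k) = pd 1 := by
  apply W_ext
  · rw [d1, val_hm, ham_x, pd1_x, pd1_mk, mk_neg, zero_eq]; simp
  · rw [d1, val_hm, ham_y, pd1_y, pd0_mk, one_eq]; simp

theorem br_d0 (a10 a01 a20 a11 a02 a30 a21 a12 a03 a40 a31 a22 a13 a04 a41 a32 a23 a14 a42 a33 a24 a43 a34 : k) :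
    ⁅(d0 : G k), hm a10 a01 a20 a11 a02 a30 a21 a12 a03 a40 a31 a22 a13 a04 a41 a32 a23 a14 a42 a33 a24 a43 a34⁆ =
    hm (2*a20) a11 (3*a30) (2*a21) a12 (4*a40) (3*a31) (2*a22) a13 0 (4*a41) (3*a32) (2*a23) a14 0
      (4*a42) (3*a33) (2*a24) 0 (4*a43) (3*a34) 0 0 := by
  rw [d0, br_hm, hm_inj]
  refine ⟨?_, ?_, ?_, ?_, ?_, ?_, ?_, ?_, ?_, ?_, ?_, ?_, ?_, ?_, ?_, ?_, ?_, ?_, ?_, ?_, ?_, ?_, ?_⟩ <;> grind

theorem br_d1 (a10 a01 a20 a11 a02 a30 a21 a12 a03 a40 a31 a22 a13 a04 a41 a32 a23 a14 a42 a33 a24 a43 a34 : k) :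
    ⁅(d1 : G k), hm a10 a01 a20 a11 a02 a30 a21 a12 a03 a40 a31 a22 a13 a04 a41 a32 a23 a14 a42 a33 a24 a43 a34⁆ =
    hm a11 (2*a02) a21 (2*a12) (3*a03) a31 (2*a22) (3*a13) (4*a04) a41 (2*a32) (3*a23) (4*a14) 0
      (2*a42) (3*a33) (4*a24) 0 (3*a43) (4*a34) 0 0 0 := by
  rw [d1, br_hm, hm_inj]
  refine ⟨?_, ?_, ?_, ?_, ?_, ?_, ?_, ?_, ?_, ?_, ?_, ?_, ?_, ?_, ?_, ?_, ?_, ?_, ?_, ?_, ?_, ?_, ?_⟩ <;> grind

theorem nz_val (E : G k) : Nz E ↔ c0 (val E x) = 0 ∧ c0 (val E y) = 0 := by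
  obtain ⟨a10, a01, a20, a11, a02, a30, a21, a12, a03, a40, a31, a22, a13, a04, a41, a32, a23, a14, a42, a33, a24, a43, a34, rfl⟩ := hm_surj E
  rw [nz_iff, val_hm, ham_x, ham_y, pd0_mk, pd1_mk, mk_neg, c0_mk, c0_mk, neg_eq_zero, and_comm]

theorem det_unit (σ : G k ≃ₗ⁅k⁆ G k) :
    IsUnit (val (σ d0) x * val (σ d1) y - val (σ d0) y * val (σ d1) x) := by
  have key : ∀ a b : k, a * c0 (val (σ d0) x) + b * c0 (val (σ d1) x) = 0 →
      a * c0 (val (σ d0) y) + b * c0 (val (σ d1) y) = 0 → a = 0 ∧ b = 0 := by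
    intro a b e1 e2
    have hn : Nz (a • σ d0 + b • σ d1) := by
      rw [nz_val, val_add, val_smul, val_smul, Derivation.add_apply, Derivation.add_apply,
        Derivation.smul_apply, Derivation.smul_apply, Derivation.smul_apply, Derivation.smul_apply,
        c0_add, c0_add, c0_smul, c0_smul, c0_smul, c0_smul]
      exact ⟨e1, e2⟩
    have := hn.map σ.symm
    rw [map_add, map_smul, map_smul, σ.symm_apply_apply, σ.symm_apply_apply, d0, d1,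
      hm_smul, hm_smul, hm_add, nz_iff] at this
    simpa [and_comm] using this
  apply unit_of_c0
  rw [c0_sub, c0_mul, c0_mul]
  generalize c0 (val (σ d0) x) = p at *
  generalize c0 (val (σ d0) y) = q at *
  generalize c0 (val (σ d1) x) = r at *
  generalize c0 (val (σ d1) y) = s at *
  intro hd
  have k1 := key s (-q) (by linear_combination hd) (by ring)
  have k2 := key r (-p) (by ring) (by linear_combination -hd)
  have k3 := key 1 0 (by simpa using k2.2) (by simpa using k1.2)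
  exact one_ne_zero k3.1

theorem dual_coord (σ : G k ≃ₗ⁅k⁆ G k) : ∃ X Y : O k, Ord 1 X ∧ Ord 1 Y ∧
    val (σ d0) X = 1 ∧ val (σ d1) X = 0 ∧ val (σ d0) Y = 0 ∧ val (σ d1) Y = 1 := by
  obtain ⟨w, hw⟩ := (det_unit σ).exists_right_inv
  have hc : ⁅(d0 : G k), (d1 : G k)⁆ = 0 := by
    rw [d1, br_d0, hm_zero]; simp only [mul_zero]
  have hc' : ⁅(d1 : G k), (d0 : G k)⁆ = 0 := by rw [← lie_skew, hc, neg_zero]
  have h0 : ⁅(d0 : G k), (hm 0 0 0 1 0 0 0 0 0 0 0 0 0 0 0 0 0 0 0 0 0 0 0 : G k)⁆ = (-1 : k) • d0 := by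
    rw [br_d0, d0, hm_smul]; simp
  have h1 : ⁅(d1 : G k), (hm 0 0 0 1 0 0 0 0 0 0 0 0 0 0 0 0 0 0 0 0 0 0 0 : G k)⁆ = d1 := by
    rw [br_d1, d1]; simp
  generalize (hm 0 0 0 1 0 0 0 0 0 0 0 0 0 0 0 0 0 0 0 0 0 0 0 : G k) = A at *
  have c01 : ⁅val (σ d0), val (σ d1)⁆ = 0 := by
    rw [← val_lie, ← σ.map_lie, hc, ← val_zero]; exact congrArg val (map_zero σ)
  have c10 : ⁅val (σ d1), val (σ d0)⁆ = 0 := by
    rw [← val_lie, ← σ.map_lie, hc', ← val_zero]; exact congrArg val (map_zero σ)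
  have g0 := congrArg (fun E => val (σ E)) h0
  have g1 := congrArg (fun E => val (σ E)) h1
  simp only [σ.map_lie, map_smul, val_lie, val_smul] at g0 g1
  generalize val (σ d0) = e0 at *
  generalize val (σ d1) = e1 at *
  generalize val (σ A) = T at *
  have c00 : ⁅e0, e0⁆ = 0 := lie_self e0
  have c11 : ⁅e1, e1⁆ = 0 := lie_self e1
  obtain ⟨a, ha⟩ : ∃ a, a = (T x * e1 y - T y * e1 x) * w := ⟨_, rfl⟩
  obtain ⟨b, hb⟩ : ∃ b, b = (T y * e0 x - T x * e0 y) * w := ⟨_, rfl⟩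
  have hA : T = a • e0 + b • e1 := by
    apply W_ext
    · simp only [Derivation.add_apply, Derivation.smul_apply, smul_eq_mul, ha, hb]
      linear_combination (-T x) * hw
    · simp only [Derivation.add_apply, Derivation.smul_apply, smul_eq_mul, ha, hb]
      linear_combination (-T y) * hw
  have indep : ∀ f g f' g' : O k, (∀ z, f * e0 z + g * e1 z = f' * e0 z + g' * e1 z) →
      f = f' ∧ g = g' := by
    intro f g f' g' h
    have hx := h x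
    have hy := h y
    constructor
    · linear_combination (f' - f) * hw + (e1 y * w) * hx - (e1 x * w) * hy
    · linear_combination (g' - g) * hw - (e0 y * w) * hx + (e0 x * w) * hy
  rw [hA, br_add, smul_br, smul_br, c00, c01, smul_zero, smul_zero, add_zero, add_zero] at g0
  rw [hA, br_add, smul_br, smul_br, c10, c11, smul_zero, smul_zero, add_zero, add_zero] at g1
  have g0' := fun z => congrArg (fun E : W k => E z) g0
  have g1' := fun z => congrArg (fun E : W k => E z) g1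
  simp only [Derivation.add_apply, Derivation.smul_apply, smul_eq_mul, neg_smul, one_smul]
    at g0' g1'
  have i0 := indep (e0 a) (e0 b) (-1) 0 (fun z => by rw [g0']; ring)
  have i1 := indep (e1 a) (e1 b) 0 1 (fun z => by rw [g1']; ring)
  refine ⟨-(a - algebraMap k _ (c0 a)), b - algebraMap k _ (c0 b), (ord_c0 a).neg, ord_c0 b,
    ?_, ?_, ?_, ?_⟩
  · rw [der_neg, der_sub, der_alg, i0.1]; ring
  · rw [der_neg, der_sub, der_alg, i1.1]; ring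
  · rw [der_sub, der_alg, i0.2]; ring
  · rw [der_sub, der_alg, i1.2]; ring

theorem fix_step (τ : G k ≃ₗ⁅k⁆ G k) (h0 : τ d0 = d0) (h1 : τ d1 = d1) (E : G k)
    (g0 : τ ⁅(d0 : G k), E⁆ = ⁅(d0 : G k), E⁆) (g1 : τ ⁅(d1 : G k), E⁆ = ⁅(d1 : G k), E⁆) :
    τ E = E := by
  obtain ⟨a10, a01, a20, a11, a02, a30, a21, a12, a03, a40, a31, a22, a13, a04, a41, a32, a23, a14, a42, a33, a24, a43, a34, rfl⟩ := hm_surj E
  have hs : hm a10 a01 a20 a11 a02 a30 a21 a12 a03 a40 a31 a22 a13 a04 a41 a32 a23 a14 a42 a33 a24 a43 a34 =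
      a10 • d1 + (-a01) • d0 + hm 0 0 a20 a11 a02 a30 a21 a12 a03 a40 a31 a22 a13 a04 a41 a32 a23 a14 a42 a33 a24 a43 a34 := by
    rw [d0, d1, hm_smul, hm_smul, hm_add, hm_add, hm_inj]; simp
  have hn : Nz (hm 0 0 a20 a11 a02 a30 a21 a12 a03 a40 a31 a22 a13 a04 a41 a32 a23 a14 a42 a33 a24 a43 a34) := (nz_iff ..).mpr ⟨rfl, rfl⟩
  have hn' := hn.map τ
  rw [τ.map_lie, h0] at g0
  rw [τ.map_lie, h1] at g1
  have e : τ (hm a10 a01 a20 a11 a02 a30 a21 a12 a03 a40 a31 a22 a13 a04 a41 a32 a23 a14 a42 a33 a24 a43 a34) =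
      a10 • d1 + (-a01) • d0 + τ (hm 0 0 a20 a11 a02 a30 a21 a12 a03 a40 a31 a22 a13 a04 a41 a32 a23 a14 a42 a33 a24 a43 a34) := by
    conv_lhs => rw [hs]
    rw [map_add, map_add, map_smul, map_smul, h0, h1]
  obtain ⟨b10, b01, b20, b11, b02, b30, b21, b12, b03, b40, b31, b22, b13, b04, b41, b32, b23, b14, b42, b33, b24, b43, b34, hF⟩ := hm_surj (τ (hm 0 0 a20 a11 a02 a30 a21 a12 a03 a40 a31 a22 a13 a04 a41 a32 a23 a14 a42 a33 a24 a43 a34))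
  rw [hF, nz_iff] at hn'
  obtain ⟨rfl, rfl⟩ := hn'
  rw [hF, d0, d1, hm_smul, hm_smul, hm_add, hm_add] at e
  rw [e, br_d0, br_d0, hm_inj] at g0
  rw [e, br_d1, br_d1, hm_inj] at g1
  rw [e, hm_inj]
  clear * - hp g0 g1
  refine ⟨?_, ?_, ?_, ?_, ?_, ?_, ?_, ?_, ?_, ?_, ?_, ?_, ?_, ?_, ?_, ?_, ?_, ?_, ?_, ?_, ?_, ?_, ?_⟩ <;> grind

theorem fix_id (τ : G k ≃ₗ⁅k⁆ G k) (h0 : τ d0 = d0) (h1 : τ d1 = d1) (E : G k) : τ E = E := by
  have z : τ (hm 0 0 0 0 0 0 0 0 0 0 0 0 0 0 0 0 0 0 0 0 0 0 0) = hm 0 0 0 0 0 0 0 0 0 0 0 0 0 0 0 0 0 0 0 0 0 0 0 := by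
    rw [← hm_zero]; exact map_zero τ
  have l1 : ∀ a10 a01 : k, τ (hm a10 a01 0 0 0 0 0 0 0 0 0 0 0 0 0 0 0 0 0 0 0 0 0) = hm a10 a01 0 0 0 0 0 0 0 0 0 0 0 0 0 0 0 0 0 0 0 0 0 :=
    fun _ _ => fix_step τ h0 h1 _ (by rw [br_d0]; simpa only [mul_zero] using z)
      (by rw [br_d1]; simpa only [mul_zero] using z)
  have l2 : ∀ a10 a01 a20 a11 a02 : k,
      τ (hm a10 a01 a20 a11 a02 0 0 0 0 0 0 0 0 0 0 0 0 0 0 0 0 0 0) =
      hm a10 a01 a20 a11 a02 0 0 0 0 0 0 0 0 0 0 0 0 0 0 0 0 0 0 :=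
    fun _ _ _ _ _ => fix_step τ h0 h1 _
      (by rw [br_d0]; simp only [mul_zero]; exact l1 ..)
      (by rw [br_d1]; simp only [mul_zero]; exact l1 ..)
  have l3 : ∀ a10 a01 a20 a11 a02 a30 a21 a12 a03 : k,
      τ (hm a10 a01 a20 a11 a02 a30 a21 a12 a03 0 0 0 0 0 0 0 0 0 0 0 0 0 0) =
      hm a10 a01 a20 a11 a02 a30 a21 a12 a03 0 0 0 0 0 0 0 0 0 0 0 0 0 0 :=
    fun _ _ _ _ _ _ _ _ _ => fix_step τ h0 h1 _
      (by rw [br_d0]; simp only [mul_zero]; exact l2 ..)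
      (by rw [br_d1]; simp only [mul_zero]; exact l2 ..)
  have l4 : ∀ a10 a01 a20 a11 a02 a30 a21 a12 a03 a40 a31 a22 a13 a04 : k,
      τ (hm a10 a01 a20 a11 a02 a30 a21 a12 a03 a40 a31 a22 a13 a04 0 0 0 0 0 0 0 0 0) =
      hm a10 a01 a20 a11 a02 a30 a21 a12 a03 a40 a31 a22 a13 a04 0 0 0 0 0 0 0 0 0 :=
    fun _ _ _ _ _ _ _ _ _ _ _ _ _ _ => fix_step τ h0 h1 _
      (by rw [br_d0]; simp only [mul_zero]; exact l3 ..)
      (by rw [br_d1]; simp only [mul_zero]; exact l3 ..)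
  have l5 : ∀ a10 a01 a20 a11 a02 a30 a21 a12 a03 a40 a31 a22 a13 a04 a41 a32 a23 a14 : k,
      τ (hm a10 a01 a20 a11 a02 a30 a21 a12 a03 a40 a31 a22 a13 a04 a41 a32 a23 a14 0 0 0 0 0) =
      hm a10 a01 a20 a11 a02 a30 a21 a12 a03 a40 a31 a22 a13 a04 a41 a32 a23 a14 0 0 0 0 0 :=
    fun _ _ _ _ _ _ _ _ _ _ _ _ _ _ _ _ _ _ => fix_step τ h0 h1 _
      (by rw [br_d0]; simp only [mul_zero]; exact l4 ..)
      (by rw [br_d1]; simp only [mul_zero]; exact l4 ..)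
  have l6 : ∀ a10 a01 a20 a11 a02 a30 a21 a12 a03 a40 a31 a22 a13 a04 a41 a32 a23 a14 a42 a33 a24 : k,
      τ (hm a10 a01 a20 a11 a02 a30 a21 a12 a03 a40 a31 a22 a13 a04 a41 a32 a23 a14 a42 a33 a24 0 0) =
      hm a10 a01 a20 a11 a02 a30 a21 a12 a03 a40 a31 a22 a13 a04 a41 a32 a23 a14 a42 a33 a24 0 0 :=
    fun _ _ _ _ _ _ _ _ _ _ _ _ _ _ _ _ _ _ _ _ _ => fix_step τ h0 h1 _
      (by rw [br_d0]; simp only [mul_zero]; exact l5 ..)
      (by rw [br_d1]; simp only [mul_zero]; exact l5 ..)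
  obtain ⟨a10, a01, a20, a11, a02, a30, a21, a12, a03, a40, a31, a22, a13, a04, a41, a32, a23, a14, a42, a33, a24, a43, a34, rfl⟩ := hm_surj E
  exact fix_step τ h0 h1 _ (by rw [br_d0]; exact l6 ..) (by rw [br_d1]; exact l6 ..)

theorem aut_eq (σ : G k ≃ₗ⁅k⁆ G k) : ∃ (φ : O k ≃ₐ[k] O k) (c : k) (hc : c ≠ 0)
    (hj : jac (φ x) (φ y) = algebraMap k (O k) c), ∀ E, σ E = cjG φ hc hj E := by
  obtain ⟨X, Y, hX, hY, x0, x1, y0, y1⟩ := dual_coord σ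
  obtain ⟨w, hw⟩ := (det_unit σ).exists_right_inv
  have m0 := mem_H.mp (val_mem (σ d0))
  have m1 := mem_H.mp (val_mem (σ d1))
  have x0' := x0
  have x1' := x1
  have y0' := y0
  have y1' := y1
  rw [chain] at x0' x1' y0' y1'
  have e : jac X Y * (val (σ d0) x * val (σ d1) y - val (σ d0) y * val (σ d1) x) = 1 := by
    unfold jac
    linear_combination (pd 0 Y * val (σ d1) x + pd 1 Y * val (σ d1) y) * x0' + y1' -
      (pd 0 Y * val (σ d0) x + pd 1 Y * val (σ d0) y) * x1'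
  have hc : c0 (jac X Y) ≠ 0 := by
    intro h
    have := congrArg c0 e
    rw [c0_mul, h, zero_mul, ← map_one (algebraMap k (O k)), c0_alg] at this
    exact zero_ne_one this
  have j1 : jac X Y * val (σ d0) x = pd 1 Y := by
    unfold jac; linear_combination pd 1 Y * x0' - pd 1 X * y0'
  have j2 : jac X Y * val (σ d0) y = -pd 0 Y := by
    unfold jac; linear_combination pd 0 X * y0' - pd 0 Y * x0'
  have j3 : jac X Y * val (σ d1) x = -pd 1 X := by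
    unfold jac; linear_combination pd 1 Y * x1' - pd 1 X * y1'
  have j4 : jac X Y * val (σ d1) y = pd 0 X := by
    unfold jac; linear_combination pd 0 X * y1' - pd 0 Y * x1'
  have k1 := congrArg (pd 0) j1
  have k2 := congrArg (pd 1) j2
  have k3 := congrArg (pd 0) j3
  have k4 := congrArg (pd 1) j4
  rw [der_mul] at k1 k2 k3 k4
  rw [der_neg] at k2 k3
  rw [pd_comm] at k1 k3
  have n0 : pd 0 (jac X Y) * val (σ d0) x + pd 1 (jac X Y) * val (σ d0) y = 0 := by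
    linear_combination k1 + k2 - jac X Y * m0
  have n1 : pd 0 (jac X Y) * val (σ d1) x + pd 1 (jac X Y) * val (σ d1) y = 0 := by
    linear_combination k3 + k4 - jac X Y * m1
  have hJ : jac X Y = algebraMap k (O k) (c0 (jac X Y)) := const_of_pd
    (by linear_combination (w * val (σ d1) y) * n0 - (w * val (σ d0) y) * n1 -
      pd 0 (jac X Y) * hw)
    (by linear_combination (w * val (σ d0) x) * n1 - (w * val (σ d1) x) * n0 -
      pd 1 (jac X Y) * hw)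
  have hx : sub X Y hX.pow5 hY.pow5 x = X := sub_x ..
  have hy : sub X Y hX.pow5 hY.pow5 y = Y := sub_y ..
  let φ := AlgEquiv.ofBijective (sub X Y hX.pow5 hY.pow5) (hom_bij _ (by rw [hx, hy]; exact hc))
  have hx' : φ x = X := hx
  have hy' : φ y = Y := hy
  have hj : jac (φ x) (φ y) = algebraMap k (O k) (c0 (jac X Y)) := by rw [hx', hy']; exact hJ
  refine ⟨φ, _, hc, hj, fun E => ?_⟩
  have := fix_id (σ.trans (cjG φ hc hj).symm)
    (val_inj (W_ext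
      (by rw [LieEquiv.trans_apply, val_cjG_symm, cj_apply, AlgEquiv.symm_symm, hx', x0, map_one,
        val_d0, pd0_x])
      (by rw [LieEquiv.trans_apply, val_cjG_symm, cj_apply, AlgEquiv.symm_symm, hy', y0, map_zero,
        val_d0, pd0_y])))
    (val_inj (W_ext
      (by rw [LieEquiv.trans_apply, val_cjG_symm, cj_apply, AlgEquiv.symm_symm, hx', x1, map_zero,
        val_d1, pd1_x])
      (by rw [LieEquiv.trans_apply, val_cjG_symm, cj_apply, AlgEquiv.symm_symm, hy', y1, map_one,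
        val_d1, pd1_y]))) E
  rw [LieEquiv.trans_apply] at this
  have h2 := congrArg (cjG φ hc hj) this
  rw [LieEquiv.apply_symm_apply] at h2
  exact h2

/-- The relation Given, on the ideal itself. -/
def Given0 (χ : Module.Dual k (G k)) (h : O k) : Prop :=
  ∀ (f : O k) (E : G k), val E = ham f → χ E = top (h * f)

theorem given_iff (χ : Module.Dual k (G k)) (h : O k) :
    Given0 χ h ↔ ∀ (f : O k) (E : G k), val E = ham f → χ E = top (h * f) := Iff.rfl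

theorem given_unique {χ χ' : Module.Dual k (G k)} {h : O k} (g : Given0 χ h) (g' : Given0 χ' h) :
    χ' = χ := by
  ext E
  obtain ⟨f, -, hf⟩ := val_ham E
  rw [g f E hf, g' f E hf]

theorem given_exists {h : O k} (h0 : top h = 0) : ∃ χ : Module.Dual k (G k), Given0 χ h := by
  obtain ⟨A, B, hAB⟩ := div_form h
  rw [h0, zero_smul, zero_add] at hAB
  refine ⟨
    { toFun := fun E => top (B * val E x - A * val E y)
      map_add' := fun E F => by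
        rw [← top_add, val_add, Derivation.add_apply, Derivation.add_apply]
        exact congrArg top (by ring)
      map_smul' := fun c E => by
        rw [RingHom.id_apply, smul_eq_mul, ← top_smul, val_smul, Derivation.smul_apply,
          Derivation.smul_apply, smul_sub, mul_smul_comm, mul_smul_comm] }, ?_⟩
  rw [given_iff]
  intro f E hE
  change top (B * val E x - A * val E y) = _
  have e : h * f = B * val E x - A * val E y + (pd 0 (A * f) + pd 1 (B * f)) := by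
    rw [hE, ham_x, ham_y, der_mul, der_mul, hAB]; ring
  rw [e, top_add, top_add, top_pd0, top_pd1, add_zero, add_zero]

theorem given_surj (χ : Module.Dual k (G k)) : ∃ a10 a01 a20 a11 a02 a30 a21 a12 a03 a40 a31 a22 a13 a04 a41 a32 a23 a14 a42 a33 a24 a43 a34 : k,
    Given0 χ (mk 0 a10 a01 a20 a11 a02 a30 a21 a12 a03 a40 a31 a22 a13 a04 a41 a32 a23 a14 a42 a33 a24 a43 a34 0) := by
  refine ⟨χ (hm 0 0 0 0 0 0 0 0 0 0 0 0 0 0 0 0 0 0 0 0 0 0 1), χ (hm 0 0 0 0 0 0 0 0 0 0 0 0 0 0 0 0 0 0 0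
      0 0 1 0), χ (hm 0 0 0 0 0 0 0 0 0 0 0 0 0 0 0 0 0 0 0 0 1 0 0), χ (hm 0 0 0 0 0 0 0 0 0 0 0
      0 0 0 0 0 0 0 0 1 0 0 0), χ (hm 0 0 0 0 0 0 0 0 0 0 0 0 0 0 0 0 0 0 1 0 0 0 0), χ (hm 0 0 0
      0 0 0 0 0 0 0 0 0 0 0 0 0 0 1 0 0 0 0 0), χ (hm 0 0 0 0 0 0 0 0 0 0 0 0 0 0 0 0 1 0 0 0 0 0
      0), χ (hm 0 0 0 0 0 0 0 0 0 0 0 0 0 0 0 1 0 0 0 0 0 0 0), χ (hm 0 0 0 0 0 0 0 0 0 0 0 0 0 0
      1 0 0 0 0 0 0 0 0), χ (hm 0 0 0 0 0 0 0 0 0 0 0 0 0 1 0 0 0 0 0 0 0 0 0), χ (hm 0 0 0 0 0 0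
      0 0 0 0 0 0 1 0 0 0 0 0 0 0 0 0 0), χ (hm 0 0 0 0 0 0 0 0 0 0 0 1 0 0 0 0 0 0 0 0 0 0 0), χ
      (hm 0 0 0 0 0 0 0 0 0 0 1 0 0 0 0 0 0 0 0 0 0 0 0), χ (hm 0 0 0 0 0 0 0 0 0 1 0 0 0 0 0 0 0
      0 0 0 0 0 0), χ (hm 0 0 0 0 0 0 0 0 1 0 0 0 0 0 0 0 0 0 0 0 0 0 0), χ (hm 0 0 0 0 0 0 0 1 0
      0 0 0 0 0 0 0 0 0 0 0 0 0 0), χ (hm 0 0 0 0 0 0 1 0 0 0 0 0 0 0 0 0 0 0 0 0 0 0 0), χ (hm 0
      0 0 0 0 1 0 0 0 0 0 0 0 0 0 0 0 0 0 0 0 0 0), χ (hm 0 0 0 0 1 0 0 0 0 0 0 0 0 0 0 0 0 0 0 0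
      0 0 0), χ (hm 0 0 0 1 0 0 0 0 0 0 0 0 0 0 0 0 0 0 0 0 0 0 0), χ (hm 0 0 1 0 0 0 0 0 0 0 0 0
      0 0 0 0 0 0 0 0 0 0 0), χ (hm 0 1 0 0 0 0 0 0 0 0 0 0 0 0 0 0 0 0 0 0 0 0 0), χ (hm 1 0 0 0
      0 0 0 0 0 0 0 0 0 0 0 0 0 0 0 0 0 0 0), ?_⟩
  rw [given_iff]
  intro f E hE
  obtain ⟨a00, a10, a01, a20, a11, a02, a30, a21, a12, a03, a40, a31, a22, a13, a04, a41, a32, a23, a14, a42, a33, a24, a43, a34, a44, rfl⟩ := mk_surj f
  obtain ⟨rfl, rfl⟩ := eq_hm hE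
  have hd : hm a10 a01 a20 a11 a02 a30 a21 a12 a03 a40 a31 a22 a13 a04 a41 a32 a23 a14 a42 a33 a24 a43 a34 =
      a10 • (hm 1 0 0 0 0 0 0 0 0 0 0 0 0 0 0 0 0 0 0 0 0 0 0 : G k) +
      a01 • (hm 0 1 0 0 0 0 0 0 0 0 0 0 0 0 0 0 0 0 0 0 0 0 0 : G k) +
      a20 • (hm 0 0 1 0 0 0 0 0 0 0 0 0 0 0 0 0 0 0 0 0 0 0 0 : G k) +
      a11 • (hm 0 0 0 1 0 0 0 0 0 0 0 0 0 0 0 0 0 0 0 0 0 0 0 : G k) +
      a02 • (hm 0 0 0 0 1 0 0 0 0 0 0 0 0 0 0 0 0 0 0 0 0 0 0 : G k) +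
      a30 • (hm 0 0 0 0 0 1 0 0 0 0 0 0 0 0 0 0 0 0 0 0 0 0 0 : G k) +
      a21 • (hm 0 0 0 0 0 0 1 0 0 0 0 0 0 0 0 0 0 0 0 0 0 0 0 : G k) +
      a12 • (hm 0 0 0 0 0 0 0 1 0 0 0 0 0 0 0 0 0 0 0 0 0 0 0 : G k) +
      a03 • (hm 0 0 0 0 0 0 0 0 1 0 0 0 0 0 0 0 0 0 0 0 0 0 0 : G k) +
      a40 • (hm 0 0 0 0 0 0 0 0 0 1 0 0 0 0 0 0 0 0 0 0 0 0 0 : G k) +
      a31 • (hm 0 0 0 0 0 0 0 0 0 0 1 0 0 0 0 0 0 0 0 0 0 0 0 : G k) +
      a22 • (hm 0 0 0 0 0 0 0 0 0 0 0 1 0 0 0 0 0 0 0 0 0 0 0 : G k) +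
      a13 • (hm 0 0 0 0 0 0 0 0 0 0 0 0 1 0 0 0 0 0 0 0 0 0 0 : G k) +
      a04 • (hm 0 0 0 0 0 0 0 0 0 0 0 0 0 1 0 0 0 0 0 0 0 0 0 : G k) +
      a41 • (hm 0 0 0 0 0 0 0 0 0 0 0 0 0 0 1 0 0 0 0 0 0 0 0 : G k) +
      a32 • (hm 0 0 0 0 0 0 0 0 0 0 0 0 0 0 0 1 0 0 0 0 0 0 0 : G k) +
      a23 • (hm 0 0 0 0 0 0 0 0 0 0 0 0 0 0 0 0 1 0 0 0 0 0 0 : G k) +
      a14 • (hm 0 0 0 0 0 0 0 0 0 0 0 0 0 0 0 0 0 1 0 0 0 0 0 : G k) +
      a42 • (hm 0 0 0 0 0 0 0 0 0 0 0 0 0 0 0 0 0 0 1 0 0 0 0 : G k) +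
      a33 • (hm 0 0 0 0 0 0 0 0 0 0 0 0 0 0 0 0 0 0 0 1 0 0 0 : G k) +
      a24 • (hm 0 0 0 0 0 0 0 0 0 0 0 0 0 0 0 0 0 0 0 0 1 0 0 : G k) +
      a43 • (hm 0 0 0 0 0 0 0 0 0 0 0 0 0 0 0 0 0 0 0 0 0 1 0 : G k) +
      a34 • (hm 0 0 0 0 0 0 0 0 0 0 0 0 0 0 0 0 0 0 0 0 0 0 1 : G k) := by
    simp only [hm_smul, hm_add, hm_inj]
    simp
  conv_lhs => rw [hd]
  simp only [map_add, map_smul, smul_eq_mul, mk_mul, top_coord]
  ring

theorem conj_iff {χ χ' : Module.Dual k (G k)} {h h' : O k} (g : Given0 χ h) (g' : Given0 χ' h')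
    (o : Ord 1 h) (o' : Ord 1 h') : Conjugate (G k) χ χ' ↔ Rel h h' := by
  have key : ∀ (φ : O k ≃ₐ[k] O k) (c : k) (hc : c ≠ 0)
      (hj : jac (φ x) (φ y) = algebraMap k (O k) c) (E : G k) (f : O k), val E = ham f →
      c ^ 3 * χ ((cjG φ hc hj).symm E) = top (φ h * f) := by
    intro φ c hc hj E f hE
    have e1 : val ((cjG φ hc hj).symm E) = ham (c • φ.symm f) := by
      rw [val_cjG_symm, hE, cj_ham φ.symm (inv_ne_zero hc) (jac_symm φ hc hj), inv_inv]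
    have e2 := top_eqv φ hc hj (h * φ.symm f)
    rw [map_mul, φ.apply_symm_apply] at e2
    rw [g _ _ e1, mul_smul_comm, top_smul, e2]
    ring
  constructor
  · rintro ⟨σ, hσ⟩
    obtain ⟨φ, c, hc, hj, hφ⟩ := aut_eq σ
    refine ⟨φ, c, hc, hj, ?_⟩
    have hs : ∀ E, σ.symm E = (cjG φ hc hj).symm E := by
      intro E
      have := hφ ((cjG φ hc hj).symm E)
      rw [LieEquiv.apply_symm_apply] at this
      rw [← this, σ.symm_apply_apply, this]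
    have k2 : ∀ f, top f = 0 → top ((φ h - c ^ 3 • h') * f) = 0 := by
      intro f f0
      have e := key φ c hc hj (mkG (ham f) ⟨f, f0, rfl⟩) f rfl
      rw [← hs, ← hσ, g' f _ rfl] at e
      rw [sub_mul, top_sub, smul_mul_assoc, top_smul, e, sub_self]
    have o2 : Ord 1 (φ h - c ^ 3 • h') := (o.hom (φ : O k →ₐ[k] O k)).sub (o'.smul _)
    rw [← sub_eq_zero]
    refine top_nondeg fun f => ?_
    have e : (φ h - c ^ 3 • h') * f = (φ h - c ^ 3 • h') * (f - top f • m 4 4) +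
        top f • ((φ h - c ^ 3 • h') * m 4 4) := by rw [sm (top f), sm (top f)]; ring
    rw [e, top_add, top_smul, k2, ord_top o2 4 4 (by norm_num), mul_zero, add_zero]
    rw [top_sub, top_smul, top_m]; simp
  · rintro ⟨φ, c, hc, hj, e⟩
    refine ⟨cjG φ hc hj, fun E => ?_⟩
    obtain ⟨f, -, hf⟩ := val_ham E
    have := key φ c hc hj E f hf
    rw [e, smul_mul_assoc, top_smul, ← g' f E hf] at this
    exact (mul_left_cancel₀ (pow_ne_zero 3 hc) this).symm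

end Pool.Agent.H25
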