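import Pool.Agent.P.MP_c9b50d_al.H.Defs

/-!
Coordinates on O(2) = k[x,y]/(x^5, y^5).
-/

namespace Pool.Agent.H25

open MvPolynomial

variable {k : Type*} [Field k]

theorem x5 : (x : O k) ^ 5 = 0 := by
  unfold x
  rw [← map_pow, Ideal.Quotient.eq_zero_iff_mem]
  exact Ideal.subset_span ⟨0, rfl⟩

theorem y5 : (y : O k) ^ 5 = 0 := by
  unfold y
  rw [← map_pow, Ideal.Quotient.eq_zero_iff_mem]
  exact Ideal.subset_span ⟨1, rfl⟩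

theorem sm (c : k) (f : O k) : c • f = algebraMap k (O k) c * f := Algebra.smul_def c f

theorem coeff_fifths (e : Fin 2 →₀ ℕ) (he : ∀ i, e i < 5) {g : MvPolynomial (Fin 2) k}
    (hg : g ∈ fifths k) : coeff e g = 0 := by
  have key : ∀ h : MvPolynomial (Fin 2) k, coeff e (h * g) = 0 := by
    unfold fifths at hg
    induction hg using Submodule.span_induction with
    | mem g hg =>
      obtain ⟨i, rfl⟩ := hg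
      intro h
      simp only [X_pow_eq_monomial, coeff_mul_monomial']
      rw [if_neg]
      intro hle
      have := hle i
      have h2 := he i
      simp at this
      omega
    | zero => simp
    | add a b _ _ ha hb => intro h; rw [mul_add, coeff_add, ha, hb, add_zero]
    | smul a b _ hb => intro h; rw [smul_eq_mul, ← mul_assoc]; exact hb _
  simpa using key 1

theorem coeff_out (e : Fin 2 →₀ ℕ) (he : ∀ i, e i < 5) (g : MvPolynomial (Fin 2) k) :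
    coeff e (Quotient.out (Ideal.Quotient.mk (fifths k) g)) = coeff e g := by
  have h : Quotient.out (Ideal.Quotient.mk (fifths k) g) - g ∈ fifths k := by
    rw [← Ideal.Quotient.eq]
    exact Ideal.Quotient.mk_out _
  have := coeff_fifths e he h
  rwa [coeff_sub, sub_eq_zero] at this

theorem top_mk (g : MvPolynomial (Fin 2) k) :
    top (Ideal.Quotient.mk (fifths k) g) = coeff (Finsupp.single 0 4 + Finsupp.single 1 4) g :=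
  coeff_out _ (fun i => by fin_cases i <;> simp) g

theorem top_add (f g : O k) : top (f + g) = top f + top g := by
  obtain ⟨f, rfl⟩ := Ideal.Quotient.mk_surjective f
  obtain ⟨g, rfl⟩ := Ideal.Quotient.mk_surjective g
  rw [← map_add, top_mk, top_mk, top_mk, coeff_add]

theorem top_smul (c : k) (f : O k) : top (c • f) = c * top f := by
  obtain ⟨f, rfl⟩ := Ideal.Quotient.mk_surjective f
  have : c • Ideal.Quotient.mk (fifths k) f = Ideal.Quotient.mk (fifths k) (c • f) := rfl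
  rw [this, top_mk, top_mk, coeff_smul, smul_eq_mul]

theorem top_m (i j : ℕ) : top (m i j : O k) = if i = 4 ∧ j = 4 then 1 else 0 := by
  unfold m x y
  rw [← map_pow, ← map_pow, ← map_mul, top_mk, X_pow_eq_monomial, X_pow_eq_monomial,
    monomial_mul, coeff_monomial]
  simp [Finsupp.ext_iff, Fin.forall_fin_two]

/-- The element of O(2) with the given coordinates. -/
noncomputable def mk (a00 a10 a01 a20 a11 a02 a30 a21 a12 a03 a40 a31 a22 a13 a04 a41 a32 a23 a14 a42 a33 a24 a43 a34 a44 : k) : O k :=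
  a00 • m 0 0 + a10 • m 1 0 + a01 • m 0 1 + a20 • m 2 0 + a11 • m 1 1 + a02 • m 0 2 + a30 • m 3 0 +
    a21 • m 2 1 + a12 • m 1 2 + a03 • m 0 3 + a40 • m 4 0 + a31 • m 3 1 + a22 • m 2 2 + a13 • m 1
    3 + a04 • m 0 4 + a41 • m 4 1 + a32 • m 3 2 + a23 • m 2 3 + a14 • m 1 4 + a42 • m 4 2 + a33 •
    m 3 3 + a24 • m 2 4 + a43 • m 4 3 + a34 • m 3 4 + a44 • m 4 4

theorem mul_gen {R : Type*} [CommRing R] (X Y : R) (hx : X ^ 5 = 0) (hy : Y ^ 5 = 0)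
    (a00 a10 a01 a20 a11 a02 a30 a21 a12 a03 a40 a31 a22 a13 a04 a41 a32 a23 a14 a42 a33 a24 a43 a34 a44 : R)
    (b00 b10 b01 b20 b11 b02 b30 b21 b12 b03 b40 b31 b22 b13 b04 b41 b32 b23 b14 b42 b33 b24 b43 b34 b44 : R) :
    (a00 * (X ^ 0 * Y ^ 0) + a10 * (X ^ 1 * Y ^ 0) + a01 * (X ^ 0 * Y ^ 1) + a20 * (X ^ 2 * Y ^ 0) +
      a11 * (X ^ 1 * Y ^ 1) + a02 * (X ^ 0 * Y ^ 2) + a30 * (X ^ 3 * Y ^ 0) + a21 * (X ^ 2 * Y ^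
      1) + a12 * (X ^ 1 * Y ^ 2) + a03 * (X ^ 0 * Y ^ 3) + a40 * (X ^ 4 * Y ^ 0) + a31 * (X ^ 3 *
      Y ^ 1) + a22 * (X ^ 2 * Y ^ 2) + a13 * (X ^ 1 * Y ^ 3) + a04 * (X ^ 0 * Y ^ 4) + a41 * (X ^
      4 * Y ^ 1) + a32 * (X ^ 3 * Y ^ 2) + a23 * (X ^ 2 * Y ^ 3) + a14 * (X ^ 1 * Y ^ 4) + a42 *
      (X ^ 4 * Y ^ 2) + a33 * (X ^ 3 * Y ^ 3) + a24 * (X ^ 2 * Y ^ 4) + a43 * (X ^ 4 * Y ^ 3) +
      a34 * (X ^ 3 * Y ^ 4) + a44 * (X ^ 4 * Y ^ 4)) *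
    (b00 * (X ^ 0 * Y ^ 0) + b10 * (X ^ 1 * Y ^ 0) + b01 * (X ^ 0 * Y ^ 1) + b20 * (X ^ 2 * Y ^ 0) +
      b11 * (X ^ 1 * Y ^ 1) + b02 * (X ^ 0 * Y ^ 2) + b30 * (X ^ 3 * Y ^ 0) + b21 * (X ^ 2 * Y ^
      1) + b12 * (X ^ 1 * Y ^ 2) + b03 * (X ^ 0 * Y ^ 3) + b40 * (X ^ 4 * Y ^ 0) + b31 * (X ^ 3 *
      Y ^ 1) + b22 * (X ^ 2 * Y ^ 2) + b13 * (X ^ 1 * Y ^ 3) + b04 * (X ^ 0 * Y ^ 4) + b41 * (X ^
      4 * Y ^ 1) + b32 * (X ^ 3 * Y ^ 2) + b23 * (X ^ 2 * Y ^ 3) + b14 * (X ^ 1 * Y ^ 4) + b42 *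
      (X ^ 4 * Y ^ 2) + b33 * (X ^ 3 * Y ^ 3) + b24 * (X ^ 2 * Y ^ 4) + b43 * (X ^ 4 * Y ^ 3) +
      b34 * (X ^ 3 * Y ^ 4) + b44 * (X ^ 4 * Y ^ 4)) =
    (a00*b00) * (X ^ 0 * Y ^ 0) + (a00*b10 + a10*b00) * (X ^ 1 * Y ^ 0) + (a00*b01 + a01*b00) * (X ^
      0 * Y ^ 1) + (a00*b20 + a10*b10 + a20*b00) * (X ^ 2 * Y ^ 0) + (a00*b11 + a01*b10 + a10*b01
      + a11*b00) * (X ^ 1 * Y ^ 1) + (a00*b02 + a01*b01 + a02*b00) * (X ^ 0 * Y ^ 2) + (a00*b30 +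
      a10*b20 + a20*b10 + a30*b00) * (X ^ 3 * Y ^ 0) + (a00*b21 + a01*b20 + a10*b11 + a11*b10 +
      a20*b01 + a21*b00) * (X ^ 2 * Y ^ 1) + (a00*b12 + a01*b11 + a02*b10 + a10*b02 + a11*b01 +
      a12*b00) * (X ^ 1 * Y ^ 2) + (a00*b03 + a01*b02 + a02*b01 + a03*b00) * (X ^ 0 * Y ^ 3) +
      (a00*b40 + a10*b30 + a20*b20 + a30*b10 + a40*b00) * (X ^ 4 * Y ^ 0) + (a00*b31 + a01*b30 +
      a10*b21 + a11*b20 + a20*b11 + a21*b10 + a30*b01 + a31*b00) * (X ^ 3 * Y ^ 1) + (a00*b22 +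
      a01*b21 + a02*b20 + a10*b12 + a11*b11 + a12*b10 + a20*b02 + a21*b01 + a22*b00) * (X ^ 2 * Y
      ^ 2) + (a00*b13 + a01*b12 + a02*b11 + a03*b10 + a10*b03 + a11*b02 + a12*b01 + a13*b00) * (X
      ^ 1 * Y ^ 3) + (a00*b04 + a01*b03 + a02*b02 + a03*b01 + a04*b00) * (X ^ 0 * Y ^ 4) +
      (a00*b41 + a01*b40 + a10*b31 + a11*b30 + a20*b21 + a21*b20 + a30*b11 + a31*b10 + a40*b01 +
      a41*b00) * (X ^ 4 * Y ^ 1) + (a00*b32 + a01*b31 + a02*b30 + a10*b22 + a11*b21 + a12*b20 +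
      a20*b12 + a21*b11 + a22*b10 + a30*b02 + a31*b01 + a32*b00) * (X ^ 3 * Y ^ 2) + (a00*b23 +
      a01*b22 + a02*b21 + a03*b20 + a10*b13 + a11*b12 + a12*b11 + a13*b10 + a20*b03 + a21*b02 +
      a22*b01 + a23*b00) * (X ^ 2 * Y ^ 3) + (a00*b14 + a01*b13 + a02*b12 + a03*b11 + a04*b10 +
      a10*b04 + a11*b03 + a12*b02 + a13*b01 + a14*b00) * (X ^ 1 * Y ^ 4) + (a00*b42 + a01*b41 +
      a02*b40 + a10*b32 + a11*b31 + a12*b30 + a20*b22 + a21*b21 + a22*b20 + a30*b12 + a31*b11 +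
      a32*b10 + a40*b02 + a41*b01 + a42*b00) * (X ^ 4 * Y ^ 2) + (a00*b33 + a01*b32 + a02*b31 +
      a03*b30 + a10*b23 + a11*b22 + a12*b21 + a13*b20 + a20*b13 + a21*b12 + a22*b11 + a23*b10 +
      a30*b03 + a31*b02 + a32*b01 + a33*b00) * (X ^ 3 * Y ^ 3) + (a00*b24 + a01*b23 + a02*b22 +
      a03*b21 + a04*b20 + a10*b14 + a11*b13 + a12*b12 + a13*b11 + a14*b10 + a20*b04 + a21*b03 +
      a22*b02 + a23*b01 + a24*b00) * (X ^ 2 * Y ^ 4) + (a00*b43 + a01*b42 + a02*b41 + a03*b40 +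
      a10*b33 + a11*b32 + a12*b31 + a13*b30 + a20*b23 + a21*b22 + a22*b21 + a23*b20 + a30*b13 +
      a31*b12 + a32*b11 + a33*b10 + a40*b03 + a41*b02 + a42*b01 + a43*b00) * (X ^ 4 * Y ^ 3) +
      (a00*b34 + a01*b33 + a02*b32 + a03*b31 + a04*b30 + a10*b24 + a11*b23 + a12*b22 + a13*b21 +
      a14*b20 + a20*b14 + a21*b13 + a22*b12 + a23*b11 + a24*b10 + a30*b04 + a31*b03 + a32*b02 +
      a33*b01 + a34*b00) * (X ^ 3 * Y ^ 4) + (a00*b44 + a01*b43 + a02*b42 + a03*b41 + a04*b40 +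
      a10*b34 + a11*b33 + a12*b32 + a13*b31 + a14*b30 + a20*b24 + a21*b23 + a22*b22 + a23*b21 +
      a24*b20 + a30*b14 + a31*b13 + a32*b12 + a33*b11 + a34*b10 + a40*b04 + a41*b03 + a42*b02 +
      a43*b01 + a44*b00) * (X ^ 4 * Y ^ 4) := by
  linear_combination (a10*b40*X^0*Y^0 + a10*b41*X^0*Y^1 + a10*b42*X^0*Y^2 + a10*b43*X^0*Y^3 + a10*b44*X^0*Y^4 +
      a20*b30*X^0*Y^0 + a20*b40*X^1*Y^0 + a20*b31*X^0*Y^1 + a20*b41*X^1*Y^1 + a20*b32*X^0*Y^2 +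
      a20*b42*X^1*Y^2 + a20*b33*X^0*Y^3 + a20*b43*X^1*Y^3 + a20*b34*X^0*Y^4 + a20*b44*X^1*Y^4 +
      a11*b40*X^0*Y^1 + a11*b41*X^0*Y^2 + a11*b42*X^0*Y^3 + a11*b43*X^0*Y^4 + a11*b44*X^0*Y^5 +
      a30*b20*X^0*Y^0 + a30*b30*X^1*Y^0 + a30*b21*X^0*Y^1 + a30*b40*X^2*Y^0 + a30*b31*X^1*Y^1 +
      a30*b22*X^0*Y^2 + a30*b41*X^2*Y^1 + a30*b32*X^1*Y^2 + a30*b23*X^0*Y^3 + a30*b42*X^2*Y^2 +
      a30*b33*X^1*Y^3 + a30*b24*X^0*Y^4 + a30*b43*X^2*Y^3 + a30*b34*X^1*Y^4 + a30*b44*X^2*Y^4 +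
      a21*b30*X^0*Y^1 + a21*b40*X^1*Y^1 + a21*b31*X^0*Y^2 + a21*b41*X^1*Y^2 + a21*b32*X^0*Y^3 +
      a21*b42*X^1*Y^3 + a21*b33*X^0*Y^4 + a21*b43*X^1*Y^4 + a21*b34*X^0*Y^5 + a21*b44*X^1*Y^5 +
      a12*b40*X^0*Y^2 + a12*b41*X^0*Y^3 + a12*b42*X^0*Y^4 + a12*b43*X^0*Y^5 + a12*b44*X^0*Y^6 +
      a40*b10*X^0*Y^0 + a40*b20*X^1*Y^0 + a40*b11*X^0*Y^1 + a40*b30*X^2*Y^0 + a40*b21*X^1*Y^1 +
      a40*b12*X^0*Y^2 + a40*b40*X^3*Y^0 + a40*b31*X^2*Y^1 + a40*b22*X^1*Y^2 + a40*b13*X^0*Y^3 +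
      a40*b41*X^3*Y^1 + a40*b32*X^2*Y^2 + a40*b23*X^1*Y^3 + a40*b14*X^0*Y^4 + a40*b42*X^3*Y^2 +
      a40*b33*X^2*Y^3 + a40*b24*X^1*Y^4 + a40*b43*X^3*Y^3 + a40*b34*X^2*Y^4 + a40*b44*X^3*Y^4 +
      a31*b20*X^0*Y^1 + a31*b30*X^1*Y^1 + a31*b21*X^0*Y^2 + a31*b40*X^2*Y^1 + a31*b31*X^1*Y^2 +
      a31*b22*X^0*Y^3 + a31*b41*X^2*Y^2 + a31*b32*X^1*Y^3 + a31*b23*X^0*Y^4 + a31*b42*X^2*Y^3 +
      a31*b33*X^1*Y^4 + a31*b24*X^0*Y^5 + a31*b43*X^2*Y^4 + a31*b34*X^1*Y^5 + a31*b44*X^2*Y^5 +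
      a22*b30*X^0*Y^2 + a22*b40*X^1*Y^2 + a22*b31*X^0*Y^3 + a22*b41*X^1*Y^3 + a22*b32*X^0*Y^4 +
      a22*b42*X^1*Y^4 + a22*b33*X^0*Y^5 + a22*b43*X^1*Y^5 + a22*b34*X^0*Y^6 + a22*b44*X^1*Y^6 +
      a13*b40*X^0*Y^3 + a13*b41*X^0*Y^4 + a13*b42*X^0*Y^5 + a13*b43*X^0*Y^6 + a13*b44*X^0*Y^7 +
      a41*b10*X^0*Y^1 + a41*b20*X^1*Y^1 + a41*b11*X^0*Y^2 + a41*b30*X^2*Y^1 + a41*b21*X^1*Y^2 +
      a41*b12*X^0*Y^3 + a41*b40*X^3*Y^1 + a41*b31*X^2*Y^2 + a41*b22*X^1*Y^3 + a41*b13*X^0*Y^4 +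
      a41*b41*X^3*Y^2 + a41*b32*X^2*Y^3 + a41*b23*X^1*Y^4 + a41*b14*X^0*Y^5 + a41*b42*X^3*Y^3 +
      a41*b33*X^2*Y^4 + a41*b24*X^1*Y^5 + a41*b43*X^3*Y^4 + a41*b34*X^2*Y^5 + a41*b44*X^3*Y^5 +
      a32*b20*X^0*Y^2 + a32*b30*X^1*Y^2 + a32*b21*X^0*Y^3 + a32*b40*X^2*Y^2 + a32*b31*X^1*Y^3 +
      a32*b22*X^0*Y^4 + a32*b41*X^2*Y^3 + a32*b32*X^1*Y^4 + a32*b23*X^0*Y^5 + a32*b42*X^2*Y^4 +
      a32*b33*X^1*Y^5 + a32*b24*X^0*Y^6 + a32*b43*X^2*Y^5 + a32*b34*X^1*Y^6 + a32*b44*X^2*Y^6 +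
      a23*b30*X^0*Y^3 + a23*b40*X^1*Y^3 + a23*b31*X^0*Y^4 + a23*b41*X^1*Y^4 + a23*b32*X^0*Y^5 +
      a23*b42*X^1*Y^5 + a23*b33*X^0*Y^6 + a23*b43*X^1*Y^6 + a23*b34*X^0*Y^7 + a23*b44*X^1*Y^7 +
      a14*b40*X^0*Y^4 + a14*b41*X^0*Y^5 + a14*b42*X^0*Y^6 + a14*b43*X^0*Y^7 + a14*b44*X^0*Y^8 +
      a42*b10*X^0*Y^2 + a42*b20*X^1*Y^2 + a42*b11*X^0*Y^3 + a42*b30*X^2*Y^2 + a42*b21*X^1*Y^3 +
      a42*b12*X^0*Y^4 + a42*b40*X^3*Y^2 + a42*b31*X^2*Y^3 + a42*b22*X^1*Y^4 + a42*b13*X^0*Y^5 +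
      a42*b41*X^3*Y^3 + a42*b32*X^2*Y^4 + a42*b23*X^1*Y^5 + a42*b14*X^0*Y^6 + a42*b42*X^3*Y^4 +
      a42*b33*X^2*Y^5 + a42*b24*X^1*Y^6 + a42*b43*X^3*Y^5 + a42*b34*X^2*Y^6 + a42*b44*X^3*Y^6 +
      a33*b20*X^0*Y^3 + a33*b30*X^1*Y^3 + a33*b21*X^0*Y^4 + a33*b40*X^2*Y^3 + a33*b31*X^1*Y^4 +
      a33*b22*X^0*Y^5 + a33*b41*X^2*Y^4 + a33*b32*X^1*Y^5 + a33*b23*X^0*Y^6 + a33*b42*X^2*Y^5 +
      a33*b33*X^1*Y^6 + a33*b24*X^0*Y^7 + a33*b43*X^2*Y^6 + a33*b34*X^1*Y^7 + a33*b44*X^2*Y^7 +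
      a24*b30*X^0*Y^4 + a24*b40*X^1*Y^4 + a24*b31*X^0*Y^5 + a24*b41*X^1*Y^5 + a24*b32*X^0*Y^6 +
      a24*b42*X^1*Y^6 + a24*b33*X^0*Y^7 + a24*b43*X^1*Y^7 + a24*b34*X^0*Y^8 + a24*b44*X^1*Y^8 +
      a43*b10*X^0*Y^3 + a43*b20*X^1*Y^3 + a43*b11*X^0*Y^4 + a43*b30*X^2*Y^3 + a43*b21*X^1*Y^4 +
      a43*b12*X^0*Y^5 + a43*b40*X^3*Y^3 + a43*b31*X^2*Y^4 + a43*b22*X^1*Y^5 + a43*b13*X^0*Y^6 +
      a43*b41*X^3*Y^4 + a43*b32*X^2*Y^5 + a43*b23*X^1*Y^6 + a43*b14*X^0*Y^7 + a43*b42*X^3*Y^5 +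
      a43*b33*X^2*Y^6 + a43*b24*X^1*Y^7 + a43*b43*X^3*Y^6 + a43*b34*X^2*Y^7 + a43*b44*X^3*Y^7 +
      a34*b20*X^0*Y^4 + a34*b30*X^1*Y^4 + a34*b21*X^0*Y^5 + a34*b40*X^2*Y^4 + a34*b31*X^1*Y^5 +
      a34*b22*X^0*Y^6 + a34*b41*X^2*Y^5 + a34*b32*X^1*Y^6 + a34*b23*X^0*Y^7 + a34*b42*X^2*Y^6 +
      a34*b33*X^1*Y^7 + a34*b24*X^0*Y^8 + a34*b43*X^2*Y^7 + a34*b34*X^1*Y^8 + a34*b44*X^2*Y^8 +
      a44*b10*X^0*Y^4 + a44*b20*X^1*Y^4 + a44*b11*X^0*Y^5 + a44*b30*X^2*Y^4 + a44*b21*X^1*Y^5 +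
      a44*b12*X^0*Y^6 + a44*b40*X^3*Y^4 + a44*b31*X^2*Y^5 + a44*b22*X^1*Y^6 + a44*b13*X^0*Y^7 +
      a44*b41*X^3*Y^5 + a44*b32*X^2*Y^6 + a44*b23*X^1*Y^7 + a44*b14*X^0*Y^8 + a44*b42*X^3*Y^6 +
      a44*b33*X^2*Y^7 + a44*b24*X^1*Y^8 + a44*b43*X^3*Y^7 + a44*b34*X^2*Y^8 + a44*b44*X^3*Y^8) * hx + (a01*b04*X^0*Y^0 + a01*b14*X^1*Y^0 + a01*b24*X^2*Y^0 + a01*b34*X^3*Y^0 + a01*b44*X^4*Y^0 +
      a11*b04*X^1*Y^0 + a11*b14*X^2*Y^0 + a11*b24*X^3*Y^0 + a11*b34*X^4*Y^0 + a02*b03*X^0*Y^0 +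
      a02*b13*X^1*Y^0 + a02*b04*X^0*Y^1 + a02*b23*X^2*Y^0 + a02*b14*X^1*Y^1 + a02*b33*X^3*Y^0 +
      a02*b24*X^2*Y^1 + a02*b43*X^4*Y^0 + a02*b34*X^3*Y^1 + a02*b44*X^4*Y^1 + a21*b04*X^2*Y^0 +
      a21*b14*X^3*Y^0 + a21*b24*X^4*Y^0 + a12*b03*X^1*Y^0 + a12*b13*X^2*Y^0 + a12*b04*X^1*Y^1 +
      a12*b23*X^3*Y^0 + a12*b14*X^2*Y^1 + a12*b33*X^4*Y^0 + a12*b24*X^3*Y^1 + a12*b34*X^4*Y^1 +
      a03*b02*X^0*Y^0 + a03*b12*X^1*Y^0 + a03*b03*X^0*Y^1 + a03*b22*X^2*Y^0 + a03*b13*X^1*Y^1 +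
      a03*b04*X^0*Y^2 + a03*b32*X^3*Y^0 + a03*b23*X^2*Y^1 + a03*b14*X^1*Y^2 + a03*b42*X^4*Y^0 +
      a03*b33*X^3*Y^1 + a03*b24*X^2*Y^2 + a03*b43*X^4*Y^1 + a03*b34*X^3*Y^2 + a03*b44*X^4*Y^2 +
      a31*b04*X^3*Y^0 + a31*b14*X^4*Y^0 + a22*b03*X^2*Y^0 + a22*b13*X^3*Y^0 + a22*b04*X^2*Y^1 +
      a22*b23*X^4*Y^0 + a22*b14*X^3*Y^1 + a22*b24*X^4*Y^1 + a13*b02*X^1*Y^0 + a13*b12*X^2*Y^0 +
      a13*b03*X^1*Y^1 + a13*b22*X^3*Y^0 + a13*b13*X^2*Y^1 + a13*b04*X^1*Y^2 + a13*b32*X^4*Y^0 +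
      a13*b23*X^3*Y^1 + a13*b14*X^2*Y^2 + a13*b33*X^4*Y^1 + a13*b24*X^3*Y^2 + a13*b34*X^4*Y^2 +
      a04*b01*X^0*Y^0 + a04*b11*X^1*Y^0 + a04*b02*X^0*Y^1 + a04*b21*X^2*Y^0 + a04*b12*X^1*Y^1 +
      a04*b03*X^0*Y^2 + a04*b31*X^3*Y^0 + a04*b22*X^2*Y^1 + a04*b13*X^1*Y^2 + a04*b04*X^0*Y^3 +
      a04*b41*X^4*Y^0 + a04*b32*X^3*Y^1 + a04*b23*X^2*Y^2 + a04*b14*X^1*Y^3 + a04*b42*X^4*Y^1 +
      a04*b33*X^3*Y^2 + a04*b24*X^2*Y^3 + a04*b43*X^4*Y^2 + a04*b34*X^3*Y^3 + a04*b44*X^4*Y^3 +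
      a41*b04*X^4*Y^0 + a32*b03*X^3*Y^0 + a32*b13*X^4*Y^0 + a32*b04*X^3*Y^1 + a32*b14*X^4*Y^1 +
      a23*b02*X^2*Y^0 + a23*b12*X^3*Y^0 + a23*b03*X^2*Y^1 + a23*b22*X^4*Y^0 + a23*b13*X^3*Y^1 +
      a23*b04*X^2*Y^2 + a23*b23*X^4*Y^1 + a23*b14*X^3*Y^2 + a23*b24*X^4*Y^2 + a14*b01*X^1*Y^0 +
      a14*b11*X^2*Y^0 + a14*b02*X^1*Y^1 + a14*b21*X^3*Y^0 + a14*b12*X^2*Y^1 + a14*b03*X^1*Y^2 +
      a14*b31*X^4*Y^0 + a14*b22*X^3*Y^1 + a14*b13*X^2*Y^2 + a14*b04*X^1*Y^3 + a14*b32*X^4*Y^1 +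
      a14*b23*X^3*Y^2 + a14*b14*X^2*Y^3 + a14*b33*X^4*Y^2 + a14*b24*X^3*Y^3 + a14*b34*X^4*Y^3 +
      a42*b03*X^4*Y^0 + a42*b04*X^4*Y^1 + a33*b02*X^3*Y^0 + a33*b12*X^4*Y^0 + a33*b03*X^3*Y^1 +
      a33*b13*X^4*Y^1 + a33*b04*X^3*Y^2 + a33*b14*X^4*Y^2 + a24*b01*X^2*Y^0 + a24*b11*X^3*Y^0 +
      a24*b02*X^2*Y^1 + a24*b21*X^4*Y^0 + a24*b12*X^3*Y^1 + a24*b03*X^2*Y^2 + a24*b22*X^4*Y^1 +
      a24*b13*X^3*Y^2 + a24*b04*X^2*Y^3 + a24*b23*X^4*Y^2 + a24*b14*X^3*Y^3 + a24*b24*X^4*Y^3 +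
      a43*b02*X^4*Y^0 + a43*b03*X^4*Y^1 + a43*b04*X^4*Y^2 + a34*b01*X^3*Y^0 + a34*b11*X^4*Y^0 +
      a34*b02*X^3*Y^1 + a34*b12*X^4*Y^1 + a34*b03*X^3*Y^2 + a34*b13*X^4*Y^2 + a34*b04*X^3*Y^3 +
      a34*b14*X^4*Y^3 + a44*b01*X^4*Y^0 + a44*b02*X^4*Y^1 + a44*b03*X^4*Y^2 + a44*b04*X^4*Y^3) * hy

section
variable (a00 a10 a01 a20 a11 a02 a30 a21 a12 a03 a40 a31 a22 a13 a04 a41 a32 a23 a14 a42 a33 a24 a43 a34 a44 : k)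
  (b00 b10 b01 b20 b11 b02 b30 b21 b12 b03 b40 b31 b22 b13 b04 b41 b32 b23 b14 b42 b33 b24 b43 b34 b44 c : k)

theorem mk_add : mk a00 a10 a01 a20 a11 a02 a30 a21 a12 a03 a40 a31 a22 a13 a04 a41 a32 a23 a14 a42 a33 a24 a43 a34 a44 +
    mk b00 b10 b01 b20 b11 b02 b30 b21 b12 b03 b40 b31 b22 b13 b04 b41 b32 b23 b14 b42 b33 b24 b43 b34 b44 =
    mk (a00 + b00) (a10 + b10) (a01 + b01) (a20 + b20) (a11 + b11) (a02 + b02) (a30 + b30) (a21 +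
      b21) (a12 + b12) (a03 + b03) (a40 + b40) (a31 + b31) (a22 + b22) (a13 + b13) (a04 + b04)
      (a41 + b41) (a32 + b32) (a23 + b23) (a14 + b14) (a42 + b42) (a33 + b33) (a24 + b24) (a43 +
      b43) (a34 + b34) (a44 + b44) := by
  simp only [mk]; module

theorem mk_sub : mk a00 a10 a01 a20 a11 a02 a30 a21 a12 a03 a40 a31 a22 a13 a04 a41 a32 a23 a14 a42 a33 a24 a43 a34 a44 -
    mk b00 b10 b01 b20 b11 b02 b30 b21 b12 b03 b40 b31 b22 b13 b04 b41 b32 b23 b14 b42 b33 b24 b43 b34 b44 =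
    mk (a00 - b00) (a10 - b10) (a01 - b01) (a20 - b20) (a11 - b11) (a02 - b02) (a30 - b30) (a21 -
      b21) (a12 - b12) (a03 - b03) (a40 - b40) (a31 - b31) (a22 - b22) (a13 - b13) (a04 - b04)
      (a41 - b41) (a32 - b32) (a23 - b23) (a14 - b14) (a42 - b42) (a33 - b33) (a24 - b24) (a43 -
      b43) (a34 - b34) (a44 - b44) := by
  simp only [mk]; module

theorem mk_neg : -mk a00 a10 a01 a20 a11 a02 a30 a21 a12 a03 a40 a31 a22 a13 a04 a41 a32 a23 a14 a42 a33 a24 a43 a34 a44 =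
    mk (-a00) (-a10) (-a01) (-a20) (-a11) (-a02) (-a30) (-a21) (-a12) (-a03) (-a40) (-a31) (-a22)
      (-a13) (-a04) (-a41) (-a32) (-a23) (-a14) (-a42) (-a33) (-a24) (-a43) (-a34) (-a44) := by
  simp only [mk]; module

theorem mk_smul : c • mk a00 a10 a01 a20 a11 a02 a30 a21 a12 a03 a40 a31 a22 a13 a04 a41 a32 a23 a14 a42 a33 a24 a43 a34 a44 =
    mk (c * a00) (c * a10) (c * a01) (c * a20) (c * a11) (c * a02) (c * a30) (c * a21) (c * a12) (c *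
      a03) (c * a40) (c * a31) (c * a22) (c * a13) (c * a04) (c * a41) (c * a32) (c * a23) (c *
      a14) (c * a42) (c * a33) (c * a24) (c * a43) (c * a34) (c * a44) := by
  simp only [mk]; module

theorem mk_mul : mk a00 a10 a01 a20 a11 a02 a30 a21 a12 a03 a40 a31 a22 a13 a04 a41 a32 a23 a14 a42 a33 a24 a43 a34 a44 *
    mk b00 b10 b01 b20 b11 b02 b30 b21 b12 b03 b40 b31 b22 b13 b04 b41 b32 b23 b14 b42 b33 b24 b43 b34 b44 =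
    mk (a00*b00) (a00*b10 + a10*b00) (a00*b01 + a01*b00) (a00*b20 + a10*b10 + a20*b00) (a00*b11 +
      a01*b10 + a10*b01 + a11*b00) (a00*b02 + a01*b01 + a02*b00) (a00*b30 + a10*b20 + a20*b10 +
      a30*b00) (a00*b21 + a01*b20 + a10*b11 + a11*b10 + a20*b01 + a21*b00) (a00*b12 + a01*b11 +
      a02*b10 + a10*b02 + a11*b01 + a12*b00) (a00*b03 + a01*b02 + a02*b01 + a03*b00) (a00*b40 +
      a10*b30 + a20*b20 + a30*b10 + a40*b00) (a00*b31 + a01*b30 + a10*b21 + a11*b20 + a20*b11 +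
      a21*b10 + a30*b01 + a31*b00) (a00*b22 + a01*b21 + a02*b20 + a10*b12 + a11*b11 + a12*b10 +
      a20*b02 + a21*b01 + a22*b00) (a00*b13 + a01*b12 + a02*b11 + a03*b10 + a10*b03 + a11*b02 +
      a12*b01 + a13*b00) (a00*b04 + a01*b03 + a02*b02 + a03*b01 + a04*b00) (a00*b41 + a01*b40 +
      a10*b31 + a11*b30 + a20*b21 + a21*b20 + a30*b11 + a31*b10 + a40*b01 + a41*b00) (a00*b32 +
      a01*b31 + a02*b30 + a10*b22 + a11*b21 + a12*b20 + a20*b12 + a21*b11 + a22*b10 + a30*b02 +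
      a31*b01 + a32*b00) (a00*b23 + a01*b22 + a02*b21 + a03*b20 + a10*b13 + a11*b12 + a12*b11 +
      a13*b10 + a20*b03 + a21*b02 + a22*b01 + a23*b00) (a00*b14 + a01*b13 + a02*b12 + a03*b11 +
      a04*b10 + a10*b04 + a11*b03 + a12*b02 + a13*b01 + a14*b00) (a00*b42 + a01*b41 + a02*b40 +
      a10*b32 + a11*b31 + a12*b30 + a20*b22 + a21*b21 + a22*b20 + a30*b12 + a31*b11 + a32*b10 +
      a40*b02 + a41*b01 + a42*b00) (a00*b33 + a01*b32 + a02*b31 + a03*b30 + a10*b23 + a11*b22 +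
      a12*b21 + a13*b20 + a20*b13 + a21*b12 + a22*b11 + a23*b10 + a30*b03 + a31*b02 + a32*b01 +
      a33*b00) (a00*b24 + a01*b23 + a02*b22 + a03*b21 + a04*b20 + a10*b14 + a11*b13 + a12*b12 +
      a13*b11 + a14*b10 + a20*b04 + a21*b03 + a22*b02 + a23*b01 + a24*b00) (a00*b43 + a01*b42 +
      a02*b41 + a03*b40 + a10*b33 + a11*b32 + a12*b31 + a13*b30 + a20*b23 + a21*b22 + a22*b21 +
      a23*b20 + a30*b13 + a31*b12 + a32*b11 + a33*b10 + a40*b03 + a41*b02 + a42*b01 + a43*b00)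
      (a00*b34 + a01*b33 + a02*b32 + a03*b31 + a04*b30 + a10*b24 + a11*b23 + a12*b22 + a13*b21 +
      a14*b20 + a20*b14 + a21*b13 + a22*b12 + a23*b11 + a24*b10 + a30*b04 + a31*b03 + a32*b02 +
      a33*b01 + a34*b00) (a00*b44 + a01*b43 + a02*b42 + a03*b41 + a04*b40 + a10*b34 + a11*b33 +
      a12*b32 + a13*b31 + a14*b30 + a20*b24 + a21*b23 + a22*b22 + a23*b21 + a24*b20 + a30*b14 +
      a31*b13 + a32*b12 + a33*b11 + a34*b10 + a40*b04 + a41*b03 + a42*b02 + a43*b01 + a44*b00) := by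
  simp only [mk, m, sm, map_add, map_mul]
  exact mul_gen _ _ x5 y5 ..

theorem top_coord : top (mk a00 a10 a01 a20 a11 a02 a30 a21 a12 a03 a40 a31 a22 a13 a04 a41 a32 a23 a14 a42 a33 a24 a43 a34 a44) = a44 := by
  simp only [mk, top_add, top_smul, top_m]
  simp

end

theorem zero_eq : (0 : O k) = mk 0 0 0 0 0 0 0 0 0 0 0 0 0 0 0 0 0 0 0 0 0 0 0 0 0 := by simp [mk]
theorem one_eq : (1 : O k) = mk 1 0 0 0 0 0 0 0 0 0 0 0 0 0 0 0 0 0 0 0 0 0 0 0 0 := by simp [mk, m]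
theorem x_eq : (x : O k) = mk 0 1 0 0 0 0 0 0 0 0 0 0 0 0 0 0 0 0 0 0 0 0 0 0 0 := by simp [mk, m]
theorem y_eq : (y : O k) = mk 0 0 1 0 0 0 0 0 0 0 0 0 0 0 0 0 0 0 0 0 0 0 0 0 0 := by simp [mk, m]
theorem alg_eq (c : k) : algebraMap k (O k) c = mk c 0 0 0 0 0 0 0 0 0 0 0 0 0 0 0 0 0 0 0 0 0 0 0 0 := by
  simp [mk, m, sm]
theorem m00 : (m 0 0 : O k) = mk 1 0 0 0 0 0 0 0 0 0 0 0 0 0 0 0 0 0 0 0 0 0 0 0 0 := by simp [mk]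
theorem m10 : (m 1 0 : O k) = mk 0 1 0 0 0 0 0 0 0 0 0 0 0 0 0 0 0 0 0 0 0 0 0 0 0 := by simp [mk]
theorem m01 : (m 0 1 : O k) = mk 0 0 1 0 0 0 0 0 0 0 0 0 0 0 0 0 0 0 0 0 0 0 0 0 0 := by simp [mk]
theorem m20 : (m 2 0 : O k) = mk 0 0 0 1 0 0 0 0 0 0 0 0 0 0 0 0 0 0 0 0 0 0 0 0 0 := by simp [mk]
theorem m11 : (m 1 1 : O k) = mk 0 0 0 0 1 0 0 0 0 0 0 0 0 0 0 0 0 0 0 0 0 0 0 0 0 := by simp [mk]
theorem m02 : (m 0 2 : O k) = mk 0 0 0 0 0 1 0 0 0 0 0 0 0 0 0 0 0 0 0 0 0 0 0 0 0 := by simp [mk]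
theorem m30 : (m 3 0 : O k) = mk 0 0 0 0 0 0 1 0 0 0 0 0 0 0 0 0 0 0 0 0 0 0 0 0 0 := by simp [mk]
theorem m21 : (m 2 1 : O k) = mk 0 0 0 0 0 0 0 1 0 0 0 0 0 0 0 0 0 0 0 0 0 0 0 0 0 := by simp [mk]
theorem m12 : (m 1 2 : O k) = mk 0 0 0 0 0 0 0 0 1 0 0 0 0 0 0 0 0 0 0 0 0 0 0 0 0 := by simp [mk]
theorem m03 : (m 0 3 : O k) = mk 0 0 0 0 0 0 0 0 0 1 0 0 0 0 0 0 0 0 0 0 0 0 0 0 0 := by simp [mk]
theorem m40 : (m 4 0 : O k) = mk 0 0 0 0 0 0 0 0 0 0 1 0 0 0 0 0 0 0 0 0 0 0 0 0 0 := by simp [mk]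
theorem m31 : (m 3 1 : O k) = mk 0 0 0 0 0 0 0 0 0 0 0 1 0 0 0 0 0 0 0 0 0 0 0 0 0 := by simp [mk]
theorem m22 : (m 2 2 : O k) = mk 0 0 0 0 0 0 0 0 0 0 0 0 1 0 0 0 0 0 0 0 0 0 0 0 0 := by simp [mk]
theorem m13 : (m 1 3 : O k) = mk 0 0 0 0 0 0 0 0 0 0 0 0 0 1 0 0 0 0 0 0 0 0 0 0 0 := by simp [mk]
theorem m04 : (m 0 4 : O k) = mk 0 0 0 0 0 0 0 0 0 0 0 0 0 0 1 0 0 0 0 0 0 0 0 0 0 := by simp [mk]
theorem m41 : (m 4 1 : O k) = mk 0 0 0 0 0 0 0 0 0 0 0 0 0 0 0 1 0 0 0 0 0 0 0 0 0 := by simp [mk]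
theorem m32 : (m 3 2 : O k) = mk 0 0 0 0 0 0 0 0 0 0 0 0 0 0 0 0 1 0 0 0 0 0 0 0 0 := by simp [mk]
theorem m23 : (m 2 3 : O k) = mk 0 0 0 0 0 0 0 0 0 0 0 0 0 0 0 0 0 1 0 0 0 0 0 0 0 := by simp [mk]
theorem m14 : (m 1 4 : O k) = mk 0 0 0 0 0 0 0 0 0 0 0 0 0 0 0 0 0 0 1 0 0 0 0 0 0 := by simp [mk]
theorem m42 : (m 4 2 : O k) = mk 0 0 0 0 0 0 0 0 0 0 0 0 0 0 0 0 0 0 0 1 0 0 0 0 0 := by simp [mk]
theorem m33 : (m 3 3 : O k) = mk 0 0 0 0 0 0 0 0 0 0 0 0 0 0 0 0 0 0 0 0 1 0 0 0 0 := by simp [mk]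
theorem m24 : (m 2 4 : O k) = mk 0 0 0 0 0 0 0 0 0 0 0 0 0 0 0 0 0 0 0 0 0 1 0 0 0 := by simp [mk]
theorem m43 : (m 4 3 : O k) = mk 0 0 0 0 0 0 0 0 0 0 0 0 0 0 0 0 0 0 0 0 0 0 1 0 0 := by simp [mk]
theorem m34 : (m 3 4 : O k) = mk 0 0 0 0 0 0 0 0 0 0 0 0 0 0 0 0 0 0 0 0 0 0 0 1 0 := by simp [mk]
theorem m44 : (m 4 4 : O k) = mk 0 0 0 0 0 0 0 0 0 0 0 0 0 0 0 0 0 0 0 0 0 0 0 0 1 := by simp [mk]

theorem mk_inj {a00 a10 a01 a20 a11 a02 a30 a21 a12 a03 a40 a31 a22 a13 a04 a41 a32 a23 a14 a42 a33 a24 a43 a34 a44 : k}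
    {b00 b10 b01 b20 b11 b02 b30 b21 b12 b03 b40 b31 b22 b13 b04 b41 b32 b23 b14 b42 b33 b24 b43 b34 b44 : k} :
    mk a00 a10 a01 a20 a11 a02 a30 a21 a12 a03 a40 a31 a22 a13 a04 a41 a32 a23 a14 a42 a33 a24 a43 a34 a44 =
    mk b00 b10 b01 b20 b11 b02 b30 b21 b12 b03 b40 b31 b22 b13 b04 b41 b32 b23 b14 b42 b33 b24 b43 b34 b44 ↔
    a00 = b00 ∧ a10 = b10 ∧ a01 = b01 ∧ a20 = b20 ∧ a11 = b11 ∧ a02 = b02 ∧ a30 = b30 ∧ a21 = b21 ∧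
      a12 = b12 ∧ a03 = b03 ∧ a40 = b40 ∧ a31 = b31 ∧ a22 = b22 ∧ a13 = b13 ∧ a04 = b04 ∧ a41 =
      b41 ∧ a32 = b32 ∧ a23 = b23 ∧ a14 = b14 ∧ a42 = b42 ∧ a33 = b33 ∧ a24 = b24 ∧ a43 = b43 ∧
      a34 = b34 ∧ a44 = b44 := by
  constructor
  · intro h
    have key : ∀ c00 c10 c01 c20 c11 c02 c30 c21 c12 c03 c40 c31 c22 c13 c04 c41 c32 c23 c14 c42 c33 c24 c43 c34 c44 : k, _ :=
      fun c00 c10 c01 c20 c11 c02 c30 c21 c12 c03 c40 c31 c22 c13 c04 c41 c32 c23 c14 c42 c33 c24 c43 c34 c44 =>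
      congrArg (fun f => top (f * mk c00 c10 c01 c20 c11 c02 c30 c21 c12 c03 c40 c31 c22 c13 c04 c41 c32 c23 c14 c42 c33 c24 c43 c34 c44)) h
    simp only [mk_mul, top_coord] at key
    refine ⟨?_, ?_, ?_, ?_, ?_, ?_, ?_, ?_, ?_, ?_, ?_, ?_, ?_, ?_, ?_, ?_, ?_, ?_, ?_, ?_, ?_, ?_, ?_, ?_, ?_⟩
    · simpa using key 0 0 0 0 0 0 0 0 0 0 0 0 0 0 0 0 0 0 0 0 0 0 0 0 1
    · simpa using key 0 0 0 0 0 0 0 0 0 0 0 0 0 0 0 0 0 0 0 0 0 0 0 1 0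
    · simpa using key 0 0 0 0 0 0 0 0 0 0 0 0 0 0 0 0 0 0 0 0 0 0 1 0 0
    · simpa using key 0 0 0 0 0 0 0 0 0 0 0 0 0 0 0 0 0 0 0 0 0 1 0 0 0
    · simpa using key 0 0 0 0 0 0 0 0 0 0 0 0 0 0 0 0 0 0 0 0 1 0 0 0 0
    · simpa using key 0 0 0 0 0 0 0 0 0 0 0 0 0 0 0 0 0 0 0 1 0 0 0 0 0
    · simpa using key 0 0 0 0 0 0 0 0 0 0 0 0 0 0 0 0 0 0 1 0 0 0 0 0 0
    · simpa using key 0 0 0 0 0 0 0 0 0 0 0 0 0 0 0 0 0 1 0 0 0 0 0 0 0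
    · simpa using key 0 0 0 0 0 0 0 0 0 0 0 0 0 0 0 0 1 0 0 0 0 0 0 0 0
    · simpa using key 0 0 0 0 0 0 0 0 0 0 0 0 0 0 0 1 0 0 0 0 0 0 0 0 0
    · simpa using key 0 0 0 0 0 0 0 0 0 0 0 0 0 0 1 0 0 0 0 0 0 0 0 0 0
    · simpa using key 0 0 0 0 0 0 0 0 0 0 0 0 0 1 0 0 0 0 0 0 0 0 0 0 0
    · simpa using key 0 0 0 0 0 0 0 0 0 0 0 0 1 0 0 0 0 0 0 0 0 0 0 0 0
    · simpa using key 0 0 0 0 0 0 0 0 0 0 0 1 0 0 0 0 0 0 0 0 0 0 0 0 0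
    · simpa using key 0 0 0 0 0 0 0 0 0 0 1 0 0 0 0 0 0 0 0 0 0 0 0 0 0
    · simpa using key 0 0 0 0 0 0 0 0 0 1 0 0 0 0 0 0 0 0 0 0 0 0 0 0 0
    · simpa using key 0 0 0 0 0 0 0 0 1 0 0 0 0 0 0 0 0 0 0 0 0 0 0 0 0
    · simpa using key 0 0 0 0 0 0 0 1 0 0 0 0 0 0 0 0 0 0 0 0 0 0 0 0 0
    · simpa using key 0 0 0 0 0 0 1 0 0 0 0 0 0 0 0 0 0 0 0 0 0 0 0 0 0
    · simpa using key 0 0 0 0 0 1 0 0 0 0 0 0 0 0 0 0 0 0 0 0 0 0 0 0 0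
    · simpa using key 0 0 0 0 1 0 0 0 0 0 0 0 0 0 0 0 0 0 0 0 0 0 0 0 0
    · simpa using key 0 0 0 1 0 0 0 0 0 0 0 0 0 0 0 0 0 0 0 0 0 0 0 0 0
    · simpa using key 0 0 1 0 0 0 0 0 0 0 0 0 0 0 0 0 0 0 0 0 0 0 0 0 0
    · simpa using key 0 1 0 0 0 0 0 0 0 0 0 0 0 0 0 0 0 0 0 0 0 0 0 0 0
    · simpa using key 1 0 0 0 0 0 0 0 0 0 0 0 0 0 0 0 0 0 0 0 0 0 0 0 0
  · rintro ⟨rfl, rfl, rfl, rfl, rfl, rfl, rfl, rfl, rfl, rfl, rfl, rfl, rfl, rfl, rfl, rfl, rfl, rfl, rfl, rfl, rfl, rfl, rfl, rfl, rfl⟩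
    rfl

theorem mk_surj (f : O k) : ∃ a00 a10 a01 a20 a11 a02 a30 a21 a12 a03 a40 a31 a22 a13 a04 a41 a32 a23 a14 a42 a33 a24 a43 a34 a44 : k,
    f = mk a00 a10 a01 a20 a11 a02 a30 a21 a12 a03 a40 a31 a22 a13 a04 a41 a32 a23 a14 a42 a33 a24 a43 a34 a44 := by
  induction f using ind with
  | hc a => exact ⟨_, _, _, _, _, _, _, _, _, _, _, _, _, _, _, _, _, _, _, _, _, _, _, _, _, alg_eq a⟩
  | ha p q hp hq =>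
    obtain ⟨_, _, _, _, _, _, _, _, _, _, _, _, _, _, _, _, _, _, _, _, _, _, _, _, _, hp⟩ := hp
    obtain ⟨_, _, _, _, _, _, _, _, _, _, _, _, _, _, _, _, _, _, _, _, _, _, _, _, _, hq⟩ := hq
    rw [hp, hq, mk_add]
    exact ⟨_, _, _, _, _, _, _, _, _, _, _, _, _, _, _, _, _, _, _, _, _, _, _, _, _, rfl⟩
  | hx p hp =>
    obtain ⟨_, _, _, _, _, _, _, _, _, _, _, _, _, _, _, _, _, _, _, _, _, _, _, _, _, hp⟩ := hp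
    rw [hp, x_eq, mk_mul]
    exact ⟨_, _, _, _, _, _, _, _, _, _, _, _, _, _, _, _, _, _, _, _, _, _, _, _, _, rfl⟩
  | hy p hp =>
    obtain ⟨_, _, _, _, _, _, _, _, _, _, _, _, _, _, _, _, _, _, _, _, _, _, _, _, _, hp⟩ := hp
    rw [hp, y_eq, mk_mul]
    exact ⟨_, _, _, _, _, _, _, _, _, _, _, _, _, _, _, _, _, _, _, _, _, _, _, _, _, rfl⟩

instance finiteO : Module.Finite k (O k) := by
  let L : (Fin 25 → k) →ₗ[k] O k :=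
    { toFun := fun a => mk (a 0) (a 1) (a 2) (a 3) (a 4) (a 5) (a 6) (a 7) (a 8) (a 9) (a 10) (a 11) (a 12) (a 13) (a 14) (a 15) (a 16) (a 17) (a 18) (a 19) (a 20) (a 21) (a 22) (a 23) (a 24)
      map_add' := fun a b => by simp only [mk_add, Pi.add_apply]
      map_smul' := fun c a => by simp only [mk_smul, Pi.smul_apply, smul_eq_mul, RingHom.id_apply] }
  refine Module.Finite.of_surjective L fun f => ?_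
  obtain ⟨a00, a10, a01, a20, a11, a02, a30, a21, a12, a03, a40, a31, a22, a13, a04, a41, a32, a23, a14, a42, a33, a24, a43, a34, a44, rfl⟩ := mk_surj f
  exact ⟨![a00, a10, a01, a20, a11, a02, a30, a21, a12, a03, a40, a31, a22, a13, a04, a41, a32, a23, a14, a42, a33, a24, a43, a34, a44], rfl⟩

variable [CharP k 5]

omit [CharP k 5] in
theorem der_add (E : W k) (f g : O k) : E (f + g) = E f + E g := map_add E f g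

omit [CharP k 5] in
theorem der_sub (E : W k) (f g : O k) : E (f - g) = E f - E g := map_sub E f g

omit [CharP k 5] in
theorem der_neg (E : W k) (f : O k) : E (-f) = -E f := map_neg E f

omit [CharP k 5] in
theorem der_smul (E : W k) (c : k) (f : O k) : E (c • f) = c • E f := E.map_smul c f

omit [CharP k 5] in
theorem der_mul (E : W k) (f g : O k) : E (f * g) = f * E g + g * E f := by
  rw [Derivation.leibniz, smul_eq_mul, smul_eq_mul]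

omit [CharP k 5] in
theorem der_pow (E : W k) (f : O k) (n : ℕ) : E (f ^ n) = (n : O k) * f ^ (n - 1) * E f := by
  rw [Derivation.leibniz_pow, nsmul_eq_mul, smul_eq_mul, mul_assoc]

omit [CharP k 5] in
theorem der_alg (E : W k) (c : k) : E (algebraMap k (O k) c) = 0 := E.map_algebraMap c

theorem pd0_m (i j : ℕ) : pd 0 (m i j : O k) = (i : k) • m (i - 1) j := by
  rw [m, m, der_mul, der_pow, der_pow, pd0_x, pd0_y, sm, map_natCast]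
  ring

theorem pd1_m (i j : ℕ) : pd 1 (m i j : O k) = (j : k) • m i (j - 1) := by
  rw [m, m, der_mul, der_pow, der_pow, pd1_x, pd1_y, sm, map_natCast]
  ring

theorem pd0_mk (a00 a10 a01 a20 a11 a02 a30 a21 a12 a03 a40 a31 a22 a13 a04 a41 a32 a23 a14 a42 a33 a24 a43 a34 a44 : k) :
    pd 0 (mk a00 a10 a01 a20 a11 a02 a30 a21 a12 a03 a40 a31 a22 a13 a04 a41 a32 a23 a14 a42 a33 a24 a43 a34 a44) =
    mk a10 (2*a20) a11 (3*a30) (2*a21) a12 (4*a40) (3*a31) (2*a22) a13 0 (4*a41) (3*a32) (2*a23) a14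
      0 (4*a42) (3*a33) (2*a24) 0 (4*a43) (3*a34) 0 (4*a44) 0 := by
  simp only [mk, der_add, der_smul, pd0_m]
  simp only [Nat.cast_ofNat, Nat.cast_zero, Nat.cast_one, Nat.reduceSub]
  module

theorem pd1_mk (a00 a10 a01 a20 a11 a02 a30 a21 a12 a03 a40 a31 a22 a13 a04 a41 a32 a23 a14 a42 a33 a24 a43 a34 a44 : k) :
    pd 1 (mk a00 a10 a01 a20 a11 a02 a30 a21 a12 a03 a40 a31 a22 a13 a04 a41 a32 a23 a14 a42 a33 a24 a43 a34 a44) =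
    mk a01 a11 (2*a02) a21 (2*a12) (3*a03) a31 (2*a22) (3*a13) (4*a04) a41 (2*a32) (3*a23) (4*a14) 0
      (2*a42) (3*a33) (4*a24) 0 (3*a43) (4*a34) 0 (4*a44) 0 0 := by
  simp only [mk, der_add, der_smul, pd1_m]
  simp only [Nat.cast_ofNat, Nat.cast_zero, Nat.cast_one, Nat.reduceSub]
  module

end Pool.Agent.H25
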