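import Mathlib

/-!
Coadjoint orbits of the Hamiltonian algebra H(2,1)^(2) in characteristic 5: definitions.
-/

namespace Pool.Agent.H25

open MvPolynomial

variable (k : Type*) [Field k]

/-- The ideal generated by the fifth powers of the two variables. -/
noncomputable def fifths : Ideal (MvPolynomial (Fin 2) k) :=
  Ideal.span (Set.range fun i : Fin 2 => (X i : MvPolynomial (Fin 2) k) ^ 5)

/-- The truncated polynomial algebra O(2) = k[x,y]/(x^5, y^5). -/
abbrev O := MvPolynomial (Fin 2) k ⧸ fifths k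

/-- The Jacobson-Witt algebra W(2,1) = Der O(2), with the commutator bracket. -/
abbrev W := Derivation k (O k) (O k)

variable {k}

/-- The class of the first variable. -/
noncomputable def x : O k := Ideal.Quotient.mk (fifths k) (X 0)

/-- The class of the second variable. -/
noncomputable def y : O k := Ideal.Quotient.mk (fifths k) (X 1)

/-- The monomial x^i y^j. -/
noncomputable def m (i j : ℕ) : O k := x ^ i * y ^ j

/-- The coefficient of x^4 y^4 (read off from any representative polynomial). -/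
noncomputable def top (f : O k) : k :=
  coeff (Finsupp.single 0 4 + Finsupp.single 1 4) (Quotient.out f)

/-- Two characters of a Lie algebra L are conjugate when an automorphism of L carries one to the
other. -/
def Conjugate (L : Type*) [LieRing L] [LieAlgebra k L] (χ χ' : Module.Dual k L) : Prop :=
  ∃ φ : L ≃ₗ⁅k⁆ L, ∀ E, χ' E = χ (φ.symm E)

theorem ind {p : O k → Prop} (hc : ∀ a : k, p (algebraMap k (O k) a))
    (ha : ∀ f g, p f → p g → p (f + g)) (hx : ∀ f, p f → p (f * x)) (hy : ∀ f, p f → p (f * y))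
    (f : O k) : p f := by
  obtain ⟨f, rfl⟩ := Ideal.Quotient.mk_surjective f
  induction f using MvPolynomial.induction_on with
  | C a => exact hc a
  | add f g hf hg => rw [map_add]; exact ha _ _ hf hg
  | mul_X f i hf =>
    rw [map_mul]
    fin_cases i
    · exact hx _ hf
    · exact hy _ hf

theorem W_ext {E F : W k} (hx : E x = F x) (hy : E y = F y) : E = F := by
  ext f
  induction f using ind with
  | hc a => simp
  | ha f g hf hg => rw [map_add, map_add, hf, hg]
  | hx f hf => rw [Derivation.leibniz, Derivation.leibniz, hf, hx]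
  | hy f hf => rw [Derivation.leibniz, Derivation.leibniz, hf, hy]

variable [CharP k 5]

theorem pderiv_fifths (i : Fin 2) (g : MvPolynomial (Fin 2) k)
    (hg : Ideal.Quotient.mkₐ k (fifths k) g = 0) :
    Ideal.Quotient.mkₐ k (fifths k) (pderiv i g) = 0 := by
  rw [Ideal.Quotient.mkₐ_eq_mk, Ideal.Quotient.eq_zero_iff_mem] at *
  unfold fifths at hg
  induction hg using Submodule.span_induction with
  | mem g hg =>
    obtain ⟨j, rfl⟩ := hg
    have h5 : (5 : MvPolynomial (Fin 2) k) = 0 := by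
      have h : (5 : MvPolynomial (Fin 2) k) = C 5 := rfl
      have h' : (5 : k) = 0 := by exact_mod_cast CharP.cast_eq_zero k 5
      rw [h, h', map_zero]
    simp only [Derivation.leibniz_pow, nsmul_eq_mul, Nat.cast_ofNat, h5, zero_mul]
    exact zero_mem _
  | zero => simp
  | add a b _ _ ha hb => rw [map_add]; exact add_mem ha hb
  | smul a b hb' hb =>
    rw [smul_eq_mul, Derivation.leibniz]
    exact add_mem (Ideal.mul_mem_left _ _ hb) (Ideal.mul_mem_right _ _ hb')

/-- The partial derivatives d/dx (i = 0) and d/dy (i = 1) on O(2). -/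
noncomputable def pd (i : Fin 2) : W k :=
  Derivation.liftOfSurjective (Ideal.Quotient.mkₐ_surjective k (fifths k))
    (d := pderiv i) (pderiv_fifths i)

theorem pd_X (i j : Fin 2) : pd i (Ideal.Quotient.mk (fifths k) (X j)) =
    if j = i then 1 else 0 := by
  have := Derivation.liftOfSurjective_apply (Ideal.Quotient.mkₐ_surjective k (fifths k))
    (d := pderiv i) (pderiv_fifths i) (X j)
  rw [Ideal.Quotient.mkₐ_eq_mk] at this
  unfold pd
  rw [this, pderiv_X]
  by_cases h : j = i
  · simp [h]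
  · simp [h]

theorem pd0_x : pd 0 (x : O k) = 1 := by simpa [x] using pd_X (k := k) 0 0
theorem pd0_y : pd 0 (y : O k) = 0 := by simpa [y] using pd_X (k := k) 0 1
theorem pd1_x : pd 1 (x : O k) = 0 := by simpa [x] using pd_X (k := k) 1 0
theorem pd1_y : pd 1 (y : O k) = 1 := by simpa [y] using pd_X (k := k) 1 1

theorem chain (E : W k) (f : O k) : E f = pd 0 f * E x + pd 1 f * E y := by
  have h : E = E x • pd 0 + E y • pd 1 :=
    W_ext (by simp [pd0_x, pd1_x]) (by simp [pd0_y, pd1_y])
  conv_lhs => rw [h]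
  simp only [Derivation.add_apply, Derivation.smul_apply, smul_eq_mul]
  ring

theorem pd_comm (f : O k) : pd 0 (pd 1 f) = pd 1 (pd 0 f) := by
  have h : ⁅(pd 0 : W k), (pd 1 : W k)⁆ = 0 :=
    W_ext (by simp [Derivation.commutator_apply, pd0_x, pd1_x])
      (by simp [Derivation.commutator_apply, pd0_y, pd1_y])
  have := congrArg (fun E : W k => E f) h
  simpa [Derivation.commutator_apply, sub_eq_zero] using this

variable (k) in
/-- The Hamiltonian algebra H(2,1): the derivations that annihilate the form dx dy, that is,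
those of divergence zero. -/
noncomputable def H : LieSubalgebra k (W k) where
  carrier := {D | pd 0 (D x) + pd 1 (D y) = 0}
  add_mem' := by
    intro D E hD hE
    simp only [Set.mem_ofPred_eq, Derivation.add_apply, map_add] at *
    linear_combination hD + hE
  zero_mem' := by simp
  smul_mem' := by
    intro c D hD
    simp only [Set.mem_ofPred_eq, Derivation.smul_apply, Derivation.map_smul] at *
    rw [← smul_add, hD, smul_zero]
  lie_mem' := by
    intro D E hD hE
    simp only [Set.mem_ofPred_eq, Derivation.commutator_apply] at *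
    have d0 := congrArg (pd 0) hD
    have d1 := congrArg (pd 1) hD
    have e0 := congrArg (pd 0) hE
    have e1 := congrArg (pd 1) hE
    rw [chain D (E x), chain D (E y), chain E (D x), chain E (D y)]
    simp only [map_add, map_sub, map_zero, Derivation.leibniz, smul_eq_mul, pd_comm] at *
    linear_combination D x * e0 + D y * e1 - E x * d0 - E y * d1

variable (k) in
/-- The Hamiltonian algebra H(2,1) as a type, with its structure of a subalgebra of W(2,1). -/
def HT : Type _ := ↥(H k)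

noncomputable instance : LieRing (HT k) := LieSubalgebra.lieRing k (W k) (H k)

noncomputable instance : LieAlgebra k (HT k) := LieSubalgebra.lieAlgebra k (W k) (H k)

/-- The derivation of O(2) that an element of H(2,1) is. -/
noncomputable def HT.der (E : HT k) : W k := E.1

variable (k) in
/-- The restricted simple Lie algebra of Cartan type H(2,1)^(2): the second derived algebra. -/
noncomputable abbrev L : LieIdeal k (HT k) := LieAlgebra.derivedSeries k (HT k) 2

/-- The Hamiltonian derivation f_x d/dy - f_y d/dx of f. -/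
noncomputable def ham (f : O k) : W k := pd 0 f • pd 1 - pd 1 f • pd 0

/-- The character χ of H(2,1)^(2) is given by h in O(2): its value at the Hamiltonian derivation
of f is the coefficient of x^4 y^4 in h f. -/
def Given (χ : Module.Dual k (L k)) (h : O k) : Prop :=
  ∀ (f : O k) (E : L k), (E : HT k).der = ham f → χ E = top (h * f)

/-- The 24 families of normal forms, with their parameters. -/
inductive NF (k : Type*) [Field k] where
  | A (a b c : k)
  | B1 (a b : k)
  | B2 (a b c : k)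
  | B3 (c : k)
  | C1 (a b c : k)
  | C2 (a b c : k)
  | C3 (c : k)
  | C4 (c : k)
  | C5
  | C6 (d : k)
  | D1 (l : k) (hl : l ^ 2 ≠ 3)
  | D2 (a b : k)
  | D3 (a : k)
  | D4 (a b : k)
  | D5
  | D6 (b c : k)
  | E1
  | E2
  | E3
  | E4
  | F1 (a : kˣ)
  | F2
  | G1
  | Z

/-- The element h of O(2) of each normal form. -/
noncomputable def NF.h : NF k → O k
  | .A a b c => m 1 0 + a • m 1 4 + b • m 2 4 + c • m 3 4
  | .B1 a b => m 1 1 + a • m 2 2 + b • m 3 3
  | .B2 a b c => m 2 0 + a • m 0 3 + b • m 0 4 + c • m 2 4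
  | .B3 c => m 2 0 + c • m 2 4 + m 3 4
  | .C1 a b c => m 3 0 + m 0 3 + a • m 4 0 + b • m 0 4 + c • m 4 1
  | .C2 a b c => m 2 1 + a • m 0 4 + b • m 3 1 + c • m 2 3
  | .C3 c => m 3 0 + m 0 4 + c • m 1 4
  | .C4 c => m 3 0 + m 1 3 + c • m 1 4
  | .C5 => m 3 0 + m 1 4
  | .C6 d => m 3 0 + d • m 3 4
  | .D1 l _ => m 3 1 + l • m 2 2 + m 1 3
  | .D2 a b => m 4 0 + m 1 3 + a • m 4 1 + b • m 2 3
  | .D3 a => m 2 2 + a • m 3 3
  | .D4 a b => m 3 1 + a • m 3 2 + b • m 1 4
  | .D5 => m 4 0 + m 1 4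
  | .D6 b c => m 4 0 + b • m 2 3 + c • m 2 4
  | .E1 => m 3 2 + m 2 3
  | .E2 => m 3 2
  | .E3 => m 4 1 + m 2 4
  | .E4 => m 4 1
  | .F1 a => (a : k) • m 3 3
  | .F2 => m 4 2
  | .G1 => m 4 3
  | .Z => 0

omit [CharP k 5] in
/-- The rule deciding when two normal forms are conjugate: they lie in the same family and their
parameters agree up to the symmetries written out. -/
def NF.Rule (n n' : NF k) : Prop :=
  match n with
  | .A a b c => ∃ l : k, l ≠ 0 ∧ n' = .A (l ^ 8 * a) (l ^ 5 * b) (l ^ 2 * c)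
  | .B1 a b => ∃ s : k, s ^ 4 = 1 ∧ n' = .B1 (s * a) (s ^ 2 * b)
  | .B2 a b c => ∃ t : k, t ≠ 0 ∧ n' = .B2 (t ^ 9 * a) (t ^ 10 * b) (t ^ 4 * c)
  | .C1 a b c => ∃ s t : k, (s ^ 3 = 1 ∧ t ^ 3 = 1 ∧ n' = .C1 (s * a) (t * b) (s * t * c)) ∨
      (s ^ 3 = -1 ∧ t ^ 3 = -1 ∧ n' = .C1 (t * b) (s * a) (s * t * c))
  | .C2 a b c => ∃ t : k, t ≠ 0 ∧ n' = .C2 (t ^ 7 * a) (t⁻¹ ^ 2 * b) (t ^ 2 * c)
  | .C3 c => ∃ s : k, s ^ 9 = 1 ∧ n' = .C3 (s * c)
  | .C4 c => ∃ t : k, t ^ 3 = 1 ∧ n' = .C4 (t * c)
  | .C6 d => ∃ t : k, t ^ 3 = 1 ∧ n' = .C6 (t * d)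
  | .D1 l _ => ∃ (l' : k) (hl' : l' ^ 2 ≠ 3), n' = .D1 l' hl' ∧
      (l' ^ 2 - 4) * (l ^ 2 - 3) ^ 3 = (l ^ 2 - 4) * (l' ^ 2 - 3) ^ 3
  | .D2 a b => ∃ a' b' : k, n' = .D2 a' b' ∧ b' ^ 4 + 2 * a' ^ 3 * b' = b ^ 4 + 2 * a ^ 3 * b ∧
      a' ^ 6 + 3 * b' ^ 6 = a ^ 6 + 3 * b ^ 6
  | .D3 a => n' = n ∨ n' = .D3 (-a)
  | .D4 a b => ∃ t u : k, t ^ 2 = 1 ∧ u ≠ 0 ∧ n' = .D4 (t * a) (u * b)
  | .D6 b c => ∃ t : k, t ≠ 0 ∧ n' = .D6 (t ^ 3 * b) (t ^ 2 * c)
  | .F1 a => n' = n ∨ n' = .F1 (-a)
  | _ => n' = n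

end Pool.Agent.H25
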