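import Pool.Agent.P.MP_c9b50d_al.H.Tab

/-!
Linear moves in coordinates.
-/

namespace Pool.Agent.H25

variable {k : Type*} [Field k] [hp : CharP k 5]

theorem ln11 (u10 u01 v10 v01 : k) (hc : u10 * v01 - u01 * v10 ≠ 0)
    (a10 a01 a20 a11 a02 a30 a21 a12 a03 a40 a31 a22 a13 a04 a41 a32 a23 a14 a42 a33 a24 a43 a34 : k)
    (c10 c01 : k)
    (h10 : (u10 * v01 - u01 * v10) ^ 3 * c10 = a01*v10 + a10*u10) (h01 : (u10 * v01 - u01 * v10) ^ 3
      * c01 = a01*v01 + a10*u01) :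
    ∃ b20 b11 b02 b30 b21 b12 b03 b40 b31 b22 b13 b04 b41 b32 b23 b14 b42 b33 b24 b43 b34 : k, Rel (mk 0 a10 a01 a20 a11 a02 a30 a21 a12 a03 a40 a31 a22 a13 a04 a41 a32 a23 a14 a42 a33 a24 a43 a34 0)
      (mk 0 c10 c01 b20 b11 b02 b30 b21 b12 b03 b40 b31 b22 b13 b04 b41 b32 b23 b14 b42 b33 b24 b43 b34 0) := by
  obtain ⟨h', r, e⟩ := lin_act u10 u01 v10 v01 hc 0 a10 a01 a20 a11 a02 a30 a21 a12 a03 a40 a31 a22 a13 a04 a41 a32 a23 a14 a42 a33 a24 a43 a34 0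
  obtain ⟨b00, b10, b01, b20, b11, b02, b30, b21, b12, b03, b40, b31, b22, b13, b04, b41, b32, b23, b14, b42, b33, b24, b43, b34, b44, rfl⟩ := mk_surj h'
  rw [mk_smul, mk_inj] at e
  obtain ⟨e00, e10, e01, e20, e11, e02, e30, e21, e12, e03, e40, e31, e22, e13, e04, e41, e32, e23, e14, e42, e33, e24, e43, e34, e44⟩ := e
  have e : 0 = b00 := mul_left_cancel₀ (pow_ne_zero 3 hc) (by linear_combination - e00)
  subst e
  have e : c10 = b10 := mul_left_cancel₀ (pow_ne_zero 3 hc) (by linear_combination h10 - e10)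
  subst e
  have e : c01 = b01 := mul_left_cancel₀ (pow_ne_zero 3 hc) (by linear_combination h01 - e01)
  subst e
  have e : 0 = b44 := mul_left_cancel₀ (pow_ne_zero 3 hc) (by linear_combination - e44)
  subst e
  exact ⟨_, _, _, _, _, _, _, _, _, _, _, _, _, _, _, _, _, _, _, _, _, r⟩

theorem ln22 (u10 u01 v10 v01 : k) (hc : u10 * v01 - u01 * v10 ≠ 0)
    (a20 a11 a02 a30 a21 a12 a03 a40 a31 a22 a13 a04 a41 a32 a23 a14 a42 a33 a24 a43 a34 : k)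
    (c20 c11 c02 : k)
    (h20 : (u10 * v01 - u01 * v10) ^ 3 * c20 = a02*v10*v10 + a11*u10*v10 + a20*u10*u10) (h11 : (u10 *
      v01 - u01 * v10) ^ 3 * c11 = 2*a02*v01*v10 + a11*u01*v10 + a11*u10*v01 + 2*a20*u01*u10)
      (h02 : (u10 * v01 - u01 * v10) ^ 3 * c02 = a02*v01*v01 + a11*u01*v01 + a20*u01*u01) :
    ∃ b30 b21 b12 b03 b40 b31 b22 b13 b04 b41 b32 b23 b14 b42 b33 b24 b43 b34 : k, Rel (mk 0 0 0 a20 a11 a02 a30 a21 a12 a03 a40 a31 a22 a13 a04 a41 a32 a23 a14 a42 a33 a24 a43 a34 0)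
      (mk 0 0 0 c20 c11 c02 b30 b21 b12 b03 b40 b31 b22 b13 b04 b41 b32 b23 b14 b42 b33 b24 b43 b34 0) := by
  obtain ⟨h', r, e⟩ := lin_act u10 u01 v10 v01 hc 0 0 0 a20 a11 a02 a30 a21 a12 a03 a40 a31 a22 a13 a04 a41 a32 a23 a14 a42 a33 a24 a43 a34 0
  obtain ⟨b00, b10, b01, b20, b11, b02, b30, b21, b12, b03, b40, b31, b22, b13, b04, b41, b32, b23, b14, b42, b33, b24, b43, b34, b44, rfl⟩ := mk_surj h'
  rw [mk_smul, mk_inj] at e
  obtain ⟨e00, e10, e01, e20, e11, e02, e30, e21, e12, e03, e40, e31, e22, e13, e04, e41, e32, e23, e14, e42, e33, e24, e43, e34, e44⟩ := e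
  have e : 0 = b00 := mul_left_cancel₀ (pow_ne_zero 3 hc) (by linear_combination - e00)
  subst e
  have e : 0 = b10 := mul_left_cancel₀ (pow_ne_zero 3 hc) (by linear_combination - e10)
  subst e
  have e : 0 = b01 := mul_left_cancel₀ (pow_ne_zero 3 hc) (by linear_combination - e01)
  subst e
  have e : c20 = b20 := mul_left_cancel₀ (pow_ne_zero 3 hc) (by linear_combination h20 - e20)
  subst e
  have e : c11 = b11 := mul_left_cancel₀ (pow_ne_zero 3 hc) (by linear_combination h11 - e11)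
  subst e
  have e : c02 = b02 := mul_left_cancel₀ (pow_ne_zero 3 hc) (by linear_combination h02 - e02)
  subst e
  have e : 0 = b44 := mul_left_cancel₀ (pow_ne_zero 3 hc) (by linear_combination - e44)
  subst e
  exact ⟨_, _, _, _, _, _, _, _, _, _, _, _, _, _, _, _, _, _, r⟩

theorem ln33 (u10 u01 v10 v01 : k) (hc : u10 * v01 - u01 * v10 ≠ 0)
    (a30 a21 a12 a03 a40 a31 a22 a13 a04 a41 a32 a23 a14 a42 a33 a24 a43 a34 : k)
    (c30 c21 c12 c03 : k)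
    (h30 : (u10 * v01 - u01 * v10) ^ 3 * c30 = a03*v10*v10*v10 + a12*u10*v10*v10 + a21*u10*u10*v10 +
      a30*u10*u10*u10) (h21 : (u10 * v01 - u01 * v10) ^ 3 * c21 = 3*a03*v01*v10*v10 +
      a12*u01*v10*v10 + 2*a12*u10*v01*v10 + 2*a21*u01*u10*v10 + a21*u10*u10*v01 +
      3*a30*u01*u10*u10) (h12 : (u10 * v01 - u01 * v10) ^ 3 * c12 = 3*a03*v01*v01*v10 +
      2*a12*u01*v01*v10 + a12*u10*v01*v01 + 2*a21*u01*u10*v01 + a21*u01*u01*v10 +
      3*a30*u01*u01*u10) (h03 : (u10 * v01 - u01 * v10) ^ 3 * c03 = a03*v01*v01*v01 +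
      a12*u01*v01*v01 + a21*u01*u01*v01 + a30*u01*u01*u01) :
    ∃ b40 b31 b22 b13 b04 b41 b32 b23 b14 b42 b33 b24 b43 b34 : k, Rel (mk 0 0 0 0 0 0 a30 a21 a12 a03 a40 a31 a22 a13 a04 a41 a32 a23 a14 a42 a33 a24 a43 a34 0)
      (mk 0 0 0 0 0 0 c30 c21 c12 c03 b40 b31 b22 b13 b04 b41 b32 b23 b14 b42 b33 b24 b43 b34 0) := by
  obtain ⟨h', r, e⟩ := lin_act u10 u01 v10 v01 hc 0 0 0 0 0 0 a30 a21 a12 a03 a40 a31 a22 a13 a04 a41 a32 a23 a14 a42 a33 a24 a43 a34 0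
  obtain ⟨b00, b10, b01, b20, b11, b02, b30, b21, b12, b03, b40, b31, b22, b13, b04, b41, b32, b23, b14, b42, b33, b24, b43, b34, b44, rfl⟩ := mk_surj h'
  rw [mk_smul, mk_inj] at e
  obtain ⟨e00, e10, e01, e20, e11, e02, e30, e21, e12, e03, e40, e31, e22, e13, e04, e41, e32, e23, e14, e42, e33, e24, e43, e34, e44⟩ := e
  have e : 0 = b00 := mul_left_cancel₀ (pow_ne_zero 3 hc) (by linear_combination - e00)
  subst e
  have e : 0 = b10 := mul_left_cancel₀ (pow_ne_zero 3 hc) (by linear_combination - e10)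
  subst e
  have e : 0 = b01 := mul_left_cancel₀ (pow_ne_zero 3 hc) (by linear_combination - e01)
  subst e
  have e : 0 = b20 := mul_left_cancel₀ (pow_ne_zero 3 hc) (by linear_combination - e20)
  subst e
  have e : 0 = b11 := mul_left_cancel₀ (pow_ne_zero 3 hc) (by linear_combination - e11)
  subst e
  have e : 0 = b02 := mul_left_cancel₀ (pow_ne_zero 3 hc) (by linear_combination - e02)
  subst e
  have e : c30 = b30 := mul_left_cancel₀ (pow_ne_zero 3 hc) (by linear_combination h30 - e30)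
  subst e
  have e : c21 = b21 := mul_left_cancel₀ (pow_ne_zero 3 hc) (by linear_combination h21 - e21)
  subst e
  have e : c12 = b12 := mul_left_cancel₀ (pow_ne_zero 3 hc) (by linear_combination h12 - e12)
  subst e
  have e : c03 = b03 := mul_left_cancel₀ (pow_ne_zero 3 hc) (by linear_combination h03 - e03)
  subst e
  have e : 0 = b44 := mul_left_cancel₀ (pow_ne_zero 3 hc) (by linear_combination - e44)
  subst e
  exact ⟨_, _, _, _, _, _, _, _, _, _, _, _, _, _, r⟩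

theorem ln34 (u10 u01 v10 v01 : k) (hc : u10 * v01 - u01 * v10 ≠ 0)
    (a30 a21 a12 a03 a40 a31 a22 a13 a04 a41 a32 a23 a14 a42 a33 a24 a43 a34 : k)
    (c30 c21 c12 c03 c40 c31 c22 c13 c04 : k)
    (h30 : (u10 * v01 - u01 * v10) ^ 3 * c30 = a03*v10*v10*v10 + a12*u10*v10*v10 + a21*u10*u10*v10 +
      a30*u10*u10*u10) (h21 : (u10 * v01 - u01 * v10) ^ 3 * c21 = 3*a03*v01*v10*v10 +
      a12*u01*v10*v10 + 2*a12*u10*v01*v10 + 2*a21*u01*u10*v10 + a21*u10*u10*v01 +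
      3*a30*u01*u10*u10) (h12 : (u10 * v01 - u01 * v10) ^ 3 * c12 = 3*a03*v01*v01*v10 +
      2*a12*u01*v01*v10 + a12*u10*v01*v01 + 2*a21*u01*u10*v01 + a21*u01*u01*v10 +
      3*a30*u01*u01*u10) (h03 : (u10 * v01 - u01 * v10) ^ 3 * c03 = a03*v01*v01*v01 +
      a12*u01*v01*v01 + a21*u01*u01*v01 + a30*u01*u01*u01) (h40 : (u10 * v01 - u01 * v10) ^ 3 *
      c40 = a04*v10^(4:ℕ) + a13*u10*v10*v10*v10 + a22*u10*u10*v10*v10 + a31*u10*u10*u10*v10 +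
      a40*u10^(4:ℕ)) (h31 : (u10 * v01 - u01 * v10) ^ 3 * c31 = 4*a04*v01*v10*v10*v10 +
      a13*u01*v10*v10*v10 + 3*a13*u10*v01*v10*v10 + 2*a22*u01*u10*v10*v10 + 2*a22*u10*u10*v01*v10
      + 3*a31*u01*u10*u10*v10 + a31*u10*u10*u10*v01 + 4*a40*u01*u10*u10*u10) (h22 : (u10 * v01 -
      u01 * v10) ^ 3 * c22 = 6*a04*v01*v01*v10*v10 + 3*a13*u01*v01*v10*v10 +
      3*a13*u10*v01*v01*v10 + 4*a22*u01*u10*v01*v10 + a22*u01*u01*v10*v10 + a22*u10*u10*v01*v01 +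
      3*a31*u01*u10*u10*v01 + 3*a31*u01*u01*u10*v10 + 6*a40*u01*u01*u10*u10) (h13 : (u10 * v01 -
      u01 * v10) ^ 3 * c13 = 4*a04*v01*v01*v01*v10 + 3*a13*u01*v01*v01*v10 + a13*u10*v01*v01*v01
      + 2*a22*u01*u10*v01*v01 + 2*a22*u01*u01*v01*v10 + 3*a31*u01*u01*u10*v01 +
      a31*u01*u01*u01*v10 + 4*a40*u01*u01*u01*u10) (h04 : (u10 * v01 - u01 * v10) ^ 3 * c04 =
      a04*v01^(4:ℕ) + a13*u01*v01*v01*v01 + a22*u01*u01*v01*v01 + a31*u01*u01*u01*v01 +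
      a40*u01^(4:ℕ)) :
    ∃ b41 b32 b23 b14 b42 b33 b24 b43 b34 : k, Rel (mk 0 0 0 0 0 0 a30 a21 a12 a03 a40 a31 a22 a13 a04 a41 a32 a23 a14 a42 a33 a24 a43 a34 0)
      (mk 0 0 0 0 0 0 c30 c21 c12 c03 c40 c31 c22 c13 c04 b41 b32 b23 b14 b42 b33 b24 b43 b34 0) := by
  obtain ⟨h', r, e⟩ := lin_act u10 u01 v10 v01 hc 0 0 0 0 0 0 a30 a21 a12 a03 a40 a31 a22 a13 a04 a41 a32 a23 a14 a42 a33 a24 a43 a34 0
  obtain ⟨b00, b10, b01, b20, b11, b02, b30, b21, b12, b03, b40, b31, b22, b13, b04, b41, b32, b23, b14, b42, b33, b24, b43, b34, b44, rfl⟩ := mk_surj h'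
  rw [mk_smul, mk_inj] at e
  obtain ⟨e00, e10, e01, e20, e11, e02, e30, e21, e12, e03, e40, e31, e22, e13, e04, e41, e32, e23, e14, e42, e33, e24, e43, e34, e44⟩ := e
  have e : 0 = b00 := mul_left_cancel₀ (pow_ne_zero 3 hc) (by linear_combination - e00)
  subst e
  have e : 0 = b10 := mul_left_cancel₀ (pow_ne_zero 3 hc) (by linear_combination - e10)
  subst e
  have e : 0 = b01 := mul_left_cancel₀ (pow_ne_zero 3 hc) (by linear_combination - e01)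
  subst e
  have e : 0 = b20 := mul_left_cancel₀ (pow_ne_zero 3 hc) (by linear_combination - e20)
  subst e
  have e : 0 = b11 := mul_left_cancel₀ (pow_ne_zero 3 hc) (by linear_combination - e11)
  subst e
  have e : 0 = b02 := mul_left_cancel₀ (pow_ne_zero 3 hc) (by linear_combination - e02)
  subst e
  have e : c30 = b30 := mul_left_cancel₀ (pow_ne_zero 3 hc) (by linear_combination h30 - e30)
  subst e
  have e : c21 = b21 := mul_left_cancel₀ (pow_ne_zero 3 hc) (by linear_combination h21 - e21)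
  subst e
  have e : c12 = b12 := mul_left_cancel₀ (pow_ne_zero 3 hc) (by linear_combination h12 - e12)
  subst e
  have e : c03 = b03 := mul_left_cancel₀ (pow_ne_zero 3 hc) (by linear_combination h03 - e03)
  subst e
  have e : c40 = b40 := mul_left_cancel₀ (pow_ne_zero 3 hc) (by linear_combination h40 - e40)
  subst e
  have e : c31 = b31 := mul_left_cancel₀ (pow_ne_zero 3 hc) (by linear_combination h31 - e31)
  subst e
  have e : c22 = b22 := mul_left_cancel₀ (pow_ne_zero 3 hc) (by linear_combination h22 - e22)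
  subst e
  have e : c13 = b13 := mul_left_cancel₀ (pow_ne_zero 3 hc) (by linear_combination h13 - e13)
  subst e
  have e : c04 = b04 := mul_left_cancel₀ (pow_ne_zero 3 hc) (by linear_combination h04 - e04)
  subst e
  have e : 0 = b44 := mul_left_cancel₀ (pow_ne_zero 3 hc) (by linear_combination - e44)
  subst e
  exact ⟨_, _, _, _, _, _, _, _, _, r⟩

theorem ln44 (u10 u01 v10 v01 : k) (hc : u10 * v01 - u01 * v10 ≠ 0)
    (a40 a31 a22 a13 a04 a41 a32 a23 a14 a42 a33 a24 a43 a34 : k)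
    (c40 c31 c22 c13 c04 : k)
    (h40 : (u10 * v01 - u01 * v10) ^ 3 * c40 = a04*v10^(4:ℕ) + a13*u10*v10*v10*v10 +
      a22*u10*u10*v10*v10 + a31*u10*u10*u10*v10 + a40*u10^(4:ℕ)) (h31 : (u10 * v01 - u01 * v10) ^
      3 * c31 = 4*a04*v01*v10*v10*v10 + a13*u01*v10*v10*v10 + 3*a13*u10*v01*v10*v10 +
      2*a22*u01*u10*v10*v10 + 2*a22*u10*u10*v01*v10 + 3*a31*u01*u10*u10*v10 + a31*u10*u10*u10*v01
      + 4*a40*u01*u10*u10*u10) (h22 : (u10 * v01 - u01 * v10) ^ 3 * c22 = 6*a04*v01*v01*v10*v10 +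
      3*a13*u01*v01*v10*v10 + 3*a13*u10*v01*v01*v10 + 4*a22*u01*u10*v01*v10 + a22*u01*u01*v10*v10
      + a22*u10*u10*v01*v01 + 3*a31*u01*u10*u10*v01 + 3*a31*u01*u01*u10*v10 +
      6*a40*u01*u01*u10*u10) (h13 : (u10 * v01 - u01 * v10) ^ 3 * c13 = 4*a04*v01*v01*v01*v10 +
      3*a13*u01*v01*v01*v10 + a13*u10*v01*v01*v01 + 2*a22*u01*u10*v01*v01 + 2*a22*u01*u01*v01*v10
      + 3*a31*u01*u01*u10*v01 + a31*u01*u01*u01*v10 + 4*a40*u01*u01*u01*u10) (h04 : (u10 * v01 -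
      u01 * v10) ^ 3 * c04 = a04*v01^(4:ℕ) + a13*u01*v01*v01*v01 + a22*u01*u01*v01*v01 +
      a31*u01*u01*u01*v01 + a40*u01^(4:ℕ)) :
    ∃ b41 b32 b23 b14 b42 b33 b24 b43 b34 : k, Rel (mk 0 0 0 0 0 0 0 0 0 0 a40 a31 a22 a13 a04 a41 a32 a23 a14 a42 a33 a24 a43 a34 0)
      (mk 0 0 0 0 0 0 0 0 0 0 c40 c31 c22 c13 c04 b41 b32 b23 b14 b42 b33 b24 b43 b34 0) := by
  obtain ⟨h', r, e⟩ := lin_act u10 u01 v10 v01 hc 0 0 0 0 0 0 0 0 0 0 a40 a31 a22 a13 a04 a41 a32 a23 a14 a42 a33 a24 a43 a34 0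
  obtain ⟨b00, b10, b01, b20, b11, b02, b30, b21, b12, b03, b40, b31, b22, b13, b04, b41, b32, b23, b14, b42, b33, b24, b43, b34, b44, rfl⟩ := mk_surj h'
  rw [mk_smul, mk_inj] at e
  obtain ⟨e00, e10, e01, e20, e11, e02, e30, e21, e12, e03, e40, e31, e22, e13, e04, e41, e32, e23, e14, e42, e33, e24, e43, e34, e44⟩ := e
  have e : 0 = b00 := mul_left_cancel₀ (pow_ne_zero 3 hc) (by linear_combination - e00)
  subst e
  have e : 0 = b10 := mul_left_cancel₀ (pow_ne_zero 3 hc) (by linear_combination - e10)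
  subst e
  have e : 0 = b01 := mul_left_cancel₀ (pow_ne_zero 3 hc) (by linear_combination - e01)
  subst e
  have e : 0 = b20 := mul_left_cancel₀ (pow_ne_zero 3 hc) (by linear_combination - e20)
  subst e
  have e : 0 = b11 := mul_left_cancel₀ (pow_ne_zero 3 hc) (by linear_combination - e11)
  subst e
  have e : 0 = b02 := mul_left_cancel₀ (pow_ne_zero 3 hc) (by linear_combination - e02)
  subst e
  have e : 0 = b30 := mul_left_cancel₀ (pow_ne_zero 3 hc) (by linear_combination - e30)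
  subst e
  have e : 0 = b21 := mul_left_cancel₀ (pow_ne_zero 3 hc) (by linear_combination - e21)
  subst e
  have e : 0 = b12 := mul_left_cancel₀ (pow_ne_zero 3 hc) (by linear_combination - e12)
  subst e
  have e : 0 = b03 := mul_left_cancel₀ (pow_ne_zero 3 hc) (by linear_combination - e03)
  subst e
  have e : c40 = b40 := mul_left_cancel₀ (pow_ne_zero 3 hc) (by linear_combination h40 - e40)
  subst e
  have e : c31 = b31 := mul_left_cancel₀ (pow_ne_zero 3 hc) (by linear_combination h31 - e31)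
  subst e
  have e : c22 = b22 := mul_left_cancel₀ (pow_ne_zero 3 hc) (by linear_combination h22 - e22)
  subst e
  have e : c13 = b13 := mul_left_cancel₀ (pow_ne_zero 3 hc) (by linear_combination h13 - e13)
  subst e
  have e : c04 = b04 := mul_left_cancel₀ (pow_ne_zero 3 hc) (by linear_combination h04 - e04)
  subst e
  have e : 0 = b44 := mul_left_cancel₀ (pow_ne_zero 3 hc) (by linear_combination - e44)
  subst e
  exact ⟨_, _, _, _, _, _, _, _, _, r⟩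

theorem ln45 (u10 u01 v10 v01 : k) (hc : u10 * v01 - u01 * v10 ≠ 0)
    (a40 a31 a22 a13 a04 a41 a32 a23 a14 a42 a33 a24 a43 a34 : k)
    (c40 c31 c22 c13 c04 c41 c32 c23 c14 : k)
    (h40 : (u10 * v01 - u01 * v10) ^ 3 * c40 = a04*v10^(4:ℕ) + a13*u10*v10*v10*v10 +
      a22*u10*u10*v10*v10 + a31*u10*u10*u10*v10 + a40*u10^(4:ℕ)) (h31 : (u10 * v01 - u01 * v10) ^
      3 * c31 = 4*a04*v01*v10*v10*v10 + a13*u01*v10*v10*v10 + 3*a13*u10*v01*v10*v10 +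
      2*a22*u01*u10*v10*v10 + 2*a22*u10*u10*v01*v10 + 3*a31*u01*u10*u10*v10 + a31*u10*u10*u10*v01
      + 4*a40*u01*u10*u10*u10) (h22 : (u10 * v01 - u01 * v10) ^ 3 * c22 = 6*a04*v01*v01*v10*v10 +
      3*a13*u01*v01*v10*v10 + 3*a13*u10*v01*v01*v10 + 4*a22*u01*u10*v01*v10 + a22*u01*u01*v10*v10
      + a22*u10*u10*v01*v01 + 3*a31*u01*u10*u10*v01 + 3*a31*u01*u01*u10*v10 +
      6*a40*u01*u01*u10*u10) (h13 : (u10 * v01 - u01 * v10) ^ 3 * c13 = 4*a04*v01*v01*v01*v10 +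
      3*a13*u01*v01*v01*v10 + a13*u10*v01*v01*v01 + 2*a22*u01*u10*v01*v01 + 2*a22*u01*u01*v01*v10
      + 3*a31*u01*u01*u10*v01 + a31*u01*u01*u01*v10 + 4*a40*u01*u01*u01*u10) (h04 : (u10 * v01 -
      u01 * v10) ^ 3 * c04 = a04*v01^(4:ℕ) + a13*u01*v01*v01*v01 + a22*u01*u01*v01*v01 +
      a31*u01*u01*u01*v01 + a40*u01^(4:ℕ)) (h41 : (u10 * v01 - u01 * v10) ^ 3 * c41 =
      a14*u01*v10^(4:ℕ) + 4*a14*u10*v01*v10*v10*v10 + 2*a23*u01*u10*v10*v10*v10 +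
      3*a23*u10*u10*v01*v10*v10 + 3*a32*u01*u10*u10*v10*v10 + 2*a32*u10*u10*u10*v01*v10 +
      4*a41*u01*u10*u10*u10*v10 + a41*u10^(4:ℕ)*v01) (h32 : (u10 * v01 - u01 * v10) ^ 3 * c32 =
      4*a14*u01*v01*v10*v10*v10 + 6*a14*u10*v01*v01*v10*v10 + 6*a23*u01*u10*v01*v10*v10 +
      a23*u01*u01*v10*v10*v10 + 3*a23*u10*u10*v01*v01*v10 + 6*a32*u01*u10*u10*v01*v10 +
      3*a32*u01*u01*u10*v10*v10 + a32*u10*u10*u10*v01*v01 + 4*a41*u01*u10*u10*u10*v01 +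
      6*a41*u01*u01*u10*u10*v10) (h23 : (u10 * v01 - u01 * v10) ^ 3 * c23 =
      6*a14*u01*v01*v01*v10*v10 + 4*a14*u10*v01*v01*v01*v10 + 6*a23*u01*u10*v01*v01*v10 +
      3*a23*u01*u01*v01*v10*v10 + a23*u10*u10*v01*v01*v01 + 3*a32*u01*u10*u10*v01*v01 +
      6*a32*u01*u01*u10*v01*v10 + a32*u01*u01*u01*v10*v10 + 6*a41*u01*u01*u10*u10*v01 +
      4*a41*u01*u01*u01*u10*v10) (h14 : (u10 * v01 - u01 * v10) ^ 3 * c14 =
      4*a14*u01*v01*v01*v01*v10 + a14*u10*v01^(4:ℕ) + 2*a23*u01*u10*v01*v01*v01 +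
      3*a23*u01*u01*v01*v01*v10 + 3*a32*u01*u01*u10*v01*v01 + 2*a32*u01*u01*u01*v01*v10 +
      4*a41*u01*u01*u01*u10*v01 + a41*u01^(4:ℕ)*v10) :
    ∃ b42 b33 b24 b43 b34 : k, Rel (mk 0 0 0 0 0 0 0 0 0 0 a40 a31 a22 a13 a04 a41 a32 a23 a14 a42 a33 a24 a43 a34 0)
      (mk 0 0 0 0 0 0 0 0 0 0 c40 c31 c22 c13 c04 c41 c32 c23 c14 b42 b33 b24 b43 b34 0) := by
  obtain ⟨h', r, e⟩ := lin_act u10 u01 v10 v01 hc 0 0 0 0 0 0 0 0 0 0 a40 a31 a22 a13 a04 a41 a32 a23 a14 a42 a33 a24 a43 a34 0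
  obtain ⟨b00, b10, b01, b20, b11, b02, b30, b21, b12, b03, b40, b31, b22, b13, b04, b41, b32, b23, b14, b42, b33, b24, b43, b34, b44, rfl⟩ := mk_surj h'
  rw [mk_smul, mk_inj] at e
  obtain ⟨e00, e10, e01, e20, e11, e02, e30, e21, e12, e03, e40, e31, e22, e13, e04, e41, e32, e23, e14, e42, e33, e24, e43, e34, e44⟩ := e
  have e : 0 = b00 := mul_left_cancel₀ (pow_ne_zero 3 hc) (by linear_combination - e00)
  subst e
  have e : 0 = b10 := mul_left_cancel₀ (pow_ne_zero 3 hc) (by linear_combination - e10)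
  subst e
  have e : 0 = b01 := mul_left_cancel₀ (pow_ne_zero 3 hc) (by linear_combination - e01)
  subst e
  have e : 0 = b20 := mul_left_cancel₀ (pow_ne_zero 3 hc) (by linear_combination - e20)
  subst e
  have e : 0 = b11 := mul_left_cancel₀ (pow_ne_zero 3 hc) (by linear_combination - e11)
  subst e
  have e : 0 = b02 := mul_left_cancel₀ (pow_ne_zero 3 hc) (by linear_combination - e02)
  subst e
  have e : 0 = b30 := mul_left_cancel₀ (pow_ne_zero 3 hc) (by linear_combination - e30)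
  subst e
  have e : 0 = b21 := mul_left_cancel₀ (pow_ne_zero 3 hc) (by linear_combination - e21)
  subst e
  have e : 0 = b12 := mul_left_cancel₀ (pow_ne_zero 3 hc) (by linear_combination - e12)
  subst e
  have e : 0 = b03 := mul_left_cancel₀ (pow_ne_zero 3 hc) (by linear_combination - e03)
  subst e
  have e : c40 = b40 := mul_left_cancel₀ (pow_ne_zero 3 hc) (by linear_combination h40 - e40)
  subst e
  have e : c31 = b31 := mul_left_cancel₀ (pow_ne_zero 3 hc) (by linear_combination h31 - e31)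
  subst e
  have e : c22 = b22 := mul_left_cancel₀ (pow_ne_zero 3 hc) (by linear_combination h22 - e22)
  subst e
  have e : c13 = b13 := mul_left_cancel₀ (pow_ne_zero 3 hc) (by linear_combination h13 - e13)
  subst e
  have e : c04 = b04 := mul_left_cancel₀ (pow_ne_zero 3 hc) (by linear_combination h04 - e04)
  subst e
  have e : c41 = b41 := mul_left_cancel₀ (pow_ne_zero 3 hc) (by linear_combination h41 - e41)
  subst e
  have e : c32 = b32 := mul_left_cancel₀ (pow_ne_zero 3 hc) (by linear_combination h32 - e32)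
  subst e
  have e : c23 = b23 := mul_left_cancel₀ (pow_ne_zero 3 hc) (by linear_combination h23 - e23)
  subst e
  have e : c14 = b14 := mul_left_cancel₀ (pow_ne_zero 3 hc) (by linear_combination h14 - e14)
  subst e
  have e : 0 = b44 := mul_left_cancel₀ (pow_ne_zero 3 hc) (by linear_combination - e44)
  subst e
  exact ⟨_, _, _, _, _, r⟩

theorem ln55 (u10 u01 v10 v01 : k) (hc : u10 * v01 - u01 * v10 ≠ 0)
    (a41 a32 a23 a14 a42 a33 a24 a43 a34 : k)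
    (c41 c32 c23 c14 : k)
    (h41 : (u10 * v01 - u01 * v10) ^ 3 * c41 = a14*u01*v10^(4:ℕ) + 4*a14*u10*v01*v10*v10*v10 +
      2*a23*u01*u10*v10*v10*v10 + 3*a23*u10*u10*v01*v10*v10 + 3*a32*u01*u10*u10*v10*v10 +
      2*a32*u10*u10*u10*v01*v10 + 4*a41*u01*u10*u10*u10*v10 + a41*u10^(4:ℕ)*v01) (h32 : (u10 *
      v01 - u01 * v10) ^ 3 * c32 = 4*a14*u01*v01*v10*v10*v10 + 6*a14*u10*v01*v01*v10*v10 +
      6*a23*u01*u10*v01*v10*v10 + a23*u01*u01*v10*v10*v10 + 3*a23*u10*u10*v01*v01*v10 +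
      6*a32*u01*u10*u10*v01*v10 + 3*a32*u01*u01*u10*v10*v10 + a32*u10*u10*u10*v01*v01 +
      4*a41*u01*u10*u10*u10*v01 + 6*a41*u01*u01*u10*u10*v10) (h23 : (u10 * v01 - u01 * v10) ^ 3 *
      c23 = 6*a14*u01*v01*v01*v10*v10 + 4*a14*u10*v01*v01*v01*v10 + 6*a23*u01*u10*v01*v01*v10 +
      3*a23*u01*u01*v01*v10*v10 + a23*u10*u10*v01*v01*v01 + 3*a32*u01*u10*u10*v01*v01 +
      6*a32*u01*u01*u10*v01*v10 + a32*u01*u01*u01*v10*v10 + 6*a41*u01*u01*u10*u10*v01 +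
      4*a41*u01*u01*u01*u10*v10) (h14 : (u10 * v01 - u01 * v10) ^ 3 * c14 =
      4*a14*u01*v01*v01*v01*v10 + a14*u10*v01^(4:ℕ) + 2*a23*u01*u10*v01*v01*v01 +
      3*a23*u01*u01*v01*v01*v10 + 3*a32*u01*u01*u10*v01*v01 + 2*a32*u01*u01*u01*v01*v10 +
      4*a41*u01*u01*u01*u10*v01 + a41*u01^(4:ℕ)*v10) :
    ∃ b42 b33 b24 b43 b34 : k, Rel (mk 0 0 0 0 0 0 0 0 0 0 0 0 0 0 0 a41 a32 a23 a14 a42 a33 a24 a43 a34 0)
      (mk 0 0 0 0 0 0 0 0 0 0 0 0 0 0 0 c41 c32 c23 c14 b42 b33 b24 b43 b34 0) := by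
  obtain ⟨h', r, e⟩ := lin_act u10 u01 v10 v01 hc 0 0 0 0 0 0 0 0 0 0 0 0 0 0 0 a41 a32 a23 a14 a42 a33 a24 a43 a34 0
  obtain ⟨b00, b10, b01, b20, b11, b02, b30, b21, b12, b03, b40, b31, b22, b13, b04, b41, b32, b23, b14, b42, b33, b24, b43, b34, b44, rfl⟩ := mk_surj h'
  rw [mk_smul, mk_inj] at e
  obtain ⟨e00, e10, e01, e20, e11, e02, e30, e21, e12, e03, e40, e31, e22, e13, e04, e41, e32, e23, e14, e42, e33, e24, e43, e34, e44⟩ := e
  have e : 0 = b00 := mul_left_cancel₀ (pow_ne_zero 3 hc) (by linear_combination - e00)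
  subst e
  have e : 0 = b10 := mul_left_cancel₀ (pow_ne_zero 3 hc) (by linear_combination - e10)
  subst e
  have e : 0 = b01 := mul_left_cancel₀ (pow_ne_zero 3 hc) (by linear_combination - e01)
  subst e
  have e : 0 = b20 := mul_left_cancel₀ (pow_ne_zero 3 hc) (by linear_combination - e20)
  subst e
  have e : 0 = b11 := mul_left_cancel₀ (pow_ne_zero 3 hc) (by linear_combination - e11)
  subst e
  have e : 0 = b02 := mul_left_cancel₀ (pow_ne_zero 3 hc) (by linear_combination - e02)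
  subst e
  have e : 0 = b30 := mul_left_cancel₀ (pow_ne_zero 3 hc) (by linear_combination - e30)
  subst e
  have e : 0 = b21 := mul_left_cancel₀ (pow_ne_zero 3 hc) (by linear_combination - e21)
  subst e
  have e : 0 = b12 := mul_left_cancel₀ (pow_ne_zero 3 hc) (by linear_combination - e12)
  subst e
  have e : 0 = b03 := mul_left_cancel₀ (pow_ne_zero 3 hc) (by linear_combination - e03)
  subst e
  have e : 0 = b40 := mul_left_cancel₀ (pow_ne_zero 3 hc) (by linear_combination - e40)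
  subst e
  have e : 0 = b31 := mul_left_cancel₀ (pow_ne_zero 3 hc) (by linear_combination - e31)
  subst e
  have e : 0 = b22 := mul_left_cancel₀ (pow_ne_zero 3 hc) (by linear_combination - e22)
  subst e
  have e : 0 = b13 := mul_left_cancel₀ (pow_ne_zero 3 hc) (by linear_combination - e13)
  subst e
  have e : 0 = b04 := mul_left_cancel₀ (pow_ne_zero 3 hc) (by linear_combination - e04)
  subst e
  have e : c41 = b41 := mul_left_cancel₀ (pow_ne_zero 3 hc) (by linear_combination h41 - e41)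
  subst e
  have e : c32 = b32 := mul_left_cancel₀ (pow_ne_zero 3 hc) (by linear_combination h32 - e32)
  subst e
  have e : c23 = b23 := mul_left_cancel₀ (pow_ne_zero 3 hc) (by linear_combination h23 - e23)
  subst e
  have e : c14 = b14 := mul_left_cancel₀ (pow_ne_zero 3 hc) (by linear_combination h14 - e14)
  subst e
  have e : 0 = b44 := mul_left_cancel₀ (pow_ne_zero 3 hc) (by linear_combination - e44)
  subst e
  exact ⟨_, _, _, _, _, r⟩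

theorem ln66 (u10 u01 v10 v01 : k) (hc : u10 * v01 - u01 * v10 ≠ 0)
    (a42 a33 a24 a43 a34 : k)
    (c42 c33 c24 : k)
    (h42 : (u10 * v01 - u01 * v10) ^ 3 * c42 = 8*a24*u01*u10*v01*v10*v10*v10 + a24*u01*u01*v10^(4:ℕ)
      + 6*a24*u10*u10*v01*v01*v10*v10 + 9*a33*u01*u10*u10*v01*v10*v10 +
      3*a33*u01*u01*u10*v10*v10*v10 + 3*a33*u10*u10*u10*v01*v01*v10 +
      8*a42*u01*u10*u10*u10*v01*v10 + 6*a42*u01*u01*u10*u10*v10*v10 + a42*u10^(4:ℕ)*v01*v01) (h33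
      : (u10 * v01 - u01 * v10) ^ 3 * c33 = 12*a24*u01*u10*v01*v01*v10*v10 +
      4*a24*u01*u01*v01*v10*v10*v10 + 4*a24*u10*u10*v01*v01*v01*v10 +
      9*a33*u01*u10*u10*v01*v01*v10 + 9*a33*u01*u01*u10*v01*v10*v10 + a33*u01*u01*u01*v10*v10*v10
      + a33*u10*u10*u10*v01*v01*v01 + 4*a42*u01*u10*u10*u10*v01*v01 +
      12*a42*u01*u01*u10*u10*v01*v10 + 4*a42*u01*u01*u01*u10*v10*v10) (h24 : (u10 * v01 - u01 *
      v10) ^ 3 * c24 = 8*a24*u01*u10*v01*v01*v01*v10 + 6*a24*u01*u01*v01*v01*v10*v10 +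
      a24*u10*u10*v01^(4:ℕ) + 3*a33*u01*u10*u10*v01*v01*v01 + 9*a33*u01*u01*u10*v01*v01*v10 +
      3*a33*u01*u01*u01*v01*v10*v10 + 6*a42*u01*u01*u10*u10*v01*v01 +
      8*a42*u01*u01*u01*u10*v01*v10 + a42*u01^(4:ℕ)*v10*v10) :
    ∃ b43 b34 : k, Rel (mk 0 0 0 0 0 0 0 0 0 0 0 0 0 0 0 0 0 0 0 a42 a33 a24 a43 a34 0)
      (mk 0 0 0 0 0 0 0 0 0 0 0 0 0 0 0 0 0 0 0 c42 c33 c24 b43 b34 0) := by
  obtain ⟨h', r, e⟩ := lin_act u10 u01 v10 v01 hc 0 0 0 0 0 0 0 0 0 0 0 0 0 0 0 0 0 0 0 a42 a33 a24 a43 a34 0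
  obtain ⟨b00, b10, b01, b20, b11, b02, b30, b21, b12, b03, b40, b31, b22, b13, b04, b41, b32, b23, b14, b42, b33, b24, b43, b34, b44, rfl⟩ := mk_surj h'
  rw [mk_smul, mk_inj] at e
  obtain ⟨e00, e10, e01, e20, e11, e02, e30, e21, e12, e03, e40, e31, e22, e13, e04, e41, e32, e23, e14, e42, e33, e24, e43, e34, e44⟩ := e
  have e : 0 = b00 := mul_left_cancel₀ (pow_ne_zero 3 hc) (by linear_combination - e00)
  subst e
  have e : 0 = b10 := mul_left_cancel₀ (pow_ne_zero 3 hc) (by linear_combination - e10)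
  subst e
  have e : 0 = b01 := mul_left_cancel₀ (pow_ne_zero 3 hc) (by linear_combination - e01)
  subst e
  have e : 0 = b20 := mul_left_cancel₀ (pow_ne_zero 3 hc) (by linear_combination - e20)
  subst e
  have e : 0 = b11 := mul_left_cancel₀ (pow_ne_zero 3 hc) (by linear_combination - e11)
  subst e
  have e : 0 = b02 := mul_left_cancel₀ (pow_ne_zero 3 hc) (by linear_combination - e02)
  subst e
  have e : 0 = b30 := mul_left_cancel₀ (pow_ne_zero 3 hc) (by linear_combination - e30)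
  subst e
  have e : 0 = b21 := mul_left_cancel₀ (pow_ne_zero 3 hc) (by linear_combination - e21)
  subst e
  have e : 0 = b12 := mul_left_cancel₀ (pow_ne_zero 3 hc) (by linear_combination - e12)
  subst e
  have e : 0 = b03 := mul_left_cancel₀ (pow_ne_zero 3 hc) (by linear_combination - e03)
  subst e
  have e : 0 = b40 := mul_left_cancel₀ (pow_ne_zero 3 hc) (by linear_combination - e40)
  subst e
  have e : 0 = b31 := mul_left_cancel₀ (pow_ne_zero 3 hc) (by linear_combination - e31)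
  subst e
  have e : 0 = b22 := mul_left_cancel₀ (pow_ne_zero 3 hc) (by linear_combination - e22)
  subst e
  have e : 0 = b13 := mul_left_cancel₀ (pow_ne_zero 3 hc) (by linear_combination - e13)
  subst e
  have e : 0 = b04 := mul_left_cancel₀ (pow_ne_zero 3 hc) (by linear_combination - e04)
  subst e
  have e : 0 = b41 := mul_left_cancel₀ (pow_ne_zero 3 hc) (by linear_combination - e41)
  subst e
  have e : 0 = b32 := mul_left_cancel₀ (pow_ne_zero 3 hc) (by linear_combination - e32)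
  subst e
  have e : 0 = b23 := mul_left_cancel₀ (pow_ne_zero 3 hc) (by linear_combination - e23)
  subst e
  have e : 0 = b14 := mul_left_cancel₀ (pow_ne_zero 3 hc) (by linear_combination - e14)
  subst e
  have e : c42 = b42 := mul_left_cancel₀ (pow_ne_zero 3 hc) (by linear_combination h42 - e42)
  subst e
  have e : c33 = b33 := mul_left_cancel₀ (pow_ne_zero 3 hc) (by linear_combination h33 - e33)
  subst e
  have e : c24 = b24 := mul_left_cancel₀ (pow_ne_zero 3 hc) (by linear_combination h24 - e24)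
  subst e
  have e : 0 = b44 := mul_left_cancel₀ (pow_ne_zero 3 hc) (by linear_combination - e44)
  subst e
  exact ⟨_, _, r⟩

theorem ln77 (u10 u01 v10 v01 : k) (hc : u10 * v01 - u01 * v10 ≠ 0)
    (a43 a34 : k)
    (c43 c34 : k)
    (h43 : (u10 * v01 - u01 * v10) ^ 3 * c43 = 18*a34*u01*u10*u10*v01*v01*v10*v10 +
      12*a34*u01*u01*u10*v01*v10*v10*v10 + a34*u01*u01*u01*v10^(4:ℕ) +
      4*a34*u10*u10*u10*v01*v01*v01*v10 + 12*a43*u01*u10*u10*u10*v01*v01*v10 +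
      18*a43*u01*u01*u10*u10*v01*v10*v10 + 4*a43*u01*u01*u01*u10*v10*v10*v10 +
      a43*u10^(4:ℕ)*v01*v01*v01) (h34 : (u10 * v01 - u01 * v10) ^ 3 * c34 =
      12*a34*u01*u10*u10*v01*v01*v01*v10 + 18*a34*u01*u01*u10*v01*v01*v10*v10 +
      4*a34*u01*u01*u01*v01*v10*v10*v10 + a34*u10*u10*u10*v01^(4:ℕ) +
      4*a43*u01*u10*u10*u10*v01*v01*v01 + 18*a43*u01*u01*u10*u10*v01*v01*v10 +
      12*a43*u01*u01*u01*u10*v01*v10*v10 + a43*u01^(4:ℕ)*v10*v10*v10) :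
    Rel (mk 0 0 0 0 0 0 0 0 0 0 0 0 0 0 0 0 0 0 0 0 0 0 a43 a34 0)
      (mk 0 0 0 0 0 0 0 0 0 0 0 0 0 0 0 0 0 0 0 0 0 0 c43 c34 0) := by
  obtain ⟨h', r, e⟩ := lin_act u10 u01 v10 v01 hc 0 0 0 0 0 0 0 0 0 0 0 0 0 0 0 0 0 0 0 0 0 0 a43 a34 0
  obtain ⟨b00, b10, b01, b20, b11, b02, b30, b21, b12, b03, b40, b31, b22, b13, b04, b41, b32, b23, b14, b42, b33, b24, b43, b34, b44, rfl⟩ := mk_surj h'
  rw [mk_smul, mk_inj] at e
  obtain ⟨e00, e10, e01, e20, e11, e02, e30, e21, e12, e03, e40, e31, e22, e13, e04, e41, e32, e23, e14, e42, e33, e24, e43, e34, e44⟩ := e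
  have e : 0 = b00 := mul_left_cancel₀ (pow_ne_zero 3 hc) (by linear_combination - e00)
  subst e
  have e : 0 = b10 := mul_left_cancel₀ (pow_ne_zero 3 hc) (by linear_combination - e10)
  subst e
  have e : 0 = b01 := mul_left_cancel₀ (pow_ne_zero 3 hc) (by linear_combination - e01)
  subst e
  have e : 0 = b20 := mul_left_cancel₀ (pow_ne_zero 3 hc) (by linear_combination - e20)
  subst e
  have e : 0 = b11 := mul_left_cancel₀ (pow_ne_zero 3 hc) (by linear_combination - e11)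
  subst e
  have e : 0 = b02 := mul_left_cancel₀ (pow_ne_zero 3 hc) (by linear_combination - e02)
  subst e
  have e : 0 = b30 := mul_left_cancel₀ (pow_ne_zero 3 hc) (by linear_combination - e30)
  subst e
  have e : 0 = b21 := mul_left_cancel₀ (pow_ne_zero 3 hc) (by linear_combination - e21)
  subst e
  have e : 0 = b12 := mul_left_cancel₀ (pow_ne_zero 3 hc) (by linear_combination - e12)
  subst e
  have e : 0 = b03 := mul_left_cancel₀ (pow_ne_zero 3 hc) (by linear_combination - e03)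
  subst e
  have e : 0 = b40 := mul_left_cancel₀ (pow_ne_zero 3 hc) (by linear_combination - e40)
  subst e
  have e : 0 = b31 := mul_left_cancel₀ (pow_ne_zero 3 hc) (by linear_combination - e31)
  subst e
  have e : 0 = b22 := mul_left_cancel₀ (pow_ne_zero 3 hc) (by linear_combination - e22)
  subst e
  have e : 0 = b13 := mul_left_cancel₀ (pow_ne_zero 3 hc) (by linear_combination - e13)
  subst e
  have e : 0 = b04 := mul_left_cancel₀ (pow_ne_zero 3 hc) (by linear_combination - e04)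
  subst e
  have e : 0 = b41 := mul_left_cancel₀ (pow_ne_zero 3 hc) (by linear_combination - e41)
  subst e
  have e : 0 = b32 := mul_left_cancel₀ (pow_ne_zero 3 hc) (by linear_combination - e32)
  subst e
  have e : 0 = b23 := mul_left_cancel₀ (pow_ne_zero 3 hc) (by linear_combination - e23)
  subst e
  have e : 0 = b14 := mul_left_cancel₀ (pow_ne_zero 3 hc) (by linear_combination - e14)
  subst e
  have e : 0 = b42 := mul_left_cancel₀ (pow_ne_zero 3 hc) (by linear_combination - e42)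
  subst e
  have e : 0 = b33 := mul_left_cancel₀ (pow_ne_zero 3 hc) (by linear_combination - e33)
  subst e
  have e : 0 = b24 := mul_left_cancel₀ (pow_ne_zero 3 hc) (by linear_combination - e24)
  subst e
  have e : c43 = b43 := mul_left_cancel₀ (pow_ne_zero 3 hc) (by linear_combination h43 - e43)
  subst e
  have e : c34 = b34 := mul_left_cancel₀ (pow_ne_zero 3 hc) (by linear_combination h34 - e34)
  subst e
  have e : 0 = b44 := mul_left_cancel₀ (pow_ne_zero 3 hc) (by linear_combination - e44)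
  subst e
  exact r

theorem ln17 (u10 u01 v10 v01 : k) (hc : u10 * v01 - u01 * v10 ≠ 0)
    (a10 a01 a20 a11 a02 a30 a21 a12 a03 a40 a31 a22 a13 a04 a41 a32 a23 a14 a42 a33 a24 a43 a34 : k)
    (c10 c01 c20 c11 c02 c30 c21 c12 c03 c40 c31 c22 c13 c04 c41 c32 c23 c14 c42 c33 c24 c43 c34 : k)
    (h10 : (u10 * v01 - u01 * v10) ^ 3 * c10 = a01*v10 + a10*u10) (h01 : (u10 * v01 - u01 * v10) ^ 3
      * c01 = a01*v01 + a10*u01) (h20 : (u10 * v01 - u01 * v10) ^ 3 * c20 = a02*v10*v10 +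
      a11*u10*v10 + a20*u10*u10) (h11 : (u10 * v01 - u01 * v10) ^ 3 * c11 = 2*a02*v01*v10 +
      a11*u01*v10 + a11*u10*v01 + 2*a20*u01*u10) (h02 : (u10 * v01 - u01 * v10) ^ 3 * c02 =
      a02*v01*v01 + a11*u01*v01 + a20*u01*u01) (h30 : (u10 * v01 - u01 * v10) ^ 3 * c30 =
      a03*v10*v10*v10 + a12*u10*v10*v10 + a21*u10*u10*v10 + a30*u10*u10*u10) (h21 : (u10 * v01 -
      u01 * v10) ^ 3 * c21 = 3*a03*v01*v10*v10 + a12*u01*v10*v10 + 2*a12*u10*v01*v10 +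
      2*a21*u01*u10*v10 + a21*u10*u10*v01 + 3*a30*u01*u10*u10) (h12 : (u10 * v01 - u01 * v10) ^ 3
      * c12 = 3*a03*v01*v01*v10 + 2*a12*u01*v01*v10 + a12*u10*v01*v01 + 2*a21*u01*u10*v01 +
      a21*u01*u01*v10 + 3*a30*u01*u01*u10) (h03 : (u10 * v01 - u01 * v10) ^ 3 * c03 =
      a03*v01*v01*v01 + a12*u01*v01*v01 + a21*u01*u01*v01 + a30*u01*u01*u01) (h40 : (u10 * v01 -
      u01 * v10) ^ 3 * c40 = a04*v10^(4:ℕ) + a13*u10*v10*v10*v10 + a22*u10*u10*v10*v10 +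
      a31*u10*u10*u10*v10 + a40*u10^(4:ℕ)) (h31 : (u10 * v01 - u01 * v10) ^ 3 * c31 =
      4*a04*v01*v10*v10*v10 + a13*u01*v10*v10*v10 + 3*a13*u10*v01*v10*v10 + 2*a22*u01*u10*v10*v10
      + 2*a22*u10*u10*v01*v10 + 3*a31*u01*u10*u10*v10 + a31*u10*u10*u10*v01 +
      4*a40*u01*u10*u10*u10) (h22 : (u10 * v01 - u01 * v10) ^ 3 * c22 = 6*a04*v01*v01*v10*v10 +
      3*a13*u01*v01*v10*v10 + 3*a13*u10*v01*v01*v10 + 4*a22*u01*u10*v01*v10 + a22*u01*u01*v10*v10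
      + a22*u10*u10*v01*v01 + 3*a31*u01*u10*u10*v01 + 3*a31*u01*u01*u10*v10 +
      6*a40*u01*u01*u10*u10) (h13 : (u10 * v01 - u01 * v10) ^ 3 * c13 = 4*a04*v01*v01*v01*v10 +
      3*a13*u01*v01*v01*v10 + a13*u10*v01*v01*v01 + 2*a22*u01*u10*v01*v01 + 2*a22*u01*u01*v01*v10
      + 3*a31*u01*u01*u10*v01 + a31*u01*u01*u01*v10 + 4*a40*u01*u01*u01*u10) (h04 : (u10 * v01 -
      u01 * v10) ^ 3 * c04 = a04*v01^(4:ℕ) + a13*u01*v01*v01*v01 + a22*u01*u01*v01*v01 +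
      a31*u01*u01*u01*v01 + a40*u01^(4:ℕ)) (h41 : (u10 * v01 - u01 * v10) ^ 3 * c41 =
      a14*u01*v10^(4:ℕ) + 4*a14*u10*v01*v10*v10*v10 + 2*a23*u01*u10*v10*v10*v10 +
      3*a23*u10*u10*v01*v10*v10 + 3*a32*u01*u10*u10*v10*v10 + 2*a32*u10*u10*u10*v01*v10 +
      4*a41*u01*u10*u10*u10*v10 + a41*u10^(4:ℕ)*v01) (h32 : (u10 * v01 - u01 * v10) ^ 3 * c32 =
      4*a14*u01*v01*v10*v10*v10 + 6*a14*u10*v01*v01*v10*v10 + 6*a23*u01*u10*v01*v10*v10 +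
      a23*u01*u01*v10*v10*v10 + 3*a23*u10*u10*v01*v01*v10 + 6*a32*u01*u10*u10*v01*v10 +
      3*a32*u01*u01*u10*v10*v10 + a32*u10*u10*u10*v01*v01 + 4*a41*u01*u10*u10*u10*v01 +
      6*a41*u01*u01*u10*u10*v10) (h23 : (u10 * v01 - u01 * v10) ^ 3 * c23 =
      6*a14*u01*v01*v01*v10*v10 + 4*a14*u10*v01*v01*v01*v10 + 6*a23*u01*u10*v01*v01*v10 +
      3*a23*u01*u01*v01*v10*v10 + a23*u10*u10*v01*v01*v01 + 3*a32*u01*u10*u10*v01*v01 +
      6*a32*u01*u01*u10*v01*v10 + a32*u01*u01*u01*v10*v10 + 6*a41*u01*u01*u10*u10*v01 +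
      4*a41*u01*u01*u01*u10*v10) (h14 : (u10 * v01 - u01 * v10) ^ 3 * c14 =
      4*a14*u01*v01*v01*v01*v10 + a14*u10*v01^(4:ℕ) + 2*a23*u01*u10*v01*v01*v01 +
      3*a23*u01*u01*v01*v01*v10 + 3*a32*u01*u01*u10*v01*v01 + 2*a32*u01*u01*u01*v01*v10 +
      4*a41*u01*u01*u01*u10*v01 + a41*u01^(4:ℕ)*v10) (h42 : (u10 * v01 - u01 * v10) ^ 3 * c42 =
      8*a24*u01*u10*v01*v10*v10*v10 + a24*u01*u01*v10^(4:ℕ) + 6*a24*u10*u10*v01*v01*v10*v10 +
      9*a33*u01*u10*u10*v01*v10*v10 + 3*a33*u01*u01*u10*v10*v10*v10 +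
      3*a33*u10*u10*u10*v01*v01*v10 + 8*a42*u01*u10*u10*u10*v01*v10 +
      6*a42*u01*u01*u10*u10*v10*v10 + a42*u10^(4:ℕ)*v01*v01) (h33 : (u10 * v01 - u01 * v10) ^ 3 *
      c33 = 12*a24*u01*u10*v01*v01*v10*v10 + 4*a24*u01*u01*v01*v10*v10*v10 +
      4*a24*u10*u10*v01*v01*v01*v10 + 9*a33*u01*u10*u10*v01*v01*v10 +
      9*a33*u01*u01*u10*v01*v10*v10 + a33*u01*u01*u01*v10*v10*v10 + a33*u10*u10*u10*v01*v01*v01 +
      4*a42*u01*u10*u10*u10*v01*v01 + 12*a42*u01*u01*u10*u10*v01*v10 +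
      4*a42*u01*u01*u01*u10*v10*v10) (h24 : (u10 * v01 - u01 * v10) ^ 3 * c24 =
      8*a24*u01*u10*v01*v01*v01*v10 + 6*a24*u01*u01*v01*v01*v10*v10 + a24*u10*u10*v01^(4:ℕ) +
      3*a33*u01*u10*u10*v01*v01*v01 + 9*a33*u01*u01*u10*v01*v01*v10 +
      3*a33*u01*u01*u01*v01*v10*v10 + 6*a42*u01*u01*u10*u10*v01*v01 +
      8*a42*u01*u01*u01*u10*v01*v10 + a42*u01^(4:ℕ)*v10*v10) (h43 : (u10 * v01 - u01 * v10) ^ 3 *
      c43 = 18*a34*u01*u10*u10*v01*v01*v10*v10 + 12*a34*u01*u01*u10*v01*v10*v10*v10 +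
      a34*u01*u01*u01*v10^(4:ℕ) + 4*a34*u10*u10*u10*v01*v01*v01*v10 +
      12*a43*u01*u10*u10*u10*v01*v01*v10 + 18*a43*u01*u01*u10*u10*v01*v10*v10 +
      4*a43*u01*u01*u01*u10*v10*v10*v10 + a43*u10^(4:ℕ)*v01*v01*v01) (h34 : (u10 * v01 - u01 *
      v10) ^ 3 * c34 = 12*a34*u01*u10*u10*v01*v01*v01*v10 + 18*a34*u01*u01*u10*v01*v01*v10*v10 +
      4*a34*u01*u01*u01*v01*v10*v10*v10 + a34*u10*u10*u10*v01^(4:ℕ) +
      4*a43*u01*u10*u10*u10*v01*v01*v01 + 18*a43*u01*u01*u10*u10*v01*v01*v10 +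
      12*a43*u01*u01*u01*u10*v01*v10*v10 + a43*u01^(4:ℕ)*v10*v10*v10) :
    Rel (mk 0 a10 a01 a20 a11 a02 a30 a21 a12 a03 a40 a31 a22 a13 a04 a41 a32 a23 a14 a42 a33 a24 a43 a34 0)
      (mk 0 c10 c01 c20 c11 c02 c30 c21 c12 c03 c40 c31 c22 c13 c04 c41 c32 c23 c14 c42 c33 c24 c43 c34 0) := by
  obtain ⟨h', r, e⟩ := lin_act u10 u01 v10 v01 hc 0 a10 a01 a20 a11 a02 a30 a21 a12 a03 a40 a31 a22 a13 a04 a41 a32 a23 a14 a42 a33 a24 a43 a34 0
  obtain ⟨b00, b10, b01, b20, b11, b02, b30, b21, b12, b03, b40, b31, b22, b13, b04, b41, b32, b23, b14, b42, b33, b24, b43, b34, b44, rfl⟩ := mk_surj h'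
  rw [mk_smul, mk_inj] at e
  obtain ⟨e00, e10, e01, e20, e11, e02, e30, e21, e12, e03, e40, e31, e22, e13, e04, e41, e32, e23, e14, e42, e33, e24, e43, e34, e44⟩ := e
  have e : 0 = b00 := mul_left_cancel₀ (pow_ne_zero 3 hc) (by linear_combination - e00)
  subst e
  have e : c10 = b10 := mul_left_cancel₀ (pow_ne_zero 3 hc) (by linear_combination h10 - e10)
  subst e
  have e : c01 = b01 := mul_left_cancel₀ (pow_ne_zero 3 hc) (by linear_combination h01 - e01)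
  subst e
  have e : c20 = b20 := mul_left_cancel₀ (pow_ne_zero 3 hc) (by linear_combination h20 - e20)
  subst e
  have e : c11 = b11 := mul_left_cancel₀ (pow_ne_zero 3 hc) (by linear_combination h11 - e11)
  subst e
  have e : c02 = b02 := mul_left_cancel₀ (pow_ne_zero 3 hc) (by linear_combination h02 - e02)
  subst e
  have e : c30 = b30 := mul_left_cancel₀ (pow_ne_zero 3 hc) (by linear_combination h30 - e30)
  subst e
  have e : c21 = b21 := mul_left_cancel₀ (pow_ne_zero 3 hc) (by linear_combination h21 - e21)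
  subst e
  have e : c12 = b12 := mul_left_cancel₀ (pow_ne_zero 3 hc) (by linear_combination h12 - e12)
  subst e
  have e : c03 = b03 := mul_left_cancel₀ (pow_ne_zero 3 hc) (by linear_combination h03 - e03)
  subst e
  have e : c40 = b40 := mul_left_cancel₀ (pow_ne_zero 3 hc) (by linear_combination h40 - e40)
  subst e
  have e : c31 = b31 := mul_left_cancel₀ (pow_ne_zero 3 hc) (by linear_combination h31 - e31)
  subst e
  have e : c22 = b22 := mul_left_cancel₀ (pow_ne_zero 3 hc) (by linear_combination h22 - e22)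
  subst e
  have e : c13 = b13 := mul_left_cancel₀ (pow_ne_zero 3 hc) (by linear_combination h13 - e13)
  subst e
  have e : c04 = b04 := mul_left_cancel₀ (pow_ne_zero 3 hc) (by linear_combination h04 - e04)
  subst e
  have e : c41 = b41 := mul_left_cancel₀ (pow_ne_zero 3 hc) (by linear_combination h41 - e41)
  subst e
  have e : c32 = b32 := mul_left_cancel₀ (pow_ne_zero 3 hc) (by linear_combination h32 - e32)
  subst e
  have e : c23 = b23 := mul_left_cancel₀ (pow_ne_zero 3 hc) (by linear_combination h23 - e23)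
  subst e
  have e : c14 = b14 := mul_left_cancel₀ (pow_ne_zero 3 hc) (by linear_combination h14 - e14)
  subst e
  have e : c42 = b42 := mul_left_cancel₀ (pow_ne_zero 3 hc) (by linear_combination h42 - e42)
  subst e
  have e : c33 = b33 := mul_left_cancel₀ (pow_ne_zero 3 hc) (by linear_combination h33 - e33)
  subst e
  have e : c24 = b24 := mul_left_cancel₀ (pow_ne_zero 3 hc) (by linear_combination h24 - e24)
  subst e
  have e : c43 = b43 := mul_left_cancel₀ (pow_ne_zero 3 hc) (by linear_combination h43 - e43)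
  subst e
  have e : c34 = b34 := mul_left_cancel₀ (pow_ne_zero 3 hc) (by linear_combination h34 - e34)
  subst e
  have e : 0 = b44 := mul_left_cancel₀ (pow_ne_zero 3 hc) (by linear_combination - e44)
  subst e
  exact r

theorem rel_diag (s t : k) (hs : s ≠ 0) (ht : t ≠ 0) {a10 a01 a20 a11 a02 a30 a21 a12 a03 a40 a31 a22 a13 a04 a41 a32 a23 a14 a42 a33 a24 a43 a34 : k}
    {c10 c01 c20 c11 c02 c30 c21 c12 c03 c40 c31 c22 c13 c04 c41 c32 c23 c14 c42 c33 c24 c43 c34 : k}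
    (h : (s * t) ^ 3 * c10 = s ^ 1 * t ^ 0 * a10 ∧ (s * t) ^ 3 * c01 = s ^ 0 * t ^ 1 * a01 ∧ (s * t) ^ 3 *
      c20 = s ^ 2 * t ^ 0 * a20 ∧ (s * t) ^ 3 * c11 = s ^ 1 * t ^ 1 * a11 ∧ (s * t) ^ 3 * c02 = s
      ^ 0 * t ^ 2 * a02 ∧ (s * t) ^ 3 * c30 = s ^ 3 * t ^ 0 * a30 ∧ (s * t) ^ 3 * c21 = s ^ 2 * t
      ^ 1 * a21 ∧ (s * t) ^ 3 * c12 = s ^ 1 * t ^ 2 * a12 ∧ (s * t) ^ 3 * c03 = s ^ 0 * t ^ 3 *
      a03 ∧ (s * t) ^ 3 * c40 = s ^ 4 * t ^ 0 * a40 ∧ (s * t) ^ 3 * c31 = s ^ 3 * t ^ 1 * a31 ∧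
      (s * t) ^ 3 * c22 = s ^ 2 * t ^ 2 * a22 ∧ (s * t) ^ 3 * c13 = s ^ 1 * t ^ 3 * a13 ∧ (s * t)
      ^ 3 * c04 = s ^ 0 * t ^ 4 * a04 ∧ (s * t) ^ 3 * c41 = s ^ 4 * t ^ 1 * a41 ∧ (s * t) ^ 3 *
      c32 = s ^ 3 * t ^ 2 * a32 ∧ (s * t) ^ 3 * c23 = s ^ 2 * t ^ 3 * a23 ∧ (s * t) ^ 3 * c14 = s
      ^ 1 * t ^ 4 * a14 ∧ (s * t) ^ 3 * c42 = s ^ 4 * t ^ 2 * a42 ∧ (s * t) ^ 3 * c33 = s ^ 3 * t
      ^ 3 * a33 ∧ (s * t) ^ 3 * c24 = s ^ 2 * t ^ 4 * a24 ∧ (s * t) ^ 3 * c43 = s ^ 4 * t ^ 3 *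
      a43 ∧ (s * t) ^ 3 * c34 = s ^ 3 * t ^ 4 * a34) :
    Rel (mk 0 a10 a01 a20 a11 a02 a30 a21 a12 a03 a40 a31 a22 a13 a04 a41 a32 a23 a14 a42 a33 a24 a43 a34 0)
      (mk 0 c10 c01 c20 c11 c02 c30 c21 c12 c03 c40 c31 c22 c13 c04 c41 c32 c23 c14 c42 c33 c24 c43 c34 0) := by
  obtain ⟨h10, h01, h20, h11, h02, h30, h21, h12, h03, h40, h31, h22, h13, h04, h41, h32, h23, h14, h42, h33, h24, h43, h34⟩ := h
  exact ln17 s 0 0 t (by simpa using ⟨hs, ht⟩) _ _ _ _ _ _ _ _ _ _ _ _ _ _ _ _ _ _ _ _ _ _ _ _ _ _ _ _ _ _ _ _ _ _ _ _ _ _ _ _ _ _ _ _ _ _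
    (by linear_combination h10) (by linear_combination h01) (by linear_combination h20) (by
      linear_combination h11) (by linear_combination h02) (by linear_combination h30) (by
      linear_combination h21) (by linear_combination h12) (by linear_combination h03) (by
      linear_combination h40) (by linear_combination h31) (by linear_combination h22) (by
      linear_combination h13) (by linear_combination h04) (by linear_combination h41) (by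
      linear_combination h32) (by linear_combination h23) (by linear_combination h14) (by
      linear_combination h42) (by linear_combination h33) (by linear_combination h24) (by
      linear_combination h43) (by linear_combination h34)

theorem rel_swap (s t : k) (hs : s ≠ 0) (ht : t ≠ 0) {a10 a01 a20 a11 a02 a30 a21 a12 a03 a40 a31 a22 a13 a04 a41 a32 a23 a14 a42 a33 a24 a43 a34 : k}
    {c10 c01 c20 c11 c02 c30 c21 c12 c03 c40 c31 c22 c13 c04 c41 c32 c23 c14 c42 c33 c24 c43 c34 : k}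
    (h : -(s * t) ^ 3 * c10 = s ^ 0 * t ^ 1 * a01 ∧ -(s * t) ^ 3 * c01 = s ^ 1 * t ^ 0 * a10 ∧ -(s * t) ^
      3 * c20 = s ^ 0 * t ^ 2 * a02 ∧ -(s * t) ^ 3 * c11 = s ^ 1 * t ^ 1 * a11 ∧ -(s * t) ^ 3 *
      c02 = s ^ 2 * t ^ 0 * a20 ∧ -(s * t) ^ 3 * c30 = s ^ 0 * t ^ 3 * a03 ∧ -(s * t) ^ 3 * c21 =
      s ^ 1 * t ^ 2 * a12 ∧ -(s * t) ^ 3 * c12 = s ^ 2 * t ^ 1 * a21 ∧ -(s * t) ^ 3 * c03 = s ^ 3
      * t ^ 0 * a30 ∧ -(s * t) ^ 3 * c40 = s ^ 0 * t ^ 4 * a04 ∧ -(s * t) ^ 3 * c31 = s ^ 1 * t ^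
      3 * a13 ∧ -(s * t) ^ 3 * c22 = s ^ 2 * t ^ 2 * a22 ∧ -(s * t) ^ 3 * c13 = s ^ 3 * t ^ 1 *
      a31 ∧ -(s * t) ^ 3 * c04 = s ^ 4 * t ^ 0 * a40 ∧ -(s * t) ^ 3 * c41 = s ^ 1 * t ^ 4 * a14 ∧
      -(s * t) ^ 3 * c32 = s ^ 2 * t ^ 3 * a23 ∧ -(s * t) ^ 3 * c23 = s ^ 3 * t ^ 2 * a32 ∧ -(s *
      t) ^ 3 * c14 = s ^ 4 * t ^ 1 * a41 ∧ -(s * t) ^ 3 * c42 = s ^ 2 * t ^ 4 * a24 ∧ -(s * t) ^
      3 * c33 = s ^ 3 * t ^ 3 * a33 ∧ -(s * t) ^ 3 * c24 = s ^ 4 * t ^ 2 * a42 ∧ -(s * t) ^ 3 *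
      c43 = s ^ 3 * t ^ 4 * a34 ∧ -(s * t) ^ 3 * c34 = s ^ 4 * t ^ 3 * a43) :
    Rel (mk 0 a10 a01 a20 a11 a02 a30 a21 a12 a03 a40 a31 a22 a13 a04 a41 a32 a23 a14 a42 a33 a24 a43 a34 0)
      (mk 0 c10 c01 c20 c11 c02 c30 c21 c12 c03 c40 c31 c22 c13 c04 c41 c32 c23 c14 c42 c33 c24 c43 c34 0) := by
  obtain ⟨h10, h01, h20, h11, h02, h30, h21, h12, h03, h40, h31, h22, h13, h04, h41, h32, h23, h14, h42, h33, h24, h43, h34⟩ := h
  exact ln17 0 s t 0 (by simpa using ⟨hs, ht⟩) _ _ _ _ _ _ _ _ _ _ _ _ _ _ _ _ _ _ _ _ _ _ _ _ _ _ _ _ _ _ _ _ _ _ _ _ _ _ _ _ _ _ _ _ _ _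
    (by linear_combination h10) (by linear_combination h01) (by linear_combination h20) (by
      linear_combination h11) (by linear_combination h02) (by linear_combination h30) (by
      linear_combination h21) (by linear_combination h12) (by linear_combination h03) (by
      linear_combination h40) (by linear_combination h31) (by linear_combination h22) (by
      linear_combination h13) (by linear_combination h04) (by linear_combination h41) (by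
      linear_combination h32) (by linear_combination h23) (by linear_combination h14) (by
      linear_combination h42) (by linear_combination h33) (by linear_combination h24) (by
      linear_combination h43) (by linear_combination h34)

theorem lin_eqs2 {a20 a11 a02 a30 a21 a12 a03 a40 a31 a22 a13 a04 a41 a32 a23 a14 a42 a33 a24 a43 a34 : k}
    {b20 b11 b02 b30 b21 b12 b03 b40 b31 b22 b13 b04 b41 b32 b23 b14 b42 b33 b24 b43 b34 : k}
    (h : Rel (mk 0 0 0 a20 a11 a02 a30 a21 a12 a03 a40 a31 a22 a13 a04 a41 a32 a23 a14 a42 a33 a24 a43 a34 0)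
      (mk 0 0 0 b20 b11 b02 b30 b21 b12 b03 b40 b31 b22 b13 b04 b41 b32 b23 b14 b42 b33 b24 b43 b34 0)) :
    ∃ u10 u01 v10 v01 : k, u10 * v01 - u01 * v10 ≠ 0 ∧
      (u10 * v01 - u01 * v10) ^ 3 * b20 = a02*v10*v10 + a11*u10*v10 + a20*u10*u10 ∧
      (u10 * v01 - u01 * v10) ^ 3 * b11 = 2*a02*v01*v10 + a11*u01*v10 + a11*u10*v01 + 2*a20*u01*u10 ∧
      (u10 * v01 - u01 * v10) ^ 3 * b02 = a02*v01*v01 + a11*u01*v01 + a20*u01*u01 := by
  obtain ⟨φ, c, hc, o1, o2, hj, hH⟩ := h.coords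
  obtain ⟨u10, u01, u20, u11, u02, u30, u21, u12, u03, u40, u31, u22, u13, u04, u41, u32, u23, u14, u42, u33, u24, u43, u34, u44, hx⟩ := ord1_surj o1
  obtain ⟨v10, v01, v20, v11, v02, v30, v21, v12, v03, v40, v31, v22, v13, v04, v41, v32, v23, v14, v42, v33, v24, v43, v34, v44, hy⟩ := ord1_surj o2
  obtain rfl := (jac_eqs hx hy hj).1
  clear o1 o2 hj
  have e : (mk 0 0 0 a20 a11 a02 a30 a21 a12 a03 a40 a31 a22 a13 a04 a41 a32 a23 a14 a42 a33 a24 a43 a34 0 : O k) =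
      a20 • m 2 0 + a11 • m 1 1 + a02 • m 0 2 + mk 0 0 0 0 0 0 a30 a21 a12 a03 a40 a31 a22 a13 a04 a41 a32 a23 a14 a42 a33 a24 a43 a34 0 := by
    simp only [m20, m11, m02, mk_smul, mk_add, mul_zero, mul_one, add_zero, zero_add]
  have o1 : Ord 3 (φ (mk 0 0 0 0 0 0 a30 a21 a12 a03 a40 a31 a22 a13 a04 a41 a32 a23 a14 a42 a33 a24 a43 a34 0)) := (ord3_iff.mpr ⟨rfl, rfl, rfl, rfl, rfl, rfl⟩).hom φ
  rw [e, hom_add, ← eq_sub_iff_add_eq'] at hH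
  rw [hH] at o1
  obtain ⟨t2, p2⟩ := pw20 u10 u01 u20 u11 u02 u30 u21 u12 u03 u40 u31 u22 u13 u04 u41 u32 u23 u14 u42 u33 u24 u43 u34 u44 v10 v01 v20 v11 v02 v30 v21 v12 v03 v40 v31 v22 v13 v04 v41 v32 v23 v14 v42 v33 v24 v43 v34 v44
  obtain ⟨t1, p1⟩ := pw11 u10 u01 u20 u11 u02 u30 u21 u12 u03 u40 u31 u22 u13 u04 u41 u32 u23 u14 u42 u33 u24 u43 u34 u44 v10 v01 v20 v11 v02 v30 v21 v12 v03 v40 v31 v22 v13 v04 v41 v32 v23 v14 v42 v33 v24 v43 v34 v44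
  obtain ⟨t0, p0⟩ := pw02 u10 u01 u20 u11 u02 u30 u21 u12 u03 u40 u31 u22 u13 u04 u41 u32 u23 u14 u42 u33 u24 u43 u34 u44 v10 v01 v20 v11 v02 v30 v21 v12 v03 v40 v31 v22 v13 v04 v41 v32 v23 v14 v42 v33 v24 v43 v34 v44
  simp only [hom_add, hom_smul, hom_m, hx, hy, p2, p1, p0, mk_smul, mk_add, mk_sub, ord3_iff] at o1
  obtain ⟨-, -, -, e20, e11, e02⟩ := o1
  exact ⟨u10, u01, v10, v01, hc, by linear_combination e20, by linear_combination e11, by linear_combination e02⟩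

theorem lin_eqs3 {a30 a21 a12 a03 a40 a31 a22 a13 a04 a41 a32 a23 a14 a42 a33 a24 a43 a34 : k}
    {b30 b21 b12 b03 b40 b31 b22 b13 b04 b41 b32 b23 b14 b42 b33 b24 b43 b34 : k}
    (h : Rel (mk 0 0 0 0 0 0 a30 a21 a12 a03 a40 a31 a22 a13 a04 a41 a32 a23 a14 a42 a33 a24 a43 a34 0)
      (mk 0 0 0 0 0 0 b30 b21 b12 b03 b40 b31 b22 b13 b04 b41 b32 b23 b14 b42 b33 b24 b43 b34 0)) :
    ∃ u10 u01 v10 v01 : k, u10 * v01 - u01 * v10 ≠ 0 ∧
      (u10 * v01 - u01 * v10) ^ 3 * b30 = a03*v10*v10*v10 + a12*u10*v10*v10 + a21*u10*u10*v10 + a30*u10*u10*u10 ∧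
      (u10 * v01 - u01 * v10) ^ 3 * b21 = 3*a03*v01*v10*v10 + a12*u01*v10*v10 + 2*a12*u10*v01*v10 + 2*a21*u01*u10*v10 + a21*u10*u10*v01 + 3*a30*u01*u10*u10 ∧
      (u10 * v01 - u01 * v10) ^ 3 * b12 = 3*a03*v01*v01*v10 + 2*a12*u01*v01*v10 + a12*u10*v01*v01 + 2*a21*u01*u10*v01 + a21*u01*u01*v10 + 3*a30*u01*u01*u10 ∧
      (u10 * v01 - u01 * v10) ^ 3 * b03 = a03*v01*v01*v01 + a12*u01*v01*v01 + a21*u01*u01*v01 + a30*u01*u01*u01 := by
  obtain ⟨φ, c, hc, o1, o2, hj, hH⟩ := h.coords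
  obtain ⟨u10, u01, u20, u11, u02, u30, u21, u12, u03, u40, u31, u22, u13, u04, u41, u32, u23, u14, u42, u33, u24, u43, u34, u44, hx⟩ := ord1_surj o1
  obtain ⟨v10, v01, v20, v11, v02, v30, v21, v12, v03, v40, v31, v22, v13, v04, v41, v32, v23, v14, v42, v33, v24, v43, v34, v44, hy⟩ := ord1_surj o2
  obtain rfl := (jac_eqs hx hy hj).1
  clear o1 o2 hj
  have e : (mk 0 0 0 0 0 0 a30 a21 a12 a03 a40 a31 a22 a13 a04 a41 a32 a23 a14 a42 a33 a24 a43 a34 0 : O k) =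
      a30 • m 3 0 + a21 • m 2 1 + a12 • m 1 2 + a03 • m 0 3 + mk 0 0 0 0 0 0 0 0 0 0 a40 a31 a22 a13 a04 a41 a32 a23 a14 a42 a33 a24 a43 a34 0 := by
    simp only [m30, m21, m12, m03, mk_smul, mk_add, mul_zero, mul_one, add_zero, zero_add]
  have o1 : Ord 4 (φ (mk 0 0 0 0 0 0 0 0 0 0 a40 a31 a22 a13 a04 a41 a32 a23 a14 a42 a33 a24 a43 a34 0)) := (ord4_iff.mpr ⟨rfl, rfl, rfl, rfl, rfl, rfl, rfl, rfl, rfl, rfl⟩).hom φ
  rw [e, hom_add, ← eq_sub_iff_add_eq'] at hH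
  rw [hH] at o1
  obtain ⟨t3, p3⟩ := pw30 u10 u01 u20 u11 u02 u30 u21 u12 u03 u40 u31 u22 u13 u04 u41 u32 u23 u14 u42 u33 u24 u43 u34 u44 v10 v01 v20 v11 v02 v30 v21 v12 v03 v40 v31 v22 v13 v04 v41 v32 v23 v14 v42 v33 v24 v43 v34 v44
  obtain ⟨t2, p2⟩ := pw21 u10 u01 u20 u11 u02 u30 u21 u12 u03 u40 u31 u22 u13 u04 u41 u32 u23 u14 u42 u33 u24 u43 u34 u44 v10 v01 v20 v11 v02 v30 v21 v12 v03 v40 v31 v22 v13 v04 v41 v32 v23 v14 v42 v33 v24 v43 v34 v44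
  obtain ⟨t1, p1⟩ := pw12 u10 u01 u20 u11 u02 u30 u21 u12 u03 u40 u31 u22 u13 u04 u41 u32 u23 u14 u42 u33 u24 u43 u34 u44 v10 v01 v20 v11 v02 v30 v21 v12 v03 v40 v31 v22 v13 v04 v41 v32 v23 v14 v42 v33 v24 v43 v34 v44
  obtain ⟨t0, p0⟩ := pw03 u10 u01 u20 u11 u02 u30 u21 u12 u03 u40 u31 u22 u13 u04 u41 u32 u23 u14 u42 u33 u24 u43 u34 u44 v10 v01 v20 v11 v02 v30 v21 v12 v03 v40 v31 v22 v13 v04 v41 v32 v23 v14 v42 v33 v24 v43 v34 v44
  simp only [hom_add, hom_smul, hom_m, hx, hy, p3, p2, p1, p0, mk_smul, mk_add, mk_sub, ord4_iff] at o1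
  obtain ⟨-, -, -, -, -, -, e30, e21, e12, e03⟩ := o1
  exact ⟨u10, u01, v10, v01, hc, by linear_combination e30, by linear_combination e21, by linear_combination e12, by linear_combination e03⟩

theorem lin_eqs4 {a40 a31 a22 a13 a04 a41 a32 a23 a14 a42 a33 a24 a43 a34 : k}
    {b40 b31 b22 b13 b04 b41 b32 b23 b14 b42 b33 b24 b43 b34 : k}
    (h : Rel (mk 0 0 0 0 0 0 0 0 0 0 a40 a31 a22 a13 a04 a41 a32 a23 a14 a42 a33 a24 a43 a34 0)
      (mk 0 0 0 0 0 0 0 0 0 0 b40 b31 b22 b13 b04 b41 b32 b23 b14 b42 b33 b24 b43 b34 0)) :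
    ∃ u10 u01 v10 v01 : k, u10 * v01 - u01 * v10 ≠ 0 ∧
      (u10 * v01 - u01 * v10) ^ 3 * b40 = a04*v10^(4:ℕ) + a13*u10*v10*v10*v10 + a22*u10*u10*v10*v10 + a31*u10*u10*u10*v10 + a40*u10^(4:ℕ) ∧
      (u10 * v01 - u01 * v10) ^ 3 * b31 = 4*a04*v01*v10*v10*v10 + a13*u01*v10*v10*v10 + 3*a13*u10*v01*v10*v10 + 2*a22*u01*u10*v10*v10 + 2*a22*u10*u10*v01*v10 + 3*a31*u01*u10*u10*v10 + a31*u10*u10*u10*v01 + 4*a40*u01*u10*u10*u10 ∧
      (u10 * v01 - u01 * v10) ^ 3 * b22 = 6*a04*v01*v01*v10*v10 + 3*a13*u01*v01*v10*v10 + 3*a13*u10*v01*v01*v10 + 4*a22*u01*u10*v01*v10 + a22*u01*u01*v10*v10 + a22*u10*u10*v01*v01 + 3*a31*u01*u10*u10*v01 + 3*a31*u01*u01*u10*v10 + 6*a40*u01*u01*u10*u10 ∧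
      (u10 * v01 - u01 * v10) ^ 3 * b13 = 4*a04*v01*v01*v01*v10 + 3*a13*u01*v01*v01*v10 + a13*u10*v01*v01*v01 + 2*a22*u01*u10*v01*v01 + 2*a22*u01*u01*v01*v10 + 3*a31*u01*u01*u10*v01 + a31*u01*u01*u01*v10 + 4*a40*u01*u01*u01*u10 ∧
      (u10 * v01 - u01 * v10) ^ 3 * b04 = a04*v01^(4:ℕ) + a13*u01*v01*v01*v01 + a22*u01*u01*v01*v01 + a31*u01*u01*u01*v01 + a40*u01^(4:ℕ) := by
  obtain ⟨φ, c, hc, o1, o2, hj, hH⟩ := h.coords
  obtain ⟨u10, u01, u20, u11, u02, u30, u21, u12, u03, u40, u31, u22, u13, u04, u41, u32, u23, u14, u42, u33, u24, u43, u34, u44, hx⟩ := ord1_surj o1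
  obtain ⟨v10, v01, v20, v11, v02, v30, v21, v12, v03, v40, v31, v22, v13, v04, v41, v32, v23, v14, v42, v33, v24, v43, v34, v44, hy⟩ := ord1_surj o2
  obtain rfl := (jac_eqs hx hy hj).1
  clear o1 o2 hj
  have e : (mk 0 0 0 0 0 0 0 0 0 0 a40 a31 a22 a13 a04 a41 a32 a23 a14 a42 a33 a24 a43 a34 0 : O k) =
      a40 • m 4 0 + a31 • m 3 1 + a22 • m 2 2 + a13 • m 1 3 + a04 • m 0 4 + mk 0 0 0 0 0 0 0 0 0 0 0 0 0 0 0 a41 a32 a23 a14 a42 a33 a24 a43 a34 0 := by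
    simp only [m40, m31, m22, m13, m04, mk_smul, mk_add, mul_zero, mul_one, add_zero, zero_add]
  have o1 : Ord 5 (φ (mk 0 0 0 0 0 0 0 0 0 0 0 0 0 0 0 a41 a32 a23 a14 a42 a33 a24 a43 a34 0)) := (ord5_iff.mpr ⟨rfl, rfl, rfl, rfl, rfl, rfl, rfl, rfl, rfl, rfl, rfl, rfl, rfl, rfl, rfl⟩).hom φ
  rw [e, hom_add, ← eq_sub_iff_add_eq'] at hH
  rw [hH] at o1
  obtain ⟨t4, p4⟩ := pw40 u10 u01 u20 u11 u02 u30 u21 u12 u03 u40 u31 u22 u13 u04 u41 u32 u23 u14 u42 u33 u24 u43 u34 u44 v10 v01 v20 v11 v02 v30 v21 v12 v03 v40 v31 v22 v13 v04 v41 v32 v23 v14 v42 v33 v24 v43 v34 v44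
  obtain ⟨t3, p3⟩ := pw31 u10 u01 u20 u11 u02 u30 u21 u12 u03 u40 u31 u22 u13 u04 u41 u32 u23 u14 u42 u33 u24 u43 u34 u44 v10 v01 v20 v11 v02 v30 v21 v12 v03 v40 v31 v22 v13 v04 v41 v32 v23 v14 v42 v33 v24 v43 v34 v44
  obtain ⟨t2, p2⟩ := pw22 u10 u01 u20 u11 u02 u30 u21 u12 u03 u40 u31 u22 u13 u04 u41 u32 u23 u14 u42 u33 u24 u43 u34 u44 v10 v01 v20 v11 v02 v30 v21 v12 v03 v40 v31 v22 v13 v04 v41 v32 v23 v14 v42 v33 v24 v43 v34 v44
  obtain ⟨t1, p1⟩ := pw13 u10 u01 u20 u11 u02 u30 u21 u12 u03 u40 u31 u22 u13 u04 u41 u32 u23 u14 u42 u33 u24 u43 u34 u44 v10 v01 v20 v11 v02 v30 v21 v12 v03 v40 v31 v22 v13 v04 v41 v32 v23 v14 v42 v33 v24 v43 v34 v44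
  obtain ⟨t0, p0⟩ := pw04 u10 u01 u20 u11 u02 u30 u21 u12 u03 u40 u31 u22 u13 u04 u41 u32 u23 u14 u42 u33 u24 u43 u34 u44 v10 v01 v20 v11 v02 v30 v21 v12 v03 v40 v31 v22 v13 v04 v41 v32 v23 v14 v42 v33 v24 v43 v34 v44
  simp only [hom_add, hom_smul, hom_m, hx, hy, p4, p3, p2, p1, p0, mk_smul, mk_add, mk_sub, ord5_iff] at o1
  obtain ⟨-, -, -, -, -, -, -, -, -, -, e40, e31, e22, e13, e04⟩ := o1
  exact ⟨u10, u01, v10, v01, hc, by linear_combination e40, by linear_combination e31, by linear_combination e22, by linear_combination e13, by linear_combination e04⟩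

theorem lin_eqs5 {a41 a32 a23 a14 a42 a33 a24 a43 a34 : k}
    {b41 b32 b23 b14 b42 b33 b24 b43 b34 : k}
    (h : Rel (mk 0 0 0 0 0 0 0 0 0 0 0 0 0 0 0 a41 a32 a23 a14 a42 a33 a24 a43 a34 0)
      (mk 0 0 0 0 0 0 0 0 0 0 0 0 0 0 0 b41 b32 b23 b14 b42 b33 b24 b43 b34 0)) :
    ∃ u10 u01 v10 v01 : k, u10 * v01 - u01 * v10 ≠ 0 ∧
      (u10 * v01 - u01 * v10) ^ 3 * b41 = a14*u01*v10^(4:ℕ) + 4*a14*u10*v01*v10*v10*v10 + 2*a23*u01*u10*v10*v10*v10 + 3*a23*u10*u10*v01*v10*v10 + 3*a32*u01*u10*u10*v10*v10 + 2*a32*u10*u10*u10*v01*v10 + 4*a41*u01*u10*u10*u10*v10 + a41*u10^(4:ℕ)*v01 ∧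
      (u10 * v01 - u01 * v10) ^ 3 * b32 = 4*a14*u01*v01*v10*v10*v10 + 6*a14*u10*v01*v01*v10*v10 + 6*a23*u01*u10*v01*v10*v10 + a23*u01*u01*v10*v10*v10 + 3*a23*u10*u10*v01*v01*v10 + 6*a32*u01*u10*u10*v01*v10 + 3*a32*u01*u01*u10*v10*v10 + a32*u10*u10*u10*v01*v01 + 4*a41*u01*u10*u10*u10*v01 + 6*a41*u01*u01*u10*u10*v10 ∧
      (u10 * v01 - u01 * v10) ^ 3 * b23 = 6*a14*u01*v01*v01*v10*v10 + 4*a14*u10*v01*v01*v01*v10 + 6*a23*u01*u10*v01*v01*v10 + 3*a23*u01*u01*v01*v10*v10 + a23*u10*u10*v01*v01*v01 + 3*a32*u01*u10*u10*v01*v01 + 6*a32*u01*u01*u10*v01*v10 + a32*u01*u01*u01*v10*v10 + 6*a41*u01*u01*u10*u10*v01 + 4*a41*u01*u01*u01*u10*v10 ∧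
      (u10 * v01 - u01 * v10) ^ 3 * b14 = 4*a14*u01*v01*v01*v01*v10 + a14*u10*v01^(4:ℕ) + 2*a23*u01*u10*v01*v01*v01 + 3*a23*u01*u01*v01*v01*v10 + 3*a32*u01*u01*u10*v01*v01 + 2*a32*u01*u01*u01*v01*v10 + 4*a41*u01*u01*u01*u10*v01 + a41*u01^(4:ℕ)*v10 := by
  obtain ⟨φ, c, hc, o1, o2, hj, hH⟩ := h.coords
  obtain ⟨u10, u01, u20, u11, u02, u30, u21, u12, u03, u40, u31, u22, u13, u04, u41, u32, u23, u14, u42, u33, u24, u43, u34, u44, hx⟩ := ord1_surj o1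
  obtain ⟨v10, v01, v20, v11, v02, v30, v21, v12, v03, v40, v31, v22, v13, v04, v41, v32, v23, v14, v42, v33, v24, v43, v34, v44, hy⟩ := ord1_surj o2
  obtain rfl := (jac_eqs hx hy hj).1
  clear o1 o2 hj
  have e : (mk 0 0 0 0 0 0 0 0 0 0 0 0 0 0 0 a41 a32 a23 a14 a42 a33 a24 a43 a34 0 : O k) =
      a41 • m 4 1 + a32 • m 3 2 + a23 • m 2 3 + a14 • m 1 4 + mk 0 0 0 0 0 0 0 0 0 0 0 0 0 0 0 0 0 0 0 a42 a33 a24 a43 a34 0 := by
    simp only [m41, m32, m23, m14, mk_smul, mk_add, mul_zero, mul_one, add_zero, zero_add]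
  have o1 : Ord 6 (φ (mk 0 0 0 0 0 0 0 0 0 0 0 0 0 0 0 0 0 0 0 a42 a33 a24 a43 a34 0)) := (ord6_iff.mpr ⟨rfl, rfl, rfl, rfl, rfl, rfl, rfl, rfl, rfl, rfl, rfl, rfl, rfl, rfl, rfl, rfl, rfl, rfl, rfl⟩).hom φ
  rw [e, hom_add, ← eq_sub_iff_add_eq'] at hH
  rw [hH] at o1
  obtain ⟨t4, p4⟩ := pw41 u10 u01 u20 u11 u02 u30 u21 u12 u03 u40 u31 u22 u13 u04 u41 u32 u23 u14 u42 u33 u24 u43 u34 u44 v10 v01 v20 v11 v02 v30 v21 v12 v03 v40 v31 v22 v13 v04 v41 v32 v23 v14 v42 v33 v24 v43 v34 v44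
  obtain ⟨t3, p3⟩ := pw32 u10 u01 u20 u11 u02 u30 u21 u12 u03 u40 u31 u22 u13 u04 u41 u32 u23 u14 u42 u33 u24 u43 u34 u44 v10 v01 v20 v11 v02 v30 v21 v12 v03 v40 v31 v22 v13 v04 v41 v32 v23 v14 v42 v33 v24 v43 v34 v44
  obtain ⟨t2, p2⟩ := pw23 u10 u01 u20 u11 u02 u30 u21 u12 u03 u40 u31 u22 u13 u04 u41 u32 u23 u14 u42 u33 u24 u43 u34 u44 v10 v01 v20 v11 v02 v30 v21 v12 v03 v40 v31 v22 v13 v04 v41 v32 v23 v14 v42 v33 v24 v43 v34 v44
  obtain ⟨t1, p1⟩ := pw14 u10 u01 u20 u11 u02 u30 u21 u12 u03 u40 u31 u22 u13 u04 u41 u32 u23 u14 u42 u33 u24 u43 u34 u44 v10 v01 v20 v11 v02 v30 v21 v12 v03 v40 v31 v22 v13 v04 v41 v32 v23 v14 v42 v33 v24 v43 v34 v44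
  simp only [hom_add, hom_smul, hom_m, hx, hy, p4, p3, p2, p1, mk_smul, mk_add, mk_sub, ord6_iff] at o1
  obtain ⟨-, -, -, -, -, -, -, -, -, -, -, -, -, -, -, e41, e32, e23, e14⟩ := o1
  exact ⟨u10, u01, v10, v01, hc, by linear_combination e41, by linear_combination e32, by linear_combination e23, by linear_combination e14⟩

theorem lin_eqs6 {a42 a33 a24 a43 a34 : k}
    {b42 b33 b24 b43 b34 : k}
    (h : Rel (mk 0 0 0 0 0 0 0 0 0 0 0 0 0 0 0 0 0 0 0 a42 a33 a24 a43 a34 0)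
      (mk 0 0 0 0 0 0 0 0 0 0 0 0 0 0 0 0 0 0 0 b42 b33 b24 b43 b34 0)) :
    ∃ u10 u01 v10 v01 : k, u10 * v01 - u01 * v10 ≠ 0 ∧
      (u10 * v01 - u01 * v10) ^ 3 * b42 = 8*a24*u01*u10*v01*v10*v10*v10 + a24*u01*u01*v10^(4:ℕ) + 6*a24*u10*u10*v01*v01*v10*v10 + 9*a33*u01*u10*u10*v01*v10*v10 + 3*a33*u01*u01*u10*v10*v10*v10 + 3*a33*u10*u10*u10*v01*v01*v10 + 8*a42*u01*u10*u10*u10*v01*v10 + 6*a42*u01*u01*u10*u10*v10*v10 + a42*u10^(4:ℕ)*v01*v01 ∧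
      (u10 * v01 - u01 * v10) ^ 3 * b33 = 12*a24*u01*u10*v01*v01*v10*v10 + 4*a24*u01*u01*v01*v10*v10*v10 + 4*a24*u10*u10*v01*v01*v01*v10 + 9*a33*u01*u10*u10*v01*v01*v10 + 9*a33*u01*u01*u10*v01*v10*v10 + a33*u01*u01*u01*v10*v10*v10 + a33*u10*u10*u10*v01*v01*v01 + 4*a42*u01*u10*u10*u10*v01*v01 + 12*a42*u01*u01*u10*u10*v01*v10 + 4*a42*u01*u01*u01*u10*v10*v10 ∧
      (u10 * v01 - u01 * v10) ^ 3 * b24 = 8*a24*u01*u10*v01*v01*v01*v10 + 6*a24*u01*u01*v01*v01*v10*v10 + a24*u10*u10*v01^(4:ℕ) + 3*a33*u01*u10*u10*v01*v01*v01 + 9*a33*u01*u01*u10*v01*v01*v10 + 3*a33*u01*u01*u01*v01*v10*v10 + 6*a42*u01*u01*u10*u10*v01*v01 + 8*a42*u01*u01*u01*u10*v01*v10 + a42*u01^(4:ℕ)*v10*v10 := by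
  obtain ⟨φ, c, hc, o1, o2, hj, hH⟩ := h.coords
  obtain ⟨u10, u01, u20, u11, u02, u30, u21, u12, u03, u40, u31, u22, u13, u04, u41, u32, u23, u14, u42, u33, u24, u43, u34, u44, hx⟩ := ord1_surj o1
  obtain ⟨v10, v01, v20, v11, v02, v30, v21, v12, v03, v40, v31, v22, v13, v04, v41, v32, v23, v14, v42, v33, v24, v43, v34, v44, hy⟩ := ord1_surj o2
  obtain rfl := (jac_eqs hx hy hj).1
  clear o1 o2 hj
  have e : (mk 0 0 0 0 0 0 0 0 0 0 0 0 0 0 0 0 0 0 0 a42 a33 a24 a43 a34 0 : O k) =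
      a42 • m 4 2 + a33 • m 3 3 + a24 • m 2 4 + mk 0 0 0 0 0 0 0 0 0 0 0 0 0 0 0 0 0 0 0 0 0 0 a43 a34 0 := by
    simp only [m42, m33, m24, mk_smul, mk_add, mul_zero, mul_one, add_zero, zero_add]
  have o1 : Ord 7 (φ (mk 0 0 0 0 0 0 0 0 0 0 0 0 0 0 0 0 0 0 0 0 0 0 a43 a34 0)) := (ord7_iff.mpr ⟨rfl, rfl, rfl, rfl, rfl, rfl, rfl, rfl, rfl, rfl, rfl, rfl, rfl, rfl, rfl, rfl, rfl, rfl, rfl, rfl, rfl, rfl⟩).hom φ
  rw [e, hom_add, ← eq_sub_iff_add_eq'] at hH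
  rw [hH] at o1
  obtain ⟨t4, p4⟩ := pw42 u10 u01 u20 u11 u02 u30 u21 u12 u03 u40 u31 u22 u13 u04 u41 u32 u23 u14 u42 u33 u24 u43 u34 u44 v10 v01 v20 v11 v02 v30 v21 v12 v03 v40 v31 v22 v13 v04 v41 v32 v23 v14 v42 v33 v24 v43 v34 v44
  obtain ⟨t3, p3⟩ := pw33 u10 u01 u20 u11 u02 u30 u21 u12 u03 u40 u31 u22 u13 u04 u41 u32 u23 u14 u42 u33 u24 u43 u34 u44 v10 v01 v20 v11 v02 v30 v21 v12 v03 v40 v31 v22 v13 v04 v41 v32 v23 v14 v42 v33 v24 v43 v34 v44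
  obtain ⟨t2, p2⟩ := pw24 u10 u01 u20 u11 u02 u30 u21 u12 u03 u40 u31 u22 u13 u04 u41 u32 u23 u14 u42 u33 u24 u43 u34 u44 v10 v01 v20 v11 v02 v30 v21 v12 v03 v40 v31 v22 v13 v04 v41 v32 v23 v14 v42 v33 v24 v43 v34 v44
  simp only [hom_add, hom_smul, hom_m, hx, hy, p4, p3, p2, mk_smul, mk_add, mk_sub, ord7_iff] at o1
  obtain ⟨-, -, -, -, -, -, -, -, -, -, -, -, -, -, -, -, -, -, -, e42, e33, e24⟩ := o1
  exact ⟨u10, u01, v10, v01, hc, by linear_combination e42, by linear_combination e33, by linear_combination e24⟩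

end Pool.Agent.H25
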