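import Pool.Agent.P.MP_c9b50d_al.H.Step
import Pool.Agent.P.MP_c9b50d_al.H.Lin

namespace Pool.Agent.H25

variable {k : Type*} [Field k] [hp : CharP k 5]

set_option linter.unusedSimpArgs false

theorem cA7 (p14 p24 a43 a34 : k) :
    Rel (mk 0 1 0 0 0 0 0 0 0 0 0 0 0 0 0 0 0 0 p14 0 0 p24 a43 a34 0)
      (mk 0 1 0 0 0 0 0 0 0 0 0 0 0 0 0 0 0 0 p14 0 0 p24 0 a34 0) := by
  exact st17 1 0 0 0 0 0 0 0 0 0 0 0 0 0 0 0 0 p14 0 0 p24 a43 a34 (-a43) 0 a34 (by grind) (by grind)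

theorem cA6 (p14 a42 a33 a24 a43 a34 : k) :
    ∃ q34 : k, Rel (mk 0 1 0 0 0 0 0 0 0 0 0 0 0 0 0 0 0 0 p14 a42 a33 a24 a43 a34 0)
      (mk 0 1 0 0 0 0 0 0 0 0 0 0 0 0 0 0 0 0 p14 0 0 a24 0 q34 0) := by
  obtain ⟨b43, b34, r⟩ := st16 1 0 0 0 0 0 0 0 0 0 0 0 0 0 0 0 0 p14 a42 a33 a24 a43 a34 (2*a42) (-a33) 0 0 a24 (by grind)
      (by grind) (by grind)
  obtain s := cA7   p14 a24 b43 b34
  exact ⟨_, r.trans s⟩

theorem cA5 (a41 a32 a23 a14 a42 a33 a24 a43 a34 : k) :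
    ∃ q24 q34 : k, Rel (mk 0 1 0 0 0 0 0 0 0 0 0 0 0 0 0 a41 a32 a23 a14 a42 a33 a24 a43 a34 0)
      (mk 0 1 0 0 0 0 0 0 0 0 0 0 0 0 0 0 0 0 a14 0 0 q24 0 q34 0) := by
  obtain ⟨b42, b33, b24, b43, b34, r⟩ := st15 1 0 0 0 0 0 0 0 0 0 0 0 0 0 a41 a32 a23 a14 a42 a33 a24 a43 a34 (-2*a41) (2*a32) (-a23) 0 0
      0 a14 (by grind) (by grind) (by grind) (by grind)
  obtain ⟨q34, s⟩ := cA6   a14 b42 b33 b24 b43 b34
  exact ⟨_, _, r.trans s⟩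

theorem cA4 (a40 a31 a22 a13 a04 a41 a32 a23 a14 a42 a33 a24 a43 a34 : k) :
    ∃ q14 q24 q34 : k, Rel (mk 0 1 0 0 0 0 0 0 0 0 a40 a31 a22 a13 a04 a41 a32 a23 a14 a42 a33 a24 a43 a34 0)
      (mk 0 1 0 0 0 0 0 0 0 0 0 0 0 0 0 0 0 0 q14 0 0 q24 0 q34 0) := by
  obtain ⟨b41, b32, b23, b14, b42, b33, b24, b43, b34, r⟩ := st14 1 0 0 0 0 0 0 0 0 a40 a31 a22 a13 a04 a41 a32 a23 a14 a42 a33 a24 a43 a34 a40 (-2*a31)
      (2*a22) (-a13) (-a04) 0 0 0 0 0 0 (by grind) (by grind) (by grind) (by grind) (by grind)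
  obtain ⟨q24, q34, s⟩ := cA5   b41 b32 b23 b14 b42 b33 b24 b43 b34
  exact ⟨_, _, _, r.trans s⟩

theorem cA3 (a30 a21 a12 a03 a40 a31 a22 a13 a04 a41 a32 a23 a14 a42 a33 a24 a43 a34 : k) :
    ∃ q14 q24 q34 : k, Rel (mk 0 1 0 0 0 0 a30 a21 a12 a03 a40 a31 a22 a13 a04 a41 a32 a23 a14 a42 a33 a24 a43 a34 0)
      (mk 0 1 0 0 0 0 0 0 0 0 0 0 0 0 0 0 0 0 q14 0 0 q24 0 q34 0) := by
  obtain ⟨b40, b31, b22, b13, b04, b41, b32, b23, b14, b42, b33, b24, b43, b34, r⟩ := st13 1 0 0 0 0 a30 a21 a12 a03 a40 a31 a22 a13 a04 a41 a32 a23 a14 a42 a33 a24 a43 a34 0 a30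
      (-2*a21) (2*a12) (-a03) 0 0 0 0 (by grind) (by grind) (by grind) (by grind)
  obtain ⟨q14, q24, q34, s⟩ := cA4   b40 b31 b22 b13 b04 b41 b32 b23 b14 b42 b33 b24 b43 b34
  exact ⟨_, _, _, r.trans s⟩

theorem cA2 (a20 a11 a02 a30 a21 a12 a03 a40 a31 a22 a13 a04 a41 a32 a23 a14 a42 a33 a24 a43 a34 : k) :
    ∃ q14 q24 q34 : k, Rel (mk 0 1 0 a20 a11 a02 a30 a21 a12 a03 a40 a31 a22 a13 a04 a41 a32 a23 a14 a42 a33 a24 a43 a34 0)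
      (mk 0 1 0 0 0 0 0 0 0 0 0 0 0 0 0 0 0 0 q14 0 0 q24 0 q34 0) := by
  obtain ⟨b30, b21, b12, b03, b40, b31, b22, b13, b04, b41, b32, b23, b14, b42, b33, b24, b43, b34, r⟩ := st12 1 0 a20 a11 a02 a30 a21 a12 a03 a40 a31 a22 a13 a04 a41 a32 a23 a14 a42 a33 a24 a43 a34 0
      a20 (-2*a11) (2*a02) 0 0 0 (by grind) (by grind) (by grind)
  obtain ⟨q14, q24, q34, s⟩ := cA3   b30 b21 b12 b03 b40 b31 b22 b13 b04 b41 b32 b23 b14 b42 b33 b24 b43 b34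
  exact ⟨_, _, _, r.trans s⟩

theorem cB17 (p22 p33 a43 a34 : k) :
    Rel (mk 0 0 0 0 1 0 0 0 0 0 0 0 p22 0 0 0 0 0 0 0 p33 0 a43 a34 0)
      (mk 0 0 0 0 1 0 0 0 0 0 0 0 p22 0 0 0 0 0 0 0 p33 0 0 0 0) := by
  exact st27 0 1 0 0 0 0 0 0 0 p22 0 0 0 0 0 0 0 p33 0 a43 a34 (-a43) a34 0 0 (by grind) (by grind)

theorem cB16 (p22 a42 a33 a24 a43 a34 : k) :
    Rel (mk 0 0 0 0 1 0 0 0 0 0 0 0 p22 0 0 0 0 0 0 a42 a33 a24 a43 a34 0)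
      (mk 0 0 0 0 1 0 0 0 0 0 0 0 p22 0 0 0 0 0 0 0 a33 0 0 0 0) := by
  obtain ⟨b43, b34, r⟩ := st26 0 1 0 0 0 0 0 0 0 p22 0 0 0 0 0 0 a42 a33 a24 a43 a34 (2*a42) 0 (-2*a24) 0 a33 0 (by grind)
      (by grind) (by grind)
  obtain s := cB17   p22 a33 b43 b34
  exact r.trans s

theorem cB15 (p22 a41 a32 a23 a14 a42 a33 a24 a43 a34 : k) :
    ∃ q33 : k, Rel (mk 0 0 0 0 1 0 0 0 0 0 0 0 p22 0 0 a41 a32 a23 a14 a42 a33 a24 a43 a34 0)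
      (mk 0 0 0 0 1 0 0 0 0 0 0 0 p22 0 0 0 0 0 0 0 q33 0 0 0 0) := by
  obtain ⟨b42, b33, b24, b43, b34, r⟩ := st25 0 1 0 0 0 0 0 0 0 p22 0 0 a41 a32 a23 a14 a42 a33 a24 a43 a34 (-2*a41) (-a32) a23 (2*a14) 0
      0 0 0 0 0 (by grind) (by grind) (by grind) (by grind)
  obtain s := cB16   p22 b42 b33 b24 b43 b34
  exact ⟨_, r.trans s⟩

theorem cB14 (a40 a31 a22 a13 a04 a41 a32 a23 a14 a42 a33 a24 a43 a34 : k) :
    ∃ q33 : k, Rel (mk 0 0 0 0 1 0 0 0 0 0 a40 a31 a22 a13 a04 a41 a32 a23 a14 a42 a33 a24 a43 a34 0)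
      (mk 0 0 0 0 1 0 0 0 0 0 0 0 a22 0 0 0 0 0 0 0 q33 0 0 0 0) := by
  obtain ⟨b41, b32, b23, b14, b42, b33, b24, b43, b34, r⟩ := st24 0 1 0 0 0 0 0 a40 a31 a22 a13 a04 a41 a32 a23 a14 a42 a33 a24 a43 a34 a40 (2*a31) 0 (-2*a13)
      (-a04) 0 0 a22 0 0 (by grind) (by grind) (by grind) (by grind) (by grind)
  obtain ⟨q33, s⟩ := cB15   a22 b41 b32 b23 b14 b42 b33 b24 b43 b34
  exact ⟨_, r.trans s⟩

theorem cB13 (a30 a21 a12 a03 a40 a31 a22 a13 a04 a41 a32 a23 a14 a42 a33 a24 a43 a34 : k) :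
    ∃ q22 q33 : k, Rel (mk 0 0 0 0 1 0 a30 a21 a12 a03 a40 a31 a22 a13 a04 a41 a32 a23 a14 a42 a33 a24 a43 a34 0)
      (mk 0 0 0 0 1 0 0 0 0 0 0 0 q22 0 0 0 0 0 0 0 q33 0 0 0 0) := by
  obtain ⟨b40, b31, b22, b13, b04, b41, b32, b23, b14, b42, b33, b24, b43, b34, r⟩ := st23 0 1 0 a30 a21 a12 a03 a40 a31 a22 a13 a04 a41 a32 a23 a14 a42 a33 a24 a43 a34 (-2*a30)
      (-a21) a12 (2*a03) 0 0 0 0 (by grind) (by grind) (by grind) (by grind)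
  obtain ⟨q33, s⟩ := cB14   b40 b31 b22 b13 b04 b41 b32 b23 b14 b42 b33 b24 b43 b34
  exact ⟨_, _, r.trans s⟩

theorem cB27 (p03 p04 p24 a43 a34 : k) :
    Rel (mk 0 0 0 1 0 0 0 0 0 p03 0 0 0 0 p04 0 0 0 0 0 0 p24 a43 a34 0)
      (mk 0 0 0 1 0 0 0 0 0 p03 0 0 0 0 p04 0 0 0 0 0 0 p24 0 a34 0) := by
  exact st27 1 0 0 0 0 0 p03 0 0 0 0 p04 0 0 0 0 0 0 p24 a43 a34 0 (2*a43) 0 a34 (by grind) (by grind)

theorem cB26 (p03 p04 a42 a33 a24 a43 a34 : k) :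
    ∃ q34 : k, Rel (mk 0 0 0 1 0 0 0 0 0 p03 0 0 0 0 p04 0 0 0 0 a42 a33 a24 a43 a34 0)
      (mk 0 0 0 1 0 0 0 0 0 p03 0 0 0 0 p04 0 0 0 0 0 0 a24 0 q34 0) := by
  obtain ⟨b43, b34, r⟩ := st26 1 0 0 0 0 0 p03 0 0 0 0 p04 0 0 0 0 a42 a33 a24 a43 a34 0 a42 (2*a33) 0 0 a24 (by grind) (by
      grind) (by grind)
  obtain s := cB27   p03 p04 a24 b43 b34
  exact ⟨_, r.trans s⟩

theorem cB25 (p03 p04 a41 a32 a23 a14 a42 a33 a24 a43 a34 : k) :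
    ∃ q24 q34 : k, Rel (mk 0 0 0 1 0 0 0 0 0 p03 0 0 0 0 p04 a41 a32 a23 a14 a42 a33 a24 a43 a34 0)
      (mk 0 0 0 1 0 0 0 0 0 p03 0 0 0 0 p04 0 0 0 0 0 0 q24 0 q34 0) := by
  obtain ⟨b42, b33, b24, b43, b34, r⟩ := st25 1 0 0 0 0 0 p03 0 0 0 0 p04 a41 a32 a23 a14 a42 a33 a24 a43 a34 0 (-a41) a32 (2*a23) (2*a14)
      0 0 0 0 0 (by grind) (by grind) (by grind) (by grind)
  obtain ⟨q34, s⟩ := cB26   p03 p04 b42 b33 b24 b43 b34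
  exact ⟨_, _, r.trans s⟩

theorem cB24 (p03 a40 a31 a22 a13 a04 a41 a32 a23 a14 a42 a33 a24 a43 a34 : k) :
    ∃ q24 q34 : k, Rel (mk 0 0 0 1 0 0 0 0 0 p03 a40 a31 a22 a13 a04 a41 a32 a23 a14 a42 a33 a24 a43 a34 0)
      (mk 0 0 0 1 0 0 0 0 0 p03 0 0 0 0 a04 0 0 0 0 0 0 q24 0 q34 0) := by
  obtain ⟨b41, b32, b23, b14, b42, b33, b24, b43, b34, r⟩ := st24 1 0 0 0 0 0 p03 a40 a31 a22 a13 a04 a41 a32 a23 a14 a42 a33 a24 a43 a34 0 (-2*a40) (-a31)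
      a22 (2*a13) 0 0 0 0 a04 (by grind) (by grind) (by grind) (by grind) (by grind)
  obtain ⟨q24, q34, s⟩ := cB25   p03 a04 b41 b32 b23 b14 b42 b33 b24 b43 b34
  exact ⟨_, _, r.trans s⟩

theorem cB23 (a30 a21 a12 a03 a40 a31 a22 a13 a04 a41 a32 a23 a14 a42 a33 a24 a43 a34 : k) :
    ∃ q04 q24 q34 : k, Rel (mk 0 0 0 1 0 0 a30 a21 a12 a03 a40 a31 a22 a13 a04 a41 a32 a23 a14 a42 a33 a24 a43 a34 0)
      (mk 0 0 0 1 0 0 0 0 0 a03 0 0 0 0 q04 0 0 0 0 0 0 q24 0 q34 0) := by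
  obtain ⟨b40, b31, b22, b13, b04, b41, b32, b23, b14, b42, b33, b24, b43, b34, r⟩ := st23 1 0 0 a30 a21 a12 a03 a40 a31 a22 a13 a04 a41 a32 a23 a14 a42 a33 a24 a43 a34 0 (-2*a30)
      (-a21) a12 0 0 0 a03 (by grind) (by grind) (by grind) (by grind)
  obtain ⟨q24, q34, s⟩ := cB24   a03 b40 b31 b22 b13 b04 b41 b32 b23 b14 b42 b33 b24 b43 b34
  exact ⟨_, _, _, r.trans s⟩

theorem cC17 (p40 p04 p41 a43 a34 : k) :
    Rel (mk 0 0 0 0 0 0 1 0 0 1 p40 0 0 0 p04 p41 0 0 0 0 0 0 a43 a34 0)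
      (mk 0 0 0 0 0 0 1 0 0 1 p40 0 0 0 p04 p41 0 0 0 0 0 0 0 0 0) := by
  exact st37 1 0 0 1 p40 0 0 0 p04 p41 0 0 0 0 0 0 a43 a34 (2*a34) 0 (-2*a43) 0 0 (by grind) (by grind)

theorem cC16 (p40 p04 p41 a42 a33 a24 a43 a34 : k) :
    Rel (mk 0 0 0 0 0 0 1 0 0 1 p40 0 0 0 p04 p41 0 0 0 a42 a33 a24 a43 a34 0)
      (mk 0 0 0 0 0 0 1 0 0 1 p40 0 0 0 p04 p41 0 0 0 0 0 0 0 0 0) := by
  obtain ⟨b43, b34, r⟩ := st36 1 0 0 1 p40 0 0 0 p04 p41 0 0 0 a42 a33 a24 a43 a34 (2*a33) a24 (-a42) 0 0 0 0 0 0 (by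
      grind) (by grind) (by grind)
  obtain s := cC17   p40 p04 p41 b43 b34
  exact r.trans s

theorem cC15 (p40 p04 a41 a32 a23 a14 a42 a33 a24 a43 a34 : k) :
    Rel (mk 0 0 0 0 0 0 1 0 0 1 p40 0 0 0 p04 a41 a32 a23 a14 a42 a33 a24 a43 a34 0)
      (mk 0 0 0 0 0 0 1 0 0 1 p40 0 0 0 p04 (a14 + a41) 0 0 0 0 0 0 0 0 0) := by
  obtain ⟨b42, b33, b24, b43, b34, r⟩ := st35 1 0 0 1 p40 0 0 0 p04 a41 a32 a23 a14 a42 a33 a24 a43 a34 (2*a32) a23 (-a14) 0 0 (a14 + a41)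
      0 0 0 (by grind) (by grind) (by grind) (by grind)
  obtain s := cC16   p40 p04 (a14 + a41) b42 b33 b24 b43 b34
  exact r.trans s

theorem cC14 (a40 a31 a22 a13 a04 a41 a32 a23 a14 a42 a33 a24 a43 a34 : k) :
    ∃ q41 : k, Rel (mk 0 0 0 0 0 0 1 0 0 1 a40 a31 a22 a13 a04 a41 a32 a23 a14 a42 a33 a24 a43 a34 0)
      (mk 0 0 0 0 0 0 1 0 0 1 (-2*a13 + a40) 0 0 0 (a04 - 2*a31) q41 0 0 0 0 0 0 0 0 0) := by
  obtain ⟨b41, b32, b23, b14, b42, b33, b24, b43, b34, r⟩ := st34 1 0 0 1 a40 a31 a22 a13 a04 a41 a32 a23 a14 a42 a33 a24 a43 a34 a22 (-a13) a31 0 (-2*a13 +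
      a40) 0 0 0 (a04 - 2*a31) (by grind) (by grind) (by grind) (by grind) (by grind)
  obtain s := cC15   (-2*a13 + a40) (a04 - 2*a31) b41 b32 b23 b14 b42 b33 b24 b43 b34
  exact ⟨_, r.trans s⟩

theorem cC27 (p04 p31 p23 a43 a34 : k) :
    Rel (mk 0 0 0 0 0 0 0 1 0 0 0 p31 0 0 p04 0 0 p23 0 0 0 0 a43 a34 0)
      (mk 0 0 0 0 0 0 0 1 0 0 0 p31 0 0 p04 0 0 p23 0 0 0 0 0 0 0) := by
  exact st37 0 1 0 0 0 p31 0 0 p04 0 0 p23 0 0 0 0 a43 a34 0 (2*a43) a34 0 0 (by grind) (by grind)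

theorem cC26 (p04 p31 p23 a42 a33 a24 a43 a34 : k) :
    Rel (mk 0 0 0 0 0 0 0 1 0 0 0 p31 0 0 p04 0 0 p23 0 a42 a33 a24 a43 a34 0)
      (mk 0 0 0 0 0 0 0 1 0 0 0 p31 0 0 p04 0 0 p23 0 0 0 0 0 0 0) := by
  obtain ⟨b43, b34, r⟩ := st36 0 1 0 0 0 p31 0 0 p04 0 0 p23 0 a42 a33 a24 a43 a34 0 a42 (-a33) (-2*a24) 0 0 0 0 0 (by
      grind) (by grind) (by grind)
  obtain s := cC27   p04 p31 p23 b43 b34
  exact r.trans s

theorem cC25 (p04 p31 a41 a32 a23 a14 a42 a33 a24 a43 a34 : k) :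
    Rel (mk 0 0 0 0 0 0 0 1 0 0 0 p31 0 0 p04 a41 a32 a23 a14 a42 a33 a24 a43 a34 0)
      (mk 0 0 0 0 0 0 0 1 0 0 0 p31 0 0 p04 0 0 a23 0 0 0 0 0 0 0) := by
  obtain ⟨b42, b33, b24, b43, b34, r⟩ := st35 0 1 0 0 0 p31 0 0 p04 a41 a32 a23 a14 a42 a33 a24 a43 a34 0 (-a41) (-2*a32) 0 (2*a14) 0 0
      a23 0 (by grind) (by grind) (by grind) (by grind)
  obtain s := cC26   p04 p31 a23 b42 b33 b24 b43 b34
  exact r.trans s

theorem cC24 (a40 a31 a22 a13 a04 a41 a32 a23 a14 a42 a33 a24 a43 a34 : k) :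
    ∃ q23 : k, Rel (mk 0 0 0 0 0 0 0 1 0 0 a40 a31 a22 a13 a04 a41 a32 a23 a14 a42 a33 a24 a43 a34 0)
      (mk 0 0 0 0 0 0 0 1 0 0 0 a31 0 0 a04 0 0 q23 0 0 0 0 0 0 0) := by
  obtain ⟨b41, b32, b23, b14, b42, b33, b24, b43, b34, r⟩ := st34 0 1 0 0 a40 a31 a22 a13 a04 a41 a32 a23 a14 a42 a33 a24 a43 a34 (-2*a40) 0 (2*a22) a13 0 a31
      0 0 a04 (by grind) (by grind) (by grind) (by grind) (by grind)
  obtain s := cC25   a04 a31 b41 b32 b23 b14 b42 b33 b24 b43 b34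
  exact ⟨_, r.trans s⟩

theorem cC37 (p04 p13 p14 a43 a34 : k) :
    Rel (mk 0 0 0 0 0 0 1 0 0 0 0 0 0 p13 p04 0 0 0 p14 0 0 0 a43 a34 0)
      (mk 0 0 0 0 0 0 1 0 0 0 0 0 0 p13 p04 0 0 0 p14 0 0 0 0 a34 0) := by
  exact st37 1 0 0 0 0 0 0 p13 p04 0 0 0 p14 0 0 0 a43 a34 0 0 (-2*a43) 0 a34 (by grind) (by grind)

theorem cC36 (p04 p13 p14 a42 a33 a24 a43 a34 : k) :
    ∃ q34 : k, Rel (mk 0 0 0 0 0 0 1 0 0 0 0 0 0 p13 p04 0 0 0 p14 a42 a33 a24 a43 a34 0)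
      (mk 0 0 0 0 0 0 1 0 0 0 0 0 0 p13 p04 0 0 0 p14 0 0 0 0 q34 0) := by
  obtain ⟨b43, b34, r⟩ := st36 1 0 0 0 0 0 0 p13 p04 0 0 0 p14 a42 a33 a24 a43 a34 0 0 (-a42) (-2*a33) (-2*a24) 0 0 0 0 (by
      grind) (by grind) (by grind)
  obtain s := cC37   p04 p13 p14 b43 b34
  exact ⟨_, r.trans s⟩

theorem cC35 (p04 p13 a41 a32 a23 a14 a42 a33 a24 a43 a34 : k) :
    ∃ q34 : k, Rel (mk 0 0 0 0 0 0 1 0 0 0 0 0 0 p13 p04 a41 a32 a23 a14 a42 a33 a24 a43 a34 0)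
      (mk 0 0 0 0 0 0 1 0 0 0 0 0 0 p13 p04 0 0 0 a14 0 0 0 0 q34 0) := by
  obtain ⟨b42, b33, b24, b43, b34, r⟩ := st35 1 0 0 0 0 0 0 p13 p04 a41 a32 a23 a14 a42 a33 a24 a43 a34 0 0 a41 (-a32) (-2*a23) 0 0 0 a14
      (by grind) (by grind) (by grind) (by grind)
  obtain ⟨q34, s⟩ := cC36   p04 p13 a14 b42 b33 b24 b43 b34
  exact ⟨_, r.trans s⟩

theorem cC34 (a40 a31 a22 a13 a04 a41 a32 a23 a14 a42 a33 a24 a43 a34 : k) :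
    ∃ q14 q34 : k, Rel (mk 0 0 0 0 0 0 1 0 0 0 a40 a31 a22 a13 a04 a41 a32 a23 a14 a42 a33 a24 a43 a34 0)
      (mk 0 0 0 0 0 0 1 0 0 0 0 0 0 a13 a04 0 0 0 q14 0 0 0 0 q34 0) := by
  obtain ⟨b41, b32, b23, b14, b42, b33, b24, b43, b34, r⟩ := st34 1 0 0 0 a40 a31 a22 a13 a04 a41 a32 a23 a14 a42 a33 a24 a43 a34 0 (2*a40) a31 (-a22) 0 0 0
      a13 a04 (by grind) (by grind) (by grind) (by grind) (by grind)
  obtain ⟨q34, s⟩ := cC35   a04 a13 b41 b32 b23 b14 b42 b33 b24 b43 b34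
  exact ⟨_, _, r.trans s⟩

theorem cD17 (l w : k) (hw : w * (2 * l * l - 1) = 1) (a43 a34 : k) :
    Rel (mk 0 0 0 0 0 0 0 0 0 0 0 1 l 1 0 0 0 0 0 0 0 0 a43 a34 0)
      (mk 0 0 0 0 0 0 0 0 0 0 0 1 l 1 0 0 0 0 0 0 0 0 0 0 0) := by
  exact st47 0 1 l 1 0 0 0 0 0 0 0 0 a43 a34 (-a43 + a34*l) (2*a34) 0 0 0 0 0 0 (by grind) (by grind)

theorem cD16 (l w : k) (hw : w * (2 * l * l - 1) = 1) (a42 a33 a24 a43 a34 : k) :
    Rel (mk 0 0 0 0 0 0 0 0 0 0 0 1 l 1 0 0 0 0 0 a42 a33 a24 a43 a34 0)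
      (mk 0 0 0 0 0 0 0 0 0 0 0 1 l 1 0 0 0 0 0 0 0 0 0 0 0) := by
  obtain ⟨b43, b34, r⟩ := st46 0 1 l 1 0 0 0 0 0 a42 a33 a24 a43 a34 (2*a24 + 2*a42 - a33*l) (-2*a33) a24 0 0 0 0 0 (by
      grind) (by grind) (by grind)
  obtain s := cD17 l w hw b43 b34
  exact r.trans s

theorem cD15 (l w : k) (hw : w * (2 * l * l - 1) = 1) (a41 a32 a23 a14 a42 a33 a24 a43 a34 : k) :
    Rel (mk 0 0 0 0 0 0 0 0 0 0 0 1 l 1 0 a41 a32 a23 a14 a42 a33 a24 a43 a34 0)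
      (mk 0 0 0 0 0 0 0 0 0 0 0 1 l 1 0 0 0 0 0 0 0 0 0 0 0) := by
  obtain ⟨b42, b33, b24, b43, b34, r⟩ := st45 0 1 l 1 0 a41 a32 a23 a14 a42 a33 a24 a43 a34 (-a32*w - 2*a41*l*w) (-a41*w - a32*l*w) (a14*w
      + a23*l*w) (a23*w + 2*a14*l*w) 0 0 0 0 (by grind) (by grind) (by grind) (by grind)
  obtain s := cD16 l w hw b42 b33 b24 b43 b34
  exact r.trans s

theorem cD27 (p41 p23 a43 a34 : k) :
    Rel (mk 0 0 0 0 0 0 0 0 0 0 1 0 0 1 0 p41 0 p23 0 0 0 0 a43 a34 0)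
      (mk 0 0 0 0 0 0 0 0 0 0 1 0 0 1 0 p41 0 p23 0 0 0 0 0 0 0) := by
  exact st47 1 0 0 1 0 p41 0 p23 0 0 0 0 a43 a34 (-a43) (2*a34) 0 0 0 0 0 0 (by grind) (by grind)

theorem cD26 (p41 p23 a42 a33 a24 a43 a34 : k) :
    Rel (mk 0 0 0 0 0 0 0 0 0 0 1 0 0 1 0 p41 0 p23 0 a42 a33 a24 a43 a34 0)
      (mk 0 0 0 0 0 0 0 0 0 0 1 0 0 1 0 p41 0 p23 0 0 0 0 0 0 0) := by
  obtain ⟨b43, b34, r⟩ := st46 1 0 0 1 0 p41 0 p23 0 a42 a33 a24 a43 a34 (2*a42) (-2*a33) a24 0 0 0 0 0 (by grind) (by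
      grind) (by grind)
  obtain s := cD27   p41 p23 b43 b34
  exact r.trans s

theorem cD25 (a41 a32 a23 a14 a42 a33 a24 a43 a34 : k) :
    Rel (mk 0 0 0 0 0 0 0 0 0 0 1 0 0 1 0 a41 a32 a23 a14 a42 a33 a24 a43 a34 0)
      (mk 0 0 0 0 0 0 0 0 0 0 1 0 0 1 0 (-2*a14 + a41) 0 a23 0 0 0 0 0 0 0) := by
  obtain ⟨b42, b33, b24, b43, b34, r⟩ := st45 1 0 0 1 0 a41 a32 a23 a14 a42 a33 a24 a43 a34 a32 0 (-a14) 0 (-2*a14 + a41) 0 a23 0 (by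
      grind) (by grind) (by grind) (by grind)
  obtain s := cD26   (-2*a14 + a41) a23 b42 b33 b24 b43 b34
  exact r.trans s

theorem cD37 (p33 a43 a34 : k) :
    Rel (mk 0 0 0 0 0 0 0 0 0 0 0 0 1 0 0 0 0 0 0 0 p33 0 a43 a34 0)
      (mk 0 0 0 0 0 0 0 0 0 0 0 0 1 0 0 0 0 0 0 0 p33 0 0 0 0) := by
  exact st47 0 0 1 0 0 0 0 0 0 0 p33 0 a43 a34 0 (2*a43) (-2*a34) 0 0 0 0 0 (by grind) (by grind)

theorem cD36 (a42 a33 a24 a43 a34 : k) :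
    Rel (mk 0 0 0 0 0 0 0 0 0 0 0 0 1 0 0 0 0 0 0 a42 a33 a24 a43 a34 0)
      (mk 0 0 0 0 0 0 0 0 0 0 0 0 1 0 0 0 0 0 0 0 a33 0 0 0 0) := by
  obtain ⟨b43, b34, r⟩ := st46 0 0 1 0 0 0 0 0 0 a42 a33 a24 a43 a34 0 a42 0 (-a24) 0 0 a33 0 (by grind) (by grind) (by
      grind)
  obtain s := cD37   a33 b43 b34
  exact r.trans s

theorem cD35 (a41 a32 a23 a14 a42 a33 a24 a43 a34 : k) :
    ∃ q33 : k, Rel (mk 0 0 0 0 0 0 0 0 0 0 0 0 1 0 0 a41 a32 a23 a14 a42 a33 a24 a43 a34 0)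
      (mk 0 0 0 0 0 0 0 0 0 0 0 0 1 0 0 0 0 0 0 0 q33 0 0 0 0) := by
  obtain ⟨b42, b33, b24, b43, b34, r⟩ := st45 0 0 1 0 0 a41 a32 a23 a14 a42 a33 a24 a43 a34 (-a41) (2*a32) (-2*a23) a14 0 0 0 0 (by grind)
      (by grind) (by grind) (by grind)
  obtain s := cD36   b42 b33 b24 b43 b34
  exact ⟨_, r.trans s⟩

theorem cD47 (p32 p14 a43 a34 : k) :
    Rel (mk 0 0 0 0 0 0 0 0 0 0 0 1 0 0 0 0 p32 0 p14 0 0 0 a43 a34 0)
      (mk 0 0 0 0 0 0 0 0 0 0 0 1 0 0 0 0 p32 0 p14 0 0 0 0 0 0) := by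
  exact st47 0 1 0 0 0 0 p32 0 p14 0 0 0 a43 a34 0 0 (-2*a43) a34 0 0 0 0 (by grind) (by grind)

theorem cD46 (p32 p14 a42 a33 a24 a43 a34 : k) :
    Rel (mk 0 0 0 0 0 0 0 0 0 0 0 1 0 0 0 0 p32 0 p14 a42 a33 a24 a43 a34 0)
      (mk 0 0 0 0 0 0 0 0 0 0 0 1 0 0 0 0 p32 0 p14 0 0 0 0 0 0) := by
  obtain ⟨b43, b34, r⟩ := st46 0 1 0 0 0 0 p32 0 p14 a42 a33 a24 a43 a34 0 0 (-a42) (2*a33) (-2*a24) 0 0 0 (by grind) (by
      grind) (by grind)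
  obtain s := cD47   p32 p14 b43 b34
  exact r.trans s

theorem cD45 (a41 a32 a23 a14 a42 a33 a24 a43 a34 : k) :
    Rel (mk 0 0 0 0 0 0 0 0 0 0 0 1 0 0 0 a41 a32 a23 a14 a42 a33 a24 a43 a34 0)
      (mk 0 0 0 0 0 0 0 0 0 0 0 1 0 0 0 0 a32 0 a14 0 0 0 0 0 0) := by
  obtain ⟨b42, b33, b24, b43, b34, r⟩ := st45 0 1 0 0 0 a41 a32 a23 a14 a42 a33 a24 a43 a34 0 a41 0 (-a23) 0 a32 0 a14 (by grind) (by
      grind) (by grind) (by grind)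
  obtain s := cD46   a32 a14 b42 b33 b24 b43 b34
  exact r.trans s

theorem cD57 (p14 p23 p24 a43 a34 : k) :
    Rel (mk 0 0 0 0 0 0 0 0 0 0 1 0 0 0 0 0 0 p23 p14 0 0 p24 a43 a34 0)
      (mk 0 0 0 0 0 0 0 0 0 0 1 0 0 0 0 0 0 p23 p14 0 0 p24 0 0 0) := by
  exact st47 1 0 0 0 0 0 0 p23 p14 0 0 p24 a43 a34 0 0 0 a43 a34 0 0 0 (by grind) (by grind)

theorem cD56 (p14 p23 a42 a33 a24 a43 a34 : k) :
    Rel (mk 0 0 0 0 0 0 0 0 0 0 1 0 0 0 0 0 0 p23 p14 a42 a33 a24 a43 a34 0)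
      (mk 0 0 0 0 0 0 0 0 0 0 1 0 0 0 0 0 0 p23 p14 0 0 a24 0 0 0) := by
  obtain ⟨b43, b34, r⟩ := st46 1 0 0 0 0 0 0 p23 p14 a42 a33 a24 a43 a34 0 0 0 (-2*a42) a33 0 0 a24 (by grind) (by grind)
      (by grind)
  obtain s := cD57   p14 p23 a24 b43 b34
  exact r.trans s

theorem cD55 (a41 a32 a23 a14 a42 a33 a24 a43 a34 : k) :
    ∃ q24 : k, Rel (mk 0 0 0 0 0 0 0 0 0 0 1 0 0 0 0 a41 a32 a23 a14 a42 a33 a24 a43 a34 0)
      (mk 0 0 0 0 0 0 0 0 0 0 1 0 0 0 0 0 0 a23 a14 0 0 q24 0 0 0) := by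
  obtain ⟨b42, b33, b24, b43, b34, r⟩ := st45 1 0 0 0 0 a41 a32 a23 a14 a42 a33 a24 a43 a34 0 0 (2*a41) (-2*a32) 0 0 a23 a14 (by grind)
      (by grind) (by grind) (by grind)
  obtain s := cD56   a14 a23 b42 b33 b24 b43 b34
  exact ⟨_, r.trans s⟩

theorem cE17 (a43 a34 : k) :
    Rel (mk 0 0 0 0 0 0 0 0 0 0 0 0 0 0 0 0 1 1 0 0 0 0 a43 a34 0)
      (mk 0 0 0 0 0 0 0 0 0 0 0 0 0 0 0 0 1 1 0 0 0 0 0 0 0) := by
  exact st57 0 1 1 0 0 0 0 a43 a34 0 (2*a34 + 2*a43) (2*a34) 0 0 0 0 (by grind) (by grind)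

theorem cE16 (a42 a33 a24 a43 a34 : k) :
    Rel (mk 0 0 0 0 0 0 0 0 0 0 0 0 0 0 0 0 1 1 0 a42 a33 a24 a43 a34 0)
      (mk 0 0 0 0 0 0 0 0 0 0 0 0 0 0 0 0 1 1 0 0 0 0 0 0 0) := by
  obtain ⟨b43, b34, r⟩ := st56 0 1 1 0 a42 a33 a24 a43 a34 (a24 + a33 + a42) (a24 + a33) a24 0 0 0 0 (by grind) (by grind)
      (by grind)
  obtain s := cE17   b43 b34
  exact r.trans s

theorem cE27 (a43 a34 : k) :
    Rel (mk 0 0 0 0 0 0 0 0 0 0 0 0 0 0 0 0 1 0 0 0 0 0 a43 a34 0)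
      (mk 0 0 0 0 0 0 0 0 0 0 0 0 0 0 0 0 1 0 0 0 0 0 0 0 0) := by
  exact st57 0 1 0 0 0 0 0 a43 a34 0 0 (-2*a43) (-2*a34) 0 0 0 (by grind) (by grind)

theorem cE26 (a42 a33 a24 a43 a34 : k) :
    Rel (mk 0 0 0 0 0 0 0 0 0 0 0 0 0 0 0 0 1 0 0 a42 a33 a24 a43 a34 0)
      (mk 0 0 0 0 0 0 0 0 0 0 0 0 0 0 0 0 1 0 0 0 0 0 0 0 0) := by
  obtain ⟨b43, b34, r⟩ := st56 0 1 0 0 a42 a33 a24 a43 a34 0 (-a42) (-a33) (-a24) 0 0 0 (by grind) (by grind) (by grind)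
  obtain s := cE27   b43 b34
  exact r.trans s

theorem cE37 (p24 a43 a34 : k) :
    Rel (mk 0 0 0 0 0 0 0 0 0 0 0 0 0 0 0 1 0 0 0 0 0 p24 a43 a34 0)
      (mk 0 0 0 0 0 0 0 0 0 0 0 0 0 0 0 1 0 0 0 0 0 p24 0 0 0) := by
  exact st57 1 0 0 0 0 0 p24 a43 a34 0 0 0 a43 a34 0 0 (by grind) (by grind)

theorem cE36 (a42 a33 a24 a43 a34 : k) :
    Rel (mk 0 0 0 0 0 0 0 0 0 0 0 0 0 0 0 1 0 0 0 a42 a33 a24 a43 a34 0)
      (mk 0 0 0 0 0 0 0 0 0 0 0 0 0 0 0 1 0 0 0 0 0 a24 0 0 0) := by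
  obtain ⟨b43, b34, r⟩ := st56 1 0 0 0 a42 a33 a24 a43 a34 0 0 (-2*a42) (-2*a33) 0 0 a24 (by grind) (by grind) (by grind)
  obtain s := cE37   a24 b43 b34
  exact r.trans s

theorem cF17 (l w : k) (hw : l * w = 1) (a43 a34 : k) :
    Rel (mk 0 0 0 0 0 0 0 0 0 0 0 0 0 0 0 0 0 0 0 0 l 0 a43 a34 0)
      (mk 0 0 0 0 0 0 0 0 0 0 0 0 0 0 0 0 0 0 0 0 l 0 0 0 0) := by
  exact st67 0 l 0 a43 a34 0 (-2*a43*w) (2*a34*w) 0 0 0 (by grind) (by grind)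

theorem cF27 (a43 a34 : k) :
    Rel (mk 0 0 0 0 0 0 0 0 0 0 0 0 0 0 0 0 0 0 0 1 0 0 a43 a34 0)
      (mk 0 0 0 0 0 0 0 0 0 0 0 0 0 0 0 0 0 0 0 1 0 0 0 0 0) := by
  exact st67 1 0 0 a43 a34 0 0 a43 (-2*a34) 0 0 (by grind) (by grind)

end Pool.Agent.H25

/-!
The normal forms in coordinates, and some exact moves.
-/

namespace Pool.Agent.H25

variable {k : Type*} [Field k] [hp : CharP k 5]

set_option linter.unusedSimpArgs false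

set_option linter.unusedSectionVars false
set_option linter.unusedTactic false

theorem hA (a b c : k) : (NF.A a b c : NF k).h =
    mk 0 1 0 0 0 0 0 0 0 0 0 0 0 0 0 0 0 0 a 0 0 b 0 c 0 := by
  simp only [NF.h, m10, m14, m24, m34, mk_smul, mk_add, mul_zero, mul_one, add_zero, zero_add]

theorem hB1 (a b : k) : (NF.B1 a b : NF k).h =
    mk 0 0 0 0 1 0 0 0 0 0 0 0 a 0 0 0 0 0 0 0 b 0 0 0 0 := by
  simp only [NF.h, m11, m22, m33, mk_smul, mk_add, mul_zero, mul_one, add_zero, zero_add]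

theorem hB2 (a b c : k) : (NF.B2 a b c : NF k).h =
    mk 0 0 0 1 0 0 0 0 0 a 0 0 0 0 b 0 0 0 0 0 0 c 0 0 0 := by
  simp only [NF.h, m20, m03, m04, m24, mk_smul, mk_add, mul_zero, mul_one, add_zero, zero_add]

theorem hB3 (c : k) : (NF.B3 c : NF k).h =
    mk 0 0 0 1 0 0 0 0 0 0 0 0 0 0 0 0 0 0 0 0 0 c 0 1 0 := by
  simp only [NF.h, m20, m24, m34, mk_smul, mk_add, mul_zero, mul_one, add_zero, zero_add]

theorem hC1 (a b c : k) : (NF.C1 a b c : NF k).h =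
    mk 0 0 0 0 0 0 1 0 0 1 a 0 0 0 b c 0 0 0 0 0 0 0 0 0 := by
  simp only [NF.h, m30, m03, m40, m04, m41, mk_smul, mk_add, mul_zero, mul_one, add_zero, zero_add]

theorem hC2 (a b c : k) : (NF.C2 a b c : NF k).h =
    mk 0 0 0 0 0 0 0 1 0 0 0 b 0 0 a 0 0 c 0 0 0 0 0 0 0 := by
  simp only [NF.h, m21, m31, m04, m23, mk_smul, mk_add, mul_zero, mul_one, add_zero, zero_add]

theorem hC3 (c : k) : (NF.C3 c : NF k).h =
    mk 0 0 0 0 0 0 1 0 0 0 0 0 0 0 1 0 0 0 c 0 0 0 0 0 0 := by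
  simp only [NF.h, m30, m04, m14, mk_smul, mk_add, mul_zero, mul_one, add_zero, zero_add]

theorem hC4 (c : k) : (NF.C4 c : NF k).h =
    mk 0 0 0 0 0 0 1 0 0 0 0 0 0 1 0 0 0 0 c 0 0 0 0 0 0 := by
  simp only [NF.h, m30, m13, m14, mk_smul, mk_add, mul_zero, mul_one, add_zero, zero_add]

theorem hC5 : (NF.C5 : NF k).h =
    mk 0 0 0 0 0 0 1 0 0 0 0 0 0 0 0 0 0 0 1 0 0 0 0 0 0 := by
  simp only [NF.h, m30, m14, mk_smul, mk_add, mul_zero, mul_one, add_zero, zero_add]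

theorem hC6 (d : k) : (NF.C6 d : NF k).h =
    mk 0 0 0 0 0 0 1 0 0 0 0 0 0 0 0 0 0 0 0 0 0 0 0 d 0 := by
  simp only [NF.h, m30, m34, mk_smul, mk_add, mul_zero, mul_one, add_zero, zero_add]

theorem hD1 (l : k) (hl : l ^ 2 ≠ 3) : (NF.D1 l hl : NF k).h =
    mk 0 0 0 0 0 0 0 0 0 0 0 1 l 1 0 0 0 0 0 0 0 0 0 0 0 := by
  simp only [NF.h, m31, m22, m13, mk_smul, mk_add, mul_zero, mul_one, add_zero, zero_add]

theorem hD2 (a b : k) : (NF.D2 a b : NF k).h =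
    mk 0 0 0 0 0 0 0 0 0 0 1 0 0 1 0 a 0 b 0 0 0 0 0 0 0 := by
  simp only [NF.h, m40, m13, m41, m23, mk_smul, mk_add, mul_zero, mul_one, add_zero, zero_add]

theorem hD3 (a : k) : (NF.D3 a : NF k).h =
    mk 0 0 0 0 0 0 0 0 0 0 0 0 1 0 0 0 0 0 0 0 a 0 0 0 0 := by
  simp only [NF.h, m22, m33, mk_smul, mk_add, mul_zero, mul_one, add_zero, zero_add]

theorem hD4 (a b : k) : (NF.D4 a b : NF k).h =
    mk 0 0 0 0 0 0 0 0 0 0 0 1 0 0 0 0 a 0 b 0 0 0 0 0 0 := by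
  simp only [NF.h, m31, m32, m14, mk_smul, mk_add, mul_zero, mul_one, add_zero, zero_add]

theorem hD5 : (NF.D5 : NF k).h =
    mk 0 0 0 0 0 0 0 0 0 0 1 0 0 0 0 0 0 0 1 0 0 0 0 0 0 := by
  simp only [NF.h, m40, m14, mk_smul, mk_add, mul_zero, mul_one, add_zero, zero_add]

theorem hD6 (b c : k) : (NF.D6 b c : NF k).h =
    mk 0 0 0 0 0 0 0 0 0 0 1 0 0 0 0 0 0 b 0 0 0 c 0 0 0 := by
  simp only [NF.h, m40, m23, m24, mk_smul, mk_add, mul_zero, mul_one, add_zero, zero_add]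

theorem hE1 : (NF.E1 : NF k).h =
    mk 0 0 0 0 0 0 0 0 0 0 0 0 0 0 0 0 1 1 0 0 0 0 0 0 0 := by
  simp only [NF.h, m32, m23, mk_smul, mk_add, mul_zero, mul_one, add_zero, zero_add]

theorem hE2 : (NF.E2 : NF k).h =
    mk 0 0 0 0 0 0 0 0 0 0 0 0 0 0 0 0 1 0 0 0 0 0 0 0 0 := by
  simp only [NF.h, m32, mk_smul, mk_add, mul_zero, mul_one, add_zero, zero_add]

theorem hE3 : (NF.E3 : NF k).h =
    mk 0 0 0 0 0 0 0 0 0 0 0 0 0 0 0 1 0 0 0 0 0 1 0 0 0 := by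
  simp only [NF.h, m41, m24, mk_smul, mk_add, mul_zero, mul_one, add_zero, zero_add]

theorem hE4 : (NF.E4 : NF k).h =
    mk 0 0 0 0 0 0 0 0 0 0 0 0 0 0 0 1 0 0 0 0 0 0 0 0 0 := by
  simp only [NF.h, m41, mk_smul, mk_add, mul_zero, mul_one, add_zero, zero_add]

theorem hF1 (a : kˣ) : (NF.F1 a : NF k).h =
    mk 0 0 0 0 0 0 0 0 0 0 0 0 0 0 0 0 0 0 0 0 (a : k) 0 0 0 0 := by
  simp only [NF.h, m33, mk_smul, mk_add, mul_zero, mul_one, add_zero, zero_add]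

theorem hF2 : (NF.F2 : NF k).h =
    mk 0 0 0 0 0 0 0 0 0 0 0 0 0 0 0 0 0 0 0 1 0 0 0 0 0 := by
  simp only [NF.h, m42, mk_smul, mk_add, mul_zero, mul_one, add_zero, zero_add]

theorem hG1 : (NF.G1 : NF k).h =
    mk 0 0 0 0 0 0 0 0 0 0 0 0 0 0 0 0 0 0 0 0 0 0 1 0 0 := by
  simp only [NF.h, m43, mk_smul, mk_add, mul_zero, mul_one, add_zero, zero_add]

theorem hZ : (NF.Z : NF k).h =
    mk 0 0 0 0 0 0 0 0 0 0 0 0 0 0 0 0 0 0 0 0 0 0 0 0 0 := zero_eq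

/-- h is related to a normal form. -/
def Has (h : O k) : Prop := ∃ n : NF k, Rel h n.h

theorem Has.of_rel {h h' : O k} (r : Rel h h') (H : Has h') : Has h := by
  obtain ⟨n, s⟩ := H
  exact ⟨n, r.trans s⟩

theorem hasA (a b c : k) :
    Has (mk 0 1 0 0 0 0 0 0 0 0 0 0 0 0 0 0 0 0 a 0 0 b 0 c 0 : O k) :=
  ⟨.A a b c, by rw [hA]; exact Rel.refl _⟩

theorem hasB1 (a b : k) :
    Has (mk 0 0 0 0 1 0 0 0 0 0 0 0 a 0 0 0 0 0 0 0 b 0 0 0 0 : O k) :=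
  ⟨.B1 a b, by rw [hB1]; exact Rel.refl _⟩

theorem hasB2 (a b c : k) :
    Has (mk 0 0 0 1 0 0 0 0 0 a 0 0 0 0 b 0 0 0 0 0 0 c 0 0 0 : O k) :=
  ⟨.B2 a b c, by rw [hB2]; exact Rel.refl _⟩

theorem hasB3 (c : k) :
    Has (mk 0 0 0 1 0 0 0 0 0 0 0 0 0 0 0 0 0 0 0 0 0 c 0 1 0 : O k) :=
  ⟨.B3 c, by rw [hB3]; exact Rel.refl _⟩

theorem hasC1 (a b c : k) :
    Has (mk 0 0 0 0 0 0 1 0 0 1 a 0 0 0 b c 0 0 0 0 0 0 0 0 0 : O k) :=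
  ⟨.C1 a b c, by rw [hC1]; exact Rel.refl _⟩

theorem hasC2 (a b c : k) :
    Has (mk 0 0 0 0 0 0 0 1 0 0 0 b 0 0 a 0 0 c 0 0 0 0 0 0 0 : O k) :=
  ⟨.C2 a b c, by rw [hC2]; exact Rel.refl _⟩

theorem hasC3 (c : k) :
    Has (mk 0 0 0 0 0 0 1 0 0 0 0 0 0 0 1 0 0 0 c 0 0 0 0 0 0 : O k) :=
  ⟨.C3 c, by rw [hC3]; exact Rel.refl _⟩

theorem hasC4 (c : k) :
    Has (mk 0 0 0 0 0 0 1 0 0 0 0 0 0 1 0 0 0 0 c 0 0 0 0 0 0 : O k) :=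
  ⟨.C4 c, by rw [hC4]; exact Rel.refl _⟩

theorem hasC5 :
    Has (mk 0 0 0 0 0 0 1 0 0 0 0 0 0 0 0 0 0 0 1 0 0 0 0 0 0 : O k) :=
  ⟨.C5, by rw [hC5]; exact Rel.refl _⟩

theorem hasC6 (d : k) :
    Has (mk 0 0 0 0 0 0 1 0 0 0 0 0 0 0 0 0 0 0 0 0 0 0 0 d 0 : O k) :=
  ⟨.C6 d, by rw [hC6]; exact Rel.refl _⟩

theorem hasD1 (l : k) (hl : l ^ 2 ≠ 3) :
    Has (mk 0 0 0 0 0 0 0 0 0 0 0 1 l 1 0 0 0 0 0 0 0 0 0 0 0 : O k) :=
  ⟨.D1 l hl, by rw [hD1]; exact Rel.refl _⟩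

theorem hasD2 (a b : k) :
    Has (mk 0 0 0 0 0 0 0 0 0 0 1 0 0 1 0 a 0 b 0 0 0 0 0 0 0 : O k) :=
  ⟨.D2 a b, by rw [hD2]; exact Rel.refl _⟩

theorem hasD3 (a : k) :
    Has (mk 0 0 0 0 0 0 0 0 0 0 0 0 1 0 0 0 0 0 0 0 a 0 0 0 0 : O k) :=
  ⟨.D3 a, by rw [hD3]; exact Rel.refl _⟩

theorem hasD4 (a b : k) :
    Has (mk 0 0 0 0 0 0 0 0 0 0 0 1 0 0 0 0 a 0 b 0 0 0 0 0 0 : O k) :=
  ⟨.D4 a b, by rw [hD4]; exact Rel.refl _⟩

theorem hasD5 :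
    Has (mk 0 0 0 0 0 0 0 0 0 0 1 0 0 0 0 0 0 0 1 0 0 0 0 0 0 : O k) :=
  ⟨.D5, by rw [hD5]; exact Rel.refl _⟩

theorem hasD6 (b c : k) :
    Has (mk 0 0 0 0 0 0 0 0 0 0 1 0 0 0 0 0 0 b 0 0 0 c 0 0 0 : O k) :=
  ⟨.D6 b c, by rw [hD6]; exact Rel.refl _⟩

theorem hasE1 :
    Has (mk 0 0 0 0 0 0 0 0 0 0 0 0 0 0 0 0 1 1 0 0 0 0 0 0 0 : O k) :=
  ⟨.E1, by rw [hE1]; exact Rel.refl _⟩

theorem hasE2 :
    Has (mk 0 0 0 0 0 0 0 0 0 0 0 0 0 0 0 0 1 0 0 0 0 0 0 0 0 : O k) :=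
  ⟨.E2, by rw [hE2]; exact Rel.refl _⟩

theorem hasE3 :
    Has (mk 0 0 0 0 0 0 0 0 0 0 0 0 0 0 0 1 0 0 0 0 0 1 0 0 0 : O k) :=
  ⟨.E3, by rw [hE3]; exact Rel.refl _⟩

theorem hasE4 :
    Has (mk 0 0 0 0 0 0 0 0 0 0 0 0 0 0 0 1 0 0 0 0 0 0 0 0 0 : O k) :=
  ⟨.E4, by rw [hE4]; exact Rel.refl _⟩

theorem hasF1 (a : kˣ) :
    Has (mk 0 0 0 0 0 0 0 0 0 0 0 0 0 0 0 0 0 0 0 0 (a : k) 0 0 0 0 : O k) :=
  ⟨.F1 a, by rw [hF1]; exact Rel.refl _⟩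

theorem hasF2 :
    Has (mk 0 0 0 0 0 0 0 0 0 0 0 0 0 0 0 0 0 0 0 1 0 0 0 0 0 : O k) :=
  ⟨.F2, by rw [hF2]; exact Rel.refl _⟩

theorem hasG1 :
    Has (mk 0 0 0 0 0 0 0 0 0 0 0 0 0 0 0 0 0 0 0 0 0 0 1 0 0 : O k) :=
  ⟨.G1, by rw [hG1]; exact Rel.refl _⟩

theorem hasZ :
    Has (mk 0 0 0 0 0 0 0 0 0 0 0 0 0 0 0 0 0 0 0 0 0 0 0 0 0 : O k) :=
  ⟨.Z, by rw [hZ]; exact Rel.refl _⟩

omit hp in
theorem rootn [IsAlgClosed k] (a : k) (ha : a ≠ 0) (n : ℕ) (hn : 0 < n) : ∃ s : k, a * s ^ n = 1 := by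
  obtain ⟨s, hs⟩ := IsAlgClosed.exists_pow_nat_eq a⁻¹ hn
  exact ⟨s, by rw [hs, mul_inv_cancel₀ ha]⟩

omit hp in
theorem root2 [IsAlgClosed k] (a b c : k) (ha : a ≠ 0) : ∃ r : k, a * r ^ 2 + b * r + c = 0 := by
  obtain ⟨r, hr⟩ := IsAlgClosed.exists_root
    (Polynomial.C a * Polynomial.X ^ 2 + Polynomial.C b * Polynomial.X + Polynomial.C c)
    (by rw [Polynomial.degree_quadratic ha]; decide)
  exact ⟨r, by simpa using hr⟩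

omit hp in
theorem root3 [IsAlgClosed k] (a b c d : k) (ha : a ≠ 0) :
    ∃ r : k, a * r ^ 3 + b * r ^ 2 + c * r + d = 0 := by
  obtain ⟨r, hr⟩ := IsAlgClosed.exists_root
    (Polynomial.C a * Polynomial.X ^ 3 + Polynomial.C b * Polynomial.X ^ 2 +
      Polynomial.C c * Polynomial.X + Polynomial.C d)
    (by rw [Polynomial.degree_cubic ha]; decide)
  exact ⟨r, by simpa using hr⟩

omit hp in
theorem root4 [IsAlgClosed k] (a b c d e : k) (ha : a ≠ 0) :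
    ∃ r : k, a * r ^ 4 + b * r ^ 3 + c * r ^ 2 + d * r + e = 0 := by
  obtain ⟨r, hr⟩ := IsAlgClosed.exists_root
    (Polynomial.C a * Polynomial.X ^ 4 + Polynomial.C b * Polynomial.X ^ 3 +
      Polynomial.C c * Polynomial.X ^ 2 + Polynomial.C d * Polynomial.X + Polynomial.C e)
    (by
      have h : (Polynomial.C a * Polynomial.X ^ 4 + Polynomial.C b * Polynomial.X ^ 3 +
          Polynomial.C c * Polynomial.X ^ 2 + Polynomial.C d * Polynomial.X +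
          Polynomial.C e).degree = 4 := by compute_degree!
      rw [h]; decide)
  exact ⟨r, by simpa using hr⟩

theorem xB2a (a b c d w : k) (hw : a * w = 1) :
    Rel (mk 0 0 0 1 0 0 0 0 0 a 0 0 0 0 b 0 0 0 0 0 0 c 0 d 0)
      (mk 0 0 0 1 0 0 0 0 0 a 0 0 0 0 b 0 0 0 0 0 0 c 0 0 0) := by
  obtain ⟨h', r, ho⟩ := step 1 3 (mk 0 0 0 1 0 0 0 0 0 a 0 0 0 0 b 0 0 0 0 0 0 c 0 d 0)
    (mk 0 0 0 0 0 0 0 0 0 0 0 0 0 0 0 (d*w) 0 0 0 0 0 0 0 0 0)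
    (mk 0 0 0 0 0 0 0 0 0 0 0 0 0 0 0 0 (-2*d*w) 0 0 0 0 0 0 0 0)
    (ord2_iff.mpr ⟨rfl, rfl, rfl⟩) (ord5_iff.mpr ⟨rfl, rfl, rfl, rfl, rfl, rfl, rfl, rfl, rfl, rfl, rfl, rfl, rfl, rfl, rfl⟩) (ord5_iff.mpr ⟨rfl, rfl, rfl, rfl, rfl, rfl, rfl, rfl, rfl, rfl, rfl, rfl, rfl, rfl, rfl⟩)
    (by rw [pd0_mk, pd1_mk, mk_add, zero_eq, mk_inj]; refine ⟨?_, ?_, ?_, ?_, ?_, ?_, ?_, ?_, ?_, ?_, ?_, ?_, ?_, ?_, ?_, ?_, ?_, ?_, ?_, ?_, ?_, ?_, ?_, ?_, ?_⟩ <;> grind)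
  obtain ⟨b00, b10, b01, b20, b11, b02, b30, b21, b12, b03, b40, b31, b22, b13, b04, b41, b32, b23, b14, b42, b33, b24, b43, b34, b44, rfl⟩ := mk_surj h'
  have h44 := r.top (top_coord ..)
  rw [top_coord] at h44
  subst h44
  have ho' := ho.mono (show 8 ≤ _ by norm_num)
  rw [pd0_mk, pd1_mk, mk_mul, mk_mul, mk_add, mk_add, mk_sub, ord8_iff] at ho'
  obtain ⟨e00, e10, e01, e20, e11, e02, e30, e21, e12, e03, e40, e31, e22, e13, e04, e41, e32, e23, e14, e42, e33, e24, e43, e34⟩ := ho'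
  have e : 0 = b00 := by clear * - hp e00 hw; grind
  subst e
  have e : 0 = b10 := by clear * - hp e10 hw; grind
  subst e
  have e : 0 = b01 := by clear * - hp e01 hw; grind
  subst e
  have e : 1 = b20 := by clear * - hp e20 hw; grind
  subst e
  have e : 0 = b11 := by clear * - hp e11 hw; grind
  subst e
  have e : 0 = b02 := by clear * - hp e02 hw; grind
  subst e
  have e : 0 = b30 := by clear * - hp e30 hw; grind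
  subst e
  have e : 0 = b21 := by clear * - hp e21 hw; grind
  subst e
  have e : 0 = b12 := by clear * - hp e12 hw; grind
  subst e
  have e : a = b03 := by clear * - hp e03 hw; grind
  subst e
  have e : 0 = b40 := by clear * - hp e40 hw; grind
  subst e
  have e : 0 = b31 := by clear * - hp e31 hw; grind
  subst e
  have e : 0 = b22 := by clear * - hp e22 hw; grind
  subst e
  have e : 0 = b13 := by clear * - hp e13 hw; grind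
  subst e
  have e : b = b04 := by clear * - hp e04 hw; grind
  subst e
  have e : 0 = b41 := by clear * - hp e41 hw; grind
  subst e
  have e : 0 = b32 := by clear * - hp e32 hw; grind
  subst e
  have e : 0 = b23 := by clear * - hp e23 hw; grind
  subst e
  have e : 0 = b14 := by clear * - hp e14 hw; grind
  subst e
  have e : 0 = b42 := by clear * - hp e42 hw; grind
  subst e
  have e : 0 = b33 := by clear * - hp e33 hw; grind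
  subst e
  have e : c = b24 := by clear * - hp e24 hw; grind
  subst e
  have e : 0 = b43 := by clear * - hp e43 hw; grind
  subst e
  have e : 0 = b34 := by clear * - hp e34 hw; grind
  subst e
  exact r

theorem xB2b (b c d w : k) (hw : b * w = 1) :
    Rel (mk 0 0 0 1 0 0 0 0 0 0 0 0 0 0 b 0 0 0 0 0 0 c 0 d 0)
      (mk 0 0 0 1 0 0 0 0 0 0 0 0 0 0 b 0 0 0 0 0 0 c 0 0 0) := by
  obtain ⟨h', r, ho⟩ := step 1 2 (mk 0 0 0 1 0 0 0 0 0 0 0 0 0 0 b 0 0 0 0 0 0 c 0 d 0)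
    (mk 0 0 0 0 0 0 0 0 0 0 (d*w) 0 0 0 0 0 0 0 0 0 0 0 0 0 0)
    (mk 0 0 0 0 0 0 0 0 0 0 0 (d*w) 0 0 0 0 0 0 0 0 0 0 0 0 0)
    (ord2_iff.mpr ⟨rfl, rfl, rfl⟩) (ord4_iff.mpr ⟨rfl, rfl, rfl, rfl, rfl, rfl, rfl, rfl, rfl, rfl⟩) (ord4_iff.mpr ⟨rfl, rfl, rfl, rfl, rfl, rfl, rfl, rfl, rfl, rfl⟩)
    (by rw [pd0_mk, pd1_mk, mk_add, zero_eq, mk_inj]; refine ⟨?_, ?_, ?_, ?_, ?_, ?_, ?_, ?_, ?_, ?_, ?_, ?_, ?_, ?_, ?_, ?_, ?_, ?_, ?_, ?_, ?_, ?_, ?_, ?_, ?_⟩ <;> grind)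
  obtain ⟨b00, b10, b01, b20, b11, b02, b30, b21, b12, b03, b40, b31, b22, b13, b04, b41, b32, b23, b14, b42, b33, b24, b43, b34, b44, rfl⟩ := mk_surj h'
  have h44 := r.top (top_coord ..)
  rw [top_coord] at h44
  subst h44
  have ho' := ho.mono (show 8 ≤ _ by norm_num)
  rw [pd0_mk, pd1_mk, mk_mul, mk_mul, mk_add, mk_add, mk_sub, ord8_iff] at ho'
  obtain ⟨e00, e10, e01, e20, e11, e02, e30, e21, e12, e03, e40, e31, e22, e13, e04, e41, e32, e23, e14, e42, e33, e24, e43, e34⟩ := ho'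
  have e : 0 = b00 := by clear * - hp e00 hw; grind
  subst e
  have e : 0 = b10 := by clear * - hp e10 hw; grind
  subst e
  have e : 0 = b01 := by clear * - hp e01 hw; grind
  subst e
  have e : 1 = b20 := by clear * - hp e20 hw; grind
  subst e
  have e : 0 = b11 := by clear * - hp e11 hw; grind
  subst e
  have e : 0 = b02 := by clear * - hp e02 hw; grind
  subst e
  have e : 0 = b30 := by clear * - hp e30 hw; grind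
  subst e
  have e : 0 = b21 := by clear * - hp e21 hw; grind
  subst e
  have e : 0 = b12 := by clear * - hp e12 hw; grind
  subst e
  have e : 0 = b03 := by clear * - hp e03 hw; grind
  subst e
  have e : 0 = b40 := by clear * - hp e40 hw; grind
  subst e
  have e : 0 = b31 := by clear * - hp e31 hw; grind
  subst e
  have e : 0 = b22 := by clear * - hp e22 hw; grind
  subst e
  have e : 0 = b13 := by clear * - hp e13 hw; grind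
  subst e
  have e : b = b04 := by clear * - hp e04 hw; grind
  subst e
  have e : 0 = b41 := by clear * - hp e41 hw; grind
  subst e
  have e : 0 = b32 := by clear * - hp e32 hw; grind
  subst e
  have e : 0 = b23 := by clear * - hp e23 hw; grind
  subst e
  have e : 0 = b14 := by clear * - hp e14 hw; grind
  subst e
  have e : 0 = b42 := by clear * - hp e42 hw; grind
  subst e
  have e : 0 = b33 := by clear * - hp e33 hw; grind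
  subst e
  have e : c = b24 := by clear * - hp e24 hw; grind
  subst e
  have e : 0 = b43 := by clear * - hp e43 hw; grind
  subst e
  have e : 0 = b34 := by clear * - hp e34 hw; grind
  subst e
  exact r

theorem xC3a (a c d w : k) (hw : a * w = 1) :
    Rel (mk 0 0 0 0 0 0 1 0 0 0 0 0 0 0 a 0 0 0 c 0 0 0 0 d 0)
      (mk 0 0 0 0 0 0 1 0 0 0 0 0 0 0 a 0 0 0 c 0 0 0 0 0 0) := by
  obtain ⟨h', r, ho⟩ := step 2 2 (mk 0 0 0 0 0 0 1 0 0 0 0 0 0 0 a 0 0 0 c 0 0 0 0 d 0)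
    (mk 0 0 0 0 0 0 0 0 0 0 (d*w) 0 0 0 0 0 0 0 0 0 0 0 0 0 0)
    (mk 0 0 0 0 0 0 0 0 0 0 0 (d*w) 0 0 0 0 0 0 0 0 0 0 0 0 0)
    (ord3_iff.mpr ⟨rfl, rfl, rfl, rfl, rfl, rfl⟩) (ord4_iff.mpr ⟨rfl, rfl, rfl, rfl, rfl, rfl, rfl, rfl, rfl, rfl⟩) (ord4_iff.mpr ⟨rfl, rfl, rfl, rfl, rfl, rfl, rfl, rfl, rfl, rfl⟩)
    (by rw [pd0_mk, pd1_mk, mk_add, zero_eq, mk_inj]; refine ⟨?_, ?_, ?_, ?_, ?_, ?_, ?_, ?_, ?_, ?_, ?_, ?_, ?_, ?_, ?_, ?_, ?_, ?_, ?_, ?_, ?_, ?_, ?_, ?_, ?_⟩ <;> grind)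
  obtain ⟨b00, b10, b01, b20, b11, b02, b30, b21, b12, b03, b40, b31, b22, b13, b04, b41, b32, b23, b14, b42, b33, b24, b43, b34, b44, rfl⟩ := mk_surj h'
  have h44 := r.top (top_coord ..)
  rw [top_coord] at h44
  subst h44
  have ho' := ho.mono (show 8 ≤ _ by norm_num)
  rw [pd0_mk, pd1_mk, mk_mul, mk_mul, mk_add, mk_add, mk_sub, ord8_iff] at ho'
  obtain ⟨e00, e10, e01, e20, e11, e02, e30, e21, e12, e03, e40, e31, e22, e13, e04, e41, e32, e23, e14, e42, e33, e24, e43, e34⟩ := ho'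
  have e : 0 = b00 := by clear * - hp e00 hw; grind
  subst e
  have e : 0 = b10 := by clear * - hp e10 hw; grind
  subst e
  have e : 0 = b01 := by clear * - hp e01 hw; grind
  subst e
  have e : 0 = b20 := by clear * - hp e20 hw; grind
  subst e
  have e : 0 = b11 := by clear * - hp e11 hw; grind
  subst e
  have e : 0 = b02 := by clear * - hp e02 hw; grind
  subst e
  have e : 1 = b30 := by clear * - hp e30 hw; grind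
  subst e
  have e : 0 = b21 := by clear * - hp e21 hw; grind
  subst e
  have e : 0 = b12 := by clear * - hp e12 hw; grind
  subst e
  have e : 0 = b03 := by clear * - hp e03 hw; grind
  subst e
  have e : 0 = b40 := by clear * - hp e40 hw; grind
  subst e
  have e : 0 = b31 := by clear * - hp e31 hw; grind
  subst e
  have e : 0 = b22 := by clear * - hp e22 hw; grind
  subst e
  have e : 0 = b13 := by clear * - hp e13 hw; grind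
  subst e
  have e : a = b04 := by clear * - hp e04 hw; grind
  subst e
  have e : 0 = b41 := by clear * - hp e41 hw; grind
  subst e
  have e : 0 = b32 := by clear * - hp e32 hw; grind
  subst e
  have e : 0 = b23 := by clear * - hp e23 hw; grind
  subst e
  have e : c = b14 := by clear * - hp e14 hw; grind
  subst e
  have e : 0 = b42 := by clear * - hp e42 hw; grind
  subst e
  have e : 0 = b33 := by clear * - hp e33 hw; grind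
  subst e
  have e : 0 = b24 := by clear * - hp e24 hw; grind
  subst e
  have e : 0 = b43 := by clear * - hp e43 hw; grind
  subst e
  have e : 0 = b34 := by clear * - hp e34 hw; grind
  subst e
  exact r

theorem xC3b (b c d w : k) (hw : b * w = 1) :
    Rel (mk 0 0 0 0 0 0 1 0 0 0 0 0 0 b 0 0 0 0 c 0 0 0 0 d 0)
      (mk 0 0 0 0 0 0 1 0 0 0 0 0 0 b 0 0 0 0 c 0 0 0 0 0 0) := by
  obtain ⟨h', r, ho⟩ := step 2 2 (mk 0 0 0 0 0 0 1 0 0 0 0 0 0 b 0 0 0 0 c 0 0 0 0 d 0)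
    (mk 0 0 0 0 0 0 0 0 0 0 0 (d*w) 0 0 0 0 0 0 0 0 0 0 0 0 0)
    (mk 0 0 0 0 0 0 0 0 0 0 0 0 (d*w) 0 0 0 0 0 0 0 0 0 0 0 0)
    (ord3_iff.mpr ⟨rfl, rfl, rfl, rfl, rfl, rfl⟩) (ord4_iff.mpr ⟨rfl, rfl, rfl, rfl, rfl, rfl, rfl, rfl, rfl, rfl⟩) (ord4_iff.mpr ⟨rfl, rfl, rfl, rfl, rfl, rfl, rfl, rfl, rfl, rfl⟩)
    (by rw [pd0_mk, pd1_mk, mk_add, zero_eq, mk_inj]; refine ⟨?_, ?_, ?_, ?_, ?_, ?_, ?_, ?_, ?_, ?_, ?_, ?_, ?_, ?_, ?_, ?_, ?_, ?_, ?_, ?_, ?_, ?_, ?_, ?_, ?_⟩ <;> grind)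
  obtain ⟨b00, b10, b01, b20, b11, b02, b30, b21, b12, b03, b40, b31, b22, b13, b04, b41, b32, b23, b14, b42, b33, b24, b43, b34, b44, rfl⟩ := mk_surj h'
  have h44 := r.top (top_coord ..)
  rw [top_coord] at h44
  subst h44
  have ho' := ho.mono (show 8 ≤ _ by norm_num)
  rw [pd0_mk, pd1_mk, mk_mul, mk_mul, mk_add, mk_add, mk_sub, ord8_iff] at ho'
  obtain ⟨e00, e10, e01, e20, e11, e02, e30, e21, e12, e03, e40, e31, e22, e13, e04, e41, e32, e23, e14, e42, e33, e24, e43, e34⟩ := ho'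
  have e : 0 = b00 := by clear * - hp e00 hw; grind
  subst e
  have e : 0 = b10 := by clear * - hp e10 hw; grind
  subst e
  have e : 0 = b01 := by clear * - hp e01 hw; grind
  subst e
  have e : 0 = b20 := by clear * - hp e20 hw; grind
  subst e
  have e : 0 = b11 := by clear * - hp e11 hw; grind
  subst e
  have e : 0 = b02 := by clear * - hp e02 hw; grind
  subst e
  have e : 1 = b30 := by clear * - hp e30 hw; grind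
  subst e
  have e : 0 = b21 := by clear * - hp e21 hw; grind
  subst e
  have e : 0 = b12 := by clear * - hp e12 hw; grind
  subst e
  have e : 0 = b03 := by clear * - hp e03 hw; grind
  subst e
  have e : 0 = b40 := by clear * - hp e40 hw; grind
  subst e
  have e : 0 = b31 := by clear * - hp e31 hw; grind
  subst e
  have e : 0 = b22 := by clear * - hp e22 hw; grind
  subst e
  have e : b = b13 := by clear * - hp e13 hw; grind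
  subst e
  have e : 0 = b04 := by clear * - hp e04 hw; grind
  subst e
  have e : 0 = b41 := by clear * - hp e41 hw; grind
  subst e
  have e : 0 = b32 := by clear * - hp e32 hw; grind
  subst e
  have e : 0 = b23 := by clear * - hp e23 hw; grind
  subst e
  have e : c = b14 := by clear * - hp e14 hw; grind
  subst e
  have e : 0 = b42 := by clear * - hp e42 hw; grind
  subst e
  have e : 0 = b33 := by clear * - hp e33 hw; grind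
  subst e
  have e : 0 = b24 := by clear * - hp e24 hw; grind
  subst e
  have e : 0 = b43 := by clear * - hp e43 hw; grind
  subst e
  have e : 0 = b34 := by clear * - hp e34 hw; grind
  subst e
  exact r

theorem xC3c (c u : k) :
    Rel (mk 0 0 0 0 0 0 1 0 0 0 0 0 0 0 0 0 0 0 c 0 0 0 0 (c*u) 0)
      (mk 0 0 0 0 0 0 1 0 0 0 0 0 0 0 0 0 0 0 c 0 0 0 0 0 0) := by
  obtain ⟨α, β, ax, ay, bx, bY, -, hr⟩ := pair_data (mk 0 0 0 0 0 0 u 0 0 0 0 0 0 0 0 0 0 0 0 0 0 0 0 0 0)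
    (mk 0 0 0 0 0 0 0 (2*u) 0 0 0 0 0 0 0 0 0 0 0 0 0 0 0 0 0)
    (ord2_iff.mpr ⟨rfl, rfl, rfl⟩) (ord2_iff.mpr ⟨rfl, rfl, rfl⟩)
    (by rw [pd0_mk, pd1_mk, mk_add, zero_eq, mk_inj]; refine ⟨?_, ?_, ?_, ?_, ?_, ?_, ?_, ?_, ?_, ?_, ?_, ?_, ?_, ?_, ?_, ?_, ?_, ?_, ?_, ?_, ?_, ?_, ?_, ?_, ?_⟩ <;> grind)
  apply hr
  have e1 : (mk 0 0 0 0 0 0 1 0 0 0 0 0 0 0 0 0 0 0 c 0 0 0 0 (c*u) 0 : O k) =
      m 3 0 + c • m 1 4 + (c*u) • m 3 4 := by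
    simp only [m30, m14, m34, mk_smul, mk_add, mul_zero, mul_one, add_zero, zero_add]
  have e2 : (mk 0 0 0 0 0 0 1 0 0 0 0 0 0 0 0 0 0 0 c 0 0 0 0 0 0 : O k) =
      m 3 0 + c • m 1 4 := by
    simp only [m30, m14, mk_smul, mk_add, mul_zero, mul_one, add_zero, zero_add]
  have e3 : (mk 0 0 0 0 0 0 u 0 0 0 0 0 0 0 0 0 0 0 0 0 0 0 0 0 0 : O k) =
      u • m 3 0 := by
    simp only [m30, mk_smul, mk_add, mul_zero, mul_one, add_zero, zero_add]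
  have e4 : (mk 0 0 0 0 0 0 0 (2*u) 0 0 0 0 0 0 0 0 0 0 0 0 0 0 0 0 0 : O k) =
      (2*u) • m 2 1 := by
    simp only [m21, mk_smul, mk_add, mul_zero, mul_one, add_zero, zero_add]
  rw [e3] at ax
  rw [e4] at bY
  rw [e1, e2]
  simp only [hom_add, hom_smul, hom_m, ax, ay, bx, bY]
  simp only [sm, m, map_mul, map_neg, map_ofNat]
  have hx := x5 (k := k)
  have hy := y5 (k := k)
  have h5 := fiveO (k := k)
  clear * - hx hy h5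
  grind

theorem xD5 (c : k) :
    Rel (mk 0 0 0 0 0 0 0 0 0 0 1 0 0 0 0 0 0 0 1 0 0 c 0 0 0)
      (mk 0 0 0 0 0 0 0 0 0 0 1 0 0 0 0 0 0 0 1 0 0 0 0 0 0) := by
  obtain ⟨α, β, ax, ay, bx, bY, -, hr⟩ := pair_data (mk 0 0 0 (-2*c) 0 0 0 0 0 0 0 0 0 0 0 0 0 0 0 0 0 0 0 0 0)
    (mk 0 0 0 0 (-c) 0 0 0 0 0 0 0 0 0 0 0 0 0 0 0 0 0 0 0 0)
    (ord2_iff.mpr ⟨rfl, rfl, rfl⟩) (ord2_iff.mpr ⟨rfl, rfl, rfl⟩)
    (by rw [pd0_mk, pd1_mk, mk_add, zero_eq, mk_inj]; refine ⟨?_, ?_, ?_, ?_, ?_, ?_, ?_, ?_, ?_, ?_, ?_, ?_, ?_, ?_, ?_, ?_, ?_, ?_, ?_, ?_, ?_, ?_, ?_, ?_, ?_⟩ <;> grind)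
  apply hr
  have e1 : (mk 0 0 0 0 0 0 0 0 0 0 1 0 0 0 0 0 0 0 1 0 0 c 0 0 0 : O k) =
      m 4 0 + m 1 4 + c • m 2 4 := by
    simp only [m40, m14, m24, mk_smul, mk_add, mul_zero, mul_one, add_zero, zero_add]
  have e2 : (mk 0 0 0 0 0 0 0 0 0 0 1 0 0 0 0 0 0 0 1 0 0 0 0 0 0 : O k) =
      m 4 0 + m 1 4 := by
    simp only [m40, m14, mk_smul, mk_add, mul_zero, mul_one, add_zero, zero_add]
  have e3 : (mk 0 0 0 (-2*c) 0 0 0 0 0 0 0 0 0 0 0 0 0 0 0 0 0 0 0 0 0 : O k) =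
      (-2*c) • m 2 0 := by
    simp only [m20, mk_smul, mk_add, mul_zero, mul_one, add_zero, zero_add]
  have e4 : (mk 0 0 0 0 (-c) 0 0 0 0 0 0 0 0 0 0 0 0 0 0 0 0 0 0 0 0 : O k) =
      (-c) • m 1 1 := by
    simp only [m11, mk_smul, mk_add, mul_zero, mul_one, add_zero, zero_add]
  rw [e3] at ax
  rw [e4] at bY
  rw [e1, e2]
  simp only [hom_add, hom_smul, hom_m, ax, ay, bx, bY]
  simp only [sm, m, map_mul, map_neg, map_ofNat]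
  have hx := x5 (k := k)
  have hy := y5 (k := k)
  have h5 := fiveO (k := k)
  clear * - hx hy h5
  grind

end Pool.Agent.H25

/-!
Every element is related to a normal form.
-/

namespace Pool.Agent.H25

variable {k : Type*} [Field k] [hp : CharP k 5] [IsAlgClosed k]

set_option linter.unusedSimpArgs false

set_option linter.unusedSectionVars false
set_option linter.unusedTactic false
set_option linter.unusedVariables false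

theorem ex7a (a43 a34 : k) (h : a43 ≠ 0) :
    Has (mk 0 0 0 0 0 0 0 0 0 0 0 0 0 0 0 0 0 0 0 0 0 0 a43 a34 0) := by
  obtain ⟨w, hw⟩ : ∃ w, a43 * w = 1 := ⟨a43⁻¹, mul_inv_cancel₀ h⟩
  have r := ln77 w (a34*w) 0 1 (by clear * - hp hw; grind) a43 a34 1 0 (by clear * - hp hw; grind)
      (by clear * - hp hw; grind)
  exact Has.of_rel r hasG1

theorem ex7 (a43 a34 : k) :
    Has (mk 0 0 0 0 0 0 0 0 0 0 0 0 0 0 0 0 0 0 0 0 0 0 a43 a34 0) := by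
  by_cases h : a43 = 0
  · subst h
    by_cases h : a34 = 0
    · subst h
      exact hasZ
    · have r := ln77 0 1 (-1) 0 (by clear * - hp; grind) 0 a34 a34 0 (by clear * - hp; grind)
          (by clear * - hp; grind)
      exact Has.of_rel r (ex7a _ _ h)
  · exact ex7a _ _ h

theorem ex6a (a42 a33 a43 a34 : k) :
    Has (mk 0 0 0 0 0 0 0 0 0 0 0 0 0 0 0 0 0 0 0 a42 a33 0 a43 a34 0) := by
  by_cases h : a33 = 0
  · subst h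
    by_cases h : a42 = 0
    · subst h
      exact ex7 _ _
    · obtain ⟨b43, b34, r⟩ := ln66 1 0 0 a42 (by clear * - hp h; grind) a42 0 0 a43 a34 1 0 0 (by clear * - hp h; grind)
          (by clear * - hp h; grind) (by clear * - hp h; grind)
      have s := cF27 b43 b34
      exact Has.of_rel (r.trans s) hasF2
  · obtain ⟨w, hw⟩ : ∃ w, a33 * w = 1 := ⟨a33⁻¹, mul_inv_cancel₀ h⟩
    obtain ⟨b43, b34, r⟩ := ln66 1 0 (3*a42*w) 1 (by clear * - hp hw; grind) a42 a33 0 a43 a34 0 a33 0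
        (by clear * - hp hw; grind) (by clear * - hp hw; grind) (by clear * - hp hw; grind)
    have s := cF17 a33 w hw b43 b34
    exact Has.of_rel (r.trans s) (hasF1 (Units.mk0 a33 h))

theorem ex6 (a42 a33 a24 a43 a34 : k) :
    Has (mk 0 0 0 0 0 0 0 0 0 0 0 0 0 0 0 0 0 0 0 a42 a33 a24 a43 a34 0) := by
  by_cases h : a24 = 0
  · subst h
    exact ex6a ..
  · obtain ⟨t, ht⟩ := root2 a24 (3 * a33) a42 h
    obtain ⟨b43, b34, r⟩ := ln66 0 1 (-1) t (by clear * - hp ht; grind) a42 a33 a24 a43 a34 a24 (-a33 + a24*t) 0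
        (by clear * - hp ht; grind) (by clear * - hp ht; grind) (by clear * - hp ht; grind)
    exact Has.of_rel r (ex6a ..)

theorem sE (a : k) :
    Has (mk 0 0 0 0 0 0 0 0 0 0 0 0 0 0 0 1 0 0 0 0 0 a 0 0 0) := by
  by_cases h : a = 0
  · subst h
    exact hasE4
  · have r : Rel (mk 0 0 0 0 0 0 0 0 0 0 0 0 0 0 0 1 0 0 0 0 0 a 0 0 0)
        (mk 0 0 0 0 0 0 0 0 0 0 0 0 0 0 0 1 0 0 0 0 0 1 0 0 0) :=
      rel_diag (a^2) a (by clear * - hp h; grind) (by clear * - hp h; grind)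
        (by clear * - hp h; refine ⟨?_, ?_, ?_, ?_, ?_, ?_, ?_, ?_, ?_, ?_, ?_, ?_, ?_, ?_, ?_, ?_, ?_, ?_, ?_, ?_, ?_, ?_, ?_⟩ <;> grind)
    exact Has.of_rel r hasE3

theorem ex5c (a41 a32 a42 a33 a24 a43 a34 : k) :
    Has (mk 0 0 0 0 0 0 0 0 0 0 0 0 0 0 0 a41 a32 0 0 a42 a33 a24 a43 a34 0) := by
  by_cases h : a32 = 0
  · subst h
    by_cases h : a41 = 0
    · subst h
      exact ex6 ..
    · obtain ⟨w, hw⟩ : ∃ w, a41 * w = 1 := ⟨a41⁻¹, mul_inv_cancel₀ h⟩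
      obtain ⟨b42, b33, b24, b43, b34, r⟩ := ln55 w 0 0 1 (by clear * - hp hw; grind) a41 0 0 0 a42 a33 a24 a43 a34 1 0 0 0
          (by clear * - hp hw; grind) (by clear * - hp hw; grind) (by clear * - hp hw; grind)
          (by clear * - hp hw; grind)
      have s := cE36 b42 b33 b24 b43 b34
      exact Has.of_rel (r.trans s) (sE _)
  · obtain ⟨w, hw⟩ : ∃ w, a32 * w = 1 := ⟨a32⁻¹, mul_inv_cancel₀ h⟩
    obtain ⟨b42, b33, b24, b43, b34, r⟩ := ln55 1 0 (2*a41*w) a32 (by clear * - hp hw; grind) a41 a32 0 0 a42 a33 a24 a43 a34 0 1 0 0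
        (by clear * - hp hw; grind) (by clear * - hp hw; grind) (by clear * - hp hw; grind)
        (by clear * - hp hw; grind)
    have s := cE26 b42 b33 b24 b43 b34
    exact Has.of_rel (r.trans s) hasE2

theorem ex5b (a32 a23 a42 a33 a24 a43 a34 : k) (h : a23 ≠ 0) :
    Has (mk 0 0 0 0 0 0 0 0 0 0 0 0 0 0 0 0 a32 a23 0 a42 a33 a24 a43 a34 0) := by
  by_cases h2 : a32 = 0
  · subst h2
    obtain ⟨b42, b33, b24, b43, b34, r⟩ := ln55 0 1 (-1) 0 (by clear * - hp; grind) 0 0 a23 0 a42 a33 a24 a43 a34 0 (-a23) 0 0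
        (by clear * - hp; grind) (by clear * - hp; grind) (by clear * - hp; grind)
        (by clear * - hp; grind)
    exact Has.of_rel r (ex5c ..)
  · obtain ⟨b42, b33, b24, b43, b34, r⟩ := ln55 a23 0 0 a32 (by clear * - hp h h2; grind) 0 a32 a23 0 a42 a33 a24 a43 a34 0 1 1 0
        (by clear * - hp h h2; grind) (by clear * - hp h h2; grind) (by clear * - hp h h2; grind)
        (by clear * - hp h h2; grind)
    have s := cE16 b42 b33 b24 b43 b34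
    exact Has.of_rel (r.trans s) hasE1

theorem ex5a (a41 a32 a23 a42 a33 a24 a43 a34 : k) :
    Has (mk 0 0 0 0 0 0 0 0 0 0 0 0 0 0 0 a41 a32 a23 0 a42 a33 a24 a43 a34 0) := by
  by_cases h : a23 = 0
  · subst h
    exact ex5c ..
  · obtain ⟨t, ht⟩ := root2 (3 * a23) (2 * a32) a41 (by clear * - hp h; grind)
    obtain ⟨b42, b33, b24, b43, b34, r⟩ := ln55 1 0 t 1 (by clear * - hp ht; grind) a41 a32 a23 0 a42 a33 a24 a43 a34 0 (a32 - 2*a23*t) a23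
        0 (by clear * - hp ht; grind) (by clear * - hp ht; grind) (by clear * - hp ht; grind)
        (by clear * - hp ht; grind)
    exact Has.of_rel r (ex5b _ _ _ _ _ _ _ h)

theorem ex5 (a41 a32 a23 a14 a42 a33 a24 a43 a34 : k) :
    Has (mk 0 0 0 0 0 0 0 0 0 0 0 0 0 0 0 a41 a32 a23 a14 a42 a33 a24 a43 a34 0) := by
  by_cases h : a14 = 0
  · subst h
    exact ex5a ..
  · obtain ⟨t, ht⟩ := root3 (4 * a14) (3 * a23) (2 * a32) a41 (by clear * - hp h; grind)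
    obtain ⟨b42, b33, b24, b43, b34, r⟩ := ln55 0 1 (-1) t (by clear * - hp ht; grind) a41 a32 a23 a14 a42 a33 a24 a43 a34 a14
        (-a23 + a14*t) (a32 - 2*a23*t + a14*t*t) 0 (by clear * - hp ht; grind)
        (by clear * - hp ht; grind) (by clear * - hp ht; grind) (by clear * - hp ht; grind)
    exact Has.of_rel r (ex5a ..)

theorem sDa (a c : k) (h : a ≠ 0) :
    Has (mk 0 0 0 0 0 0 0 0 0 0 1 0 0 0 0 0 0 0 a 0 0 c 0 0 0) := by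
  obtain ⟨t, ht⟩ := rootn a h 5 (by norm_num)
  have r : Rel (mk 0 0 0 0 0 0 0 0 0 0 1 0 0 0 0 0 0 0 a 0 0 c 0 0 0)
      (mk 0 0 0 0 0 0 0 0 0 0 1 0 0 0 0 0 0 0 1 0 0 (t^2*c) 0 0 0) :=
    rel_diag ((a*t^4)^3) (a*t^4) (by clear * - hp ht; grind) (by clear * - hp ht; grind)
      (by clear * - hp ht; refine ⟨?_, ?_, ?_, ?_, ?_, ?_, ?_, ?_, ?_, ?_, ?_, ?_, ?_, ?_, ?_, ?_, ?_, ?_, ?_, ?_, ?_, ?_, ?_⟩ <;> grind)
  exact Has.of_rel (r.trans (xD5 _)) hasD5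

theorem sD (b a c : k) :
    Has (mk 0 0 0 0 0 0 0 0 0 0 1 0 0 0 0 0 0 b a 0 0 c 0 0 0) := by
  by_cases h : a = 0
  · subst h
    exact hasD6 ..
  · obtain ⟨w, hw⟩ : ∃ w, a * w = 1 := ⟨a⁻¹, mul_inv_cancel₀ h⟩
    obtain ⟨b42, b33, b24, b43, b34, r⟩ := ln45 1 0 (b*w) 1 (by clear * - hp hw; grind) 1 0 0 0 0 0 0 b a 0 0 c 0 0 1 0 0 0 0 (2*b*b*b*w*w)
        (-b*b*w) 0 a (by clear * - hp hw; grind) (by clear * - hp hw; grind)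
        (by clear * - hp hw; grind) (by clear * - hp hw; grind) (by clear * - hp hw; grind)
        (by clear * - hp hw; grind) (by clear * - hp hw; grind) (by clear * - hp hw; grind)
        (by clear * - hp hw; grind)
    obtain ⟨q, s⟩ := cD55 (2*b*b*b*w*w) (-b*b*w) 0 a b42 b33 b24 b43 b34
    exact Has.of_rel (r.trans s) (sDa _ _ h)

theorem exD1 (l a41 a32 a23 a14 a42 a33 a24 a43 a34 : k) :
    Has (mk 0 0 0 0 0 0 0 0 0 0 0 1 l 1 0 a41 a32 a23 a14 a42 a33 a24 a43 a34 0) := by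
  by_cases h : l ^ 2 = 3
  · obtain ⟨b41, b32, b23, b14, b42, b33, b24, b43, b34, r⟩ := ln44 1 0 (3*l) (3*l) (by clear * - hp h; grind) 0 1 l 1 0 a41 a32 a23 a14 a42 a33 a24 a43 a34 1 0
        0 1 0 (by clear * - hp h; grind) (by clear * - hp h; grind) (by clear * - hp h; grind)
        (by clear * - hp h; grind) (by clear * - hp h; grind)
    have s := cD25 b41 b32 b23 b14 b42 b33 b24 b43 b34
    exact Has.of_rel (r.trans s) (hasD2 ..)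
  · obtain ⟨w, hw⟩ : ∃ w, w * (2 * l * l - 1) = 1 :=
      ⟨(2 * l * l - 1)⁻¹, inv_mul_cancel₀ (by clear * - hp h; grind)⟩
    have s := cD15 l w hw a41 a32 a23 a14 a42 a33 a24 a43 a34
    exact Has.of_rel s (hasD1 l h)

theorem ex4e (a31 a22 a41 a32 a23 a14 a42 a33 a24 a43 a34 : k) (h : a22 ≠ 0) :
    Has (mk 0 0 0 0 0 0 0 0 0 0 0 a31 a22 0 0 a41 a32 a23 a14 a42 a33 a24 a43 a34 0) := by
  by_cases h2 : a31 = 0
  · subst h2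
    obtain ⟨b41, b32, b23, b14, b42, b33, b24, b43, b34, r⟩ := ln44 a22 0 0 1 (by clear * - hp h; grind) 0 0 a22 0 0 a41 a32 a23 a14 a42 a33 a24 a43 a34 0 0 1 0
        0 (by clear * - hp h; grind) (by clear * - hp h; grind) (by clear * - hp h; grind)
        (by clear * - hp h; grind) (by clear * - hp h; grind)
    obtain ⟨q, s⟩ := cD35 b41 b32 b23 b14 b42 b33 b24 b43 b34
    exact Has.of_rel (r.trans s) (hasD3 _)
  · obtain ⟨w, hw⟩ : ∃ w, a31 * w = 1 := ⟨a31⁻¹, mul_inv_cancel₀ h2⟩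
    obtain ⟨t, ht⟩ := IsAlgClosed.exists_pow_nat_eq a31 (show 0 < 2 by norm_num)
    obtain ⟨b41, b32, b23, b14, b42, b33, b24, b43, b34, r⟩ := ln44 (-a22*t*w) (-a22*t*w) 0 t (by clear * - hp h hw ht; grind) 0 a31 a22 0 0 a41 a32 a23 a14 a42
        a33 a24 a43 a34 0 1 2 1 0 (by clear * - hp h hw ht; grind)
        (by clear * - hp h hw ht; grind) (by clear * - hp h hw ht; grind)
        (by clear * - hp h hw ht; grind) (by clear * - hp h hw ht; grind)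
    exact Has.of_rel r (exD1 ..)

theorem ex4d (a40 a31 a22 a41 a32 a23 a14 a42 a33 a24 a43 a34 : k) :
    Has (mk 0 0 0 0 0 0 0 0 0 0 a40 a31 a22 0 0 a41 a32 a23 a14 a42 a33 a24 a43 a34 0) := by
  by_cases h : a22 = 0
  · subst h
    by_cases h : a31 = 0
    · subst h
      by_cases h : a40 = 0
      · subst h
        exact ex5 ..
      · obtain ⟨w, hw⟩ : ∃ w, a40 * w = 1 := ⟨a40⁻¹, mul_inv_cancel₀ h⟩
        obtain ⟨b41, b32, b23, b14, b42, b33, b24, b43, b34, r⟩ := ln44 w 0 0 1 (by clear * - hp hw; grind) a40 0 0 0 0 a41 a32 a23 a14 a42 a33 a24 a43 a34 1 0 0 0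
            0 (by clear * - hp hw; grind) (by clear * - hp hw; grind) (by clear * - hp hw; grind)
            (by clear * - hp hw; grind) (by clear * - hp hw; grind)
        obtain ⟨q, s⟩ := cD55 b41 b32 b23 b14 b42 b33 b24 b43 b34
        exact Has.of_rel (r.trans s) (sD ..)
    · obtain ⟨w, hw⟩ : ∃ w, a31 * w = 1 := ⟨a31⁻¹, mul_inv_cancel₀ h⟩
      obtain ⟨t, ht⟩ := IsAlgClosed.exists_pow_nat_eq a31 (show 0 < 2 by norm_num)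
      obtain ⟨b41, b32, b23, b14, b42, b33, b24, b43, b34, r⟩ := ln44 1 0 (-a40*w) t (by clear * - hp hw ht; grind) a40 a31 0 0 0 a41 a32 a23 a14 a42 a33 a24 a43
          a34 0 1 0 0 0 (by clear * - hp hw ht; grind) (by clear * - hp hw ht; grind)
          (by clear * - hp hw ht; grind) (by clear * - hp hw ht; grind)
          (by clear * - hp hw ht; grind)
      have s := cD45 b41 b32 b23 b14 b42 b33 b24 b43 b34
      exact Has.of_rel (r.trans s) (hasD4 ..)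
  · obtain ⟨t, ht⟩ := root2 a22 a31 a40 h
    obtain ⟨b41, b32, b23, b14, b42, b33, b24, b43, b34, r⟩ := ln44 1 0 t 1 (by clear * - hp ht; grind) a40 a31 a22 0 0 a41 a32 a23 a14 a42 a33 a24 a43 a34 0
        (a31 + 2*a22*t) a22 0 0 (by clear * - hp ht; grind) (by clear * - hp ht; grind)
        (by clear * - hp ht; grind) (by clear * - hp ht; grind) (by clear * - hp ht; grind)
    exact Has.of_rel r (ex4e _ _ _ _ _ _ _ _ _ _ _ h)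

theorem ex4c (a31 a22 a13 a41 a32 a23 a14 a42 a33 a24 a43 a34 : k) (h : a13 ≠ 0) :
    Has (mk 0 0 0 0 0 0 0 0 0 0 0 a31 a22 a13 0 a41 a32 a23 a14 a42 a33 a24 a43 a34 0) := by
  by_cases h2 : a31 = 0
  · subst h2
    obtain ⟨b41, b32, b23, b14, b42, b33, b24, b43, b34, r⟩ := ln44 0 1 (-1) 0 (by clear * - hp; grind) 0 0 a22 a13 0 a41 a32 a23 a14 a42 a33 a24 a43 a34 0
        (-a13) a22 0 0 (by clear * - hp; grind) (by clear * - hp; grind) (by clear * - hp; grind)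
        (by clear * - hp; grind) (by clear * - hp; grind)
    exact Has.of_rel r (ex4d ..)
  · obtain ⟨s, hs⟩ := rootn a13 h 2 (by norm_num)
    obtain ⟨t, ht⟩ := rootn a31 h2 2 (by norm_num)
    obtain ⟨b41, b32, b23, b14, b42, b33, b24, b43, b34, r⟩ := ln44 (a13*s) 0 0 (a31*t) (by clear * - hp hs ht; grind) 0 a31 a22 a13 0 a41 a32 a23 a14 a42 a33
        a24 a43 a34 0 1 (a22*s*t) 1 0 (by clear * - hp hs ht; grind)
        (by clear * - hp hs ht; grind) (by clear * - hp hs ht; grind)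
        (by clear * - hp hs ht; grind) (by clear * - hp hs ht; grind)
    exact Has.of_rel r (exD1 ..)

theorem ex4a (a40 a31 a22 a13 a41 a32 a23 a14 a42 a33 a24 a43 a34 : k) :
    Has (mk 0 0 0 0 0 0 0 0 0 0 a40 a31 a22 a13 0 a41 a32 a23 a14 a42 a33 a24 a43 a34 0) := by
  by_cases h : a13 = 0
  · subst h
    exact ex4d ..
  · obtain ⟨t, ht⟩ := root3 a13 a22 a31 a40 h
    obtain ⟨b41, b32, b23, b14, b42, b33, b24, b43, b34, r⟩ := ln44 1 0 t 1 (by clear * - hp ht; grind) a40 a31 a22 a13 0 a41 a32 a23 a14 a42 a33 a24 a43 a34 0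
        (a31 + 2*a22*t - 2*a13*t*t) (a22 - 2*a13*t) a13 0 (by clear * - hp ht; grind)
        (by clear * - hp ht; grind) (by clear * - hp ht; grind) (by clear * - hp ht; grind)
        (by clear * - hp ht; grind)
    exact Has.of_rel r (ex4c _ _ _ _ _ _ _ _ _ _ _ _ h)

theorem ex4 (a40 a31 a22 a13 a04 a41 a32 a23 a14 a42 a33 a24 a43 a34 : k) :
    Has (mk 0 0 0 0 0 0 0 0 0 0 a40 a31 a22 a13 a04 a41 a32 a23 a14 a42 a33 a24 a43 a34 0) := by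
  by_cases h : a04 = 0
  · subst h
    exact ex4a ..
  · obtain ⟨t, ht⟩ := root4 a04 a13 a22 a31 a40 h
    obtain ⟨b41, b32, b23, b14, b42, b33, b24, b43, b34, r⟩ := ln44 0 1 (-1) t (by clear * - hp ht; grind) a40 a31 a22 a13 a04 a41 a32 a23 a14 a42 a33 a24 a43
        a34 a04 (-a13 + a04*t) (a22 - 2*a13*t + a04*t*t) (-a31 - 2*a22*t + 2*a13*t*t + a04*t*t*t)
        0 (by clear * - hp ht; grind) (by clear * - hp ht; grind) (by clear * - hp ht; grind)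
        (by clear * - hp ht; grind) (by clear * - hp ht; grind)
    exact Has.of_rel r (ex4a ..)

theorem sCa (a c d : k) (h : a ≠ 0) :
    Has (mk 0 0 0 0 0 0 1 0 0 0 0 0 0 0 a 0 0 0 c 0 0 0 0 d 0) := by
  obtain ⟨w, hw⟩ : ∃ w, a * w = 1 := ⟨a⁻¹, mul_inv_cancel₀ h⟩
  obtain ⟨t, ht⟩ := rootn a h 3 (by norm_num)
  have r : Rel (mk 0 0 0 0 0 0 1 0 0 0 0 0 0 0 a 0 0 0 c 0 0 0 0 0 0)
      (mk 0 0 0 0 0 0 1 0 0 0 0 0 0 0 1 0 0 0 (t^2*c) 0 0 0 0 0 0) :=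
    rel_diag (a*t^2) 1 (by clear * - hp ht; grind) (by clear * - hp ht; grind)
      (by clear * - hp ht; refine ⟨?_, ?_, ?_, ?_, ?_, ?_, ?_, ?_, ?_, ?_, ?_, ?_, ?_, ?_, ?_, ?_, ?_, ?_, ?_, ?_, ?_, ?_, ?_⟩ <;> grind)
  exact Has.of_rel ((xC3a a c d w hw).trans r) (hasC3 _)

theorem sC (b a c d : k) :
    Has (mk 0 0 0 0 0 0 1 0 0 0 0 0 0 b a 0 0 0 c 0 0 0 0 d 0) := by
  by_cases h : a = 0
  · subst h
    by_cases h : b = 0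
    · subst h
      by_cases h : c = 0
      · subst h
        exact hasC6 _
      · obtain ⟨t, ht⟩ := rootn c h 2 (by norm_num)
        obtain ⟨u, rfl⟩ : ∃ u, d = c * u := ⟨c⁻¹ * d, by rw [mul_inv_cancel_left₀ h]⟩
        have r : Rel (mk 0 0 0 0 0 0 1 0 0 0 0 0 0 0 0 0 0 0 c 0 0 0 0 0 0)
            (mk 0 0 0 0 0 0 1 0 0 0 0 0 0 0 0 0 0 0 1 0 0 0 0 0 0) :=
          rel_diag (c*t) 1 (by clear * - hp ht; grind) (by clear * - hp ht; grind)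
            (by clear * - hp ht; refine ⟨?_, ?_, ?_, ?_, ?_, ?_, ?_, ?_, ?_, ?_, ?_, ?_, ?_, ?_, ?_, ?_, ?_, ?_, ?_, ?_, ?_, ?_, ?_⟩ <;> grind)
        exact Has.of_rel ((xC3c c u).trans r) hasC5
    · obtain ⟨w, hw⟩ : ∃ w, b * w = 1 := ⟨b⁻¹, mul_inv_cancel₀ h⟩
      obtain ⟨t, ht⟩ := rootn b h 2 (by norm_num)
      have r : Rel (mk 0 0 0 0 0 0 1 0 0 0 0 0 0 b 0 0 0 0 c 0 0 0 0 0 0)
          (mk 0 0 0 0 0 0 1 0 0 0 0 0 0 1 0 0 0 0 (t^2*c) 0 0 0 0 0 0) :=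
        rel_diag (b*t) 1 (by clear * - hp ht; grind) (by clear * - hp ht; grind)
          (by clear * - hp ht; refine ⟨?_, ?_, ?_, ?_, ?_, ?_, ?_, ?_, ?_, ?_, ?_, ?_, ?_, ?_, ?_, ?_, ?_, ?_, ?_, ?_, ?_, ?_, ?_⟩ <;> grind)
      exact Has.of_rel ((xC3b b c d w hw).trans r) (hasC4 _)
  · obtain ⟨w, hw⟩ : ∃ w, a * w = 1 := ⟨a⁻¹, mul_inv_cancel₀ h⟩
    obtain ⟨b41, b32, b23, b14, b42, b33, b24, b43, b34, r⟩ := ln34 1 0 (b*w) 1 (by clear * - hp hw; grind) 1 0 0 0 0 0 0 b a 0 0 0 c 0 0 0 0 d 1 0 0 0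
        (2*b^(4:ℕ)*w*w*w) (2*b*b*b*w*w) (-b*b*w) 0 a (by clear * - hp hw; grind)
        (by clear * - hp hw; grind) (by clear * - hp hw; grind) (by clear * - hp hw; grind)
        (by clear * - hp hw; grind) (by clear * - hp hw; grind) (by clear * - hp hw; grind)
        (by clear * - hp hw; grind) (by clear * - hp hw; grind)
    obtain ⟨q1, q2, s⟩ := cC34 (2*b^(4:ℕ)*w*w*w) (2*b*b*b*w*w) (-b*b*w) 0 a b41 b32 b23 b14 b42 b33 b24 b43 b34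
    exact Has.of_rel (r.trans s) (sCa _ _ _ h)

theorem ex3c (a30 a21 a40 a31 a22 a13 a04 a41 a32 a23 a14 a42 a33 a24 a43 a34 : k) :
    Has (mk 0 0 0 0 0 0 a30 a21 0 0 a40 a31 a22 a13 a04 a41 a32 a23 a14 a42 a33 a24 a43 a34 0) := by
  by_cases h : a21 = 0
  · subst h
    by_cases h : a30 = 0
    · subst h
      exact ex4 ..
    · obtain ⟨t, ht⟩ := IsAlgClosed.exists_pow_nat_eq a30 (show 0 < 3 by norm_num)
      obtain ⟨b40, b31, b22, b13, b04, b41, b32, b23, b14, b42, b33, b24, b43, b34, r⟩ := ln33 1 0 0 t (by clear * - hp h ht; grind) a30 0 0 0 a40 a31 a22 a13 a04 a41 a32 a23 a14 a42 a33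
          a24 a43 a34 1 0 0 0 (by clear * - hp h ht; grind) (by clear * - hp h ht; grind)
          (by clear * - hp h ht; grind) (by clear * - hp h ht; grind)
      obtain ⟨q1, q2, s⟩ := cC34 b40 b31 b22 b13 b04 b41 b32 b23 b14 b42 b33 b24 b43 b34
      exact Has.of_rel (r.trans s) (sC ..)
  · obtain ⟨b40, b31, b22, b13, b04, b41, b32, b23, b14, b42, b33, b24, b43, b34, r⟩ := ln33 a21 0 (-a30) 1 (by clear * - hp h; grind) a30 a21 0 0 a40 a31 a22 a13 a04 a41 a32 a23 a14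
        a42 a33 a24 a43 a34 0 1 0 0 (by clear * - hp h; grind) (by clear * - hp h; grind)
        (by clear * - hp h; grind) (by clear * - hp h; grind)
    obtain ⟨q, s⟩ := cC24 b40 b31 b22 b13 b04 b41 b32 b23 b14 b42 b33 b24 b43 b34
    exact Has.of_rel (r.trans s) (hasC2 ..)

theorem ex3b (a21 a12 a40 a31 a22 a13 a04 a41 a32 a23 a14 a42 a33 a24 a43 a34 : k) (h : a12 ≠ 0) :
    Has (mk 0 0 0 0 0 0 0 a21 a12 0 a40 a31 a22 a13 a04 a41 a32 a23 a14 a42 a33 a24 a43 a34 0) := by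
  by_cases h2 : a21 = 0
  · subst h2
    obtain ⟨b40, b31, b22, b13, b04, b41, b32, b23, b14, b42, b33, b24, b43, b34, r⟩ := ln33 0 1 (-1) 0 (by clear * - hp; grind) 0 0 a12 0 a40 a31 a22 a13 a04 a41 a32 a23 a14 a42 a33
        a24 a43 a34 0 a12 0 0 (by clear * - hp; grind) (by clear * - hp; grind)
        (by clear * - hp; grind) (by clear * - hp; grind)
    exact Has.of_rel r (ex3c ..)
  · obtain ⟨o, ho⟩ := root2 (1 : k) 1 1 one_ne_zero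
    obtain ⟨t, ht⟩ := rootn (a21 * a12 * (2 * (1 + 2 * o)))
      (mul_ne_zero (mul_ne_zero h2 h) (by clear * - hp ho; grind)) 3 (by norm_num)
    obtain ⟨b40, b31, b22, b13, b04, b41, b32, b23, b14, b42, b33, b24, b43, b34, r⟩ := ln33 (t*a12) (t*a12) (t*a21*o) (t*a21*o^2) (by clear * - hp ho ht; grind) 0 a21 a12 0 a40 a31 a22
        a13 a04 a41 a32 a23 a14 a42 a33 a24 a43 a34 1 0 0 1 (by clear * - hp ho ht; grind)
        (by clear * - hp ho ht; grind) (by clear * - hp ho ht; grind)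
        (by clear * - hp ho ht; grind)
    obtain ⟨q, s⟩ := cC14 b40 b31 b22 b13 b04 b41 b32 b23 b14 b42 b33 b24 b43 b34
    exact Has.of_rel (r.trans s) (hasC1 ..)

theorem ex3a (a30 a21 a12 a40 a31 a22 a13 a04 a41 a32 a23 a14 a42 a33 a24 a43 a34 : k) :
    Has (mk 0 0 0 0 0 0 a30 a21 a12 0 a40 a31 a22 a13 a04 a41 a32 a23 a14 a42 a33 a24 a43 a34 0) := by
  by_cases h : a12 = 0
  · subst h
    exact ex3c ..
  · obtain ⟨t, ht⟩ := root2 a12 a21 a30 h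
    obtain ⟨b40, b31, b22, b13, b04, b41, b32, b23, b14, b42, b33, b24, b43, b34, r⟩ := ln33 1 0 t 1 (by clear * - hp ht; grind) a30 a21 a12 0 a40 a31 a22 a13 a04 a41 a32 a23 a14 a42
        a33 a24 a43 a34 0 (a21 + 2*a12*t) a12 0 (by clear * - hp ht; grind)
        (by clear * - hp ht; grind) (by clear * - hp ht; grind) (by clear * - hp ht; grind)
    exact Has.of_rel r (ex3b _ _ _ _ _ _ _ _ _ _ _ _ _ _ _ _ h)

theorem ex3 (a30 a21 a12 a03 a40 a31 a22 a13 a04 a41 a32 a23 a14 a42 a33 a24 a43 a34 : k) :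
    Has (mk 0 0 0 0 0 0 a30 a21 a12 a03 a40 a31 a22 a13 a04 a41 a32 a23 a14 a42 a33 a24 a43 a34 0) := by
  by_cases h : a03 = 0
  · subst h
    exact ex3a ..
  · obtain ⟨t, ht⟩ := root3 a03 a12 a21 a30 h
    obtain ⟨b40, b31, b22, b13, b04, b41, b32, b23, b14, b42, b33, b24, b43, b34, r⟩ := ln33 0 1 (-1) t (by clear * - hp ht; grind) a30 a21 a12 a03 a40 a31 a22 a13 a04 a41 a32 a23 a14
        a42 a33 a24 a43 a34 (-a03) (a12 - 2*a03*t) (-a21 - 2*a12*t + 2*a03*t*t) 0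
        (by clear * - hp ht; grind) (by clear * - hp ht; grind) (by clear * - hp ht; grind)
        (by clear * - hp ht; grind)
    exact Has.of_rel r (ex3a ..)

theorem sB (a b c d : k) :
    Has (mk 0 0 0 1 0 0 0 0 0 a 0 0 0 0 b 0 0 0 0 0 0 c 0 d 0) := by
  by_cases h : a = 0
  · subst h
    by_cases h : b = 0
    · subst h
      by_cases h : d = 0
      · subst h
        exact hasB2 ..
      · obtain ⟨w, hw⟩ : ∃ w, d * w = 1 := ⟨d⁻¹, mul_inv_cancel₀ h⟩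
        have r : Rel (mk 0 0 0 1 0 0 0 0 0 0 0 0 0 0 0 0 0 0 0 0 0 c 0 d 0)
            (mk 0 0 0 1 0 0 0 0 0 0 0 0 0 0 0 0 0 0 0 0 0 (w^4*c) 0 1 0) :=
          rel_diag (d^3) w (by clear * - hp hw; grind) (by clear * - hp hw; grind)
            (by clear * - hp hw; refine ⟨?_, ?_, ?_, ?_, ?_, ?_, ?_, ?_, ?_, ?_, ?_, ?_, ?_, ?_, ?_, ?_, ?_, ?_, ?_, ?_, ?_, ?_, ?_⟩ <;> grind)
        exact Has.of_rel r (hasB3 _)
    · obtain ⟨w, hw⟩ : ∃ w, b * w = 1 := ⟨b⁻¹, mul_inv_cancel₀ h⟩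
      exact Has.of_rel (xB2b b c d w hw) (hasB2 ..)
  · obtain ⟨w, hw⟩ : ∃ w, a * w = 1 := ⟨a⁻¹, mul_inv_cancel₀ h⟩
    exact Has.of_rel (xB2a a b c d w hw) (hasB2 ..)

theorem ex2a (a20 a11 a30 a21 a12 a03 a40 a31 a22 a13 a04 a41 a32 a23 a14 a42 a33 a24 a43 a34 : k) :
    Has (mk 0 0 0 a20 a11 0 a30 a21 a12 a03 a40 a31 a22 a13 a04 a41 a32 a23 a14 a42 a33 a24 a43 a34 0) := by
  by_cases h : a11 = 0
  · subst h
    by_cases h : a20 = 0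
    · subst h
      exact ex3 ..
    · obtain ⟨b30, b21, b12, b03, b40, b31, b22, b13, b04, b41, b32, b23, b14, b42, b33, b24, b43, b34, r⟩ := ln22 a20 0 0 1 (by clear * - hp h; grind) a20 0 0 a30 a21 a12 a03 a40 a31 a22 a13 a04 a41 a32 a23
          a14 a42 a33 a24 a43 a34 1 0 0 (by clear * - hp h; grind) (by clear * - hp h; grind)
          (by clear * - hp h; grind)
      obtain ⟨q1, q2, q3, s⟩ := cB23 b30 b21 b12 b03 b40 b31 b22 b13 b04 b41 b32 b23 b14 b42 b33 b24 b43 b34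
      exact Has.of_rel (r.trans s) (sB ..)
  · obtain ⟨w, hw⟩ : ∃ w, a11 * w = 1 := ⟨a11⁻¹, mul_inv_cancel₀ h⟩
    obtain ⟨t, ht⟩ := IsAlgClosed.exists_pow_nat_eq a11 (show 0 < 2 by norm_num)
    obtain ⟨b30, b21, b12, b03, b40, b31, b22, b13, b04, b41, b32, b23, b14, b42, b33, b24, b43, b34, r⟩ := ln22 1 0 (-a20*w) t (by clear * - hp hw ht; grind) a20 a11 0 a30 a21 a12 a03 a40 a31 a22 a13 a04
        a41 a32 a23 a14 a42 a33 a24 a43 a34 0 1 0 (by clear * - hp hw ht; grind)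
        (by clear * - hp hw ht; grind) (by clear * - hp hw ht; grind)
    obtain ⟨q1, q2, s⟩ := cB13 b30 b21 b12 b03 b40 b31 b22 b13 b04 b41 b32 b23 b14 b42 b33 b24 b43 b34
    exact Has.of_rel (r.trans s) (hasB1 ..)

theorem ex2 (a20 a11 a02 a30 a21 a12 a03 a40 a31 a22 a13 a04 a41 a32 a23 a14 a42 a33 a24 a43 a34 : k) :
    Has (mk 0 0 0 a20 a11 a02 a30 a21 a12 a03 a40 a31 a22 a13 a04 a41 a32 a23 a14 a42 a33 a24 a43 a34 0) := by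
  by_cases h : a02 = 0
  · subst h
    exact ex2a ..
  · obtain ⟨t, ht⟩ := root2 a02 a11 a20 h
    obtain ⟨b30, b21, b12, b03, b40, b31, b22, b13, b04, b41, b32, b23, b14, b42, b33, b24, b43, b34, r⟩ := ln22 0 1 (-1) t (by clear * - hp ht; grind) a20 a11 a02 a30 a21 a12 a03 a40 a31 a22 a13 a04 a41
        a32 a23 a14 a42 a33 a24 a43 a34 a02 (-a11 - 2*a02*t) 0 (by clear * - hp ht; grind)
        (by clear * - hp ht; grind) (by clear * - hp ht; grind)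
    exact Has.of_rel r (ex2a ..)

theorem ex1a (a10 a01 a20 a11 a02 a30 a21 a12 a03 a40 a31 a22 a13 a04 a41 a32 a23 a14 a42 a33 a24 a43 a34 : k) (h : a10 ≠ 0) :
    Has (mk 0 a10 a01 a20 a11 a02 a30 a21 a12 a03 a40 a31 a22 a13 a04 a41 a32 a23 a14 a42 a33 a24 a43 a34
      0) := by
  obtain ⟨w, hw⟩ : ∃ w, a10 * w = 1 := ⟨a10⁻¹, mul_inv_cancel₀ h⟩
  obtain ⟨b20, b11, b02, b30, b21, b12, b03, b40, b31, b22, b13, b04, b41, b32, b23, b14, b42, b33, b24, b43, b34, r⟩ := ln11 (a10^2) (-a01*w^2) 0 w (by clear * - hp hw; grind) a10 a01 a20 a11 a02 a30 a21 a12 a03 a40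
      a31 a22 a13 a04 a41 a32 a23 a14 a42 a33 a24 a43 a34 1 0 (by clear * - hp hw; grind)
      (by clear * - hp hw; grind)
  obtain ⟨q1, q2, q3, s⟩ := cA2 b20 b11 b02 b30 b21 b12 b03 b40 b31 b22 b13 b04 b41 b32 b23 b14 b42 b33 b24 b43 b34
  exact Has.of_rel (r.trans s) (hasA ..)

theorem ex1 (a10 a01 a20 a11 a02 a30 a21 a12 a03 a40 a31 a22 a13 a04 a41 a32 a23 a14 a42 a33 a24 a43 a34 : k) :
    Has (mk 0 a10 a01 a20 a11 a02 a30 a21 a12 a03 a40 a31 a22 a13 a04 a41 a32 a23 a14 a42 a33 a24 a43 a34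
      0) := by
  by_cases h : a10 = 0
  · subst h
    by_cases h : a01 = 0
    · subst h
      exact ex2 ..
    · obtain ⟨b20, b11, b02, b30, b21, b12, b03, b40, b31, b22, b13, b04, b41, b32, b23, b14, b42, b33, b24, b43, b34, r⟩ := ln11 0 1 (-1) 0 (by clear * - hp; grind) 0 a01 a20 a11 a02 a30 a21 a12 a03 a40 a31 a22 a13 a04
          a41 a32 a23 a14 a42 a33 a24 a43 a34 (-a01) 0 (by clear * - hp; grind)
          (by clear * - hp; grind)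
      exact Has.of_rel r (ex1a _ _ _ _ _ _ _ _ _ _ _ _ _ _ _ _ _ _ _ _ _ _ _ (neg_ne_zero.mpr h))
  · exact ex1a _ _ _ _ _ _ _ _ _ _ _ _ _ _ _ _ _ _ _ _ _ _ _ h

end Pool.Agent.H25

/-!
Invariants of leading forms, and the converse moves.
-/

namespace Pool.Agent.H25

variable {k : Type*} [Field k] [hp : CharP k 5]

set_option linter.unusedSimpArgs false

set_option linter.unusedSectionVars false
set_option linter.unusedTactic false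
set_option linter.unusedVariables false

theorem inv2 {a20 a11 a02 a30 a21 a12 a03 a40 a31 a22 a13 a04 a41 a32 a23 a14 a42 a33 a24 a43 a34 : k}
    {b20 b11 b02 b30 b21 b12 b03 b40 b31 b22 b13 b04 b41 b32 b23 b14 b42 b33 b24 b43 b34 : k}
    (h : Rel (mk 0 0 0 a20 a11 a02 a30 a21 a12 a03 a40 a31 a22 a13 a04 a41 a32 a23 a14 a42 a33 a24 a43 a34 0)
      (mk 0 0 0 b20 b11 b02 b30 b21 b12 b03 b40 b31 b22 b13 b04 b41 b32 b23 b14 b42 b33 b24 b43 b34 0)) :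
    ∃ c : k, c ≠ 0 ∧ c ^ 4 * (b11 ^ 2 - 4 * b20 * b02) =
      a11 ^ 2 - 4 * a20 * a02 := by
  obtain ⟨u10, u01, v10, v01, hc, h20, h11, h02⟩ := lin_eqs2 h
  refine ⟨_, hc, mul_left_cancel₀ (pow_ne_zero 2 hc) ?_⟩
  have e : ((u10 * v01 - u01 * v10) ^ 3 * b11) ^ 2 - 4 * ((u10 * v01 - u01 * v10) ^ 3 * b20) * ((u10 * v01 -
      u01 * v10) ^ 3 * b02) =
      (u10 * v01 - u01 * v10) ^ 2 * (a11 ^ 2 - 4 * a20 * a02) := by
    rw [h20, h11, h02]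
    ring
  linear_combination e

theorem inv3 {a30 a21 a12 a03 a40 a31 a22 a13 a04 a41 a32 a23 a14 a42 a33 a24 a43 a34 : k}
    {b30 b21 b12 b03 b40 b31 b22 b13 b04 b41 b32 b23 b14 b42 b33 b24 b43 b34 : k}
    (h : Rel (mk 0 0 0 0 0 0 a30 a21 a12 a03 a40 a31 a22 a13 a04 a41 a32 a23 a14 a42 a33 a24 a43 a34 0)
      (mk 0 0 0 0 0 0 b30 b21 b12 b03 b40 b31 b22 b13 b04 b41 b32 b23 b14 b42 b33 b24 b43 b34 0)) :
    ∃ c : k, c ≠ 0 ∧ c ^ 6 * (b21 ^ 2 * b12 ^ 2 - 4 * b30 * b12 ^ 3 - 4 * b21 ^ 3 * b03 - 27 * b30 ^ 2 * b03 ^ 2 + 18 * b30 * b21 * b12 * b03) =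
      a21 ^ 2 * a12 ^ 2 - 4 * a30 * a12 ^ 3 - 4 * a21 ^ 3 * a03 - 27 * a30 ^ 2 * a03 ^ 2 + 18 * a30 * a21 * a12 * a03 := by
  obtain ⟨u10, u01, v10, v01, hc, h30, h21, h12, h03⟩ := lin_eqs3 h
  refine ⟨_, hc, mul_left_cancel₀ (pow_ne_zero 6 hc) ?_⟩
  have e : ((u10 * v01 - u01 * v10) ^ 3 * b21) ^ 2 * ((u10 * v01 - u01 * v10) ^ 3 * b12) ^ 2 - 4 * ((u10 *
      v01 - u01 * v10) ^ 3 * b30) * ((u10 * v01 - u01 * v10) ^ 3 * b12) ^ 3 - 4 * ((u10 * v01 -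
      u01 * v10) ^ 3 * b21) ^ 3 * ((u10 * v01 - u01 * v10) ^ 3 * b03) - 27 * ((u10 * v01 - u01 *
      v10) ^ 3 * b30) ^ 2 * ((u10 * v01 - u01 * v10) ^ 3 * b03) ^ 2 + 18 * ((u10 * v01 - u01 *
      v10) ^ 3 * b30) * ((u10 * v01 - u01 * v10) ^ 3 * b21) * ((u10 * v01 - u01 * v10) ^ 3 * b12)
      * ((u10 * v01 - u01 * v10) ^ 3 * b03) =
      (u10 * v01 - u01 * v10) ^ 6 * (a21 ^ 2 * a12 ^ 2 - 4 * a30 * a12 ^ 3 - 4 * a21 ^ 3 * a03 - 27 * a30 ^ 2 * a03 ^ 2 + 18 * a30 * a21 * a12 * a03) := by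
    rw [h30, h21, h12, h03]
    ring
  linear_combination e

theorem inv4 {a40 a31 a22 a13 a04 a41 a32 a23 a14 a42 a33 a24 a43 a34 : k}
    {b40 b31 b22 b13 b04 b41 b32 b23 b14 b42 b33 b24 b43 b34 : k}
    (h : Rel (mk 0 0 0 0 0 0 0 0 0 0 a40 a31 a22 a13 a04 a41 a32 a23 a14 a42 a33 a24 a43 a34 0)
      (mk 0 0 0 0 0 0 0 0 0 0 b40 b31 b22 b13 b04 b41 b32 b23 b14 b42 b33 b24 b43 b34 0)) :
    ∃ c : k, c ≠ 0 ∧ c ^ 2 * (12 * b40 * b04 - 3 * b31 * b13 + b22 ^ 2) =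
      12 * a40 * a04 - 3 * a31 * a13 + a22 ^ 2 ∧
      c ^ 3 * (72 * b40 * b22 * b04 + 9 * b31 * b22 * b13 - 27 * b40 * b13 ^ 2 - 27 * b04 * b31 ^ 2 - 2 * b22 ^ 3) =
      72 * a40 * a22 * a04 + 9 * a31 * a22 * a13 - 27 * a40 * a13 ^ 2 - 27 * a04 * a31 ^ 2 - 2 * a22 ^ 3 := by
  obtain ⟨u10, u01, v10, v01, hc, h40, h31, h22, h13, h04⟩ := lin_eqs4 h
  refine ⟨_, hc, mul_left_cancel₀ (pow_ne_zero 4 hc) ?_, mul_left_cancel₀ (pow_ne_zero 6 hc) ?_⟩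
  · have e : 12 * ((u10 * v01 - u01 * v10) ^ 3 * b40) * ((u10 * v01 - u01 * v10) ^ 3 * b04) - 3 * ((u10 * v01
        - u01 * v10) ^ 3 * b31) * ((u10 * v01 - u01 * v10) ^ 3 * b13) + ((u10 * v01 - u01 * v10)
        ^ 3 * b22) ^ 2 =
        (u10 * v01 - u01 * v10) ^ 4 * (12 * a40 * a04 - 3 * a31 * a13 + a22 ^ 2) := by
      rw [h40, h31, h22, h13, h04]
      ring
    linear_combination e
  · have e : 72 * ((u10 * v01 - u01 * v10) ^ 3 * b40) * ((u10 * v01 - u01 * v10) ^ 3 * b22) * ((u10 * v01 -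
        u01 * v10) ^ 3 * b04) + 9 * ((u10 * v01 - u01 * v10) ^ 3 * b31) * ((u10 * v01 - u01 *
        v10) ^ 3 * b22) * ((u10 * v01 - u01 * v10) ^ 3 * b13) - 27 * ((u10 * v01 - u01 * v10) ^ 3
        * b40) * ((u10 * v01 - u01 * v10) ^ 3 * b13) ^ 2 - 27 * ((u10 * v01 - u01 * v10) ^ 3 *
        b04) * ((u10 * v01 - u01 * v10) ^ 3 * b31) ^ 2 - 2 * ((u10 * v01 - u01 * v10) ^ 3 * b22)
        ^ 3 =
        (u10 * v01 - u01 * v10) ^ 6 * (72 * a40 * a22 * a04 + 9 * a31 * a22 * a13 - 27 * a40 * a13 ^ 2 - 27 * a04 * a31 ^ 2 - 2 * a22 ^ 3) := by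
      rw [h40, h31, h22, h13, h04]
      ring
    linear_combination e

theorem inv5 {a41 a32 a23 a14 a42 a33 a24 a43 a34 : k}
    {b41 b32 b23 b14 b42 b33 b24 b43 b34 : k}
    (h : Rel (mk 0 0 0 0 0 0 0 0 0 0 0 0 0 0 0 a41 a32 a23 a14 a42 a33 a24 a43 a34 0)
      (mk 0 0 0 0 0 0 0 0 0 0 0 0 0 0 0 b41 b32 b23 b14 b42 b33 b24 b43 b34 0)) :
    ∃ c : k, c ≠ 0 ∧ c ^ 2 * ((3 * b23) ^ 2 * (2 * b32) ^ 2 - 4 * (4 * b14) * (2 * b32) ^ 3 - 4 * (3 * b23) ^ 3 * b41 - 27 * (4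
      * b14) ^ 2 * b41 ^ 2 + 18 * (4 * b14) * (3 * b23) * (2 * b32) * b41) =
      (3 * a23) ^ 2 * (2 * a32) ^ 2 - 4 * (4 * a14) * (2 * a32) ^ 3 - 4 * (3 * a23) ^ 3 * a41 - 27 * (4
      * a14) ^ 2 * a41 ^ 2 + 18 * (4 * a14) * (3 * a23) * (2 * a32) * a41 := by
  obtain ⟨u10, u01, v10, v01, hc, h41, h32, h23, h14⟩ := lin_eqs5 h
  have g14 : (u10 * v01 - u01 * v10) ^ 2 * (4 * b14) =
      a41*u01*u01*u01 + (2 * a32)*u01*u01*v01 + (3 * a23)*u01*v01*v01 + (4 * a14)*v01*v01*v01 :=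
    mul_left_cancel₀ hc (by clear * - hp h14; grind)
  have g23 : (u10 * v01 - u01 * v10) ^ 2 * (3 * b23) =
      3*a41*u01*u01*u10 + 2*(2 * a32)*u01*u10*v01 + (2 * a32)*u01*u01*v10 + 2*(3 * a23)*u01*v01*v10 +
      (3 * a23)*u10*v01*v01 + 3*(4 * a14)*v01*v01*v10 :=
    mul_left_cancel₀ hc (by clear * - hp h23; grind)
  have g32 : (u10 * v01 - u01 * v10) ^ 2 * (2 * b32) =
      3*a41*u01*u10*u10 + 2*(2 * a32)*u01*u10*v10 + (2 * a32)*u10*u10*v01 + (3 * a23)*u01*v10*v10 +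
      2*(3 * a23)*u10*v01*v10 + 3*(4 * a14)*v01*v10*v10 :=
    mul_left_cancel₀ hc (by clear * - hp h32; grind)
  have g41 : (u10 * v01 - u01 * v10) ^ 2 * b41 =
      a41*u10*u10*u10 + (2 * a32)*u10*u10*v10 + (3 * a23)*u10*v10*v10 + (4 * a14)*v10*v10*v10 :=
    mul_left_cancel₀ hc (by clear * - hp h41; grind)
  refine ⟨_, hc, mul_left_cancel₀ (pow_ne_zero 6 hc) ?_⟩
  have e : ((u10 * v01 - u01 * v10) ^ 2 * (3 * b23)) ^ 2 * ((u10 * v01 - u01 * v10) ^ 2 * (2 * b32)) ^ 2 - 4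
      * ((u10 * v01 - u01 * v10) ^ 2 * (4 * b14)) * ((u10 * v01 - u01 * v10) ^ 2 * (2 * b32)) ^ 3
      - 4 * ((u10 * v01 - u01 * v10) ^ 2 * (3 * b23)) ^ 3 * ((u10 * v01 - u01 * v10) ^ 2 * b41) -
      27 * ((u10 * v01 - u01 * v10) ^ 2 * (4 * b14)) ^ 2 * ((u10 * v01 - u01 * v10) ^ 2 * b41) ^
      2 + 18 * ((u10 * v01 - u01 * v10) ^ 2 * (4 * b14)) * ((u10 * v01 - u01 * v10) ^ 2 * (3 *
      b23)) * ((u10 * v01 - u01 * v10) ^ 2 * (2 * b32)) * ((u10 * v01 - u01 * v10) ^ 2 * b41) =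
      (u10 * v01 - u01 * v10) ^ 6 * ((3 * a23) ^ 2 * (2 * a32) ^ 2 - 4 * (4 * a14) * (2 * a32) ^ 3 - 4 * (3 * a23) ^ 3 * a41 - 27 * (4
      * a14) ^ 2 * a41 ^ 2 + 18 * (4 * a14) * (3 * a23) * (2 * a32) * a41) := by
    rw [g41, g32, g23, g14]
    ring
  linear_combination e

theorem inv6 {a42 a33 a24 a43 a34 : k}
    {b42 b33 b24 b43 b34 : k}
    (h : Rel (mk 0 0 0 0 0 0 0 0 0 0 0 0 0 0 0 0 0 0 0 a42 a33 a24 a43 a34 0)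
      (mk 0 0 0 0 0 0 0 0 0 0 0 0 0 0 0 0 0 0 0 b42 b33 b24 b43 b34 0)) :
    ∃ c : k, c ≠ 0 ∧ c ^ 0 * (b33 ^ 2 - b42 * b24) =
      a33 ^ 2 - a42 * a24 := by
  obtain ⟨u10, u01, v10, v01, hc, h42, h33, h24⟩ := lin_eqs6 h
  refine ⟨_, hc, mul_left_cancel₀ (pow_ne_zero 6 hc) ?_⟩
  have e : ((u10 * v01 - u01 * v10) ^ 3 * b33) ^ 2 - ((u10 * v01 - u01 * v10) ^ 3 * b42) * ((u10 * v01 - u01
      * v10) ^ 3 * b24) =
      (u10 * v01 - u01 * v10) ^ 6 * (a33 ^ 2 - a42 * a24) := by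
    rw [h42, h33, h24]
    clear * - hp; grind
  linear_combination e

theorem sepC {a40 a31 a22 a13 a04 a41 a32 a23 a14 a42 a33 a24 a43 a34 : k}
    {b40 b31 b22 b13 b04 b41 b32 b23 b14 b42 b33 b24 b43 b34 : k}
    (h : Rel (mk 0 0 0 0 0 0 1 0 0 0 a40 a31 a22 a13 a04 a41 a32 a23 a14 a42 a33 a24 a43 a34 0)
      (mk 0 0 0 0 0 0 0 1 0 0 b40 b31 b22 b13 b04 b41 b32 b23 b14 b42 b33 b24 b43 b34 0)) :
    False := by
  obtain ⟨u10, u01, v10, v01, hc, h30, h21, h12, h03⟩ := lin_eqs3 h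
  have e : u10 = 0 := pow_eq_zero_iff (n := 3) (by norm_num) |>.mp (by linear_combination -h30)
  subst e
  exact pow_ne_zero 3 hc (by linear_combination h21)

theorem sepD3 {a41 a32 a23 a14 a42 a33 a24 a43 a34 : k}
    {b40 b31 b22 b41 b32 b23 b14 b42 b33 b24 b43 b34 : k}
    (h : Rel (mk 0 0 0 0 0 0 0 0 0 0 0 0 1 0 0 a41 a32 a23 a14 a42 a33 a24 a43 a34 0)
      (mk 0 0 0 0 0 0 0 0 0 0 b40 b31 b22 1 0 b41 b32 b23 b14 b42 b33 b24 b43 b34 0)) :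
    False := by
  obtain ⟨u10, u01, v10, v01, hc, h40, h31, h22, h13, h04⟩ := lin_eqs4 h
  have e : u01 * v01 = 0 := pow_eq_zero_iff (n := 2) (by norm_num) |>.mp (by linear_combination -h04)
  exact pow_ne_zero 3 hc (by linear_combination h13 + 2 * (u01 * v10 + u10 * v01) * e)

theorem sepD5 {a41 a32 a23 a14 a42 a33 a24 a43 a34 : k}
    {b41 b32 b23 b14 b42 b33 b24 b43 b34 : k}
    (h : Rel (mk 0 0 0 0 0 0 0 0 0 0 1 0 0 0 0 a41 a32 a23 a14 a42 a33 a24 a43 a34 0)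
      (mk 0 0 0 0 0 0 0 0 0 0 0 1 0 0 0 b41 b32 b23 b14 b42 b33 b24 b43 b34 0)) :
    False := by
  obtain ⟨u10, u01, v10, v01, hc, h40, h31, h22, h13, h04⟩ := lin_eqs4 h
  have e : u10 = 0 := pow_eq_zero_iff (n := 4) (by norm_num) |>.mp (by linear_combination -h40)
  subst e
  exact pow_ne_zero 3 hc (by linear_combination h31)

theorem sepE {a42 a33 a24 a43 a34 : k}
    {b42 b33 b24 b43 b34 : k}
    (h : Rel (mk 0 0 0 0 0 0 0 0 0 0 0 0 0 0 0 1 0 0 0 a42 a33 a24 a43 a34 0)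
      (mk 0 0 0 0 0 0 0 0 0 0 0 0 0 0 0 0 1 0 0 b42 b33 b24 b43 b34 0)) :
    False := by
  obtain ⟨u10, u01, v10, v01, hc, h41, h32, h23, h14⟩ := lin_eqs5 h
  have e0 : u10 ^ 3 * (u10 * v01 - u01 * v10) = 0 := by clear * - hp h41; grind
  have e : u10 = 0 := pow_eq_zero_iff (n := 3) (by norm_num) |>.mp
    ((mul_eq_zero.mp e0).resolve_right hc)
  subst e
  exact pow_ne_zero 3 hc (by linear_combination h32)

theorem vA (a b c l : k) (h : l ≠ 0) :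
    Rel (mk 0 1 0 0 0 0 0 0 0 0 0 0 0 0 0 0 0 0 a 0 0 b 0 c 0)
      (mk 0 1 0 0 0 0 0 0 0 0 0 0 0 0 0 0 0 0 (l ^ 8 * a) 0 0 (l ^ 5 * b) 0 (l ^ 2 * c) 0) := by
  obtain ⟨w, hw⟩ : ∃ w, l * w = 1 := ⟨l⁻¹, mul_inv_cancel₀ h⟩
  exact rel_diag (w^3) (l^2) (by clear * - hp hw; grind) (by clear * - hp hw; grind)
    (by clear * - hp hw; refine ⟨?_, ?_, ?_, ?_, ?_, ?_, ?_, ?_, ?_, ?_, ?_, ?_, ?_, ?_, ?_, ?_, ?_, ?_, ?_, ?_, ?_, ?_, ?_⟩ <;> grind)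

theorem vB1 (a b s : k) (h : s ^ 4 = 1) :
    Rel (mk 0 0 0 0 1 0 0 0 0 0 0 0 a 0 0 0 0 0 0 0 b 0 0 0 0)
      (mk 0 0 0 0 1 0 0 0 0 0 0 0 (s * a) 0 0 0 0 0 0 0 (s ^ 2 * b) 0 0 0 0) := by
  have e : (s ^ 2 - 1) * (s ^ 2 + 1) = 0 := by linear_combination h
  rcases mul_eq_zero.mp e with e | e
  · exact rel_diag s 1 (by clear * - hp e; grind) (by clear * - hp e; grind)
      (by clear * - hp e; refine ⟨?_, ?_, ?_, ?_, ?_, ?_, ?_, ?_, ?_, ?_, ?_, ?_, ?_, ?_, ?_, ?_, ?_, ?_, ?_, ?_, ?_, ?_, ?_⟩ <;> grind)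
  · exact rel_swap s 1 (by clear * - hp e; grind) (by clear * - hp e; grind)
      (by clear * - hp e; refine ⟨?_, ?_, ?_, ?_, ?_, ?_, ?_, ?_, ?_, ?_, ?_, ?_, ?_, ?_, ?_, ?_, ?_, ?_, ?_, ?_, ?_, ?_, ?_⟩ <;> grind)

theorem vB2 (a b c t : k) (h : t ≠ 0) :
    Rel (mk 0 0 0 1 0 0 0 0 0 a 0 0 0 0 b 0 0 0 0 0 0 c 0 0 0)
      (mk 0 0 0 1 0 0 0 0 0 (t ^ 9 * a) 0 0 0 0 (t ^ 10 * b) 0 0 0 0 0 0 (t ^ 4 * c) 0 0 0) := by
  obtain ⟨w, hw⟩ : ∃ w, t * w = 1 := ⟨t⁻¹, mul_inv_cancel₀ h⟩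
  exact rel_diag (w^3) t (by clear * - hp hw; grind) (by clear * - hp hw; grind)
    (by clear * - hp hw; refine ⟨?_, ?_, ?_, ?_, ?_, ?_, ?_, ?_, ?_, ?_, ?_, ?_, ?_, ?_, ?_, ?_, ?_, ?_, ?_, ?_, ?_, ?_, ?_⟩ <;> grind)

theorem vC1 (a b c s t : k) (hs : s ^ 3 = 1) (ht : t ^ 3 = 1) :
    Rel (mk 0 0 0 0 0 0 1 0 0 1 a 0 0 0 b c 0 0 0 0 0 0 0 0 0)
      (mk 0 0 0 0 0 0 1 0 0 1 (s * a) 0 0 0 (t * b) (s * t * c) 0 0 0 0 0 0 0 0 0) := by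
  exact rel_diag s t (by clear * - hp hs ht; grind) (by clear * - hp hs ht; grind)
    (by clear * - hp hs ht; refine ⟨?_, ?_, ?_, ?_, ?_, ?_, ?_, ?_, ?_, ?_, ?_, ?_, ?_, ?_, ?_, ?_, ?_, ?_, ?_, ?_, ?_, ?_, ?_⟩ <;> grind)

theorem vC1s (a b c s t : k) (hs : s ^ 3 = -1) (ht : t ^ 3 = -1) :
    Rel (mk 0 0 0 0 0 0 1 0 0 1 a 0 0 0 b c 0 0 0 0 0 0 0 0 0)
      (mk 0 0 0 0 0 0 1 0 0 1 (t * b) 0 0 0 (s * a) (s * t * c) 0 0 0 0 0 0 0 0 0) := by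
  have r : Rel (mk 0 0 0 0 0 0 1 0 0 1 a 0 0 0 b c 0 0 0 0 0 0 0 0 0)
      (mk 0 0 0 0 0 0 1 0 0 1 (t * b) 0 0 0 (s * a) 0 0 0 (s * t * c) 0 0 0 0 0 0) :=
    rel_swap s t (by clear * - hp hs ht; grind) (by clear * - hp hs ht; grind)
      (by clear * - hp hs ht; refine ⟨?_, ?_, ?_, ?_, ?_, ?_, ?_, ?_, ?_, ?_, ?_, ?_, ?_, ?_, ?_, ?_, ?_, ?_, ?_, ?_, ?_, ?_, ?_⟩ <;> grind)
  have r2 := cC15 (t * b) (s * a) 0 0 0 (s * t * c) 0 0 0 0 0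
  rw [add_zero] at r2
  exact r.trans r2

theorem vC2 (a b c t : k) (h : t ≠ 0) :
    Rel (mk 0 0 0 0 0 0 0 1 0 0 0 b 0 0 a 0 0 c 0 0 0 0 0 0 0)
      (mk 0 0 0 0 0 0 0 1 0 0 0 (t⁻¹ ^ 2 * b) 0 0 (t ^ 7 * a) 0 0 (t ^ 2 * c) 0 0 0 0 0 0 0) := by
  have hw : t * t⁻¹ = 1 := mul_inv_cancel₀ h
  generalize t⁻¹ = w at *
  exact rel_diag (w^2) t (by clear * - hp hw; grind) (by clear * - hp hw; grind)
    (by clear * - hp hw; refine ⟨?_, ?_, ?_, ?_, ?_, ?_, ?_, ?_, ?_, ?_, ?_, ?_, ?_, ?_, ?_, ?_, ?_, ?_, ?_, ?_, ?_, ?_, ?_⟩ <;> grind)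

theorem vC3 (c s : k) (h : s ^ 9 = 1) :
    Rel (mk 0 0 0 0 0 0 1 0 0 0 0 0 0 0 1 0 0 0 c 0 0 0 0 0 0)
      (mk 0 0 0 0 0 0 1 0 0 0 0 0 0 0 1 0 0 0 (s * c) 0 0 0 0 0 0) := by
  exact rel_diag s (s^3) (by clear * - hp h; grind) (by clear * - hp h; grind)
    (by clear * - hp h; refine ⟨?_, ?_, ?_, ?_, ?_, ?_, ?_, ?_, ?_, ?_, ?_, ?_, ?_, ?_, ?_, ?_, ?_, ?_, ?_, ?_, ?_, ?_, ?_⟩ <;> grind)

theorem vC4 (c t : k) (h : t ^ 3 = 1) :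
    Rel (mk 0 0 0 0 0 0 1 0 0 0 0 0 0 1 0 0 0 0 c 0 0 0 0 0 0)
      (mk 0 0 0 0 0 0 1 0 0 0 0 0 0 1 0 0 0 0 (t * c) 0 0 0 0 0 0) := by
  exact rel_diag 1 t (by clear * - hp h; grind) (by clear * - hp h; grind)
    (by clear * - hp h; refine ⟨?_, ?_, ?_, ?_, ?_, ?_, ?_, ?_, ?_, ?_, ?_, ?_, ?_, ?_, ?_, ?_, ?_, ?_, ?_, ?_, ?_, ?_, ?_⟩ <;> grind)

theorem vC6 (d t : k) (h : t ^ 3 = 1) :
    Rel (mk 0 0 0 0 0 0 1 0 0 0 0 0 0 0 0 0 0 0 0 0 0 0 0 d 0)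
      (mk 0 0 0 0 0 0 1 0 0 0 0 0 0 0 0 0 0 0 0 0 0 0 0 (t * d) 0) := by
  exact rel_diag 1 t (by clear * - hp h; grind) (by clear * - hp h; grind)
    (by clear * - hp h; refine ⟨?_, ?_, ?_, ?_, ?_, ?_, ?_, ?_, ?_, ?_, ?_, ?_, ?_, ?_, ?_, ?_, ?_, ?_, ?_, ?_, ?_, ?_, ?_⟩ <;> grind)

theorem vD3 (a : k) :
    Rel (mk 0 0 0 0 0 0 0 0 0 0 0 0 1 0 0 0 0 0 0 0 a 0 0 0 0)
      (mk 0 0 0 0 0 0 0 0 0 0 0 0 1 0 0 0 0 0 0 0 (-a) 0 0 0 0) := by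
  exact rel_swap 1 (-1) (by clear * - hp; grind) (by clear * - hp; grind)
    (by clear * - hp ; refine ⟨?_, ?_, ?_, ?_, ?_, ?_, ?_, ?_, ?_, ?_, ?_, ?_, ?_, ?_, ?_, ?_, ?_, ?_, ?_, ?_, ?_, ?_, ?_⟩ <;> grind)

theorem vD4 [IsAlgClosed k] (a b t u : k) (ht : t ^ 2 = 1) (hu : u ≠ 0) :
    Rel (mk 0 0 0 0 0 0 0 0 0 0 0 1 0 0 0 0 a 0 b 0 0 0 0 0 0)
      (mk 0 0 0 0 0 0 0 0 0 0 0 1 0 0 0 0 (t * a) 0 (u * b) 0 0 0 0 0 0) := by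
  obtain ⟨s, hs⟩ := rootn (u * t) (mul_ne_zero hu (by clear * - hp ht; grind)) 2 (by norm_num)
  exact rel_diag s t (by clear * - hp hs ht; grind) (by clear * - hp hs ht; grind)
    (by clear * - hp hs ht; refine ⟨?_, ?_, ?_, ?_, ?_, ?_, ?_, ?_, ?_, ?_, ?_, ?_, ?_, ?_, ?_, ?_, ?_, ?_, ?_, ?_, ?_, ?_, ?_⟩ <;> grind)

theorem vD6 (b c t : k) (h : t ≠ 0) :
    Rel (mk 0 0 0 0 0 0 0 0 0 0 1 0 0 0 0 0 0 b 0 0 0 c 0 0 0)
      (mk 0 0 0 0 0 0 0 0 0 0 1 0 0 0 0 0 0 (t ^ 3 * b) 0 0 0 (t ^ 2 * c) 0 0 0) := by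
  obtain ⟨w, hw⟩ : ∃ w, t * w = 1 := ⟨t⁻¹, mul_inv_cancel₀ h⟩
  exact rel_diag (w^3) w (by clear * - hp hw; grind) (by clear * - hp hw; grind)
    (by clear * - hp hw; refine ⟨?_, ?_, ?_, ?_, ?_, ?_, ?_, ?_, ?_, ?_, ?_, ?_, ?_, ?_, ?_, ?_, ?_, ?_, ?_, ?_, ?_, ?_, ?_⟩ <;> grind)

theorem vF1 (a : k) :
    Rel (mk 0 0 0 0 0 0 0 0 0 0 0 0 0 0 0 0 0 0 0 0 a 0 0 0 0)
      (mk 0 0 0 0 0 0 0 0 0 0 0 0 0 0 0 0 0 0 0 0 (-a) 0 0 0 0) := by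
  exact rel_swap 1 1 (by clear * - hp; grind) (by clear * - hp; grind)
    (by clear * - hp ; refine ⟨?_, ?_, ?_, ?_, ?_, ?_, ?_, ?_, ?_, ?_, ?_, ?_, ?_, ?_, ?_, ?_, ?_, ?_, ?_, ?_, ?_, ?_, ?_⟩ <;> grind)

theorem vD1n (l : k) :
    Rel (mk 0 0 0 0 0 0 0 0 0 0 0 1 l 1 0 0 0 0 0 0 0 0 0 0 0)
      (mk 0 0 0 0 0 0 0 0 0 0 0 1 (-l) 1 0 0 0 0 0 0 0 0 0 0 0) := by
  exact rel_diag (-1) 1 (by clear * - hp; grind) (by clear * - hp; grind)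
    (by clear * - hp ; refine ⟨?_, ?_, ?_, ?_, ?_, ?_, ?_, ?_, ?_, ?_, ?_, ?_, ?_, ?_, ?_, ?_, ?_, ?_, ?_, ?_, ?_, ?_, ?_⟩ <;> grind)

theorem vD1m (l L r p t : k) (hr : r * p = 1) (hl : l = -(r + p)) (h0 : t ≠ 0)
    (ht : t ^ 2 = p ^ 2 - 1) (hL : L * t = 2 * p - r) (h3 : L ^ 2 ≠ 3) :
    Rel (mk 0 0 0 0 0 0 0 0 0 0 0 1 l 1 0 0 0 0 0 0 0 0 0 0 0)
      (mk 0 0 0 0 0 0 0 0 0 0 0 1 L 1 0 0 0 0 0 0 0 0 0 0 0) := by
  obtain ⟨b41, b32, b23, b14, b42, b33, b24, b43, b34, r1⟩ := ln44 1 0 p t (by clear * - hp hr hl ht hL h0; grind) 0 1 l 1 0 0 0 0 0 0 0 0 0 0 0 1 L 1 0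
      (by clear * - hp hr hl ht hL h0; grind) (by clear * - hp hr hl ht hL h0; grind)
      (by clear * - hp hr hl ht hL h0; grind) (by clear * - hp hr hl ht hL h0; grind)
      (by clear * - hp hr hl ht hL h0; grind)
  obtain ⟨w, hw⟩ : ∃ w, w * (2 * L * L - 1) = 1 :=
    ⟨(2 * L * L - 1)⁻¹, inv_mul_cancel₀ (by clear * - hp h3; grind)⟩
  exact r1.trans (cD15 L w hw ..)

theorem vD1k [IsAlgClosed k] (l L r p : k) (hr : r * p = 1) (hl : l = -(r + p)) (h0 : p ^ 2 - 1 ≠ 0)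
    (hL : L ^ 2 * (p ^ 2 - 1) - (2 * p - r) ^ 2 = 0) (h3 : L ^ 2 ≠ 3) :
    Rel (mk 0 0 0 0 0 0 0 0 0 0 0 1 l 1 0 0 0 0 0 0 0 0 0 0 0)
      (mk 0 0 0 0 0 0 0 0 0 0 0 1 L 1 0 0 0 0 0 0 0 0 0 0 0) := by
  obtain ⟨t, ht⟩ := IsAlgClosed.exists_pow_nat_eq (p ^ 2 - 1) (show 0 < 2 by norm_num)
  have t0 : t ≠ 0 := by rintro rfl; exact h0 (by rw [← ht]; ring)
  have e : (L * t - (2 * p - r)) * (L * (-t) - (2 * p - r)) = 0 := by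
    linear_combination -hL - L ^ 2 * ht
  rcases mul_eq_zero.mp e with e | e
  · exact vD1m l L r p t hr hl t0 ht (sub_eq_zero.mp e) h3
  · exact vD1m l L r p (-t) hr hl (neg_ne_zero.mpr t0) (by rw [← ht]; ring) (sub_eq_zero.mp e) h3

theorem vD1 [IsAlgClosed k] (l L : k) (hl : l ^ 2 ≠ 3) (h3 : L ^ 2 ≠ 3)
    (h : (L ^ 2 - 4) * (l ^ 2 - 3) ^ 3 = (l ^ 2 - 4) * (L ^ 2 - 3) ^ 3) :
    Rel (mk 0 0 0 0 0 0 0 0 0 0 0 1 l 1 0 0 0 0 0 0 0 0 0 0 0)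
      (mk 0 0 0 0 0 0 0 0 0 0 0 1 L 1 0 0 0 0 0 0 0 0 0 0 0) := by
  have same : L ^ 2 - l ^ 2 = 0 → Rel (mk 0 0 0 0 0 0 0 0 0 0 0 1 l 1 0 0 0 0 0 0 0 0 0 0 0)
      (mk 0 0 0 0 0 0 0 0 0 0 0 1 L 1 0 0 0 0 0 0 0 0 0 0 0) := by
    intro e
    have e' : (L - l) * (L - -l) = 0 := by linear_combination e
    rcases mul_eq_zero.mp e' with e' | e'
    · rw [sub_eq_zero.mp e']; exact Rel.refl _
    · rw [sub_eq_zero.mp e']; exact vD1n l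
  by_cases h4 : l ^ 2 = 4
  · apply same
    rw [h4] at h ⊢
    linear_combination h
  obtain ⟨r, hr⟩ := root2 (1 : k) l 1 one_ne_zero
  obtain ⟨p, hp'⟩ : ∃ p, p = -l - r := ⟨_, rfl⟩
  have h1 : r * p = 1 := by rw [hp']; linear_combination -hr
  have h2 : l = -(r + p) := by rw [hp']; ring
  have e : (L ^ 2 - l ^ 2) * ((L ^ 2 * (p ^ 2 - 1) - (2 * p - r) ^ 2) *
      (L ^ 2 * (r ^ 2 - 1) - (2 * r - p) ^ 2)) = 0 := by
    clear * - hp h h1 h2; grind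
  have n : (p ^ 2 - 1) * (r ^ 2 - 1) ≠ 0 := by clear * - hp h1 h2 h4; grind
  rcases mul_eq_zero.mp e with e | e
  · exact same e
  rcases mul_eq_zero.mp e with e | e
  · exact vD1k l L r p h1 h2 (left_ne_zero_of_mul n) e h3
  · exact vD1k l L p r (by rw [mul_comm, h1]) (by rw [h2]; ring) (right_ne_zero_of_mul n) e h3

theorem vD2t (a b t : k) (ht : t ^ 6 = 1) :
    Rel (mk 0 0 0 0 0 0 0 0 0 0 1 0 0 1 0 a 0 b 0 0 0 0 0 0 0)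
      (mk 0 0 0 0 0 0 0 0 0 0 1 0 0 1 0 (t * a) 0 (t ^ 3 * b) 0 0 0 0 0 0 0) := by
  exact rel_diag (t^3) t (by clear * - hp ht; grind) (by clear * - hp ht; grind)
    (by clear * - hp ht; refine ⟨?_, ?_, ?_, ?_, ?_, ?_, ?_, ?_, ?_, ?_, ?_, ?_, ?_, ?_, ?_, ?_, ?_, ?_, ?_, ?_, ?_, ?_, ?_⟩ <;> grind)

theorem vD2d (a A b : k) (h1 : A ^ 3 * b = a ^ 3 * b) (h2 : A ^ 6 = a ^ 6) :
    Rel (mk 0 0 0 0 0 0 0 0 0 0 1 0 0 1 0 a 0 b 0 0 0 0 0 0 0)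
      (mk 0 0 0 0 0 0 0 0 0 0 1 0 0 1 0 A 0 b 0 0 0 0 0 0 0) := by
  by_cases h : a = 0
  · subst h
    have e : A = 0 := pow_eq_zero_iff (n := 6) (by norm_num) |>.mp (by rw [h2]; ring)
    rw [e]; exact Rel.refl _
  obtain ⟨w, hw⟩ : ∃ w, a * w = 1 := ⟨a⁻¹, mul_inv_cancel₀ h⟩
  have r := vD2t a b (A * w) (by clear * - hp hw h2; grind)
  have e1 : A * w * a = A := by clear * - hp hw; grind
  have e2 : (A * w) ^ 3 * b = b := by clear * - hp hw h1; grind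
  rwa [e1, e2] at r

theorem vD2m (a b d o : k) (hd : d ^ 6 = 2) (ho : o ^ 3 = 1) :
    Rel (mk 0 0 0 0 0 0 0 0 0 0 1 0 0 1 0 a 0 b 0 0 0 0 0 0 0)
      (mk 0 0 0 0 0 0 0 0 0 0 1 0 0 1 0 (d * (a + b * o)) 0 (-d ^ 3 * (2 * b + o ^ 2 * a)) 0 0 0 0 0 0 0) := by
  obtain ⟨b42, b33, b24, b43, b34, r⟩ := ln45 (-2*d*d*d) (-d*o) (d*d*d*o*o) d (by clear * - hp hd ho; grind) 1 0 0 1 0 a 0 b 0 0 0 0 0 0 1
      0 0 1 0 (2*a*d - b*d*o) (2*a*d^(5:ℕ)*o) (-2*b*d*d*d - a*d*d*d*o*o) (-2*a*d - b*d*o)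
      (by clear * - hp hd ho; grind) (by clear * - hp hd ho; grind)
      (by clear * - hp hd ho; grind) (by clear * - hp hd ho; grind)
      (by clear * - hp hd ho; grind) (by clear * - hp hd ho; grind)
      (by clear * - hp hd ho; grind) (by clear * - hp hd ho; grind)
      (by clear * - hp hd ho; grind)
  have r2 := cD25 (2*a*d - b*d*o) (2*a*d^(5:ℕ)*o) (-2*b*d*d*d - a*d*d*d*o*o) (-2*a*d - b*d*o) b42 b33 b24 b43 b34
  have e1 : -2 * (-2*a*d - b*d*o) + (2*a*d - b*d*o) = d * (a + b * o) := by clear * - hp hd ho; grind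
  have e2 : -2*b*d*d*d - a*d*d*d*o*o = -d ^ 3 * (2 * b + o ^ 2 * a) := by clear * - hp hd ho; grind
  rw [← e1, ← e2]
  exact r.trans r2

end Pool.Agent.H25
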