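import Pool.Agent.P.MP_c9b50d_al.H.Tab

namespace Pool.Agent.H25

variable {k : Type*} [Field k] [hp : CharP k 5]

set_option linter.unusedSimpArgs false

theorem sA_of {a b c A B C : k}
    (h : Rel (mk 0 1 0 0 0 0 0 0 0 0 0 0 0 0 0 0 0 0 a 0 0 b 0 c 0)
      (mk 0 1 0 0 0 0 0 0 0 0 0 0 0 0 0 0 0 0 A 0 0 B 0 C 0)) :
    ∃ l : k, l ≠ 0 ∧ A = l ^ 8 * a ∧ B = l ^ 5 * b ∧ C = l ^ 2 * c := by
  obtain ⟨φ, cJ, hc, o1, o2, hj, hH⟩ := h.coords
  obtain ⟨u10, u01, u20, u11, u02, u30, u21, u12, u03, u40, u31, u22, u13, u04, u41, u32, u23, u14, u42, u33, u24, u43, u34, u44, hx⟩ := ord1_surj o1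
  obtain ⟨v10, v01, v20, v11, v02, v30, v21, v12, v03, v40, v31, v22, v13, v04, v41, v32, v23, v14, v42, v33, v24, v43, v34, v44, hy⟩ := ord1_surj o2
  obtain ⟨rfl, J10, J01, J20, J11, J02, J30, J21, J12, J03, J40, J31, J22, J13, J04, J41, J32, J23, J14, J42, J33, J24, -, -⟩ := jac_eqs hx hy hj
  have e : (mk 0 1 0 0 0 0 0 0 0 0 0 0 0 0 0 0 0 0 a 0 0 b 0 c 0 : O k) = m 1 0 + a • m 1 4 + b • m 2 4 + c • m 3 4 := by
    simp only [m10, m14, m24, m34, mk_smul, mk_add, mul_zero, mul_one, add_zero, zero_add]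
  obtain ⟨t10, p10⟩ := pw10 u10 u01 u20 u11 u02 u30 u21 u12 u03 u40 u31 u22 u13 u04 u41 u32 u23 u14 u42 u33 u24 u43 u34 u44 v10 v01 v20 v11 v02 v30 v21 v12 v03 v40 v31 v22 v13 v04 v41 v32 v23 v14 v42 v33 v24 v43 v34 v44
  obtain ⟨t14, p14⟩ := pw14 u10 u01 u20 u11 u02 u30 u21 u12 u03 u40 u31 u22 u13 u04 u41 u32 u23 u14 u42 u33 u24 u43 u34 u44 v10 v01 v20 v11 v02 v30 v21 v12 v03 v40 v31 v22 v13 v04 v41 v32 v23 v14 v42 v33 v24 v43 v34 v44
  obtain ⟨t24, p24⟩ := pw24 u10 u01 u20 u11 u02 u30 u21 u12 u03 u40 u31 u22 u13 u04 u41 u32 u23 u14 u42 u33 u24 u43 u34 u44 v10 v01 v20 v11 v02 v30 v21 v12 v03 v40 v31 v22 v13 v04 v41 v32 v23 v14 v42 v33 v24 v43 v34 v44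
  obtain ⟨t34, p34⟩ := pw34 u10 u01 u20 u11 u02 u30 u21 u12 u03 u40 u31 u22 u13 u04 u41 u32 u23 u14 u42 u33 u24 u43 u34 u44 v10 v01 v20 v11 v02 v30 v21 v12 v03 v40 v31 v22 v13 v04 v41 v32 v23 v14 v42 v33 v24 v43 v34 v44
  rw [e] at hH
  simp only [hom_add, hom_smul, hom_m, hx, hy, p10, p14, p24, p34, mk_smul, mk_add] at hH
  rw [mk_inj] at hH
  obtain ⟨-, H10, H01, H20, H11, H02, H30, H21, H12, H03, H40, H31, H22, H13, H04, H41, H32, H23, H14, H42, H33, H24, H43, H34, -⟩ := hH
  clear e hx hy hj o1 o2 h φ p10 t10 p14 t14 p24 t24 p34 t34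
  have e : 0 = u01 := by clear * - hp H01; grind
  subst e
  obtain ⟨l, li, hl, h1, h2⟩ : ∃ l li : k, l * li = 1 ∧ l * l * l = u10 ∧ li * li = v01 :=
    ⟨u10 * v01, u10 * v01 * v01, by clear * - hp hc H10; grind, by clear * - hp hc H10; grind, by clear * - hp hc H10; grind⟩
  subst h1 h2
  have e : (li*li*li*u11*v10 - 2*li^(5:ℕ)*u20 : k) = v11 := by
    linear_combination (norm := skip) (-li*li*li) * J10
    clear * - hp hl; grind
  subst e
  clear J10
  have e : (li*li*li*u02*v10 + 2*li^(5:ℕ)*u11 : k) = v02 := by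
    linear_combination (norm := skip) (2*li*li*li) * J01
    clear * - hp hl; grind
  subst e
  clear J01
  have e : (0 : k) = u20 := by
    linear_combination (norm := skip) (-1) * H20
    clear * - hp hl; grind
  subst e
  clear H20
  have e : (0 : k) = u11 := by
    linear_combination (norm := skip) (-1) * H11
    clear * - hp hl; grind
  subst e
  clear H11
  have e : (0 : k) = u02 := by
    linear_combination (norm := skip) (-1) * H02
    clear * - hp hl; grind
  subst e
  clear H02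
  have e : (li*li*li*u21*v10 + 2*li^(5:ℕ)*u30 : k) = v21 := by
    linear_combination (norm := skip) (-li*li*li) * J20
    clear * - hp hl; grind
  subst e
  clear J20
  have e : (li*li*li*u12*v10 - li^(5:ℕ)*u21 : k) = v12 := by
    linear_combination (norm := skip) (2*li*li*li) * J11
    clear * - hp hl; grind
  subst e
  clear J11
  have e : (li*li*li*u03*v10 - 2*li^(5:ℕ)*u12 : k) = v03 := by
    linear_combination (norm := skip) (-2*li*li*li) * J02
    clear * - hp hl; grind
  subst e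
  clear J02
  have e : (0 : k) = u30 := by
    linear_combination (norm := skip) (-1) * H30
    clear * - hp hl; grind
  subst e
  clear H30
  have e : (0 : k) = u21 := by
    linear_combination (norm := skip) (-1) * H21
    clear * - hp hl; grind
  subst e
  clear H21
  have e : (0 : k) = u12 := by
    linear_combination (norm := skip) (-1) * H12
    clear * - hp hl; grind
  subst e
  clear H12
  have e : (0 : k) = u03 := by
    linear_combination (norm := skip) (-1) * H03
    clear * - hp hl; grind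
  subst e
  clear H03
  have e : (li*li*li*u31*v10 + li^(5:ℕ)*u40 : k) = v31 := by
    linear_combination (norm := skip) (-li*li*li) * J30
    clear * - hp hl; grind
  subst e
  clear J30
  have e : (li*li*li*u22*v10 + li^(5:ℕ)*u31 : k) = v22 := by
    linear_combination (norm := skip) (2*li*li*li) * J21
    clear * - hp hl; grind
  subst e
  clear J21
  have e : (li*li*li*u13*v10 + li^(5:ℕ)*u22 : k) = v13 := by
    linear_combination (norm := skip) (-2*li*li*li) * J12
    clear * - hp hl; grind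
  subst e
  clear J12
  have e : (li*li*li*u04*v10 + li^(5:ℕ)*u13 : k) = v04 := by
    linear_combination (norm := skip) (li*li*li) * J03
    clear * - hp hl; grind
  subst e
  clear J03
  have e : (0 : k) = u40 := by
    linear_combination (norm := skip) (-1) * H40
    clear * - hp hl; grind
  subst e
  clear H40
  have e : (0 : k) = u31 := by
    linear_combination (norm := skip) (-1) * H31
    clear * - hp hl; grind
  subst e
  clear H31
  have e : (0 : k) = u22 := by
    linear_combination (norm := skip) (-1) * H22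
    clear * - hp hl; grind
  subst e
  clear H22
  have e : (0 : k) = u13 := by
    linear_combination (norm := skip) (-1) * H13
    clear * - hp hl; grind
  subst e
  clear H13
  have e : (0 : k) = u04 := by
    linear_combination (norm := skip) (-1) * H04
    clear * - hp hl; grind
  subst e
  clear H04
  have e : (li*li*li*u41*v10 : k) = v41 := by
    linear_combination (norm := skip) (-li*li*li) * J40
    clear * - hp hl; grind
  subst e
  clear J40
  have e : (li*li*li*u32*v10 - 2*li^(5:ℕ)*u41 : k) = v32 := by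
    linear_combination (norm := skip) (2*li*li*li) * J31
    clear * - hp hl; grind
  subst e
  clear J31
  have e : (li*li*li*u23*v10 - li^(5:ℕ)*u32 : k) = v23 := by
    linear_combination (norm := skip) (-2*li*li*li) * J22
    clear * - hp hl; grind
  subst e
  clear J22
  have e : (li*li*li*u14*v10 + 2*li^(5:ℕ)*u23 : k) = v14 := by
    linear_combination (norm := skip) (li*li*li) * J13
    clear * - hp hl; grind
  subst e
  clear J13
  have e : (0 : k) = u14 := by
    linear_combination (norm := skip) (-l*l) * J04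
    clear * - hp hl; grind
  subst e
  clear J04
  have e : (a*l*v10*v10*v10 : k) = u41 := by
    linear_combination (norm := skip) (-1) * H41
    clear * - hp hl; grind
  subst e
  clear H41
  have e : (-a*li*v10*v10 : k) = u32 := by
    linear_combination (norm := skip) (-1) * H32
    clear * - hp hl; grind
  subst e
  clear H32
  have e : (a*li*li*li*v10 : k) = u23 := by
    linear_combination (norm := skip) (-1) * H23
    clear * - hp hl; grind
  subst e
  clear H23
  have e : (a*li^(8:ℕ) : k) = A := by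
    linear_combination (norm := skip) (li*li*li) * H14
    clear * - hp hl; grind
  subst e
  clear H14
  have e : (li*li*li*u42*v10 - 2*a*li^(4:ℕ)*v10*v10*v20 : k) = v42 := by
    linear_combination (norm := skip) (2*li*li*li) * J41
    clear * - hp hl; grind
  subst e
  clear J41
  have e : (li*li*li*u33*v10 + 2*li^(5:ℕ)*u42 + 2*a*li^(6:ℕ)*v10*v20 : k) = v33 := by
    linear_combination (norm := skip) (-2*li*li*li) * J32
    clear * - hp hl; grind
  subst e
  clear J32
  have e : (li*li*li*u24*v10 - 2*li^(5:ℕ)*u33 : k) = v24 := by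
    linear_combination (norm := skip) (li*li*li) * J23
    clear * - hp hl; grind
  subst e
  clear J23
  have e : (0 : k) = u24 := by
    linear_combination (norm := skip) (2*l*l) * J14
    clear * - hp hl; grind
  subst e
  clear J14
  have e : (-2*a*li*v10*v20 - b*l*l*v10*v10 : k) = u42 := by
    linear_combination (norm := skip) (-1) * H42
    clear * - hp hl; grind
  subst e
  clear H42
  have e : (b*v10 + a*li*li*li*v20 : k) = u33 := by
    linear_combination (norm := skip) (-1) * H33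
    clear * - hp hl; grind
  subst e
  clear H33
  have e : (b*li^(5:ℕ) : k) = B := by
    linear_combination (norm := skip) (li*li*li) * H24
    clear * - hp hl; grind
  subst e
  clear H24
  have e : (li*li*li*u43*v10 + 2*b*li*li*li*v10*v20 - 2*a*li^(6:ℕ)*v10*v30 + 2*a*li^(6:ℕ)*v20*v20 : k) = v43 := by
    linear_combination (norm := skip) (-2*li*li*li) * J42
    clear * - hp hl; grind
  subst e
  clear J42
  have e : (li*li*li*u34*v10 - li^(5:ℕ)*u43 : k) = v34 := by
    linear_combination (norm := skip) (li*li*li) * J33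
    clear * - hp hl; grind
  subst e
  clear J33
  have e : (0 : k) = u34 := by
    linear_combination (norm := skip) (-2*l*l) * J24
    clear * - hp hl; grind
  subst e
  clear J24
  have e : (b*v20 + a*li*li*li*v30 + c*l*l*l*v10 : k) = u43 := by
    linear_combination (norm := skip) (-1) * H43
    clear * - hp hl; grind
  subst e
  clear H43
  have e : (c*li*li : k) = C := by
    linear_combination (norm := skip) (li*li*li) * H34
    clear * - hp hl; grind
  subst e
  clear H34
  exact ⟨li, by clear * - hp hl; grind, by ring, by ring, by ring⟩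

end Pool.Agent.H25

namespace Pool.Agent.H25

variable {k : Type*} [Field k] [hp : CharP k 5]

set_option linter.unusedSimpArgs false

theorem sB1_of {a b A B : k}
    (h : Rel (mk 0 0 0 0 1 0 0 0 0 0 0 0 a 0 0 0 0 0 0 0 b 0 0 0 0)
      (mk 0 0 0 0 1 0 0 0 0 0 0 0 A 0 0 0 0 0 0 0 B 0 0 0 0)) :
    ∃ s : k, s ^ 4 = 1 ∧ A = s * a ∧ B = s ^ 2 * b := by
  obtain ⟨φ, cJ, hc, o1, o2, hj, hH⟩ := h.coords
  obtain ⟨u10, u01, u20, u11, u02, u30, u21, u12, u03, u40, u31, u22, u13, u04, u41, u32, u23, u14, u42, u33, u24, u43, u34, u44, hx⟩ := ord1_surj o1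
  obtain ⟨v10, v01, v20, v11, v02, v30, v21, v12, v03, v40, v31, v22, v13, v04, v41, v32, v23, v14, v42, v33, v24, v43, v34, v44, hy⟩ := ord1_surj o2
  obtain ⟨rfl, J10, J01, J20, J11, J02, J30, J21, J12, J03, J40, J31, J22, J13, J04, -, -, -, -, -, -, -, -, -⟩ := jac_eqs hx hy hj
  have e : (mk 0 0 0 0 1 0 0 0 0 0 0 0 a 0 0 0 0 0 0 0 b 0 0 0 0 : O k) = m 1 1 + a • m 2 2 + b • m 3 3 := by
    simp only [m11, m22, m33, mk_smul, mk_add, mul_zero, mul_one, add_zero, zero_add]
  obtain ⟨t11, p11⟩ := pw11 u10 u01 u20 u11 u02 u30 u21 u12 u03 u40 u31 u22 u13 u04 u41 u32 u23 u14 u42 u33 u24 u43 u34 u44 v10 v01 v20 v11 v02 v30 v21 v12 v03 v40 v31 v22 v13 v04 v41 v32 v23 v14 v42 v33 v24 v43 v34 v44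
  obtain ⟨t22, p22⟩ := pw22 u10 u01 u20 u11 u02 u30 u21 u12 u03 u40 u31 u22 u13 u04 u41 u32 u23 u14 u42 u33 u24 u43 u34 u44 v10 v01 v20 v11 v02 v30 v21 v12 v03 v40 v31 v22 v13 v04 v41 v32 v23 v14 v42 v33 v24 v43 v34 v44
  obtain ⟨t33, p33⟩ := pw33 u10 u01 u20 u11 u02 u30 u21 u12 u03 u40 u31 u22 u13 u04 u41 u32 u23 u14 u42 u33 u24 u43 u34 u44 v10 v01 v20 v11 v02 v30 v21 v12 v03 v40 v31 v22 v13 v04 v41 v32 v23 v14 v42 v33 v24 v43 v34 v44
  rw [e] at hH
  simp only [hom_add, hom_smul, hom_m, hx, hy, p11, p22, p33, mk_smul, mk_add] at hH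
  rw [mk_inj] at hH
  obtain ⟨-, -, -, H20, H11, H02, H30, H21, H12, H03, H40, H31, H22, H13, H04, H41, H32, H23, H14, H42, H33, H24, -, -, -⟩ := hH
  clear e hx hy hj o1 o2 h φ p11 t11 p22 t22 p33 t33
  by_cases h0 : u10 = 0
  swap
  · have e : 0 = v10 := by clear * - hp H20 h0; grind
    subst e
    have e : 0 = u01 := by clear * - hp H02 hc; grind
    subst e
    obtain ⟨s, si, ep, hs, he, h1, h2⟩ : ∃ s si ep : k, s * si = 1 ∧ ep * ep = 1 ∧ s = u10 ∧ ep * si = v01 :=
      ⟨u10, u10⁻¹, u10 * v01, mul_inv_cancel₀ h0, by clear * - hp hc H11; grind, rfl, by clear * - hp h0; grind⟩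
    subst h1 h2
    have e : (-2*ep*si*si*u20 : k) = v11 := by
      linear_combination (norm := skip) (-si) * J10
      clear * - hp hs he; grind
    subst e
    clear J10
    have e : (2*ep*si*si*u11 : k) = v02 := by
      linear_combination (norm := skip) (2*si) * J01
      clear * - hp hs he; grind
    subst e
    clear J01
    have e : (0 : k) = v20 := by
      linear_combination (norm := skip) (-si) * H30
      clear * - hp hs he; grind
    subst e
    clear H30
    have e : (0 : k) = u20 := by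
      linear_combination (norm := skip) (ep*s) * H21
      clear * - hp hs he; grind
    subst e
    clear H21
    have e : (0 : k) = u11 := by
      linear_combination (norm := skip) (-2*ep*s) * H12
      clear * - hp hs he; grind
    subst e
    clear H12
    have e : (0 : k) = u02 := by
      linear_combination (norm := skip) (-ep*s) * H03
      clear * - hp hs he; grind
    subst e
    clear H03
    have e : (2*ep*si*si*u30 : k) = v21 := by
      linear_combination (norm := skip) (-si) * J20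
      clear * - hp hs he; grind
    subst e
    clear J20
    have e : (-ep*si*si*u21 : k) = v12 := by
      linear_combination (norm := skip) (2*si) * J11
      clear * - hp hs he; grind
    subst e
    clear J11
    have e : (-2*ep*si*si*u12 : k) = v03 := by
      linear_combination (norm := skip) (-2*si) * J02
      clear * - hp hs he; grind
    subst e
    clear J02
    have e : (0 : k) = v30 := by
      linear_combination (norm := skip) (-si) * H40
      clear * - hp hs he; grind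
    subst e
    clear H40
    have e : (0 : k) = u30 := by
      linear_combination (norm := skip) (-2*ep*s) * H31
      clear * - hp hs he; grind
    subst e
    clear H31
    have e : (a*ep : k) = A := by
      linear_combination (norm := skip) (ep) * H22
      clear * - hp hs he; grind
    subst e
    clear H22
    have e : (0 : k) = u12 := by
      linear_combination (norm := skip) (ep*s) * H13
      clear * - hp hs he; grind
    subst e
    clear H13
    have e : (0 : k) = u03 := by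
      linear_combination (norm := skip) (-ep*s) * H04
      clear * - hp hs he; grind
    subst e
    clear H04
    have e : (ep*si*si*u40 : k) = v31 := by
      linear_combination (norm := skip) (-si) * J30
      clear * - hp hs he; grind
    subst e
    clear J30
    have e : (ep*si*si*u31 : k) = v22 := by
      linear_combination (norm := skip) (2*si) * J21
      clear * - hp hs he; grind
    subst e
    clear J21
    have e : (ep*si*si*u22 : k) = v13 := by
      linear_combination (norm := skip) (-2*si) * J12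
      clear * - hp hs he; grind
    subst e
    clear J12
    have e : (ep*si*si*u13 : k) = v04 := by
      linear_combination (norm := skip) (si) * J03
      clear * - hp hs he; grind
    subst e
    clear J03
    have e : (0 : k) = u40 := by
      linear_combination (norm := skip) (2*ep*s) * H41
      clear * - hp hs he; grind
    subst e
    clear H41
    have e : (0 : k) = u31 := by
      linear_combination (norm := skip) (2*ep*s) * H32
      clear * - hp hs he; grind
    subst e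
    clear H32
    have e : (0 : k) = u22 := by
      linear_combination (norm := skip) (2*ep*s) * H23
      clear * - hp hs he; grind
    subst e
    clear H23
    have e : (0 : k) = u13 := by
      linear_combination (norm := skip) (2*ep*s) * H14
      clear * - hp hs he; grind
    subst e
    clear H14
    have e : (0 : k) = v41 := by
      linear_combination (norm := skip) (-si) * J40
      clear * - hp hs he; grind
    subst e
    clear J40
    have e : (-2*ep*si*si*u41 : k) = v32 := by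
      linear_combination (norm := skip) (2*si) * J31
      clear * - hp hs he; grind
    subst e
    clear J31
    have e : (-ep*si*si*u32 + ep*si*si*si*u21*u21 : k) = v23 := by
      linear_combination (norm := skip) (-2*si) * J22
      clear * - hp hs he; grind
    subst e
    clear J22
    have e : (2*ep*si*si*u23 : k) = v14 := by
      linear_combination (norm := skip) (si) * J13
      clear * - hp hs he; grind
    subst e
    clear J13
    have e : (0 : k) = u14 := by
      linear_combination (norm := skip) (-ep*s) * J04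
      clear * - hp hs he; grind
    subst e
    clear J04
    have e : (0 : k) = u41 := by
      linear_combination (norm := skip) (ep*s) * H42
      clear * - hp hs he; grind
    subst e
    clear H42
    have e : (b : k) = B := by
      linear_combination (norm := skip) (ep) * H33
      clear * - hp hs he; grind
    subst e
    clear H33
    have e : (0 : k) = u23 := by
      linear_combination (norm := skip) (-2*ep*s) * H24
      clear * - hp hs he; grind
    subst e
    clear H24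
    exact ⟨ep, by clear * - hp he; grind, by ring, by clear * - hp he; grind⟩
  · subst h0
    have e : 0 = v01 := by clear * - hp H02 hc; grind
    subst e
    have h0 : u01 ≠ 0 := by clear * - hp hc; grind
    obtain ⟨s, si, io, hs, he, h1, h2⟩ : ∃ s si io : k, s * si = 1 ∧ io * io = -1 ∧ s = u01 ∧ -io * si = v10 :=
      ⟨u01, u01⁻¹, -u01 * v10, mul_inv_cancel₀ h0, by clear * - hp hc H11; grind, rfl, by clear * - hp h0; grind⟩
    subst h1 h2
    have e : (-2*io*s*s*v20 : k) = u11 := by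
      linear_combination (norm := skip) (io*s) * J10
      clear * - hp hs he; grind
    subst e
    clear J10
    have e : (2*io*s*s*v11 : k) = u02 := by
      linear_combination (norm := skip) (-2*io*s) * J01
      clear * - hp hs he; grind
    subst e
    clear J01
    have e : (0 : k) = u20 := by
      linear_combination (norm := skip) (-io*s) * H30
      clear * - hp hs he; grind
    subst e
    clear H30
    have e : (0 : k) = v20 := by
      linear_combination (norm := skip) (si) * H21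
      clear * - hp hs he; grind
    subst e
    clear H21
    have e : (0 : k) = v11 := by
      linear_combination (norm := skip) (-2*si) * H12
      clear * - hp hs he; grind
    subst e
    clear H12
    have e : (0 : k) = v02 := by
      linear_combination (norm := skip) (-si) * H03
      clear * - hp hs he; grind
    subst e
    clear H03
    have e : (2*io*s*s*v30 : k) = u21 := by
      linear_combination (norm := skip) (io*s) * J20
      clear * - hp hs he; grind
    subst e
    clear J20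
    have e : (-io*s*s*v21 : k) = u12 := by
      linear_combination (norm := skip) (-2*io*s) * J11
      clear * - hp hs he; grind
    subst e
    clear J11
    have e : (-2*io*s*s*v12 : k) = u03 := by
      linear_combination (norm := skip) (2*io*s) * J02
      clear * - hp hs he; grind
    subst e
    clear J02
    have e : (0 : k) = u30 := by
      linear_combination (norm := skip) (-io*s) * H40
      clear * - hp hs he; grind
    subst e
    clear H40
    have e : (0 : k) = v30 := by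
      linear_combination (norm := skip) (-2*si) * H31
      clear * - hp hs he; grind
    subst e
    clear H31
    have e : (-a*io : k) = A := by
      linear_combination (norm := skip) (io) * H22
      clear * - hp hs he; grind
    subst e
    clear H22
    have e : (0 : k) = v12 := by
      linear_combination (norm := skip) (si) * H13
      clear * - hp hs he; grind
    subst e
    clear H13
    have e : (0 : k) = v03 := by
      linear_combination (norm := skip) (-si) * H04
      clear * - hp hs he; grind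
    subst e
    clear H04
    have e : (io*s*s*v40 : k) = u31 := by
      linear_combination (norm := skip) (io*s) * J30
      clear * - hp hs he; grind
    subst e
    clear J30
    have e : (io*s*s*v31 : k) = u22 := by
      linear_combination (norm := skip) (-2*io*s) * J21
      clear * - hp hs he; grind
    subst e
    clear J21
    have e : (io*s*s*v22 : k) = u13 := by
      linear_combination (norm := skip) (2*io*s) * J12
      clear * - hp hs he; grind
    subst e
    clear J12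
    have e : (io*s*s*v13 : k) = u04 := by
      linear_combination (norm := skip) (-io*s) * J03
      clear * - hp hs he; grind
    subst e
    clear J03
    have e : (0 : k) = v40 := by
      linear_combination (norm := skip) (2*si) * H41
      clear * - hp hs he; grind
    subst e
    clear H41
    have e : (0 : k) = v31 := by
      linear_combination (norm := skip) (2*si) * H32
      clear * - hp hs he; grind
    subst e
    clear H32
    have e : (0 : k) = v22 := by
      linear_combination (norm := skip) (2*si) * H23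
      clear * - hp hs he; grind
    subst e
    clear H23
    have e : (0 : k) = v13 := by
      linear_combination (norm := skip) (2*si) * H14
      clear * - hp hs he; grind
    subst e
    clear H14
    have e : (0 : k) = u41 := by
      linear_combination (norm := skip) (io*s) * J40
      clear * - hp hs he; grind
    subst e
    clear J40
    have e : (-2*io*s*s*v41 : k) = u32 := by
      linear_combination (norm := skip) (-2*io*s) * J31
      clear * - hp hs he; grind
    subst e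
    clear J31
    have e : (-io*s*s*v32 - s*s*s*v21*v21 : k) = u23 := by
      linear_combination (norm := skip) (2*io*s) * J22
      clear * - hp hs he; grind
    subst e
    clear J22
    have e : (2*io*s*s*v23 : k) = u14 := by
      linear_combination (norm := skip) (-io*s) * J13
      clear * - hp hs he; grind
    subst e
    clear J13
    have e : (0 : k) = v14 := by
      linear_combination (norm := skip) (si) * J04
      clear * - hp hs he; grind
    subst e
    clear J04
    have e : (0 : k) = v41 := by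
      linear_combination (norm := skip) (si) * H42
      clear * - hp hs he; grind
    subst e
    clear H42
    have e : (-b : k) = B := by
      linear_combination (norm := skip) (io) * H33
      clear * - hp hs he; grind
    subst e
    clear H33
    have e : (0 : k) = v23 := by
      linear_combination (norm := skip) (-2*si) * H24
      clear * - hp hs he; grind
    subst e
    clear H24
    exact ⟨-io, by clear * - hp he; grind, by ring, by clear * - hp he; grind⟩

end Pool.Agent.H25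

namespace Pool.Agent.H25

variable {k : Type*} [Field k] [hp : CharP k 5]

set_option linter.unusedSimpArgs false

theorem sB2_of {a b c d A B C D : k}
    (h : Rel (mk 0 0 0 1 0 0 0 0 0 a 0 0 0 0 b 0 0 0 0 0 0 c 0 d 0)
      (mk 0 0 0 1 0 0 0 0 0 A 0 0 0 0 B 0 0 0 0 0 0 C 0 D 0)) :
    ∃ t : k, t ≠ 0 ∧ A = t ^ 9 * a ∧ B = t ^ 10 * b ∧ C = t ^ 4 * c ∧ (a = 0 → b = 0 → D = t * d) := by
  obtain ⟨φ, cJ, hc, o1, o2, hj, hH⟩ := h.coords
  obtain ⟨u10, u01, u20, u11, u02, u30, u21, u12, u03, u40, u31, u22, u13, u04, u41, u32, u23, u14, u42, u33, u24, u43, u34, u44, hx⟩ := ord1_surj o1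
  obtain ⟨v10, v01, v20, v11, v02, v30, v21, v12, v03, v40, v31, v22, v13, v04, v41, v32, v23, v14, v42, v33, v24, v43, v34, v44, hy⟩ := ord1_surj o2
  obtain ⟨rfl, J10, J01, J20, J11, J02, J30, J21, J12, J03, J40, J31, J22, J13, J04, J41, J32, J23, J14, -, -, -, -, -⟩ := jac_eqs hx hy hj
  have e : (mk 0 0 0 1 0 0 0 0 0 a 0 0 0 0 b 0 0 0 0 0 0 c 0 d 0 : O k) = m 2 0 + a • m 0 3 + b • m 0 4 + c • m 2 4 + d • m 3 4 := by
    simp only [m20, m03, m04, m24, m34, mk_smul, mk_add, mul_zero, mul_one, add_zero, zero_add]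
  obtain ⟨t20, p20⟩ := pw20 u10 u01 u20 u11 u02 u30 u21 u12 u03 u40 u31 u22 u13 u04 u41 u32 u23 u14 u42 u33 u24 u43 u34 u44 v10 v01 v20 v11 v02 v30 v21 v12 v03 v40 v31 v22 v13 v04 v41 v32 v23 v14 v42 v33 v24 v43 v34 v44
  obtain ⟨t03, p03⟩ := pw03 u10 u01 u20 u11 u02 u30 u21 u12 u03 u40 u31 u22 u13 u04 u41 u32 u23 u14 u42 u33 u24 u43 u34 u44 v10 v01 v20 v11 v02 v30 v21 v12 v03 v40 v31 v22 v13 v04 v41 v32 v23 v14 v42 v33 v24 v43 v34 v44
  obtain ⟨t04, p04⟩ := pw04 u10 u01 u20 u11 u02 u30 u21 u12 u03 u40 u31 u22 u13 u04 u41 u32 u23 u14 u42 u33 u24 u43 u34 u44 v10 v01 v20 v11 v02 v30 v21 v12 v03 v40 v31 v22 v13 v04 v41 v32 v23 v14 v42 v33 v24 v43 v34 v44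
  obtain ⟨t24, p24⟩ := pw24 u10 u01 u20 u11 u02 u30 u21 u12 u03 u40 u31 u22 u13 u04 u41 u32 u23 u14 u42 u33 u24 u43 u34 u44 v10 v01 v20 v11 v02 v30 v21 v12 v03 v40 v31 v22 v13 v04 v41 v32 v23 v14 v42 v33 v24 v43 v34 v44
  obtain ⟨t34, p34⟩ := pw34 u10 u01 u20 u11 u02 u30 u21 u12 u03 u40 u31 u22 u13 u04 u41 u32 u23 u14 u42 u33 u24 u43 u34 u44 v10 v01 v20 v11 v02 v30 v21 v12 v03 v40 v31 v22 v13 v04 v41 v32 v23 v14 v42 v33 v24 v43 v34 v44
  rw [e] at hH
  simp only [hom_add, hom_smul, hom_m, hx, hy, p20, p03, p04, p24, p34, mk_smul, mk_add] at hH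
  rw [mk_inj] at hH
  obtain ⟨-, -, -, H20, H11, H02, H30, H21, H12, H03, H40, H31, H22, H13, H04, H41, H32, H23, H14, H42, H33, H24, H43, H34, -⟩ := hH
  clear e hx hy hj o1 o2 h φ p20 t20 p03 t03 p04 t04 p24 t24 p34 t34
  have e : 0 = u01 := by clear * - hp H02; grind
  subst e
  obtain ⟨t, ti, ht, h1, h2⟩ : ∃ t ti : k, t * ti = 1 ∧ ti * ti * ti = u10 ∧ t = v01 :=
    ⟨v01, u10 * v01 * v01, by clear * - hp hc H20; grind, by clear * - hp hc H20; grind, rfl⟩
  subst h1 h2
  have e : (t*t*t*u11*v10 - 2*t^(4:ℕ)*u20 : k) = v11 := by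
    linear_combination (norm := skip) (-t*t*t) * J10
    clear * - hp ht; grind
  subst e
  clear J10
  have e : (t*t*t*u02*v10 + 2*t^(4:ℕ)*u11 : k) = v02 := by
    linear_combination (norm := skip) (2*t*t*t) * J01
    clear * - hp ht; grind
  subst e
  clear J01
  have e : (2*a*t*t*t*v10*v10*v10 : k) = u20 := by
    linear_combination (norm := skip) (2*t*t*t) * H30
    clear * - hp ht; grind
  subst e
  clear H30
  have e : (a*t^(4:ℕ)*v10*v10 : k) = u11 := by
    linear_combination (norm := skip) (2*t*t*t) * H21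
    clear * - hp ht; grind
  subst e
  clear H21
  have e : (a*t^(5:ℕ)*v10 : k) = u02 := by
    linear_combination (norm := skip) (2*t*t*t) * H12
    clear * - hp ht; grind
  subst e
  clear H12
  have e : (a*t^(9:ℕ) : k) = A := by
    linear_combination (norm := skip) (t^(6:ℕ)) * H03
    clear * - hp ht; grind
  subst e
  clear H03
  have e : (t*t*t*u21*v10 + 2*t^(4:ℕ)*u30 + 2*a*t^(7:ℕ)*v10*v10*v20 + 2*a*a*t^(13:ℕ)*v10^(6:ℕ) : k) = v21 := by
    linear_combination (norm := skip) (-t*t*t) * J20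
    clear * - hp ht; grind
  subst e
  clear J20
  have e : (t*t*t*u12*v10 - t^(4:ℕ)*u21 + 2*a*t^(8:ℕ)*v10*v20 - 2*a*a*t^(14:ℕ)*v10^(5:ℕ) : k) = v12 := by
    linear_combination (norm := skip) (2*t*t*t) * J11
    clear * - hp ht; grind
  subst e
  clear J11
  have e : (t*t*t*u03*v10 - 2*t^(4:ℕ)*u12 + a*a*t^(15:ℕ)*v10^(4:ℕ) : k) = v03 := by
    linear_combination (norm := skip) (-2*t*t*t) * J02
    clear * - hp ht; grind
  subst e
  clear J02
  have e : (a*t*t*t*v10*v10*v20 + 2*b*t*t*t*v10^(4:ℕ) - 2*a*a*t^(9:ℕ)*v10^(6:ℕ) : k) = u30 := by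
    linear_combination (norm := skip) (2*t*t*t) * H40
    clear * - hp ht; grind
  subst e
  clear H40
  have e : (2*a*t^(4:ℕ)*v10*v20 - 2*b*t^(4:ℕ)*v10*v10*v10 : k) = u21 := by
    linear_combination (norm := skip) (2*t*t*t) * H31
    clear * - hp ht; grind
  subst e
  clear H31
  have e : (a*t^(5:ℕ)*v20 + 2*b*t^(5:ℕ)*v10*v10 + 2*a*a*t^(11:ℕ)*v10^(4:ℕ) : k) = u12 := by
    linear_combination (norm := skip) (2*t*t*t) * H22
    clear * - hp ht; grind
  subst e
  clear H22
  have e : (-2*b*t^(6:ℕ)*v10 + 2*a*a*t^(12:ℕ)*v10*v10*v10 : k) = u03 := by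
    linear_combination (norm := skip) (2*t*t*t) * H13
    clear * - hp ht; grind
  subst e
  clear H13
  have e : (b*t^(10:ℕ) : k) = B := by
    linear_combination (norm := skip) (t^(6:ℕ)) * H04
    clear * - hp ht; grind
  subst e
  clear H04
  have e : (t*t*t*u31*v10 + t^(4:ℕ)*u40 - a*t^(7:ℕ)*v10*v20*v20 - 2*a*t^(7:ℕ)*v10*v10*v30 +
      b*t^(7:ℕ)*v10*v10*v10*v20 : k) = v31 := by
    linear_combination (norm := skip) (-t*t*t) * J30
    clear * - hp ht; grind
  subst e
  clear J30
  have e : (t*t*t*u22*v10 + t^(4:ℕ)*u31 - 2*a*t^(8:ℕ)*v10*v30 + 2*a*t^(8:ℕ)*v20*v20 - b*t^(8:ℕ)*v10*v10*v20 +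
      2*a*a*t^(14:ℕ)*v10^(4:ℕ)*v20 - a*b*t^(14:ℕ)*v10^(6:ℕ) + 2*a*a*a*t^(20:ℕ)*v10^(8:ℕ) : k) = v22 := by
    linear_combination (norm := skip) (2*t*t*t) * J21
    clear * - hp ht; grind
  subst e
  clear J21
  have e : (t*t*t*u13*v10 + t^(4:ℕ)*u22 + b*t^(9:ℕ)*v10*v20 - a*a*t^(15:ℕ)*v10*v10*v10*v20 -
      2*a*b*t^(15:ℕ)*v10^(5:ℕ) + a*a*a*t^(21:ℕ)*v10^(7:ℕ) : k) = v13 := by
    linear_combination (norm := skip) (-2*t*t*t) * J12
    clear * - hp ht; grind
  subst e
  clear J12
  have e : (t*t*t*u04*v10 + t^(4:ℕ)*u13 - 2*a*a*t^(16:ℕ)*v10*v10*v20 - 2*a*b*t^(16:ℕ)*v10^(4:ℕ) +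
      2*a*a*a*t^(22:ℕ)*v10^(6:ℕ) : k) = v04 := by
    linear_combination (norm := skip) (t*t*t) * J03
    clear * - hp ht; grind
  subst e
  clear J03
  have e : (2*a*t^(4:ℕ)*v10*v30 + a*t^(4:ℕ)*v20*v20 - b*t^(4:ℕ)*v10*v10*v20 : k) = u31 := by
    linear_combination (norm := skip) (2*t*t*t) * H41
    clear * - hp ht; grind
  subst e
  clear H41
  have e : (a*t^(5:ℕ)*v30 - b*t^(5:ℕ)*v10*v20 - 2*a*a*t^(11:ℕ)*v10*v10*v10*v20 + a*b*t^(11:ℕ)*v10^(5:ℕ) -
      2*a*a*a*t^(17:ℕ)*v10^(7:ℕ) : k) = u22 := by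
    linear_combination (norm := skip) (2*t*t*t) * H32
    clear * - hp ht; grind
  subst e
  clear H32
  have e : (-2*b*t^(6:ℕ)*v20 - a*a*t^(12:ℕ)*v10*v10*v20 - 2*a*b*t^(12:ℕ)*v10^(4:ℕ) +
      2*a*a*a*t^(18:ℕ)*v10^(6:ℕ) : k) = u13 := by
    linear_combination (norm := skip) (2*t*t*t) * H23
    clear * - hp ht; grind
  subst e
  clear H23
  have e : (a*a*t^(13:ℕ)*v10*v20 : k) = u04 := by
    linear_combination (norm := skip) (2*t*t*t) * H14
    clear * - hp ht; grind
  subst e
  clear H14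
  have e : (t*t*t*u41*v10 - a*t^(7:ℕ)*v10*v10*v40 + 2*a*t^(7:ℕ)*v20*v20*v20 - 2*b*t^(7:ℕ)*v10*v10*v20*v20 -
      b*t^(7:ℕ)*v10*v10*v10*v30 - 2*a*t^(10:ℕ)*u40*v10*v10*v10 + 2*a*a*t^(13:ℕ)*v10^(4:ℕ)*v20*v20
      - 2*a*b*t^(13:ℕ)*v10^(6:ℕ)*v20 - 2*b*b*t^(13:ℕ)*v10^(8:ℕ) + 2*a*a*a*t^(19:ℕ)*v10^(8:ℕ)*v20
      - a*a*b*t^(19:ℕ)*v10^(10:ℕ) - 2*a^(4:ℕ)*t^(25:ℕ)*v10^(12:ℕ) : k) = v41 := by
    linear_combination (norm := skip) (-t*t*t) * J40
    clear * - hp ht; grind
  subst e
  clear J40
  have e : (t*t*t*u32*v10 - 2*t^(4:ℕ)*u41 - a*t^(8:ℕ)*v10*v40 - 2*b*t^(8:ℕ)*v10*v20*v20 +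
      b*t^(8:ℕ)*v10*v10*v30 - a*t^(11:ℕ)*u40*v10*v10 - a*a*t^(14:ℕ)*v10*v10*v10*v20*v20 -
      2*a*a*t^(14:ℕ)*v10^(4:ℕ)*v30 - 2*a*b*t^(14:ℕ)*v10^(5:ℕ)*v20 + b*b*t^(14:ℕ)*v10^(7:ℕ) +
      2*a*a*a*t^(20:ℕ)*v10^(7:ℕ)*v20 - a*a*b*t^(20:ℕ)*v10^(9:ℕ) : k) = v32 := by
    linear_combination (norm := skip) (2*t*t*t) * J31
    clear * - hp ht; grind
  subst e
  clear J31
  have e : (t*t*t*u23*v10 - t^(4:ℕ)*u32 - b*t^(9:ℕ)*v10*v30 + b*t^(9:ℕ)*v20*v20 + 2*a*t^(12:ℕ)*u40*v10 +
      2*a*a*t^(15:ℕ)*v10*v10*v20*v20 - 2*a*b*t^(15:ℕ)*v10^(4:ℕ)*v20 - 2*b*b*t^(15:ℕ)*v10^(6:ℕ) +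
      a*a*a*t^(21:ℕ)*v10^(6:ℕ)*v20 + 2*a*a*b*t^(21:ℕ)*v10^(8:ℕ) + a^(4:ℕ)*t^(27:ℕ)*v10^(10:ℕ) : k) = v23 := by
    linear_combination (norm := skip) (-2*t*t*t) * J22
    clear * - hp ht; grind
  subst e
  clear J22
  have e : (t*t*t*u14*v10 + 2*t^(4:ℕ)*u23 + a*a*t^(16:ℕ)*v10*v20*v20 + a*b*t^(16:ℕ)*v10*v10*v10*v20 +
      b*b*t^(16:ℕ)*v10^(5:ℕ) + a*a*a*t^(22:ℕ)*v10^(5:ℕ)*v20 - a*a*b*t^(22:ℕ)*v10^(7:ℕ) -
      2*a^(4:ℕ)*t^(28:ℕ)*v10^(9:ℕ) : k) = v14 := by
    linear_combination (norm := skip) (t*t*t) * J13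
    clear * - hp ht; grind
  subst e
  clear J13
  have e : (2*a*a*t^(13:ℕ)*v10*v30 + a*a*t^(13:ℕ)*v20*v20 + 2*b*b*t^(13:ℕ)*v10^(4:ℕ) -
      2*a*a*b*t^(19:ℕ)*v10^(6:ℕ) : k) = u14 := by
    linear_combination (norm := skip) (-ti) * J04
    clear * - hp ht; grind
  subst e
  clear J04
  have e : (2*c*ti*v10*v10 + a*t^(5:ℕ)*v40 - b*t^(5:ℕ)*v10*v30 + 2*b*t^(5:ℕ)*v20*v20 + a*t^(8:ℕ)*u40*v10 +
      a*a*t^(11:ℕ)*v10*v10*v20*v20 + 2*a*a*t^(11:ℕ)*v10*v10*v10*v30 +
      2*a*b*t^(11:ℕ)*v10^(4:ℕ)*v20 - b*b*t^(11:ℕ)*v10^(6:ℕ) - 2*a*a*a*t^(17:ℕ)*v10^(6:ℕ)*v20 +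
      a*a*b*t^(17:ℕ)*v10^(8:ℕ) : k) = u32 := by
    linear_combination (norm := skip) (2*t*t*t) * H42
    clear * - hp ht; grind
  subst e
  clear H42
  have e : (-2*c*v10 - 2*b*t^(6:ℕ)*v30 + a*t^(9:ℕ)*u40 + a*a*t^(12:ℕ)*v10*v20*v20 + a*a*t^(12:ℕ)*v10*v10*v30
      - 2*a*b*t^(12:ℕ)*v10*v10*v10*v20 - b*b*t^(12:ℕ)*v10^(5:ℕ) - 2*a*a*a*t^(18:ℕ)*v10^(5:ℕ)*v20
      + a*a*b*t^(18:ℕ)*v10^(7:ℕ) - a^(4:ℕ)*t^(24:ℕ)*v10^(9:ℕ) : k) = u23 := by
    linear_combination (norm := skip) (2*t*t*t) * H33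
    clear * - hp ht; grind
  subst e
  clear H33
  have e : (c*t^(4:ℕ) : k) = C := by
    linear_combination (norm := skip) (t^(6:ℕ)) * H24
    clear * - hp ht; grind
  subst e
  clear H24
  have e : (t*t*t*u42*v10 - c*t*t*v10*v10*v20 + a*t^(8:ℕ)*v20*v40 - 2*a*t^(8:ℕ)*v30*v30 -
      2*b*t^(8:ℕ)*v10*v10*v40 - b*t^(8:ℕ)*v20*v20*v20 - a*t^(10:ℕ)*u41*v10*v10*v10 -
      a*t^(11:ℕ)*u40*v10*v20 + 2*a*c*t^(8:ℕ)*v10^(6:ℕ) - 2*b*t^(11:ℕ)*u40*v10*v10*v10 -
      2*a*a*t^(14:ℕ)*v10*v10*v20*v20*v20 - a*a*t^(14:ℕ)*v10*v10*v10*v20*v30 -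
      a*a*t^(14:ℕ)*v10^(4:ℕ)*v40 - a*b*t^(14:ℕ)*v10^(4:ℕ)*v20*v20 + a*b*t^(14:ℕ)*v10^(5:ℕ)*v30 +
      2*b*b*t^(14:ℕ)*v10^(6:ℕ)*v20 + 2*a*a*t^(17:ℕ)*u40*v10^(5:ℕ) -
      2*a*a*a*t^(20:ℕ)*v10^(6:ℕ)*v20*v20 + 2*a*a*a*t^(20:ℕ)*v10^(7:ℕ)*v30 +
      2*a*b*b*t^(20:ℕ)*v10^(10:ℕ) - 2*a^(4:ℕ)*t^(26:ℕ)*v10^(10:ℕ)*v20 +
      a*a*a*b*t^(26:ℕ)*v10^(12:ℕ) + 2*a^(5:ℕ)*t^(32:ℕ)*v10^(14:ℕ) : k) = v42 := by
    linear_combination (norm := skip) (2*t*t*t) * J41
    clear * - hp ht; grind
  subst e
  clear J41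
  have e : (t*t*t*u33*v10 + 2*t^(4:ℕ)*u42 + c*t*t*t*v10*v20 + 2*b*t^(9:ℕ)*v10*v40 - a*t^(11:ℕ)*u41*v10*v10 +
      2*a*c*t^(9:ℕ)*v10^(5:ℕ) - b*t^(12:ℕ)*u40*v10*v10 + 2*a*a*t^(15:ℕ)*v10*v10*v20*v30 +
      2*a*a*t^(15:ℕ)*v10*v10*v10*v40 - 2*b*b*t^(15:ℕ)*v10^(5:ℕ)*v20 -
      2*a*a*b*t^(21:ℕ)*v10^(7:ℕ)*v20 + a*b*b*t^(21:ℕ)*v10^(9:ℕ) - a*a*a*b*t^(27:ℕ)*v10^(11:ℕ) : k) = v33 := by
    linear_combination (norm := skip) (-2*t*t*t) * J32
    clear * - hp ht; grind
  subst e
  clear J32
  have e : (t*t*t*u24*v10 - 2*t^(4:ℕ)*u33 + 2*a*t^(12:ℕ)*u41*v10 - 2*b*t^(13:ℕ)*u40*v10 +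
      a*a*t^(16:ℕ)*v10*v20*v30 + 2*a*a*t^(16:ℕ)*v10*v10*v40 - 2*a*a*t^(16:ℕ)*v20*v20*v20 +
      2*a*b*t^(16:ℕ)*v10*v10*v20*v20 + a*b*t^(16:ℕ)*v10*v10*v10*v30 - b*b*t^(16:ℕ)*v10^(4:ℕ)*v20
      + 2*a*a*t^(19:ℕ)*u40*v10*v10*v10 - 2*a*a*a*t^(22:ℕ)*v10^(4:ℕ)*v20*v20 +
      a*a*b*t^(22:ℕ)*v10^(6:ℕ)*v20 - 2*a^(4:ℕ)*t^(28:ℕ)*v10^(8:ℕ)*v20 -
      2*a*a*a*b*t^(28:ℕ)*v10^(10:ℕ) + 2*a^(5:ℕ)*t^(34:ℕ)*v10^(12:ℕ) : k) = v24 := by
    linear_combination (norm := skip) (t*t*t) * J23
    clear * - hp ht; grind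
  subst e
  clear J23
  have e : (-2*a*a*t^(13:ℕ)*v10*v40 - 2*a*a*t^(13:ℕ)*v20*v30 + 2*b*b*t^(13:ℕ)*v10*v10*v10*v20 +
      2*a*a*b*t^(19:ℕ)*v10^(5:ℕ)*v20 - a*b*b*t^(19:ℕ)*v10^(7:ℕ) + a*a*a*b*t^(25:ℕ)*v10^(9:ℕ) : k) = u24 := by
    linear_combination (norm := skip) (2*ti) * J14
    clear * - hp ht; grind
  subst e
  clear J14
  have e : (-2*c*v20 - 2*d*ti*ti*ti*v10 - 2*b*t^(6:ℕ)*v40 + a*t^(8:ℕ)*u41*v10 - a*c*t^(6:ℕ)*v10^(4:ℕ) +
      b*t^(9:ℕ)*u40*v10 - 2*a*a*t^(12:ℕ)*v10*v20*v30 - 2*a*a*t^(12:ℕ)*v10*v10*v40 +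
      2*b*b*t^(12:ℕ)*v10^(4:ℕ)*v20 + 2*a*a*b*t^(18:ℕ)*v10^(6:ℕ)*v20 - a*b*b*t^(18:ℕ)*v10^(8:ℕ) +
      a*a*a*b*t^(24:ℕ)*v10^(10:ℕ) : k) = u33 := by
    linear_combination (norm := skip) (2*t*t*t) * H43
    clear * - hp ht; grind
  subst e
  clear H43
  have e : (d*t - a*t^(12:ℕ)*u41 - 2*a*c*t^(10:ℕ)*v10*v10*v10 - b*t^(13:ℕ)*u40 + 2*a*a*t^(16:ℕ)*v10*v40 +
      2*a*a*t^(16:ℕ)*v20*v30 - 2*b*b*t^(16:ℕ)*v10*v10*v10*v20 - 2*a*a*b*t^(22:ℕ)*v10^(5:ℕ)*v20 +
      a*b*b*t^(22:ℕ)*v10^(7:ℕ) - a*a*a*b*t^(28:ℕ)*v10^(9:ℕ) : k) = D := by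
    linear_combination (norm := skip) (t^(6:ℕ)) * H34
    clear * - hp ht; grind
  subst e
  clear H34
  exact ⟨t, by clear * - hp ht; grind, by ring, by ring, by ring, by rintro rfl rfl; ring⟩

end Pool.Agent.H25

namespace Pool.Agent.H25

variable {k : Type*} [Field k] [hp : CharP k 5]

set_option linter.unusedSimpArgs false

theorem sC1_of {a b c A B C : k}
    (h : Rel (mk 0 0 0 0 0 0 1 0 0 1 a 0 0 0 b c 0 0 0 0 0 0 0 0 0)
      (mk 0 0 0 0 0 0 1 0 0 1 A 0 0 0 B C 0 0 0 0 0 0 0 0 0)) :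
    ∃ s t : k, (s ^ 3 = 1 ∧ t ^ 3 = 1 ∧ A = s * a ∧ B = t * b ∧ C = s * t * c) ∨
      (s ^ 3 = -1 ∧ t ^ 3 = -1 ∧ A = t * b ∧ B = s * a ∧ C = s * t * c) := by
  obtain ⟨φ, cJ, hc, o1, o2, hj, hH⟩ := h.coords
  obtain ⟨u10, u01, u20, u11, u02, u30, u21, u12, u03, u40, u31, u22, u13, u04, u41, u32, u23, u14, u42, u33, u24, u43, u34, u44, hx⟩ := ord1_surj o1
  obtain ⟨v10, v01, v20, v11, v02, v30, v21, v12, v03, v40, v31, v22, v13, v04, v41, v32, v23, v14, v42, v33, v24, v43, v34, v44, hy⟩ := ord1_surj o2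
  obtain ⟨rfl, J10, J01, J20, J11, J02, -, -, -, -, -, -, -, -, -, -, -, -, -, -, -, -, -, -⟩ := jac_eqs hx hy hj
  have e : (mk 0 0 0 0 0 0 1 0 0 1 a 0 0 0 b c 0 0 0 0 0 0 0 0 0 : O k) = m 3 0 + m 0 3 + a • m 4 0 + b • m 0 4 + c • m 4 1 := by
    simp only [m30, m03, m40, m04, m41, mk_smul, mk_add, mul_zero, mul_one, add_zero, zero_add]
  obtain ⟨t30, p30⟩ := pw30 u10 u01 u20 u11 u02 u30 u21 u12 u03 u40 u31 u22 u13 u04 u41 u32 u23 u14 u42 u33 u24 u43 u34 u44 v10 v01 v20 v11 v02 v30 v21 v12 v03 v40 v31 v22 v13 v04 v41 v32 v23 v14 v42 v33 v24 v43 v34 v44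
  obtain ⟨t03, p03⟩ := pw03 u10 u01 u20 u11 u02 u30 u21 u12 u03 u40 u31 u22 u13 u04 u41 u32 u23 u14 u42 u33 u24 u43 u34 u44 v10 v01 v20 v11 v02 v30 v21 v12 v03 v40 v31 v22 v13 v04 v41 v32 v23 v14 v42 v33 v24 v43 v34 v44
  obtain ⟨t40, p40⟩ := pw40 u10 u01 u20 u11 u02 u30 u21 u12 u03 u40 u31 u22 u13 u04 u41 u32 u23 u14 u42 u33 u24 u43 u34 u44 v10 v01 v20 v11 v02 v30 v21 v12 v03 v40 v31 v22 v13 v04 v41 v32 v23 v14 v42 v33 v24 v43 v34 v44
  obtain ⟨t04, p04⟩ := pw04 u10 u01 u20 u11 u02 u30 u21 u12 u03 u40 u31 u22 u13 u04 u41 u32 u23 u14 u42 u33 u24 u43 u34 u44 v10 v01 v20 v11 v02 v30 v21 v12 v03 v40 v31 v22 v13 v04 v41 v32 v23 v14 v42 v33 v24 v43 v34 v44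
  obtain ⟨t41, p41⟩ := pw41 u10 u01 u20 u11 u02 u30 u21 u12 u03 u40 u31 u22 u13 u04 u41 u32 u23 u14 u42 u33 u24 u43 u34 u44 v10 v01 v20 v11 v02 v30 v21 v12 v03 v40 v31 v22 v13 v04 v41 v32 v23 v14 v42 v33 v24 v43 v34 v44
  rw [e] at hH
  simp only [hom_add, hom_smul, hom_m, hx, hy, p30, p03, p40, p04, p41, mk_smul, mk_add] at hH
  rw [mk_inj] at hH
  obtain ⟨-, -, -, -, -, -, H30, H21, H12, H03, H40, H31, H22, H13, H04, H41, H32, H23, H14, -, -, -, -, -, -⟩ := hH
  clear e hx hy hj o1 o2 h φ p30 t30 p03 t03 p40 t40 p04 t04 p41 t41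
  have h1 : u10 * u01 = 0 := by clear * - hp hc H21 H12; grind
  have h2 : v10 * v01 = 0 := by clear * - hp hc H21 H12; grind
  by_cases h0 : u10 = 0
  swap
  · have e : 0 = u01 := by clear * - hp h1 h0; grind
    subst e
    have e : 0 = v10 := by clear * - hp h2 hc; grind
    subst e
    obtain ⟨s, t, hs, ht, h1, h2⟩ : ∃ s t : k, s * s * s = 1 ∧ t * t * t = 1 ∧ s = u10 ∧ t = v01 :=
      ⟨u10, v01, by clear * - hp hc H03; grind, by clear * - hp hc H30; grind, rfl, rfl⟩
    subst h1 h2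
    have e : (-2*s*s*t*u20 : k) = v11 := by
      linear_combination (norm := skip) (-s*s) * J10
      clear * - hp hs ht; grind
    subst e
    clear J10
    have e : (2*s*s*t*u11 : k) = v02 := by
      linear_combination (norm := skip) (2*s*s) * J01
      clear * - hp hs ht; grind
    subst e
    clear J01
    have e : (2*A*s - 2*a*s*s : k) = u20 := by
      linear_combination (norm := skip) (-2*s) * H40
      clear * - hp hs ht; grind
    subst e
    clear H40
    have e : (0 : k) = u11 := by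
      linear_combination (norm := skip) (-2*s) * H31
      clear * - hp hs ht; grind
    subst e
    clear H31
    have e : (-s*t*t*v20 : k) = u02 := by
      linear_combination (norm := skip) (-2*s) * H22
      clear * - hp hs ht; grind
    subst e
    clear H22
    have e : (a*s : k) = A := by
      linear_combination (norm := skip) (-2) * H13
      clear * - hp hs ht; grind
    subst e
    clear H13
    have e : (b*t : k) = B := by
      linear_combination (norm := skip) (1) * H04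
      clear * - hp hs ht; grind
    subst e
    clear H04
    have e : (2*s*s*t*u30 : k) = v21 := by
      linear_combination (norm := skip) (-s*s) * J20
      clear * - hp hs ht; grind
    subst e
    clear J20
    have e : (-s*s*t*u21 - 2*t*t*v20*v20 : k) = v12 := by
      linear_combination (norm := skip) (2*s*s) * J11
      clear * - hp hs ht; grind
    subst e
    clear J11
    have e : (-2*s*s*t*u12 : k) = v03 := by
      linear_combination (norm := skip) (-2*s*s) * J02
      clear * - hp hs ht; grind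
    subst e
    clear J02
    have e : (2*C*s - 2*c*s*s*t - s*t*v20*v20 : k) = u21 := by
      linear_combination (norm := skip) (-2*s) * H41
      clear * - hp hs ht; grind
    subst e
    clear H41
    have e : (-s*t*t*v30 - 2*a*s*s*t*t*v20 : k) = u12 := by
      linear_combination (norm := skip) (-2*s) * H32
      clear * - hp hs ht; grind
    subst e
    clear H32
    have e : (-2*u30 + 2*b*s*v20 : k) = u03 := by
      linear_combination (norm := skip) (-2*s) * H23
      clear * - hp hs ht; grind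
    subst e
    clear H23
    have e : (c*s*t : k) = C := by
      linear_combination (norm := skip) (1) * H14
      clear * - hp hs ht; grind
    subst e
    clear H14
    exact ⟨s, t, Or.inl ⟨by clear * - hp hs; grind, by clear * - hp ht; grind, by ring, by ring, by ring⟩⟩
  · subst h0
    have e : 0 = v01 := by clear * - hp h2 hc; grind
    subst e
    obtain ⟨s, t, hs, ht, h1, h2⟩ : ∃ s t : k, s * s * s = -1 ∧ t * t * t = -1 ∧ s = u01 ∧ t = v10 :=
      ⟨u01, v10, by clear * - hp hc H30; grind, by clear * - hp hc H03; grind, rfl, rfl⟩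
    subst h1 h2
    have e : (2*s*t*t*v20 : k) = u11 := by
      linear_combination (norm := skip) (-t*t) * J10
      clear * - hp hs ht; grind
    subst e
    clear J10
    have e : (-2*s*t*t*v11 : k) = u02 := by
      linear_combination (norm := skip) (2*t*t) * J01
      clear * - hp hs ht; grind
    subst e
    clear J01
    have e : (2*A*t - 2*b*t*t : k) = v20 := by
      linear_combination (norm := skip) (2*t) * H40
      clear * - hp hs ht; grind
    subst e
    clear H40
    have e : (0 : k) = v11 := by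
      linear_combination (norm := skip) (2*t) * H31
      clear * - hp hs ht; grind
    subst e
    clear H31
    have e : (s*s*t*u20 : k) = v02 := by
      linear_combination (norm := skip) (2*t) * H22
      clear * - hp hs ht; grind
    subst e
    clear H22
    have e : (b*t : k) = A := by
      linear_combination (norm := skip) (2) * H13
      clear * - hp hs ht; grind
    subst e
    clear H13
    have e : (a*s : k) = B := by
      linear_combination (norm := skip) (-1) * H04
      clear * - hp hs ht; grind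
    subst e
    clear H04
    have e : (-2*s*t*t*v30 : k) = u21 := by
      linear_combination (norm := skip) (-t*t) * J20
      clear * - hp hs ht; grind
    subst e
    clear J20
    have e : (s*t*t*v21 + 2*s*s*u20*u20 : k) = u12 := by
      linear_combination (norm := skip) (2*t*t) * J11
      clear * - hp hs ht; grind
    subst e
    clear J11
    have e : (2*s*t*t*v12 : k) = u03 := by
      linear_combination (norm := skip) (-2*t*t) * J02
      clear * - hp hs ht; grind
    subst e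
    clear J02
    have e : (2*C*t + s*t*u20*u20 : k) = v21 := by
      linear_combination (norm := skip) (2*t) * H41
      clear * - hp hs ht; grind
    subst e
    clear H41
    have e : (s*s*t*u30 + 2*b*s*s*t*t*u20 : k) = v12 := by
      linear_combination (norm := skip) (2*t) * H32
      clear * - hp hs ht; grind
    subst e
    clear H32
    have e : (-2*v30 + 2*a*t*u20 : k) = v03 := by
      linear_combination (norm := skip) (2*t) * H23
      clear * - hp hs ht; grind
    subst e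
    clear H23
    have e : (c*s*t : k) = C := by
      linear_combination (norm := skip) (-1) * H14
      clear * - hp hs ht; grind
    subst e
    clear H14
    exact ⟨s, t, Or.inr ⟨by clear * - hp hs; grind, by clear * - hp ht; grind, by ring, by ring, by ring⟩⟩

theorem sC2_of {a b c A B C : k}
    (h : Rel (mk 0 0 0 0 0 0 0 1 0 0 0 b 0 0 a 0 0 c 0 0 0 0 0 0 0)
      (mk 0 0 0 0 0 0 0 1 0 0 0 B 0 0 A 0 0 C 0 0 0 0 0 0 0)) :
    ∃ t : k, t ≠ 0 ∧ A = t ^ 7 * a ∧ B = t⁻¹ ^ 2 * b ∧ C = t ^ 2 * c := by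
  obtain ⟨φ, cJ, hc, o1, o2, hj, hH⟩ := h.coords
  obtain ⟨u10, u01, u20, u11, u02, u30, u21, u12, u03, u40, u31, u22, u13, u04, u41, u32, u23, u14, u42, u33, u24, u43, u34, u44, hx⟩ := ord1_surj o1
  obtain ⟨v10, v01, v20, v11, v02, v30, v21, v12, v03, v40, v31, v22, v13, v04, v41, v32, v23, v14, v42, v33, v24, v43, v34, v44, hy⟩ := ord1_surj o2
  obtain ⟨rfl, J10, J01, J20, J11, J02, -, -, -, -, -, -, -, -, -, -, -, -, -, -, -, -, -, -⟩ := jac_eqs hx hy hj
  have e : (mk 0 0 0 0 0 0 0 1 0 0 0 b 0 0 a 0 0 c 0 0 0 0 0 0 0 : O k) = m 2 1 + b • m 3 1 + a • m 0 4 + c • m 2 3 := by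
    simp only [m21, m31, m04, m23, mk_smul, mk_add, mul_zero, mul_one, add_zero, zero_add]
  obtain ⟨t21, p21⟩ := pw21 u10 u01 u20 u11 u02 u30 u21 u12 u03 u40 u31 u22 u13 u04 u41 u32 u23 u14 u42 u33 u24 u43 u34 u44 v10 v01 v20 v11 v02 v30 v21 v12 v03 v40 v31 v22 v13 v04 v41 v32 v23 v14 v42 v33 v24 v43 v34 v44
  obtain ⟨t31, p31⟩ := pw31 u10 u01 u20 u11 u02 u30 u21 u12 u03 u40 u31 u22 u13 u04 u41 u32 u23 u14 u42 u33 u24 u43 u34 u44 v10 v01 v20 v11 v02 v30 v21 v12 v03 v40 v31 v22 v13 v04 v41 v32 v23 v14 v42 v33 v24 v43 v34 v44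
  obtain ⟨t04, p04⟩ := pw04 u10 u01 u20 u11 u02 u30 u21 u12 u03 u40 u31 u22 u13 u04 u41 u32 u23 u14 u42 u33 u24 u43 u34 u44 v10 v01 v20 v11 v02 v30 v21 v12 v03 v40 v31 v22 v13 v04 v41 v32 v23 v14 v42 v33 v24 v43 v34 v44
  obtain ⟨t23, p23⟩ := pw23 u10 u01 u20 u11 u02 u30 u21 u12 u03 u40 u31 u22 u13 u04 u41 u32 u23 u14 u42 u33 u24 u43 u34 u44 v10 v01 v20 v11 v02 v30 v21 v12 v03 v40 v31 v22 v13 v04 v41 v32 v23 v14 v42 v33 v24 v43 v34 v44
  rw [e] at hH
  simp only [hom_add, hom_smul, hom_m, hx, hy, p21, p31, p04, p23, mk_smul, mk_add] at hH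
  rw [mk_inj] at hH
  obtain ⟨-, -, -, -, -, -, H30, H21, H12, H03, H40, H31, H22, H13, H04, H41, H32, H23, H14, -, -, -, -, -, -⟩ := hH
  clear e hx hy hj o1 o2 h φ p21 t21 p31 t31 p04 t04 p23 t23
  have h0 : u10 ≠ 0 := by clear * - hp hc H21; grind
  have e : 0 = v10 := by clear * - hp h0 H30; grind
  subst e
  have e : 0 = u01 := by clear * - hp hc H03; grind
  subst e
  obtain ⟨t, ti, ht, h1, h2⟩ : ∃ t ti : k, t * ti = 1 ∧ ti * ti = u10 ∧ t = v01 :=
    ⟨v01, u10 * v01, by clear * - hp hc H21; grind, by clear * - hp hc H21; grind, rfl⟩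
  subst h1 h2
  have e : (-2*t*t*t*u20 : k) = v11 := by
    linear_combination (norm := skip) (-t*t) * J10
    clear * - hp ht; grind
  subst e
  clear J10
  have e : (2*t*t*t*u11 : k) = v02 := by
    linear_combination (norm := skip) (2*t*t) * J01
    clear * - hp ht; grind
  subst e
  clear J01
  have e : (0 : k) = v20 := by
    linear_combination (norm := skip) (-t^(4:ℕ)) * H40
    clear * - hp ht; grind
  subst e
  clear H40
  have e : (b*ti*ti : k) = B := by
    linear_combination (norm := skip) (t*t*t) * H31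
    clear * - hp ht; grind
  subst e
  clear H31
  have e : (0 : k) = u11 := by
    linear_combination (norm := skip) (t) * H22
    clear * - hp ht; grind
  subst e
  clear H22
  have e : (0 : k) = u02 := by
    linear_combination (norm := skip) (2*t) * H13
    clear * - hp ht; grind
  subst e
  clear H13
  have e : (a*t^(7:ℕ) : k) = A := by
    linear_combination (norm := skip) (t*t*t) * H04
    clear * - hp ht; grind
  subst e
  clear H04
  have e : (2*t*t*t*u30 - t^(5:ℕ)*u20*u20 : k) = v21 := by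
    linear_combination (norm := skip) (-t*t) * J20
    clear * - hp ht; grind
  subst e
  clear J20
  have e : (-t*t*t*u21 : k) = v12 := by
    linear_combination (norm := skip) (2*t*t) * J11
    clear * - hp ht; grind
  subst e
  clear J11
  have e : (-2*t*t*t*u12 : k) = v03 := by
    linear_combination (norm := skip) (-2*t*t) * J02
    clear * - hp ht; grind
  subst e
  clear J02
  have e : (b*ti*ti*u20 + t*t*u20*u20 : k) = u30 := by
    linear_combination (norm := skip) (t) * H41
    clear * - hp ht; grind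
  subst e
  clear H41
  have e : (0 : k) = u21 := by
    linear_combination (norm := skip) (-t) * H32
    clear * - hp ht; grind
  subst e
  clear H32
  have e : (c*t*t : k) = C := by
    linear_combination (norm := skip) (t*t*t) * H23
    clear * - hp ht; grind
  subst e
  clear H23
  have e : (-a*t^(7:ℕ)*u20 : k) = u03 := by
    linear_combination (norm := skip) (2*t) * H14
    clear * - hp ht; grind
  subst e
  clear H14
  exact ⟨t, by clear * - hp ht; grind, by ring, by rw [← eq_inv_of_mul_eq_one_right ht]; ring, by ring⟩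

end Pool.Agent.H25
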