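import Pool.Agent.P.MP_c9b50d_al.H.Tab

namespace Pool.Agent.H25

variable {k : Type*} [Field k] [hp : CharP k 5]

set_option linter.unusedSimpArgs false

theorem sC3_of {a b c d A B C D : k}
    (h : Rel (mk 0 0 0 0 0 0 1 0 0 0 0 0 0 b a 0 0 0 c 0 0 0 0 d 0)
      (mk 0 0 0 0 0 0 1 0 0 0 0 0 0 B A 0 0 0 C 0 0 0 0 D 0)) :
    ∃ s t : k, s ≠ 0 ∧ t ^ 3 = 1 ∧ A = s ^ 3 * t * a ∧ C = s ^ 2 * t * c ∧
      (a = 0 → B = s ^ 2 * b) ∧ (a = 0 → b = 0 → c = 0 → D = t * d) := by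
  obtain ⟨φ, cJ, hc, o1, o2, hj, hH⟩ := h.coords
  obtain ⟨u10, u01, u20, u11, u02, u30, u21, u12, u03, u40, u31, u22, u13, u04, u41, u32, u23, u14, u42, u33, u24, u43, u34, u44, hx⟩ := ord1_surj o1
  obtain ⟨v10, v01, v20, v11, v02, v30, v21, v12, v03, v40, v31, v22, v13, v04, v41, v32, v23, v14, v42, v33, v24, v43, v34, v44, hy⟩ := ord1_surj o2
  obtain ⟨rfl, J10, J01, J20, J11, J02, J30, J21, J12, J03, J40, J31, J22, J13, J04, -, -, -, -, -, -, -, -, -⟩ := jac_eqs hx hy hj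
  have e : (mk 0 0 0 0 0 0 1 0 0 0 0 0 0 b a 0 0 0 c 0 0 0 0 d 0 : O k) = m 3 0 + b • m 1 3 + a • m 0 4 + c • m 1 4 + d • m 3 4 := by
    simp only [m30, m13, m04, m14, m34, mk_smul, mk_add, mul_zero, mul_one, add_zero, zero_add]
  obtain ⟨t30, p30⟩ := pw30 u10 u01 u20 u11 u02 u30 u21 u12 u03 u40 u31 u22 u13 u04 u41 u32 u23 u14 u42 u33 u24 u43 u34 u44 v10 v01 v20 v11 v02 v30 v21 v12 v03 v40 v31 v22 v13 v04 v41 v32 v23 v14 v42 v33 v24 v43 v34 v44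
  obtain ⟨t13, p13⟩ := pw13 u10 u01 u20 u11 u02 u30 u21 u12 u03 u40 u31 u22 u13 u04 u41 u32 u23 u14 u42 u33 u24 u43 u34 u44 v10 v01 v20 v11 v02 v30 v21 v12 v03 v40 v31 v22 v13 v04 v41 v32 v23 v14 v42 v33 v24 v43 v34 v44
  obtain ⟨t04, p04⟩ := pw04 u10 u01 u20 u11 u02 u30 u21 u12 u03 u40 u31 u22 u13 u04 u41 u32 u23 u14 u42 u33 u24 u43 u34 u44 v10 v01 v20 v11 v02 v30 v21 v12 v03 v40 v31 v22 v13 v04 v41 v32 v23 v14 v42 v33 v24 v43 v34 v44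
  obtain ⟨t14, p14⟩ := pw14 u10 u01 u20 u11 u02 u30 u21 u12 u03 u40 u31 u22 u13 u04 u41 u32 u23 u14 u42 u33 u24 u43 u34 u44 v10 v01 v20 v11 v02 v30 v21 v12 v03 v40 v31 v22 v13 v04 v41 v32 v23 v14 v42 v33 v24 v43 v34 v44
  obtain ⟨t34, p34⟩ := pw34 u10 u01 u20 u11 u02 u30 u21 u12 u03 u40 u31 u22 u13 u04 u41 u32 u23 u14 u42 u33 u24 u43 u34 u44 v10 v01 v20 v11 v02 v30 v21 v12 v03 v40 v31 v22 v13 v04 v41 v32 v23 v14 v42 v33 v24 v43 v34 v44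
  rw [e] at hH
  simp only [hom_add, hom_smul, hom_m, hx, hy, p30, p13, p04, p14, p34, mk_smul, mk_add] at hH
  rw [mk_inj] at hH
  obtain ⟨-, -, -, -, -, -, H30, H21, H12, H03, H40, H31, H22, H13, H04, H41, H32, H23, H14, H42, H33, H24, H43, H34, -⟩ := hH
  clear e hx hy hj o1 o2 h φ p30 t30 p13 t13 p04 t04 p14 t14 p34 t34
  have e : 0 = u01 := by clear * - hp H03; grind
  subst e
  have h0 : u10 ≠ 0 := by clear * - hp hc; grind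
  obtain ⟨s, si, t, hs, ht, h1, h2⟩ : ∃ s si t : k, s * si = 1 ∧ t * t * t = 1 ∧ s = u10 ∧ t = v01 :=
    ⟨u10, u10⁻¹, v01, mul_inv_cancel₀ h0, by clear * - hp hc H30; grind, rfl, rfl⟩
  subst h1 h2
  have e : (-2*si*t*u20 + si*u11*v10 : k) = v11 := by
    linear_combination (norm := skip) (-si) * J10
    clear * - hp hs ht; grind
  subst e
  clear J10
  have e : (2*si*t*u11 + si*u02*v10 : k) = v02 := by
    linear_combination (norm := skip) (2*si) * J01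
    clear * - hp hs ht; grind
  subst e
  clear J01
  have e : (-2*b*si*v10*v10*v10 - 2*a*si*si*v10^(4:ℕ) : k) = u20 := by
    linear_combination (norm := skip) (-2*si*si) * H40
    clear * - hp hs ht; grind
  subst e
  clear H40
  have e : (-b*si*t*v10*v10 + 2*a*si*si*t*v10*v10*v10 : k) = u11 := by
    linear_combination (norm := skip) (-2*si*si) * H31
    clear * - hp hs ht; grind
  subst e
  clear H31
  have e : (-b*si*t*t*v10 - 2*a*si*si*t*t*v10*v10 : k) = u02 := by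
    linear_combination (norm := skip) (-2*si*si) * H22
    clear * - hp hs ht; grind
  subst e
  clear H22
  have e : (b*si*si - a*si*si*si*v10 : k) = B := by
    linear_combination (norm := skip) (si*si*si) * H13
    clear * - hp hs ht; grind
  subst e
  clear H13
  have e : (a*si*si*si*t : k) = A := by
    linear_combination (norm := skip) (si*si*si) * H04
    clear * - hp hs ht; grind
  subst e
  clear H04
  have e : (2*si*t*u30 + si*u21*v10 - 2*b*si*si*t*v10*v10*v20 - a*si*si*si*t*v10*v10*v10*v20 +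
      2*b*b*si^(4:ℕ)*t*v10^(6:ℕ) + a*b*si^(5:ℕ)*t*v10^(7:ℕ) - a*a*si^(6:ℕ)*t*v10^(8:ℕ) : k) = v21 := by
    linear_combination (norm := skip) (-si) * J20
    clear * - hp hs ht; grind
  subst e
  clear J20
  have e : (-si*t*u21 + si*u12*v10 - 2*b*si*si*t*t*v10*v20 + a*si*si*si*t*t*v10*v10*v20 -
      2*b*b*si^(4:ℕ)*t*t*v10^(5:ℕ) + a*b*si^(5:ℕ)*t*t*v10^(6:ℕ) - 2*a*a*si^(6:ℕ)*t*t*v10^(7:ℕ) : k) = v12 := by
    linear_combination (norm := skip) (2*si) * J11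
    clear * - hp hs ht; grind
  subst e
  clear J11
  have e : (-2*si*t*u12 + si*u03*v10 + b*b*si^(4:ℕ)*v10^(4:ℕ) - a*b*si^(5:ℕ)*v10^(5:ℕ) +
      a*a*si^(6:ℕ)*v10^(6:ℕ) : k) = v03 := by
    linear_combination (norm := skip) (-2*si) * J02
    clear * - hp hs ht; grind
  subst e
  clear J02
  have e : (-2*b*si*t*v10*v20 + 2*c*si*t*v10*v10*v10 + a*si*si*t*v10*v10*v20 + 2*b*b*si*si*si*t*v10^(5:ℕ) +
      2*a*b*si^(4:ℕ)*t*v10^(6:ℕ) : k) = u21 := by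
    linear_combination (norm := skip) (-2*si*si) * H41
    clear * - hp hs ht; grind
  subst e
  clear H41
  have e : (-b*si*t*t*v20 - 2*c*si*t*t*v10*v10 + a*si*si*t*t*v10*v20 + 2*b*b*si*si*si*t*t*v10^(4:ℕ) -
      a*b*si^(4:ℕ)*t*t*v10^(5:ℕ) - 2*a*a*si^(5:ℕ)*t*t*v10^(6:ℕ) : k) = u12 := by
    linear_combination (norm := skip) (-2*si*si) * H32
    clear * - hp hs ht; grind
  subst e
  clear H32
  have e : (2*c*si*v10 + 2*a*si*si*v20 + 2*b*b*si*si*si*v10*v10*v10 - a*b*si^(4:ℕ)*v10^(4:ℕ) +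
      a*a*si^(5:ℕ)*v10^(5:ℕ) : k) = u03 := by
    linear_combination (norm := skip) (-2*si*si) * H23
    clear * - hp hs ht; grind
  subst e
  clear H23
  have e : (c*si*si*t : k) = C := by
    linear_combination (norm := skip) (si*si*si) * H14
    clear * - hp hs ht; grind
  subst e
  clear H14
  have e : (si*t*u40 + si*u31*v10 + b*si*si*t*v10*v20*v20 + 2*b*si*si*t*v10*v10*v30 -
      c*si*si*t*v10*v10*v10*v20 + 2*a*si*si*si*t*v10*v10*v20*v20 + a*si*si*si*t*v10*v10*v10*v30 -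
      b*si*si*si*t*u30*v10*v10*v10 - 2*b*b*si^(4:ℕ)*t*v10^(5:ℕ)*v20 - 2*b*c*si^(4:ℕ)*t*v10^(7:ℕ)
      - 2*a*b*si^(5:ℕ)*t*v10^(6:ℕ)*v20 - 2*a*c*si^(5:ℕ)*t*v10^(8:ℕ) + b*b*b*si^(6:ℕ)*t*v10^(9:ℕ)
      - 2*a*b*b*si^(7:ℕ)*t*v10^(10:ℕ) - 2*a*a*b*si^(8:ℕ)*t*v10^(11:ℕ) +
      a*a*a*si^(9:ℕ)*t*v10^(12:ℕ) : k) = v31 := by
    linear_combination (norm := skip) (-si) * J30
    clear * - hp hs ht; grind
  subst e
  clear J30
  have e : (si*t*u31 + si*u22*v10 + 2*b*si*si*t*t*v10*v30 - 2*b*si*si*t*t*v20*v20 + c*si*si*t*t*v10*v10*v20 +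
      2*a*si*si*si*t*t*v10*v20*v20 - a*si*si*si*t*t*v10*v10*v30 - 2*b*si*si*si*t*t*u30*v10*v10 +
      a*si^(4:ℕ)*t*t*u30*v10*v10*v10 + a*b*si^(5:ℕ)*t*t*v10^(5:ℕ)*v20 +
      2*a*a*si^(6:ℕ)*t*t*v10^(6:ℕ)*v20 + 2*b*b*b*si^(6:ℕ)*t*t*v10^(8:ℕ) +
      a*a*b*si^(8:ℕ)*t*t*v10^(10:ℕ) - 2*a*a*a*si^(9:ℕ)*t*t*v10^(11:ℕ) : k) = v22 := by
    linear_combination (norm := skip) (2*si) * J21
    clear * - hp hs ht; grind
  subst e
  clear J21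
  have e : (si*t*u22 + si*u13*v10 - c*si*si*v10*v20 - a*si*si*si*v20*v20 - b*si*si*si*u30*v10 -
      2*a*si^(4:ℕ)*u30*v10*v10 - 2*b*b*si^(4:ℕ)*v10*v10*v10*v20 + b*c*si^(4:ℕ)*v10^(5:ℕ) +
      a*b*si^(5:ℕ)*v10^(4:ℕ)*v20 + 2*a*c*si^(5:ℕ)*v10^(6:ℕ) - a*a*si^(6:ℕ)*v10^(5:ℕ)*v20 +
      a*b*b*si^(7:ℕ)*v10^(8:ℕ) - 2*a*a*b*si^(8:ℕ)*v10^(9:ℕ) + 2*a*a*a*si^(9:ℕ)*v10^(10:ℕ) : k) = v13 := by
    linear_combination (norm := skip) (-2*si) * J12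
    clear * - hp hs ht; grind
  subst e
  clear J12
  have e : (si*t*u13 + si*u04*v10 - 2*b*b*si^(4:ℕ)*t*v10*v10*v20 - 2*b*c*si^(4:ℕ)*t*v10^(4:ℕ) +
      2*a*b*si^(5:ℕ)*t*v10*v10*v10*v20 + a*c*si^(5:ℕ)*t*v10^(5:ℕ) +
      2*a*a*si^(6:ℕ)*t*v10^(4:ℕ)*v20 - b*b*b*si^(6:ℕ)*t*v10^(6:ℕ) - a*b*b*si^(7:ℕ)*t*v10^(7:ℕ) -
      2*a*a*b*si^(8:ℕ)*t*v10^(8:ℕ) - a*a*a*si^(9:ℕ)*t*v10^(9:ℕ) : k) = v04 := by
    linear_combination (norm := skip) (si) * J03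
    clear * - hp hs ht; grind
  subst e
  clear J03
  have e : (-b*si*t*t*v30 + c*si*t*t*v10*v20 + a*si*si*t*t*v10*v30 - 2*a*si*si*t*t*v20*v20 +
      2*b*si*si*t*t*u30*v10 + a*si*si*si*t*t*u30*v10*v10 - b*c*si*si*si*t*t*v10^(5:ℕ) +
      2*a*b*si^(4:ℕ)*t*t*v10^(4:ℕ)*v20 + a*a*si^(5:ℕ)*t*t*v10^(5:ℕ)*v20 +
      b*b*b*si^(5:ℕ)*t*t*v10^(7:ℕ) + a*b*b*si^(6:ℕ)*t*t*v10^(8:ℕ) +
      2*a*a*b*si^(7:ℕ)*t*t*v10^(9:ℕ) + 2*a*a*a*si^(8:ℕ)*t*t*v10^(10:ℕ) : k) = u22 := by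
    linear_combination (norm := skip) (-2*si*si) * H42
    clear * - hp hs ht; grind
  subst e
  clear H42
  have e : (2*c*si*v20 + 2*a*si*si*v30 + b*si*si*u30 + 2*a*si*si*si*u30*v10 - a*b*si^(4:ℕ)*v10*v10*v10*v20 -
      a*a*si^(5:ℕ)*v10^(4:ℕ)*v20 - b*b*b*si^(5:ℕ)*v10^(6:ℕ) + 2*a*b*b*si^(6:ℕ)*v10^(7:ℕ) -
      2*a*a*b*si^(7:ℕ)*v10^(8:ℕ) : k) = u13 := by
    linear_combination (norm := skip) (-2*si*si) * H33
    clear * - hp hs ht; grind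
  subst e
  clear H33
  have e : (-a*si*si*si*t*u30 + b*b*si*si*si*t*v10*v20 - 2*a*b*si^(4:ℕ)*t*v10*v10*v20 +
      a*c*si^(4:ℕ)*t*v10^(4:ℕ) - a*a*si^(5:ℕ)*t*v10*v10*v10*v20 - a*a*b*si^(7:ℕ)*t*v10^(7:ℕ) -
      2*a*a*a*si^(8:ℕ)*t*v10^(8:ℕ) : k) = u04 := by
    linear_combination (norm := skip) (-2*si*si) * H24
    clear * - hp hs ht; grind
  subst e
  clear H24
  have e : (2*si*u31*v20 + si*u41*v10 - si*si*t*u30*u30 - b*si*si*t*v10*v20*v30 + b*si*si*t*v10*v10*v40 +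
      c*si*si*t*v10*v10*v10*v30 - 2*a*si*si*si*t*v10*v10*v20*v30 - 2*a*si*si*si*t*v10*v10*v10*v40
      + 2*b*si*si*si*t*u30*v10*v10*v20 + 2*b*si*si*si*t*u40*v10*v10*v10 -
      b*si*si*si*u31*v10^(4:ℕ) - c*si*si*si*t*u30*v10^(4:ℕ) - a*si^(4:ℕ)*u31*v10^(5:ℕ) -
      b*b*si^(4:ℕ)*t*v10^(4:ℕ)*v20*v20 - b*b*si^(4:ℕ)*t*v10^(5:ℕ)*v30 +
      b*c*si^(4:ℕ)*t*v10^(6:ℕ)*v20 + 2*a*b*si^(5:ℕ)*t*v10^(5:ℕ)*v20*v20 -
      2*a*b*si^(5:ℕ)*t*v10^(6:ℕ)*v30 - b*b*si^(5:ℕ)*t*u30*v10^(6:ℕ) +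
      a*c*si^(5:ℕ)*t*v10^(7:ℕ)*v20 + 2*a*b*si^(6:ℕ)*t*u30*v10^(7:ℕ) -
      2*a*a*si^(6:ℕ)*t*v10^(6:ℕ)*v20*v20 - a*a*si^(6:ℕ)*t*v10^(7:ℕ)*v30 -
      2*a*a*si^(7:ℕ)*t*u30*v10^(8:ℕ) + 2*b*b*b*si^(6:ℕ)*t*v10^(8:ℕ)*v20 +
      2*b*b*c*si^(6:ℕ)*t*v10^(10:ℕ) - a*b*b*si^(7:ℕ)*t*v10^(9:ℕ)*v20 -
      a*b*c*si^(7:ℕ)*t*v10^(11:ℕ) + 2*a*a*b*si^(8:ℕ)*t*v10^(10:ℕ)*v20 +
      2*a*a*c*si^(8:ℕ)*t*v10^(12:ℕ) - b^(4:ℕ)*si^(8:ℕ)*t*v10^(12:ℕ) +
      a*b*b*b*si^(9:ℕ)*t*v10^(13:ℕ) - a*a*b*b*si^(10:ℕ)*t*v10^(14:ℕ) +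
      a*a*a*b*si^(11:ℕ)*t*v10^(15:ℕ) - a^(4:ℕ)*si^(12:ℕ)*t*v10^(16:ℕ) : k) = v41 := by
    linear_combination (norm := skip) (-si) * J40
    clear * - hp hs ht; grind
  subst e
  clear J40
  have e : (-2*si*t*u41 + si*u32*v10 + b*si*si*t*t*v10*v40 + 2*c*si*si*t*t*v10*v20*v20 -
      c*si*si*t*t*v10*v10*v30 + 2*a*si*si*si*t*t*v10*v10*v40 + a*si*si*si*t*t*v20*v20*v20 +
      2*b*si*si*si*t*t*u30*v10*v20 + b*si*si*si*t*t*u40*v10*v10 +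
      2*c*si*si*si*t*t*u30*v10*v10*v10 - a*si^(4:ℕ)*t*t*u30*v10*v10*v20 -
      a*si^(4:ℕ)*t*t*u40*v10*v10*v10 + b*b*si^(4:ℕ)*t*t*v10*v10*v10*v20*v20 -
      2*b*b*si^(4:ℕ)*t*t*v10^(4:ℕ)*v30 + 2*b*c*si^(4:ℕ)*t*t*v10^(5:ℕ)*v20 +
      a*b*si^(5:ℕ)*t*t*v10^(4:ℕ)*v20*v20 - a*b*si^(5:ℕ)*t*t*v10^(5:ℕ)*v30 +
      2*b*b*si^(5:ℕ)*t*t*u30*v10^(5:ℕ) + a*c*si^(5:ℕ)*t*t*v10^(6:ℕ)*v20 +
      2*a*b*si^(6:ℕ)*t*t*u30*v10^(6:ℕ) + a*a*si^(6:ℕ)*t*t*v10^(5:ℕ)*v20*v20 +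
      a*a*si^(6:ℕ)*t*t*v10^(6:ℕ)*v30 - b*b*b*si^(6:ℕ)*t*t*v10^(7:ℕ)*v20 -
      2*b*b*c*si^(6:ℕ)*t*t*v10^(9:ℕ) + 2*a*b*b*si^(7:ℕ)*t*t*v10^(8:ℕ)*v20 -
      a*b*c*si^(7:ℕ)*t*t*v10^(10:ℕ) - a*a*b*si^(8:ℕ)*t*t*v10^(9:ℕ)*v20 +
      a*a*c*si^(8:ℕ)*t*t*v10^(11:ℕ) + a*a*a*si^(9:ℕ)*t*t*v10^(10:ℕ)*v20 +
      b^(4:ℕ)*si^(8:ℕ)*t*t*v10^(11:ℕ) - a*a*b*b*si^(10:ℕ)*t*t*v10^(13:ℕ) +
      2*a*a*a*b*si^(11:ℕ)*t*t*v10^(14:ℕ) + 2*a^(4:ℕ)*si^(12:ℕ)*t*t*v10^(15:ℕ) : k) = v32 := by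
    linear_combination (norm := skip) (2*si) * J31
    clear * - hp hs ht; grind
  subst e
  clear J31
  have e : (-si*t*u32 + si*u23*v10 + c*si*si*v10*v30 - c*si*si*v20*v20 - b*si*si*si*u30*v20 -
      2*b*si*si*si*u40*v10 - 2*c*si*si*si*u30*v10*v10 + a*si^(4:ℕ)*u30*v10*v20 +
      a*si^(4:ℕ)*u40*v10*v10 - b*si*si*si*t*t*u31*v10*v10 - 2*b*b*si^(4:ℕ)*v10*v10*v10*v30 +
      2*a*si^(4:ℕ)*t*t*u31*v10*v10*v10 + 2*a*b*si^(5:ℕ)*v10*v10*v10*v20*v20 +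
      2*b*b*si^(5:ℕ)*u30*v10^(4:ℕ) - c*c*si^(4:ℕ)*v10^(6:ℕ) + a*c*si^(5:ℕ)*v10^(5:ℕ)*v20 -
      a*b*si^(6:ℕ)*u30*v10^(5:ℕ) + 2*a*a*si^(6:ℕ)*v10^(4:ℕ)*v20*v20 + a*a*si^(6:ℕ)*v10^(5:ℕ)*v30
      + 2*a*a*si^(7:ℕ)*u30*v10^(6:ℕ) + 2*b*b*c*si^(6:ℕ)*v10^(8:ℕ) - a*b*b*si^(7:ℕ)*v10^(7:ℕ)*v20
      - a*b*c*si^(7:ℕ)*v10^(9:ℕ) + 2*a*a*b*si^(8:ℕ)*v10^(8:ℕ)*v20 + 2*a*a*c*si^(8:ℕ)*v10^(10:ℕ) -
      a*a*a*si^(9:ℕ)*v10^(9:ℕ)*v20 + a*b*b*b*si^(9:ℕ)*v10^(11:ℕ) - a*a*b*b*si^(10:ℕ)*v10^(12:ℕ) +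
      2*a*a*a*b*si^(11:ℕ)*v10^(13:ℕ) - a^(4:ℕ)*si^(12:ℕ)*v10^(14:ℕ) : k) = v23 := by
    linear_combination (norm := skip) (-2*si) * J22
    clear * - hp hs ht; grind
  subst e
  clear J22
  have e : (2*si*t*u23 + si*u14*v10 - b*si*si*si*u31*v10 + c*si*si*si*t*u30*v10 - a*si^(4:ℕ)*t*u30*v20 -
      2*a*si^(4:ℕ)*u31*v10*v10 - 2*b*b*si^(4:ℕ)*t*v10*v10*v30 - 2*b*c*si^(4:ℕ)*t*v10*v10*v10*v20
      - a*b*si^(5:ℕ)*t*v10*v10*v10*v30 + b*b*si^(5:ℕ)*t*u30*v10*v10*v10 -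
      2*c*c*si^(4:ℕ)*t*v10^(5:ℕ) - a*b*si^(6:ℕ)*t*u30*v10^(4:ℕ) - a*a*si^(6:ℕ)*t*v10^(4:ℕ)*v30 +
      a*a*si^(7:ℕ)*t*u30*v10^(5:ℕ) - b*b*b*si^(6:ℕ)*t*v10^(5:ℕ)*v20 -
      2*b*b*c*si^(6:ℕ)*t*v10^(7:ℕ) - 2*a*b*c*si^(7:ℕ)*t*v10^(8:ℕ) -
      2*a*a*b*si^(8:ℕ)*t*v10^(7:ℕ)*v20 - 2*a*a*c*si^(8:ℕ)*t*v10^(9:ℕ) -
      a*a*a*si^(9:ℕ)*t*v10^(8:ℕ)*v20 - 2*b^(4:ℕ)*si^(8:ℕ)*t*v10^(9:ℕ) -
      2*a*b*b*b*si^(9:ℕ)*t*v10^(10:ℕ) - a*a*b*b*si^(10:ℕ)*t*v10^(11:ℕ) +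
      a^(4:ℕ)*si^(12:ℕ)*t*v10^(13:ℕ) : k) = v14 := by
    linear_combination (norm := skip) (si) * J13
    clear * - hp hs ht; grind
  subst e
  clear J13
  have e : (2*b*b*si*si*si*t*v10*v30 + b*b*si*si*si*t*v20*v20 - a*b*si^(4:ℕ)*t*v10*v20*v20 -
      2*a*b*si^(4:ℕ)*t*v10*v10*v30 + b*b*si^(4:ℕ)*t*u30*v10*v10 + 2*c*c*si*si*si*t*v10^(4:ℕ) +
      2*a*c*si^(4:ℕ)*t*v10*v10*v10*v20 + 2*a*b*si^(5:ℕ)*t*u30*v10*v10*v10 -
      2*a*a*si^(5:ℕ)*t*v10*v10*v20*v20 - a*a*si^(5:ℕ)*t*v10*v10*v10*v30 +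
      a*a*si^(6:ℕ)*t*u30*v10^(4:ℕ) + b*b*b*si^(5:ℕ)*t*v10^(4:ℕ)*v20 - b*b*c*si^(5:ℕ)*t*v10^(6:ℕ)
      - 2*a*b*b*si^(6:ℕ)*t*v10^(5:ℕ)*v20 + 2*a*a*b*si^(7:ℕ)*t*v10^(6:ℕ)*v20 +
      a*a*c*si^(7:ℕ)*t*v10^(8:ℕ) - a*b*b*b*si^(8:ℕ)*t*v10^(9:ℕ) + 2*a*a*b*b*si^(9:ℕ)*t*v10^(10:ℕ)
      + 2*a*a*a*b*si^(10:ℕ)*t*v10^(11:ℕ) - a^(4:ℕ)*si^(11:ℕ)*t*v10^(12:ℕ) : k) = u14 := by
    linear_combination (norm := skip) (-t*t) * J04
    clear * - hp hs ht; grind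
  subst e
  clear J04
  have e : (2*c*si*v30 + 2*d*s*v10 + 2*a*si*si*v40 + 2*b*si*si*u40 - 2*a*si*si*si*u30*v20 +
      a*si*si*si*u40*v10 - 2*b*si*si*t*t*u31*v10 + 2*b*b*si*si*si*v10*v20*v20 +
      a*si*si*si*t*t*u31*v10*v10 - b*c*si*si*si*v10*v10*v10*v20 + 2*a*b*si^(4:ℕ)*v10*v10*v20*v20
      + a*b*si^(4:ℕ)*v10*v10*v10*v30 + c*c*si*si*si*v10^(5:ℕ) + 2*a*c*si^(4:ℕ)*v10^(4:ℕ)*v20 +
      a*a*si^(5:ℕ)*v10*v10*v10*v20*v20 + a*a*si^(5:ℕ)*v10^(4:ℕ)*v30 +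
      2*a*a*si^(6:ℕ)*u30*v10^(5:ℕ) - b*b*b*si^(5:ℕ)*v10^(5:ℕ)*v20 + 2*b*b*c*si^(5:ℕ)*v10^(7:ℕ) +
      a*b*c*si^(6:ℕ)*v10^(8:ℕ) - 2*a*a*a*si^(8:ℕ)*v10^(8:ℕ)*v20 - 2*b^(4:ℕ)*si^(7:ℕ)*v10^(9:ℕ) -
      2*a*a*b*b*si^(9:ℕ)*v10^(11:ℕ) + a*a*a*b*si^(10:ℕ)*v10^(12:ℕ) : k) = u23 := by
    linear_combination (norm := skip) (-2*si*si) * H43
    clear * - hp hs ht; grind
  subst e
  clear H43
  have e : (d*t - b*si*si*si*u31 - c*si*si*si*t*u30 - a*si^(4:ℕ)*t*u40 + a*si^(4:ℕ)*u31*v10 -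
      2*b*b*si^(4:ℕ)*t*v10*v30 - b*b*si^(4:ℕ)*t*v20*v20 + a*b*si^(5:ℕ)*t*v10*v20*v20 +
      2*a*b*si^(5:ℕ)*t*v10*v10*v30 - b*b*si^(5:ℕ)*t*u30*v10*v10 - 2*c*c*si^(4:ℕ)*t*v10^(4:ℕ) -
      2*a*c*si^(5:ℕ)*t*v10*v10*v10*v20 - 2*a*b*si^(6:ℕ)*t*u30*v10*v10*v10 +
      2*a*a*si^(6:ℕ)*t*v10*v10*v20*v20 + a*a*si^(6:ℕ)*t*v10*v10*v10*v30 -
      a*a*si^(7:ℕ)*t*u30*v10^(4:ℕ) - b*b*b*si^(6:ℕ)*t*v10^(4:ℕ)*v20 + b*b*c*si^(6:ℕ)*t*v10^(6:ℕ)
      + 2*a*b*b*si^(7:ℕ)*t*v10^(5:ℕ)*v20 - 2*a*a*b*si^(8:ℕ)*t*v10^(6:ℕ)*v20 -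
      a*a*c*si^(8:ℕ)*t*v10^(8:ℕ) + a*b*b*b*si^(9:ℕ)*t*v10^(9:ℕ) -
      2*a*a*b*b*si^(10:ℕ)*t*v10^(10:ℕ) - 2*a*a*a*b*si^(11:ℕ)*t*v10^(11:ℕ) +
      a^(4:ℕ)*si^(12:ℕ)*t*v10^(12:ℕ) : k) = D := by
    linear_combination (norm := skip) (si*si*si) * H34
    clear * - hp hs ht; grind
  subst e
  clear H34
  exact ⟨si, t, by clear * - hp hs; grind, by clear * - hp ht; grind, by ring, by ring, by rintro rfl; ring, by rintro rfl rfl rfl; ring⟩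

end Pool.Agent.H25

namespace Pool.Agent.H25

variable {k : Type*} [Field k] [hp : CharP k 5]

set_option linter.unusedSimpArgs false

theorem sD2_of {a b A B : k}
    (h : Rel (mk 0 0 0 0 0 0 0 0 0 0 1 0 0 1 0 a 0 b 0 0 0 0 0 0 0)
      (mk 0 0 0 0 0 0 0 0 0 0 1 0 0 1 0 A 0 B 0 0 0 0 0 0 0)) :
    B ^ 4 + 2 * A ^ 3 * B = b ^ 4 + 2 * a ^ 3 * b ∧ A ^ 6 + 3 * B ^ 6 = a ^ 6 + 3 * b ^ 6 := by
  obtain ⟨φ, cJ, hc, o1, o2, hj, hH⟩ := h.coords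
  obtain ⟨u10, u01, u20, u11, u02, u30, u21, u12, u03, u40, u31, u22, u13, u04, u41, u32, u23, u14, u42, u33, u24, u43, u34, u44, hx⟩ := ord1_surj o1
  obtain ⟨v10, v01, v20, v11, v02, v30, v21, v12, v03, v40, v31, v22, v13, v04, v41, v32, v23, v14, v42, v33, v24, v43, v34, v44, hy⟩ := ord1_surj o2
  obtain ⟨rfl, J10, J01, -, -, -, -, -, -, -, -, -, -, -, -, -, -, -, -, -, -, -, -, -⟩ := jac_eqs hx hy hj
  have e : (mk 0 0 0 0 0 0 0 0 0 0 1 0 0 1 0 a 0 b 0 0 0 0 0 0 0 : O k) = m 4 0 + m 1 3 + a • m 4 1 + b • m 2 3 := by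
    simp only [m40, m13, m41, m23, mk_smul, mk_add, mul_zero, mul_one, add_zero, zero_add]
  obtain ⟨t40, p40⟩ := pw40 u10 u01 u20 u11 u02 u30 u21 u12 u03 u40 u31 u22 u13 u04 u41 u32 u23 u14 u42 u33 u24 u43 u34 u44 v10 v01 v20 v11 v02 v30 v21 v12 v03 v40 v31 v22 v13 v04 v41 v32 v23 v14 v42 v33 v24 v43 v34 v44
  obtain ⟨t13, p13⟩ := pw13 u10 u01 u20 u11 u02 u30 u21 u12 u03 u40 u31 u22 u13 u04 u41 u32 u23 u14 u42 u33 u24 u43 u34 u44 v10 v01 v20 v11 v02 v30 v21 v12 v03 v40 v31 v22 v13 v04 v41 v32 v23 v14 v42 v33 v24 v43 v34 v44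
  obtain ⟨t41, p41⟩ := pw41 u10 u01 u20 u11 u02 u30 u21 u12 u03 u40 u31 u22 u13 u04 u41 u32 u23 u14 u42 u33 u24 u43 u34 u44 v10 v01 v20 v11 v02 v30 v21 v12 v03 v40 v31 v22 v13 v04 v41 v32 v23 v14 v42 v33 v24 v43 v34 v44
  obtain ⟨t23, p23⟩ := pw23 u10 u01 u20 u11 u02 u30 u21 u12 u03 u40 u31 u22 u13 u04 u41 u32 u23 u14 u42 u33 u24 u43 u34 u44 v10 v01 v20 v11 v02 v30 v21 v12 v03 v40 v31 v22 v13 v04 v41 v32 v23 v14 v42 v33 v24 v43 v34 v44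
  rw [e] at hH
  simp only [hom_add, hom_smul, hom_m, hx, hy, p40, p13, p41, p23, mk_smul, mk_add] at hH
  rw [mk_inj] at hH
  obtain ⟨-, -, -, -, -, -, -, -, -, -, H40, H31, H22, H13, H04, H41, H32, H23, H14, -, -, -, -, -, -⟩ := hH
  clear e hx hy hj o1 o2 h φ p40 t40 p13 t13 p41 t41 p23 t23
  by_cases h0 : u01 = 0
  · subst h0
    have e : 0 = v10 := by clear * - hp hc H22; grind
    subst e
    obtain ⟨t, ht, h1, h2⟩ : ∃ t : k, t ^ 6 = 1 ∧ t * t * t = u10 ∧ t = v01 :=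
      ⟨v01, by clear * - hp hc H40 H13; grind, by clear * - hp hc H40; grind, rfl⟩
    subst h1 h2
    have e : (-2*t^(4:ℕ)*u20 : k) = v11 := by
      linear_combination (norm := skip) (-t*t*t) * J10
      clear * - hp ht; grind
    subst e
    clear J10
    have e : (2*t^(4:ℕ)*u11 : k) = v02 := by
      linear_combination (norm := skip) (2*t*t*t) * J01
      clear * - hp ht; grind
    subst e
    clear J01
    have e : (-A*t*t*t + a*t^(4:ℕ) : k) = u11 := by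
      linear_combination (norm := skip) (t*t*t) * H41
      clear * - hp ht; grind
    subst e
    clear H41
    have e : (-2*t*t*v20 : k) = u02 := by
      linear_combination (norm := skip) (t*t*t) * H32
      clear * - hp ht; grind
    subst e
    clear H32
    have e : (b*t*t*t : k) = B := by
      linear_combination (norm := skip) (1) * H23
      clear * - hp ht; grind
    subst e
    clear H23
    have e : (a*t : k) = A := by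
      linear_combination (norm := skip) (-2) * H14
      clear * - hp ht; grind
    subst e
    clear H14
    exact ⟨by clear * - hp ht; grind, by clear * - hp ht; grind⟩
  · have h1 : v01 ≠ 0 := by clear * - hp h0 H04; grind
    obtain ⟨th, ht, h2⟩ : ∃ th : k, th * th * th = 1 ∧ -th * v01 = u01 :=
      ⟨-u01 * v01⁻¹, by clear * - hp h0 h1 H04; grind, by clear * - hp h1; grind⟩
    subst h2
    have h2 : 2 * th * th * u10 = v10 := by clear * - hp hc ht h1 H22; grind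
    subst h2
    have h3 : u10 ≠ 0 := by clear * - hp hc; grind
    have h2 : 3 * v01 * v01 * v01 = u10 := by clear * - hp ht h1 h3 H40; grind
    subst h2
    obtain ⟨dd, hd, h2⟩ : ∃ dd : k, dd ^ 6 = 2 ∧ dd = v01 := ⟨v01, by clear * - hp ht h1 H13; grind, rfl⟩
    subst h2
    have e : (-2*th*v11 + dd^(4:ℕ)*th*u20 + dd^(4:ℕ)*th*th*v20 : k) = u11 := by
      linear_combination (norm := skip) (-2*dd*dd*dd*th) * J10
      clear * - hp hd ht; grind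
    subst e
    clear J10
    have e : (-2*th*v02 - 2*dd*dd*v20 - 2*dd*dd*th*th*u20 + dd^(4:ℕ)*th*th*v11 : k) = u02 := by
      linear_combination (norm := skip) (-dd*dd*dd*th) * J01
      clear * - hp hd ht; grind
    subst e
    clear J01
    have e : (-b*dd^(4:ℕ) + dd^(4:ℕ)*u20 - A*dd*dd*dd*th*th + dd^(4:ℕ)*th*v20 + 2*a*dd^(4:ℕ)*th*th : k) = v11 := by
      linear_combination (norm := skip) (dd*dd*dd*th*th) * H41
      clear * - hp hd ht; grind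
    subst e
    clear H41
    have e : (-2*A*dd - 2*a*dd*dd - 2*b*dd*dd*th - 2*dd*dd*th*u20 + dd*dd*th*th*v20 : k) = v02 := by
      linear_combination (norm := skip) (dd*dd*dd*th*th) * H32
      clear * - hp hd ht; grind
    subst e
    clear H32
    have e : (-2*b*dd*dd*dd - a*dd*dd*dd*th*th : k) = B := by
      linear_combination (norm := skip) (1) * H23
      clear * - hp hd ht; grind
    subst e
    clear H23
    have e : (a*dd + b*dd*th : k) = A := by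
      linear_combination (norm := skip) (-2) * H14
      clear * - hp hd ht; grind
    subst e
    clear H14
    exact ⟨by clear * - hp ht hd; grind, by clear * - hp ht hd; grind⟩

theorem sD3_of {a A : k}
    (h : Rel (mk 0 0 0 0 0 0 0 0 0 0 0 0 1 0 0 0 0 0 0 0 a 0 0 0 0)
      (mk 0 0 0 0 0 0 0 0 0 0 0 0 1 0 0 0 0 0 0 0 A 0 0 0 0)) :
    A = a ∨ A = -a := by
  obtain ⟨φ, cJ, hc, o1, o2, hj, hH⟩ := h.coords
  obtain ⟨u10, u01, u20, u11, u02, u30, u21, u12, u03, u40, u31, u22, u13, u04, u41, u32, u23, u14, u42, u33, u24, u43, u34, u44, hx⟩ := ord1_surj o1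
  obtain ⟨v10, v01, v20, v11, v02, v30, v21, v12, v03, v40, v31, v22, v13, v04, v41, v32, v23, v14, v42, v33, v24, v43, v34, v44, hy⟩ := ord1_surj o2
  obtain ⟨rfl, J10, J01, J20, J11, J02, -, -, -, -, -, -, -, -, -, -, -, -, -, -, -, -, -, -⟩ := jac_eqs hx hy hj
  have e : (mk 0 0 0 0 0 0 0 0 0 0 0 0 1 0 0 0 0 0 0 0 a 0 0 0 0 : O k) = m 2 2 + a • m 3 3 := by
    simp only [m22, m33, mk_smul, mk_add, mul_zero, mul_one, add_zero, zero_add]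
  obtain ⟨t22, p22⟩ := pw22 u10 u01 u20 u11 u02 u30 u21 u12 u03 u40 u31 u22 u13 u04 u41 u32 u23 u14 u42 u33 u24 u43 u34 u44 v10 v01 v20 v11 v02 v30 v21 v12 v03 v40 v31 v22 v13 v04 v41 v32 v23 v14 v42 v33 v24 v43 v34 v44
  obtain ⟨t33, p33⟩ := pw33 u10 u01 u20 u11 u02 u30 u21 u12 u03 u40 u31 u22 u13 u04 u41 u32 u23 u14 u42 u33 u24 u43 u34 u44 v10 v01 v20 v11 v02 v30 v21 v12 v03 v40 v31 v22 v13 v04 v41 v32 v23 v14 v42 v33 v24 v43 v34 v44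
  rw [e] at hH
  simp only [hom_add, hom_smul, hom_m, hx, hy, p22, p33, mk_smul, mk_add] at hH
  rw [mk_inj] at hH
  obtain ⟨-, -, -, -, -, -, -, -, -, -, H40, H31, H22, H13, H04, H41, H32, H23, H14, H42, H33, H24, -, -, -⟩ := hH
  clear e hx hy hj o1 o2 h φ p22 t22 p33 t33
  by_cases h0 : u10 = 0
  swap
  · have e : 0 = v10 := by clear * - hp H40 h0; grind
    subst e
    have e : 0 = u01 := by clear * - hp H04 hc; grind
    subst e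
    obtain ⟨s, si, hs, h1, h2⟩ : ∃ s si : k, s * si = 1 ∧ s = u10 ∧ si = v01 :=
      ⟨u10, v01, by clear * - hp hc H22; grind, rfl, rfl⟩
    subst h1 h2
    have e : (-2*si*si*u20 : k) = v11 := by
      linear_combination (norm := skip) (-si) * J10
      clear * - hp hs; grind
    subst e
    clear J10
    have e : (2*si*si*u11 : k) = v02 := by
      linear_combination (norm := skip) (2*si) * J01
      clear * - hp hs; grind
    subst e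
    clear J01
    have e : (0 : k) = v20 := by
      linear_combination (norm := skip) (2*si) * H41
      clear * - hp hs; grind
    subst e
    clear H41
    have e : (0 : k) = u20 := by
      linear_combination (norm := skip) (-2*s) * H32
      clear * - hp hs; grind
    subst e
    clear H32
    have e : (0 : k) = u11 := by
      linear_combination (norm := skip) (-s) * H23
      clear * - hp hs; grind
    subst e
    clear H23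
    have e : (0 : k) = u02 := by
      linear_combination (norm := skip) (2*s) * H14
      clear * - hp hs; grind
    subst e
    clear H14
    have e : (2*si*si*u30 : k) = v21 := by
      linear_combination (norm := skip) (-si) * J20
      clear * - hp hs; grind
    subst e
    clear J20
    have e : (-si*si*u21 : k) = v12 := by
      linear_combination (norm := skip) (2*si) * J11
      clear * - hp hs; grind
    subst e
    clear J11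
    have e : (-2*si*si*u12 : k) = v03 := by
      linear_combination (norm := skip) (-2*si) * J02
      clear * - hp hs; grind
    subst e
    clear J02
    have e : (0 : k) = u30 := by
      linear_combination (norm := skip) (-s) * H42
      clear * - hp hs; grind
    subst e
    clear H42
    have e : (a : k) = A := by
      linear_combination (norm := skip) (1) * H33
      clear * - hp hs; grind
    subst e
    clear H33
    have e : (0 : k) = u12 := by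
      linear_combination (norm := skip) (-2*s) * H24
      clear * - hp hs; grind
    subst e
    clear H24
    exact Or.inl rfl
  · subst h0
    have e : 0 = v01 := by clear * - hp H04 hc; grind
    subst e
    obtain ⟨s, si, hs, h1, h2⟩ : ∃ s si : k, s * si = 1 ∧ s = u01 ∧ -si = v10 :=
      ⟨u01, -v10, by clear * - hp hc H22; grind, rfl, neg_neg _⟩
    subst h1 h2
    have e : (2*s*s*v20 : k) = u11 := by
      linear_combination (norm := skip) (-s) * J10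
      clear * - hp hs; grind
    subst e
    clear J10
    have e : (-2*s*s*v11 : k) = u02 := by
      linear_combination (norm := skip) (2*s) * J01
      clear * - hp hs; grind
    subst e
    clear J01
    have e : (0 : k) = u20 := by
      linear_combination (norm := skip) (2*s) * H41
      clear * - hp hs; grind
    subst e
    clear H41
    have e : (0 : k) = v20 := by
      linear_combination (norm := skip) (2*si) * H32
      clear * - hp hs; grind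
    subst e
    clear H32
    have e : (0 : k) = v11 := by
      linear_combination (norm := skip) (si) * H23
      clear * - hp hs; grind
    subst e
    clear H23
    have e : (0 : k) = v02 := by
      linear_combination (norm := skip) (-2*si) * H14
      clear * - hp hs; grind
    subst e
    clear H14
    have e : (-2*s*s*v30 : k) = u21 := by
      linear_combination (norm := skip) (-s) * J20
      clear * - hp hs; grind
    subst e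
    clear J20
    have e : (s*s*v21 : k) = u12 := by
      linear_combination (norm := skip) (2*s) * J11
      clear * - hp hs; grind
    subst e
    clear J11
    have e : (2*s*s*v12 : k) = u03 := by
      linear_combination (norm := skip) (-2*s) * J02
      clear * - hp hs; grind
    subst e
    clear J02
    have e : (0 : k) = v30 := by
      linear_combination (norm := skip) (si) * H42
      clear * - hp hs; grind
    subst e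
    clear H42
    have e : (-a : k) = A := by
      linear_combination (norm := skip) (1) * H33
      clear * - hp hs; grind
    subst e
    clear H33
    have e : (0 : k) = v12 := by
      linear_combination (norm := skip) (2*si) * H24
      clear * - hp hs; grind
    subst e
    clear H24
    exact Or.inr rfl

theorem sD4_of {a b A B : k}
    (h : Rel (mk 0 0 0 0 0 0 0 0 0 0 0 1 0 0 0 0 a 0 b 0 0 0 0 0 0)
      (mk 0 0 0 0 0 0 0 0 0 0 0 1 0 0 0 0 A 0 B 0 0 0 0 0 0)) :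
    ∃ t u : k, t ^ 2 = 1 ∧ u ≠ 0 ∧ A = t * a ∧ B = u * b := by
  obtain ⟨φ, cJ, hc, o1, o2, hj, hH⟩ := h.coords
  obtain ⟨u10, u01, u20, u11, u02, u30, u21, u12, u03, u40, u31, u22, u13, u04, u41, u32, u23, u14, u42, u33, u24, u43, u34, u44, hx⟩ := ord1_surj o1
  obtain ⟨v10, v01, v20, v11, v02, v30, v21, v12, v03, v40, v31, v22, v13, v04, v41, v32, v23, v14, v42, v33, v24, v43, v34, v44, hy⟩ := ord1_surj o2
  obtain ⟨rfl, J10, J01, -, -, -, -, -, -, -, -, -, -, -, -, -, -, -, -, -, -, -, -, -⟩ := jac_eqs hx hy hj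
  have e : (mk 0 0 0 0 0 0 0 0 0 0 0 1 0 0 0 0 a 0 b 0 0 0 0 0 0 : O k) = m 3 1 + a • m 3 2 + b • m 1 4 := by
    simp only [m31, m32, m14, mk_smul, mk_add, mul_zero, mul_one, add_zero, zero_add]
  obtain ⟨t31, p31⟩ := pw31 u10 u01 u20 u11 u02 u30 u21 u12 u03 u40 u31 u22 u13 u04 u41 u32 u23 u14 u42 u33 u24 u43 u34 u44 v10 v01 v20 v11 v02 v30 v21 v12 v03 v40 v31 v22 v13 v04 v41 v32 v23 v14 v42 v33 v24 v43 v34 v44
  obtain ⟨t32, p32⟩ := pw32 u10 u01 u20 u11 u02 u30 u21 u12 u03 u40 u31 u22 u13 u04 u41 u32 u23 u14 u42 u33 u24 u43 u34 u44 v10 v01 v20 v11 v02 v30 v21 v12 v03 v40 v31 v22 v13 v04 v41 v32 v23 v14 v42 v33 v24 v43 v34 v44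
  obtain ⟨t14, p14⟩ := pw14 u10 u01 u20 u11 u02 u30 u21 u12 u03 u40 u31 u22 u13 u04 u41 u32 u23 u14 u42 u33 u24 u43 u34 u44 v10 v01 v20 v11 v02 v30 v21 v12 v03 v40 v31 v22 v13 v04 v41 v32 v23 v14 v42 v33 v24 v43 v34 v44
  rw [e] at hH
  simp only [hom_add, hom_smul, hom_m, hx, hy, p31, p32, p14, mk_smul, mk_add] at hH
  rw [mk_inj] at hH
  obtain ⟨-, -, -, -, -, -, -, -, -, -, H40, H31, H22, H13, H04, H41, H32, H23, H14, -, -, -, -, -, -⟩ := hH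
  clear e hx hy hj o1 o2 h φ p31 t31 p32 t32 p14 t14
  have h0 : u10 ≠ 0 := by clear * - hp hc H31; grind
  have e : 0 = v10 := by clear * - hp h0 H40; grind
  subst e
  have e : 0 = u01 := by clear * - hp hc H04; grind
  subst e
  obtain ⟨s, si, t, hs, ht, h1, h2⟩ : ∃ s si t : k, s * si = 1 ∧ t * t = 1 ∧ s = u10 ∧ t = v01 :=
    ⟨u10, u10⁻¹, v01, mul_inv_cancel₀ h0, by clear * - hp hc H31; grind, rfl, rfl⟩
  subst h1 h2
  have e : (-2*si*t*u20 : k) = v11 := by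
    linear_combination (norm := skip) (-si) * J10
    clear * - hp hs ht; grind
  subst e
  clear J10
  have e : (2*si*t*u11 : k) = v02 := by
    linear_combination (norm := skip) (2*si) * J01
    clear * - hp hs ht; grind
  subst e
  clear J01
  have e : (0 : k) = u20 := by
    linear_combination (norm := skip) (-si*si*t) * H41
    clear * - hp hs ht; grind
  subst e
  clear H41
  have e : (a*t : k) = A := by
    linear_combination (norm := skip) (si*si*si*t) * H32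
    clear * - hp hs ht; grind
  subst e
  clear H32
  have e : (0 : k) = u02 := by
    linear_combination (norm := skip) (-2*si*si*t) * H23
    clear * - hp hs ht; grind
  subst e
  clear H23
  have e : (b*si*si*t : k) = B := by
    linear_combination (norm := skip) (si*si*si*t) * H14
    clear * - hp hs ht; grind
  subst e
  clear H14
  exact ⟨t, si * si * t, by clear * - hp ht; grind, by clear * - hp hs ht; grind, by ring, by ring⟩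

end Pool.Agent.H25

namespace Pool.Agent.H25

variable {k : Type*} [Field k] [hp : CharP k 5]

set_option linter.unusedSimpArgs false

theorem sD5_of {a b c A B C : k}
    (h : Rel (mk 0 0 0 0 0 0 0 0 0 0 1 0 0 0 0 0 0 b a 0 0 c 0 0 0)
      (mk 0 0 0 0 0 0 0 0 0 0 1 0 0 0 0 0 0 B A 0 0 C 0 0 0)) :
    ∃ t : k, t ≠ 0 ∧ A = t ^ 5 * a ∧ (a = 0 → B = t ^ 3 * b ∧ C = t ^ 2 * c) := by
  obtain ⟨φ, cJ, hc, o1, o2, hj, hH⟩ := h.coords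
  obtain ⟨u10, u01, u20, u11, u02, u30, u21, u12, u03, u40, u31, u22, u13, u04, u41, u32, u23, u14, u42, u33, u24, u43, u34, u44, hx⟩ := ord1_surj o1
  obtain ⟨v10, v01, v20, v11, v02, v30, v21, v12, v03, v40, v31, v22, v13, v04, v41, v32, v23, v14, v42, v33, v24, v43, v34, v44, hy⟩ := ord1_surj o2
  obtain ⟨rfl, J10, J01, J20, J11, J02, -, -, -, -, -, -, -, -, -, -, -, -, -, -, -, -, -, -⟩ := jac_eqs hx hy hj
  have e : (mk 0 0 0 0 0 0 0 0 0 0 1 0 0 0 0 0 0 b a 0 0 c 0 0 0 : O k) = m 4 0 + b • m 2 3 + a • m 1 4 + c • m 2 4 := by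
    simp only [m40, m23, m14, m24, mk_smul, mk_add, mul_zero, mul_one, add_zero, zero_add]
  obtain ⟨t40, p40⟩ := pw40 u10 u01 u20 u11 u02 u30 u21 u12 u03 u40 u31 u22 u13 u04 u41 u32 u23 u14 u42 u33 u24 u43 u34 u44 v10 v01 v20 v11 v02 v30 v21 v12 v03 v40 v31 v22 v13 v04 v41 v32 v23 v14 v42 v33 v24 v43 v34 v44
  obtain ⟨t23, p23⟩ := pw23 u10 u01 u20 u11 u02 u30 u21 u12 u03 u40 u31 u22 u13 u04 u41 u32 u23 u14 u42 u33 u24 u43 u34 u44 v10 v01 v20 v11 v02 v30 v21 v12 v03 v40 v31 v22 v13 v04 v41 v32 v23 v14 v42 v33 v24 v43 v34 v44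
  obtain ⟨t14, p14⟩ := pw14 u10 u01 u20 u11 u02 u30 u21 u12 u03 u40 u31 u22 u13 u04 u41 u32 u23 u14 u42 u33 u24 u43 u34 u44 v10 v01 v20 v11 v02 v30 v21 v12 v03 v40 v31 v22 v13 v04 v41 v32 v23 v14 v42 v33 v24 v43 v34 v44
  obtain ⟨t24, p24⟩ := pw24 u10 u01 u20 u11 u02 u30 u21 u12 u03 u40 u31 u22 u13 u04 u41 u32 u23 u14 u42 u33 u24 u43 u34 u44 v10 v01 v20 v11 v02 v30 v21 v12 v03 v40 v31 v22 v13 v04 v41 v32 v23 v14 v42 v33 v24 v43 v34 v44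
  rw [e] at hH
  simp only [hom_add, hom_smul, hom_m, hx, hy, p40, p23, p14, p24, mk_smul, mk_add] at hH
  rw [mk_inj] at hH
  obtain ⟨-, -, -, -, -, -, -, -, -, -, H40, H31, H22, H13, H04, H41, H32, H23, H14, H42, H33, H24, -, -, -⟩ := hH
  clear e hx hy hj o1 o2 h φ p40 t40 p23 t23 p14 t14 p24 t24
  have e : 0 = u01 := by clear * - hp H04; grind
  subst e
  have h0 : v01 ≠ 0 := by clear * - hp hc; grind
  obtain ⟨t, ti, ht, h1, h2⟩ : ∃ t ti : k, t * ti = 1 ∧ t * t * t = u10 ∧ t = v01 :=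
    ⟨v01, v01⁻¹, mul_inv_cancel₀ h0, by clear * - hp hc H40; grind, rfl⟩
  subst h1 h2
  have e : (-2*ti*ti*u20 + ti*ti*ti*u11*v10 : k) = v11 := by
    linear_combination (norm := skip) (-ti*ti*ti) * J10
    clear * - hp ht; grind
  subst e
  clear J10
  have e : (2*ti*ti*u11 + ti*ti*ti*u02*v10 : k) = v02 := by
    linear_combination (norm := skip) (2*ti*ti*ti) * J01
    clear * - hp ht; grind
  subst e
  clear J01
  have e : (-2*b*ti*ti*v10*v10 - a*ti^(5:ℕ)*v10*v10*v10 : k) = u11 := by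
    linear_combination (norm := skip) (ti^(9:ℕ)) * H41
    clear * - hp ht; grind
  subst e
  clear H41
  have e : (-2*b*ti*v10 + a*ti^(4:ℕ)*v10*v10 : k) = u02 := by
    linear_combination (norm := skip) (ti^(9:ℕ)) * H32
    clear * - hp ht; grind
  subst e
  clear H32
  have e : (b*ti*ti*ti - a*ti^(6:ℕ)*v10 : k) = B := by
    linear_combination (norm := skip) (ti^(12:ℕ)) * H23
    clear * - hp ht; grind
  subst e
  clear H23
  have e : (a*ti^(5:ℕ) : k) = A := by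
    linear_combination (norm := skip) (ti^(12:ℕ)) * H14
    clear * - hp ht; grind
  subst e
  clear H14
  have e : (2*ti*ti*u30 + ti*ti*ti*u21*v10 - ti^(5:ℕ)*u20*u20 + b*ti^(5:ℕ)*v10*v10*v20 -
      2*a*ti^(8:ℕ)*v10*v10*v10*v20 - b*ti^(8:ℕ)*u20*v10*v10*v10 + 2*a*ti^(11:ℕ)*u20*v10^(4:ℕ) : k) = v21 := by
    linear_combination (norm := skip) (-ti*ti*ti) * J20
    clear * - hp ht; grind
  subst e
  clear J20
  have e : (-ti*ti*u21 + ti*ti*ti*u12*v10 + b*ti^(4:ℕ)*v10*v20 + 2*a*ti^(7:ℕ)*v10*v10*v20 +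
      2*b*ti^(7:ℕ)*u20*v10*v10 + 2*a*ti^(10:ℕ)*u20*v10*v10*v10 : k) = v12 := by
    linear_combination (norm := skip) (2*ti*ti*ti) * J11
    clear * - hp ht; grind
  subst e
  clear J11
  have e : (-2*ti*ti*u12 + ti*ti*ti*u03*v10 + b*ti^(6:ℕ)*u20*v10 + 2*a*ti^(9:ℕ)*u20*v10*v10 -
      2*b*b*ti^(9:ℕ)*v10^(4:ℕ) - 2*a*b*ti^(12:ℕ)*v10^(5:ℕ) + 2*a*a*ti^(15:ℕ)*v10^(6:ℕ) : k) = v03 := by
    linear_combination (norm := skip) (-2*ti*ti*ti) * J02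
    clear * - hp ht; grind
  subst e
  clear J02
  have e : (-2*b*ti*v20 + c*ti*v10*v10 + 2*a*ti^(4:ℕ)*v10*v20 - a*ti^(7:ℕ)*u20*v10*v10 -
      2*b*b*ti^(7:ℕ)*v10^(4:ℕ) - 2*a*b*ti^(10:ℕ)*v10^(5:ℕ) + 2*a*a*ti^(13:ℕ)*v10^(6:ℕ) : k) = u12 := by
    linear_combination (norm := skip) (ti^(9:ℕ)) * H42
    clear * - hp ht; grind
  subst e
  clear H42
  have e : (-c*v10 - a*ti*ti*ti*v20 + b*ti*ti*ti*u20 + 2*b*b*ti^(6:ℕ)*v10*v10*v10 + 2*a*a*ti^(12:ℕ)*v10^(5:ℕ) : k) = u03 := by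
    linear_combination (norm := skip) (ti^(9:ℕ)) * H33
    clear * - hp ht; grind
  subst e
  clear H33
  have e : (c*ti*ti - 2*a*ti^(8:ℕ)*u20 + 2*a*b*ti^(11:ℕ)*v10*v10*v10 + 2*a*a*ti^(14:ℕ)*v10^(4:ℕ) : k) = C := by
    linear_combination (norm := skip) (ti^(12:ℕ)) * H24
    clear * - hp ht; grind
  subst e
  clear H24
  exact ⟨ti, by clear * - hp ht; grind, by ring, by rintro rfl; constructor <;> ring⟩

theorem sE3_of {a A : k}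
    (h : Rel (mk 0 0 0 0 0 0 0 0 0 0 0 0 0 0 0 1 0 0 0 0 0 a 0 0 0)
      (mk 0 0 0 0 0 0 0 0 0 0 0 0 0 0 0 1 0 0 0 0 0 A 0 0 0)) :
    ∃ t : k, t ≠ 0 ∧ A = t * a := by
  obtain ⟨φ, cJ, hc, o1, o2, hj, hH⟩ := h.coords
  obtain ⟨u10, u01, u20, u11, u02, u30, u21, u12, u03, u40, u31, u22, u13, u04, u41, u32, u23, u14, u42, u33, u24, u43, u34, u44, hx⟩ := ord1_surj o1
  obtain ⟨v10, v01, v20, v11, v02, v30, v21, v12, v03, v40, v31, v22, v13, v04, v41, v32, v23, v14, v42, v33, v24, v43, v34, v44, hy⟩ := ord1_surj o2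
  obtain ⟨rfl, J10, J01, -, -, -, -, -, -, -, -, -, -, -, -, -, -, -, -, -, -, -, -, -⟩ := jac_eqs hx hy hj
  have e : (mk 0 0 0 0 0 0 0 0 0 0 0 0 0 0 0 1 0 0 0 0 0 a 0 0 0 : O k) = m 4 1 + a • m 2 4 := by
    simp only [m41, m24, mk_smul, mk_add, mul_zero, mul_one, add_zero, zero_add]
  obtain ⟨t41, p41⟩ := pw41 u10 u01 u20 u11 u02 u30 u21 u12 u03 u40 u31 u22 u13 u04 u41 u32 u23 u14 u42 u33 u24 u43 u34 u44 v10 v01 v20 v11 v02 v30 v21 v12 v03 v40 v31 v22 v13 v04 v41 v32 v23 v14 v42 v33 v24 v43 v34 v44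
  obtain ⟨t24, p24⟩ := pw24 u10 u01 u20 u11 u02 u30 u21 u12 u03 u40 u31 u22 u13 u04 u41 u32 u23 u14 u42 u33 u24 u43 u34 u44 v10 v01 v20 v11 v02 v30 v21 v12 v03 v40 v31 v22 v13 v04 v41 v32 v23 v14 v42 v33 v24 v43 v34 v44
  rw [e] at hH
  simp only [hom_add, hom_smul, hom_m, hx, hy, p41, p24, mk_smul, mk_add] at hH
  rw [mk_inj] at hH
  obtain ⟨-, -, -, -, -, -, -, -, -, -, -, -, -, -, -, H41, H32, H23, H14, H42, H33, H24, -, -, -⟩ := hH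
  clear e hx hy hj o1 o2 h φ p41 t41 p24 t24
  have e : 0 = u01 := by clear * - hp hc H14; grind
  subst e
  have h0 : v01 ≠ 0 := by clear * - hp hc; grind
  obtain ⟨t, ti, ht, h1, h2⟩ : ∃ t ti : k, t * ti = 1 ∧ t * t = u10 ∧ t = v01 :=
    ⟨v01, v01⁻¹, mul_inv_cancel₀ h0, by clear * - hp hc H41; grind, rfl⟩
  subst h1 h2
  have e : (-2*ti*u20 + ti*ti*u11*v10 : k) = v11 := by
    linear_combination (norm := skip) (-ti*ti) * J10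
    clear * - hp ht; grind
  subst e
  clear J10
  have e : (2*ti*u11 + ti*ti*u02*v10 : k) = v02 := by
    linear_combination (norm := skip) (2*ti*ti) * J01
    clear * - hp ht; grind
  subst e
  clear J01
  have e : (-a*ti*v10*v10 : k) = u11 := by
    linear_combination (norm := skip) (-ti^(7:ℕ)) * H42
    clear * - hp ht; grind
  subst e
  clear H42
  have e : (-a*v10 : k) = u02 := by
    linear_combination (norm := skip) (ti^(7:ℕ)) * H33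
    clear * - hp ht; grind
  subst e
  clear H33
  have e : (a*ti : k) = A := by
    linear_combination (norm := skip) (ti^(9:ℕ)) * H24
    clear * - hp ht; grind
  subst e
  clear H24
  exact ⟨ti, by clear * - hp ht; grind, by ring⟩

end Pool.Agent.H25
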