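import Pool.Agent.P.MP_c9b50d_al.H.Ex
import Pool.Agent.P.MP_c9b50d_al.H.S1
import Pool.Agent.P.MP_c9b50d_al.H.S2
import Pool.Agent.P.MP_c9b50d_al.H.Aut

/-!
The classification.
-/

namespace Pool.Agent.H25

variable {k : Type*} [Field k] [hp : CharP k 5]

set_option linter.unusedSimpArgs false

set_option linter.unusedSectionVars false
set_option linter.unusedTactic false
set_option linter.unusedVariables false

theorem vD2f (a b a1 A B : k) (r : Rel (mk 0 0 0 0 0 0 0 0 0 0 1 0 0 1 0 a 0 b 0 0 0 0 0 0 0)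
      (mk 0 0 0 0 0 0 0 0 0 0 1 0 0 1 0 a1 0 B 0 0 0 0 0 0 0))
    (h1 : B ^ 4 + 2 * A ^ 3 * B = b ^ 4 + 2 * a ^ 3 * b) (h2 : A ^ 6 + 3 * B ^ 6 = a ^ 6 + 3 * b ^ 6) :
    Rel (mk 0 0 0 0 0 0 0 0 0 0 1 0 0 1 0 a 0 b 0 0 0 0 0 0 0)
      (mk 0 0 0 0 0 0 0 0 0 0 1 0 0 1 0 A 0 B 0 0 0 0 0 0 0) := by
  obtain ⟨g1, g2⟩ := sD2_of r
  exact r.trans (vD2d a1 A B (by clear * - hp h1 g1; grind) (by linear_combination h2 - g2))

theorem vD2g [IsAlgClosed k] (a b A B o : k) (ho : o ^ 3 = 1)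
    (e : B ^ 2 - 2 * (2 * b + o ^ 2 * a) ^ 2 = 0)
    (h1 : B ^ 4 + 2 * A ^ 3 * B = b ^ 4 + 2 * a ^ 3 * b) (h2 : A ^ 6 + 3 * B ^ 6 = a ^ 6 + 3 * b ^ 6) :
    Rel (mk 0 0 0 0 0 0 0 0 0 0 1 0 0 1 0 a 0 b 0 0 0 0 0 0 0)
      (mk 0 0 0 0 0 0 0 0 0 0 1 0 0 1 0 A 0 B 0 0 0 0 0 0 0) := by
  obtain ⟨d, hd⟩ := IsAlgClosed.exists_pow_nat_eq (2 : k) (show 0 < 6 by norm_num)
  have e' : (B - -d ^ 3 * (2 * b + o ^ 2 * a)) * (B - -(-d) ^ 3 * (2 * b + o ^ 2 * a)) = 0 := by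
    linear_combination e - (2 * b + o ^ 2 * a) ^ 2 * hd
  rcases mul_eq_zero.mp e' with e' | e'
  · have r := vD2m a b d o hd ho
    rw [← sub_eq_zero.mp e'] at r
    exact vD2f a b _ A B r h1 h2
  · have r := vD2m a b (-d) o (by rw [← hd]; ring) ho
    rw [← sub_eq_zero.mp e'] at r
    exact vD2f a b _ A B r h1 h2

theorem vD2 [IsAlgClosed k] (a b A B : k)
    (h1 : B ^ 4 + 2 * A ^ 3 * B = b ^ 4 + 2 * a ^ 3 * b) (h2 : A ^ 6 + 3 * B ^ 6 = a ^ 6 + 3 * b ^ 6) :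
    Rel (mk 0 0 0 0 0 0 0 0 0 0 1 0 0 1 0 a 0 b 0 0 0 0 0 0 0)
      (mk 0 0 0 0 0 0 0 0 0 0 1 0 0 1 0 A 0 B 0 0 0 0 0 0 0) := by
  obtain ⟨o, ho⟩ := root2 (1 : k) 1 1 one_ne_zero
  have e0 : ((b ^ 4 + 2 * a ^ 3 * b) - B ^ 4) ^ 2 - 4 * B ^ 2 * ((a ^ 6 + 3 * b ^ 6) - 3 * B ^ 6) = 0 := by
    rw [← h1, ← h2]; ring
  have e : ((B - b) * (B - (-1) ^ 3 * b)) * ((B ^ 2 - 2 * (2 * b + 1 ^ 2 * a) ^ 2) *
      ((B ^ 2 - 2 * (2 * b + o ^ 2 * a) ^ 2) * (B ^ 2 - 2 * (2 * b + (o ^ 2) ^ 2 * a) ^ 2))) = 0 := by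
    clear * - hp e0 ho; grind
  have o3 : o ^ 3 = 1 := by linear_combination (o - 1) * ho
  rcases mul_eq_zero.mp e with e | e
  · rcases mul_eq_zero.mp e with e | e
    · have r := Rel.refl (mk 0 0 0 0 0 0 0 0 0 0 1 0 0 1 0 a 0 b 0 0 0 0 0 0 0)
      nth_rewrite 2 [← sub_eq_zero.mp e] at r
      exact vD2f a b _ A B r h1 h2
    · have r := vD2t a b (-1) (by ring)
      rw [← sub_eq_zero.mp e] at r
      exact vD2f a b _ A B r h1 h2
  rcases mul_eq_zero.mp e with e | e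
  · exact vD2g a b A B 1 (by ring) e h1 h2
  rcases mul_eq_zero.mp e with e | e
  · exact vD2g a b A B o o3 e h1 h2
  · exact vD2g a b A B (o ^ 2) (by rw [← pow_mul, mul_comm, pow_mul, o3, one_pow]) e h1 h2

/-- The order of a normal form. -/
def NF.o : NF k → ℕ
  | .A _ _ _ => 1
  | .B1 _ _ => 2
  | .B2 _ _ _ => 2
  | .B3 _ => 2
  | .C1 _ _ _ => 3
  | .C2 _ _ _ => 3
  | .C3 _ => 3
  | .C4 _ => 3
  | .C5 => 3
  | .C6 _ => 3
  | .D1 _ _ => 4
  | .D2 _ _ => 4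
  | .D3 _ => 4
  | .D4 _ _ => 4
  | .D5 => 4
  | .D6 _ _ => 4
  | .E1 => 5
  | .E2 => 5
  | .E3 => 5
  | .E4 => 5
  | .F1 _ => 6
  | .F2 => 6
  | .G1 => 7
  | .Z => 8

theorem ord_o (n : NF k) : Ord n.o n.h := by
  cases n with
  | A a b c => rw [hA]; exact ord1_iff.mpr rfl
  | B1 a b => rw [hB1]; exact ord2_iff.mpr ⟨rfl, rfl, rfl⟩
  | B2 a b c => rw [hB2]; exact ord2_iff.mpr ⟨rfl, rfl, rfl⟩
  | B3 c => rw [hB3]; exact ord2_iff.mpr ⟨rfl, rfl, rfl⟩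
  | C1 a b c => rw [hC1]; exact ord3_iff.mpr ⟨rfl, rfl, rfl, rfl, rfl, rfl⟩
  | C2 a b c => rw [hC2]; exact ord3_iff.mpr ⟨rfl, rfl, rfl, rfl, rfl, rfl⟩
  | C3 c => rw [hC3]; exact ord3_iff.mpr ⟨rfl, rfl, rfl, rfl, rfl, rfl⟩
  | C4 c => rw [hC4]; exact ord3_iff.mpr ⟨rfl, rfl, rfl, rfl, rfl, rfl⟩
  | C5 => rw [hC5]; exact ord3_iff.mpr ⟨rfl, rfl, rfl, rfl, rfl, rfl⟩
  | C6 d => rw [hC6]; exact ord3_iff.mpr ⟨rfl, rfl, rfl, rfl, rfl, rfl⟩
  | D1 l hl => rw [hD1]; exact ord4_iff.mpr ⟨rfl, rfl, rfl, rfl, rfl, rfl, rfl, rfl, rfl, rfl⟩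
  | D2 a b => rw [hD2]; exact ord4_iff.mpr ⟨rfl, rfl, rfl, rfl, rfl, rfl, rfl, rfl, rfl, rfl⟩
  | D3 a => rw [hD3]; exact ord4_iff.mpr ⟨rfl, rfl, rfl, rfl, rfl, rfl, rfl, rfl, rfl, rfl⟩
  | D4 a b => rw [hD4]; exact ord4_iff.mpr ⟨rfl, rfl, rfl, rfl, rfl, rfl, rfl, rfl, rfl, rfl⟩
  | D5 => rw [hD5]; exact ord4_iff.mpr ⟨rfl, rfl, rfl, rfl, rfl, rfl, rfl, rfl, rfl, rfl⟩
  | D6 b c => rw [hD6]; exact ord4_iff.mpr ⟨rfl, rfl, rfl, rfl, rfl, rfl, rfl, rfl, rfl, rfl⟩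
  | E1 => rw [hE1]; exact ord5_iff.mpr ⟨rfl, rfl, rfl, rfl, rfl, rfl, rfl, rfl, rfl, rfl, rfl, rfl, rfl, rfl, rfl⟩
  | E2 => rw [hE2]; exact ord5_iff.mpr ⟨rfl, rfl, rfl, rfl, rfl, rfl, rfl, rfl, rfl, rfl, rfl, rfl, rfl, rfl, rfl⟩
  | E3 => rw [hE3]; exact ord5_iff.mpr ⟨rfl, rfl, rfl, rfl, rfl, rfl, rfl, rfl, rfl, rfl, rfl, rfl, rfl, rfl, rfl⟩
  | E4 => rw [hE4]; exact ord5_iff.mpr ⟨rfl, rfl, rfl, rfl, rfl, rfl, rfl, rfl, rfl, rfl, rfl, rfl, rfl, rfl, rfl⟩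
  | F1 a => rw [hF1]; exact ord6_iff.mpr ⟨rfl, rfl, rfl, rfl, rfl, rfl, rfl, rfl, rfl, rfl, rfl, rfl, rfl, rfl, rfl, rfl, rfl, rfl, rfl⟩
  | F2 => rw [hF2]; exact ord6_iff.mpr ⟨rfl, rfl, rfl, rfl, rfl, rfl, rfl, rfl, rfl, rfl, rfl, rfl, rfl, rfl, rfl, rfl, rfl, rfl, rfl⟩
  | G1 => rw [hG1]; exact ord7_iff.mpr ⟨rfl, rfl, rfl, rfl, rfl, rfl, rfl, rfl, rfl, rfl, rfl, rfl, rfl, rfl, rfl, rfl, rfl, rfl, rfl, rfl, rfl, rfl⟩
  | Z => rw [hZ]; exact ord8_iff.mpr ⟨rfl, rfl, rfl, rfl, rfl, rfl, rfl, rfl, rfl, rfl, rfl, rfl, rfl, rfl, rfl, rfl, rfl, rfl, rfl, rfl, rfl, rfl, rfl, rfl⟩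

theorem not_ord (n : NF k) (h : n.o < 8) : ¬ Ord (n.o + 1) n.h := by
  cases n with
  | A a b c => rw [hA]; exact fun e => one_ne_zero (ord2_iff.mp e).2.1
  | B1 a b => rw [hB1]; exact fun e => one_ne_zero (ord3_iff.mp e).2.2.2.2.1
  | B2 a b c => rw [hB2]; exact fun e => one_ne_zero (ord3_iff.mp e).2.2.2.1
  | B3 c => rw [hB3]; exact fun e => one_ne_zero (ord3_iff.mp e).2.2.2.1
  | C1 a b c => rw [hC1]; exact fun e => one_ne_zero (ord4_iff.mp e).2.2.2.2.2.2.1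
  | C2 a b c => rw [hC2]; exact fun e => one_ne_zero (ord4_iff.mp e).2.2.2.2.2.2.2.1
  | C3 c => rw [hC3]; exact fun e => one_ne_zero (ord4_iff.mp e).2.2.2.2.2.2.1
  | C4 c => rw [hC4]; exact fun e => one_ne_zero (ord4_iff.mp e).2.2.2.2.2.2.1
  | C5 => rw [hC5]; exact fun e => one_ne_zero (ord4_iff.mp e).2.2.2.2.2.2.1
  | C6 d => rw [hC6]; exact fun e => one_ne_zero (ord4_iff.mp e).2.2.2.2.2.2.1
  | D1 l hl => rw [hD1]; exact fun e => one_ne_zero (ord5_iff.mp e).2.2.2.2.2.2.2.2.2.2.2.1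
  | D2 a b => rw [hD2]; exact fun e => one_ne_zero (ord5_iff.mp e).2.2.2.2.2.2.2.2.2.2.1
  | D3 a => rw [hD3]; exact fun e => one_ne_zero (ord5_iff.mp e).2.2.2.2.2.2.2.2.2.2.2.2.1
  | D4 a b => rw [hD4]; exact fun e => one_ne_zero (ord5_iff.mp e).2.2.2.2.2.2.2.2.2.2.2.1
  | D5 => rw [hD5]; exact fun e => one_ne_zero (ord5_iff.mp e).2.2.2.2.2.2.2.2.2.2.1
  | D6 b c => rw [hD6]; exact fun e => one_ne_zero (ord5_iff.mp e).2.2.2.2.2.2.2.2.2.2.1
  | E1 => rw [hE1]; exact fun e => one_ne_zero (ord6_iff.mp e).2.2.2.2.2.2.2.2.2.2.2.2.2.2.2.2.1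
  | E2 => rw [hE2]; exact fun e => one_ne_zero (ord6_iff.mp e).2.2.2.2.2.2.2.2.2.2.2.2.2.2.2.2.1
  | E3 => rw [hE3]; exact fun e => one_ne_zero (ord6_iff.mp e).2.2.2.2.2.2.2.2.2.2.2.2.2.2.2.1
  | E4 => rw [hE4]; exact fun e => one_ne_zero (ord6_iff.mp e).2.2.2.2.2.2.2.2.2.2.2.2.2.2.2.1
  | F1 a => rw [hF1]; exact fun e => a.ne_zero (ord7_iff.mp e).2.2.2.2.2.2.2.2.2.2.2.2.2.2.2.2.2.2.2.2.1
  | F2 => rw [hF2]; exact fun e => one_ne_zero (ord7_iff.mp e).2.2.2.2.2.2.2.2.2.2.2.2.2.2.2.2.2.2.2.1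
  | G1 => rw [hG1]; exact fun e => one_ne_zero (ord8_iff.mp e).2.2.2.2.2.2.2.2.2.2.2.2.2.2.2.2.2.2.2.2.2.2.1
  | Z => exact absurd h (lt_irrefl 8)

theorem o_le (n : NF k) : n.o ≤ 8 := by cases n <;> simp [NF.o]

theorem o_pos (n : NF k) : 1 ≤ n.o := by cases n <;> simp [NF.o]

theorem o_eq {n n' : NF k} (r : Rel n.h n'.h) : n.o = n'.o := by
  rcases lt_trichotomy n.o n'.o with h | h | h
  · exact absurd (r.symm.ord ((ord_o n').mono h)) (not_ord n (lt_of_lt_of_le h (o_le n')))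
  · exact h
  · exact absurd (r.ord ((ord_o n).mono h)) (not_ord n' (lt_of_lt_of_le h (o_le n)))

theorem top_h (n : NF k) : top n.h = 0 := by
  cases n with
  | A a b c => rw [hA]; exact top_coord ..
  | B1 a b => rw [hB1]; exact top_coord ..
  | B2 a b c => rw [hB2]; exact top_coord ..
  | B3 c => rw [hB3]; exact top_coord ..
  | C1 a b c => rw [hC1]; exact top_coord ..
  | C2 a b c => rw [hC2]; exact top_coord ..
  | C3 c => rw [hC3]; exact top_coord ..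
  | C4 c => rw [hC4]; exact top_coord ..
  | C5 => rw [hC5]; exact top_coord ..
  | C6 d => rw [hC6]; exact top_coord ..
  | D1 l hl => rw [hD1]; exact top_coord ..
  | D2 a b => rw [hD2]; exact top_coord ..
  | D3 a => rw [hD3]; exact top_coord ..
  | D4 a b => rw [hD4]; exact top_coord ..
  | D5 => rw [hD5]; exact top_coord ..
  | D6 b c => rw [hD6]; exact top_coord ..
  | E1 => rw [hE1]; exact top_coord ..
  | E2 => rw [hE2]; exact top_coord ..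
  | E3 => rw [hE3]; exact top_coord ..
  | E4 => rw [hE4]; exact top_coord ..
  | F1 a => rw [hF1]; exact top_coord ..
  | F2 => rw [hF2]; exact top_coord ..
  | G1 => rw [hG1]; exact top_coord ..
  | Z => rw [hZ]; exact top_coord ..

theorem uqA (a b c : k) (n' : NF k) (r : Rel (NF.A a b c : NF k).h n'.h) :
    (NF.A a b c : NF k).Rule n' := by
  have ho := o_eq r
  cases n' with
  | A A B C =>
    rw [hA, hA] at r
    obtain ⟨l, hl, rfl, rfl, rfl⟩ := sA_of r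
    exact ⟨l, hl, rfl⟩
  | _ => exact absurd ho (by simp [NF.o])

theorem uqB1 (a b : k) (n' : NF k) (r : Rel (NF.B1 a b : NF k).h n'.h) :
    (NF.B1 a b : NF k).Rule n' := by
  have ho := o_eq r
  cases n' with
  | B1 A B =>
    rw [hB1, hB1] at r
    obtain ⟨s, hs, rfl, rfl⟩ := sB1_of r
    exact ⟨s, hs, rfl⟩
  | B2 A B C =>
    rw [hB1, hB2] at r
    obtain ⟨c, hc, e1⟩ := inv2 r
    exfalso; clear * - hp hc e1; grind
  | B3 C =>
    rw [hB1, hB3] at r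
    obtain ⟨c, hc, e1⟩ := inv2 r
    exfalso; clear * - hp hc e1; grind
  | _ => exact absurd ho (by simp [NF.o])

theorem uqB2 (a b c : k) (n' : NF k) (r : Rel (NF.B2 a b c : NF k).h n'.h) :
    (NF.B2 a b c : NF k).Rule n' := by
  have ho := o_eq r
  cases n' with
  | B1 A B =>
    rw [hB2, hB1] at r
    obtain ⟨c, hc, e1⟩ := inv2 r
    exfalso; clear * - hp hc e1; grind
  | B2 A B C =>
    rw [hB2, hB2] at r
    obtain ⟨t, ht, rfl, rfl, rfl, -⟩ := sB2_of r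
    exact ⟨t, ht, rfl⟩
  | B3 C =>
    rw [hB2, hB3] at r
    obtain ⟨t, ht, -, -, -, e⟩ := sB2_of r.symm
    exact (ht (by linear_combination -e rfl rfl)).elim
  | _ => exact absurd ho (by simp [NF.o])

theorem uqB3 (c : k) (n' : NF k) (r : Rel (NF.B3 c : NF k).h n'.h) :
    (NF.B3 c : NF k).Rule n' := by
  have ho := o_eq r
  cases n' with
  | B1 A B =>
    rw [hB3, hB1] at r
    obtain ⟨c, hc, e1⟩ := inv2 r
    exfalso; clear * - hp hc e1; grind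
  | B2 A B C =>
    rw [hB3, hB2] at r
    obtain ⟨t, ht, -, -, -, e⟩ := sB2_of r
    exact (ht (by linear_combination -e rfl rfl)).elim
  | B3 C =>
    rw [hB3, hB3] at r
    obtain ⟨t, ht, -, -, e1, e⟩ := sB2_of r
    have e2 : t = 1 := by linear_combination -e rfl rfl
    rw [e1, e2, one_pow, one_mul]; rfl
  | _ => exact absurd ho (by simp [NF.o])

theorem uqC1 (a b c : k) (n' : NF k) (r : Rel (NF.C1 a b c : NF k).h n'.h) :
    (NF.C1 a b c : NF k).Rule n' := by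
  have ho := o_eq r
  cases n' with
  | C1 A B C =>
    rw [hC1, hC1] at r
    obtain ⟨s, t, ⟨hs, ht, rfl, rfl, rfl⟩ | ⟨hs, ht, rfl, rfl, rfl⟩⟩ := sC1_of r
    · exact ⟨s, t, Or.inl ⟨hs, ht, rfl⟩⟩
    · exact ⟨s, t, Or.inr ⟨hs, ht, rfl⟩⟩
  | C2 A B C =>
    rw [hC1, hC2] at r
    obtain ⟨c, hc, e1⟩ := inv3 r
    exfalso; clear * - hp hc e1; grind
  | C3 C =>
    rw [hC1, hC3] at r
    obtain ⟨c, hc, e1⟩ := inv3 r
    exfalso; clear * - hp hc e1; grind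
  | C4 C =>
    rw [hC1, hC4] at r
    obtain ⟨c, hc, e1⟩ := inv3 r
    exfalso; clear * - hp hc e1; grind
  | C5 =>
    rw [hC1, hC5] at r
    obtain ⟨c, hc, e1⟩ := inv3 r
    exfalso; clear * - hp hc e1; grind
  | C6 D =>
    rw [hC1, hC6] at r
    obtain ⟨c, hc, e1⟩ := inv3 r
    exfalso; clear * - hp hc e1; grind
  | _ => exact absurd ho (by simp [NF.o])

theorem uqC2 (a b c : k) (n' : NF k) (r : Rel (NF.C2 a b c : NF k).h n'.h) :
    (NF.C2 a b c : NF k).Rule n' := by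
  have ho := o_eq r
  cases n' with
  | C1 A B C =>
    rw [hC2, hC1] at r
    obtain ⟨c, hc, e1⟩ := inv3 r
    exfalso; clear * - hp hc e1; grind
  | C2 A B C =>
    rw [hC2, hC2] at r
    obtain ⟨t, ht, rfl, rfl, rfl⟩ := sC2_of r
    exact ⟨t, ht, rfl⟩
  | C3 C =>
    rw [hC2, hC3] at r
    exact (sepC r.symm).elim
  | C4 C =>
    rw [hC2, hC4] at r
    exact (sepC r.symm).elim
  | C5 =>
    rw [hC2, hC5] at r
    exact (sepC r.symm).elim
  | C6 D =>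
    rw [hC2, hC6] at r
    exact (sepC r.symm).elim
  | _ => exact absurd ho (by simp [NF.o])

theorem uqC3 (c : k) (n' : NF k) (r : Rel (NF.C3 c : NF k).h n'.h) :
    (NF.C3 c : NF k).Rule n' := by
  have ho := o_eq r
  cases n' with
  | C1 A B C =>
    rw [hC3, hC1] at r
    obtain ⟨c, hc, e1⟩ := inv3 r
    exfalso; clear * - hp hc e1; grind
  | C2 A B C =>
    rw [hC3, hC2] at r
    exact (sepC r).elim
  | C3 C =>
    rw [hC3, hC3] at r
    obtain ⟨s, t, hs, ht, e1, rfl, -, -⟩ := sC3_of r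
    exact ⟨s ^ 2 * t, by clear * - hp ht e1; grind, rfl⟩
  | C4 C =>
    rw [hC3, hC4] at r
    obtain ⟨s, t, hs, ht, e, -⟩ := sC3_of r.symm
    exact (one_ne_zero (by linear_combination e : (1 : k) = 0)).elim
  | C5 =>
    rw [hC3, hC5] at r
    obtain ⟨s, t, hs, ht, e, -⟩ := sC3_of r.symm
    exact (one_ne_zero (by linear_combination e : (1 : k) = 0)).elim
  | C6 D =>
    rw [hC3, hC6] at r
    obtain ⟨s, t, hs, ht, e, -⟩ := sC3_of r.symm
    exact (one_ne_zero (by linear_combination e : (1 : k) = 0)).elim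
  | _ => exact absurd ho (by simp [NF.o])

theorem uqC4 (c : k) (n' : NF k) (r : Rel (NF.C4 c : NF k).h n'.h) :
    (NF.C4 c : NF k).Rule n' := by
  have ho := o_eq r
  cases n' with
  | C1 A B C =>
    rw [hC4, hC1] at r
    obtain ⟨c, hc, e1⟩ := inv3 r
    exfalso; clear * - hp hc e1; grind
  | C2 A B C =>
    rw [hC4, hC2] at r
    exact (sepC r).elim
  | C3 C =>
    rw [hC4, hC3] at r
    obtain ⟨s, t, hs, ht, e, -⟩ := sC3_of r
    exact (one_ne_zero (by linear_combination e : (1 : k) = 0)).elim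
  | C4 C =>
    rw [hC4, hC4] at r
    obtain ⟨s, t, hs, ht, -, e1, e2, -⟩ := sC3_of r
    have e3 : C = t * c := by linear_combination e1 - t * c * e2 rfl
    exact ⟨t, ht, by rw [e3]⟩
  | C5 =>
    rw [hC4, hC5] at r
    obtain ⟨s, t, hs, ht, -, -, e, -⟩ := sC3_of r.symm
    exact (one_ne_zero (by linear_combination e rfl : (1 : k) = 0)).elim
  | C6 D =>
    rw [hC4, hC6] at r
    obtain ⟨s, t, hs, ht, -, -, e, -⟩ := sC3_of r.symm
    exact (one_ne_zero (by linear_combination e rfl : (1 : k) = 0)).elim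
  | _ => exact absurd ho (by simp [NF.o])

theorem uqC5 (n' : NF k) (r : Rel (NF.C5 : NF k).h n'.h) :
    (NF.C5 : NF k).Rule n' := by
  have ho := o_eq r
  cases n' with
  | C1 A B C =>
    rw [hC5, hC1] at r
    obtain ⟨c, hc, e1⟩ := inv3 r
    exfalso; clear * - hp hc e1; grind
  | C2 A B C =>
    rw [hC5, hC2] at r
    exact (sepC r).elim
  | C3 C =>
    rw [hC5, hC3] at r
    obtain ⟨s, t, hs, ht, e, -⟩ := sC3_of r
    exact (one_ne_zero (by linear_combination e : (1 : k) = 0)).elim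
  | C4 C =>
    rw [hC5, hC4] at r
    obtain ⟨s, t, hs, ht, -, -, e, -⟩ := sC3_of r
    exact (one_ne_zero (by linear_combination e rfl : (1 : k) = 0)).elim
  | C5 =>
    rfl
  | C6 D =>
    rw [hC5, hC6] at r
    obtain ⟨s, t, hs, ht, -, e, -⟩ := sC3_of r.symm
    exact (one_ne_zero (by linear_combination e : (1 : k) = 0)).elim
  | _ => exact absurd ho (by simp [NF.o])

theorem uqC6 (d : k) (n' : NF k) (r : Rel (NF.C6 d : NF k).h n'.h) :
    (NF.C6 d : NF k).Rule n' := by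
  have ho := o_eq r
  cases n' with
  | C1 A B C =>
    rw [hC6, hC1] at r
    obtain ⟨c, hc, e1⟩ := inv3 r
    exfalso; clear * - hp hc e1; grind
  | C2 A B C =>
    rw [hC6, hC2] at r
    exact (sepC r).elim
  | C3 C =>
    rw [hC6, hC3] at r
    obtain ⟨s, t, hs, ht, e, -⟩ := sC3_of r
    exact (one_ne_zero (by linear_combination e : (1 : k) = 0)).elim
  | C4 C =>
    rw [hC6, hC4] at r
    obtain ⟨s, t, hs, ht, -, -, e, -⟩ := sC3_of r
    exact (one_ne_zero (by linear_combination e rfl : (1 : k) = 0)).elim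
  | C5 =>
    rw [hC6, hC5] at r
    obtain ⟨s, t, hs, ht, -, e, -⟩ := sC3_of r
    exact (one_ne_zero (by linear_combination e : (1 : k) = 0)).elim
  | C6 D =>
    rw [hC6, hC6] at r
    obtain ⟨s, t, hs, ht, -, -, -, e⟩ := sC3_of r
    exact ⟨t, ht, by rw [e rfl rfl rfl]⟩
  | _ => exact absurd ho (by simp [NF.o])

theorem uqD1 (l : k) (hl : l ^ 2 ≠ 3) (n' : NF k) (r : Rel (NF.D1 l hl : NF k).h n'.h) :
    (NF.D1 l hl : NF k).Rule n' := by
  have ho := o_eq r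
  cases n' with
  | D1 L hL =>
    rw [hD1, hD1] at r
    obtain ⟨c, hc, e1, e2⟩ := inv4 r
    have g1 : c ^ 2 * (L ^ 2 - 3) = l ^ 2 - 3 := by linear_combination e1
    have g2 : c ^ 3 * (9 * L - 2 * L ^ 3) = 9 * l - 2 * l ^ 3 := by linear_combination e2
    have g3 : c ^ 6 * (L ^ 2 - 4) = l ^ 2 - 4 := by clear * - hp g1 g2; grind
    exact ⟨L, hL, rfl, by rw [← g1, ← g3]; ring⟩
  | D2 A B =>
    rw [hD1, hD2] at r
    obtain ⟨c, hc, e1, e2⟩ := inv4 r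
    exfalso; clear * - hp hc e1 e2 hl; grind
  | D3 A =>
    rw [hD1, hD3] at r
    exact (sepD3 r.symm).elim
  | D4 A B =>
    rw [hD1, hD4] at r
    obtain ⟨c, hc, e1, e2⟩ := inv4 r
    exfalso; clear * - hp hc e1 e2 hl; grind
  | D5 =>
    rw [hD1, hD5] at r
    obtain ⟨c, hc, e1, e2⟩ := inv4 r
    exfalso; clear * - hp hc e1 e2 hl; grind
  | D6 B C =>
    rw [hD1, hD6] at r
    obtain ⟨c, hc, e1, e2⟩ := inv4 r
    exfalso; clear * - hp hc e1 e2 hl; grind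
  | _ => exact absurd ho (by simp [NF.o])

theorem uqD2 (a b : k) (n' : NF k) (r : Rel (NF.D2 a b : NF k).h n'.h) :
    (NF.D2 a b : NF k).Rule n' := by
  have ho := o_eq r
  cases n' with
  | D1 L hL =>
    rw [hD2, hD1] at r
    obtain ⟨c, hc, e1, e2⟩ := inv4 r
    exfalso; clear * - hp hc e1 e2 hL; grind
  | D2 A B =>
    rw [hD2, hD2] at r
    exact ⟨A, B, rfl, sD2_of r⟩
  | D3 A =>
    rw [hD2, hD3] at r
    obtain ⟨c, hc, e1, e2⟩ := inv4 r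
    exfalso; clear * - hp hc e1 e2; grind
  | D4 A B =>
    rw [hD2, hD4] at r
    obtain ⟨c, hc, e1, e2⟩ := inv4 r
    exfalso; clear * - hp hc e1 e2; grind
  | D5 =>
    rw [hD2, hD5] at r
    obtain ⟨c, hc, e1, e2⟩ := inv4 r
    exfalso; clear * - hp hc e1 e2; grind
  | D6 B C =>
    rw [hD2, hD6] at r
    obtain ⟨c, hc, e1, e2⟩ := inv4 r
    exfalso; clear * - hp hc e1 e2; grind
  | _ => exact absurd ho (by simp [NF.o])

theorem uqD3 (a : k) (n' : NF k) (r : Rel (NF.D3 a : NF k).h n'.h) :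
    (NF.D3 a : NF k).Rule n' := by
  have ho := o_eq r
  cases n' with
  | D1 L hL =>
    rw [hD3, hD1] at r
    exact (sepD3 r).elim
  | D2 A B =>
    rw [hD3, hD2] at r
    obtain ⟨c, hc, e1, e2⟩ := inv4 r
    exfalso; clear * - hp hc e1 e2; grind
  | D3 A =>
    rw [hD3, hD3] at r
    rcases sD3_of r with rfl | rfl
    · exact Or.inl rfl
    · exact Or.inr rfl
  | D4 A B =>
    rw [hD3, hD4] at r
    obtain ⟨c, hc, e1, e2⟩ := inv4 r
    exfalso; clear * - hp hc e1 e2; grind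
  | D5 =>
    rw [hD3, hD5] at r
    obtain ⟨c, hc, e1, e2⟩ := inv4 r
    exfalso; clear * - hp hc e1 e2; grind
  | D6 B C =>
    rw [hD3, hD6] at r
    obtain ⟨c, hc, e1, e2⟩ := inv4 r
    exfalso; clear * - hp hc e1 e2; grind
  | _ => exact absurd ho (by simp [NF.o])

theorem uqD4 (a b : k) (n' : NF k) (r : Rel (NF.D4 a b : NF k).h n'.h) :
    (NF.D4 a b : NF k).Rule n' := by
  have ho := o_eq r
  cases n' with
  | D1 L hL =>
    rw [hD4, hD1] at r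
    obtain ⟨c, hc, e1, e2⟩ := inv4 r
    exfalso; clear * - hp hc e1 e2 hL; grind
  | D2 A B =>
    rw [hD4, hD2] at r
    obtain ⟨c, hc, e1, e2⟩ := inv4 r
    exfalso; clear * - hp hc e1 e2; grind
  | D3 A =>
    rw [hD4, hD3] at r
    obtain ⟨c, hc, e1, e2⟩ := inv4 r
    exfalso; clear * - hp hc e1 e2; grind
  | D4 A B =>
    rw [hD4, hD4] at r
    obtain ⟨t, u, ht, hu, rfl, rfl⟩ := sD4_of r
    exact ⟨t, u, ht, hu, rfl⟩
  | D5 =>
    rw [hD4, hD5] at r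
    exact (sepD5 r.symm).elim
  | D6 B C =>
    rw [hD4, hD6] at r
    exact (sepD5 r.symm).elim
  | _ => exact absurd ho (by simp [NF.o])

theorem uqD5 (n' : NF k) (r : Rel (NF.D5 : NF k).h n'.h) :
    (NF.D5 : NF k).Rule n' := by
  have ho := o_eq r
  cases n' with
  | D1 L hL =>
    rw [hD5, hD1] at r
    obtain ⟨c, hc, e1, e2⟩ := inv4 r
    exfalso; clear * - hp hc e1 e2 hL; grind
  | D2 A B =>
    rw [hD5, hD2] at r
    obtain ⟨c, hc, e1, e2⟩ := inv4 r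
    exfalso; clear * - hp hc e1 e2; grind
  | D3 A =>
    rw [hD5, hD3] at r
    obtain ⟨c, hc, e1, e2⟩ := inv4 r
    exfalso; clear * - hp hc e1 e2; grind
  | D4 A B =>
    rw [hD5, hD4] at r
    exact (sepD5 r).elim
  | D5 =>
    rfl
  | D6 B C =>
    rw [hD5, hD6] at r
    obtain ⟨t, ht, e, -⟩ := sD5_of r.symm
    exact (one_ne_zero (by linear_combination e : (1 : k) = 0)).elim
  | _ => exact absurd ho (by simp [NF.o])

theorem uqD6 (b c : k) (n' : NF k) (r : Rel (NF.D6 b c : NF k).h n'.h) :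
    (NF.D6 b c : NF k).Rule n' := by
  have ho := o_eq r
  cases n' with
  | D1 L hL =>
    rw [hD6, hD1] at r
    obtain ⟨c, hc, e1, e2⟩ := inv4 r
    exfalso; clear * - hp hc e1 e2 hL; grind
  | D2 A B =>
    rw [hD6, hD2] at r
    obtain ⟨c, hc, e1, e2⟩ := inv4 r
    exfalso; clear * - hp hc e1 e2; grind
  | D3 A =>
    rw [hD6, hD3] at r
    obtain ⟨c, hc, e1, e2⟩ := inv4 r
    exfalso; clear * - hp hc e1 e2; grind
  | D4 A B =>
    rw [hD6, hD4] at r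
    exact (sepD5 r).elim
  | D5 =>
    rw [hD6, hD5] at r
    obtain ⟨t, ht, e, -⟩ := sD5_of r
    exact (one_ne_zero (by linear_combination e : (1 : k) = 0)).elim
  | D6 B C =>
    rw [hD6, hD6] at r
    obtain ⟨t, ht, -, e⟩ := sD5_of r
    obtain ⟨rfl, rfl⟩ := e rfl
    exact ⟨t, ht, rfl⟩
  | _ => exact absurd ho (by simp [NF.o])

theorem uqE1 (n' : NF k) (r : Rel (NF.E1 : NF k).h n'.h) :
    (NF.E1 : NF k).Rule n' := by
  have ho := o_eq r
  cases n' with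
  | E1 =>
    rfl
  | E2 =>
    rw [hE1, hE2] at r
    obtain ⟨c, hc, e1⟩ := inv5 r
    exfalso; clear * - hp hc e1; grind
  | E3 =>
    rw [hE1, hE3] at r
    obtain ⟨c, hc, e1⟩ := inv5 r
    exfalso; clear * - hp hc e1; grind
  | E4 =>
    rw [hE1, hE4] at r
    obtain ⟨c, hc, e1⟩ := inv5 r
    exfalso; clear * - hp hc e1; grind
  | _ => exact absurd ho (by simp [NF.o])

theorem uqE2 (n' : NF k) (r : Rel (NF.E2 : NF k).h n'.h) :
    (NF.E2 : NF k).Rule n' := by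
  have ho := o_eq r
  cases n' with
  | E1 =>
    rw [hE2, hE1] at r
    obtain ⟨c, hc, e1⟩ := inv5 r
    exfalso; clear * - hp hc e1; grind
  | E2 =>
    rfl
  | E3 =>
    rw [hE2, hE3] at r
    exact (sepE r.symm).elim
  | E4 =>
    rw [hE2, hE4] at r
    exact (sepE r.symm).elim
  | _ => exact absurd ho (by simp [NF.o])

theorem uqE3 (n' : NF k) (r : Rel (NF.E3 : NF k).h n'.h) :
    (NF.E3 : NF k).Rule n' := by
  have ho := o_eq r
  cases n' with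
  | E1 =>
    rw [hE3, hE1] at r
    obtain ⟨c, hc, e1⟩ := inv5 r
    exfalso; clear * - hp hc e1; grind
  | E2 =>
    rw [hE3, hE2] at r
    exact (sepE r).elim
  | E3 =>
    rfl
  | E4 =>
    rw [hE3, hE4] at r
    obtain ⟨t, ht, e⟩ := sE3_of r.symm
    exact (one_ne_zero (by linear_combination e : (1 : k) = 0)).elim
  | _ => exact absurd ho (by simp [NF.o])

theorem uqE4 (n' : NF k) (r : Rel (NF.E4 : NF k).h n'.h) :
    (NF.E4 : NF k).Rule n' := by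
  have ho := o_eq r
  cases n' with
  | E1 =>
    rw [hE4, hE1] at r
    obtain ⟨c, hc, e1⟩ := inv5 r
    exfalso; clear * - hp hc e1; grind
  | E2 =>
    rw [hE4, hE2] at r
    exact (sepE r).elim
  | E3 =>
    rw [hE4, hE3] at r
    obtain ⟨t, ht, e⟩ := sE3_of r
    exact (one_ne_zero (by linear_combination e : (1 : k) = 0)).elim
  | E4 =>
    rfl
  | _ => exact absurd ho (by simp [NF.o])

theorem uqF1 (a : kˣ) (n' : NF k) (r : Rel (NF.F1 a : NF k).h n'.h) :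
    (NF.F1 a : NF k).Rule n' := by
  have ho := o_eq r
  cases n' with
  | F1 A =>
    rw [hF1, hF1] at r
    obtain ⟨c, hc, e1⟩ := inv6 r
    have e : ((A : k) - a) * ((A : k) - -a) = 0 := by linear_combination e1
    rcases mul_eq_zero.mp e with e | e
    · exact Or.inl (by rw [Units.ext (sub_eq_zero.mp e)])
    · exact Or.inr (by rw [show A = -a from Units.ext (sub_eq_zero.mp e)])
  | F2 =>
    rw [hF1, hF2] at r
    obtain ⟨c, hc, e1⟩ := inv6 r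
    exact (a.ne_zero (pow_eq_zero_iff (n := 2) (by norm_num) |>.mp (by linear_combination -e1))).elim
  | _ => exact absurd ho (by simp [NF.o])

theorem uqF2 (n' : NF k) (r : Rel (NF.F2 : NF k).h n'.h) :
    (NF.F2 : NF k).Rule n' := by
  have ho := o_eq r
  cases n' with
  | F1 A =>
    rw [hF2, hF1] at r
    obtain ⟨c, hc, e1⟩ := inv6 r.symm
    exact (A.ne_zero (pow_eq_zero_iff (n := 2) (by norm_num) |>.mp (by linear_combination -e1))).elim
  | F2 =>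
    rfl
  | _ => exact absurd ho (by simp [NF.o])

theorem uqG1 (n' : NF k) (r : Rel (NF.G1 : NF k).h n'.h) :
    (NF.G1 : NF k).Rule n' := by
  have ho := o_eq r
  cases n' with
  | G1 =>
    rfl
  | _ => exact absurd ho (by simp [NF.o])

theorem uqZ (n' : NF k) (r : Rel (NF.Z : NF k).h n'.h) :
    (NF.Z : NF k).Rule n' := by
  have ho := o_eq r
  cases n' with
  | Z =>
    rfl
  | _ => exact absurd ho (by simp [NF.o])

theorem rule_of_rel {n n' : NF k} (r : Rel n.h n'.h) : n.Rule n' := by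
  cases n with
  | A a b c => exact uqA a b c n' r
  | B1 a b => exact uqB1 a b n' r
  | B2 a b c => exact uqB2 a b c n' r
  | B3 c => exact uqB3 c n' r
  | C1 a b c => exact uqC1 a b c n' r
  | C2 a b c => exact uqC2 a b c n' r
  | C3 c => exact uqC3 c n' r
  | C4 c => exact uqC4 c n' r
  | C5 => exact uqC5 n' r
  | C6 d => exact uqC6 d n' r
  | D1 l hl => exact uqD1 l hl n' r
  | D2 a b => exact uqD2 a b n' r
  | D3 a => exact uqD3 a n' r
  | D4 a b => exact uqD4 a b n' r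
  | D5 => exact uqD5 n' r
  | D6 b c => exact uqD6 b c n' r
  | E1 => exact uqE1 n' r
  | E2 => exact uqE2 n' r
  | E3 => exact uqE3 n' r
  | E4 => exact uqE4 n' r
  | F1 a => exact uqF1 a n' r
  | F2 => exact uqF2 n' r
  | G1 => exact uqG1 n' r
  | Z => exact uqZ n' r

theorem rel_of_rule [IsAlgClosed k] {n n' : NF k} (r : n.Rule n') : Rel n.h n'.h := by
  cases n with
  | A a b c =>
    obtain ⟨l, hl, rfl⟩ := r
    rw [hA, hA]; exact vA a b c l hl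
  | B1 a b =>
    obtain ⟨s, hs, rfl⟩ := r
    rw [hB1, hB1]; exact vB1 a b s hs
  | B2 a b c =>
    obtain ⟨s, hs, rfl⟩ := r
    rw [hB2, hB2]; exact vB2 a b c s hs
  | B3 c =>
    obtain rfl : n' = .B3 c := r
    exact Rel.refl _
  | C1 a b c =>
    obtain ⟨s, t, ⟨hs, ht, rfl⟩ | ⟨hs, ht, rfl⟩⟩ := r
    · rw [hC1, hC1]; exact vC1 a b c s t hs ht
    · rw [hC1, hC1]; exact vC1s a b c s t hs ht
  | C2 a b c =>
    obtain ⟨s, hs, rfl⟩ := r
    rw [hC2, hC2]; exact vC2 a b c s hs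
  | C3 c =>
    obtain ⟨s, hs, rfl⟩ := r
    rw [hC3, hC3]; exact vC3 c s hs
  | C4 c =>
    obtain ⟨s, hs, rfl⟩ := r
    rw [hC4, hC4]; exact vC4 c s hs
  | C5 =>
    obtain rfl : n' = .C5 := r
    exact Rel.refl _
  | C6 d =>
    obtain ⟨s, hs, rfl⟩ := r
    rw [hC6, hC6]; exact vC6 d s hs
  | D1 l hl =>
    obtain ⟨L, hL, rfl, e⟩ := r
    rw [hD1, hD1]; exact vD1 l L hl hL e
  | D2 a b =>
    obtain ⟨A, B, rfl, h1, h2⟩ := r
    rw [hD2, hD2]; exact vD2 a b A B h1 h2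
  | D3 a =>
    rcases r with rfl | rfl
    · exact Rel.refl _
    · rw [hD3, hD3]; exact vD3 a
  | D4 a b =>
    obtain ⟨t, u, ht, hu, rfl⟩ := r
    rw [hD4, hD4]; exact vD4 a b t u ht hu
  | D5 =>
    obtain rfl : n' = .D5 := r
    exact Rel.refl _
  | D6 b c =>
    obtain ⟨s, hs, rfl⟩ := r
    rw [hD6, hD6]; exact vD6 b c s hs
  | E1 =>
    obtain rfl : n' = .E1 := r
    exact Rel.refl _
  | E2 =>
    obtain rfl : n' = .E2 := r
    exact Rel.refl _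
  | E3 =>
    obtain rfl : n' = .E3 := r
    exact Rel.refl _
  | E4 =>
    obtain rfl : n' = .E4 := r
    exact Rel.refl _
  | F1 a =>
    rcases r with rfl | rfl
    · exact Rel.refl _
    · rw [hF1, hF1, Units.val_neg]; exact vF1 (a : k)
  | F2 =>
    obtain rfl : n' = .F2 := r
    exact Rel.refl _
  | G1 =>
    obtain rfl : n' = .G1 := r
    exact Rel.refl _
  | Z =>
    obtain rfl : n' = .Z := r
    exact Rel.refl _

theorem main [IsAlgClosed k] :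
    (∀ n : NF k, ∃! χ : Module.Dual k (G k), Given0 χ n.h) ∧
    (∀ χ : Module.Dual k (G k), ∃ (n : NF k) (χ' : Module.Dual k (G k)),
      Given0 χ' n.h ∧ Conjugate (G k) χ χ') ∧
    ∀ (n n' : NF k) (χ χ' : Module.Dual k (G k)), Given0 χ n.h → Given0 χ' n'.h →
      (Conjugate (G k) χ χ' ↔ n.Rule n') := by
  refine ⟨fun n => ?_, fun χ => ?_, fun n n' χ χ' g g' => ?_⟩
  · obtain ⟨χ, g⟩ := given_exists (top_h n)
    exact ⟨χ, g, fun χ' g' => given_unique g g'⟩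
  · obtain ⟨a10, a01, a20, a11, a02, a30, a21, a12, a03, a40, a31, a22, a13, a04, a41, a32, a23, a14, a42, a33, a24, a43, a34, g⟩ := given_surj χ
    obtain ⟨n, r⟩ := ex1 a10 a01 a20 a11 a02 a30 a21 a12 a03 a40 a31 a22 a13 a04 a41 a32 a23 a14 a42 a33 a24 a43 a34
    obtain ⟨χ', g'⟩ := given_exists (top_h n)
    exact ⟨n, χ', g', (conj_iff g g' (ord1_iff.mpr rfl) ((ord_o n).mono (o_pos n))).mpr r⟩
  · rw [conj_iff g g' ((ord_o n).mono (o_pos n)) ((ord_o n').mono (o_pos n'))]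
    exact ⟨rule_of_rel, rel_of_rule⟩

end Pool.Agent.H25
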