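import Pool.Agent.P.MP_c9b50d_al.H.Coord

/-!
The filtration of O(2) by powers of the maximal ideal, substitutions and Jacobians.
-/

namespace Pool.Agent.H25

open MvPolynomial

variable {k : Type*} [Field k]

/-- The maximal ideal. -/
noncomputable def mx : Ideal (O k) := Ideal.span {x, y}

/-- Order at least d. -/
def Ord (d : ℕ) (f : O k) : Prop := f ∈ (mx : Ideal (O k)) ^ d

theorem mx_add (d e : ℕ) : (mx : Ideal (O k)) ^ (d + e) = mx ^ d * mx ^ e :=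
  pow_add (mx : Ideal (O k)) d e
theorem mx_one : (mx : Ideal (O k)) ^ 1 = mx := pow_one _
theorem ord0 (f : O k) : Ord 0 f := by simp [Ord]
theorem ord_zero (d : ℕ) : Ord d (0 : O k) := zero_mem _
theorem ord_zs (d : ℕ) (f : O k) : Ord d ((0 : k) • f) := by rw [zero_smul]; exact ord_zero _
theorem Ord.mono {d e : ℕ} {f : O k} (h : Ord e f) (hde : d ≤ e) : Ord d f :=
  Ideal.pow_le_pow_right hde h
theorem Ord.add {d : ℕ} {f g : O k} (h : Ord d f) (h' : Ord d g) : Ord d (f + g) := add_mem h h'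
theorem Ord.sub {d : ℕ} {f g : O k} (h : Ord d f) (h' : Ord d g) : Ord d (f - g) := sub_mem h h'
theorem Ord.neg {d : ℕ} {f : O k} (h : Ord d f) : Ord d (-f) := neg_mem h
theorem Ord.mul {d e : ℕ} {f g : O k} (h : Ord d f) (h' : Ord e g) : Ord (d + e) (f * g) := by
  unfold Ord
  rw [mx_add]
  exact Ideal.mul_mem_mul h h'
theorem Ord.mul_left {d : ℕ} {g : O k} (f : O k) (h : Ord d g) : Ord d (f * g) :=
  Ideal.mul_mem_left _ _ h
theorem Ord.smul {d : ℕ} {g : O k} (c : k) (h : Ord d g) : Ord d (c • g) := by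
  rw [sm]; exact h.mul_left _
theorem Ord.congr {d : ℕ} {f g : O k} (h : Ord d f) (e : f = g) : Ord d g := e ▸ h
theorem Ord.cast {d e : ℕ} {f : O k} (h : Ord d f) (e' : d = e) : Ord e f := e' ▸ h
theorem ord_x : Ord 1 (x : O k) := by
  unfold Ord; rw [mx_one]; exact Ideal.subset_span (by simp)
theorem ord_y : Ord 1 (y : O k) := by
  unfold Ord; rw [mx_one]; exact Ideal.subset_span (by simp)
theorem Ord.pow {f : O k} (h : Ord 1 f) (n : ℕ) : Ord n (f ^ n) := by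
  induction n with
  | zero => exact ord0 _
  | succ n ih => rw [pow_succ]; exact ih.mul h
theorem ord_m (i j : ℕ) : Ord (i + j) (m i j : O k) := (ord_x.pow i).mul (ord_y.pow j)

theorem ord_one {f : O k} (h : Ord 1 f) : ∃ p q : O k, f = p * x + q * y := by
  unfold Ord at h
  rw [mx_one, mx, Ideal.mem_span_pair] at h
  obtain ⟨p, q, h⟩ := h
  exact ⟨p, q, h.symm⟩

theorem ord_ind {p : ℕ → O k → Prop} (h0 : ∀ f, p 0 f)
    (ha : ∀ n f g, Ord n f → Ord n g → p n f → p n g → p n (f + g))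
    (hm : ∀ n f g, Ord 1 f → Ord n g → p n g → p (n + 1) (f * g)) :
    ∀ n f, Ord n f → p n f := by
  intro n f hf
  refine Submodule.pow_induction_on_left' (mx : Ideal (O k)) (C := fun n f _ => p n f) ?_ ?_ ?_ hf
  · intro r; exact h0 _
  · intro f g i hf hg; exact ha i f g hf hg
  · intro f hf i g hg; exact hm i f g (by unfold Ord; rwa [mx_one]) hg

theorem ord9 {f : O k} (h : Ord 9 f) : f = 0 := by
  have key : ∀ n (f : O k), Ord n f → ∀ i j, 9 ≤ n + i + j → f * m i j = 0 := by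
    refine ord_ind (fun f i j hij => ?_) (fun n f g _ _ hf hg i j hij => ?_)
      (fun n f g hf _ hg i j hij => ?_)
    · by_cases hi : 5 ≤ i
      · obtain ⟨r, rfl⟩ := Nat.exists_eq_add_of_le hi
        rw [m, pow_add, x5]; ring
      · obtain ⟨r, rfl⟩ := Nat.exists_eq_add_of_le (show 5 ≤ j by omega)
        rw [m, pow_add, y5]; ring
    · rw [add_mul, hf i j hij, hg i j hij, add_zero]
    · obtain ⟨p, q, rfl⟩ := ord_one hf
      have h1 := hg (i + 1) j (by omega)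
      have h2 := hg i (j + 1) (by omega)
      unfold m at *
      linear_combination p * h1 + q * h2
  simpa [m] using key 9 f h 0 0 (by omega)

theorem top_zero : top (0 : O k) = 0 := by rw [zero_eq, top_coord]

theorem top_sub (f g : O k) : top (f - g) = top f - top g := by
  rw [eq_sub_iff_add_eq, ← top_add, sub_add_cancel]

theorem top_neg (f : O k) : top (-f) = -top f := by
  rw [← zero_sub, top_sub, top_zero, zero_sub]

theorem ord_top {d : ℕ} {f : O k} (h : Ord d f) (i j : ℕ) (hij : 9 ≤ d + (i + j)) :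
    top (f * m i j) = 0 := by
  rw [ord9 ((h.mul (ord_m i j)).mono hij), top_zero]

section
variable (a00 a10 a01 a20 a11 a02 a30 a21 a12 a03 a40 a31 a22 a13 a04 a41 a32 a23 a14 a42 a33 a24 a43 a34 a44 : k)

theorem top_m00 : top (mk a00 a10 a01 a20 a11 a02 a30 a21 a12 a03 a40 a31 a22 a13 a04 a41 a32 a23 a14 a42 a33 a24 a43 a34 a44 * m 4 4) = a00 := by
  rw [m44, mk_mul, top_coord]; simp

theorem top_m10 : top (mk a00 a10 a01 a20 a11 a02 a30 a21 a12 a03 a40 a31 a22 a13 a04 a41 a32 a23 a14 a42 a33 a24 a43 a34 a44 * m 3 4) = a10 := by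
  rw [m34, mk_mul, top_coord]; simp

theorem top_m01 : top (mk a00 a10 a01 a20 a11 a02 a30 a21 a12 a03 a40 a31 a22 a13 a04 a41 a32 a23 a14 a42 a33 a24 a43 a34 a44 * m 4 3) = a01 := by
  rw [m43, mk_mul, top_coord]; simp

theorem top_m20 : top (mk a00 a10 a01 a20 a11 a02 a30 a21 a12 a03 a40 a31 a22 a13 a04 a41 a32 a23 a14 a42 a33 a24 a43 a34 a44 * m 2 4) = a20 := by
  rw [m24, mk_mul, top_coord]; simp

theorem top_m11 : top (mk a00 a10 a01 a20 a11 a02 a30 a21 a12 a03 a40 a31 a22 a13 a04 a41 a32 a23 a14 a42 a33 a24 a43 a34 a44 * m 3 3) = a11 := by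
  rw [m33, mk_mul, top_coord]; simp

theorem top_m02 : top (mk a00 a10 a01 a20 a11 a02 a30 a21 a12 a03 a40 a31 a22 a13 a04 a41 a32 a23 a14 a42 a33 a24 a43 a34 a44 * m 4 2) = a02 := by
  rw [m42, mk_mul, top_coord]; simp

theorem top_m30 : top (mk a00 a10 a01 a20 a11 a02 a30 a21 a12 a03 a40 a31 a22 a13 a04 a41 a32 a23 a14 a42 a33 a24 a43 a34 a44 * m 1 4) = a30 := by
  rw [m14, mk_mul, top_coord]; simp

theorem top_m21 : top (mk a00 a10 a01 a20 a11 a02 a30 a21 a12 a03 a40 a31 a22 a13 a04 a41 a32 a23 a14 a42 a33 a24 a43 a34 a44 * m 2 3) = a21 := by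
  rw [m23, mk_mul, top_coord]; simp

theorem top_m12 : top (mk a00 a10 a01 a20 a11 a02 a30 a21 a12 a03 a40 a31 a22 a13 a04 a41 a32 a23 a14 a42 a33 a24 a43 a34 a44 * m 3 2) = a12 := by
  rw [m32, mk_mul, top_coord]; simp

theorem top_m03 : top (mk a00 a10 a01 a20 a11 a02 a30 a21 a12 a03 a40 a31 a22 a13 a04 a41 a32 a23 a14 a42 a33 a24 a43 a34 a44 * m 4 1) = a03 := by
  rw [m41, mk_mul, top_coord]; simp

theorem top_m40 : top (mk a00 a10 a01 a20 a11 a02 a30 a21 a12 a03 a40 a31 a22 a13 a04 a41 a32 a23 a14 a42 a33 a24 a43 a34 a44 * m 0 4) = a40 := by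
  rw [m04, mk_mul, top_coord]; simp

theorem top_m31 : top (mk a00 a10 a01 a20 a11 a02 a30 a21 a12 a03 a40 a31 a22 a13 a04 a41 a32 a23 a14 a42 a33 a24 a43 a34 a44 * m 1 3) = a31 := by
  rw [m13, mk_mul, top_coord]; simp

theorem top_m22 : top (mk a00 a10 a01 a20 a11 a02 a30 a21 a12 a03 a40 a31 a22 a13 a04 a41 a32 a23 a14 a42 a33 a24 a43 a34 a44 * m 2 2) = a22 := by
  rw [m22, mk_mul, top_coord]; simp

theorem top_m13 : top (mk a00 a10 a01 a20 a11 a02 a30 a21 a12 a03 a40 a31 a22 a13 a04 a41 a32 a23 a14 a42 a33 a24 a43 a34 a44 * m 3 1) = a13 := by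
  rw [m31, mk_mul, top_coord]; simp

theorem top_m04 : top (mk a00 a10 a01 a20 a11 a02 a30 a21 a12 a03 a40 a31 a22 a13 a04 a41 a32 a23 a14 a42 a33 a24 a43 a34 a44 * m 4 0) = a04 := by
  rw [m40, mk_mul, top_coord]; simp

theorem top_m41 : top (mk a00 a10 a01 a20 a11 a02 a30 a21 a12 a03 a40 a31 a22 a13 a04 a41 a32 a23 a14 a42 a33 a24 a43 a34 a44 * m 0 3) = a41 := by
  rw [m03, mk_mul, top_coord]; simp

theorem top_m32 : top (mk a00 a10 a01 a20 a11 a02 a30 a21 a12 a03 a40 a31 a22 a13 a04 a41 a32 a23 a14 a42 a33 a24 a43 a34 a44 * m 1 2) = a32 := by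
  rw [m12, mk_mul, top_coord]; simp

theorem top_m23 : top (mk a00 a10 a01 a20 a11 a02 a30 a21 a12 a03 a40 a31 a22 a13 a04 a41 a32 a23 a14 a42 a33 a24 a43 a34 a44 * m 2 1) = a23 := by
  rw [m21, mk_mul, top_coord]; simp

theorem top_m14 : top (mk a00 a10 a01 a20 a11 a02 a30 a21 a12 a03 a40 a31 a22 a13 a04 a41 a32 a23 a14 a42 a33 a24 a43 a34 a44 * m 3 0) = a14 := by
  rw [m30, mk_mul, top_coord]; simp

theorem top_m42 : top (mk a00 a10 a01 a20 a11 a02 a30 a21 a12 a03 a40 a31 a22 a13 a04 a41 a32 a23 a14 a42 a33 a24 a43 a34 a44 * m 0 2) = a42 := by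
  rw [m02, mk_mul, top_coord]; simp

theorem top_m33 : top (mk a00 a10 a01 a20 a11 a02 a30 a21 a12 a03 a40 a31 a22 a13 a04 a41 a32 a23 a14 a42 a33 a24 a43 a34 a44 * m 1 1) = a33 := by
  rw [m11, mk_mul, top_coord]; simp

theorem top_m24 : top (mk a00 a10 a01 a20 a11 a02 a30 a21 a12 a03 a40 a31 a22 a13 a04 a41 a32 a23 a14 a42 a33 a24 a43 a34 a44 * m 2 0) = a24 := by
  rw [m20, mk_mul, top_coord]; simp

theorem top_m43 : top (mk a00 a10 a01 a20 a11 a02 a30 a21 a12 a03 a40 a31 a22 a13 a04 a41 a32 a23 a14 a42 a33 a24 a43 a34 a44 * m 0 1) = a43 := by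
  rw [m01, mk_mul, top_coord]; simp

theorem top_m34 : top (mk a00 a10 a01 a20 a11 a02 a30 a21 a12 a03 a40 a31 a22 a13 a04 a41 a32 a23 a14 a42 a33 a24 a43 a34 a44 * m 1 0) = a34 := by
  rw [m10, mk_mul, top_coord]; simp

theorem top_m44 : top (mk a00 a10 a01 a20 a11 a02 a30 a21 a12 a03 a40 a31 a22 a13 a04 a41 a32 a23 a14 a42 a33 a24 a43 a34 a44 * m 0 0) = a44 := by
  rw [m00, mk_mul, top_coord]; simp

end

theorem ord1_iff {a00 a10 a01 a20 a11 a02 a30 a21 a12 a03 a40 a31 a22 a13 a04 a41 a32 a23 a14 a42 a33 a24 a43 a34 a44 : k} :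
    Ord 1 (mk a00 a10 a01 a20 a11 a02 a30 a21 a12 a03 a40 a31 a22 a13 a04 a41 a32 a23 a14 a42 a33 a24 a43 a34 a44) ↔
    a00 = 0 := by
  constructor
  · intro h
    exact (top_m00 ..).symm.trans (ord_top h 4 4 (by norm_num))
  · rintro rfl
    unfold mk
    exact (Ord.add (Ord.add (Ord.add (Ord.add (Ord.add (Ord.add (Ord.add (Ord.add (Ord.add (Ord.add
      (Ord.add (Ord.add (Ord.add (Ord.add (Ord.add (Ord.add (Ord.add (Ord.add (Ord.add (Ord.add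
      (Ord.add (Ord.add (Ord.add (Ord.add (ord_zs _ _) (((ord_m 1 0).mono (by norm_num)).smul _))
      (((ord_m 0 1).mono (by norm_num)).smul _)) (((ord_m 2 0).mono (by norm_num)).smul _))
      (((ord_m 1 1).mono (by norm_num)).smul _)) (((ord_m 0 2).mono (by norm_num)).smul _))
      (((ord_m 3 0).mono (by norm_num)).smul _)) (((ord_m 2 1).mono (by norm_num)).smul _))
      (((ord_m 1 2).mono (by norm_num)).smul _)) (((ord_m 0 3).mono (by norm_num)).smul _))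
      (((ord_m 4 0).mono (by norm_num)).smul _)) (((ord_m 3 1).mono (by norm_num)).smul _))
      (((ord_m 2 2).mono (by norm_num)).smul _)) (((ord_m 1 3).mono (by norm_num)).smul _))
      (((ord_m 0 4).mono (by norm_num)).smul _)) (((ord_m 4 1).mono (by norm_num)).smul _))
      (((ord_m 3 2).mono (by norm_num)).smul _)) (((ord_m 2 3).mono (by norm_num)).smul _))
      (((ord_m 1 4).mono (by norm_num)).smul _)) (((ord_m 4 2).mono (by norm_num)).smul _))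
      (((ord_m 3 3).mono (by norm_num)).smul _)) (((ord_m 2 4).mono (by norm_num)).smul _))
      (((ord_m 4 3).mono (by norm_num)).smul _)) (((ord_m 3 4).mono (by norm_num)).smul _))
      (((ord_m 4 4).mono (by norm_num)).smul _))

theorem ord2_iff {a00 a10 a01 a20 a11 a02 a30 a21 a12 a03 a40 a31 a22 a13 a04 a41 a32 a23 a14 a42 a33 a24 a43 a34 a44 : k} :
    Ord 2 (mk a00 a10 a01 a20 a11 a02 a30 a21 a12 a03 a40 a31 a22 a13 a04 a41 a32 a23 a14 a42 a33 a24 a43 a34 a44) ↔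
    a00 = 0 ∧ a10 = 0 ∧ a01 = 0 := by
  constructor
  · intro h
    exact ⟨(top_m00 ..).symm.trans (ord_top h 4 4 (by norm_num)), (top_m10 ..).symm.trans (ord_top h 3 4
      (by norm_num)), (top_m01 ..).symm.trans (ord_top h 4 3 (by norm_num))⟩
  · rintro ⟨rfl, rfl, rfl⟩
    unfold mk
    exact (Ord.add (Ord.add (Ord.add (Ord.add (Ord.add (Ord.add (Ord.add (Ord.add (Ord.add (Ord.add
      (Ord.add (Ord.add (Ord.add (Ord.add (Ord.add (Ord.add (Ord.add (Ord.add (Ord.add (Ord.add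
      (Ord.add (Ord.add (Ord.add (Ord.add (ord_zs _ _) (ord_zs _ _)) (ord_zs _ _)) (((ord_m 2
      0).mono (by norm_num)).smul _)) (((ord_m 1 1).mono (by norm_num)).smul _)) (((ord_m 0
      2).mono (by norm_num)).smul _)) (((ord_m 3 0).mono (by norm_num)).smul _)) (((ord_m 2
      1).mono (by norm_num)).smul _)) (((ord_m 1 2).mono (by norm_num)).smul _)) (((ord_m 0
      3).mono (by norm_num)).smul _)) (((ord_m 4 0).mono (by norm_num)).smul _)) (((ord_m 3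
      1).mono (by norm_num)).smul _)) (((ord_m 2 2).mono (by norm_num)).smul _)) (((ord_m 1
      3).mono (by norm_num)).smul _)) (((ord_m 0 4).mono (by norm_num)).smul _)) (((ord_m 4
      1).mono (by norm_num)).smul _)) (((ord_m 3 2).mono (by norm_num)).smul _)) (((ord_m 2
      3).mono (by norm_num)).smul _)) (((ord_m 1 4).mono (by norm_num)).smul _)) (((ord_m 4
      2).mono (by norm_num)).smul _)) (((ord_m 3 3).mono (by norm_num)).smul _)) (((ord_m 2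
      4).mono (by norm_num)).smul _)) (((ord_m 4 3).mono (by norm_num)).smul _)) (((ord_m 3
      4).mono (by norm_num)).smul _)) (((ord_m 4 4).mono (by norm_num)).smul _))

theorem ord3_iff {a00 a10 a01 a20 a11 a02 a30 a21 a12 a03 a40 a31 a22 a13 a04 a41 a32 a23 a14 a42 a33 a24 a43 a34 a44 : k} :
    Ord 3 (mk a00 a10 a01 a20 a11 a02 a30 a21 a12 a03 a40 a31 a22 a13 a04 a41 a32 a23 a14 a42 a33 a24 a43 a34 a44) ↔
    a00 = 0 ∧ a10 = 0 ∧ a01 = 0 ∧ a20 = 0 ∧ a11 = 0 ∧ a02 = 0 := by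
  constructor
  · intro h
    exact ⟨(top_m00 ..).symm.trans (ord_top h 4 4 (by norm_num)), (top_m10 ..).symm.trans (ord_top h 3 4
      (by norm_num)), (top_m01 ..).symm.trans (ord_top h 4 3 (by norm_num)), (top_m20
      ..).symm.trans (ord_top h 2 4 (by norm_num)), (top_m11 ..).symm.trans (ord_top h 3 3 (by
      norm_num)), (top_m02 ..).symm.trans (ord_top h 4 2 (by norm_num))⟩
  · rintro ⟨rfl, rfl, rfl, rfl, rfl, rfl⟩
    unfold mk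
    exact (Ord.add (Ord.add (Ord.add (Ord.add (Ord.add (Ord.add (Ord.add (Ord.add (Ord.add (Ord.add
      (Ord.add (Ord.add (Ord.add (Ord.add (Ord.add (Ord.add (Ord.add (Ord.add (Ord.add (Ord.add
      (Ord.add (Ord.add (Ord.add (Ord.add (ord_zs _ _) (ord_zs _ _)) (ord_zs _ _)) (ord_zs _ _))
      (ord_zs _ _)) (ord_zs _ _)) (((ord_m 3 0).mono (by norm_num)).smul _)) (((ord_m 2 1).mono
      (by norm_num)).smul _)) (((ord_m 1 2).mono (by norm_num)).smul _)) (((ord_m 0 3).mono (by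
      norm_num)).smul _)) (((ord_m 4 0).mono (by norm_num)).smul _)) (((ord_m 3 1).mono (by
      norm_num)).smul _)) (((ord_m 2 2).mono (by norm_num)).smul _)) (((ord_m 1 3).mono (by
      norm_num)).smul _)) (((ord_m 0 4).mono (by norm_num)).smul _)) (((ord_m 4 1).mono (by
      norm_num)).smul _)) (((ord_m 3 2).mono (by norm_num)).smul _)) (((ord_m 2 3).mono (by
      norm_num)).smul _)) (((ord_m 1 4).mono (by norm_num)).smul _)) (((ord_m 4 2).mono (by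
      norm_num)).smul _)) (((ord_m 3 3).mono (by norm_num)).smul _)) (((ord_m 2 4).mono (by
      norm_num)).smul _)) (((ord_m 4 3).mono (by norm_num)).smul _)) (((ord_m 3 4).mono (by
      norm_num)).smul _)) (((ord_m 4 4).mono (by norm_num)).smul _))

theorem ord4_iff {a00 a10 a01 a20 a11 a02 a30 a21 a12 a03 a40 a31 a22 a13 a04 a41 a32 a23 a14 a42 a33 a24 a43 a34 a44 : k} :
    Ord 4 (mk a00 a10 a01 a20 a11 a02 a30 a21 a12 a03 a40 a31 a22 a13 a04 a41 a32 a23 a14 a42 a33 a24 a43 a34 a44) ↔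
    a00 = 0 ∧ a10 = 0 ∧ a01 = 0 ∧ a20 = 0 ∧ a11 = 0 ∧ a02 = 0 ∧ a30 = 0 ∧ a21 = 0 ∧ a12 = 0 ∧ a03 = 0 := by
  constructor
  · intro h
    exact ⟨(top_m00 ..).symm.trans (ord_top h 4 4 (by norm_num)), (top_m10 ..).symm.trans (ord_top h 3 4
      (by norm_num)), (top_m01 ..).symm.trans (ord_top h 4 3 (by norm_num)), (top_m20
      ..).symm.trans (ord_top h 2 4 (by norm_num)), (top_m11 ..).symm.trans (ord_top h 3 3 (by
      norm_num)), (top_m02 ..).symm.trans (ord_top h 4 2 (by norm_num)), (top_m30 ..).symm.trans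
      (ord_top h 1 4 (by norm_num)), (top_m21 ..).symm.trans (ord_top h 2 3 (by norm_num)),
      (top_m12 ..).symm.trans (ord_top h 3 2 (by norm_num)), (top_m03 ..).symm.trans (ord_top h 4
      1 (by norm_num))⟩
  · rintro ⟨rfl, rfl, rfl, rfl, rfl, rfl, rfl, rfl, rfl, rfl⟩
    unfold mk
    exact (Ord.add (Ord.add (Ord.add (Ord.add (Ord.add (Ord.add (Ord.add (Ord.add (Ord.add (Ord.add
      (Ord.add (Ord.add (Ord.add (Ord.add (Ord.add (Ord.add (Ord.add (Ord.add (Ord.add (Ord.add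
      (Ord.add (Ord.add (Ord.add (Ord.add (ord_zs _ _) (ord_zs _ _)) (ord_zs _ _)) (ord_zs _ _))
      (ord_zs _ _)) (ord_zs _ _)) (ord_zs _ _)) (ord_zs _ _)) (ord_zs _ _)) (ord_zs _ _))
      (((ord_m 4 0).mono (by norm_num)).smul _)) (((ord_m 3 1).mono (by norm_num)).smul _))
      (((ord_m 2 2).mono (by norm_num)).smul _)) (((ord_m 1 3).mono (by norm_num)).smul _))
      (((ord_m 0 4).mono (by norm_num)).smul _)) (((ord_m 4 1).mono (by norm_num)).smul _))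
      (((ord_m 3 2).mono (by norm_num)).smul _)) (((ord_m 2 3).mono (by norm_num)).smul _))
      (((ord_m 1 4).mono (by norm_num)).smul _)) (((ord_m 4 2).mono (by norm_num)).smul _))
      (((ord_m 3 3).mono (by norm_num)).smul _)) (((ord_m 2 4).mono (by norm_num)).smul _))
      (((ord_m 4 3).mono (by norm_num)).smul _)) (((ord_m 3 4).mono (by norm_num)).smul _))
      (((ord_m 4 4).mono (by norm_num)).smul _))

theorem ord5_iff {a00 a10 a01 a20 a11 a02 a30 a21 a12 a03 a40 a31 a22 a13 a04 a41 a32 a23 a14 a42 a33 a24 a43 a34 a44 : k} :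
    Ord 5 (mk a00 a10 a01 a20 a11 a02 a30 a21 a12 a03 a40 a31 a22 a13 a04 a41 a32 a23 a14 a42 a33 a24 a43 a34 a44) ↔
    a00 = 0 ∧ a10 = 0 ∧ a01 = 0 ∧ a20 = 0 ∧ a11 = 0 ∧ a02 = 0 ∧ a30 = 0 ∧ a21 = 0 ∧ a12 = 0 ∧ a03 = 0
      ∧ a40 = 0 ∧ a31 = 0 ∧ a22 = 0 ∧ a13 = 0 ∧ a04 = 0 := by
  constructor
  · intro h
    exact ⟨(top_m00 ..).symm.trans (ord_top h 4 4 (by norm_num)), (top_m10 ..).symm.trans (ord_top h 3 4
      (by norm_num)), (top_m01 ..).symm.trans (ord_top h 4 3 (by norm_num)), (top_m20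
      ..).symm.trans (ord_top h 2 4 (by norm_num)), (top_m11 ..).symm.trans (ord_top h 3 3 (by
      norm_num)), (top_m02 ..).symm.trans (ord_top h 4 2 (by norm_num)), (top_m30 ..).symm.trans
      (ord_top h 1 4 (by norm_num)), (top_m21 ..).symm.trans (ord_top h 2 3 (by norm_num)),
      (top_m12 ..).symm.trans (ord_top h 3 2 (by norm_num)), (top_m03 ..).symm.trans (ord_top h 4
      1 (by norm_num)), (top_m40 ..).symm.trans (ord_top h 0 4 (by norm_num)), (top_m31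
      ..).symm.trans (ord_top h 1 3 (by norm_num)), (top_m22 ..).symm.trans (ord_top h 2 2 (by
      norm_num)), (top_m13 ..).symm.trans (ord_top h 3 1 (by norm_num)), (top_m04 ..).symm.trans
      (ord_top h 4 0 (by norm_num))⟩
  · rintro ⟨rfl, rfl, rfl, rfl, rfl, rfl, rfl, rfl, rfl, rfl, rfl, rfl, rfl, rfl, rfl⟩
    unfold mk
    exact (Ord.add (Ord.add (Ord.add (Ord.add (Ord.add (Ord.add (Ord.add (Ord.add (Ord.add (Ord.add
      (Ord.add (Ord.add (Ord.add (Ord.add (Ord.add (Ord.add (Ord.add (Ord.add (Ord.add (Ord.add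
      (Ord.add (Ord.add (Ord.add (Ord.add (ord_zs _ _) (ord_zs _ _)) (ord_zs _ _)) (ord_zs _ _))
      (ord_zs _ _)) (ord_zs _ _)) (ord_zs _ _)) (ord_zs _ _)) (ord_zs _ _)) (ord_zs _ _)) (ord_zs
      _ _)) (ord_zs _ _)) (ord_zs _ _)) (ord_zs _ _)) (ord_zs _ _)) (((ord_m 4 1).mono (by
      norm_num)).smul _)) (((ord_m 3 2).mono (by norm_num)).smul _)) (((ord_m 2 3).mono (by
      norm_num)).smul _)) (((ord_m 1 4).mono (by norm_num)).smul _)) (((ord_m 4 2).mono (by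
      norm_num)).smul _)) (((ord_m 3 3).mono (by norm_num)).smul _)) (((ord_m 2 4).mono (by
      norm_num)).smul _)) (((ord_m 4 3).mono (by norm_num)).smul _)) (((ord_m 3 4).mono (by
      norm_num)).smul _)) (((ord_m 4 4).mono (by norm_num)).smul _))

theorem ord6_iff {a00 a10 a01 a20 a11 a02 a30 a21 a12 a03 a40 a31 a22 a13 a04 a41 a32 a23 a14 a42 a33 a24 a43 a34 a44 : k} :
    Ord 6 (mk a00 a10 a01 a20 a11 a02 a30 a21 a12 a03 a40 a31 a22 a13 a04 a41 a32 a23 a14 a42 a33 a24 a43 a34 a44) ↔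
    a00 = 0 ∧ a10 = 0 ∧ a01 = 0 ∧ a20 = 0 ∧ a11 = 0 ∧ a02 = 0 ∧ a30 = 0 ∧ a21 = 0 ∧ a12 = 0 ∧ a03 = 0
      ∧ a40 = 0 ∧ a31 = 0 ∧ a22 = 0 ∧ a13 = 0 ∧ a04 = 0 ∧ a41 = 0 ∧ a32 = 0 ∧ a23 = 0 ∧ a14 = 0 := by
  constructor
  · intro h
    exact ⟨(top_m00 ..).symm.trans (ord_top h 4 4 (by norm_num)), (top_m10 ..).symm.trans (ord_top h 3 4
      (by norm_num)), (top_m01 ..).symm.trans (ord_top h 4 3 (by norm_num)), (top_m20
      ..).symm.trans (ord_top h 2 4 (by norm_num)), (top_m11 ..).symm.trans (ord_top h 3 3 (by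
      norm_num)), (top_m02 ..).symm.trans (ord_top h 4 2 (by norm_num)), (top_m30 ..).symm.trans
      (ord_top h 1 4 (by norm_num)), (top_m21 ..).symm.trans (ord_top h 2 3 (by norm_num)),
      (top_m12 ..).symm.trans (ord_top h 3 2 (by norm_num)), (top_m03 ..).symm.trans (ord_top h 4
      1 (by norm_num)), (top_m40 ..).symm.trans (ord_top h 0 4 (by norm_num)), (top_m31
      ..).symm.trans (ord_top h 1 3 (by norm_num)), (top_m22 ..).symm.trans (ord_top h 2 2 (by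
      norm_num)), (top_m13 ..).symm.trans (ord_top h 3 1 (by norm_num)), (top_m04 ..).symm.trans
      (ord_top h 4 0 (by norm_num)), (top_m41 ..).symm.trans (ord_top h 0 3 (by norm_num)),
      (top_m32 ..).symm.trans (ord_top h 1 2 (by norm_num)), (top_m23 ..).symm.trans (ord_top h 2
      1 (by norm_num)), (top_m14 ..).symm.trans (ord_top h 3 0 (by norm_num))⟩
  · rintro ⟨rfl, rfl, rfl, rfl, rfl, rfl, rfl, rfl, rfl, rfl, rfl, rfl, rfl, rfl, rfl, rfl, rfl, rfl, rfl⟩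
    unfold mk
    exact (Ord.add (Ord.add (Ord.add (Ord.add (Ord.add (Ord.add (Ord.add (Ord.add (Ord.add (Ord.add
      (Ord.add (Ord.add (Ord.add (Ord.add (Ord.add (Ord.add (Ord.add (Ord.add (Ord.add (Ord.add
      (Ord.add (Ord.add (Ord.add (Ord.add (ord_zs _ _) (ord_zs _ _)) (ord_zs _ _)) (ord_zs _ _))
      (ord_zs _ _)) (ord_zs _ _)) (ord_zs _ _)) (ord_zs _ _)) (ord_zs _ _)) (ord_zs _ _)) (ord_zs
      _ _)) (ord_zs _ _)) (ord_zs _ _)) (ord_zs _ _)) (ord_zs _ _)) (ord_zs _ _)) (ord_zs _ _))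
      (ord_zs _ _)) (ord_zs _ _)) (((ord_m 4 2).mono (by norm_num)).smul _)) (((ord_m 3 3).mono
      (by norm_num)).smul _)) (((ord_m 2 4).mono (by norm_num)).smul _)) (((ord_m 4 3).mono (by
      norm_num)).smul _)) (((ord_m 3 4).mono (by norm_num)).smul _)) (((ord_m 4 4).mono (by
      norm_num)).smul _))

theorem ord7_iff {a00 a10 a01 a20 a11 a02 a30 a21 a12 a03 a40 a31 a22 a13 a04 a41 a32 a23 a14 a42 a33 a24 a43 a34 a44 : k} :
    Ord 7 (mk a00 a10 a01 a20 a11 a02 a30 a21 a12 a03 a40 a31 a22 a13 a04 a41 a32 a23 a14 a42 a33 a24 a43 a34 a44) ↔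
    a00 = 0 ∧ a10 = 0 ∧ a01 = 0 ∧ a20 = 0 ∧ a11 = 0 ∧ a02 = 0 ∧ a30 = 0 ∧ a21 = 0 ∧ a12 = 0 ∧ a03 = 0
      ∧ a40 = 0 ∧ a31 = 0 ∧ a22 = 0 ∧ a13 = 0 ∧ a04 = 0 ∧ a41 = 0 ∧ a32 = 0 ∧ a23 = 0 ∧ a14 = 0 ∧
      a42 = 0 ∧ a33 = 0 ∧ a24 = 0 := by
  constructor
  · intro h
    exact ⟨(top_m00 ..).symm.trans (ord_top h 4 4 (by norm_num)), (top_m10 ..).symm.trans (ord_top h 3 4
      (by norm_num)), (top_m01 ..).symm.trans (ord_top h 4 3 (by norm_num)), (top_m20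
      ..).symm.trans (ord_top h 2 4 (by norm_num)), (top_m11 ..).symm.trans (ord_top h 3 3 (by
      norm_num)), (top_m02 ..).symm.trans (ord_top h 4 2 (by norm_num)), (top_m30 ..).symm.trans
      (ord_top h 1 4 (by norm_num)), (top_m21 ..).symm.trans (ord_top h 2 3 (by norm_num)),
      (top_m12 ..).symm.trans (ord_top h 3 2 (by norm_num)), (top_m03 ..).symm.trans (ord_top h 4
      1 (by norm_num)), (top_m40 ..).symm.trans (ord_top h 0 4 (by norm_num)), (top_m31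
      ..).symm.trans (ord_top h 1 3 (by norm_num)), (top_m22 ..).symm.trans (ord_top h 2 2 (by
      norm_num)), (top_m13 ..).symm.trans (ord_top h 3 1 (by norm_num)), (top_m04 ..).symm.trans
      (ord_top h 4 0 (by norm_num)), (top_m41 ..).symm.trans (ord_top h 0 3 (by norm_num)),
      (top_m32 ..).symm.trans (ord_top h 1 2 (by norm_num)), (top_m23 ..).symm.trans (ord_top h 2
      1 (by norm_num)), (top_m14 ..).symm.trans (ord_top h 3 0 (by norm_num)), (top_m42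
      ..).symm.trans (ord_top h 0 2 (by norm_num)), (top_m33 ..).symm.trans (ord_top h 1 1 (by
      norm_num)), (top_m24 ..).symm.trans (ord_top h 2 0 (by norm_num))⟩
  · rintro ⟨rfl, rfl, rfl, rfl, rfl, rfl, rfl, rfl, rfl, rfl, rfl, rfl, rfl, rfl, rfl, rfl, rfl, rfl, rfl, rfl, rfl, rfl⟩
    unfold mk
    exact (Ord.add (Ord.add (Ord.add (Ord.add (Ord.add (Ord.add (Ord.add (Ord.add (Ord.add (Ord.add
      (Ord.add (Ord.add (Ord.add (Ord.add (Ord.add (Ord.add (Ord.add (Ord.add (Ord.add (Ord.add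
      (Ord.add (Ord.add (Ord.add (Ord.add (ord_zs _ _) (ord_zs _ _)) (ord_zs _ _)) (ord_zs _ _))
      (ord_zs _ _)) (ord_zs _ _)) (ord_zs _ _)) (ord_zs _ _)) (ord_zs _ _)) (ord_zs _ _)) (ord_zs
      _ _)) (ord_zs _ _)) (ord_zs _ _)) (ord_zs _ _)) (ord_zs _ _)) (ord_zs _ _)) (ord_zs _ _))
      (ord_zs _ _)) (ord_zs _ _)) (ord_zs _ _)) (ord_zs _ _)) (ord_zs _ _)) (((ord_m 4 3).mono
      (by norm_num)).smul _)) (((ord_m 3 4).mono (by norm_num)).smul _)) (((ord_m 4 4).mono (by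
      norm_num)).smul _))

theorem ord8_iff {a00 a10 a01 a20 a11 a02 a30 a21 a12 a03 a40 a31 a22 a13 a04 a41 a32 a23 a14 a42 a33 a24 a43 a34 a44 : k} :
    Ord 8 (mk a00 a10 a01 a20 a11 a02 a30 a21 a12 a03 a40 a31 a22 a13 a04 a41 a32 a23 a14 a42 a33 a24 a43 a34 a44) ↔
    a00 = 0 ∧ a10 = 0 ∧ a01 = 0 ∧ a20 = 0 ∧ a11 = 0 ∧ a02 = 0 ∧ a30 = 0 ∧ a21 = 0 ∧ a12 = 0 ∧ a03 = 0
      ∧ a40 = 0 ∧ a31 = 0 ∧ a22 = 0 ∧ a13 = 0 ∧ a04 = 0 ∧ a41 = 0 ∧ a32 = 0 ∧ a23 = 0 ∧ a14 = 0 ∧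
      a42 = 0 ∧ a33 = 0 ∧ a24 = 0 ∧ a43 = 0 ∧ a34 = 0 := by
  constructor
  · intro h
    exact ⟨(top_m00 ..).symm.trans (ord_top h 4 4 (by norm_num)), (top_m10 ..).symm.trans (ord_top h 3 4
      (by norm_num)), (top_m01 ..).symm.trans (ord_top h 4 3 (by norm_num)), (top_m20
      ..).symm.trans (ord_top h 2 4 (by norm_num)), (top_m11 ..).symm.trans (ord_top h 3 3 (by
      norm_num)), (top_m02 ..).symm.trans (ord_top h 4 2 (by norm_num)), (top_m30 ..).symm.trans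
      (ord_top h 1 4 (by norm_num)), (top_m21 ..).symm.trans (ord_top h 2 3 (by norm_num)),
      (top_m12 ..).symm.trans (ord_top h 3 2 (by norm_num)), (top_m03 ..).symm.trans (ord_top h 4
      1 (by norm_num)), (top_m40 ..).symm.trans (ord_top h 0 4 (by norm_num)), (top_m31
      ..).symm.trans (ord_top h 1 3 (by norm_num)), (top_m22 ..).symm.trans (ord_top h 2 2 (by
      norm_num)), (top_m13 ..).symm.trans (ord_top h 3 1 (by norm_num)), (top_m04 ..).symm.trans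
      (ord_top h 4 0 (by norm_num)), (top_m41 ..).symm.trans (ord_top h 0 3 (by norm_num)),
      (top_m32 ..).symm.trans (ord_top h 1 2 (by norm_num)), (top_m23 ..).symm.trans (ord_top h 2
      1 (by norm_num)), (top_m14 ..).symm.trans (ord_top h 3 0 (by norm_num)), (top_m42
      ..).symm.trans (ord_top h 0 2 (by norm_num)), (top_m33 ..).symm.trans (ord_top h 1 1 (by
      norm_num)), (top_m24 ..).symm.trans (ord_top h 2 0 (by norm_num)), (top_m43 ..).symm.trans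
      (ord_top h 0 1 (by norm_num)), (top_m34 ..).symm.trans (ord_top h 1 0 (by norm_num))⟩
  · rintro ⟨rfl, rfl, rfl, rfl, rfl, rfl, rfl, rfl, rfl, rfl, rfl, rfl, rfl, rfl, rfl, rfl, rfl, rfl, rfl, rfl, rfl, rfl, rfl, rfl⟩
    unfold mk
    exact (Ord.add (Ord.add (Ord.add (Ord.add (Ord.add (Ord.add (Ord.add (Ord.add (Ord.add (Ord.add
      (Ord.add (Ord.add (Ord.add (Ord.add (Ord.add (Ord.add (Ord.add (Ord.add (Ord.add (Ord.add
      (Ord.add (Ord.add (Ord.add (Ord.add (ord_zs _ _) (ord_zs _ _)) (ord_zs _ _)) (ord_zs _ _))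
      (ord_zs _ _)) (ord_zs _ _)) (ord_zs _ _)) (ord_zs _ _)) (ord_zs _ _)) (ord_zs _ _)) (ord_zs
      _ _)) (ord_zs _ _)) (ord_zs _ _)) (ord_zs _ _)) (ord_zs _ _)) (ord_zs _ _)) (ord_zs _ _))
      (ord_zs _ _)) (ord_zs _ _)) (ord_zs _ _)) (ord_zs _ _)) (ord_zs _ _)) (ord_zs _ _)) (ord_zs
      _ _)) (((ord_m 4 4).mono (by norm_num)).smul _))

theorem top_nondeg {f : O k} (h : ∀ g, top (f * g) = 0) : f = 0 := by
  obtain ⟨a00, a10, a01, a20, a11, a02, a30, a21, a12, a03, a40, a31, a22, a13, a04, a41, a32, a23, a14, a42, a33, a24, a43, a34, a44, rfl⟩ := mk_surj f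
  rw [zero_eq, mk_inj]
  exact ⟨(top_m00 ..).symm.trans (h _), (top_m10 ..).symm.trans (h _), (top_m01 ..).symm.trans (h _),
      (top_m20 ..).symm.trans (h _), (top_m11 ..).symm.trans (h _), (top_m02 ..).symm.trans (h
      _), (top_m30 ..).symm.trans (h _), (top_m21 ..).symm.trans (h _), (top_m12 ..).symm.trans
      (h _), (top_m03 ..).symm.trans (h _), (top_m40 ..).symm.trans (h _), (top_m31
      ..).symm.trans (h _), (top_m22 ..).symm.trans (h _), (top_m13 ..).symm.trans (h _),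
      (top_m04 ..).symm.trans (h _), (top_m41 ..).symm.trans (h _), (top_m32 ..).symm.trans (h
      _), (top_m23 ..).symm.trans (h _), (top_m14 ..).symm.trans (h _), (top_m42 ..).symm.trans
      (h _), (top_m33 ..).symm.trans (h _), (top_m24 ..).symm.trans (h _), (top_m43
      ..).symm.trans (h _), (top_m34 ..).symm.trans (h _), (top_m44 ..).symm.trans (h _)⟩

/-- The constant term. -/
noncomputable def c0 (f : O k) : k := top (f * m 4 4)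

theorem c0_mk (a00 a10 a01 a20 a11 a02 a30 a21 a12 a03 a40 a31 a22 a13 a04 a41 a32 a23 a14 a42 a33 a24 a43 a34 a44 : k) :
    c0 (mk a00 a10 a01 a20 a11 a02 a30 a21 a12 a03 a40 a31 a22 a13 a04 a41 a32 a23 a14 a42 a33 a24 a43 a34 a44) = a00 := top_m00 ..

theorem ord_c0 (f : O k) : Ord 1 (f - algebraMap k (O k) (c0 f)) := by
  obtain ⟨a00, a10, a01, a20, a11, a02, a30, a21, a12, a03, a40, a31, a22, a13, a04, a41, a32, a23, a14, a42, a33, a24, a43, a34, a44, rfl⟩ := mk_surj f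
  rw [c0_mk, alg_eq, mk_sub, ord1_iff, sub_self]

theorem ord1_c0 {f : O k} : Ord 1 f ↔ c0 f = 0 := by
  obtain ⟨a00, a10, a01, a20, a11, a02, a30, a21, a12, a03, a40, a31, a22, a13, a04, a41, a32, a23, a14, a42, a33, a24, a43, a34, a44, rfl⟩ := mk_surj f
  rw [c0_mk, ord1_iff]

theorem c0_alg (c : k) : c0 (algebraMap k (O k) c) = c := by rw [alg_eq, c0_mk]

theorem c0_smul (c : k) (f : O k) : c0 (c • f) = c * c0 f := by
  rw [c0, c0, smul_mul_assoc, top_smul]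

theorem alg_inj : Function.Injective (algebraMap k (O k)) := fun a b h => by
  rw [← c0_alg a, h, c0_alg]

/-- The substitution x to X, y to Y. -/
noncomputable def sub (X Y : O k) (hX : X ^ 5 = 0) (hY : Y ^ 5 = 0) : O k →ₐ[k] O k :=
  Ideal.Quotient.liftₐ (fifths k) (aeval ![X, Y]) (by
    intro g hg
    unfold fifths at hg
    induction hg using Submodule.span_induction with
    | mem g hg =>
      obtain ⟨i, rfl⟩ := hg
      fin_cases i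
      · simpa using hX
      · simpa using hY
    | zero => simp
    | add a b _ _ ha hb => rw [map_add, ha, hb, add_zero]
    | smul a b _ hb => rw [smul_eq_mul, map_mul, hb, mul_zero])

theorem sub_x (X Y : O k) (hX : X ^ 5 = 0) (hY : Y ^ 5 = 0) : sub X Y hX hY x = X := by
  simp [sub, x]

theorem sub_y (X Y : O k) (hX : X ^ 5 = 0) (hY : Y ^ 5 = 0) : sub X Y hX hY y = Y := by
  simp [sub, y]

theorem hom_m (φ : O k →ₐ[k] O k) (i j : ℕ) : φ (m i j) = φ x ^ i * φ y ^ j := by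
  rw [m, map_mul, map_pow, map_pow]

theorem hom_add (φ : O k →ₐ[k] O k) (f g : O k) : φ (f + g) = φ f + φ g := map_add φ f g

theorem hom_smul (φ : O k →ₐ[k] O k) (c : k) (f : O k) : φ (c • f) = c • φ f := map_smul φ c f

variable [CharP k 5]

theorem five : (5 : k) = 0 := by exact_mod_cast CharP.cast_eq_zero k 5

instance charO : CharP (O k) 5 := charP_of_injective_algebraMap alg_inj 5

theorem fiveO : (5 : O k) = 0 := by exact_mod_cast CharP.cast_eq_zero (O k) 5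

theorem Ord.pow5 {f : O k} (h : Ord 1 f) : f ^ 5 = 0 := by
  obtain ⟨p, q, rfl⟩ := ord_one h
  have : Fact (Nat.Prime 5) := ⟨by norm_num⟩
  rw [add_pow_char, mul_pow, mul_pow, x5, y5]; ring

theorem pow5 (f : O k) : f ^ 5 = algebraMap k (O k) (c0 f ^ 5) := by
  have : Fact (Nat.Prime 5) := ⟨by norm_num⟩
  have h := (ord_c0 f).pow5
  rw [sub_pow_char, sub_eq_zero] at h
  rw [h, map_pow]

theorem ord1_of_pow5 {f : O k} (h : f ^ 5 = 0) : Ord 1 f := by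
  rw [pow5, ← map_zero (algebraMap k (O k))] at h
  exact ord1_c0.mpr (pow_eq_zero_iff (by norm_num) |>.mp (alg_inj h))

theorem unit_of_c0 {f : O k} (h : c0 f ≠ 0) : IsUnit f := by
  rw [← isUnit_pow_iff (n := 5) (by norm_num), pow5]
  exact (IsUnit.mk0 _ (pow_ne_zero 5 h)).map _

theorem Ord.hom {d : ℕ} {f : O k} (h : Ord d f) (φ : O k →ₐ[k] O k) : Ord d (φ f) := by
  refine ord_ind (p := fun n f => Ord n (φ f)) (fun f => ord0 _) (fun n f g _ _ hf hg => ?_)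
    (fun n f g hf _ hg => ?_) d f h
  · rw [map_add]; exact hf.add hg
  · rw [map_mul, add_comm]
    refine Ord.mul (ord1_of_pow5 ?_) hg
    rw [← map_pow, hf.pow5, map_zero]

omit [CharP k 5] in
theorem Ord.der {d : ℕ} {f : O k} (h : Ord (d + 1) f) (E : W k) : Ord d (E f) := by
  have key : ∀ n (f : O k), Ord n f → Ord (n - 1) (E f) := by
    refine ord_ind (fun f => ord0 _) (fun n f g _ _ hf hg => ?_) (fun n f g hf hg' hg => ?_)
    · rw [der_add]; exact hf.add hg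
    · rw [der_mul]
      refine Ord.add ((hf.mul hg).mono (by omega)) ?_
      rw [mul_comm]
      exact (hg'.mul_left _).mono (by omega)
  exact key _ _ h

theorem hom_der (φ : O k →ₐ[k] O k) (E : W k) (f : O k) :
    E (φ f) = φ (pd 0 f) * E (φ x) + φ (pd 1 f) * E (φ y) := by
  induction f using ind with
  | hc a => rw [AlgHom.commutes, der_alg, der_alg, der_alg, map_zero]; ring
  | ha f g hf hg => rw [map_add, der_add, der_add, der_add, map_add, map_add, hf, hg]; ring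
  | hx f hf =>
    rw [map_mul, der_mul, der_mul, der_mul, hf, pd0_x, pd1_x]
    simp only [map_add, map_mul, map_one, map_zero]
    ring
  | hy f hf =>
    rw [map_mul, der_mul, der_mul, der_mul, hf, pd0_y, pd1_y]
    simp only [map_add, map_mul, map_one, map_zero]
    ring

/-- The Jacobian determinant, which is also the Poisson bracket. -/
noncomputable def jac (X Y : O k) : O k := pd 0 X * pd 1 Y - pd 1 X * pd 0 Y

theorem jac_xy : jac (x : O k) y = 1 := by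
  rw [jac, pd0_x, pd1_y, pd1_x, pd0_y]; ring

theorem jac_hom (φ : O k →ₐ[k] O k) (f g : O k) :
    jac (φ f) (φ g) = φ (jac f g) * jac (φ x) (φ y) := by
  unfold jac
  rw [hom_der φ _ f, hom_der φ _ f, hom_der φ (pd 0) g, hom_der φ (pd 1) g, map_sub, map_mul,
    map_mul]
  ring

theorem top_pd0 (f : O k) : top (pd 0 f) = 0 := by
  obtain ⟨a00, a10, a01, a20, a11, a02, a30, a21, a12, a03, a40, a31, a22, a13, a04, a41, a32, a23, a14, a42, a33, a24, a43, a34, a44, rfl⟩ := mk_surj f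
  rw [pd0_mk, top_coord]

theorem top_pd1 (f : O k) : top (pd 1 f) = 0 := by
  obtain ⟨a00, a10, a01, a20, a11, a02, a30, a21, a12, a03, a40, a31, a22, a13, a04, a41, a32, a23, a14, a42, a33, a24, a43, a34, a44, rfl⟩ := mk_surj f
  rw [pd1_mk, top_coord]

theorem div_form (h : O k) : ∃ A B : O k, h = top h • m 4 4 + pd 0 A + pd 1 B := by
  obtain ⟨a00, a10, a01, a20, a11, a02, a30, a21, a12, a03, a40, a31, a22, a13, a04, a41, a32, a23, a14, a42, a33, a24, a43, a34, a44, rfl⟩ := mk_surj h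
  refine ⟨mk 0 a00 0 (-2*a10) a01 0 (2*a20) (-2*a11) a02 0 (-a30) (2*a21) (-2*a12) a03 0 (-a31) (2*a22)
      (-2*a13) a04 (-a32) (2*a23) (-2*a14) (-a33) (2*a24) (-a34),
    mk 0 0 0 0 0 0 0 0 0 0 0 0 0 0 0 a40 0 0 0 (-2*a41) 0 0 (2*a42) 0 (-a43), ?_⟩
  rw [top_coord, m44, pd0_mk, pd1_mk, mk_smul, mk_add, mk_add, mk_inj]
  refine ⟨?_, ?_, ?_, ?_, ?_, ?_, ?_, ?_, ?_, ?_, ?_, ?_, ?_, ?_, ?_, ?_, ?_, ?_, ?_, ?_, ?_, ?_, ?_, ?_, ?_⟩ <;> grind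

/-- Congruence of leading terms. -/
def Cg (d : ℕ) (f g : O k) : Prop := Ord d f ∧ Ord d g ∧ Ord (d + 1) (f - g)

omit [CharP k 5] in
theorem Cg.mul {d e : ℕ} {f g f' g' : O k} (h : Cg d f g) (h' : Cg e f' g') :
    Cg (d + e) (f * f') (g * g') :=
  ⟨h.1.mul h'.1, h.2.1.mul h'.2.1,
    (((h.2.2.mul h'.1).cast (by omega)).add (h.2.1.mul h'.2.2)).congr (by ring)⟩

theorem top_lin (a b c d : k) :
    top (((a • x + b • y) * (a • x + b • y) * ((a • x + b • y) * (a • x + b • y))) *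
      ((c • x + d • y) * (c • x + d • y) * ((c • x + d • y) * (c • x + d • y))) : O k) =
      (a * d - b * c) ^ 4 := by
  rw [x_eq, y_eq]
  simp only [mk_smul, mk_add, mk_mul, mul_zero, zero_mul, add_zero, zero_add, mul_one, top_coord]
  grind

theorem change_var (φ : O k →ₐ[k] O k) (h : O k) :
    top (φ h * jac (φ x) (φ y)) = c0 (jac (φ x) (φ y)) ^ 5 * top h := by
  have l0 : ∀ g, top (φ (pd 0 g) * jac (φ x) (φ y)) = 0 := by
    intro g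
    have : φ (pd 0 g) * jac (φ x) (φ y) =
        pd 0 (φ g * pd 1 (φ y)) - pd 1 (φ g * pd 0 (φ y)) := by
      rw [der_mul, der_mul, hom_der φ _ g, hom_der φ (pd 1) g, pd_comm, jac]; ring
    rw [this, top_sub, top_pd0, top_pd1, sub_zero]
  have l1 : ∀ g, top (φ (pd 1 g) * jac (φ x) (φ y)) = 0 := by
    intro g
    have : φ (pd 1 g) * jac (φ x) (φ y) =
        pd 1 (φ g * pd 0 (φ x)) - pd 0 (φ g * pd 1 (φ x)) := by
      rw [der_mul, der_mul, hom_der φ _ g, hom_der φ (pd 0) g, pd_comm, jac]; ring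
    rw [this, top_sub, top_pd0, top_pd1, sub_zero]
  have l2 : top (φ (m 4 4) * jac (φ x) (φ y)) = c0 (jac (φ x) (φ y)) ^ 5 := by
    have hX := ord_x.hom φ
    have hY := ord_y.hom φ
    rw [hom_m]
    generalize φ x = X at *
    generalize φ y = Y at *
    obtain ⟨u00, u10, u01, u20, u11, u02, u30, u21, u12, u03, u40, u31, u22, u13, u04, u41, u32, u23, u14, u42, u33, u24, u43, u34, u44, rfl⟩ := mk_surj X
    obtain ⟨v00, v10, v01, v20, v11, v02, v30, v21, v12, v03, v40, v31, v22, v13, v04, v41, v32, v23, v14, v42, v33, v24, v43, v34, v44, rfl⟩ := mk_surj Y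
    have hc : c0 (jac (mk u00 u10 u01 u20 u11 u02 u30 u21 u12 u03 u40 u31 u22 u13 u04 u41 u32 u23 u14 u42 u33 u24 u43 u34 u44)
        (mk v00 v10 v01 v20 v11 v02 v30 v21 v12 v03 v40 v31 v22 v13 v04 v41 v32 v23 v14 v42 v33 v24 v43 v34 v44)) = u10 * v01 - u01 * v10 := by
      rw [jac, pd0_mk, pd0_mk, pd1_mk, pd1_mk, mk_mul, mk_mul, mk_sub, c0_mk]
    have cX : Cg 1 (mk u00 u10 u01 u20 u11 u02 u30 u21 u12 u03 u40 u31 u22 u13 u04 u41 u32 u23 u14 u42 u33 u24 u43 u34 u44) (u10 • x + u01 • y) := by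
      refine ⟨hX, (ord_x.smul _).add (ord_y.smul _), ?_⟩
      rw [x_eq, y_eq, mk_smul, mk_smul, mk_add, mk_sub, ord2_iff]
      simpa using ord1_iff.mp hX
    have cY : Cg 1 (mk v00 v10 v01 v20 v11 v02 v30 v21 v12 v03 v40 v31 v22 v13 v04 v41 v32 v23 v14 v42 v33 v24 v43 v34 v44) (v10 • x + v01 • y) := by
      refine ⟨hY, (ord_x.smul _).add (ord_y.smul _), ?_⟩
      rw [x_eq, y_eq, mk_smul, mk_smul, mk_add, mk_sub, ord2_iff]
      simpa using ord1_iff.mp hY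
    have cJ := ord_c0 (jac (mk u00 u10 u01 u20 u11 u02 u30 u21 u12 u03 u40 u31 u22 u13 u04 u41 u32 u23 u14 u42 u33 u24 u43 u34 u44)
        (mk v00 v10 v01 v20 v11 v02 v30 v21 v12 v03 v40 v31 v22 v13 v04 v41 v32 v23 v14 v42 v33 v24 v43 v34 v44))
    rw [hc] at cJ ⊢
    generalize jac (mk u00 u10 u01 u20 u11 u02 u30 u21 u12 u03 u40 u31 u22 u13 u04 u41 u32 u23 u14 u42 u33 u24 u43 u34 u44)
        (mk v00 v10 v01 v20 v11 v02 v30 v21 v12 v03 v40 v31 v22 v13 v04 v41 v32 v23 v14 v42 v33 v24 v43 v34 v44) = J at *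
    generalize mk u00 u10 u01 u20 u11 u02 u30 u21 u12 u03 u40 u31 u22 u13 u04 u41 u32 u23 u14 u42 u33 u24 u43 u34 u44 = X at *
    generalize mk v00 v10 v01 v20 v11 v02 v30 v21 v12 v03 v40 v31 v22 v13 v04 v41 v32 v23 v14 v42 v33 v24 v43 v34 v44 = Y at *
    have e := ord9 ((((cX.mul cX).mul (cX.mul cX)).mul ((cY.mul cY).mul (cY.mul cY))).mul
      (⟨ord0 _, ord0 _, cJ⟩ : Cg 0 J _)).2.2
    rw [sub_eq_zero] at e
    have e2 : X ^ 4 * Y ^ 4 * J = X * X * (X * X) * (Y * Y * (Y * Y)) * J := by ring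
    rw [e2, e, mul_comm, ← sm, top_smul, top_lin]
    ring
  obtain ⟨A, B, hAB⟩ := div_form h
  conv_lhs => rw [hAB]
  rw [hom_add, hom_add, hom_smul, add_mul, add_mul, top_add, top_add, l0, l1, smul_mul_assoc,
    top_smul, l2]
  ring

theorem hom_bij (φ : O k →ₐ[k] O k) (hc : c0 (jac (φ x) (φ y)) ≠ 0) : Function.Bijective φ := by
  have hinj : Function.Injective φ := by
    rw [injective_iff_map_eq_zero]
    intro f hf
    refine top_nondeg fun g => ?_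
    have h := change_var φ (f * g)
    rw [map_mul, hf, zero_mul, zero_mul, top_zero] at h
    exact (mul_eq_zero.mp h.symm).resolve_left (pow_ne_zero 5 hc)
  exact ⟨hinj, (LinearMap.injective_iff_surjective (f := φ.toLinearMap)).mp hinj⟩

theorem taylor (α : O k →ₐ[k] O k) (P Q : O k) (e : ℕ) (hP : Ord (e + 1) P) (hQ : Ord (e + 1) Q)
    (hx : α x = x + P) (hy : α y = y + Q) : ∀ a f, Ord a f →
    Ord (a + e) (α f - f) ∧ Ord (a + 2 * e) (α f - f - (P * pd 0 f + Q * pd 1 f)) := by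
  have mul : ∀ a b (f g : O k), Ord a f → Ord b g →
      (Ord (a + e) (α f - f) ∧ Ord (a + 2 * e) (α f - f - (P * pd 0 f + Q * pd 1 f))) →
      (Ord (b + e) (α g - g) ∧ Ord (b + 2 * e) (α g - g - (P * pd 0 g + Q * pd 1 g))) →
      (Ord (a + b + e) (α (f * g) - f * g) ∧
        Ord (a + b + 2 * e) (α (f * g) - f * g - (P * pd 0 (f * g) + Q * pd 1 (f * g)))) := by
    intro a b f g hf hg ⟨f1, f2⟩ ⟨g1, g2⟩
    rw [map_mul, der_mul, der_mul]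
    constructor
    · exact (((f1.mul (hg.hom α)).cast (by omega)).add ((hf.mul g1).cast (by omega))).congr
        (by ring)
    · exact ((((f2.mul hg).cast (by omega)).add ((hf.mul g2).cast (by omega))).add
        ((f1.mul g1).cast (by omega))).congr (by ring)
  have add : ∀ a (f g : O k),
      (Ord (a + e) (α f - f) ∧ Ord (a + 2 * e) (α f - f - (P * pd 0 f + Q * pd 1 f))) →
      (Ord (a + e) (α g - g) ∧ Ord (a + 2 * e) (α g - g - (P * pd 0 g + Q * pd 1 g))) →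
      (Ord (a + e) (α (f + g) - (f + g)) ∧
        Ord (a + 2 * e) (α (f + g) - (f + g) - (P * pd 0 (f + g) + Q * pd 1 (f + g)))) := by
    intro a f g ⟨f1, f2⟩ ⟨g1, g2⟩
    rw [map_add, der_add, der_add]
    exact ⟨(f1.add g1).congr (by ring), (f2.add g2).congr (by ring)⟩
  have bx : Ord (1 + e) (α x - x) ∧ Ord (1 + 2 * e) (α x - x - (P * pd 0 x + Q * pd 1 x)) := by
    rw [hx, pd0_x, pd1_x]
    exact ⟨(hP.cast (by omega)).congr (by ring), (ord_zero _).congr (by ring)⟩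
  have bY : Ord (1 + e) (α y - y) ∧ Ord (1 + 2 * e) (α y - y - (P * pd 0 y + Q * pd 1 y)) := by
    rw [hy, pd0_y, pd1_y]
    exact ⟨(hQ.cast (by omega)).congr (by ring), (ord_zero _).congr (by ring)⟩
  have z : ∀ f : O k,
      Ord (0 + e) (α f - f) ∧ Ord (0 + 2 * e) (α f - f - (P * pd 0 f + Q * pd 1 f)) := by
    intro f
    induction f using ind with
    | hc a =>
      rw [AlgHom.commutes, der_alg, der_alg]
      exact ⟨(ord_zero _).congr (by ring), (ord_zero _).congr (by ring)⟩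
    | ha f g hf hg => exact add 0 f g hf hg
    | hx f hf =>
      have := mul 0 1 f x (ord0 _) ord_x hf bx
      exact ⟨this.1.mono (by omega), this.2.mono (by omega)⟩
    | hy f hf =>
      have := mul 0 1 f y (ord0 _) ord_y hf bY
      exact ⟨this.1.mono (by omega), this.2.mono (by omega)⟩
  refine ord_ind z (fun n f g _ _ hf hg => add n f g hf hg) (fun n f g hf hg' hg => ?_)
  have hf' : Ord (1 + e) (α f - f) ∧ Ord (1 + 2 * e) (α f - f - (P * pd 0 f + Q * pd 1 f)) := by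
    obtain ⟨p, q, rfl⟩ := ord_one hf
    exact add 1 _ _ (mul 0 1 p x (ord0 _) ord_x (z p) bx) (mul 0 1 q y (ord0 _) ord_y (z q) bY)
  have := mul 1 n f g hf hg' hf' hg
  exact ⟨this.1.cast (by omega), this.2.cast (by omega)⟩

end Pool.Agent.H25

/-!
The conjugacy relation on O(2): substitutions with constant Jacobian.
-/

namespace Pool.Agent.H25

variable {k : Type*} [Field k] [CharP k 5]

/-- Conjugacy of the elements of O(2) that give characters. -/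
def Rel (h h' : O k) : Prop :=
  ∃ (φ : O k ≃ₐ[k] O k) (c : k), c ≠ 0 ∧ jac (φ x) (φ y) = algebraMap k (O k) c ∧ φ h = c ^ 3 • h'

theorem jac_eqv (φ : O k ≃ₐ[k] O k) (f g : O k) :
    jac (φ f) (φ g) = φ (jac f g) * jac (φ x) (φ y) := jac_hom (φ : O k →ₐ[k] O k) f g

theorem Rel.refl (h : O k) : Rel h h :=
  ⟨AlgEquiv.refl, 1, one_ne_zero, by simp [jac_xy], by simp⟩

theorem jac_symm (φ : O k ≃ₐ[k] O k) {c : k} (hc : c ≠ 0)
    (hj : jac (φ x) (φ y) = algebraMap k (O k) c) :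
    jac (φ.symm x) (φ.symm y) = algebraMap k (O k) c⁻¹ := by
  have h := jac_eqv φ (φ.symm x) (φ.symm y)
  rw [φ.apply_symm_apply, φ.apply_symm_apply, jac_xy, hj] at h
  apply φ.injective
  rw [AlgEquiv.commutes]
  have h2 : algebraMap k (O k) c * algebraMap k (O k) c⁻¹ = 1 := by
    rw [← map_mul, mul_inv_cancel₀ hc, map_one]
  linear_combination (-algebraMap k (O k) c⁻¹) * h - φ (jac (φ.symm x) (φ.symm y)) * h2

theorem Rel.symm {h h' : O k} (r : Rel h h') : Rel h' h := by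
  obtain ⟨φ, c, hc, hj, e⟩ := r
  refine ⟨φ.symm, c⁻¹, inv_ne_zero hc, jac_symm φ hc hj, ?_⟩
  apply φ.injective
  rw [φ.apply_symm_apply, map_smul, e, smul_smul, ← mul_pow, inv_mul_cancel₀ hc, one_pow, one_smul]

theorem Rel.trans {h h' h'' : O k} (r : Rel h h') (s : Rel h' h'') : Rel h h'' := by
  obtain ⟨φ, c, hc, hj, e⟩ := r
  obtain ⟨ψ, d, hd, hj', e'⟩ := s
  refine ⟨φ.trans ψ, c * d, mul_ne_zero hc hd, ?_, ?_⟩
  · rw [AlgEquiv.trans_apply, AlgEquiv.trans_apply, jac_eqv, hj, hj', AlgEquiv.commutes, map_mul]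
  · rw [AlgEquiv.trans_apply, e, map_smul, e', smul_smul, mul_pow]

theorem Rel.ord {h h' : O k} (r : Rel h h') {d : ℕ} (hd : Ord d h) : Ord d h' := by
  obtain ⟨φ, c, hc, -, e⟩ := r
  have h1 : Ord d (φ h) := hd.hom (φ : O k →ₐ[k] O k)
  rw [e] at h1
  have h2 := h1.smul (c ^ 3)⁻¹
  rwa [smul_smul, inv_mul_cancel₀ (pow_ne_zero 3 hc), one_smul] at h2

theorem top_eqv (φ : O k ≃ₐ[k] O k) {c : k} (hc : c ≠ 0)
    (hj : jac (φ x) (φ y) = algebraMap k (O k) c) (f : O k) : top (φ f) = c ^ 4 * top f := by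
  have h : top (φ f * jac (φ x) (φ y)) = c0 (jac (φ x) (φ y)) ^ 5 * top f :=
    change_var (φ : O k →ₐ[k] O k) f
  rw [hj, c0_alg, mul_comm, ← sm, top_smul] at h
  apply mul_left_cancel₀ hc
  rw [h]; ring

theorem Rel.top {h h' : O k} (r : Rel h h') (h0 : top h = 0) : top h' = 0 := by
  obtain ⟨φ, c, hc, hj, e⟩ := r
  have h1 := top_eqv φ hc hj h
  rw [e, top_smul, h0, mul_zero] at h1
  exact (mul_eq_zero.mp h1).resolve_left (pow_ne_zero 3 hc)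

theorem Rel.of_pair (α β : O k →ₐ[k] O k) (c : k) (hc : c ≠ 0)
    (hβ : c0 (jac (β x) (β y)) ≠ 0) (hj : jac (α x) (α y) = c • jac (β x) (β y)) {h h' : O k}
    (e : α h = c ^ 3 • β h') : Rel h h' := by
  have hα : c0 (jac (α x) (α y)) ≠ 0 := by rw [hj, c0_smul]; exact mul_ne_zero hc hβ
  let a := AlgEquiv.ofBijective α (hom_bij α hα)
  let b := AlgEquiv.ofBijective β (hom_bij β hβ)
  have ha : ∀ f, a f = α f := fun _ => rfl
  have hb : ∀ f, b f = β f := fun _ => rfl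
  refine ⟨a.trans b.symm, c, hc, ?_, ?_⟩
  · apply b.injective
    have h1 := jac_eqv b (b.symm (a x)) (b.symm (a y))
    rw [b.apply_symm_apply, b.apply_symm_apply, ha, ha, hj, sm, hb x, hb y] at h1
    rw [AlgEquiv.trans_apply, AlgEquiv.trans_apply, AlgEquiv.commutes, ha, ha]
    exact ((unit_of_c0 hβ).mul_right_cancel h1).symm
  · apply b.injective
    rw [AlgEquiv.trans_apply, b.apply_symm_apply, ha, e, map_smul, hb]

theorem Rel.of_hom (α : O k →ₐ[k] O k) (c : k) (hc : c ≠ 0)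
    (hj : jac (α x) (α y) = algebraMap k (O k) c) {h h' : O k} (e : α h = c ^ 3 • h') :
    Rel h h' :=
  ⟨AlgEquiv.ofBijective α (hom_bij α (by rw [hj, c0_alg]; exact hc)), c, hc, hj, e⟩

/-- The two substitutions attached to a divergence free field. -/
theorem pair_data (P Q : O k) (hP : Ord 2 P) (hQ : Ord 2 Q) (hd : pd 0 P + pd 1 Q = 0) :
    ∃ α β : O k →ₐ[k] O k, α x = x + P ∧ α y = y ∧ β x = x ∧ β y = y - Q ∧
      Function.Surjective β ∧ ∀ h h', α h = β h' → Rel h h' := by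
  have h1 : Ord 1 (x + P) := ord_x.add (hP.mono (by norm_num))
  have h2 : Ord 1 (y - Q) := ord_y.sub (hQ.mono (by norm_num))
  have hβ : jac ((sub x (y - Q) x5 h2.pow5) x) ((sub x (y - Q) x5 h2.pow5) y) = 1 - pd 1 Q := by
    rw [sub_x, sub_y, jac, der_sub, pd0_x, pd1_x, pd1_y]; ring
  have hβ0 : c0 (jac ((sub x (y - Q) x5 h2.pow5) x) ((sub x (y - Q) x5 h2.pow5) y)) ≠ 0 := by
    rw [hβ]
    intro h0
    have h3 := (ord1_c0.mpr h0).add (Ord.der hQ (pd 1))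
    rw [sub_add_cancel, one_eq, ord1_iff] at h3
    exact one_ne_zero h3
  refine ⟨sub (x + P) y h1.pow5 y5, sub x (y - Q) x5 h2.pow5, sub_x .., sub_y .., sub_x ..,
    sub_y .., (hom_bij _ hβ0).2, fun h h' e =>
    Rel.of_pair (sub (x + P) y h1.pow5 y5) _ 1 one_ne_zero hβ0 ?_ ?_⟩
  · rw [hβ, sub_x, sub_y, jac, der_add, pd0_x, pd1_y, pd0_y, one_smul]
    linear_combination hd
  · rw [one_pow, one_smul, e]

theorem step (o e : ℕ) (h P Q : O k) (ho : Ord (o + 1) h) (hP : Ord (e + 2) P)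
    (hQ : Ord (e + 2) Q) (hd : pd 0 P + pd 1 Q = 0) :
    ∃ h', Rel h h' ∧ Ord (o + 2 * e + 3) (h' - (h + P * pd 0 h + Q * pd 1 h)) := by
  obtain ⟨α, β, ax, ay, bx, bY, hs, hr⟩ :=
    pair_data P Q (hP.mono (by omega)) (hQ.mono (by omega)) hd
  obtain ⟨h', e'⟩ := hs (α h)
  have r := hr h h' e'.symm
  refine ⟨h', r, ?_⟩
  obtain ⟨a1, a2⟩ := taylor α P 0 (e + 1) hP (ord_zero _) ax (by rw [ay, add_zero]) _ h ho
  obtain ⟨b1, b2⟩ := taylor β 0 (-Q) (e + 1) (ord_zero _) hQ.neg (by rw [bx, add_zero])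
    (by rw [bY, sub_eq_add_neg]) _ h' (r.ord ho)
  rw [e'] at b1 b2
  have c1 : Ord (o + e + 1 + 1) (h' - h) := ((a1.sub b1).cast (by omega)).congr (by ring)
  have c2 := hQ.mul (Ord.der c1 (pd 1))
  rw [der_sub] at c2
  exact (((a2.sub b2).cast (by omega)).add (c2.cast (by omega))).congr (by ring)

theorem lin_gen {R : Type*} [CommRing R] (X Y : R) (hx : X ^ 5 = 0) (hy : Y ^ 5 = 0)
    (u10 u01 v10 v01 : R) (a00 a10 a01 a20 a11 a02 a30 a21 a12 a03 a40 a31 a22 a13 a04 a41 a32 a23 a14 a42 a33 a24 a43 a34 a44 : R) :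
    a00 * ((u10 * X + u01 * Y) ^ 0 * (v10 * X + v01 * Y) ^ 0) + a10 * ((u10 * X + u01 * Y) ^ 1 * (v10
      * X + v01 * Y) ^ 0) + a01 * ((u10 * X + u01 * Y) ^ 0 * (v10 * X + v01 * Y) ^ 1) + a20 *
      ((u10 * X + u01 * Y) ^ 2 * (v10 * X + v01 * Y) ^ 0) + a11 * ((u10 * X + u01 * Y) ^ 1 * (v10
      * X + v01 * Y) ^ 1) + a02 * ((u10 * X + u01 * Y) ^ 0 * (v10 * X + v01 * Y) ^ 2) + a30 *
      ((u10 * X + u01 * Y) ^ 3 * (v10 * X + v01 * Y) ^ 0) + a21 * ((u10 * X + u01 * Y) ^ 2 * (v10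
      * X + v01 * Y) ^ 1) + a12 * ((u10 * X + u01 * Y) ^ 1 * (v10 * X + v01 * Y) ^ 2) + a03 *
      ((u10 * X + u01 * Y) ^ 0 * (v10 * X + v01 * Y) ^ 3) + a40 * ((u10 * X + u01 * Y) ^ 4 * (v10
      * X + v01 * Y) ^ 0) + a31 * ((u10 * X + u01 * Y) ^ 3 * (v10 * X + v01 * Y) ^ 1) + a22 *
      ((u10 * X + u01 * Y) ^ 2 * (v10 * X + v01 * Y) ^ 2) + a13 * ((u10 * X + u01 * Y) ^ 1 * (v10
      * X + v01 * Y) ^ 3) + a04 * ((u10 * X + u01 * Y) ^ 0 * (v10 * X + v01 * Y) ^ 4) + a41 *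
      ((u10 * X + u01 * Y) ^ 4 * (v10 * X + v01 * Y) ^ 1) + a32 * ((u10 * X + u01 * Y) ^ 3 * (v10
      * X + v01 * Y) ^ 2) + a23 * ((u10 * X + u01 * Y) ^ 2 * (v10 * X + v01 * Y) ^ 3) + a14 *
      ((u10 * X + u01 * Y) ^ 1 * (v10 * X + v01 * Y) ^ 4) + a42 * ((u10 * X + u01 * Y) ^ 4 * (v10
      * X + v01 * Y) ^ 2) + a33 * ((u10 * X + u01 * Y) ^ 3 * (v10 * X + v01 * Y) ^ 3) + a24 *
      ((u10 * X + u01 * Y) ^ 2 * (v10 * X + v01 * Y) ^ 4) + a43 * ((u10 * X + u01 * Y) ^ 4 * (v10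
      * X + v01 * Y) ^ 3) + a34 * ((u10 * X + u01 * Y) ^ 3 * (v10 * X + v01 * Y) ^ 4) + a44 *
      ((u10 * X + u01 * Y) ^ 4 * (v10 * X + v01 * Y) ^ 4) =
    a00 * (X ^ 0 * Y ^ 0) + (a01*v10 + a10*u10) * (X ^ 1 * Y ^ 0) + (a01*v01 + a10*u01) * (X ^ 0 * Y
      ^ 1) + (a02*v10*v10 + a11*u10*v10 + a20*u10*u10) * (X ^ 2 * Y ^ 0) + (2*a02*v01*v10 +
      a11*u01*v10 + a11*u10*v01 + 2*a20*u01*u10) * (X ^ 1 * Y ^ 1) + (a02*v01*v01 + a11*u01*v01 +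
      a20*u01*u01) * (X ^ 0 * Y ^ 2) + (a03*v10*v10*v10 + a12*u10*v10*v10 + a21*u10*u10*v10 +
      a30*u10*u10*u10) * (X ^ 3 * Y ^ 0) + (3*a03*v01*v10*v10 + a12*u01*v10*v10 +
      2*a12*u10*v01*v10 + 2*a21*u01*u10*v10 + a21*u10*u10*v01 + 3*a30*u01*u10*u10) * (X ^ 2 * Y ^
      1) + (3*a03*v01*v01*v10 + 2*a12*u01*v01*v10 + a12*u10*v01*v01 + 2*a21*u01*u10*v01 +
      a21*u01*u01*v10 + 3*a30*u01*u01*u10) * (X ^ 1 * Y ^ 2) + (a03*v01*v01*v01 + a12*u01*v01*v01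
      + a21*u01*u01*v01 + a30*u01*u01*u01) * (X ^ 0 * Y ^ 3) + (a04*v10^(4:ℕ) +
      a13*u10*v10*v10*v10 + a22*u10*u10*v10*v10 + a31*u10*u10*u10*v10 + a40*u10^(4:ℕ)) * (X ^ 4 *
      Y ^ 0) + (4*a04*v01*v10*v10*v10 + a13*u01*v10*v10*v10 + 3*a13*u10*v01*v10*v10 +
      2*a22*u01*u10*v10*v10 + 2*a22*u10*u10*v01*v10 + 3*a31*u01*u10*u10*v10 + a31*u10*u10*u10*v01
      + 4*a40*u01*u10*u10*u10) * (X ^ 3 * Y ^ 1) + (6*a04*v01*v01*v10*v10 + 3*a13*u01*v01*v10*v10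
      + 3*a13*u10*v01*v01*v10 + 4*a22*u01*u10*v01*v10 + a22*u01*u01*v10*v10 + a22*u10*u10*v01*v01
      + 3*a31*u01*u10*u10*v01 + 3*a31*u01*u01*u10*v10 + 6*a40*u01*u01*u10*u10) * (X ^ 2 * Y ^ 2)
      + (4*a04*v01*v01*v01*v10 + 3*a13*u01*v01*v01*v10 + a13*u10*v01*v01*v01 +
      2*a22*u01*u10*v01*v01 + 2*a22*u01*u01*v01*v10 + 3*a31*u01*u01*u10*v01 + a31*u01*u01*u01*v10
      + 4*a40*u01*u01*u01*u10) * (X ^ 1 * Y ^ 3) + (a04*v01^(4:ℕ) + a13*u01*v01*v01*v01 +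
      a22*u01*u01*v01*v01 + a31*u01*u01*u01*v01 + a40*u01^(4:ℕ)) * (X ^ 0 * Y ^ 4) +
      (a14*u01*v10^(4:ℕ) + 4*a14*u10*v01*v10*v10*v10 + 2*a23*u01*u10*v10*v10*v10 +
      3*a23*u10*u10*v01*v10*v10 + 3*a32*u01*u10*u10*v10*v10 + 2*a32*u10*u10*u10*v01*v10 +
      4*a41*u01*u10*u10*u10*v10 + a41*u10^(4:ℕ)*v01) * (X ^ 4 * Y ^ 1) +
      (4*a14*u01*v01*v10*v10*v10 + 6*a14*u10*v01*v01*v10*v10 + 6*a23*u01*u10*v01*v10*v10 +
      a23*u01*u01*v10*v10*v10 + 3*a23*u10*u10*v01*v01*v10 + 6*a32*u01*u10*u10*v01*v10 +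
      3*a32*u01*u01*u10*v10*v10 + a32*u10*u10*u10*v01*v01 + 4*a41*u01*u10*u10*u10*v01 +
      6*a41*u01*u01*u10*u10*v10) * (X ^ 3 * Y ^ 2) + (6*a14*u01*v01*v01*v10*v10 +
      4*a14*u10*v01*v01*v01*v10 + 6*a23*u01*u10*v01*v01*v10 + 3*a23*u01*u01*v01*v10*v10 +
      a23*u10*u10*v01*v01*v01 + 3*a32*u01*u10*u10*v01*v01 + 6*a32*u01*u01*u10*v01*v10 +
      a32*u01*u01*u01*v10*v10 + 6*a41*u01*u01*u10*u10*v01 + 4*a41*u01*u01*u01*u10*v10) * (X ^ 2 *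
      Y ^ 3) + (4*a14*u01*v01*v01*v01*v10 + a14*u10*v01^(4:ℕ) + 2*a23*u01*u10*v01*v01*v01 +
      3*a23*u01*u01*v01*v01*v10 + 3*a32*u01*u01*u10*v01*v01 + 2*a32*u01*u01*u01*v01*v10 +
      4*a41*u01*u01*u01*u10*v01 + a41*u01^(4:ℕ)*v10) * (X ^ 1 * Y ^ 4) +
      (8*a24*u01*u10*v01*v10*v10*v10 + a24*u01*u01*v10^(4:ℕ) + 6*a24*u10*u10*v01*v01*v10*v10 +
      9*a33*u01*u10*u10*v01*v10*v10 + 3*a33*u01*u01*u10*v10*v10*v10 +
      3*a33*u10*u10*u10*v01*v01*v10 + 8*a42*u01*u10*u10*u10*v01*v10 +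
      6*a42*u01*u01*u10*u10*v10*v10 + a42*u10^(4:ℕ)*v01*v01) * (X ^ 4 * Y ^ 2) +
      (12*a24*u01*u10*v01*v01*v10*v10 + 4*a24*u01*u01*v01*v10*v10*v10 +
      4*a24*u10*u10*v01*v01*v01*v10 + 9*a33*u01*u10*u10*v01*v01*v10 +
      9*a33*u01*u01*u10*v01*v10*v10 + a33*u01*u01*u01*v10*v10*v10 + a33*u10*u10*u10*v01*v01*v01 +
      4*a42*u01*u10*u10*u10*v01*v01 + 12*a42*u01*u01*u10*u10*v01*v10 +
      4*a42*u01*u01*u01*u10*v10*v10) * (X ^ 3 * Y ^ 3) + (8*a24*u01*u10*v01*v01*v01*v10 +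
      6*a24*u01*u01*v01*v01*v10*v10 + a24*u10*u10*v01^(4:ℕ) + 3*a33*u01*u10*u10*v01*v01*v01 +
      9*a33*u01*u01*u10*v01*v01*v10 + 3*a33*u01*u01*u01*v01*v10*v10 +
      6*a42*u01*u01*u10*u10*v01*v01 + 8*a42*u01*u01*u01*u10*v01*v10 + a42*u01^(4:ℕ)*v10*v10) * (X
      ^ 2 * Y ^ 4) + (18*a34*u01*u10*u10*v01*v01*v10*v10 + 12*a34*u01*u01*u10*v01*v10*v10*v10 +
      a34*u01*u01*u01*v10^(4:ℕ) + 4*a34*u10*u10*u10*v01*v01*v01*v10 +
      12*a43*u01*u10*u10*u10*v01*v01*v10 + 18*a43*u01*u01*u10*u10*v01*v10*v10 +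
      4*a43*u01*u01*u01*u10*v10*v10*v10 + a43*u10^(4:ℕ)*v01*v01*v01) * (X ^ 4 * Y ^ 3) +
      (12*a34*u01*u10*u10*v01*v01*v01*v10 + 18*a34*u01*u01*u10*v01*v01*v10*v10 +
      4*a34*u01*u01*u01*v01*v10*v10*v10 + a34*u10*u10*u10*v01^(4:ℕ) +
      4*a43*u01*u10*u10*u10*v01*v01*v01 + 18*a43*u01*u01*u10*u10*v01*v01*v10 +
      12*a43*u01*u01*u01*u10*v01*v10*v10 + a43*u01^(4:ℕ)*v10*v10*v10) * (X ^ 3 * Y ^ 4) +
      (16*a44*u01*u10*u10*u10*v01*v01*v01*v10 + 36*a44*u01*u01*u10*u10*v01*v01*v10*v10 +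
      16*a44*u01*u01*u01*u10*v01*v10*v10*v10 + a44*u01^(4:ℕ)*v10^(4:ℕ) + a44*u10^(4:ℕ)*v01^(4:ℕ))
      * (X ^ 4 * Y ^ 4) := by
  linear_combination (a14*u10*v10^(4:ℕ) + a23*u10*u10*v10*v10*v10 + a32*u10*u10*u10*v10*v10 + a41*u10^(4:ℕ)*v10 +
      X*a24*u10*u10*v10^(4:ℕ) + X*a33*u10*u10*u10*v10*v10*v10 + X*a42*u10^(4:ℕ)*v10*v10 +
      2*Y*a24*u01*u10*v10^(4:ℕ) + 4*Y*a24*u10*u10*v01*v10*v10*v10 +
      3*Y*a33*u01*u10*u10*v10*v10*v10 + 3*Y*a33*u10*u10*u10*v01*v10*v10 +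
      4*Y*a42*u01*u10*u10*u10*v10*v10 + 2*Y*a42*u10^(4:ℕ)*v01*v10 +
      3*X*Y*a34*u01*u10*u10*v10^(4:ℕ) + 4*X*Y*a34*u10*u10*u10*v01*v10*v10*v10 +
      4*X*Y*a43*u01*u10*u10*u10*v10*v10*v10 + 3*X*Y*a43*u10^(4:ℕ)*v01*v10*v10 +
      X*X*a34*u10*u10*u10*v10^(4:ℕ) + X*X*a43*u10^(4:ℕ)*v10*v10*v10 +
      12*Y*Y*a34*u01*u10*u10*v01*v10*v10*v10 + 3*Y*Y*a34*u01*u01*u10*v10^(4:ℕ) +
      6*Y*Y*a34*u10*u10*u10*v01*v01*v10*v10 + 12*Y*Y*a43*u01*u10*u10*u10*v01*v10*v10 +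
      6*Y*Y*a43*u01*u01*u10*u10*v10*v10*v10 + 3*Y*Y*a43*u10^(4:ℕ)*v01*v01*v10 +
      16*X*Y*Y*a44*u01*u10*u10*u10*v01*v10*v10*v10 + 6*X*Y*Y*a44*u01*u01*u10*u10*v10^(4:ℕ) +
      6*X*Y*Y*a44*u10^(4:ℕ)*v01*v01*v10*v10 + 4*X*X*Y*a44*u01*u10*u10*u10*v10^(4:ℕ) +
      4*X*X*Y*a44*u10^(4:ℕ)*v01*v10*v10*v10 + X*X*X*a44*u10^(4:ℕ)*v10^(4:ℕ) +
      24*Y*Y*Y*a44*u01*u10*u10*u10*v01*v01*v10*v10 + 24*Y*Y*Y*a44*u01*u01*u10*u10*v01*v10*v10*v10
      + 4*Y*Y*Y*a44*u01*u01*u01*u10*v10^(4:ℕ) + 4*Y*Y*Y*a44*u10^(4:ℕ)*v01*v01*v01*v10) * hx + (a14*u01*v01^(4:ℕ) + a23*u01*u01*v01*v01*v01 + a32*u01*u01*u01*v01*v01 + a41*u01^(4:ℕ)*v01 +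
      2*X*a24*u01*u10*v01^(4:ℕ) + 4*X*a24*u01*u01*v01*v01*v01*v10 +
      3*X*a33*u01*u01*u10*v01*v01*v01 + 3*X*a33*u01*u01*u01*v01*v01*v10 +
      4*X*a42*u01*u01*u01*u10*v01*v01 + 2*X*a42*u01^(4:ℕ)*v01*v10 + Y*a24*u01*u01*v01^(4:ℕ) +
      Y*a33*u01*u01*u01*v01*v01*v01 + Y*a42*u01^(4:ℕ)*v01*v01 + 3*X*Y*a34*u01*u01*u10*v01^(4:ℕ) +
      4*X*Y*a34*u01*u01*u01*v01*v01*v01*v10 + 4*X*Y*a43*u01*u01*u01*u10*v01*v01*v01 +
      3*X*Y*a43*u01^(4:ℕ)*v01*v01*v10 + 3*X*X*a34*u01*u10*u10*v01^(4:ℕ) +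
      12*X*X*a34*u01*u01*u10*v01*v01*v01*v10 + 6*X*X*a34*u01*u01*u01*v01*v01*v10*v10 +
      6*X*X*a43*u01*u01*u10*u10*v01*v01*v01 + 12*X*X*a43*u01*u01*u01*u10*v01*v01*v10 +
      3*X*X*a43*u01^(4:ℕ)*v01*v10*v10 + Y*Y*a34*u01*u01*u01*v01^(4:ℕ) +
      Y*Y*a43*u01^(4:ℕ)*v01*v01*v01 + 4*X*Y*Y*a44*u01*u01*u01*u10*v01^(4:ℕ) +
      4*X*Y*Y*a44*u01^(4:ℕ)*v01*v01*v01*v10 + 6*X*X*Y*a44*u01*u01*u10*u10*v01^(4:ℕ) +
      16*X*X*Y*a44*u01*u01*u01*u10*v01*v01*v01*v10 + 6*X*X*Y*a44*u01^(4:ℕ)*v01*v01*v10*v10 +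
      4*X*X*X*a44*u01*u10*u10*u10*v01^(4:ℕ) + 24*X*X*X*a44*u01*u01*u10*u10*v01*v01*v01*v10 +
      24*X*X*X*a44*u01*u01*u01*u10*v01*v01*v10*v10 + 4*X*X*X*a44*u01^(4:ℕ)*v01*v10*v10*v10 +
      Y*Y*Y*a44*u01^(4:ℕ)*v01^(4:ℕ)) * hy

theorem lin_act (u10 u01 v10 v01 : k) (hc : u10 * v01 - u01 * v10 ≠ 0)
    (a00 a10 a01 a20 a11 a02 a30 a21 a12 a03 a40 a31 a22 a13 a04 a41 a32 a23 a14 a42 a33 a24 a43 a34 a44 : k) :
    ∃ h' : O k, Rel (mk a00 a10 a01 a20 a11 a02 a30 a21 a12 a03 a40 a31 a22 a13 a04 a41 a32 a23 a14 a42 a33 a24 a43 a34 a44) h' ∧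
    (u10 * v01 - u01 * v10) ^ 3 • h' =
    mk a00 (a01*v10 + a10*u10) (a01*v01 + a10*u01) (a02*v10*v10 + a11*u10*v10 + a20*u10*u10)
      (2*a02*v01*v10 + a11*u01*v10 + a11*u10*v01 + 2*a20*u01*u10) (a02*v01*v01 + a11*u01*v01 +
      a20*u01*u01) (a03*v10*v10*v10 + a12*u10*v10*v10 + a21*u10*u10*v10 + a30*u10*u10*u10)
      (3*a03*v01*v10*v10 + a12*u01*v10*v10 + 2*a12*u10*v01*v10 + 2*a21*u01*u10*v10 +
      a21*u10*u10*v01 + 3*a30*u01*u10*u10) (3*a03*v01*v01*v10 + 2*a12*u01*v01*v10 +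
      a12*u10*v01*v01 + 2*a21*u01*u10*v01 + a21*u01*u01*v10 + 3*a30*u01*u01*u10) (a03*v01*v01*v01
      + a12*u01*v01*v01 + a21*u01*u01*v01 + a30*u01*u01*u01) (a04*v10^(4:ℕ) + a13*u10*v10*v10*v10
      + a22*u10*u10*v10*v10 + a31*u10*u10*u10*v10 + a40*u10^(4:ℕ)) (4*a04*v01*v10*v10*v10 +
      a13*u01*v10*v10*v10 + 3*a13*u10*v01*v10*v10 + 2*a22*u01*u10*v10*v10 + 2*a22*u10*u10*v01*v10
      + 3*a31*u01*u10*u10*v10 + a31*u10*u10*u10*v01 + 4*a40*u01*u10*u10*u10)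
      (6*a04*v01*v01*v10*v10 + 3*a13*u01*v01*v10*v10 + 3*a13*u10*v01*v01*v10 +
      4*a22*u01*u10*v01*v10 + a22*u01*u01*v10*v10 + a22*u10*u10*v01*v01 + 3*a31*u01*u10*u10*v01 +
      3*a31*u01*u01*u10*v10 + 6*a40*u01*u01*u10*u10) (4*a04*v01*v01*v01*v10 +
      3*a13*u01*v01*v01*v10 + a13*u10*v01*v01*v01 + 2*a22*u01*u10*v01*v01 + 2*a22*u01*u01*v01*v10
      + 3*a31*u01*u01*u10*v01 + a31*u01*u01*u01*v10 + 4*a40*u01*u01*u01*u10) (a04*v01^(4:ℕ) +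
      a13*u01*v01*v01*v01 + a22*u01*u01*v01*v01 + a31*u01*u01*u01*v01 + a40*u01^(4:ℕ))
      (a14*u01*v10^(4:ℕ) + 4*a14*u10*v01*v10*v10*v10 + 2*a23*u01*u10*v10*v10*v10 +
      3*a23*u10*u10*v01*v10*v10 + 3*a32*u01*u10*u10*v10*v10 + 2*a32*u10*u10*u10*v01*v10 +
      4*a41*u01*u10*u10*u10*v10 + a41*u10^(4:ℕ)*v01) (4*a14*u01*v01*v10*v10*v10 +
      6*a14*u10*v01*v01*v10*v10 + 6*a23*u01*u10*v01*v10*v10 + a23*u01*u01*v10*v10*v10 +
      3*a23*u10*u10*v01*v01*v10 + 6*a32*u01*u10*u10*v01*v10 + 3*a32*u01*u01*u10*v10*v10 +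
      a32*u10*u10*u10*v01*v01 + 4*a41*u01*u10*u10*u10*v01 + 6*a41*u01*u01*u10*u10*v10)
      (6*a14*u01*v01*v01*v10*v10 + 4*a14*u10*v01*v01*v01*v10 + 6*a23*u01*u10*v01*v01*v10 +
      3*a23*u01*u01*v01*v10*v10 + a23*u10*u10*v01*v01*v01 + 3*a32*u01*u10*u10*v01*v01 +
      6*a32*u01*u01*u10*v01*v10 + a32*u01*u01*u01*v10*v10 + 6*a41*u01*u01*u10*u10*v01 +
      4*a41*u01*u01*u01*u10*v10) (4*a14*u01*v01*v01*v01*v10 + a14*u10*v01^(4:ℕ) +
      2*a23*u01*u10*v01*v01*v01 + 3*a23*u01*u01*v01*v01*v10 + 3*a32*u01*u01*u10*v01*v01 +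
      2*a32*u01*u01*u01*v01*v10 + 4*a41*u01*u01*u01*u10*v01 + a41*u01^(4:ℕ)*v10)
      (8*a24*u01*u10*v01*v10*v10*v10 + a24*u01*u01*v10^(4:ℕ) + 6*a24*u10*u10*v01*v01*v10*v10 +
      9*a33*u01*u10*u10*v01*v10*v10 + 3*a33*u01*u01*u10*v10*v10*v10 +
      3*a33*u10*u10*u10*v01*v01*v10 + 8*a42*u01*u10*u10*u10*v01*v10 +
      6*a42*u01*u01*u10*u10*v10*v10 + a42*u10^(4:ℕ)*v01*v01) (12*a24*u01*u10*v01*v01*v10*v10 +
      4*a24*u01*u01*v01*v10*v10*v10 + 4*a24*u10*u10*v01*v01*v01*v10 +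
      9*a33*u01*u10*u10*v01*v01*v10 + 9*a33*u01*u01*u10*v01*v10*v10 + a33*u01*u01*u01*v10*v10*v10
      + a33*u10*u10*u10*v01*v01*v01 + 4*a42*u01*u10*u10*u10*v01*v01 +
      12*a42*u01*u01*u10*u10*v01*v10 + 4*a42*u01*u01*u01*u10*v10*v10)
      (8*a24*u01*u10*v01*v01*v01*v10 + 6*a24*u01*u01*v01*v01*v10*v10 + a24*u10*u10*v01^(4:ℕ) +
      3*a33*u01*u10*u10*v01*v01*v01 + 9*a33*u01*u01*u10*v01*v01*v10 +
      3*a33*u01*u01*u01*v01*v10*v10 + 6*a42*u01*u01*u10*u10*v01*v01 +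
      8*a42*u01*u01*u01*u10*v01*v10 + a42*u01^(4:ℕ)*v10*v10) (18*a34*u01*u10*u10*v01*v01*v10*v10
      + 12*a34*u01*u01*u10*v01*v10*v10*v10 + a34*u01*u01*u01*v10^(4:ℕ) +
      4*a34*u10*u10*u10*v01*v01*v01*v10 + 12*a43*u01*u10*u10*u10*v01*v01*v10 +
      18*a43*u01*u01*u10*u10*v01*v10*v10 + 4*a43*u01*u01*u01*u10*v10*v10*v10 +
      a43*u10^(4:ℕ)*v01*v01*v01) (12*a34*u01*u10*u10*v01*v01*v01*v10 +
      18*a34*u01*u01*u10*v01*v01*v10*v10 + 4*a34*u01*u01*u01*v01*v10*v10*v10 +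
      a34*u10*u10*u10*v01^(4:ℕ) + 4*a43*u01*u10*u10*u10*v01*v01*v01 +
      18*a43*u01*u01*u10*u10*v01*v01*v10 + 12*a43*u01*u01*u01*u10*v01*v10*v10 +
      a43*u01^(4:ℕ)*v10*v10*v10) (16*a44*u01*u10*u10*u10*v01*v01*v01*v10 +
      36*a44*u01*u01*u10*u10*v01*v01*v10*v10 + 16*a44*u01*u01*u01*u10*v01*v10*v10*v10 +
      a44*u01^(4:ℕ)*v10^(4:ℕ) + a44*u10^(4:ℕ)*v01^(4:ℕ)) := by
  have h1 : Ord 1 (u10 • x + u01 • y : O k) := (ord_x.smul _).add (ord_y.smul _)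
  have h2 : Ord 1 (v10 • x + v01 • y : O k) := (ord_x.smul _).add (ord_y.smul _)
  obtain ⟨h', hA⟩ : ∃ h', h' =
    ((u10 * v01 - u01 * v10) ^ 3)⁻¹ • sub _ _ h1.pow5 h2.pow5 (mk a00 a10 a01 a20 a11 a02 a30 a21 a12 a03 a40 a31 a22 a13 a04 a41 a32 a23 a14 a42 a33 a24 a43 a34 a44) := ⟨_, rfl⟩
  have e : sub _ _ h1.pow5 h2.pow5 (mk a00 a10 a01 a20 a11 a02 a30 a21 a12 a03 a40 a31 a22 a13 a04 a41 a32 a23 a14 a42 a33 a24 a43 a34 a44) =
      (u10 * v01 - u01 * v10) ^ 3 • h' := by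
    rw [hA, smul_smul, mul_inv_cancel₀ (pow_ne_zero 3 hc), one_smul]
  refine ⟨h', Rel.of_hom _ _ hc ?_ e, ?_⟩
  · rw [sub_x, sub_y, jac, der_add, der_add, der_add, der_add]
    simp only [der_smul, pd0_x, pd0_y, pd1_x, pd1_y]
    simp only [sm, map_sub, map_mul]
    ring
  · rw [← e]
    simp only [mk, hom_add, hom_smul, hom_m, sub_x, sub_y]
    simp only [m, sm, map_add, map_mul, map_pow, map_ofNat]
    exact lin_gen _ _ x5 y5 ..

theorem jac_mk (u10 u01 u20 u11 u02 u30 u21 u12 u03 u40 u31 u22 u13 u04 u41 u32 u23 u14 u42 u33 u24 u43 u34 u44 : k)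
    (v10 v01 v20 v11 v02 v30 v21 v12 v03 v40 v31 v22 v13 v04 v41 v32 v23 v14 v42 v33 v24 v43 v34 v44 : k) :
    jac (mk 0 u10 u01 u20 u11 u02 u30 u21 u12 u03 u40 u31 u22 u13 u04 u41 u32 u23 u14 u42 u33 u24 u43 u34 u44)
      (mk 0 v10 v01 v20 v11 v02 v30 v21 v12 v03 v40 v31 v22 v13 v04 v41 v32 v23 v14 v42 v33 v24 v43 v34 v44) =
    mk (-u01*v10 + u10*v01) (-2*u01*v20 + u10*v11 - u11*v10 + 2*u20*v01) (-u01*v11 - 2*u02*v10 +
      2*u10*v02 + u11*v01) (-3*u01*v30 + u10*v21 - 2*u11*v20 + 2*u20*v11 - u21*v10 + 3*u30*v01)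
      (-2*u01*v21 - 4*u02*v20 + 2*u10*v12 - 2*u12*v10 + 4*u20*v02 + 2*u21*v01) (-u01*v12 -
      2*u02*v11 - 3*u03*v10 + 3*u10*v03 + 2*u11*v02 + u12*v01) (-4*u01*v40 + u10*v31 - 3*u11*v30
      + 2*u20*v21 - 2*u21*v20 + 3*u30*v11 - u31*v10 + 4*u40*v01) (-3*u01*v31 - 6*u02*v30 +
      2*u10*v22 - u11*v21 - 4*u12*v20 + 4*u20*v12 + u21*v11 - 2*u22*v10 + 6*u30*v02 + 3*u31*v01)
      (-2*u01*v22 - 4*u02*v21 - 6*u03*v20 + 3*u10*v13 + u11*v12 - u12*v11 - 3*u13*v10 + 6*u20*v03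
      + 4*u21*v02 + 2*u22*v01) (-u01*v13 - 2*u02*v12 - 3*u03*v11 - 4*u04*v10 + 4*u10*v04 +
      3*u11*v03 + 2*u12*v02 + u13*v01) (u10*v41 - 4*u11*v40 + 2*u20*v31 - 3*u21*v30 + 3*u30*v21 -
      2*u31*v20 + 4*u40*v11 - u41*v10) (-4*u01*v41 - 8*u02*v40 + 2*u10*v32 - 2*u11*v31 -
      6*u12*v30 + 4*u20*v22 - 4*u22*v20 + 6*u30*v12 + 2*u31*v11 - 2*u32*v10 + 8*u40*v02 +
      4*u41*v01) (-3*u01*v32 - 6*u02*v31 - 9*u03*v30 + 3*u10*v23 - 3*u12*v21 - 6*u13*v20 +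
      6*u20*v13 + 3*u21*v12 - 3*u23*v10 + 9*u30*v03 + 6*u31*v02 + 3*u32*v01) (-2*u01*v23 -
      4*u02*v22 - 6*u03*v21 - 8*u04*v20 + 4*u10*v14 + 2*u11*v13 - 2*u13*v11 - 4*u14*v10 +
      8*u20*v04 + 6*u21*v03 + 4*u22*v02 + 2*u23*v01) (-u01*v14 - 2*u02*v13 - 3*u03*v12 -
      4*u04*v11 + 4*u11*v04 + 3*u12*v03 + 2*u13*v02 + u14*v01) (2*u10*v42 - 3*u11*v41 - 8*u12*v40
      + 4*u20*v32 - u21*v31 - 6*u22*v30 + 6*u30*v22 + u31*v21 - 4*u32*v20 + 8*u40*v12 + 3*u41*v11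
      - 2*u42*v10) (-4*u01*v42 - 8*u02*v41 - 12*u03*v40 + 3*u10*v33 - u11*v32 - 5*u12*v31 -
      9*u13*v30 + 6*u20*v23 + 2*u21*v22 - 2*u22*v21 - 6*u23*v20 + 9*u30*v13 + 5*u31*v12 + u32*v11
      - 3*u33*v10 + 12*u40*v03 + 8*u41*v02 + 4*u42*v01) (-3*u01*v33 - 6*u02*v32 - 9*u03*v31 -
      12*u04*v30 + 4*u10*v24 + u11*v23 - 2*u12*v22 - 5*u13*v21 - 8*u14*v20 + 8*u20*v14 +
      5*u21*v13 + 2*u22*v12 - u23*v11 - 4*u24*v10 + 12*u30*v04 + 9*u31*v03 + 6*u32*v02 +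
      3*u33*v01) (-2*u01*v24 - 4*u02*v23 - 6*u03*v22 - 8*u04*v21 + 3*u11*v14 + u12*v13 - u13*v12
      - 3*u14*v11 + 8*u21*v04 + 6*u22*v03 + 4*u23*v02 + 2*u24*v01) (3*u10*v43 - 2*u11*v42 -
      7*u12*v41 - 12*u13*v40 + 6*u20*v33 + u21*v32 - 4*u22*v31 - 9*u23*v30 + 9*u30*v23 +
      4*u31*v22 - u32*v21 - 6*u33*v20 + 12*u40*v13 + 7*u41*v12 + 2*u42*v11 - 3*u43*v10)
      (-4*u01*v43 - 8*u02*v42 - 12*u03*v41 - 16*u04*v40 + 4*u10*v34 - 4*u12*v32 - 8*u13*v31 -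
      12*u14*v30 + 8*u20*v24 + 4*u21*v23 - 4*u23*v21 - 8*u24*v20 + 12*u30*v14 + 8*u31*v13 +
      4*u32*v12 - 4*u34*v10 + 16*u40*v04 + 12*u41*v03 + 8*u42*v02 + 4*u43*v01) (-3*u01*v34 -
      6*u02*v33 - 9*u03*v32 - 12*u04*v31 + 2*u11*v24 - u12*v23 - 4*u13*v22 - 7*u14*v21 +
      7*u21*v14 + 4*u22*v13 + u23*v12 - 2*u24*v11 + 12*u31*v04 + 9*u32*v03 + 6*u33*v02 +
      3*u34*v01) (4*u10*v44 - u11*v43 - 6*u12*v42 - 11*u13*v41 - 16*u14*v40 + 8*u20*v34 +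
      3*u21*v33 - 2*u22*v32 - 7*u23*v31 - 12*u24*v30 + 12*u30*v24 + 7*u31*v23 + 2*u32*v22 -
      3*u33*v21 - 8*u34*v20 + 16*u40*v14 + 11*u41*v13 + 6*u42*v12 + u43*v11 - 4*u44*v10)
      (-4*u01*v44 - 8*u02*v43 - 12*u03*v42 - 16*u04*v41 + u11*v34 - 3*u12*v33 - 7*u13*v32 -
      11*u14*v31 + 6*u21*v24 + 2*u22*v23 - 2*u23*v22 - 6*u24*v21 + 11*u31*v14 + 7*u32*v13 +
      3*u33*v12 - u34*v11 + 16*u41*v04 + 12*u42*v03 + 8*u43*v02 + 4*u44*v01) (-5*u12*v43 -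
      10*u13*v42 - 15*u14*v41 + 5*u21*v34 - 5*u23*v32 - 10*u24*v31 + 10*u31*v24 + 5*u32*v23 -
      5*u34*v21 + 15*u41*v14 + 10*u42*v13 + 5*u43*v12) := by
  rw [jac, pd0_mk, pd0_mk, pd1_mk, pd1_mk, mk_mul, mk_mul, mk_sub, mk_inj]
  refine ⟨?_, ?_, ?_, ?_, ?_, ?_, ?_, ?_, ?_, ?_, ?_, ?_, ?_, ?_, ?_, ?_, ?_, ?_, ?_, ?_, ?_, ?_, ?_, ?_, ?_⟩ <;> ring

theorem Rel.coords {h h' : O k} (r : Rel h h') :
    ∃ (φ : O k →ₐ[k] O k) (c : k), c ≠ 0 ∧ Ord 1 (φ x) ∧ Ord 1 (φ y) ∧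
      jac (φ x) (φ y) = algebraMap k (O k) c ∧ φ h = c ^ 3 • h' := by
  obtain ⟨φ, c, hc, hj, e⟩ := r
  exact ⟨φ, c, hc, ord_x.hom _, ord_y.hom _, hj, e⟩

omit [CharP k 5] in
theorem ord1_surj {f : O k} (h : Ord 1 f) : ∃ u10 u01 u20 u11 u02 u30 u21 u12 u03 u40 u31 u22 u13 u04 u41 u32 u23 u14 u42 u33 u24 u43 u34 u44 : k,
    f = mk 0 u10 u01 u20 u11 u02 u30 u21 u12 u03 u40 u31 u22 u13 u04 u41 u32 u23 u14 u42 u33 u24 u43 u34 u44 := by
  obtain ⟨u00, u10, u01, u20, u11, u02, u30, u21, u12, u03, u40, u31, u22, u13, u04, u41, u32, u23, u14, u42, u33, u24, u43, u34, u44, rfl⟩ := mk_surj f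
  rw [ord1_iff] at h
  subst h
  exact ⟨_, _, _, _, _, _, _, _, _, _, _, _, _, _, _, _, _, _, _, _, _, _, _, _, rfl⟩

theorem jac_eqs {X Y : O k} {c : k} {u10 u01 u20 u11 u02 u30 u21 u12 u03 u40 u31 u22 u13 u04 u41 u32 u23 u14 u42 u33 u24 u43 u34 u44 : k}
    {v10 v01 v20 v11 v02 v30 v21 v12 v03 v40 v31 v22 v13 v04 v41 v32 v23 v14 v42 v33 v24 v43 v34 v44 : k}
    (hx : X = mk 0 u10 u01 u20 u11 u02 u30 u21 u12 u03 u40 u31 u22 u13 u04 u41 u32 u23 u14 u42 u33 u24 u43 u34 u44)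
    (hy : Y = mk 0 v10 v01 v20 v11 v02 v30 v21 v12 v03 v40 v31 v22 v13 v04 v41 v32 v23 v14 v42 v33 v24 v43 v34 v44)
    (hj : jac X Y = algebraMap k (O k) c) :
    c = u10 * v01 - u01 * v10 ∧
      -2*u01*v20 + u10*v11 - u11*v10 + 2*u20*v01 = 0 ∧
      -u01*v11 - 2*u02*v10 + 2*u10*v02 + u11*v01 = 0 ∧
      -3*u01*v30 + u10*v21 - 2*u11*v20 + 2*u20*v11 - u21*v10 + 3*u30*v01 = 0 ∧
      -2*u01*v21 - 4*u02*v20 + 2*u10*v12 - 2*u12*v10 + 4*u20*v02 + 2*u21*v01 = 0 ∧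
      -u01*v12 - 2*u02*v11 - 3*u03*v10 + 3*u10*v03 + 2*u11*v02 + u12*v01 = 0 ∧
      -4*u01*v40 + u10*v31 - 3*u11*v30 + 2*u20*v21 - 2*u21*v20 + 3*u30*v11 - u31*v10 + 4*u40*v01 = 0 ∧
      -3*u01*v31 - 6*u02*v30 + 2*u10*v22 - u11*v21 - 4*u12*v20 + 4*u20*v12 + u21*v11 - 2*u22*v10 +
        6*u30*v02 + 3*u31*v01 = 0 ∧
      -2*u01*v22 - 4*u02*v21 - 6*u03*v20 + 3*u10*v13 + u11*v12 - u12*v11 - 3*u13*v10 + 6*u20*v03 +
        4*u21*v02 + 2*u22*v01 = 0 ∧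
      -u01*v13 - 2*u02*v12 - 3*u03*v11 - 4*u04*v10 + 4*u10*v04 + 3*u11*v03 + 2*u12*v02 + u13*v01 = 0 ∧
      u10*v41 - 4*u11*v40 + 2*u20*v31 - 3*u21*v30 + 3*u30*v21 - 2*u31*v20 + 4*u40*v11 - u41*v10 = 0 ∧
      -4*u01*v41 - 8*u02*v40 + 2*u10*v32 - 2*u11*v31 - 6*u12*v30 + 4*u20*v22 - 4*u22*v20 + 6*u30*v12 +
        2*u31*v11 - 2*u32*v10 + 8*u40*v02 + 4*u41*v01 = 0 ∧
      -3*u01*v32 - 6*u02*v31 - 9*u03*v30 + 3*u10*v23 - 3*u12*v21 - 6*u13*v20 + 6*u20*v13 + 3*u21*v12 -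
        3*u23*v10 + 9*u30*v03 + 6*u31*v02 + 3*u32*v01 = 0 ∧
      -2*u01*v23 - 4*u02*v22 - 6*u03*v21 - 8*u04*v20 + 4*u10*v14 + 2*u11*v13 - 2*u13*v11 - 4*u14*v10 +
        8*u20*v04 + 6*u21*v03 + 4*u22*v02 + 2*u23*v01 = 0 ∧
      -u01*v14 - 2*u02*v13 - 3*u03*v12 - 4*u04*v11 + 4*u11*v04 + 3*u12*v03 + 2*u13*v02 + u14*v01 = 0 ∧
      2*u10*v42 - 3*u11*v41 - 8*u12*v40 + 4*u20*v32 - u21*v31 - 6*u22*v30 + 6*u30*v22 + u31*v21 -
        4*u32*v20 + 8*u40*v12 + 3*u41*v11 - 2*u42*v10 = 0 ∧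
      -4*u01*v42 - 8*u02*v41 - 12*u03*v40 + 3*u10*v33 - u11*v32 - 5*u12*v31 - 9*u13*v30 + 6*u20*v23 +
        2*u21*v22 - 2*u22*v21 - 6*u23*v20 + 9*u30*v13 + 5*u31*v12 + u32*v11 - 3*u33*v10 +
        12*u40*v03 + 8*u41*v02 + 4*u42*v01 = 0 ∧
      -3*u01*v33 - 6*u02*v32 - 9*u03*v31 - 12*u04*v30 + 4*u10*v24 + u11*v23 - 2*u12*v22 - 5*u13*v21 -
        8*u14*v20 + 8*u20*v14 + 5*u21*v13 + 2*u22*v12 - u23*v11 - 4*u24*v10 + 12*u30*v04 +
        9*u31*v03 + 6*u32*v02 + 3*u33*v01 = 0 ∧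
      -2*u01*v24 - 4*u02*v23 - 6*u03*v22 - 8*u04*v21 + 3*u11*v14 + u12*v13 - u13*v12 - 3*u14*v11 +
        8*u21*v04 + 6*u22*v03 + 4*u23*v02 + 2*u24*v01 = 0 ∧
      3*u10*v43 - 2*u11*v42 - 7*u12*v41 - 12*u13*v40 + 6*u20*v33 + u21*v32 - 4*u22*v31 - 9*u23*v30 +
        9*u30*v23 + 4*u31*v22 - u32*v21 - 6*u33*v20 + 12*u40*v13 + 7*u41*v12 + 2*u42*v11 -
        3*u43*v10 = 0 ∧
      -4*u01*v43 - 8*u02*v42 - 12*u03*v41 - 16*u04*v40 + 4*u10*v34 - 4*u12*v32 - 8*u13*v31 - 12*u14*v30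
        + 8*u20*v24 + 4*u21*v23 - 4*u23*v21 - 8*u24*v20 + 12*u30*v14 + 8*u31*v13 + 4*u32*v12 -
        4*u34*v10 + 16*u40*v04 + 12*u41*v03 + 8*u42*v02 + 4*u43*v01 = 0 ∧
      -3*u01*v34 - 6*u02*v33 - 9*u03*v32 - 12*u04*v31 + 2*u11*v24 - u12*v23 - 4*u13*v22 - 7*u14*v21 +
        7*u21*v14 + 4*u22*v13 + u23*v12 - 2*u24*v11 + 12*u31*v04 + 9*u32*v03 + 6*u33*v02 +
        3*u34*v01 = 0 ∧
      4*u10*v44 - u11*v43 - 6*u12*v42 - 11*u13*v41 - 16*u14*v40 + 8*u20*v34 + 3*u21*v33 - 2*u22*v32 -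
        7*u23*v31 - 12*u24*v30 + 12*u30*v24 + 7*u31*v23 + 2*u32*v22 - 3*u33*v21 - 8*u34*v20 +
        16*u40*v14 + 11*u41*v13 + 6*u42*v12 + u43*v11 - 4*u44*v10 = 0 ∧
      -4*u01*v44 - 8*u02*v43 - 12*u03*v42 - 16*u04*v41 + u11*v34 - 3*u12*v33 - 7*u13*v32 - 11*u14*v31 +
        6*u21*v24 + 2*u22*v23 - 2*u23*v22 - 6*u24*v21 + 11*u31*v14 + 7*u32*v13 + 3*u33*v12 -
        u34*v11 + 16*u41*v04 + 12*u42*v03 + 8*u43*v02 + 4*u44*v01 = 0 := by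
  rw [hx, hy, jac_mk, alg_eq, mk_inj] at hj
  obtain ⟨j00, j10, j01, j20, j11, j02, j30, j21, j12, j03, j40, j31, j22, j13, j04, j41, j32, j23, j14, j42, j33, j24, j43, j34, j44⟩ := hj
  exact ⟨by linear_combination -j00, j10, j01, j20, j11, j02, j30, j21, j12, j03, j40, j31, j22, j13, j04, j41, j32, j23, j14, j42, j33, j24, j43, j34⟩

end Pool.Agent.H25
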