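import Pool.Agent.P.MP_c9b50d_al.H.Rel

/-!
Elementary moves in coordinates.
-/

namespace Pool.Agent.H25

variable {k : Type*} [Field k] [hp : CharP k 5]

theorem st12 (a10 a01 a20 a11 a02 a30 a21 a12 a03 a40 a31 a22 a13 a04 a41 a32 a23 a14 a42 a33 a24 a43 a34 : k)
    (f30 f21 f12 f03 c20 c11 c02 : k)
    (h20 : c20 = a20 - 2*a01*f30 - a10*f21) (h11 : c11 = a11 + 2*a01*f21 - 2*a10*f12) (h02 : c02 =
      a02 + a01*f12 + 2*a10*f03) :
    ∃ b30 b21 b12 b03 b40 b31 b22 b13 b04 b41 b32 b23 b14 b42 b33 b24 b43 b34 : k, Rel (mk 0 a10 a01 a20 a11 a02 a30 a21 a12 a03 a40 a31 a22 a13 a04 a41 a32 a23 a14 a42 a33 a24 a43 a34 0)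
      (mk 0 a10 a01 c20 c11 c02 b30 b21 b12 b03 b40 b31 b22 b13 b04 b41 b32 b23 b14 b42 b33 b24 b43 b34 0) := by
  obtain ⟨h', r, ho⟩ := step 0 0 (mk 0 a10 a01 a20 a11 a02 a30 a21 a12 a03 a40 a31 a22 a13 a04 a41 a32 a23 a14 a42 a33 a24 a43 a34 0)
    (mk 0 0 0 (-f21) (-2*f12) (2*f03) 0 0 0 0 0 0 0 0 0 0 0 0 0 0 0 0 0 0 0)
    (mk 0 0 0 (-2*f30) (2*f21) f12 0 0 0 0 0 0 0 0 0 0 0 0 0 0 0 0 0 0 0)
    (ord1_iff.mpr rfl) (ord2_iff.mpr ⟨rfl, rfl, rfl⟩) (ord2_iff.mpr ⟨rfl, rfl, rfl⟩)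
    (by rw [pd0_mk, pd1_mk, mk_add, zero_eq, mk_inj]; refine ⟨?_, ?_, ?_, ?_, ?_, ?_, ?_, ?_, ?_, ?_, ?_, ?_, ?_, ?_, ?_, ?_, ?_, ?_, ?_, ?_, ?_, ?_, ?_, ?_, ?_⟩ <;> grind)
  obtain ⟨b00, b10, b01, b20, b11, b02, b30, b21, b12, b03, b40, b31, b22, b13, b04, b41, b32, b23, b14, b42, b33, b24, b43, b34, b44, rfl⟩ := mk_surj h'
  have h44 := r.top (top_coord ..)
  rw [top_coord] at h44
  subst h44
  have ho' := ho.mono (show 3 ≤ _ by norm_num)
  rw [pd0_mk, pd1_mk, mk_mul, mk_mul, mk_add, mk_add, mk_sub, ord3_iff] at ho'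
  obtain ⟨e00, e10, e01, e20, e11, e02⟩ := ho'
  have e : 0 = b00 := by clear * - hp e00; grind
  subst e
  have e : a10 = b10 := by clear * - hp e10; grind
  subst e
  have e : a01 = b01 := by clear * - hp e01; grind
  subst e
  have e : c20 = b20 := by clear * - hp e20 h20; grind
  subst e
  have e : c11 = b11 := by clear * - hp e11 h11; grind
  subst e
  have e : c02 = b02 := by clear * - hp e02 h02; grind
  subst e
  exact ⟨_, _, _, _, _, _, _, _, _, _, _, _, _, _, _, _, _, _, r⟩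

theorem st13 (a10 a01 a20 a11 a02 a30 a21 a12 a03 a40 a31 a22 a13 a04 a41 a32 a23 a14 a42 a33 a24 a43 a34 : k)
    (f40 f31 f22 f13 f04 c30 c21 c12 c03 : k)
    (h30 : c30 = a30 - a01*f40 - a10*f31) (h21 : c21 = a21 - 2*a01*f31 - 2*a10*f22) (h12 : c12 = a12
      + 2*a01*f22 + 2*a10*f13) (h03 : c03 = a03 + a01*f13 + a10*f04) :
    ∃ b40 b31 b22 b13 b04 b41 b32 b23 b14 b42 b33 b24 b43 b34 : k, Rel (mk 0 a10 a01 a20 a11 a02 a30 a21 a12 a03 a40 a31 a22 a13 a04 a41 a32 a23 a14 a42 a33 a24 a43 a34 0)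
      (mk 0 a10 a01 a20 a11 a02 c30 c21 c12 c03 b40 b31 b22 b13 b04 b41 b32 b23 b14 b42 b33 b24 b43 b34 0) := by
  obtain ⟨h', r, ho⟩ := step 0 1 (mk 0 a10 a01 a20 a11 a02 a30 a21 a12 a03 a40 a31 a22 a13 a04 a41 a32 a23 a14 a42 a33 a24 a43 a34 0)
    (mk 0 0 0 0 0 0 (-f31) (-2*f22) (2*f13) f04 0 0 0 0 0 0 0 0 0 0 0 0 0 0 0)
    (mk 0 0 0 0 0 0 (-f40) (-2*f31) (2*f22) f13 0 0 0 0 0 0 0 0 0 0 0 0 0 0 0)
    (ord1_iff.mpr rfl) (ord3_iff.mpr ⟨rfl, rfl, rfl, rfl, rfl, rfl⟩) (ord3_iff.mpr ⟨rfl, rfl, rfl, rfl, rfl, rfl⟩)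
    (by rw [pd0_mk, pd1_mk, mk_add, zero_eq, mk_inj]; refine ⟨?_, ?_, ?_, ?_, ?_, ?_, ?_, ?_, ?_, ?_, ?_, ?_, ?_, ?_, ?_, ?_, ?_, ?_, ?_, ?_, ?_, ?_, ?_, ?_, ?_⟩ <;> grind)
  obtain ⟨b00, b10, b01, b20, b11, b02, b30, b21, b12, b03, b40, b31, b22, b13, b04, b41, b32, b23, b14, b42, b33, b24, b43, b34, b44, rfl⟩ := mk_surj h'
  have h44 := r.top (top_coord ..)
  rw [top_coord] at h44
  subst h44
  have ho' := ho.mono (show 4 ≤ _ by norm_num)
  rw [pd0_mk, pd1_mk, mk_mul, mk_mul, mk_add, mk_add, mk_sub, ord4_iff] at ho'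
  obtain ⟨e00, e10, e01, e20, e11, e02, e30, e21, e12, e03⟩ := ho'
  have e : 0 = b00 := by clear * - hp e00; grind
  subst e
  have e : a10 = b10 := by clear * - hp e10; grind
  subst e
  have e : a01 = b01 := by clear * - hp e01; grind
  subst e
  have e : a20 = b20 := by clear * - hp e20; grind
  subst e
  have e : a11 = b11 := by clear * - hp e11; grind
  subst e
  have e : a02 = b02 := by clear * - hp e02; grind
  subst e
  have e : c30 = b30 := by clear * - hp e30 h30; grind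
  subst e
  have e : c21 = b21 := by clear * - hp e21 h21; grind
  subst e
  have e : c12 = b12 := by clear * - hp e12 h12; grind
  subst e
  have e : c03 = b03 := by clear * - hp e03 h03; grind
  subst e
  exact ⟨_, _, _, _, _, _, _, _, _, _, _, _, _, _, r⟩

theorem st14 (a10 a01 a20 a11 a02 a30 a21 a12 a03 a40 a31 a22 a13 a04 a41 a32 a23 a14 a42 a33 a24 a43 a34 : k)
    (f41 f32 f23 f14 f05 f50 c40 c31 c22 c13 c04 : k)
    (h40 : c40 = a40 + a01*f50 - a10*f41) (h31 : c31 = a31 - a01*f41 - 2*a10*f32) (h22 : c22 = a22 -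
      2*a01*f32 + 2*a10*f23) (h13 : c13 = a13 + 2*a01*f23 + a10*f14) (h04 : c04 = a04 + a01*f14 +
      a10*f05) :
    ∃ b41 b32 b23 b14 b42 b33 b24 b43 b34 : k, Rel (mk 0 a10 a01 a20 a11 a02 a30 a21 a12 a03 a40 a31 a22 a13 a04 a41 a32 a23 a14 a42 a33 a24 a43 a34 0)
      (mk 0 a10 a01 a20 a11 a02 a30 a21 a12 a03 c40 c31 c22 c13 c04 b41 b32 b23 b14 b42 b33 b24 b43 b34 0) := by
  obtain ⟨h', r, ho⟩ := step 0 2 (mk 0 a10 a01 a20 a11 a02 a30 a21 a12 a03 a40 a31 a22 a13 a04 a41 a32 a23 a14 a42 a33 a24 a43 a34 0)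
    (mk 0 0 0 0 0 0 0 0 0 0 (-f41) (-2*f32) (2*f23) f14 f05 0 0 0 0 0 0 0 0 0 0)
    (mk 0 0 0 0 0 0 0 0 0 0 f50 (-f41) (-2*f32) (2*f23) f14 0 0 0 0 0 0 0 0 0 0)
    (ord1_iff.mpr rfl) (ord4_iff.mpr ⟨rfl, rfl, rfl, rfl, rfl, rfl, rfl, rfl, rfl, rfl⟩) (ord4_iff.mpr ⟨rfl, rfl, rfl, rfl, rfl, rfl, rfl, rfl, rfl, rfl⟩)
    (by rw [pd0_mk, pd1_mk, mk_add, zero_eq, mk_inj]; refine ⟨?_, ?_, ?_, ?_, ?_, ?_, ?_, ?_, ?_, ?_, ?_, ?_, ?_, ?_, ?_, ?_, ?_, ?_, ?_, ?_, ?_, ?_, ?_, ?_, ?_⟩ <;> grind)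
  obtain ⟨b00, b10, b01, b20, b11, b02, b30, b21, b12, b03, b40, b31, b22, b13, b04, b41, b32, b23, b14, b42, b33, b24, b43, b34, b44, rfl⟩ := mk_surj h'
  have h44 := r.top (top_coord ..)
  rw [top_coord] at h44
  subst h44
  have ho' := ho.mono (show 5 ≤ _ by norm_num)
  rw [pd0_mk, pd1_mk, mk_mul, mk_mul, mk_add, mk_add, mk_sub, ord5_iff] at ho'
  obtain ⟨e00, e10, e01, e20, e11, e02, e30, e21, e12, e03, e40, e31, e22, e13, e04⟩ := ho'
  have e : 0 = b00 := by clear * - hp e00; grind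
  subst e
  have e : a10 = b10 := by clear * - hp e10; grind
  subst e
  have e : a01 = b01 := by clear * - hp e01; grind
  subst e
  have e : a20 = b20 := by clear * - hp e20; grind
  subst e
  have e : a11 = b11 := by clear * - hp e11; grind
  subst e
  have e : a02 = b02 := by clear * - hp e02; grind
  subst e
  have e : a30 = b30 := by clear * - hp e30; grind
  subst e
  have e : a21 = b21 := by clear * - hp e21; grind
  subst e
  have e : a12 = b12 := by clear * - hp e12; grind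
  subst e
  have e : a03 = b03 := by clear * - hp e03; grind
  subst e
  have e : c40 = b40 := by clear * - hp e40 h40; grind
  subst e
  have e : c31 = b31 := by clear * - hp e31 h31; grind
  subst e
  have e : c22 = b22 := by clear * - hp e22 h22; grind
  subst e
  have e : c13 = b13 := by clear * - hp e13 h13; grind
  subst e
  have e : c04 = b04 := by clear * - hp e04 h04; grind
  subst e
  exact ⟨_, _, _, _, _, _, _, _, _, r⟩

theorem st15 (a10 a01 a20 a11 a02 a30 a21 a12 a03 a40 a31 a22 a13 a04 a41 a32 a23 a14 a42 a33 a24 a43 a34 : k)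
    (f42 f33 f24 c41 c32 c23 c14 : k)
    (h41 : c41 = a41 - 2*a10*f42) (h32 : c32 = a32 - a01*f42 + 2*a10*f33) (h23 : c23 = a23 -
      2*a01*f33 + a10*f24) (h14 : c14 = a14 + 2*a01*f24) :
    ∃ b42 b33 b24 b43 b34 : k, Rel (mk 0 a10 a01 a20 a11 a02 a30 a21 a12 a03 a40 a31 a22 a13 a04 a41 a32 a23 a14 a42 a33 a24 a43 a34 0)
      (mk 0 a10 a01 a20 a11 a02 a30 a21 a12 a03 a40 a31 a22 a13 a04 c41 c32 c23 c14 b42 b33 b24 b43 b34 0) := by
  obtain ⟨h', r, ho⟩ := step 0 3 (mk 0 a10 a01 a20 a11 a02 a30 a21 a12 a03 a40 a31 a22 a13 a04 a41 a32 a23 a14 a42 a33 a24 a43 a34 0)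
    (mk 0 0 0 0 0 0 0 0 0 0 0 0 0 0 0 (-2*f42) (2*f33) f24 0 0 0 0 0 0 0)
    (mk 0 0 0 0 0 0 0 0 0 0 0 0 0 0 0 0 (-f42) (-2*f33) (2*f24) 0 0 0 0 0 0)
    (ord1_iff.mpr rfl) (ord5_iff.mpr ⟨rfl, rfl, rfl, rfl, rfl, rfl, rfl, rfl, rfl, rfl, rfl, rfl, rfl, rfl, rfl⟩) (ord5_iff.mpr ⟨rfl, rfl, rfl, rfl, rfl, rfl, rfl, rfl, rfl, rfl, rfl, rfl, rfl, rfl, rfl⟩)
    (by rw [pd0_mk, pd1_mk, mk_add, zero_eq, mk_inj]; refine ⟨?_, ?_, ?_, ?_, ?_, ?_, ?_, ?_, ?_, ?_, ?_, ?_, ?_, ?_, ?_, ?_, ?_, ?_, ?_, ?_, ?_, ?_, ?_, ?_, ?_⟩ <;> grind)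
  obtain ⟨b00, b10, b01, b20, b11, b02, b30, b21, b12, b03, b40, b31, b22, b13, b04, b41, b32, b23, b14, b42, b33, b24, b43, b34, b44, rfl⟩ := mk_surj h'
  have h44 := r.top (top_coord ..)
  rw [top_coord] at h44
  subst h44
  have ho' := ho.mono (show 6 ≤ _ by norm_num)
  rw [pd0_mk, pd1_mk, mk_mul, mk_mul, mk_add, mk_add, mk_sub, ord6_iff] at ho'
  obtain ⟨e00, e10, e01, e20, e11, e02, e30, e21, e12, e03, e40, e31, e22, e13, e04, e41, e32, e23, e14⟩ := ho'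
  have e : 0 = b00 := by clear * - hp e00; grind
  subst e
  have e : a10 = b10 := by clear * - hp e10; grind
  subst e
  have e : a01 = b01 := by clear * - hp e01; grind
  subst e
  have e : a20 = b20 := by clear * - hp e20; grind
  subst e
  have e : a11 = b11 := by clear * - hp e11; grind
  subst e
  have e : a02 = b02 := by clear * - hp e02; grind
  subst e
  have e : a30 = b30 := by clear * - hp e30; grind
  subst e
  have e : a21 = b21 := by clear * - hp e21; grind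
  subst e
  have e : a12 = b12 := by clear * - hp e12; grind
  subst e
  have e : a03 = b03 := by clear * - hp e03; grind
  subst e
  have e : a40 = b40 := by clear * - hp e40; grind
  subst e
  have e : a31 = b31 := by clear * - hp e31; grind
  subst e
  have e : a22 = b22 := by clear * - hp e22; grind
  subst e
  have e : a13 = b13 := by clear * - hp e13; grind
  subst e
  have e : a04 = b04 := by clear * - hp e04; grind
  subst e
  have e : c41 = b41 := by clear * - hp e41 h41; grind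
  subst e
  have e : c32 = b32 := by clear * - hp e32 h32; grind
  subst e
  have e : c23 = b23 := by clear * - hp e23 h23; grind
  subst e
  have e : c14 = b14 := by clear * - hp e14 h14; grind
  subst e
  exact ⟨_, _, _, _, _, r⟩

theorem st16 (a10 a01 a20 a11 a02 a30 a21 a12 a03 a40 a31 a22 a13 a04 a41 a32 a23 a14 a42 a33 a24 a43 a34 : k)
    (f43 f34 c42 c33 c24 : k)
    (h42 : c42 = a42 + 2*a10*f43) (h33 : c33 = a33 - a01*f43 + a10*f34) (h24 : c24 = a24 - 2*a01*f34) :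
    ∃ b43 b34 : k, Rel (mk 0 a10 a01 a20 a11 a02 a30 a21 a12 a03 a40 a31 a22 a13 a04 a41 a32 a23 a14 a42 a33 a24 a43 a34 0)
      (mk 0 a10 a01 a20 a11 a02 a30 a21 a12 a03 a40 a31 a22 a13 a04 a41 a32 a23 a14 c42 c33 c24 b43 b34 0) := by
  obtain ⟨h', r, ho⟩ := step 0 4 (mk 0 a10 a01 a20 a11 a02 a30 a21 a12 a03 a40 a31 a22 a13 a04 a41 a32 a23 a14 a42 a33 a24 a43 a34 0)
    (mk 0 0 0 0 0 0 0 0 0 0 0 0 0 0 0 0 0 0 0 (2*f43) f34 0 0 0 0)
    (mk 0 0 0 0 0 0 0 0 0 0 0 0 0 0 0 0 0 0 0 0 (-f43) (-2*f34) 0 0 0)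
    (ord1_iff.mpr rfl) (ord6_iff.mpr ⟨rfl, rfl, rfl, rfl, rfl, rfl, rfl, rfl, rfl, rfl, rfl, rfl, rfl, rfl, rfl, rfl, rfl, rfl, rfl⟩) (ord6_iff.mpr ⟨rfl, rfl, rfl, rfl, rfl, rfl, rfl, rfl, rfl, rfl, rfl, rfl, rfl, rfl, rfl, rfl, rfl, rfl, rfl⟩)
    (by rw [pd0_mk, pd1_mk, mk_add, zero_eq, mk_inj]; refine ⟨?_, ?_, ?_, ?_, ?_, ?_, ?_, ?_, ?_, ?_, ?_, ?_, ?_, ?_, ?_, ?_, ?_, ?_, ?_, ?_, ?_, ?_, ?_, ?_, ?_⟩ <;> grind)
  obtain ⟨b00, b10, b01, b20, b11, b02, b30, b21, b12, b03, b40, b31, b22, b13, b04, b41, b32, b23, b14, b42, b33, b24, b43, b34, b44, rfl⟩ := mk_surj h'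
  have h44 := r.top (top_coord ..)
  rw [top_coord] at h44
  subst h44
  have ho' := ho.mono (show 7 ≤ _ by norm_num)
  rw [pd0_mk, pd1_mk, mk_mul, mk_mul, mk_add, mk_add, mk_sub, ord7_iff] at ho'
  obtain ⟨e00, e10, e01, e20, e11, e02, e30, e21, e12, e03, e40, e31, e22, e13, e04, e41, e32, e23, e14, e42, e33, e24⟩ := ho'
  have e : 0 = b00 := by clear * - hp e00; grind
  subst e
  have e : a10 = b10 := by clear * - hp e10; grind
  subst e
  have e : a01 = b01 := by clear * - hp e01; grind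
  subst e
  have e : a20 = b20 := by clear * - hp e20; grind
  subst e
  have e : a11 = b11 := by clear * - hp e11; grind
  subst e
  have e : a02 = b02 := by clear * - hp e02; grind
  subst e
  have e : a30 = b30 := by clear * - hp e30; grind
  subst e
  have e : a21 = b21 := by clear * - hp e21; grind
  subst e
  have e : a12 = b12 := by clear * - hp e12; grind
  subst e
  have e : a03 = b03 := by clear * - hp e03; grind
  subst e
  have e : a40 = b40 := by clear * - hp e40; grind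
  subst e
  have e : a31 = b31 := by clear * - hp e31; grind
  subst e
  have e : a22 = b22 := by clear * - hp e22; grind
  subst e
  have e : a13 = b13 := by clear * - hp e13; grind
  subst e
  have e : a04 = b04 := by clear * - hp e04; grind
  subst e
  have e : a41 = b41 := by clear * - hp e41; grind
  subst e
  have e : a32 = b32 := by clear * - hp e32; grind
  subst e
  have e : a23 = b23 := by clear * - hp e23; grind
  subst e
  have e : a14 = b14 := by clear * - hp e14; grind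
  subst e
  have e : c42 = b42 := by clear * - hp e42 h42; grind
  subst e
  have e : c33 = b33 := by clear * - hp e33 h33; grind
  subst e
  have e : c24 = b24 := by clear * - hp e24 h24; grind
  subst e
  exact ⟨_, _, r⟩

theorem st17 (a10 a01 a20 a11 a02 a30 a21 a12 a03 a40 a31 a22 a13 a04 a41 a32 a23 a14 a42 a33 a24 a43 a34 : k)
    (f44 c43 c34 : k)
    (h43 : c43 = a43 + a10*f44) (h34 : c34 = a34 - a01*f44) :
    Rel (mk 0 a10 a01 a20 a11 a02 a30 a21 a12 a03 a40 a31 a22 a13 a04 a41 a32 a23 a14 a42 a33 a24 a43 a34 0)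
      (mk 0 a10 a01 a20 a11 a02 a30 a21 a12 a03 a40 a31 a22 a13 a04 a41 a32 a23 a14 a42 a33 a24 c43 c34 0) := by
  obtain ⟨h', r, ho⟩ := step 0 5 (mk 0 a10 a01 a20 a11 a02 a30 a21 a12 a03 a40 a31 a22 a13 a04 a41 a32 a23 a14 a42 a33 a24 a43 a34 0)
    (mk 0 0 0 0 0 0 0 0 0 0 0 0 0 0 0 0 0 0 0 0 0 0 f44 0 0)
    (mk 0 0 0 0 0 0 0 0 0 0 0 0 0 0 0 0 0 0 0 0 0 0 0 (-f44) 0)
    (ord1_iff.mpr rfl) (ord7_iff.mpr ⟨rfl, rfl, rfl, rfl, rfl, rfl, rfl, rfl, rfl, rfl, rfl, rfl, rfl, rfl, rfl, rfl, rfl, rfl, rfl, rfl, rfl, rfl⟩) (ord7_iff.mpr ⟨rfl, rfl, rfl, rfl, rfl, rfl, rfl, rfl, rfl, rfl, rfl, rfl, rfl, rfl, rfl, rfl, rfl, rfl, rfl, rfl, rfl, rfl⟩)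
    (by rw [pd0_mk, pd1_mk, mk_add, zero_eq, mk_inj]; refine ⟨?_, ?_, ?_, ?_, ?_, ?_, ?_, ?_, ?_, ?_, ?_, ?_, ?_, ?_, ?_, ?_, ?_, ?_, ?_, ?_, ?_, ?_, ?_, ?_, ?_⟩ <;> grind)
  obtain ⟨b00, b10, b01, b20, b11, b02, b30, b21, b12, b03, b40, b31, b22, b13, b04, b41, b32, b23, b14, b42, b33, b24, b43, b34, b44, rfl⟩ := mk_surj h'
  have h44 := r.top (top_coord ..)
  rw [top_coord] at h44
  subst h44
  have ho' := ho.mono (show 8 ≤ _ by norm_num)
  rw [pd0_mk, pd1_mk, mk_mul, mk_mul, mk_add, mk_add, mk_sub, ord8_iff] at ho'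
  obtain ⟨e00, e10, e01, e20, e11, e02, e30, e21, e12, e03, e40, e31, e22, e13, e04, e41, e32, e23, e14, e42, e33, e24, e43, e34⟩ := ho'
  have e : 0 = b00 := by clear * - hp e00; grind
  subst e
  have e : a10 = b10 := by clear * - hp e10; grind
  subst e
  have e : a01 = b01 := by clear * - hp e01; grind
  subst e
  have e : a20 = b20 := by clear * - hp e20; grind
  subst e
  have e : a11 = b11 := by clear * - hp e11; grind
  subst e
  have e : a02 = b02 := by clear * - hp e02; grind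
  subst e
  have e : a30 = b30 := by clear * - hp e30; grind
  subst e
  have e : a21 = b21 := by clear * - hp e21; grind
  subst e
  have e : a12 = b12 := by clear * - hp e12; grind
  subst e
  have e : a03 = b03 := by clear * - hp e03; grind
  subst e
  have e : a40 = b40 := by clear * - hp e40; grind
  subst e
  have e : a31 = b31 := by clear * - hp e31; grind
  subst e
  have e : a22 = b22 := by clear * - hp e22; grind
  subst e
  have e : a13 = b13 := by clear * - hp e13; grind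
  subst e
  have e : a04 = b04 := by clear * - hp e04; grind
  subst e
  have e : a41 = b41 := by clear * - hp e41; grind
  subst e
  have e : a32 = b32 := by clear * - hp e32; grind
  subst e
  have e : a23 = b23 := by clear * - hp e23; grind
  subst e
  have e : a14 = b14 := by clear * - hp e14; grind
  subst e
  have e : a42 = b42 := by clear * - hp e42; grind
  subst e
  have e : a33 = b33 := by clear * - hp e33; grind
  subst e
  have e : a24 = b24 := by clear * - hp e24; grind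
  subst e
  have e : c43 = b43 := by clear * - hp e43 h43; grind
  subst e
  have e : c34 = b34 := by clear * - hp e34 h34; grind
  subst e
  exact r

theorem st23 (a20 a11 a02 a30 a21 a12 a03 a40 a31 a22 a13 a04 a41 a32 a23 a14 a42 a33 a24 a43 a34 : k)
    (f30 f21 f12 f03 c30 c21 c12 c03 : k)
    (h30 : c30 = a30 - 2*a11*f30 - 2*a20*f21) (h21 : c21 = a21 + a02*f30 + a11*f21 + a20*f12) (h12 :
      c12 = a12 - a02*f21 - a11*f12 - a20*f03) (h03 : c03 = a03 + 2*a02*f12 + 2*a11*f03) :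
    ∃ b40 b31 b22 b13 b04 b41 b32 b23 b14 b42 b33 b24 b43 b34 : k, Rel (mk 0 0 0 a20 a11 a02 a30 a21 a12 a03 a40 a31 a22 a13 a04 a41 a32 a23 a14 a42 a33 a24 a43 a34 0)
      (mk 0 0 0 a20 a11 a02 c30 c21 c12 c03 b40 b31 b22 b13 b04 b41 b32 b23 b14 b42 b33 b24 b43 b34 0) := by
  obtain ⟨h', r, ho⟩ := step 1 0 (mk 0 0 0 a20 a11 a02 a30 a21 a12 a03 a40 a31 a22 a13 a04 a41 a32 a23 a14 a42 a33 a24 a43 a34 0)
    (mk 0 0 0 (-f21) (-2*f12) (2*f03) 0 0 0 0 0 0 0 0 0 0 0 0 0 0 0 0 0 0 0)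
    (mk 0 0 0 (-2*f30) (2*f21) f12 0 0 0 0 0 0 0 0 0 0 0 0 0 0 0 0 0 0 0)
    (ord2_iff.mpr ⟨rfl, rfl, rfl⟩) (ord2_iff.mpr ⟨rfl, rfl, rfl⟩) (ord2_iff.mpr ⟨rfl, rfl, rfl⟩)
    (by rw [pd0_mk, pd1_mk, mk_add, zero_eq, mk_inj]; refine ⟨?_, ?_, ?_, ?_, ?_, ?_, ?_, ?_, ?_, ?_, ?_, ?_, ?_, ?_, ?_, ?_, ?_, ?_, ?_, ?_, ?_, ?_, ?_, ?_, ?_⟩ <;> grind)
  obtain ⟨b00, b10, b01, b20, b11, b02, b30, b21, b12, b03, b40, b31, b22, b13, b04, b41, b32, b23, b14, b42, b33, b24, b43, b34, b44, rfl⟩ := mk_surj h'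
  have h44 := r.top (top_coord ..)
  rw [top_coord] at h44
  subst h44
  have ho' := ho.mono (show 4 ≤ _ by norm_num)
  rw [pd0_mk, pd1_mk, mk_mul, mk_mul, mk_add, mk_add, mk_sub, ord4_iff] at ho'
  obtain ⟨e00, e10, e01, e20, e11, e02, e30, e21, e12, e03⟩ := ho'
  have e : 0 = b00 := by clear * - hp e00; grind
  subst e
  have e : 0 = b10 := by clear * - hp e10; grind
  subst e
  have e : 0 = b01 := by clear * - hp e01; grind
  subst e
  have e : a20 = b20 := by clear * - hp e20; grind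
  subst e
  have e : a11 = b11 := by clear * - hp e11; grind
  subst e
  have e : a02 = b02 := by clear * - hp e02; grind
  subst e
  have e : c30 = b30 := by clear * - hp e30 h30; grind
  subst e
  have e : c21 = b21 := by clear * - hp e21 h21; grind
  subst e
  have e : c12 = b12 := by clear * - hp e12 h12; grind
  subst e
  have e : c03 = b03 := by clear * - hp e03 h03; grind
  subst e
  exact ⟨_, _, _, _, _, _, _, _, _, _, _, _, _, _, r⟩

theorem st24 (a20 a11 a02 a30 a21 a12 a03 a40 a31 a22 a13 a04 a41 a32 a23 a14 a42 a33 a24 a43 a34 : k)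
    (f40 f31 f22 f13 f04 c40 c31 c22 c13 c04 : k)
    (h40 : c40 = a40 - a11*f40 - 2*a20*f31) (h31 : c31 = a31 - 2*a02*f40 + 2*a11*f31 + a20*f22) (h22
      : c22 = a22 + a02*f31 - a20*f13) (h13 : c13 = a13 - a02*f22 - 2*a11*f13 + 2*a20*f04) (h04 :
      c04 = a04 + 2*a02*f13 + a11*f04) :
    ∃ b41 b32 b23 b14 b42 b33 b24 b43 b34 : k, Rel (mk 0 0 0 a20 a11 a02 a30 a21 a12 a03 a40 a31 a22 a13 a04 a41 a32 a23 a14 a42 a33 a24 a43 a34 0)
      (mk 0 0 0 a20 a11 a02 a30 a21 a12 a03 c40 c31 c22 c13 c04 b41 b32 b23 b14 b42 b33 b24 b43 b34 0) := by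
  obtain ⟨h', r, ho⟩ := step 1 1 (mk 0 0 0 a20 a11 a02 a30 a21 a12 a03 a40 a31 a22 a13 a04 a41 a32 a23 a14 a42 a33 a24 a43 a34 0)
    (mk 0 0 0 0 0 0 (-f31) (-2*f22) (2*f13) f04 0 0 0 0 0 0 0 0 0 0 0 0 0 0 0)
    (mk 0 0 0 0 0 0 (-f40) (-2*f31) (2*f22) f13 0 0 0 0 0 0 0 0 0 0 0 0 0 0 0)
    (ord2_iff.mpr ⟨rfl, rfl, rfl⟩) (ord3_iff.mpr ⟨rfl, rfl, rfl, rfl, rfl, rfl⟩) (ord3_iff.mpr ⟨rfl, rfl, rfl, rfl, rfl, rfl⟩)
    (by rw [pd0_mk, pd1_mk, mk_add, zero_eq, mk_inj]; refine ⟨?_, ?_, ?_, ?_, ?_, ?_, ?_, ?_, ?_, ?_, ?_, ?_, ?_, ?_, ?_, ?_, ?_, ?_, ?_, ?_, ?_, ?_, ?_, ?_, ?_⟩ <;> grind)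
  obtain ⟨b00, b10, b01, b20, b11, b02, b30, b21, b12, b03, b40, b31, b22, b13, b04, b41, b32, b23, b14, b42, b33, b24, b43, b34, b44, rfl⟩ := mk_surj h'
  have h44 := r.top (top_coord ..)
  rw [top_coord] at h44
  subst h44
  have ho' := ho.mono (show 5 ≤ _ by norm_num)
  rw [pd0_mk, pd1_mk, mk_mul, mk_mul, mk_add, mk_add, mk_sub, ord5_iff] at ho'
  obtain ⟨e00, e10, e01, e20, e11, e02, e30, e21, e12, e03, e40, e31, e22, e13, e04⟩ := ho'
  have e : 0 = b00 := by clear * - hp e00; grind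
  subst e
  have e : 0 = b10 := by clear * - hp e10; grind
  subst e
  have e : 0 = b01 := by clear * - hp e01; grind
  subst e
  have e : a20 = b20 := by clear * - hp e20; grind
  subst e
  have e : a11 = b11 := by clear * - hp e11; grind
  subst e
  have e : a02 = b02 := by clear * - hp e02; grind
  subst e
  have e : a30 = b30 := by clear * - hp e30; grind
  subst e
  have e : a21 = b21 := by clear * - hp e21; grind
  subst e
  have e : a12 = b12 := by clear * - hp e12; grind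
  subst e
  have e : a03 = b03 := by clear * - hp e03; grind
  subst e
  have e : c40 = b40 := by clear * - hp e40 h40; grind
  subst e
  have e : c31 = b31 := by clear * - hp e31 h31; grind
  subst e
  have e : c22 = b22 := by clear * - hp e22 h22; grind
  subst e
  have e : c13 = b13 := by clear * - hp e13 h13; grind
  subst e
  have e : c04 = b04 := by clear * - hp e04 h04; grind
  subst e
  exact ⟨_, _, _, _, _, _, _, _, _, r⟩

theorem st25 (a20 a11 a02 a30 a21 a12 a03 a40 a31 a22 a13 a04 a41 a32 a23 a14 a42 a33 a24 a43 a34 : k)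
    (f41 f32 f23 f14 f05 f50 c41 c32 c23 c14 : k)
    (h41 : c41 = a41 + 2*a02*f50 - 2*a11*f41 + a20*f32) (h32 : c32 = a32 - 2*a02*f41 + a11*f32 -
      a20*f23) (h23 : c23 = a23 + a02*f32 - a11*f23 + 2*a20*f14) (h14 : c14 = a14 - a02*f23 +
      2*a11*f14 + 2*a20*f05) :
    ∃ b42 b33 b24 b43 b34 : k, Rel (mk 0 0 0 a20 a11 a02 a30 a21 a12 a03 a40 a31 a22 a13 a04 a41 a32 a23 a14 a42 a33 a24 a43 a34 0)
      (mk 0 0 0 a20 a11 a02 a30 a21 a12 a03 a40 a31 a22 a13 a04 c41 c32 c23 c14 b42 b33 b24 b43 b34 0) := by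
  obtain ⟨h', r, ho⟩ := step 1 2 (mk 0 0 0 a20 a11 a02 a30 a21 a12 a03 a40 a31 a22 a13 a04 a41 a32 a23 a14 a42 a33 a24 a43 a34 0)
    (mk 0 0 0 0 0 0 0 0 0 0 (-f41) (-2*f32) (2*f23) f14 f05 0 0 0 0 0 0 0 0 0 0)
    (mk 0 0 0 0 0 0 0 0 0 0 f50 (-f41) (-2*f32) (2*f23) f14 0 0 0 0 0 0 0 0 0 0)
    (ord2_iff.mpr ⟨rfl, rfl, rfl⟩) (ord4_iff.mpr ⟨rfl, rfl, rfl, rfl, rfl, rfl, rfl, rfl, rfl, rfl⟩) (ord4_iff.mpr ⟨rfl, rfl, rfl, rfl, rfl, rfl, rfl, rfl, rfl, rfl⟩)
    (by rw [pd0_mk, pd1_mk, mk_add, zero_eq, mk_inj]; refine ⟨?_, ?_, ?_, ?_, ?_, ?_, ?_, ?_, ?_, ?_, ?_, ?_, ?_, ?_, ?_, ?_, ?_, ?_, ?_, ?_, ?_, ?_, ?_, ?_, ?_⟩ <;> grind)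
  obtain ⟨b00, b10, b01, b20, b11, b02, b30, b21, b12, b03, b40, b31, b22, b13, b04, b41, b32, b23, b14, b42, b33, b24, b43, b34, b44, rfl⟩ := mk_surj h'
  have h44 := r.top (top_coord ..)
  rw [top_coord] at h44
  subst h44
  have ho' := ho.mono (show 6 ≤ _ by norm_num)
  rw [pd0_mk, pd1_mk, mk_mul, mk_mul, mk_add, mk_add, mk_sub, ord6_iff] at ho'
  obtain ⟨e00, e10, e01, e20, e11, e02, e30, e21, e12, e03, e40, e31, e22, e13, e04, e41, e32, e23, e14⟩ := ho'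
  have e : 0 = b00 := by clear * - hp e00; grind
  subst e
  have e : 0 = b10 := by clear * - hp e10; grind
  subst e
  have e : 0 = b01 := by clear * - hp e01; grind
  subst e
  have e : a20 = b20 := by clear * - hp e20; grind
  subst e
  have e : a11 = b11 := by clear * - hp e11; grind
  subst e
  have e : a02 = b02 := by clear * - hp e02; grind
  subst e
  have e : a30 = b30 := by clear * - hp e30; grind
  subst e
  have e : a21 = b21 := by clear * - hp e21; grind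
  subst e
  have e : a12 = b12 := by clear * - hp e12; grind
  subst e
  have e : a03 = b03 := by clear * - hp e03; grind
  subst e
  have e : a40 = b40 := by clear * - hp e40; grind
  subst e
  have e : a31 = b31 := by clear * - hp e31; grind
  subst e
  have e : a22 = b22 := by clear * - hp e22; grind
  subst e
  have e : a13 = b13 := by clear * - hp e13; grind
  subst e
  have e : a04 = b04 := by clear * - hp e04; grind
  subst e
  have e : c41 = b41 := by clear * - hp e41 h41; grind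
  subst e
  have e : c32 = b32 := by clear * - hp e32 h32; grind
  subst e
  have e : c23 = b23 := by clear * - hp e23 h23; grind
  subst e
  have e : c14 = b14 := by clear * - hp e14 h14; grind
  subst e
  exact ⟨_, _, _, _, _, r⟩

theorem st26 (a20 a11 a02 a30 a21 a12 a03 a40 a31 a22 a13 a04 a41 a32 a23 a14 a42 a33 a24 a43 a34 : k)
    (f42 f33 f24 c42 c33 c24 : k)
    (h42 : c42 = a42 + 2*a11*f42 - a20*f33) (h33 : c33 = a33 - 2*a02*f42 + 2*a20*f24) (h24 : c24 =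
      a24 + a02*f33 - 2*a11*f24) :
    ∃ b43 b34 : k, Rel (mk 0 0 0 a20 a11 a02 a30 a21 a12 a03 a40 a31 a22 a13 a04 a41 a32 a23 a14 a42 a33 a24 a43 a34 0)
      (mk 0 0 0 a20 a11 a02 a30 a21 a12 a03 a40 a31 a22 a13 a04 a41 a32 a23 a14 c42 c33 c24 b43 b34 0) := by
  obtain ⟨h', r, ho⟩ := step 1 3 (mk 0 0 0 a20 a11 a02 a30 a21 a12 a03 a40 a31 a22 a13 a04 a41 a32 a23 a14 a42 a33 a24 a43 a34 0)
    (mk 0 0 0 0 0 0 0 0 0 0 0 0 0 0 0 (-2*f42) (2*f33) f24 0 0 0 0 0 0 0)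
    (mk 0 0 0 0 0 0 0 0 0 0 0 0 0 0 0 0 (-f42) (-2*f33) (2*f24) 0 0 0 0 0 0)
    (ord2_iff.mpr ⟨rfl, rfl, rfl⟩) (ord5_iff.mpr ⟨rfl, rfl, rfl, rfl, rfl, rfl, rfl, rfl, rfl, rfl, rfl, rfl, rfl, rfl, rfl⟩) (ord5_iff.mpr ⟨rfl, rfl, rfl, rfl, rfl, rfl, rfl, rfl, rfl, rfl, rfl, rfl, rfl, rfl, rfl⟩)
    (by rw [pd0_mk, pd1_mk, mk_add, zero_eq, mk_inj]; refine ⟨?_, ?_, ?_, ?_, ?_, ?_, ?_, ?_, ?_, ?_, ?_, ?_, ?_, ?_, ?_, ?_, ?_, ?_, ?_, ?_, ?_, ?_, ?_, ?_, ?_⟩ <;> grind)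
  obtain ⟨b00, b10, b01, b20, b11, b02, b30, b21, b12, b03, b40, b31, b22, b13, b04, b41, b32, b23, b14, b42, b33, b24, b43, b34, b44, rfl⟩ := mk_surj h'
  have h44 := r.top (top_coord ..)
  rw [top_coord] at h44
  subst h44
  have ho' := ho.mono (show 7 ≤ _ by norm_num)
  rw [pd0_mk, pd1_mk, mk_mul, mk_mul, mk_add, mk_add, mk_sub, ord7_iff] at ho'
  obtain ⟨e00, e10, e01, e20, e11, e02, e30, e21, e12, e03, e40, e31, e22, e13, e04, e41, e32, e23, e14, e42, e33, e24⟩ := ho'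
  have e : 0 = b00 := by clear * - hp e00; grind
  subst e
  have e : 0 = b10 := by clear * - hp e10; grind
  subst e
  have e : 0 = b01 := by clear * - hp e01; grind
  subst e
  have e : a20 = b20 := by clear * - hp e20; grind
  subst e
  have e : a11 = b11 := by clear * - hp e11; grind
  subst e
  have e : a02 = b02 := by clear * - hp e02; grind
  subst e
  have e : a30 = b30 := by clear * - hp e30; grind
  subst e
  have e : a21 = b21 := by clear * - hp e21; grind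
  subst e
  have e : a12 = b12 := by clear * - hp e12; grind
  subst e
  have e : a03 = b03 := by clear * - hp e03; grind
  subst e
  have e : a40 = b40 := by clear * - hp e40; grind
  subst e
  have e : a31 = b31 := by clear * - hp e31; grind
  subst e
  have e : a22 = b22 := by clear * - hp e22; grind
  subst e
  have e : a13 = b13 := by clear * - hp e13; grind
  subst e
  have e : a04 = b04 := by clear * - hp e04; grind
  subst e
  have e : a41 = b41 := by clear * - hp e41; grind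
  subst e
  have e : a32 = b32 := by clear * - hp e32; grind
  subst e
  have e : a23 = b23 := by clear * - hp e23; grind
  subst e
  have e : a14 = b14 := by clear * - hp e14; grind
  subst e
  have e : c42 = b42 := by clear * - hp e42 h42; grind
  subst e
  have e : c33 = b33 := by clear * - hp e33 h33; grind
  subst e
  have e : c24 = b24 := by clear * - hp e24 h24; grind
  subst e
  exact ⟨_, _, r⟩

theorem st27 (a20 a11 a02 a30 a21 a12 a03 a40 a31 a22 a13 a04 a41 a32 a23 a14 a42 a33 a24 a43 a34 : k)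
    (f43 f34 c43 c34 : k)
    (h43 : c43 = a43 + a11*f43 + 2*a20*f34) (h34 : c34 = a34 - 2*a02*f43 - a11*f34) :
    Rel (mk 0 0 0 a20 a11 a02 a30 a21 a12 a03 a40 a31 a22 a13 a04 a41 a32 a23 a14 a42 a33 a24 a43 a34 0)
      (mk 0 0 0 a20 a11 a02 a30 a21 a12 a03 a40 a31 a22 a13 a04 a41 a32 a23 a14 a42 a33 a24 c43 c34 0) := by
  obtain ⟨h', r, ho⟩ := step 1 4 (mk 0 0 0 a20 a11 a02 a30 a21 a12 a03 a40 a31 a22 a13 a04 a41 a32 a23 a14 a42 a33 a24 a43 a34 0)
    (mk 0 0 0 0 0 0 0 0 0 0 0 0 0 0 0 0 0 0 0 (2*f43) f34 0 0 0 0)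
    (mk 0 0 0 0 0 0 0 0 0 0 0 0 0 0 0 0 0 0 0 0 (-f43) (-2*f34) 0 0 0)
    (ord2_iff.mpr ⟨rfl, rfl, rfl⟩) (ord6_iff.mpr ⟨rfl, rfl, rfl, rfl, rfl, rfl, rfl, rfl, rfl, rfl, rfl, rfl, rfl, rfl, rfl, rfl, rfl, rfl, rfl⟩) (ord6_iff.mpr ⟨rfl, rfl, rfl, rfl, rfl, rfl, rfl, rfl, rfl, rfl, rfl, rfl, rfl, rfl, rfl, rfl, rfl, rfl, rfl⟩)
    (by rw [pd0_mk, pd1_mk, mk_add, zero_eq, mk_inj]; refine ⟨?_, ?_, ?_, ?_, ?_, ?_, ?_, ?_, ?_, ?_, ?_, ?_, ?_, ?_, ?_, ?_, ?_, ?_, ?_, ?_, ?_, ?_, ?_, ?_, ?_⟩ <;> grind)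
  obtain ⟨b00, b10, b01, b20, b11, b02, b30, b21, b12, b03, b40, b31, b22, b13, b04, b41, b32, b23, b14, b42, b33, b24, b43, b34, b44, rfl⟩ := mk_surj h'
  have h44 := r.top (top_coord ..)
  rw [top_coord] at h44
  subst h44
  have ho' := ho.mono (show 8 ≤ _ by norm_num)
  rw [pd0_mk, pd1_mk, mk_mul, mk_mul, mk_add, mk_add, mk_sub, ord8_iff] at ho'
  obtain ⟨e00, e10, e01, e20, e11, e02, e30, e21, e12, e03, e40, e31, e22, e13, e04, e41, e32, e23, e14, e42, e33, e24, e43, e34⟩ := ho'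
  have e : 0 = b00 := by clear * - hp e00; grind
  subst e
  have e : 0 = b10 := by clear * - hp e10; grind
  subst e
  have e : 0 = b01 := by clear * - hp e01; grind
  subst e
  have e : a20 = b20 := by clear * - hp e20; grind
  subst e
  have e : a11 = b11 := by clear * - hp e11; grind
  subst e
  have e : a02 = b02 := by clear * - hp e02; grind
  subst e
  have e : a30 = b30 := by clear * - hp e30; grind
  subst e
  have e : a21 = b21 := by clear * - hp e21; grind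
  subst e
  have e : a12 = b12 := by clear * - hp e12; grind
  subst e
  have e : a03 = b03 := by clear * - hp e03; grind
  subst e
  have e : a40 = b40 := by clear * - hp e40; grind
  subst e
  have e : a31 = b31 := by clear * - hp e31; grind
  subst e
  have e : a22 = b22 := by clear * - hp e22; grind
  subst e
  have e : a13 = b13 := by clear * - hp e13; grind
  subst e
  have e : a04 = b04 := by clear * - hp e04; grind
  subst e
  have e : a41 = b41 := by clear * - hp e41; grind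
  subst e
  have e : a32 = b32 := by clear * - hp e32; grind
  subst e
  have e : a23 = b23 := by clear * - hp e23; grind
  subst e
  have e : a14 = b14 := by clear * - hp e14; grind
  subst e
  have e : a42 = b42 := by clear * - hp e42; grind
  subst e
  have e : a33 = b33 := by clear * - hp e33; grind
  subst e
  have e : a24 = b24 := by clear * - hp e24; grind
  subst e
  have e : c43 = b43 := by clear * - hp e43 h43; grind
  subst e
  have e : c34 = b34 := by clear * - hp e34 h34; grind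
  subst e
  exact r

theorem st34 (a30 a21 a12 a03 a40 a31 a22 a13 a04 a41 a32 a23 a14 a42 a33 a24 a43 a34 : k)
    (f30 f21 f12 f03 c40 c31 c22 c13 c04 : k)
    (h40 : c40 = a40 - 2*a21*f30 + 2*a30*f21) (h31 : c31 = a31 + a12*f30 - a30*f12) (h22 : c22 = a22
      - a03*f30 - 2*a12*f21 + 2*a21*f12 + a30*f03) (h13 : c13 = a13 + a03*f21 - a21*f03) (h04 :
      c04 = a04 - 2*a03*f12 + 2*a12*f03) :
    ∃ b41 b32 b23 b14 b42 b33 b24 b43 b34 : k, Rel (mk 0 0 0 0 0 0 a30 a21 a12 a03 a40 a31 a22 a13 a04 a41 a32 a23 a14 a42 a33 a24 a43 a34 0)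
      (mk 0 0 0 0 0 0 a30 a21 a12 a03 c40 c31 c22 c13 c04 b41 b32 b23 b14 b42 b33 b24 b43 b34 0) := by
  obtain ⟨h', r, ho⟩ := step 2 0 (mk 0 0 0 0 0 0 a30 a21 a12 a03 a40 a31 a22 a13 a04 a41 a32 a23 a14 a42 a33 a24 a43 a34 0)
    (mk 0 0 0 (-f21) (-2*f12) (2*f03) 0 0 0 0 0 0 0 0 0 0 0 0 0 0 0 0 0 0 0)
    (mk 0 0 0 (-2*f30) (2*f21) f12 0 0 0 0 0 0 0 0 0 0 0 0 0 0 0 0 0 0 0)
    (ord3_iff.mpr ⟨rfl, rfl, rfl, rfl, rfl, rfl⟩) (ord2_iff.mpr ⟨rfl, rfl, rfl⟩) (ord2_iff.mpr ⟨rfl, rfl, rfl⟩)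
    (by rw [pd0_mk, pd1_mk, mk_add, zero_eq, mk_inj]; refine ⟨?_, ?_, ?_, ?_, ?_, ?_, ?_, ?_, ?_, ?_, ?_, ?_, ?_, ?_, ?_, ?_, ?_, ?_, ?_, ?_, ?_, ?_, ?_, ?_, ?_⟩ <;> grind)
  obtain ⟨b00, b10, b01, b20, b11, b02, b30, b21, b12, b03, b40, b31, b22, b13, b04, b41, b32, b23, b14, b42, b33, b24, b43, b34, b44, rfl⟩ := mk_surj h'
  have h44 := r.top (top_coord ..)
  rw [top_coord] at h44
  subst h44
  have ho' := ho.mono (show 5 ≤ _ by norm_num)
  rw [pd0_mk, pd1_mk, mk_mul, mk_mul, mk_add, mk_add, mk_sub, ord5_iff] at ho'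
  obtain ⟨e00, e10, e01, e20, e11, e02, e30, e21, e12, e03, e40, e31, e22, e13, e04⟩ := ho'
  have e : 0 = b00 := by clear * - hp e00; grind
  subst e
  have e : 0 = b10 := by clear * - hp e10; grind
  subst e
  have e : 0 = b01 := by clear * - hp e01; grind
  subst e
  have e : 0 = b20 := by clear * - hp e20; grind
  subst e
  have e : 0 = b11 := by clear * - hp e11; grind
  subst e
  have e : 0 = b02 := by clear * - hp e02; grind
  subst e
  have e : a30 = b30 := by clear * - hp e30; grind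
  subst e
  have e : a21 = b21 := by clear * - hp e21; grind
  subst e
  have e : a12 = b12 := by clear * - hp e12; grind
  subst e
  have e : a03 = b03 := by clear * - hp e03; grind
  subst e
  have e : c40 = b40 := by clear * - hp e40 h40; grind
  subst e
  have e : c31 = b31 := by clear * - hp e31 h31; grind
  subst e
  have e : c22 = b22 := by clear * - hp e22 h22; grind
  subst e
  have e : c13 = b13 := by clear * - hp e13 h13; grind
  subst e
  have e : c04 = b04 := by clear * - hp e04 h04; grind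
  subst e
  exact ⟨_, _, _, _, _, _, _, _, _, r⟩

theorem st35 (a30 a21 a12 a03 a40 a31 a22 a13 a04 a41 a32 a23 a14 a42 a33 a24 a43 a34 : k)
    (f40 f31 f22 f13 f04 c41 c32 c23 c14 : k)
    (h41 : c41 = a41 - 2*a12*f40 + a21*f31 - a30*f22) (h32 : c32 = a32 + 2*a03*f40 - 2*a21*f22 +
      a30*f13) (h23 : c23 = a23 - a03*f31 + 2*a12*f22 - 2*a30*f04) (h14 : c14 = a14 + a03*f22 -
      a12*f13 + 2*a21*f04) :
    ∃ b42 b33 b24 b43 b34 : k, Rel (mk 0 0 0 0 0 0 a30 a21 a12 a03 a40 a31 a22 a13 a04 a41 a32 a23 a14 a42 a33 a24 a43 a34 0)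
      (mk 0 0 0 0 0 0 a30 a21 a12 a03 a40 a31 a22 a13 a04 c41 c32 c23 c14 b42 b33 b24 b43 b34 0) := by
  obtain ⟨h', r, ho⟩ := step 2 1 (mk 0 0 0 0 0 0 a30 a21 a12 a03 a40 a31 a22 a13 a04 a41 a32 a23 a14 a42 a33 a24 a43 a34 0)
    (mk 0 0 0 0 0 0 (-f31) (-2*f22) (2*f13) f04 0 0 0 0 0 0 0 0 0 0 0 0 0 0 0)
    (mk 0 0 0 0 0 0 (-f40) (-2*f31) (2*f22) f13 0 0 0 0 0 0 0 0 0 0 0 0 0 0 0)
    (ord3_iff.mpr ⟨rfl, rfl, rfl, rfl, rfl, rfl⟩) (ord3_iff.mpr ⟨rfl, rfl, rfl, rfl, rfl, rfl⟩) (ord3_iff.mpr ⟨rfl, rfl, rfl, rfl, rfl, rfl⟩)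
    (by rw [pd0_mk, pd1_mk, mk_add, zero_eq, mk_inj]; refine ⟨?_, ?_, ?_, ?_, ?_, ?_, ?_, ?_, ?_, ?_, ?_, ?_, ?_, ?_, ?_, ?_, ?_, ?_, ?_, ?_, ?_, ?_, ?_, ?_, ?_⟩ <;> grind)
  obtain ⟨b00, b10, b01, b20, b11, b02, b30, b21, b12, b03, b40, b31, b22, b13, b04, b41, b32, b23, b14, b42, b33, b24, b43, b34, b44, rfl⟩ := mk_surj h'
  have h44 := r.top (top_coord ..)
  rw [top_coord] at h44
  subst h44
  have ho' := ho.mono (show 6 ≤ _ by norm_num)
  rw [pd0_mk, pd1_mk, mk_mul, mk_mul, mk_add, mk_add, mk_sub, ord6_iff] at ho'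
  obtain ⟨e00, e10, e01, e20, e11, e02, e30, e21, e12, e03, e40, e31, e22, e13, e04, e41, e32, e23, e14⟩ := ho'
  have e : 0 = b00 := by clear * - hp e00; grind
  subst e
  have e : 0 = b10 := by clear * - hp e10; grind
  subst e
  have e : 0 = b01 := by clear * - hp e01; grind
  subst e
  have e : 0 = b20 := by clear * - hp e20; grind
  subst e
  have e : 0 = b11 := by clear * - hp e11; grind
  subst e
  have e : 0 = b02 := by clear * - hp e02; grind
  subst e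
  have e : a30 = b30 := by clear * - hp e30; grind
  subst e
  have e : a21 = b21 := by clear * - hp e21; grind
  subst e
  have e : a12 = b12 := by clear * - hp e12; grind
  subst e
  have e : a03 = b03 := by clear * - hp e03; grind
  subst e
  have e : a40 = b40 := by clear * - hp e40; grind
  subst e
  have e : a31 = b31 := by clear * - hp e31; grind
  subst e
  have e : a22 = b22 := by clear * - hp e22; grind
  subst e
  have e : a13 = b13 := by clear * - hp e13; grind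
  subst e
  have e : a04 = b04 := by clear * - hp e04; grind
  subst e
  have e : c41 = b41 := by clear * - hp e41 h41; grind
  subst e
  have e : c32 = b32 := by clear * - hp e32 h32; grind
  subst e
  have e : c23 = b23 := by clear * - hp e23 h23; grind
  subst e
  have e : c14 = b14 := by clear * - hp e14 h14; grind
  subst e
  exact ⟨_, _, _, _, _, r⟩

theorem st36 (a30 a21 a12 a03 a40 a31 a22 a13 a04 a41 a32 a23 a14 a42 a33 a24 a43 a34 : k)
    (f41 f32 f23 f14 f05 f50 c42 c33 c24 : k)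
    (h42 : c42 = a42 - 2*a03*f50 + 2*a12*f41 - a21*f32 + a30*f23) (h33 : c33 = a33 + 2*a03*f41 -
      a12*f32 + a21*f23 - 2*a30*f14) (h24 : c24 = a24 - a03*f32 + a12*f23 - 2*a21*f14 -
      2*a30*f05) :
    ∃ b43 b34 : k, Rel (mk 0 0 0 0 0 0 a30 a21 a12 a03 a40 a31 a22 a13 a04 a41 a32 a23 a14 a42 a33 a24 a43 a34 0)
      (mk 0 0 0 0 0 0 a30 a21 a12 a03 a40 a31 a22 a13 a04 a41 a32 a23 a14 c42 c33 c24 b43 b34 0) := by
  obtain ⟨h', r, ho⟩ := step 2 2 (mk 0 0 0 0 0 0 a30 a21 a12 a03 a40 a31 a22 a13 a04 a41 a32 a23 a14 a42 a33 a24 a43 a34 0)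
    (mk 0 0 0 0 0 0 0 0 0 0 (-f41) (-2*f32) (2*f23) f14 f05 0 0 0 0 0 0 0 0 0 0)
    (mk 0 0 0 0 0 0 0 0 0 0 f50 (-f41) (-2*f32) (2*f23) f14 0 0 0 0 0 0 0 0 0 0)
    (ord3_iff.mpr ⟨rfl, rfl, rfl, rfl, rfl, rfl⟩) (ord4_iff.mpr ⟨rfl, rfl, rfl, rfl, rfl, rfl, rfl, rfl, rfl, rfl⟩) (ord4_iff.mpr ⟨rfl, rfl, rfl, rfl, rfl, rfl, rfl, rfl, rfl, rfl⟩)
    (by rw [pd0_mk, pd1_mk, mk_add, zero_eq, mk_inj]; refine ⟨?_, ?_, ?_, ?_, ?_, ?_, ?_, ?_, ?_, ?_, ?_, ?_, ?_, ?_, ?_, ?_, ?_, ?_, ?_, ?_, ?_, ?_, ?_, ?_, ?_⟩ <;> grind)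
  obtain ⟨b00, b10, b01, b20, b11, b02, b30, b21, b12, b03, b40, b31, b22, b13, b04, b41, b32, b23, b14, b42, b33, b24, b43, b34, b44, rfl⟩ := mk_surj h'
  have h44 := r.top (top_coord ..)
  rw [top_coord] at h44
  subst h44
  have ho' := ho.mono (show 7 ≤ _ by norm_num)
  rw [pd0_mk, pd1_mk, mk_mul, mk_mul, mk_add, mk_add, mk_sub, ord7_iff] at ho'
  obtain ⟨e00, e10, e01, e20, e11, e02, e30, e21, e12, e03, e40, e31, e22, e13, e04, e41, e32, e23, e14, e42, e33, e24⟩ := ho'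
  have e : 0 = b00 := by clear * - hp e00; grind
  subst e
  have e : 0 = b10 := by clear * - hp e10; grind
  subst e
  have e : 0 = b01 := by clear * - hp e01; grind
  subst e
  have e : 0 = b20 := by clear * - hp e20; grind
  subst e
  have e : 0 = b11 := by clear * - hp e11; grind
  subst e
  have e : 0 = b02 := by clear * - hp e02; grind
  subst e
  have e : a30 = b30 := by clear * - hp e30; grind
  subst e
  have e : a21 = b21 := by clear * - hp e21; grind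
  subst e
  have e : a12 = b12 := by clear * - hp e12; grind
  subst e
  have e : a03 = b03 := by clear * - hp e03; grind
  subst e
  have e : a40 = b40 := by clear * - hp e40; grind
  subst e
  have e : a31 = b31 := by clear * - hp e31; grind
  subst e
  have e : a22 = b22 := by clear * - hp e22; grind
  subst e
  have e : a13 = b13 := by clear * - hp e13; grind
  subst e
  have e : a04 = b04 := by clear * - hp e04; grind
  subst e
  have e : a41 = b41 := by clear * - hp e41; grind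
  subst e
  have e : a32 = b32 := by clear * - hp e32; grind
  subst e
  have e : a23 = b23 := by clear * - hp e23; grind
  subst e
  have e : a14 = b14 := by clear * - hp e14; grind
  subst e
  have e : c42 = b42 := by clear * - hp e42 h42; grind
  subst e
  have e : c33 = b33 := by clear * - hp e33 h33; grind
  subst e
  have e : c24 = b24 := by clear * - hp e24 h24; grind
  subst e
  exact ⟨_, _, r⟩

theorem st37 (a30 a21 a12 a03 a40 a31 a22 a13 a04 a41 a32 a23 a14 a42 a33 a24 a43 a34 : k)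
    (f42 f33 f24 c43 c34 : k)
    (h43 : c43 = a43 + a12*f42 + 2*a21*f33 - 2*a30*f24) (h34 : c34 = a34 + 2*a03*f42 - 2*a12*f33 -
      a21*f24) :
    Rel (mk 0 0 0 0 0 0 a30 a21 a12 a03 a40 a31 a22 a13 a04 a41 a32 a23 a14 a42 a33 a24 a43 a34 0)
      (mk 0 0 0 0 0 0 a30 a21 a12 a03 a40 a31 a22 a13 a04 a41 a32 a23 a14 a42 a33 a24 c43 c34 0) := by
  obtain ⟨h', r, ho⟩ := step 2 3 (mk 0 0 0 0 0 0 a30 a21 a12 a03 a40 a31 a22 a13 a04 a41 a32 a23 a14 a42 a33 a24 a43 a34 0)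
    (mk 0 0 0 0 0 0 0 0 0 0 0 0 0 0 0 (-2*f42) (2*f33) f24 0 0 0 0 0 0 0)
    (mk 0 0 0 0 0 0 0 0 0 0 0 0 0 0 0 0 (-f42) (-2*f33) (2*f24) 0 0 0 0 0 0)
    (ord3_iff.mpr ⟨rfl, rfl, rfl, rfl, rfl, rfl⟩) (ord5_iff.mpr ⟨rfl, rfl, rfl, rfl, rfl, rfl, rfl, rfl, rfl, rfl, rfl, rfl, rfl, rfl, rfl⟩) (ord5_iff.mpr ⟨rfl, rfl, rfl, rfl, rfl, rfl, rfl, rfl, rfl, rfl, rfl, rfl, rfl, rfl, rfl⟩)
    (by rw [pd0_mk, pd1_mk, mk_add, zero_eq, mk_inj]; refine ⟨?_, ?_, ?_, ?_, ?_, ?_, ?_, ?_, ?_, ?_, ?_, ?_, ?_, ?_, ?_, ?_, ?_, ?_, ?_, ?_, ?_, ?_, ?_, ?_, ?_⟩ <;> grind)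
  obtain ⟨b00, b10, b01, b20, b11, b02, b30, b21, b12, b03, b40, b31, b22, b13, b04, b41, b32, b23, b14, b42, b33, b24, b43, b34, b44, rfl⟩ := mk_surj h'
  have h44 := r.top (top_coord ..)
  rw [top_coord] at h44
  subst h44
  have ho' := ho.mono (show 8 ≤ _ by norm_num)
  rw [pd0_mk, pd1_mk, mk_mul, mk_mul, mk_add, mk_add, mk_sub, ord8_iff] at ho'
  obtain ⟨e00, e10, e01, e20, e11, e02, e30, e21, e12, e03, e40, e31, e22, e13, e04, e41, e32, e23, e14, e42, e33, e24, e43, e34⟩ := ho'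
  have e : 0 = b00 := by clear * - hp e00; grind
  subst e
  have e : 0 = b10 := by clear * - hp e10; grind
  subst e
  have e : 0 = b01 := by clear * - hp e01; grind
  subst e
  have e : 0 = b20 := by clear * - hp e20; grind
  subst e
  have e : 0 = b11 := by clear * - hp e11; grind
  subst e
  have e : 0 = b02 := by clear * - hp e02; grind
  subst e
  have e : a30 = b30 := by clear * - hp e30; grind
  subst e
  have e : a21 = b21 := by clear * - hp e21; grind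
  subst e
  have e : a12 = b12 := by clear * - hp e12; grind
  subst e
  have e : a03 = b03 := by clear * - hp e03; grind
  subst e
  have e : a40 = b40 := by clear * - hp e40; grind
  subst e
  have e : a31 = b31 := by clear * - hp e31; grind
  subst e
  have e : a22 = b22 := by clear * - hp e22; grind
  subst e
  have e : a13 = b13 := by clear * - hp e13; grind
  subst e
  have e : a04 = b04 := by clear * - hp e04; grind
  subst e
  have e : a41 = b41 := by clear * - hp e41; grind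
  subst e
  have e : a32 = b32 := by clear * - hp e32; grind
  subst e
  have e : a23 = b23 := by clear * - hp e23; grind
  subst e
  have e : a14 = b14 := by clear * - hp e14; grind
  subst e
  have e : a42 = b42 := by clear * - hp e42; grind
  subst e
  have e : a33 = b33 := by clear * - hp e33; grind
  subst e
  have e : a24 = b24 := by clear * - hp e24; grind
  subst e
  have e : c43 = b43 := by clear * - hp e43 h43; grind
  subst e
  have e : c34 = b34 := by clear * - hp e34 h34; grind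
  subst e
  exact r

theorem st45 (a40 a31 a22 a13 a04 a41 a32 a23 a14 a42 a33 a24 a43 a34 : k)
    (f30 f21 f12 f03 c41 c32 c23 c14 : k)
    (h41 : c41 = a41 + a22*f30 - a31*f21 + 2*a40*f12) (h32 : c32 = a32 - a13*f30 + 2*a22*f21 -
      2*a40*f03) (h23 : c23 = a23 + 2*a04*f30 - 2*a22*f12 + a31*f03) (h14 : c14 = a14 - 2*a04*f21
      + a13*f12 - a22*f03) :
    ∃ b42 b33 b24 b43 b34 : k, Rel (mk 0 0 0 0 0 0 0 0 0 0 a40 a31 a22 a13 a04 a41 a32 a23 a14 a42 a33 a24 a43 a34 0)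
      (mk 0 0 0 0 0 0 0 0 0 0 a40 a31 a22 a13 a04 c41 c32 c23 c14 b42 b33 b24 b43 b34 0) := by
  obtain ⟨h', r, ho⟩ := step 3 0 (mk 0 0 0 0 0 0 0 0 0 0 a40 a31 a22 a13 a04 a41 a32 a23 a14 a42 a33 a24 a43 a34 0)
    (mk 0 0 0 (-f21) (-2*f12) (2*f03) 0 0 0 0 0 0 0 0 0 0 0 0 0 0 0 0 0 0 0)
    (mk 0 0 0 (-2*f30) (2*f21) f12 0 0 0 0 0 0 0 0 0 0 0 0 0 0 0 0 0 0 0)
    (ord4_iff.mpr ⟨rfl, rfl, rfl, rfl, rfl, rfl, rfl, rfl, rfl, rfl⟩) (ord2_iff.mpr ⟨rfl, rfl, rfl⟩) (ord2_iff.mpr ⟨rfl, rfl, rfl⟩)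
    (by rw [pd0_mk, pd1_mk, mk_add, zero_eq, mk_inj]; refine ⟨?_, ?_, ?_, ?_, ?_, ?_, ?_, ?_, ?_, ?_, ?_, ?_, ?_, ?_, ?_, ?_, ?_, ?_, ?_, ?_, ?_, ?_, ?_, ?_, ?_⟩ <;> grind)
  obtain ⟨b00, b10, b01, b20, b11, b02, b30, b21, b12, b03, b40, b31, b22, b13, b04, b41, b32, b23, b14, b42, b33, b24, b43, b34, b44, rfl⟩ := mk_surj h'
  have h44 := r.top (top_coord ..)
  rw [top_coord] at h44
  subst h44
  have ho' := ho.mono (show 6 ≤ _ by norm_num)
  rw [pd0_mk, pd1_mk, mk_mul, mk_mul, mk_add, mk_add, mk_sub, ord6_iff] at ho'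
  obtain ⟨e00, e10, e01, e20, e11, e02, e30, e21, e12, e03, e40, e31, e22, e13, e04, e41, e32, e23, e14⟩ := ho'
  have e : 0 = b00 := by clear * - hp e00; grind
  subst e
  have e : 0 = b10 := by clear * - hp e10; grind
  subst e
  have e : 0 = b01 := by clear * - hp e01; grind
  subst e
  have e : 0 = b20 := by clear * - hp e20; grind
  subst e
  have e : 0 = b11 := by clear * - hp e11; grind
  subst e
  have e : 0 = b02 := by clear * - hp e02; grind
  subst e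
  have e : 0 = b30 := by clear * - hp e30; grind
  subst e
  have e : 0 = b21 := by clear * - hp e21; grind
  subst e
  have e : 0 = b12 := by clear * - hp e12; grind
  subst e
  have e : 0 = b03 := by clear * - hp e03; grind
  subst e
  have e : a40 = b40 := by clear * - hp e40; grind
  subst e
  have e : a31 = b31 := by clear * - hp e31; grind
  subst e
  have e : a22 = b22 := by clear * - hp e22; grind
  subst e
  have e : a13 = b13 := by clear * - hp e13; grind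
  subst e
  have e : a04 = b04 := by clear * - hp e04; grind
  subst e
  have e : c41 = b41 := by clear * - hp e41 h41; grind
  subst e
  have e : c32 = b32 := by clear * - hp e32 h32; grind
  subst e
  have e : c23 = b23 := by clear * - hp e23 h23; grind
  subst e
  have e : c14 = b14 := by clear * - hp e14 h14; grind
  subst e
  exact ⟨_, _, _, _, _, r⟩

theorem st46 (a40 a31 a22 a13 a04 a41 a32 a23 a14 a42 a33 a24 a43 a34 : k)
    (f40 f31 f22 f13 f04 c42 c33 c24 : k)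
    (h42 : c42 = a42 + 2*a13*f40 - a22*f31 + a31*f22 - 2*a40*f13) (h33 : c33 = a33 + a04*f40 -
      2*a13*f31 + 2*a31*f13 - a40*f04) (h24 : c24 = a24 + 2*a04*f31 - a13*f22 + a22*f13 -
      2*a31*f04) :
    ∃ b43 b34 : k, Rel (mk 0 0 0 0 0 0 0 0 0 0 a40 a31 a22 a13 a04 a41 a32 a23 a14 a42 a33 a24 a43 a34 0)
      (mk 0 0 0 0 0 0 0 0 0 0 a40 a31 a22 a13 a04 a41 a32 a23 a14 c42 c33 c24 b43 b34 0) := by
  obtain ⟨h', r, ho⟩ := step 3 1 (mk 0 0 0 0 0 0 0 0 0 0 a40 a31 a22 a13 a04 a41 a32 a23 a14 a42 a33 a24 a43 a34 0)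
    (mk 0 0 0 0 0 0 (-f31) (-2*f22) (2*f13) f04 0 0 0 0 0 0 0 0 0 0 0 0 0 0 0)
    (mk 0 0 0 0 0 0 (-f40) (-2*f31) (2*f22) f13 0 0 0 0 0 0 0 0 0 0 0 0 0 0 0)
    (ord4_iff.mpr ⟨rfl, rfl, rfl, rfl, rfl, rfl, rfl, rfl, rfl, rfl⟩) (ord3_iff.mpr ⟨rfl, rfl, rfl, rfl, rfl, rfl⟩) (ord3_iff.mpr ⟨rfl, rfl, rfl, rfl, rfl, rfl⟩)
    (by rw [pd0_mk, pd1_mk, mk_add, zero_eq, mk_inj]; refine ⟨?_, ?_, ?_, ?_, ?_, ?_, ?_, ?_, ?_, ?_, ?_, ?_, ?_, ?_, ?_, ?_, ?_, ?_, ?_, ?_, ?_, ?_, ?_, ?_, ?_⟩ <;> grind)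
  obtain ⟨b00, b10, b01, b20, b11, b02, b30, b21, b12, b03, b40, b31, b22, b13, b04, b41, b32, b23, b14, b42, b33, b24, b43, b34, b44, rfl⟩ := mk_surj h'
  have h44 := r.top (top_coord ..)
  rw [top_coord] at h44
  subst h44
  have ho' := ho.mono (show 7 ≤ _ by norm_num)
  rw [pd0_mk, pd1_mk, mk_mul, mk_mul, mk_add, mk_add, mk_sub, ord7_iff] at ho'
  obtain ⟨e00, e10, e01, e20, e11, e02, e30, e21, e12, e03, e40, e31, e22, e13, e04, e41, e32, e23, e14, e42, e33, e24⟩ := ho'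
  have e : 0 = b00 := by clear * - hp e00; grind
  subst e
  have e : 0 = b10 := by clear * - hp e10; grind
  subst e
  have e : 0 = b01 := by clear * - hp e01; grind
  subst e
  have e : 0 = b20 := by clear * - hp e20; grind
  subst e
  have e : 0 = b11 := by clear * - hp e11; grind
  subst e
  have e : 0 = b02 := by clear * - hp e02; grind
  subst e
  have e : 0 = b30 := by clear * - hp e30; grind
  subst e
  have e : 0 = b21 := by clear * - hp e21; grind
  subst e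
  have e : 0 = b12 := by clear * - hp e12; grind
  subst e
  have e : 0 = b03 := by clear * - hp e03; grind
  subst e
  have e : a40 = b40 := by clear * - hp e40; grind
  subst e
  have e : a31 = b31 := by clear * - hp e31; grind
  subst e
  have e : a22 = b22 := by clear * - hp e22; grind
  subst e
  have e : a13 = b13 := by clear * - hp e13; grind
  subst e
  have e : a04 = b04 := by clear * - hp e04; grind
  subst e
  have e : a41 = b41 := by clear * - hp e41; grind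
  subst e
  have e : a32 = b32 := by clear * - hp e32; grind
  subst e
  have e : a23 = b23 := by clear * - hp e23; grind
  subst e
  have e : a14 = b14 := by clear * - hp e14; grind
  subst e
  have e : c42 = b42 := by clear * - hp e42 h42; grind
  subst e
  have e : c33 = b33 := by clear * - hp e33 h33; grind
  subst e
  have e : c24 = b24 := by clear * - hp e24 h24; grind
  subst e
  exact ⟨_, _, r⟩

theorem st47 (a40 a31 a22 a13 a04 a41 a32 a23 a14 a42 a33 a24 a43 a34 : k)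
    (f41 f32 f23 f14 f05 f50 c43 c34 : k)
    (h43 : c43 = a43 - a04*f50 + a13*f41 + 2*a22*f32 - 2*a31*f23 - a40*f14) (h34 : c34 = a34 +
      a04*f41 + 2*a13*f32 - 2*a22*f23 - a31*f14 - a40*f05) :
    Rel (mk 0 0 0 0 0 0 0 0 0 0 a40 a31 a22 a13 a04 a41 a32 a23 a14 a42 a33 a24 a43 a34 0)
      (mk 0 0 0 0 0 0 0 0 0 0 a40 a31 a22 a13 a04 a41 a32 a23 a14 a42 a33 a24 c43 c34 0) := by
  obtain ⟨h', r, ho⟩ := step 3 2 (mk 0 0 0 0 0 0 0 0 0 0 a40 a31 a22 a13 a04 a41 a32 a23 a14 a42 a33 a24 a43 a34 0)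
    (mk 0 0 0 0 0 0 0 0 0 0 (-f41) (-2*f32) (2*f23) f14 f05 0 0 0 0 0 0 0 0 0 0)
    (mk 0 0 0 0 0 0 0 0 0 0 f50 (-f41) (-2*f32) (2*f23) f14 0 0 0 0 0 0 0 0 0 0)
    (ord4_iff.mpr ⟨rfl, rfl, rfl, rfl, rfl, rfl, rfl, rfl, rfl, rfl⟩) (ord4_iff.mpr ⟨rfl, rfl, rfl, rfl, rfl, rfl, rfl, rfl, rfl, rfl⟩) (ord4_iff.mpr ⟨rfl, rfl, rfl, rfl, rfl, rfl, rfl, rfl, rfl, rfl⟩)
    (by rw [pd0_mk, pd1_mk, mk_add, zero_eq, mk_inj]; refine ⟨?_, ?_, ?_, ?_, ?_, ?_, ?_, ?_, ?_, ?_, ?_, ?_, ?_, ?_, ?_, ?_, ?_, ?_, ?_, ?_, ?_, ?_, ?_, ?_, ?_⟩ <;> grind)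
  obtain ⟨b00, b10, b01, b20, b11, b02, b30, b21, b12, b03, b40, b31, b22, b13, b04, b41, b32, b23, b14, b42, b33, b24, b43, b34, b44, rfl⟩ := mk_surj h'
  have h44 := r.top (top_coord ..)
  rw [top_coord] at h44
  subst h44
  have ho' := ho.mono (show 8 ≤ _ by norm_num)
  rw [pd0_mk, pd1_mk, mk_mul, mk_mul, mk_add, mk_add, mk_sub, ord8_iff] at ho'
  obtain ⟨e00, e10, e01, e20, e11, e02, e30, e21, e12, e03, e40, e31, e22, e13, e04, e41, e32, e23, e14, e42, e33, e24, e43, e34⟩ := ho'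
  have e : 0 = b00 := by clear * - hp e00; grind
  subst e
  have e : 0 = b10 := by clear * - hp e10; grind
  subst e
  have e : 0 = b01 := by clear * - hp e01; grind
  subst e
  have e : 0 = b20 := by clear * - hp e20; grind
  subst e
  have e : 0 = b11 := by clear * - hp e11; grind
  subst e
  have e : 0 = b02 := by clear * - hp e02; grind
  subst e
  have e : 0 = b30 := by clear * - hp e30; grind
  subst e
  have e : 0 = b21 := by clear * - hp e21; grind
  subst e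
  have e : 0 = b12 := by clear * - hp e12; grind
  subst e
  have e : 0 = b03 := by clear * - hp e03; grind
  subst e
  have e : a40 = b40 := by clear * - hp e40; grind
  subst e
  have e : a31 = b31 := by clear * - hp e31; grind
  subst e
  have e : a22 = b22 := by clear * - hp e22; grind
  subst e
  have e : a13 = b13 := by clear * - hp e13; grind
  subst e
  have e : a04 = b04 := by clear * - hp e04; grind
  subst e
  have e : a41 = b41 := by clear * - hp e41; grind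
  subst e
  have e : a32 = b32 := by clear * - hp e32; grind
  subst e
  have e : a23 = b23 := by clear * - hp e23; grind
  subst e
  have e : a14 = b14 := by clear * - hp e14; grind
  subst e
  have e : a42 = b42 := by clear * - hp e42; grind
  subst e
  have e : a33 = b33 := by clear * - hp e33; grind
  subst e
  have e : a24 = b24 := by clear * - hp e24; grind
  subst e
  have e : c43 = b43 := by clear * - hp e43 h43; grind
  subst e
  have e : c34 = b34 := by clear * - hp e34 h34; grind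
  subst e
  exact r

theorem st56 (a41 a32 a23 a14 a42 a33 a24 a43 a34 : k)
    (f30 f21 f12 f03 c42 c33 c24 : k)
    (h42 : c42 = a42 - a23*f30 + a32*f21 - 2*a41*f12) (h33 : c33 = a33 + 2*a14*f30 - a23*f21 +
      a32*f12 - 2*a41*f03) (h24 : c24 = a24 + 2*a14*f21 - a23*f12 + a32*f03) :
    ∃ b43 b34 : k, Rel (mk 0 0 0 0 0 0 0 0 0 0 0 0 0 0 0 a41 a32 a23 a14 a42 a33 a24 a43 a34 0)
      (mk 0 0 0 0 0 0 0 0 0 0 0 0 0 0 0 a41 a32 a23 a14 c42 c33 c24 b43 b34 0) := by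
  obtain ⟨h', r, ho⟩ := step 4 0 (mk 0 0 0 0 0 0 0 0 0 0 0 0 0 0 0 a41 a32 a23 a14 a42 a33 a24 a43 a34 0)
    (mk 0 0 0 (-f21) (-2*f12) (2*f03) 0 0 0 0 0 0 0 0 0 0 0 0 0 0 0 0 0 0 0)
    (mk 0 0 0 (-2*f30) (2*f21) f12 0 0 0 0 0 0 0 0 0 0 0 0 0 0 0 0 0 0 0)
    (ord5_iff.mpr ⟨rfl, rfl, rfl, rfl, rfl, rfl, rfl, rfl, rfl, rfl, rfl, rfl, rfl, rfl, rfl⟩) (ord2_iff.mpr ⟨rfl, rfl, rfl⟩) (ord2_iff.mpr ⟨rfl, rfl, rfl⟩)
    (by rw [pd0_mk, pd1_mk, mk_add, zero_eq, mk_inj]; refine ⟨?_, ?_, ?_, ?_, ?_, ?_, ?_, ?_, ?_, ?_, ?_, ?_, ?_, ?_, ?_, ?_, ?_, ?_, ?_, ?_, ?_, ?_, ?_, ?_, ?_⟩ <;> grind)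
  obtain ⟨b00, b10, b01, b20, b11, b02, b30, b21, b12, b03, b40, b31, b22, b13, b04, b41, b32, b23, b14, b42, b33, b24, b43, b34, b44, rfl⟩ := mk_surj h'
  have h44 := r.top (top_coord ..)
  rw [top_coord] at h44
  subst h44
  have ho' := ho.mono (show 7 ≤ _ by norm_num)
  rw [pd0_mk, pd1_mk, mk_mul, mk_mul, mk_add, mk_add, mk_sub, ord7_iff] at ho'
  obtain ⟨e00, e10, e01, e20, e11, e02, e30, e21, e12, e03, e40, e31, e22, e13, e04, e41, e32, e23, e14, e42, e33, e24⟩ := ho'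
  have e : 0 = b00 := by clear * - hp e00; grind
  subst e
  have e : 0 = b10 := by clear * - hp e10; grind
  subst e
  have e : 0 = b01 := by clear * - hp e01; grind
  subst e
  have e : 0 = b20 := by clear * - hp e20; grind
  subst e
  have e : 0 = b11 := by clear * - hp e11; grind
  subst e
  have e : 0 = b02 := by clear * - hp e02; grind
  subst e
  have e : 0 = b30 := by clear * - hp e30; grind
  subst e
  have e : 0 = b21 := by clear * - hp e21; grind
  subst e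
  have e : 0 = b12 := by clear * - hp e12; grind
  subst e
  have e : 0 = b03 := by clear * - hp e03; grind
  subst e
  have e : 0 = b40 := by clear * - hp e40; grind
  subst e
  have e : 0 = b31 := by clear * - hp e31; grind
  subst e
  have e : 0 = b22 := by clear * - hp e22; grind
  subst e
  have e : 0 = b13 := by clear * - hp e13; grind
  subst e
  have e : 0 = b04 := by clear * - hp e04; grind
  subst e
  have e : a41 = b41 := by clear * - hp e41; grind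
  subst e
  have e : a32 = b32 := by clear * - hp e32; grind
  subst e
  have e : a23 = b23 := by clear * - hp e23; grind
  subst e
  have e : a14 = b14 := by clear * - hp e14; grind
  subst e
  have e : c42 = b42 := by clear * - hp e42 h42; grind
  subst e
  have e : c33 = b33 := by clear * - hp e33 h33; grind
  subst e
  have e : c24 = b24 := by clear * - hp e24 h24; grind
  subst e
  exact ⟨_, _, r⟩

theorem st57 (a41 a32 a23 a14 a42 a33 a24 a43 a34 : k)
    (f40 f31 f22 f13 f04 c43 c34 : k)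
    (h43 : c43 = a43 + a14*f40 + 2*a23*f31 - 2*a32*f22 - a41*f13) (h34 : c34 = a34 + a14*f31 +
      2*a23*f22 - 2*a32*f13 - a41*f04) :
    Rel (mk 0 0 0 0 0 0 0 0 0 0 0 0 0 0 0 a41 a32 a23 a14 a42 a33 a24 a43 a34 0)
      (mk 0 0 0 0 0 0 0 0 0 0 0 0 0 0 0 a41 a32 a23 a14 a42 a33 a24 c43 c34 0) := by
  obtain ⟨h', r, ho⟩ := step 4 1 (mk 0 0 0 0 0 0 0 0 0 0 0 0 0 0 0 a41 a32 a23 a14 a42 a33 a24 a43 a34 0)
    (mk 0 0 0 0 0 0 (-f31) (-2*f22) (2*f13) f04 0 0 0 0 0 0 0 0 0 0 0 0 0 0 0)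
    (mk 0 0 0 0 0 0 (-f40) (-2*f31) (2*f22) f13 0 0 0 0 0 0 0 0 0 0 0 0 0 0 0)
    (ord5_iff.mpr ⟨rfl, rfl, rfl, rfl, rfl, rfl, rfl, rfl, rfl, rfl, rfl, rfl, rfl, rfl, rfl⟩) (ord3_iff.mpr ⟨rfl, rfl, rfl, rfl, rfl, rfl⟩) (ord3_iff.mpr ⟨rfl, rfl, rfl, rfl, rfl, rfl⟩)
    (by rw [pd0_mk, pd1_mk, mk_add, zero_eq, mk_inj]; refine ⟨?_, ?_, ?_, ?_, ?_, ?_, ?_, ?_, ?_, ?_, ?_, ?_, ?_, ?_, ?_, ?_, ?_, ?_, ?_, ?_, ?_, ?_, ?_, ?_, ?_⟩ <;> grind)
  obtain ⟨b00, b10, b01, b20, b11, b02, b30, b21, b12, b03, b40, b31, b22, b13, b04, b41, b32, b23, b14, b42, b33, b24, b43, b34, b44, rfl⟩ := mk_surj h'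
  have h44 := r.top (top_coord ..)
  rw [top_coord] at h44
  subst h44
  have ho' := ho.mono (show 8 ≤ _ by norm_num)
  rw [pd0_mk, pd1_mk, mk_mul, mk_mul, mk_add, mk_add, mk_sub, ord8_iff] at ho'
  obtain ⟨e00, e10, e01, e20, e11, e02, e30, e21, e12, e03, e40, e31, e22, e13, e04, e41, e32, e23, e14, e42, e33, e24, e43, e34⟩ := ho'
  have e : 0 = b00 := by clear * - hp e00; grind
  subst e
  have e : 0 = b10 := by clear * - hp e10; grind
  subst e
  have e : 0 = b01 := by clear * - hp e01; grind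
  subst e
  have e : 0 = b20 := by clear * - hp e20; grind
  subst e
  have e : 0 = b11 := by clear * - hp e11; grind
  subst e
  have e : 0 = b02 := by clear * - hp e02; grind
  subst e
  have e : 0 = b30 := by clear * - hp e30; grind
  subst e
  have e : 0 = b21 := by clear * - hp e21; grind
  subst e
  have e : 0 = b12 := by clear * - hp e12; grind
  subst e
  have e : 0 = b03 := by clear * - hp e03; grind
  subst e
  have e : 0 = b40 := by clear * - hp e40; grind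
  subst e
  have e : 0 = b31 := by clear * - hp e31; grind
  subst e
  have e : 0 = b22 := by clear * - hp e22; grind
  subst e
  have e : 0 = b13 := by clear * - hp e13; grind
  subst e
  have e : 0 = b04 := by clear * - hp e04; grind
  subst e
  have e : a41 = b41 := by clear * - hp e41; grind
  subst e
  have e : a32 = b32 := by clear * - hp e32; grind
  subst e
  have e : a23 = b23 := by clear * - hp e23; grind
  subst e
  have e : a14 = b14 := by clear * - hp e14; grind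
  subst e
  have e : a42 = b42 := by clear * - hp e42; grind
  subst e
  have e : a33 = b33 := by clear * - hp e33; grind
  subst e
  have e : a24 = b24 := by clear * - hp e24; grind
  subst e
  have e : c43 = b43 := by clear * - hp e43 h43; grind
  subst e
  have e : c34 = b34 := by clear * - hp e34 h34; grind
  subst e
  exact r

theorem st67 (a42 a33 a24 a43 a34 : k)
    (f30 f21 f12 f03 c43 c34 : k)
    (h43 : c43 = a43 + 2*a24*f30 - 2*a33*f21 - a42*f12) (h34 : c34 = a34 + a24*f21 + 2*a33*f12 -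
      2*a42*f03) :
    Rel (mk 0 0 0 0 0 0 0 0 0 0 0 0 0 0 0 0 0 0 0 a42 a33 a24 a43 a34 0)
      (mk 0 0 0 0 0 0 0 0 0 0 0 0 0 0 0 0 0 0 0 a42 a33 a24 c43 c34 0) := by
  obtain ⟨h', r, ho⟩ := step 5 0 (mk 0 0 0 0 0 0 0 0 0 0 0 0 0 0 0 0 0 0 0 a42 a33 a24 a43 a34 0)
    (mk 0 0 0 (-f21) (-2*f12) (2*f03) 0 0 0 0 0 0 0 0 0 0 0 0 0 0 0 0 0 0 0)
    (mk 0 0 0 (-2*f30) (2*f21) f12 0 0 0 0 0 0 0 0 0 0 0 0 0 0 0 0 0 0 0)
    (ord6_iff.mpr ⟨rfl, rfl, rfl, rfl, rfl, rfl, rfl, rfl, rfl, rfl, rfl, rfl, rfl, rfl, rfl, rfl, rfl, rfl, rfl⟩) (ord2_iff.mpr ⟨rfl, rfl, rfl⟩) (ord2_iff.mpr ⟨rfl, rfl, rfl⟩)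
    (by rw [pd0_mk, pd1_mk, mk_add, zero_eq, mk_inj]; refine ⟨?_, ?_, ?_, ?_, ?_, ?_, ?_, ?_, ?_, ?_, ?_, ?_, ?_, ?_, ?_, ?_, ?_, ?_, ?_, ?_, ?_, ?_, ?_, ?_, ?_⟩ <;> grind)
  obtain ⟨b00, b10, b01, b20, b11, b02, b30, b21, b12, b03, b40, b31, b22, b13, b04, b41, b32, b23, b14, b42, b33, b24, b43, b34, b44, rfl⟩ := mk_surj h'
  have h44 := r.top (top_coord ..)
  rw [top_coord] at h44
  subst h44
  have ho' := ho.mono (show 8 ≤ _ by norm_num)
  rw [pd0_mk, pd1_mk, mk_mul, mk_mul, mk_add, mk_add, mk_sub, ord8_iff] at ho'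
  obtain ⟨e00, e10, e01, e20, e11, e02, e30, e21, e12, e03, e40, e31, e22, e13, e04, e41, e32, e23, e14, e42, e33, e24, e43, e34⟩ := ho'
  have e : 0 = b00 := by clear * - hp e00; grind
  subst e
  have e : 0 = b10 := by clear * - hp e10; grind
  subst e
  have e : 0 = b01 := by clear * - hp e01; grind
  subst e
  have e : 0 = b20 := by clear * - hp e20; grind
  subst e
  have e : 0 = b11 := by clear * - hp e11; grind
  subst e
  have e : 0 = b02 := by clear * - hp e02; grind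
  subst e
  have e : 0 = b30 := by clear * - hp e30; grind
  subst e
  have e : 0 = b21 := by clear * - hp e21; grind
  subst e
  have e : 0 = b12 := by clear * - hp e12; grind
  subst e
  have e : 0 = b03 := by clear * - hp e03; grind
  subst e
  have e : 0 = b40 := by clear * - hp e40; grind
  subst e
  have e : 0 = b31 := by clear * - hp e31; grind
  subst e
  have e : 0 = b22 := by clear * - hp e22; grind
  subst e
  have e : 0 = b13 := by clear * - hp e13; grind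
  subst e
  have e : 0 = b04 := by clear * - hp e04; grind
  subst e
  have e : 0 = b41 := by clear * - hp e41; grind
  subst e
  have e : 0 = b32 := by clear * - hp e32; grind
  subst e
  have e : 0 = b23 := by clear * - hp e23; grind
  subst e
  have e : 0 = b14 := by clear * - hp e14; grind
  subst e
  have e : a42 = b42 := by clear * - hp e42; grind
  subst e
  have e : a33 = b33 := by clear * - hp e33; grind
  subst e
  have e : a24 = b24 := by clear * - hp e24; grind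
  subst e
  have e : c43 = b43 := by clear * - hp e43 h43; grind
  subst e
  have e : c34 = b34 := by clear * - hp e34 h34; grind
  subst e
  exact r

end Pool.Agent.H25
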