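import Pool.Agent.P.MP_c9b50d_al.H.Rel

/-!
Coordinates of the monomials in two elements of the maximal ideal.
-/

namespace Pool.Agent.H25

variable {k : Type*} [Field k]
variable (u10 u01 u20 u11 u02 u30 u21 u12 u03 u40 u31 u22 u13 u04 u41 u32 u23 u14 u42 u33 u24 u43 u34 u44 : k)
  (v10 v01 v20 v11 v02 v30 v21 v12 v03 v40 v31 v22 v13 v04 v41 v32 v23 v14 v42 v33 v24 v43 v34 v44 : k)

theorem pw10 : ∃ t : k, (mk 0 u10 u01 u20 u11 u02 u30 u21 u12 u03 u40 u31 u22 u13 u04 u41 u32 u23 u14 u42 u33 u24 u43 u34 u44) ^ 1 *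
    (mk 0 v10 v01 v20 v11 v02 v30 v21 v12 v03 v40 v31 v22 v13 v04 v41 v32 v23 v14 v42 v33 v24 v43 v34 v44) ^ 0 =
    mk 0 u10 u01 u20 u11 u02 u30 u21 u12 u03 u40 u31 u22 u13 u04 u41 u32 u23 u14 u42 u33 u24 u43 u34
      t := by
  exact ⟨_, by rw [pow_zero, pow_one, mul_one]⟩

theorem pw01 : ∃ t : k, (mk 0 u10 u01 u20 u11 u02 u30 u21 u12 u03 u40 u31 u22 u13 u04 u41 u32 u23 u14 u42 u33 u24 u43 u34 u44) ^ 0 *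
    (mk 0 v10 v01 v20 v11 v02 v30 v21 v12 v03 v40 v31 v22 v13 v04 v41 v32 v23 v14 v42 v33 v24 v43 v34 v44) ^ 1 =
    mk 0 v10 v01 v20 v11 v02 v30 v21 v12 v03 v40 v31 v22 v13 v04 v41 v32 v23 v14 v42 v33 v24 v43 v34
      t := by
  exact ⟨_, by rw [pow_zero, pow_one, one_mul]⟩

theorem pw20 : ∃ t : k, (mk 0 u10 u01 u20 u11 u02 u30 u21 u12 u03 u40 u31 u22 u13 u04 u41 u32 u23 u14 u42 u33 u24 u43 u34 u44) ^ 2 *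
    (mk 0 v10 v01 v20 v11 v02 v30 v21 v12 v03 v40 v31 v22 v13 v04 v41 v32 v23 v14 v42 v33 v24 v43 v34 v44) ^ 0 =
    mk 0 0 0 (u10*u10) (2*u01*u10) (u01*u01) (2*u10*u20) (2*u01*u20 + 2*u10*u11) (2*u01*u11 +
      2*u02*u10) (2*u01*u02) (2*u10*u30 + u20*u20) (2*u01*u30 + 2*u10*u21 + 2*u11*u20) (2*u01*u21
      + 2*u02*u20 + 2*u10*u12 + u11*u11) (2*u01*u12 + 2*u02*u11 + 2*u03*u10) (2*u01*u03 +
      u02*u02) (2*u01*u40 + 2*u10*u31 + 2*u11*u30 + 2*u20*u21) (2*u01*u31 + 2*u02*u30 + 2*u10*u22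
      + 2*u11*u21 + 2*u12*u20) (2*u01*u22 + 2*u02*u21 + 2*u03*u20 + 2*u10*u13 + 2*u11*u12)
      (2*u01*u13 + 2*u02*u12 + 2*u03*u11 + 2*u04*u10) (2*u01*u41 + 2*u02*u40 + 2*u10*u32 +
      2*u11*u31 + 2*u12*u30 + 2*u20*u22 + u21*u21) (2*u01*u32 + 2*u02*u31 + 2*u03*u30 + 2*u10*u23
      + 2*u11*u22 + 2*u12*u21 + 2*u13*u20) (2*u01*u23 + 2*u02*u22 + 2*u03*u21 + 2*u04*u20 +
      2*u10*u14 + 2*u11*u13 + u12*u12) (2*u01*u42 + 2*u02*u41 + 2*u03*u40 + 2*u10*u33 + 2*u11*u32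
      + 2*u12*u31 + 2*u13*u30 + 2*u20*u23 + 2*u21*u22) (2*u01*u33 + 2*u02*u32 + 2*u03*u31 +
      2*u04*u30 + 2*u10*u24 + 2*u11*u23 + 2*u12*u22 + 2*u13*u21 + 2*u14*u20) t := by
  obtain ⟨t, ht⟩ := pw10 u10 u01 u20 u11 u02 u30 u21 u12 u03 u40 u31 u22 u13 u04 u41 u32 u23 u14 u42 u33 u24 u43 u34 u44
    v10 v01 v20 v11 v02 v30 v21 v12 v03 v40 v31 v22 v13 v04 v41 v32 v23 v14 v42 v33 v24 v43 v34 v44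
  have e : ∀ X Y : O k, X ^ 2 * Y ^ 0 = X ^ 1 * Y ^ 0 * X := fun X Y => by ring
  rw [e, ht, mk_mul]
  refine ⟨_, mk_inj.mpr ⟨?_, ?_, ?_, ?_, ?_, ?_, ?_, ?_, ?_, ?_, ?_, ?_, ?_, ?_, ?_, ?_, ?_, ?_, ?_, ?_, ?_, ?_, ?_, ?_, rfl⟩⟩ <;> ring

theorem pw11 : ∃ t : k, (mk 0 u10 u01 u20 u11 u02 u30 u21 u12 u03 u40 u31 u22 u13 u04 u41 u32 u23 u14 u42 u33 u24 u43 u34 u44) ^ 1 *
    (mk 0 v10 v01 v20 v11 v02 v30 v21 v12 v03 v40 v31 v22 v13 v04 v41 v32 v23 v14 v42 v33 v24 v43 v34 v44) ^ 1 =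
    mk 0 0 0 (u10*v10) (u01*v10 + u10*v01) (u01*v01) (u10*v20 + u20*v10) (u01*v20 + u10*v11 + u11*v10
      + u20*v01) (u01*v11 + u02*v10 + u10*v02 + u11*v01) (u01*v02 + u02*v01) (u10*v30 + u20*v20 +
      u30*v10) (u01*v30 + u10*v21 + u11*v20 + u20*v11 + u21*v10 + u30*v01) (u01*v21 + u02*v20 +
      u10*v12 + u11*v11 + u12*v10 + u20*v02 + u21*v01) (u01*v12 + u02*v11 + u03*v10 + u10*v03 +
      u11*v02 + u12*v01) (u01*v03 + u02*v02 + u03*v01) (u01*v40 + u10*v31 + u11*v30 + u20*v21 +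
      u21*v20 + u30*v11 + u31*v10 + u40*v01) (u01*v31 + u02*v30 + u10*v22 + u11*v21 + u12*v20 +
      u20*v12 + u21*v11 + u22*v10 + u30*v02 + u31*v01) (u01*v22 + u02*v21 + u03*v20 + u10*v13 +
      u11*v12 + u12*v11 + u13*v10 + u20*v03 + u21*v02 + u22*v01) (u01*v13 + u02*v12 + u03*v11 +
      u04*v10 + u10*v04 + u11*v03 + u12*v02 + u13*v01) (u01*v41 + u02*v40 + u10*v32 + u11*v31 +
      u12*v30 + u20*v22 + u21*v21 + u22*v20 + u30*v12 + u31*v11 + u32*v10 + u40*v02 + u41*v01)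
      (u01*v32 + u02*v31 + u03*v30 + u10*v23 + u11*v22 + u12*v21 + u13*v20 + u20*v13 + u21*v12 +
      u22*v11 + u23*v10 + u30*v03 + u31*v02 + u32*v01) (u01*v23 + u02*v22 + u03*v21 + u04*v20 +
      u10*v14 + u11*v13 + u12*v12 + u13*v11 + u14*v10 + u20*v04 + u21*v03 + u22*v02 + u23*v01)
      (u01*v42 + u02*v41 + u03*v40 + u10*v33 + u11*v32 + u12*v31 + u13*v30 + u20*v23 + u21*v22 +
      u22*v21 + u23*v20 + u30*v13 + u31*v12 + u32*v11 + u33*v10 + u40*v03 + u41*v02 + u42*v01)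
      (u01*v33 + u02*v32 + u03*v31 + u04*v30 + u10*v24 + u11*v23 + u12*v22 + u13*v21 + u14*v20 +
      u20*v14 + u21*v13 + u22*v12 + u23*v11 + u24*v10 + u30*v04 + u31*v03 + u32*v02 + u33*v01) t := by
  obtain ⟨t, ht⟩ := pw01 u10 u01 u20 u11 u02 u30 u21 u12 u03 u40 u31 u22 u13 u04 u41 u32 u23 u14 u42 u33 u24 u43 u34 u44
    v10 v01 v20 v11 v02 v30 v21 v12 v03 v40 v31 v22 v13 v04 v41 v32 v23 v14 v42 v33 v24 v43 v34 v44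
  have e : ∀ X Y : O k, X ^ 1 * Y ^ 1 = X ^ 0 * Y ^ 1 * X := fun X Y => by ring
  rw [e, ht, mk_mul]
  refine ⟨_, mk_inj.mpr ⟨?_, ?_, ?_, ?_, ?_, ?_, ?_, ?_, ?_, ?_, ?_, ?_, ?_, ?_, ?_, ?_, ?_, ?_, ?_, ?_, ?_, ?_, ?_, ?_, rfl⟩⟩ <;> ring

theorem pw02 : ∃ t : k, (mk 0 u10 u01 u20 u11 u02 u30 u21 u12 u03 u40 u31 u22 u13 u04 u41 u32 u23 u14 u42 u33 u24 u43 u34 u44) ^ 0 *
    (mk 0 v10 v01 v20 v11 v02 v30 v21 v12 v03 v40 v31 v22 v13 v04 v41 v32 v23 v14 v42 v33 v24 v43 v34 v44) ^ 2 =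
    mk 0 0 0 (v10*v10) (2*v01*v10) (v01*v01) (2*v10*v20) (2*v01*v20 + 2*v10*v11) (2*v01*v11 +
      2*v02*v10) (2*v01*v02) (2*v10*v30 + v20*v20) (2*v01*v30 + 2*v10*v21 + 2*v11*v20) (2*v01*v21
      + 2*v02*v20 + 2*v10*v12 + v11*v11) (2*v01*v12 + 2*v02*v11 + 2*v03*v10) (2*v01*v03 +
      v02*v02) (2*v01*v40 + 2*v10*v31 + 2*v11*v30 + 2*v20*v21) (2*v01*v31 + 2*v02*v30 + 2*v10*v22
      + 2*v11*v21 + 2*v12*v20) (2*v01*v22 + 2*v02*v21 + 2*v03*v20 + 2*v10*v13 + 2*v11*v12)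
      (2*v01*v13 + 2*v02*v12 + 2*v03*v11 + 2*v04*v10) (2*v01*v41 + 2*v02*v40 + 2*v10*v32 +
      2*v11*v31 + 2*v12*v30 + 2*v20*v22 + v21*v21) (2*v01*v32 + 2*v02*v31 + 2*v03*v30 + 2*v10*v23
      + 2*v11*v22 + 2*v12*v21 + 2*v13*v20) (2*v01*v23 + 2*v02*v22 + 2*v03*v21 + 2*v04*v20 +
      2*v10*v14 + 2*v11*v13 + v12*v12) (2*v01*v42 + 2*v02*v41 + 2*v03*v40 + 2*v10*v33 + 2*v11*v32
      + 2*v12*v31 + 2*v13*v30 + 2*v20*v23 + 2*v21*v22) (2*v01*v33 + 2*v02*v32 + 2*v03*v31 +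
      2*v04*v30 + 2*v10*v24 + 2*v11*v23 + 2*v12*v22 + 2*v13*v21 + 2*v14*v20) t := by
  obtain ⟨t, ht⟩ := pw01 u10 u01 u20 u11 u02 u30 u21 u12 u03 u40 u31 u22 u13 u04 u41 u32 u23 u14 u42 u33 u24 u43 u34 u44
    v10 v01 v20 v11 v02 v30 v21 v12 v03 v40 v31 v22 v13 v04 v41 v32 v23 v14 v42 v33 v24 v43 v34 v44
  have e : ∀ X Y : O k, X ^ 0 * Y ^ 2 = X ^ 0 * Y ^ 1 * Y := fun X Y => by ring
  rw [e, ht, mk_mul]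
  refine ⟨_, mk_inj.mpr ⟨?_, ?_, ?_, ?_, ?_, ?_, ?_, ?_, ?_, ?_, ?_, ?_, ?_, ?_, ?_, ?_, ?_, ?_, ?_, ?_, ?_, ?_, ?_, ?_, rfl⟩⟩ <;> ring

theorem pw30 : ∃ t : k, (mk 0 u10 u01 u20 u11 u02 u30 u21 u12 u03 u40 u31 u22 u13 u04 u41 u32 u23 u14 u42 u33 u24 u43 u34 u44) ^ 3 *
    (mk 0 v10 v01 v20 v11 v02 v30 v21 v12 v03 v40 v31 v22 v13 v04 v41 v32 v23 v14 v42 v33 v24 v43 v34 v44) ^ 0 =
    mk 0 0 0 0 0 0 (u10*u10*u10) (3*u01*u10*u10) (3*u01*u01*u10) (u01*u01*u01) (3*u10*u10*u20)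
      (6*u01*u10*u20 + 3*u10*u10*u11) (6*u01*u10*u11 + 3*u01*u01*u20 + 3*u02*u10*u10)
      (6*u01*u02*u10 + 3*u01*u01*u11) (3*u01*u01*u02) (6*u01*u10*u30 + 3*u01*u20*u20 +
      6*u10*u11*u20 + 3*u10*u10*u21) (6*u01*u10*u21 + 6*u01*u11*u20 + 3*u01*u01*u30 +
      6*u02*u10*u20 + 3*u10*u11*u11 + 3*u10*u10*u12) (6*u01*u02*u20 + 6*u01*u10*u12 +
      3*u01*u11*u11 + 3*u01*u01*u21 + 6*u02*u10*u11 + 3*u03*u10*u10) (6*u01*u02*u11 +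
      6*u01*u03*u10 + 3*u01*u01*u12 + 3*u02*u02*u10) (6*u01*u10*u31 + 6*u01*u11*u30 +
      6*u01*u20*u21 + 3*u01*u01*u40 + 6*u02*u10*u30 + 3*u02*u20*u20 + 6*u10*u11*u21 +
      6*u10*u12*u20 + 3*u10*u10*u22 + 3*u11*u11*u20) (6*u01*u02*u30 + 6*u01*u10*u22 +
      6*u01*u11*u21 + 6*u01*u12*u20 + 3*u01*u01*u31 + 6*u02*u10*u21 + 6*u02*u11*u20 +
      6*u03*u10*u20 + 6*u10*u11*u12 + 3*u10*u10*u13 + u11*u11*u11) (6*u01*u02*u21 + 6*u01*u03*u20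
      + 6*u01*u10*u13 + 6*u01*u11*u12 + 3*u01*u01*u22 + 6*u02*u10*u12 + 3*u02*u11*u11 +
      3*u02*u02*u20 + 6*u03*u10*u11 + 3*u04*u10*u10) (6*u01*u02*u40 + 6*u01*u10*u32 +
      6*u01*u11*u31 + 6*u01*u12*u30 + 6*u01*u20*u22 + 3*u01*u21*u21 + 3*u01*u01*u41 +
      6*u02*u10*u31 + 6*u02*u11*u30 + 6*u02*u20*u21 + 6*u03*u10*u30 + 3*u03*u20*u20 +
      6*u10*u11*u22 + 6*u10*u12*u21 + 6*u10*u13*u20 + 3*u10*u10*u23 + 6*u11*u12*u20 +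
      3*u11*u11*u21) (6*u01*u02*u31 + 6*u01*u03*u30 + 6*u01*u10*u23 + 6*u01*u11*u22 +
      6*u01*u12*u21 + 6*u01*u13*u20 + 3*u01*u01*u32 + 6*u02*u10*u22 + 6*u02*u11*u21 +
      6*u02*u12*u20 + 3*u02*u02*u30 + 6*u03*u10*u21 + 6*u03*u11*u20 + 6*u04*u10*u20 +
      6*u10*u11*u13 + 3*u10*u12*u12 + 3*u10*u10*u14 + 3*u11*u11*u12) t := by
  obtain ⟨t, ht⟩ := pw20 u10 u01 u20 u11 u02 u30 u21 u12 u03 u40 u31 u22 u13 u04 u41 u32 u23 u14 u42 u33 u24 u43 u34 u44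
    v10 v01 v20 v11 v02 v30 v21 v12 v03 v40 v31 v22 v13 v04 v41 v32 v23 v14 v42 v33 v24 v43 v34 v44
  have e : ∀ X Y : O k, X ^ 3 * Y ^ 0 = X ^ 2 * Y ^ 0 * X := fun X Y => by ring
  rw [e, ht, mk_mul]
  refine ⟨_, mk_inj.mpr ⟨?_, ?_, ?_, ?_, ?_, ?_, ?_, ?_, ?_, ?_, ?_, ?_, ?_, ?_, ?_, ?_, ?_, ?_, ?_, ?_, ?_, ?_, ?_, ?_, rfl⟩⟩ <;> ring

theorem pw21 : ∃ t : k, (mk 0 u10 u01 u20 u11 u02 u30 u21 u12 u03 u40 u31 u22 u13 u04 u41 u32 u23 u14 u42 u33 u24 u43 u34 u44) ^ 2 *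
    (mk 0 v10 v01 v20 v11 v02 v30 v21 v12 v03 v40 v31 v22 v13 v04 v41 v32 v23 v14 v42 v33 v24 v43 v34 v44) ^ 1 =
    mk 0 0 0 0 0 0 (u10*u10*v10) (2*u01*u10*v10 + u10*u10*v01) (2*u01*u10*v01 + u01*u01*v10)
      (u01*u01*v01) (2*u10*u20*v10 + u10*u10*v20) (2*u01*u10*v20 + 2*u01*u20*v10 + 2*u10*u11*v10
      + 2*u10*u20*v01 + u10*u10*v11) (2*u01*u10*v11 + 2*u01*u11*v10 + 2*u01*u20*v01 + u01*u01*v20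
      + 2*u02*u10*v10 + 2*u10*u11*v01 + u10*u10*v02) (2*u01*u02*v10 + 2*u01*u10*v02 +
      2*u01*u11*v01 + u01*u01*v11 + 2*u02*u10*v01) (2*u01*u02*v01 + u01*u01*v02) (2*u01*u10*v30 +
      2*u01*u20*v20 + 2*u01*u30*v10 + 2*u10*u11*v20 + 2*u10*u20*v11 + 2*u10*u21*v10 +
      2*u10*u30*v01 + u10*u10*v21 + 2*u11*u20*v10 + u20*u20*v01) (2*u01*u10*v21 + 2*u01*u11*v20 +
      2*u01*u20*v11 + 2*u01*u21*v10 + 2*u01*u30*v01 + u01*u01*v30 + 2*u02*u10*v20 + 2*u02*u20*v10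
      + 2*u10*u11*v11 + 2*u10*u12*v10 + 2*u10*u20*v02 + 2*u10*u21*v01 + u10*u10*v12 +
      2*u11*u20*v01 + u11*u11*v10) (2*u01*u02*v20 + 2*u01*u10*v12 + 2*u01*u11*v11 + 2*u01*u12*v10
      + 2*u01*u20*v02 + 2*u01*u21*v01 + u01*u01*v21 + 2*u02*u10*v11 + 2*u02*u11*v10 +
      2*u02*u20*v01 + 2*u03*u10*v10 + 2*u10*u11*v02 + 2*u10*u12*v01 + u10*u10*v03 + u11*u11*v01)
      (2*u01*u02*v11 + 2*u01*u03*v10 + 2*u01*u10*v03 + 2*u01*u11*v02 + 2*u01*u12*v01 +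
      u01*u01*v12 + 2*u02*u10*v02 + 2*u02*u11*v01 + u02*u02*v10 + 2*u03*u10*v01) (2*u01*u10*v31 +
      2*u01*u11*v30 + 2*u01*u20*v21 + 2*u01*u21*v20 + 2*u01*u30*v11 + 2*u01*u31*v10 +
      2*u01*u40*v01 + u01*u01*v40 + 2*u02*u10*v30 + 2*u02*u20*v20 + 2*u02*u30*v10 + 2*u10*u11*v21
      + 2*u10*u12*v20 + 2*u10*u20*v12 + 2*u10*u21*v11 + 2*u10*u22*v10 + 2*u10*u30*v02 +
      2*u10*u31*v01 + u10*u10*v22 + 2*u11*u20*v11 + 2*u11*u21*v10 + 2*u11*u30*v01 + u11*u11*v20 +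
      2*u12*u20*v10 + 2*u20*u21*v01 + u20*u20*v02) (2*u01*u02*v30 + 2*u01*u10*v22 + 2*u01*u11*v21
      + 2*u01*u12*v20 + 2*u01*u20*v12 + 2*u01*u21*v11 + 2*u01*u22*v10 + 2*u01*u30*v02 +
      2*u01*u31*v01 + u01*u01*v31 + 2*u02*u10*v21 + 2*u02*u11*v20 + 2*u02*u20*v11 + 2*u02*u21*v10
      + 2*u02*u30*v01 + 2*u03*u10*v20 + 2*u03*u20*v10 + 2*u10*u11*v12 + 2*u10*u12*v11 +
      2*u10*u13*v10 + 2*u10*u20*v03 + 2*u10*u21*v02 + 2*u10*u22*v01 + u10*u10*v13 + 2*u11*u12*v10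
      + 2*u11*u20*v02 + 2*u11*u21*v01 + u11*u11*v11 + 2*u12*u20*v01) (2*u01*u02*v21 +
      2*u01*u03*v20 + 2*u01*u10*v13 + 2*u01*u11*v12 + 2*u01*u12*v11 + 2*u01*u13*v10 +
      2*u01*u20*v03 + 2*u01*u21*v02 + 2*u01*u22*v01 + u01*u01*v22 + 2*u02*u10*v12 + 2*u02*u11*v11
      + 2*u02*u12*v10 + 2*u02*u20*v02 + 2*u02*u21*v01 + u02*u02*v20 + 2*u03*u10*v11 +
      2*u03*u11*v10 + 2*u03*u20*v01 + 2*u04*u10*v10 + 2*u10*u11*v03 + 2*u10*u12*v02 +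
      2*u10*u13*v01 + u10*u10*v04 + 2*u11*u12*v01 + u11*u11*v02) (2*u01*u02*v40 + 2*u01*u10*v32 +
      2*u01*u11*v31 + 2*u01*u12*v30 + 2*u01*u20*v22 + 2*u01*u21*v21 + 2*u01*u22*v20 +
      2*u01*u30*v12 + 2*u01*u31*v11 + 2*u01*u32*v10 + 2*u01*u40*v02 + 2*u01*u41*v01 + u01*u01*v41
      + 2*u02*u10*v31 + 2*u02*u11*v30 + 2*u02*u20*v21 + 2*u02*u21*v20 + 2*u02*u30*v11 +
      2*u02*u31*v10 + 2*u02*u40*v01 + 2*u03*u10*v30 + 2*u03*u20*v20 + 2*u03*u30*v10 +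
      2*u10*u11*v22 + 2*u10*u12*v21 + 2*u10*u13*v20 + 2*u10*u20*v13 + 2*u10*u21*v12 +
      2*u10*u22*v11 + 2*u10*u23*v10 + 2*u10*u30*v03 + 2*u10*u31*v02 + 2*u10*u32*v01 + u10*u10*v23
      + 2*u11*u12*v20 + 2*u11*u20*v12 + 2*u11*u21*v11 + 2*u11*u22*v10 + 2*u11*u30*v02 +
      2*u11*u31*v01 + u11*u11*v21 + 2*u12*u20*v11 + 2*u12*u21*v10 + 2*u12*u30*v01 + 2*u13*u20*v10
      + 2*u20*u21*v02 + 2*u20*u22*v01 + u20*u20*v03 + u21*u21*v01) (2*u01*u02*v31 + 2*u01*u03*v30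
      + 2*u01*u10*v23 + 2*u01*u11*v22 + 2*u01*u12*v21 + 2*u01*u13*v20 + 2*u01*u20*v13 +
      2*u01*u21*v12 + 2*u01*u22*v11 + 2*u01*u23*v10 + 2*u01*u30*v03 + 2*u01*u31*v02 +
      2*u01*u32*v01 + u01*u01*v32 + 2*u02*u10*v22 + 2*u02*u11*v21 + 2*u02*u12*v20 + 2*u02*u20*v12
      + 2*u02*u21*v11 + 2*u02*u22*v10 + 2*u02*u30*v02 + 2*u02*u31*v01 + u02*u02*v30 +
      2*u03*u10*v21 + 2*u03*u11*v20 + 2*u03*u20*v11 + 2*u03*u21*v10 + 2*u03*u30*v01 +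
      2*u04*u10*v20 + 2*u04*u20*v10 + 2*u10*u11*v13 + 2*u10*u12*v12 + 2*u10*u13*v11 +
      2*u10*u14*v10 + 2*u10*u20*v04 + 2*u10*u21*v03 + 2*u10*u22*v02 + 2*u10*u23*v01 + u10*u10*v14
      + 2*u11*u12*v11 + 2*u11*u13*v10 + 2*u11*u20*v03 + 2*u11*u21*v02 + 2*u11*u22*v01 +
      u11*u11*v12 + 2*u12*u20*v02 + 2*u12*u21*v01 + u12*u12*v10 + 2*u13*u20*v01) t := by
  obtain ⟨t, ht⟩ := pw11 u10 u01 u20 u11 u02 u30 u21 u12 u03 u40 u31 u22 u13 u04 u41 u32 u23 u14 u42 u33 u24 u43 u34 u44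
    v10 v01 v20 v11 v02 v30 v21 v12 v03 v40 v31 v22 v13 v04 v41 v32 v23 v14 v42 v33 v24 v43 v34 v44
  have e : ∀ X Y : O k, X ^ 2 * Y ^ 1 = X ^ 1 * Y ^ 1 * X := fun X Y => by ring
  rw [e, ht, mk_mul]
  refine ⟨_, mk_inj.mpr ⟨?_, ?_, ?_, ?_, ?_, ?_, ?_, ?_, ?_, ?_, ?_, ?_, ?_, ?_, ?_, ?_, ?_, ?_, ?_, ?_, ?_, ?_, ?_, ?_, rfl⟩⟩ <;> ring

theorem pw12 : ∃ t : k, (mk 0 u10 u01 u20 u11 u02 u30 u21 u12 u03 u40 u31 u22 u13 u04 u41 u32 u23 u14 u42 u33 u24 u43 u34 u44) ^ 1 *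
    (mk 0 v10 v01 v20 v11 v02 v30 v21 v12 v03 v40 v31 v22 v13 v04 v41 v32 v23 v14 v42 v33 v24 v43 v34 v44) ^ 2 =
    mk 0 0 0 0 0 0 (u10*v10*v10) (u01*v10*v10 + 2*u10*v01*v10) (2*u01*v01*v10 + u10*v01*v01)
      (u01*v01*v01) (2*u10*v10*v20 + u20*v10*v10) (2*u01*v10*v20 + 2*u10*v01*v20 + 2*u10*v10*v11
      + u11*v10*v10 + 2*u20*v01*v10) (2*u01*v01*v20 + 2*u01*v10*v11 + u02*v10*v10 + 2*u10*v01*v11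
      + 2*u10*v02*v10 + 2*u11*v01*v10 + u20*v01*v01) (2*u01*v01*v11 + 2*u01*v02*v10 +
      2*u02*v01*v10 + 2*u10*v01*v02 + u11*v01*v01) (2*u01*v01*v02 + u02*v01*v01) (2*u01*v10*v30 +
      u01*v20*v20 + 2*u10*v01*v30 + 2*u10*v10*v21 + 2*u10*v11*v20 + 2*u11*v10*v20 + 2*u20*v01*v20
      + 2*u20*v10*v11 + u21*v10*v10 + 2*u30*v01*v10) (2*u01*v01*v30 + 2*u01*v10*v21 +
      2*u01*v11*v20 + 2*u02*v10*v20 + 2*u10*v01*v21 + 2*u10*v02*v20 + 2*u10*v10*v12 + u10*v11*v11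
      + 2*u11*v01*v20 + 2*u11*v10*v11 + u12*v10*v10 + 2*u20*v01*v11 + 2*u20*v02*v10 +
      2*u21*v01*v10 + u30*v01*v01) (2*u01*v01*v21 + 2*u01*v02*v20 + 2*u01*v10*v12 + u01*v11*v11 +
      2*u02*v01*v20 + 2*u02*v10*v11 + u03*v10*v10 + 2*u10*v01*v12 + 2*u10*v02*v11 + 2*u10*v03*v10
      + 2*u11*v01*v11 + 2*u11*v02*v10 + 2*u12*v01*v10 + 2*u20*v01*v02 + u21*v01*v01)
      (2*u01*v01*v12 + 2*u01*v02*v11 + 2*u01*v03*v10 + 2*u02*v01*v11 + 2*u02*v02*v10 +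
      2*u03*v01*v10 + 2*u10*v01*v03 + u10*v02*v02 + 2*u11*v01*v02 + u12*v01*v01) (2*u01*v01*v40 +
      2*u01*v10*v31 + 2*u01*v11*v30 + 2*u01*v20*v21 + 2*u02*v10*v30 + u02*v20*v20 + 2*u10*v01*v31
      + 2*u10*v02*v30 + 2*u10*v10*v22 + 2*u10*v11*v21 + 2*u10*v12*v20 + 2*u11*v01*v30 +
      2*u11*v10*v21 + 2*u11*v11*v20 + 2*u12*v10*v20 + 2*u20*v01*v21 + 2*u20*v02*v20 +
      2*u20*v10*v12 + u20*v11*v11 + 2*u21*v01*v20 + 2*u21*v10*v11 + u22*v10*v10 + 2*u30*v01*v11 +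
      2*u30*v02*v10 + 2*u31*v01*v10 + u40*v01*v01) (2*u01*v01*v31 + 2*u01*v02*v30 + 2*u01*v10*v22
      + 2*u01*v11*v21 + 2*u01*v12*v20 + 2*u02*v01*v30 + 2*u02*v10*v21 + 2*u02*v11*v20 +
      2*u03*v10*v20 + 2*u10*v01*v22 + 2*u10*v02*v21 + 2*u10*v03*v20 + 2*u10*v10*v13 +
      2*u10*v11*v12 + 2*u11*v01*v21 + 2*u11*v02*v20 + 2*u11*v10*v12 + u11*v11*v11 + 2*u12*v01*v20
      + 2*u12*v10*v11 + u13*v10*v10 + 2*u20*v01*v12 + 2*u20*v02*v11 + 2*u20*v03*v10 +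
      2*u21*v01*v11 + 2*u21*v02*v10 + 2*u22*v01*v10 + 2*u30*v01*v02 + u31*v01*v01) (2*u01*v01*v22
      + 2*u01*v02*v21 + 2*u01*v03*v20 + 2*u01*v10*v13 + 2*u01*v11*v12 + 2*u02*v01*v21 +
      2*u02*v02*v20 + 2*u02*v10*v12 + u02*v11*v11 + 2*u03*v01*v20 + 2*u03*v10*v11 + u04*v10*v10 +
      2*u10*v01*v13 + 2*u10*v02*v12 + 2*u10*v03*v11 + 2*u10*v04*v10 + 2*u11*v01*v12 +
      2*u11*v02*v11 + 2*u11*v03*v10 + 2*u12*v01*v11 + 2*u12*v02*v10 + 2*u13*v01*v10 +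
      2*u20*v01*v03 + u20*v02*v02 + 2*u21*v01*v02 + u22*v01*v01) (2*u01*v01*v41 + 2*u01*v02*v40 +
      2*u01*v10*v32 + 2*u01*v11*v31 + 2*u01*v12*v30 + 2*u01*v20*v22 + u01*v21*v21 + 2*u02*v01*v40
      + 2*u02*v10*v31 + 2*u02*v11*v30 + 2*u02*v20*v21 + 2*u03*v10*v30 + u03*v20*v20 +
      2*u10*v01*v32 + 2*u10*v02*v31 + 2*u10*v03*v30 + 2*u10*v10*v23 + 2*u10*v11*v22 +
      2*u10*v12*v21 + 2*u10*v13*v20 + 2*u11*v01*v31 + 2*u11*v02*v30 + 2*u11*v10*v22 +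
      2*u11*v11*v21 + 2*u11*v12*v20 + 2*u12*v01*v30 + 2*u12*v10*v21 + 2*u12*v11*v20 +
      2*u13*v10*v20 + 2*u20*v01*v22 + 2*u20*v02*v21 + 2*u20*v03*v20 + 2*u20*v10*v13 +
      2*u20*v11*v12 + 2*u21*v01*v21 + 2*u21*v02*v20 + 2*u21*v10*v12 + u21*v11*v11 + 2*u22*v01*v20
      + 2*u22*v10*v11 + u23*v10*v10 + 2*u30*v01*v12 + 2*u30*v02*v11 + 2*u30*v03*v10 +
      2*u31*v01*v11 + 2*u31*v02*v10 + 2*u32*v01*v10 + 2*u40*v01*v02 + u41*v01*v01) (2*u01*v01*v32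
      + 2*u01*v02*v31 + 2*u01*v03*v30 + 2*u01*v10*v23 + 2*u01*v11*v22 + 2*u01*v12*v21 +
      2*u01*v13*v20 + 2*u02*v01*v31 + 2*u02*v02*v30 + 2*u02*v10*v22 + 2*u02*v11*v21 +
      2*u02*v12*v20 + 2*u03*v01*v30 + 2*u03*v10*v21 + 2*u03*v11*v20 + 2*u04*v10*v20 +
      2*u10*v01*v23 + 2*u10*v02*v22 + 2*u10*v03*v21 + 2*u10*v04*v20 + 2*u10*v10*v14 +
      2*u10*v11*v13 + u10*v12*v12 + 2*u11*v01*v22 + 2*u11*v02*v21 + 2*u11*v03*v20 + 2*u11*v10*v13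
      + 2*u11*v11*v12 + 2*u12*v01*v21 + 2*u12*v02*v20 + 2*u12*v10*v12 + u12*v11*v11 +
      2*u13*v01*v20 + 2*u13*v10*v11 + u14*v10*v10 + 2*u20*v01*v13 + 2*u20*v02*v12 + 2*u20*v03*v11
      + 2*u20*v04*v10 + 2*u21*v01*v12 + 2*u21*v02*v11 + 2*u21*v03*v10 + 2*u22*v01*v11 +
      2*u22*v02*v10 + 2*u23*v01*v10 + 2*u30*v01*v03 + u30*v02*v02 + 2*u31*v01*v02 + u32*v01*v01)
      t := by
  obtain ⟨t, ht⟩ := pw02 u10 u01 u20 u11 u02 u30 u21 u12 u03 u40 u31 u22 u13 u04 u41 u32 u23 u14 u42 u33 u24 u43 u34 u44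
    v10 v01 v20 v11 v02 v30 v21 v12 v03 v40 v31 v22 v13 v04 v41 v32 v23 v14 v42 v33 v24 v43 v34 v44
  have e : ∀ X Y : O k, X ^ 1 * Y ^ 2 = X ^ 0 * Y ^ 2 * X := fun X Y => by ring
  rw [e, ht, mk_mul]
  refine ⟨_, mk_inj.mpr ⟨?_, ?_, ?_, ?_, ?_, ?_, ?_, ?_, ?_, ?_, ?_, ?_, ?_, ?_, ?_, ?_, ?_, ?_, ?_, ?_, ?_, ?_, ?_, ?_, rfl⟩⟩ <;> ring

theorem pw03 : ∃ t : k, (mk 0 u10 u01 u20 u11 u02 u30 u21 u12 u03 u40 u31 u22 u13 u04 u41 u32 u23 u14 u42 u33 u24 u43 u34 u44) ^ 0 *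
    (mk 0 v10 v01 v20 v11 v02 v30 v21 v12 v03 v40 v31 v22 v13 v04 v41 v32 v23 v14 v42 v33 v24 v43 v34 v44) ^ 3 =
    mk 0 0 0 0 0 0 (v10*v10*v10) (3*v01*v10*v10) (3*v01*v01*v10) (v01*v01*v01) (3*v10*v10*v20)
      (6*v01*v10*v20 + 3*v10*v10*v11) (6*v01*v10*v11 + 3*v01*v01*v20 + 3*v02*v10*v10)
      (6*v01*v02*v10 + 3*v01*v01*v11) (3*v01*v01*v02) (6*v01*v10*v30 + 3*v01*v20*v20 +
      6*v10*v11*v20 + 3*v10*v10*v21) (6*v01*v10*v21 + 6*v01*v11*v20 + 3*v01*v01*v30 +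
      6*v02*v10*v20 + 3*v10*v11*v11 + 3*v10*v10*v12) (6*v01*v02*v20 + 6*v01*v10*v12 +
      3*v01*v11*v11 + 3*v01*v01*v21 + 6*v02*v10*v11 + 3*v03*v10*v10) (6*v01*v02*v11 +
      6*v01*v03*v10 + 3*v01*v01*v12 + 3*v02*v02*v10) (6*v01*v10*v31 + 6*v01*v11*v30 +
      6*v01*v20*v21 + 3*v01*v01*v40 + 6*v02*v10*v30 + 3*v02*v20*v20 + 6*v10*v11*v21 +
      6*v10*v12*v20 + 3*v10*v10*v22 + 3*v11*v11*v20) (6*v01*v02*v30 + 6*v01*v10*v22 +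
      6*v01*v11*v21 + 6*v01*v12*v20 + 3*v01*v01*v31 + 6*v02*v10*v21 + 6*v02*v11*v20 +
      6*v03*v10*v20 + 6*v10*v11*v12 + 3*v10*v10*v13 + v11*v11*v11) (6*v01*v02*v21 + 6*v01*v03*v20
      + 6*v01*v10*v13 + 6*v01*v11*v12 + 3*v01*v01*v22 + 6*v02*v10*v12 + 3*v02*v11*v11 +
      3*v02*v02*v20 + 6*v03*v10*v11 + 3*v04*v10*v10) (6*v01*v02*v40 + 6*v01*v10*v32 +
      6*v01*v11*v31 + 6*v01*v12*v30 + 6*v01*v20*v22 + 3*v01*v21*v21 + 3*v01*v01*v41 +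
      6*v02*v10*v31 + 6*v02*v11*v30 + 6*v02*v20*v21 + 6*v03*v10*v30 + 3*v03*v20*v20 +
      6*v10*v11*v22 + 6*v10*v12*v21 + 6*v10*v13*v20 + 3*v10*v10*v23 + 6*v11*v12*v20 +
      3*v11*v11*v21) (6*v01*v02*v31 + 6*v01*v03*v30 + 6*v01*v10*v23 + 6*v01*v11*v22 +
      6*v01*v12*v21 + 6*v01*v13*v20 + 3*v01*v01*v32 + 6*v02*v10*v22 + 6*v02*v11*v21 +
      6*v02*v12*v20 + 3*v02*v02*v30 + 6*v03*v10*v21 + 6*v03*v11*v20 + 6*v04*v10*v20 +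
      6*v10*v11*v13 + 3*v10*v12*v12 + 3*v10*v10*v14 + 3*v11*v11*v12) t := by
  obtain ⟨t, ht⟩ := pw02 u10 u01 u20 u11 u02 u30 u21 u12 u03 u40 u31 u22 u13 u04 u41 u32 u23 u14 u42 u33 u24 u43 u34 u44
    v10 v01 v20 v11 v02 v30 v21 v12 v03 v40 v31 v22 v13 v04 v41 v32 v23 v14 v42 v33 v24 v43 v34 v44
  have e : ∀ X Y : O k, X ^ 0 * Y ^ 3 = X ^ 0 * Y ^ 2 * Y := fun X Y => by ring
  rw [e, ht, mk_mul]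
  refine ⟨_, mk_inj.mpr ⟨?_, ?_, ?_, ?_, ?_, ?_, ?_, ?_, ?_, ?_, ?_, ?_, ?_, ?_, ?_, ?_, ?_, ?_, ?_, ?_, ?_, ?_, ?_, ?_, rfl⟩⟩ <;> ring

theorem pw40 : ∃ t : k, (mk 0 u10 u01 u20 u11 u02 u30 u21 u12 u03 u40 u31 u22 u13 u04 u41 u32 u23 u14 u42 u33 u24 u43 u34 u44) ^ 4 *
    (mk 0 v10 v01 v20 v11 v02 v30 v21 v12 v03 v40 v31 v22 v13 v04 v41 v32 v23 v14 v42 v33 v24 v43 v34 v44) ^ 0 =
    mk 0 0 0 0 0 0 0 0 0 0 (u10^(4:ℕ)) (4*u01*u10*u10*u10) (6*u01*u01*u10*u10) (4*u01*u01*u01*u10)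
      (u01^(4:ℕ)) (12*u01*u10*u10*u20 + 4*u10*u10*u10*u11) (12*u01*u10*u10*u11 +
      12*u01*u01*u10*u20 + 4*u02*u10*u10*u10) (12*u01*u02*u10*u10 + 12*u01*u01*u10*u11 +
      4*u01*u01*u01*u20) (12*u01*u01*u02*u10 + 4*u01*u01*u01*u11) (24*u01*u10*u11*u20 +
      12*u01*u10*u10*u21 + 12*u01*u01*u10*u30 + 6*u01*u01*u20*u20 + 12*u02*u10*u10*u20 +
      6*u10*u10*u11*u11 + 4*u10*u10*u10*u12) (24*u01*u02*u10*u20 + 12*u01*u10*u11*u11 +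
      12*u01*u10*u10*u12 + 12*u01*u01*u10*u21 + 12*u01*u01*u11*u20 + 4*u01*u01*u01*u30 +
      12*u02*u10*u10*u11 + 4*u03*u10*u10*u10) (24*u01*u02*u10*u11 + 12*u01*u03*u10*u10 +
      12*u01*u01*u02*u20 + 12*u01*u01*u10*u12 + 6*u01*u01*u11*u11 + 4*u01*u01*u01*u21 +
      6*u02*u02*u10*u10) (24*u01*u02*u10*u30 + 12*u01*u02*u20*u20 + 24*u01*u10*u11*u21 +
      24*u01*u10*u12*u20 + 12*u01*u10*u10*u22 + 12*u01*u11*u11*u20 + 12*u01*u01*u10*u31 +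
      12*u01*u01*u11*u30 + 12*u01*u01*u20*u21 + 4*u01*u01*u01*u40 + 24*u02*u10*u11*u20 +
      12*u02*u10*u10*u21 + 12*u03*u10*u10*u20 + 4*u10*u11*u11*u11 + 12*u10*u10*u11*u12 +
      4*u10*u10*u10*u13) (24*u01*u02*u10*u21 + 24*u01*u02*u11*u20 + 24*u01*u03*u10*u20 +
      24*u01*u10*u11*u12 + 12*u01*u10*u10*u13 + 4*u01*u11*u11*u11 + 12*u01*u01*u02*u30 +
      12*u01*u01*u10*u22 + 12*u01*u01*u11*u21 + 12*u01*u01*u12*u20 + 4*u01*u01*u01*u31 +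
      12*u02*u10*u11*u11 + 12*u02*u10*u10*u12 + 12*u02*u02*u10*u20 + 12*u03*u10*u10*u11 +
      4*u04*u10*u10*u10) t := by
  obtain ⟨t, ht⟩ := pw30 u10 u01 u20 u11 u02 u30 u21 u12 u03 u40 u31 u22 u13 u04 u41 u32 u23 u14 u42 u33 u24 u43 u34 u44
    v10 v01 v20 v11 v02 v30 v21 v12 v03 v40 v31 v22 v13 v04 v41 v32 v23 v14 v42 v33 v24 v43 v34 v44
  have e : ∀ X Y : O k, X ^ 4 * Y ^ 0 = X ^ 3 * Y ^ 0 * X := fun X Y => by ring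
  rw [e, ht, mk_mul]
  refine ⟨_, mk_inj.mpr ⟨?_, ?_, ?_, ?_, ?_, ?_, ?_, ?_, ?_, ?_, ?_, ?_, ?_, ?_, ?_, ?_, ?_, ?_, ?_, ?_, ?_, ?_, ?_, ?_, rfl⟩⟩ <;> ring

theorem pw31 : ∃ t : k, (mk 0 u10 u01 u20 u11 u02 u30 u21 u12 u03 u40 u31 u22 u13 u04 u41 u32 u23 u14 u42 u33 u24 u43 u34 u44) ^ 3 *
    (mk 0 v10 v01 v20 v11 v02 v30 v21 v12 v03 v40 v31 v22 v13 v04 v41 v32 v23 v14 v42 v33 v24 v43 v34 v44) ^ 1 =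
    mk 0 0 0 0 0 0 0 0 0 0 (u10*u10*u10*v10) (3*u01*u10*u10*v10 + u10*u10*u10*v01) (3*u01*u10*u10*v01
      + 3*u01*u01*u10*v10) (3*u01*u01*u10*v01 + u01*u01*u01*v10) (u01*u01*u01*v01)
      (6*u01*u10*u20*v10 + 3*u01*u10*u10*v20 + 3*u10*u10*u11*v10 + 3*u10*u10*u20*v01 +
      u10*u10*u10*v11) (6*u01*u10*u11*v10 + 6*u01*u10*u20*v01 + 3*u01*u10*u10*v11 +
      3*u01*u01*u10*v20 + 3*u01*u01*u20*v10 + 3*u02*u10*u10*v10 + 3*u10*u10*u11*v01 +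
      u10*u10*u10*v02) (6*u01*u02*u10*v10 + 6*u01*u10*u11*v01 + 3*u01*u10*u10*v02 +
      3*u01*u01*u10*v11 + 3*u01*u01*u11*v10 + 3*u01*u01*u20*v01 + u01*u01*u01*v20 +
      3*u02*u10*u10*v01) (6*u01*u02*u10*v01 + 3*u01*u01*u02*v10 + 3*u01*u01*u10*v02 +
      3*u01*u01*u11*v01 + u01*u01*u01*v11) (6*u01*u10*u11*v20 + 6*u01*u10*u20*v11 +
      6*u01*u10*u21*v10 + 6*u01*u10*u30*v01 + 3*u01*u10*u10*v21 + 6*u01*u11*u20*v10 +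
      3*u01*u20*u20*v01 + 3*u01*u01*u10*v30 + 3*u01*u01*u20*v20 + 3*u01*u01*u30*v10 +
      6*u02*u10*u20*v10 + 3*u02*u10*u10*v20 + 6*u10*u11*u20*v01 + 3*u10*u11*u11*v10 +
      3*u10*u10*u11*v11 + 3*u10*u10*u12*v10 + 3*u10*u10*u20*v02 + 3*u10*u10*u21*v01 +
      u10*u10*u10*v12) (6*u01*u02*u10*v20 + 6*u01*u02*u20*v10 + 6*u01*u10*u11*v11 +
      6*u01*u10*u12*v10 + 6*u01*u10*u20*v02 + 6*u01*u10*u21*v01 + 3*u01*u10*u10*v12 +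
      6*u01*u11*u20*v01 + 3*u01*u11*u11*v10 + 3*u01*u01*u10*v21 + 3*u01*u01*u11*v20 +
      3*u01*u01*u20*v11 + 3*u01*u01*u21*v10 + 3*u01*u01*u30*v01 + u01*u01*u01*v30 +
      6*u02*u10*u11*v10 + 6*u02*u10*u20*v01 + 3*u02*u10*u10*v11 + 3*u03*u10*u10*v10 +
      3*u10*u11*u11*v01 + 3*u10*u10*u11*v02 + 3*u10*u10*u12*v01 + u10*u10*u10*v03)
      (6*u01*u02*u10*v11 + 6*u01*u02*u11*v10 + 6*u01*u02*u20*v01 + 6*u01*u03*u10*v10 +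
      6*u01*u10*u11*v02 + 6*u01*u10*u12*v01 + 3*u01*u10*u10*v03 + 3*u01*u11*u11*v01 +
      3*u01*u01*u02*v20 + 3*u01*u01*u10*v12 + 3*u01*u01*u11*v11 + 3*u01*u01*u12*v10 +
      3*u01*u01*u20*v02 + 3*u01*u01*u21*v01 + u01*u01*u01*v21 + 6*u02*u10*u11*v01 +
      3*u02*u10*u10*v02 + 3*u02*u02*u10*v10 + 3*u03*u10*u10*v01) (6*u01*u02*u10*v30 +
      6*u01*u02*u20*v20 + 6*u01*u02*u30*v10 + 6*u01*u10*u11*v21 + 6*u01*u10*u12*v20 +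
      6*u01*u10*u20*v12 + 6*u01*u10*u21*v11 + 6*u01*u10*u22*v10 + 6*u01*u10*u30*v02 +
      6*u01*u10*u31*v01 + 3*u01*u10*u10*v22 + 6*u01*u11*u20*v11 + 6*u01*u11*u21*v10 +
      6*u01*u11*u30*v01 + 3*u01*u11*u11*v20 + 6*u01*u12*u20*v10 + 6*u01*u20*u21*v01 +
      3*u01*u20*u20*v02 + 3*u01*u01*u10*v31 + 3*u01*u01*u11*v30 + 3*u01*u01*u20*v21 +
      3*u01*u01*u21*v20 + 3*u01*u01*u30*v11 + 3*u01*u01*u31*v10 + 3*u01*u01*u40*v01 +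
      u01*u01*u01*v40 + 6*u02*u10*u11*v20 + 6*u02*u10*u20*v11 + 6*u02*u10*u21*v10 +
      6*u02*u10*u30*v01 + 3*u02*u10*u10*v21 + 6*u02*u11*u20*v10 + 3*u02*u20*u20*v01 +
      6*u03*u10*u20*v10 + 3*u03*u10*u10*v20 + 6*u10*u11*u12*v10 + 6*u10*u11*u20*v02 +
      6*u10*u11*u21*v01 + 3*u10*u11*u11*v11 + 6*u10*u12*u20*v01 + 3*u10*u10*u11*v12 +
      3*u10*u10*u12*v11 + 3*u10*u10*u13*v10 + 3*u10*u10*u20*v03 + 3*u10*u10*u21*v02 +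
      3*u10*u10*u22*v01 + u10*u10*u10*v13 + 3*u11*u11*u20*v01 + u11*u11*u11*v10)
      (6*u01*u02*u10*v21 + 6*u01*u02*u11*v20 + 6*u01*u02*u20*v11 + 6*u01*u02*u21*v10 +
      6*u01*u02*u30*v01 + 6*u01*u03*u10*v20 + 6*u01*u03*u20*v10 + 6*u01*u10*u11*v12 +
      6*u01*u10*u12*v11 + 6*u01*u10*u13*v10 + 6*u01*u10*u20*v03 + 6*u01*u10*u21*v02 +
      6*u01*u10*u22*v01 + 3*u01*u10*u10*v13 + 6*u01*u11*u12*v10 + 6*u01*u11*u20*v02 +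
      6*u01*u11*u21*v01 + 3*u01*u11*u11*v11 + 6*u01*u12*u20*v01 + 3*u01*u01*u02*v30 +
      3*u01*u01*u10*v22 + 3*u01*u01*u11*v21 + 3*u01*u01*u12*v20 + 3*u01*u01*u20*v12 +
      3*u01*u01*u21*v11 + 3*u01*u01*u22*v10 + 3*u01*u01*u30*v02 + 3*u01*u01*u31*v01 +
      u01*u01*u01*v31 + 6*u02*u10*u11*v11 + 6*u02*u10*u12*v10 + 6*u02*u10*u20*v02 +
      6*u02*u10*u21*v01 + 3*u02*u10*u10*v12 + 6*u02*u11*u20*v01 + 3*u02*u11*u11*v10 +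
      3*u02*u02*u10*v20 + 3*u02*u02*u20*v10 + 6*u03*u10*u11*v10 + 6*u03*u10*u20*v01 +
      3*u03*u10*u10*v11 + 3*u04*u10*u10*v10 + 6*u10*u11*u12*v01 + 3*u10*u11*u11*v02 +
      3*u10*u10*u11*v03 + 3*u10*u10*u12*v02 + 3*u10*u10*u13*v01 + u10*u10*u10*v04 +
      u11*u11*u11*v01) t := by
  obtain ⟨t, ht⟩ := pw21 u10 u01 u20 u11 u02 u30 u21 u12 u03 u40 u31 u22 u13 u04 u41 u32 u23 u14 u42 u33 u24 u43 u34 u44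
    v10 v01 v20 v11 v02 v30 v21 v12 v03 v40 v31 v22 v13 v04 v41 v32 v23 v14 v42 v33 v24 v43 v34 v44
  have e : ∀ X Y : O k, X ^ 3 * Y ^ 1 = X ^ 2 * Y ^ 1 * X := fun X Y => by ring
  rw [e, ht, mk_mul]
  refine ⟨_, mk_inj.mpr ⟨?_, ?_, ?_, ?_, ?_, ?_, ?_, ?_, ?_, ?_, ?_, ?_, ?_, ?_, ?_, ?_, ?_, ?_, ?_, ?_, ?_, ?_, ?_, ?_, rfl⟩⟩ <;> ring

theorem pw22 : ∃ t : k, (mk 0 u10 u01 u20 u11 u02 u30 u21 u12 u03 u40 u31 u22 u13 u04 u41 u32 u23 u14 u42 u33 u24 u43 u34 u44) ^ 2 *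
    (mk 0 v10 v01 v20 v11 v02 v30 v21 v12 v03 v40 v31 v22 v13 v04 v41 v32 v23 v14 v42 v33 v24 v43 v34 v44) ^ 2 =
    mk 0 0 0 0 0 0 0 0 0 0 (u10*u10*v10*v10) (2*u01*u10*v10*v10 + 2*u10*u10*v01*v10)
      (4*u01*u10*v01*v10 + u01*u01*v10*v10 + u10*u10*v01*v01) (2*u01*u10*v01*v01 +
      2*u01*u01*v01*v10) (u01*u01*v01*v01) (4*u01*u10*v10*v20 + 2*u01*u20*v10*v10 +
      2*u10*u11*v10*v10 + 4*u10*u20*v01*v10 + 2*u10*u10*v01*v20 + 2*u10*u10*v10*v11)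
      (4*u01*u10*v01*v20 + 4*u01*u10*v10*v11 + 2*u01*u11*v10*v10 + 4*u01*u20*v01*v10 +
      2*u01*u01*v10*v20 + 2*u02*u10*v10*v10 + 4*u10*u11*v01*v10 + 2*u10*u20*v01*v01 +
      2*u10*u10*v01*v11 + 2*u10*u10*v02*v10) (2*u01*u02*v10*v10 + 4*u01*u10*v01*v11 +
      4*u01*u10*v02*v10 + 4*u01*u11*v01*v10 + 2*u01*u20*v01*v01 + 2*u01*u01*v01*v20 +
      2*u01*u01*v10*v11 + 4*u02*u10*v01*v10 + 2*u10*u11*v01*v01 + 2*u10*u10*v01*v02)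
      (4*u01*u02*v01*v10 + 4*u01*u10*v01*v02 + 2*u01*u11*v01*v01 + 2*u01*u01*v01*v11 +
      2*u01*u01*v02*v10 + 2*u02*u10*v01*v01) (4*u01*u10*v01*v30 + 4*u01*u10*v10*v21 +
      4*u01*u10*v11*v20 + 4*u01*u11*v10*v20 + 4*u01*u20*v01*v20 + 4*u01*u20*v10*v11 +
      2*u01*u21*v10*v10 + 4*u01*u30*v01*v10 + 2*u01*u01*v10*v30 + u01*u01*v20*v20 +
      4*u02*u10*v10*v20 + 2*u02*u20*v10*v10 + 4*u10*u11*v01*v20 + 4*u10*u11*v10*v11 +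
      2*u10*u12*v10*v10 + 4*u10*u20*v01*v11 + 4*u10*u20*v02*v10 + 4*u10*u21*v01*v10 +
      2*u10*u30*v01*v01 + 2*u10*u10*v01*v21 + 2*u10*u10*v02*v20 + 2*u10*u10*v10*v12 +
      u10*u10*v11*v11 + 4*u11*u20*v01*v10 + u11*u11*v10*v10 + u20*u20*v01*v01) (4*u01*u02*v10*v20
      + 4*u01*u10*v01*v21 + 4*u01*u10*v02*v20 + 4*u01*u10*v10*v12 + 2*u01*u10*v11*v11 +
      4*u01*u11*v01*v20 + 4*u01*u11*v10*v11 + 2*u01*u12*v10*v10 + 4*u01*u20*v01*v11 +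
      4*u01*u20*v02*v10 + 4*u01*u21*v01*v10 + 2*u01*u30*v01*v01 + 2*u01*u01*v01*v30 +
      2*u01*u01*v10*v21 + 2*u01*u01*v11*v20 + 4*u02*u10*v01*v20 + 4*u02*u10*v10*v11 +
      2*u02*u11*v10*v10 + 4*u02*u20*v01*v10 + 2*u03*u10*v10*v10 + 4*u10*u11*v01*v11 +
      4*u10*u11*v02*v10 + 4*u10*u12*v01*v10 + 4*u10*u20*v01*v02 + 2*u10*u21*v01*v01 +
      2*u10*u10*v01*v12 + 2*u10*u10*v02*v11 + 2*u10*u10*v03*v10 + 2*u11*u20*v01*v01 +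
      2*u11*u11*v01*v10) (4*u01*u02*v01*v20 + 4*u01*u02*v10*v11 + 2*u01*u03*v10*v10 +
      4*u01*u10*v01*v12 + 4*u01*u10*v02*v11 + 4*u01*u10*v03*v10 + 4*u01*u11*v01*v11 +
      4*u01*u11*v02*v10 + 4*u01*u12*v01*v10 + 4*u01*u20*v01*v02 + 2*u01*u21*v01*v01 +
      2*u01*u01*v01*v21 + 2*u01*u01*v02*v20 + 2*u01*u01*v10*v12 + u01*u01*v11*v11 +
      4*u02*u10*v01*v11 + 4*u02*u10*v02*v10 + 4*u02*u11*v01*v10 + 2*u02*u20*v01*v01 +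
      u02*u02*v10*v10 + 4*u03*u10*v01*v10 + 4*u10*u11*v01*v02 + 2*u10*u12*v01*v01 +
      2*u10*u10*v01*v03 + u10*u10*v02*v02 + u11*u11*v01*v01) (4*u01*u02*v10*v30 +
      2*u01*u02*v20*v20 + 4*u01*u10*v01*v31 + 4*u01*u10*v02*v30 + 4*u01*u10*v10*v22 +
      4*u01*u10*v11*v21 + 4*u01*u10*v12*v20 + 4*u01*u11*v01*v30 + 4*u01*u11*v10*v21 +
      4*u01*u11*v11*v20 + 4*u01*u12*v10*v20 + 4*u01*u20*v01*v21 + 4*u01*u20*v02*v20 +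
      4*u01*u20*v10*v12 + 2*u01*u20*v11*v11 + 4*u01*u21*v01*v20 + 4*u01*u21*v10*v11 +
      2*u01*u22*v10*v10 + 4*u01*u30*v01*v11 + 4*u01*u30*v02*v10 + 4*u01*u31*v01*v10 +
      2*u01*u40*v01*v01 + 2*u01*u01*v01*v40 + 2*u01*u01*v10*v31 + 2*u01*u01*v11*v30 +
      2*u01*u01*v20*v21 + 4*u02*u10*v01*v30 + 4*u02*u10*v10*v21 + 4*u02*u10*v11*v20 +
      4*u02*u11*v10*v20 + 4*u02*u20*v01*v20 + 4*u02*u20*v10*v11 + 2*u02*u21*v10*v10 +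
      4*u02*u30*v01*v10 + 4*u03*u10*v10*v20 + 2*u03*u20*v10*v10 + 4*u10*u11*v01*v21 +
      4*u10*u11*v02*v20 + 4*u10*u11*v10*v12 + 2*u10*u11*v11*v11 + 4*u10*u12*v01*v20 +
      4*u10*u12*v10*v11 + 2*u10*u13*v10*v10 + 4*u10*u20*v01*v12 + 4*u10*u20*v02*v11 +
      4*u10*u20*v03*v10 + 4*u10*u21*v01*v11 + 4*u10*u21*v02*v10 + 4*u10*u22*v01*v10 +
      4*u10*u30*v01*v02 + 2*u10*u31*v01*v01 + 2*u10*u10*v01*v22 + 2*u10*u10*v02*v21 +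
      2*u10*u10*v03*v20 + 2*u10*u10*v10*v13 + 2*u10*u10*v11*v12 + 2*u11*u12*v10*v10 +
      4*u11*u20*v01*v11 + 4*u11*u20*v02*v10 + 4*u11*u21*v01*v10 + 2*u11*u30*v01*v01 +
      2*u11*u11*v01*v20 + 2*u11*u11*v10*v11 + 4*u12*u20*v01*v10 + 2*u20*u21*v01*v01 +
      2*u20*u20*v01*v02) (4*u01*u02*v01*v30 + 4*u01*u02*v10*v21 + 4*u01*u02*v11*v20 +
      4*u01*u03*v10*v20 + 4*u01*u10*v01*v22 + 4*u01*u10*v02*v21 + 4*u01*u10*v03*v20 +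
      4*u01*u10*v10*v13 + 4*u01*u10*v11*v12 + 4*u01*u11*v01*v21 + 4*u01*u11*v02*v20 +
      4*u01*u11*v10*v12 + 2*u01*u11*v11*v11 + 4*u01*u12*v01*v20 + 4*u01*u12*v10*v11 +
      2*u01*u13*v10*v10 + 4*u01*u20*v01*v12 + 4*u01*u20*v02*v11 + 4*u01*u20*v03*v10 +
      4*u01*u21*v01*v11 + 4*u01*u21*v02*v10 + 4*u01*u22*v01*v10 + 4*u01*u30*v01*v02 +
      2*u01*u31*v01*v01 + 2*u01*u01*v01*v31 + 2*u01*u01*v02*v30 + 2*u01*u01*v10*v22 +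
      2*u01*u01*v11*v21 + 2*u01*u01*v12*v20 + 4*u02*u10*v01*v21 + 4*u02*u10*v02*v20 +
      4*u02*u10*v10*v12 + 2*u02*u10*v11*v11 + 4*u02*u11*v01*v20 + 4*u02*u11*v10*v11 +
      2*u02*u12*v10*v10 + 4*u02*u20*v01*v11 + 4*u02*u20*v02*v10 + 4*u02*u21*v01*v10 +
      2*u02*u30*v01*v01 + 2*u02*u02*v10*v20 + 4*u03*u10*v01*v20 + 4*u03*u10*v10*v11 +
      2*u03*u11*v10*v10 + 4*u03*u20*v01*v10 + 2*u04*u10*v10*v10 + 4*u10*u11*v01*v12 +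
      4*u10*u11*v02*v11 + 4*u10*u11*v03*v10 + 4*u10*u12*v01*v11 + 4*u10*u12*v02*v10 +
      4*u10*u13*v01*v10 + 4*u10*u20*v01*v03 + 2*u10*u20*v02*v02 + 4*u10*u21*v01*v02 +
      2*u10*u22*v01*v01 + 2*u10*u10*v01*v13 + 2*u10*u10*v02*v12 + 2*u10*u10*v03*v11 +
      2*u10*u10*v04*v10 + 4*u11*u12*v01*v10 + 4*u11*u20*v01*v02 + 2*u11*u21*v01*v01 +
      2*u11*u11*v01*v11 + 2*u11*u11*v02*v10 + 2*u12*u20*v01*v01) t := by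
  obtain ⟨t, ht⟩ := pw12 u10 u01 u20 u11 u02 u30 u21 u12 u03 u40 u31 u22 u13 u04 u41 u32 u23 u14 u42 u33 u24 u43 u34 u44
    v10 v01 v20 v11 v02 v30 v21 v12 v03 v40 v31 v22 v13 v04 v41 v32 v23 v14 v42 v33 v24 v43 v34 v44
  have e : ∀ X Y : O k, X ^ 2 * Y ^ 2 = X ^ 1 * Y ^ 2 * X := fun X Y => by ring
  rw [e, ht, mk_mul]
  refine ⟨_, mk_inj.mpr ⟨?_, ?_, ?_, ?_, ?_, ?_, ?_, ?_, ?_, ?_, ?_, ?_, ?_, ?_, ?_, ?_, ?_, ?_, ?_, ?_, ?_, ?_, ?_, ?_, rfl⟩⟩ <;> ring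

theorem pw13 : ∃ t : k, (mk 0 u10 u01 u20 u11 u02 u30 u21 u12 u03 u40 u31 u22 u13 u04 u41 u32 u23 u14 u42 u33 u24 u43 u34 u44) ^ 1 *
    (mk 0 v10 v01 v20 v11 v02 v30 v21 v12 v03 v40 v31 v22 v13 v04 v41 v32 v23 v14 v42 v33 v24 v43 v34 v44) ^ 3 =
    mk 0 0 0 0 0 0 0 0 0 0 (u10*v10*v10*v10) (u01*v10*v10*v10 + 3*u10*v01*v10*v10) (3*u01*v01*v10*v10
      + 3*u10*v01*v01*v10) (3*u01*v01*v01*v10 + u10*v01*v01*v01) (u01*v01*v01*v01)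
      (3*u01*v10*v10*v20 + 6*u10*v01*v10*v20 + 3*u10*v10*v10*v11 + u11*v10*v10*v10 +
      3*u20*v01*v10*v10) (6*u01*v01*v10*v20 + 3*u01*v10*v10*v11 + u02*v10*v10*v10 +
      6*u10*v01*v10*v11 + 3*u10*v01*v01*v20 + 3*u10*v02*v10*v10 + 3*u11*v01*v10*v10 +
      3*u20*v01*v01*v10) (6*u01*v01*v10*v11 + 3*u01*v01*v01*v20 + 3*u01*v02*v10*v10 +
      3*u02*v01*v10*v10 + 6*u10*v01*v02*v10 + 3*u10*v01*v01*v11 + 3*u11*v01*v01*v10 +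
      u20*v01*v01*v01) (6*u01*v01*v02*v10 + 3*u01*v01*v01*v11 + 3*u02*v01*v01*v10 +
      3*u10*v01*v01*v02 + u11*v01*v01*v01) (6*u01*v01*v10*v30 + 3*u01*v01*v20*v20 +
      6*u01*v10*v11*v20 + 3*u01*v10*v10*v21 + 3*u02*v10*v10*v20 + 6*u10*v01*v10*v21 +
      6*u10*v01*v11*v20 + 3*u10*v01*v01*v30 + 6*u10*v02*v10*v20 + 3*u10*v10*v11*v11 +
      3*u10*v10*v10*v12 + 6*u11*v01*v10*v20 + 3*u11*v10*v10*v11 + u12*v10*v10*v10 +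
      6*u20*v01*v10*v11 + 3*u20*v01*v01*v20 + 3*u20*v02*v10*v10 + 3*u21*v01*v10*v10 +
      3*u30*v01*v01*v10) (6*u01*v01*v10*v21 + 6*u01*v01*v11*v20 + 3*u01*v01*v01*v30 +
      6*u01*v02*v10*v20 + 3*u01*v10*v11*v11 + 3*u01*v10*v10*v12 + 6*u02*v01*v10*v20 +
      3*u02*v10*v10*v11 + u03*v10*v10*v10 + 6*u10*v01*v02*v20 + 6*u10*v01*v10*v12 +
      3*u10*v01*v11*v11 + 3*u10*v01*v01*v21 + 6*u10*v02*v10*v11 + 3*u10*v03*v10*v10 +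
      6*u11*v01*v10*v11 + 3*u11*v01*v01*v20 + 3*u11*v02*v10*v10 + 3*u12*v01*v10*v10 +
      6*u20*v01*v02*v10 + 3*u20*v01*v01*v11 + 3*u21*v01*v01*v10 + u30*v01*v01*v01)
      (6*u01*v01*v02*v20 + 6*u01*v01*v10*v12 + 3*u01*v01*v11*v11 + 3*u01*v01*v01*v21 +
      6*u01*v02*v10*v11 + 3*u01*v03*v10*v10 + 6*u02*v01*v10*v11 + 3*u02*v01*v01*v20 +
      3*u02*v02*v10*v10 + 3*u03*v01*v10*v10 + 6*u10*v01*v02*v11 + 6*u10*v01*v03*v10 +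
      3*u10*v01*v01*v12 + 3*u10*v02*v02*v10 + 6*u11*v01*v02*v10 + 3*u11*v01*v01*v11 +
      3*u12*v01*v01*v10 + 3*u20*v01*v01*v02 + u21*v01*v01*v01) (6*u01*v01*v10*v31 +
      6*u01*v01*v11*v30 + 6*u01*v01*v20*v21 + 3*u01*v01*v01*v40 + 6*u01*v02*v10*v30 +
      3*u01*v02*v20*v20 + 6*u01*v10*v11*v21 + 6*u01*v10*v12*v20 + 3*u01*v10*v10*v22 +
      3*u01*v11*v11*v20 + 6*u02*v01*v10*v30 + 3*u02*v01*v20*v20 + 6*u02*v10*v11*v20 +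
      3*u02*v10*v10*v21 + 3*u03*v10*v10*v20 + 6*u10*v01*v02*v30 + 6*u10*v01*v10*v22 +
      6*u10*v01*v11*v21 + 6*u10*v01*v12*v20 + 3*u10*v01*v01*v31 + 6*u10*v02*v10*v21 +
      6*u10*v02*v11*v20 + 6*u10*v03*v10*v20 + 6*u10*v10*v11*v12 + 3*u10*v10*v10*v13 +
      u10*v11*v11*v11 + 6*u11*v01*v10*v21 + 6*u11*v01*v11*v20 + 3*u11*v01*v01*v30 +
      6*u11*v02*v10*v20 + 3*u11*v10*v11*v11 + 3*u11*v10*v10*v12 + 6*u12*v01*v10*v20 +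
      3*u12*v10*v10*v11 + u13*v10*v10*v10 + 6*u20*v01*v02*v20 + 6*u20*v01*v10*v12 +
      3*u20*v01*v11*v11 + 3*u20*v01*v01*v21 + 6*u20*v02*v10*v11 + 3*u20*v03*v10*v10 +
      6*u21*v01*v10*v11 + 3*u21*v01*v01*v20 + 3*u21*v02*v10*v10 + 3*u22*v01*v10*v10 +
      6*u30*v01*v02*v10 + 3*u30*v01*v01*v11 + 3*u31*v01*v01*v10 + u40*v01*v01*v01)
      (6*u01*v01*v02*v30 + 6*u01*v01*v10*v22 + 6*u01*v01*v11*v21 + 6*u01*v01*v12*v20 +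
      3*u01*v01*v01*v31 + 6*u01*v02*v10*v21 + 6*u01*v02*v11*v20 + 6*u01*v03*v10*v20 +
      6*u01*v10*v11*v12 + 3*u01*v10*v10*v13 + u01*v11*v11*v11 + 6*u02*v01*v10*v21 +
      6*u02*v01*v11*v20 + 3*u02*v01*v01*v30 + 6*u02*v02*v10*v20 + 3*u02*v10*v11*v11 +
      3*u02*v10*v10*v12 + 6*u03*v01*v10*v20 + 3*u03*v10*v10*v11 + u04*v10*v10*v10 +
      6*u10*v01*v02*v21 + 6*u10*v01*v03*v20 + 6*u10*v01*v10*v13 + 6*u10*v01*v11*v12 +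
      3*u10*v01*v01*v22 + 6*u10*v02*v10*v12 + 3*u10*v02*v11*v11 + 3*u10*v02*v02*v20 +
      6*u10*v03*v10*v11 + 3*u10*v04*v10*v10 + 6*u11*v01*v02*v20 + 6*u11*v01*v10*v12 +
      3*u11*v01*v11*v11 + 3*u11*v01*v01*v21 + 6*u11*v02*v10*v11 + 3*u11*v03*v10*v10 +
      6*u12*v01*v10*v11 + 3*u12*v01*v01*v20 + 3*u12*v02*v10*v10 + 3*u13*v01*v10*v10 +
      6*u20*v01*v02*v11 + 6*u20*v01*v03*v10 + 3*u20*v01*v01*v12 + 3*u20*v02*v02*v10 +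
      6*u21*v01*v02*v10 + 3*u21*v01*v01*v11 + 3*u22*v01*v01*v10 + 3*u30*v01*v01*v02 +
      u31*v01*v01*v01) t := by
  obtain ⟨t, ht⟩ := pw03 u10 u01 u20 u11 u02 u30 u21 u12 u03 u40 u31 u22 u13 u04 u41 u32 u23 u14 u42 u33 u24 u43 u34 u44
    v10 v01 v20 v11 v02 v30 v21 v12 v03 v40 v31 v22 v13 v04 v41 v32 v23 v14 v42 v33 v24 v43 v34 v44
  have e : ∀ X Y : O k, X ^ 1 * Y ^ 3 = X ^ 0 * Y ^ 3 * X := fun X Y => by ring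
  rw [e, ht, mk_mul]
  refine ⟨_, mk_inj.mpr ⟨?_, ?_, ?_, ?_, ?_, ?_, ?_, ?_, ?_, ?_, ?_, ?_, ?_, ?_, ?_, ?_, ?_, ?_, ?_, ?_, ?_, ?_, ?_, ?_, rfl⟩⟩ <;> ring

theorem pw04 : ∃ t : k, (mk 0 u10 u01 u20 u11 u02 u30 u21 u12 u03 u40 u31 u22 u13 u04 u41 u32 u23 u14 u42 u33 u24 u43 u34 u44) ^ 0 *
    (mk 0 v10 v01 v20 v11 v02 v30 v21 v12 v03 v40 v31 v22 v13 v04 v41 v32 v23 v14 v42 v33 v24 v43 v34 v44) ^ 4 =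
    mk 0 0 0 0 0 0 0 0 0 0 (v10^(4:ℕ)) (4*v01*v10*v10*v10) (6*v01*v01*v10*v10) (4*v01*v01*v01*v10)
      (v01^(4:ℕ)) (12*v01*v10*v10*v20 + 4*v10*v10*v10*v11) (12*v01*v10*v10*v11 +
      12*v01*v01*v10*v20 + 4*v02*v10*v10*v10) (12*v01*v02*v10*v10 + 12*v01*v01*v10*v11 +
      4*v01*v01*v01*v20) (12*v01*v01*v02*v10 + 4*v01*v01*v01*v11) (24*v01*v10*v11*v20 +
      12*v01*v10*v10*v21 + 12*v01*v01*v10*v30 + 6*v01*v01*v20*v20 + 12*v02*v10*v10*v20 +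
      6*v10*v10*v11*v11 + 4*v10*v10*v10*v12) (24*v01*v02*v10*v20 + 12*v01*v10*v11*v11 +
      12*v01*v10*v10*v12 + 12*v01*v01*v10*v21 + 12*v01*v01*v11*v20 + 4*v01*v01*v01*v30 +
      12*v02*v10*v10*v11 + 4*v03*v10*v10*v10) (24*v01*v02*v10*v11 + 12*v01*v03*v10*v10 +
      12*v01*v01*v02*v20 + 12*v01*v01*v10*v12 + 6*v01*v01*v11*v11 + 4*v01*v01*v01*v21 +
      6*v02*v02*v10*v10) (24*v01*v02*v10*v30 + 12*v01*v02*v20*v20 + 24*v01*v10*v11*v21 +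
      24*v01*v10*v12*v20 + 12*v01*v10*v10*v22 + 12*v01*v11*v11*v20 + 12*v01*v01*v10*v31 +
      12*v01*v01*v11*v30 + 12*v01*v01*v20*v21 + 4*v01*v01*v01*v40 + 24*v02*v10*v11*v20 +
      12*v02*v10*v10*v21 + 12*v03*v10*v10*v20 + 4*v10*v11*v11*v11 + 12*v10*v10*v11*v12 +
      4*v10*v10*v10*v13) (24*v01*v02*v10*v21 + 24*v01*v02*v11*v20 + 24*v01*v03*v10*v20 +
      24*v01*v10*v11*v12 + 12*v01*v10*v10*v13 + 4*v01*v11*v11*v11 + 12*v01*v01*v02*v30 +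
      12*v01*v01*v10*v22 + 12*v01*v01*v11*v21 + 12*v01*v01*v12*v20 + 4*v01*v01*v01*v31 +
      12*v02*v10*v11*v11 + 12*v02*v10*v10*v12 + 12*v02*v02*v10*v20 + 12*v03*v10*v10*v11 +
      4*v04*v10*v10*v10) t := by
  obtain ⟨t, ht⟩ := pw03 u10 u01 u20 u11 u02 u30 u21 u12 u03 u40 u31 u22 u13 u04 u41 u32 u23 u14 u42 u33 u24 u43 u34 u44
    v10 v01 v20 v11 v02 v30 v21 v12 v03 v40 v31 v22 v13 v04 v41 v32 v23 v14 v42 v33 v24 v43 v34 v44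
  have e : ∀ X Y : O k, X ^ 0 * Y ^ 4 = X ^ 0 * Y ^ 3 * Y := fun X Y => by ring
  rw [e, ht, mk_mul]
  refine ⟨_, mk_inj.mpr ⟨?_, ?_, ?_, ?_, ?_, ?_, ?_, ?_, ?_, ?_, ?_, ?_, ?_, ?_, ?_, ?_, ?_, ?_, ?_, ?_, ?_, ?_, ?_, ?_, rfl⟩⟩ <;> ring

theorem pw41 : ∃ t : k, (mk 0 u10 u01 u20 u11 u02 u30 u21 u12 u03 u40 u31 u22 u13 u04 u41 u32 u23 u14 u42 u33 u24 u43 u34 u44) ^ 4 *
    (mk 0 v10 v01 v20 v11 v02 v30 v21 v12 v03 v40 v31 v22 v13 v04 v41 v32 v23 v14 v42 v33 v24 v43 v34 v44) ^ 1 =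
    mk 0 0 0 0 0 0 0 0 0 0 0 0 0 0 0 (4*u01*u10*u10*u10*v10 + u10^(4:ℕ)*v01) (4*u01*u10*u10*u10*v01 +
      6*u01*u01*u10*u10*v10) (6*u01*u01*u10*u10*v01 + 4*u01*u01*u01*u10*v10)
      (4*u01*u01*u01*u10*v01 + u01^(4:ℕ)*v10) (12*u01*u10*u10*u11*v10 + 12*u01*u10*u10*u20*v01 +
      4*u01*u10*u10*u10*v11 + 12*u01*u01*u10*u20*v10 + 6*u01*u01*u10*u10*v20 +
      4*u02*u10*u10*u10*v10 + 4*u10*u10*u10*u11*v01 + u10^(4:ℕ)*v02) (12*u01*u02*u10*u10*v10 +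
      12*u01*u10*u10*u11*v01 + 4*u01*u10*u10*u10*v02 + 12*u01*u01*u10*u11*v10 +
      12*u01*u01*u10*u20*v01 + 6*u01*u01*u10*u10*v11 + 4*u01*u01*u01*u10*v20 +
      4*u01*u01*u01*u20*v10 + 4*u02*u10*u10*u10*v01) (12*u01*u02*u10*u10*v01 +
      12*u01*u01*u02*u10*v10 + 12*u01*u01*u10*u11*v01 + 6*u01*u01*u10*u10*v02 +
      4*u01*u01*u01*u10*v11 + 4*u01*u01*u01*u11*v10 + 4*u01*u01*u01*u20*v01 + u01^(4:ℕ)*v20)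
      (24*u01*u02*u10*u20*v10 + 12*u01*u02*u10*u10*v20 + 24*u01*u10*u11*u20*v01 +
      12*u01*u10*u11*u11*v10 + 12*u01*u10*u10*u11*v11 + 12*u01*u10*u10*u12*v10 +
      12*u01*u10*u10*u20*v02 + 12*u01*u10*u10*u21*v01 + 4*u01*u10*u10*u10*v12 +
      12*u01*u01*u10*u11*v20 + 12*u01*u01*u10*u20*v11 + 12*u01*u01*u10*u21*v10 +
      12*u01*u01*u10*u30*v01 + 6*u01*u01*u10*u10*v21 + 12*u01*u01*u11*u20*v10 +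
      6*u01*u01*u20*u20*v01 + 4*u01*u01*u01*u10*v30 + 4*u01*u01*u01*u20*v20 +
      4*u01*u01*u01*u30*v10 + 12*u02*u10*u10*u11*v10 + 12*u02*u10*u10*u20*v01 +
      4*u02*u10*u10*u10*v11 + 4*u03*u10*u10*u10*v10 + 6*u10*u10*u11*u11*v01 +
      4*u10*u10*u10*u11*v02 + 4*u10*u10*u10*u12*v01 + u10^(4:ℕ)*v03) (24*u01*u02*u10*u11*v10 +
      24*u01*u02*u10*u20*v01 + 12*u01*u02*u10*u10*v11 + 12*u01*u03*u10*u10*v10 +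
      12*u01*u10*u11*u11*v01 + 12*u01*u10*u10*u11*v02 + 12*u01*u10*u10*u12*v01 +
      4*u01*u10*u10*u10*v03 + 12*u01*u01*u02*u10*v20 + 12*u01*u01*u02*u20*v10 +
      12*u01*u01*u10*u11*v11 + 12*u01*u01*u10*u12*v10 + 12*u01*u01*u10*u20*v02 +
      12*u01*u01*u10*u21*v01 + 6*u01*u01*u10*u10*v12 + 12*u01*u01*u11*u20*v01 +
      6*u01*u01*u11*u11*v10 + 4*u01*u01*u01*u10*v21 + 4*u01*u01*u01*u11*v20 +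
      4*u01*u01*u01*u20*v11 + 4*u01*u01*u01*u21*v10 + 4*u01*u01*u01*u30*v01 + u01^(4:ℕ)*v30 +
      12*u02*u10*u10*u11*v01 + 4*u02*u10*u10*u10*v02 + 6*u02*u02*u10*u10*v10 +
      4*u03*u10*u10*u10*v01) t := by
  obtain ⟨t, ht⟩ := pw31 u10 u01 u20 u11 u02 u30 u21 u12 u03 u40 u31 u22 u13 u04 u41 u32 u23 u14 u42 u33 u24 u43 u34 u44
    v10 v01 v20 v11 v02 v30 v21 v12 v03 v40 v31 v22 v13 v04 v41 v32 v23 v14 v42 v33 v24 v43 v34 v44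
  have e : ∀ X Y : O k, X ^ 4 * Y ^ 1 = X ^ 3 * Y ^ 1 * X := fun X Y => by ring
  rw [e, ht, mk_mul]
  refine ⟨_, mk_inj.mpr ⟨?_, ?_, ?_, ?_, ?_, ?_, ?_, ?_, ?_, ?_, ?_, ?_, ?_, ?_, ?_, ?_, ?_, ?_, ?_, ?_, ?_, ?_, ?_, ?_, rfl⟩⟩ <;> ring

theorem pw32 : ∃ t : k, (mk 0 u10 u01 u20 u11 u02 u30 u21 u12 u03 u40 u31 u22 u13 u04 u41 u32 u23 u14 u42 u33 u24 u43 u34 u44) ^ 3 *
    (mk 0 v10 v01 v20 v11 v02 v30 v21 v12 v03 v40 v31 v22 v13 v04 v41 v32 v23 v14 v42 v33 v24 v43 v34 v44) ^ 2 =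
    mk 0 0 0 0 0 0 0 0 0 0 0 0 0 0 0 (3*u01*u10*u10*v10*v10 + 2*u10*u10*u10*v01*v10)
      (6*u01*u10*u10*v01*v10 + 3*u01*u01*u10*v10*v10 + u10*u10*u10*v01*v01)
      (3*u01*u10*u10*v01*v01 + 6*u01*u01*u10*v01*v10 + u01*u01*u01*v10*v10)
      (3*u01*u01*u10*v01*v01 + 2*u01*u01*u01*v01*v10) (6*u01*u10*u11*v10*v10 +
      12*u01*u10*u20*v01*v10 + 6*u01*u10*u10*v01*v20 + 6*u01*u10*u10*v10*v11 +
      6*u01*u01*u10*v10*v20 + 3*u01*u01*u20*v10*v10 + 3*u02*u10*u10*v10*v10 +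
      6*u10*u10*u11*v01*v10 + 3*u10*u10*u20*v01*v01 + 2*u10*u10*u10*v01*v11 +
      2*u10*u10*u10*v02*v10) (6*u01*u02*u10*v10*v10 + 12*u01*u10*u11*v01*v10 +
      6*u01*u10*u20*v01*v01 + 6*u01*u10*u10*v01*v11 + 6*u01*u10*u10*v02*v10 +
      6*u01*u01*u10*v01*v20 + 6*u01*u01*u10*v10*v11 + 3*u01*u01*u11*v10*v10 +
      6*u01*u01*u20*v01*v10 + 2*u01*u01*u01*v10*v20 + 6*u02*u10*u10*v01*v10 +
      3*u10*u10*u11*v01*v01 + 2*u10*u10*u10*v01*v02) (12*u01*u02*u10*v01*v10 +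
      6*u01*u10*u11*v01*v01 + 6*u01*u10*u10*v01*v02 + 3*u01*u01*u02*v10*v10 +
      6*u01*u01*u10*v01*v11 + 6*u01*u01*u10*v02*v10 + 6*u01*u01*u11*v01*v10 +
      3*u01*u01*u20*v01*v01 + 2*u01*u01*u01*v01*v20 + 2*u01*u01*u01*v10*v11 +
      3*u02*u10*u10*v01*v01) (12*u01*u02*u10*v10*v20 + 6*u01*u02*u20*v10*v10 +
      12*u01*u10*u11*v01*v20 + 12*u01*u10*u11*v10*v11 + 6*u01*u10*u12*v10*v10 +
      12*u01*u10*u20*v01*v11 + 12*u01*u10*u20*v02*v10 + 12*u01*u10*u21*v01*v10 +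
      6*u01*u10*u30*v01*v01 + 6*u01*u10*u10*v01*v21 + 6*u01*u10*u10*v02*v20 +
      6*u01*u10*u10*v10*v12 + 3*u01*u10*u10*v11*v11 + 12*u01*u11*u20*v01*v10 +
      3*u01*u11*u11*v10*v10 + 3*u01*u20*u20*v01*v01 + 6*u01*u01*u10*v01*v30 +
      6*u01*u01*u10*v10*v21 + 6*u01*u01*u10*v11*v20 + 6*u01*u01*u11*v10*v20 +
      6*u01*u01*u20*v01*v20 + 6*u01*u01*u20*v10*v11 + 3*u01*u01*u21*v10*v10 +
      6*u01*u01*u30*v01*v10 + 2*u01*u01*u01*v10*v30 + u01*u01*u01*v20*v20 + 6*u02*u10*u11*v10*v10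
      + 12*u02*u10*u20*v01*v10 + 6*u02*u10*u10*v01*v20 + 6*u02*u10*u10*v10*v11 +
      3*u03*u10*u10*v10*v10 + 6*u10*u11*u20*v01*v01 + 6*u10*u11*u11*v01*v10 +
      6*u10*u10*u11*v01*v11 + 6*u10*u10*u11*v02*v10 + 6*u10*u10*u12*v01*v10 +
      6*u10*u10*u20*v01*v02 + 3*u10*u10*u21*v01*v01 + 2*u10*u10*u10*v01*v12 +
      2*u10*u10*u10*v02*v11 + 2*u10*u10*u10*v03*v10) (12*u01*u02*u10*v01*v20 +
      12*u01*u02*u10*v10*v11 + 6*u01*u02*u11*v10*v10 + 12*u01*u02*u20*v01*v10 +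
      6*u01*u03*u10*v10*v10 + 12*u01*u10*u11*v01*v11 + 12*u01*u10*u11*v02*v10 +
      12*u01*u10*u12*v01*v10 + 12*u01*u10*u20*v01*v02 + 6*u01*u10*u21*v01*v01 +
      6*u01*u10*u10*v01*v12 + 6*u01*u10*u10*v02*v11 + 6*u01*u10*u10*v03*v10 +
      6*u01*u11*u20*v01*v01 + 6*u01*u11*u11*v01*v10 + 6*u01*u01*u02*v10*v20 +
      6*u01*u01*u10*v01*v21 + 6*u01*u01*u10*v02*v20 + 6*u01*u01*u10*v10*v12 +
      3*u01*u01*u10*v11*v11 + 6*u01*u01*u11*v01*v20 + 6*u01*u01*u11*v10*v11 +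
      3*u01*u01*u12*v10*v10 + 6*u01*u01*u20*v01*v11 + 6*u01*u01*u20*v02*v10 +
      6*u01*u01*u21*v01*v10 + 3*u01*u01*u30*v01*v01 + 2*u01*u01*u01*v01*v30 +
      2*u01*u01*u01*v10*v21 + 2*u01*u01*u01*v11*v20 + 12*u02*u10*u11*v01*v10 +
      6*u02*u10*u20*v01*v01 + 6*u02*u10*u10*v01*v11 + 6*u02*u10*u10*v02*v10 +
      3*u02*u02*u10*v10*v10 + 6*u03*u10*u10*v01*v10 + 3*u10*u11*u11*v01*v01 +
      6*u10*u10*u11*v01*v02 + 3*u10*u10*u12*v01*v01 + 2*u10*u10*u10*v01*v03 +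
      u10*u10*u10*v02*v02) t := by
  obtain ⟨t, ht⟩ := pw22 u10 u01 u20 u11 u02 u30 u21 u12 u03 u40 u31 u22 u13 u04 u41 u32 u23 u14 u42 u33 u24 u43 u34 u44
    v10 v01 v20 v11 v02 v30 v21 v12 v03 v40 v31 v22 v13 v04 v41 v32 v23 v14 v42 v33 v24 v43 v34 v44
  have e : ∀ X Y : O k, X ^ 3 * Y ^ 2 = X ^ 2 * Y ^ 2 * X := fun X Y => by ring
  rw [e, ht, mk_mul]
  refine ⟨_, mk_inj.mpr ⟨?_, ?_, ?_, ?_, ?_, ?_, ?_, ?_, ?_, ?_, ?_, ?_, ?_, ?_, ?_, ?_, ?_, ?_, ?_, ?_, ?_, ?_, ?_, ?_, rfl⟩⟩ <;> ring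

theorem pw23 : ∃ t : k, (mk 0 u10 u01 u20 u11 u02 u30 u21 u12 u03 u40 u31 u22 u13 u04 u41 u32 u23 u14 u42 u33 u24 u43 u34 u44) ^ 2 *
    (mk 0 v10 v01 v20 v11 v02 v30 v21 v12 v03 v40 v31 v22 v13 v04 v41 v32 v23 v14 v42 v33 v24 v43 v34 v44) ^ 3 =
    mk 0 0 0 0 0 0 0 0 0 0 0 0 0 0 0 (2*u01*u10*v10*v10*v10 + 3*u10*u10*v01*v10*v10)
      (6*u01*u10*v01*v10*v10 + u01*u01*v10*v10*v10 + 3*u10*u10*v01*v01*v10)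
      (6*u01*u10*v01*v01*v10 + 3*u01*u01*v01*v10*v10 + u10*u10*v01*v01*v01)
      (2*u01*u10*v01*v01*v01 + 3*u01*u01*v01*v01*v10) (12*u01*u10*v01*v10*v20 +
      6*u01*u10*v10*v10*v11 + 2*u01*u11*v10*v10*v10 + 6*u01*u20*v01*v10*v10 +
      3*u01*u01*v10*v10*v20 + 2*u02*u10*v10*v10*v10 + 6*u10*u11*v01*v10*v10 +
      6*u10*u20*v01*v01*v10 + 6*u10*u10*v01*v10*v11 + 3*u10*u10*v01*v01*v20 +
      3*u10*u10*v02*v10*v10) (2*u01*u02*v10*v10*v10 + 12*u01*u10*v01*v10*v11 +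
      6*u01*u10*v01*v01*v20 + 6*u01*u10*v02*v10*v10 + 6*u01*u11*v01*v10*v10 +
      6*u01*u20*v01*v01*v10 + 6*u01*u01*v01*v10*v20 + 3*u01*u01*v10*v10*v11 +
      6*u02*u10*v01*v10*v10 + 6*u10*u11*v01*v01*v10 + 2*u10*u20*v01*v01*v01 +
      6*u10*u10*v01*v02*v10 + 3*u10*u10*v01*v01*v11) (6*u01*u02*v01*v10*v10 +
      12*u01*u10*v01*v02*v10 + 6*u01*u10*v01*v01*v11 + 6*u01*u11*v01*v01*v10 +
      2*u01*u20*v01*v01*v01 + 6*u01*u01*v01*v10*v11 + 3*u01*u01*v01*v01*v20 +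
      3*u01*u01*v02*v10*v10 + 6*u02*u10*v01*v01*v10 + 2*u10*u11*v01*v01*v01 +
      3*u10*u10*v01*v01*v02) (6*u01*u02*v10*v10*v20 + 12*u01*u10*v01*v10*v21 +
      12*u01*u10*v01*v11*v20 + 6*u01*u10*v01*v01*v30 + 12*u01*u10*v02*v10*v20 +
      6*u01*u10*v10*v11*v11 + 6*u01*u10*v10*v10*v12 + 12*u01*u11*v01*v10*v20 +
      6*u01*u11*v10*v10*v11 + 2*u01*u12*v10*v10*v10 + 12*u01*u20*v01*v10*v11 +
      6*u01*u20*v01*v01*v20 + 6*u01*u20*v02*v10*v10 + 6*u01*u21*v01*v10*v10 +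
      6*u01*u30*v01*v01*v10 + 6*u01*u01*v01*v10*v30 + 3*u01*u01*v01*v20*v20 +
      6*u01*u01*v10*v11*v20 + 3*u01*u01*v10*v10*v21 + 12*u02*u10*v01*v10*v20 +
      6*u02*u10*v10*v10*v11 + 2*u02*u11*v10*v10*v10 + 6*u02*u20*v01*v10*v10 +
      2*u03*u10*v10*v10*v10 + 12*u10*u11*v01*v10*v11 + 6*u10*u11*v01*v01*v20 +
      6*u10*u11*v02*v10*v10 + 6*u10*u12*v01*v10*v10 + 12*u10*u20*v01*v02*v10 +
      6*u10*u20*v01*v01*v11 + 6*u10*u21*v01*v01*v10 + 2*u10*u30*v01*v01*v01 +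
      6*u10*u10*v01*v02*v20 + 6*u10*u10*v01*v10*v12 + 3*u10*u10*v01*v11*v11 +
      3*u10*u10*v01*v01*v21 + 6*u10*u10*v02*v10*v11 + 3*u10*u10*v03*v10*v10 +
      6*u11*u20*v01*v01*v10 + 3*u11*u11*v01*v10*v10 + u20*u20*v01*v01*v01)
      (12*u01*u02*v01*v10*v20 + 6*u01*u02*v10*v10*v11 + 2*u01*u03*v10*v10*v10 +
      12*u01*u10*v01*v02*v20 + 12*u01*u10*v01*v10*v12 + 6*u01*u10*v01*v11*v11 +
      6*u01*u10*v01*v01*v21 + 12*u01*u10*v02*v10*v11 + 6*u01*u10*v03*v10*v10 +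
      12*u01*u11*v01*v10*v11 + 6*u01*u11*v01*v01*v20 + 6*u01*u11*v02*v10*v10 +
      6*u01*u12*v01*v10*v10 + 12*u01*u20*v01*v02*v10 + 6*u01*u20*v01*v01*v11 +
      6*u01*u21*v01*v01*v10 + 2*u01*u30*v01*v01*v01 + 6*u01*u01*v01*v10*v21 +
      6*u01*u01*v01*v11*v20 + 3*u01*u01*v01*v01*v30 + 6*u01*u01*v02*v10*v20 +
      3*u01*u01*v10*v11*v11 + 3*u01*u01*v10*v10*v12 + 12*u02*u10*v01*v10*v11 +
      6*u02*u10*v01*v01*v20 + 6*u02*u10*v02*v10*v10 + 6*u02*u11*v01*v10*v10 +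
      6*u02*u20*v01*v01*v10 + u02*u02*v10*v10*v10 + 6*u03*u10*v01*v10*v10 +
      12*u10*u11*v01*v02*v10 + 6*u10*u11*v01*v01*v11 + 6*u10*u12*v01*v01*v10 +
      6*u10*u20*v01*v01*v02 + 2*u10*u21*v01*v01*v01 + 6*u10*u10*v01*v02*v11 +
      6*u10*u10*v01*v03*v10 + 3*u10*u10*v01*v01*v12 + 3*u10*u10*v02*v02*v10 +
      2*u11*u20*v01*v01*v01 + 3*u11*u11*v01*v01*v10) t := by
  obtain ⟨t, ht⟩ := pw13 u10 u01 u20 u11 u02 u30 u21 u12 u03 u40 u31 u22 u13 u04 u41 u32 u23 u14 u42 u33 u24 u43 u34 u44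
    v10 v01 v20 v11 v02 v30 v21 v12 v03 v40 v31 v22 v13 v04 v41 v32 v23 v14 v42 v33 v24 v43 v34 v44
  have e : ∀ X Y : O k, X ^ 2 * Y ^ 3 = X ^ 1 * Y ^ 3 * X := fun X Y => by ring
  rw [e, ht, mk_mul]
  refine ⟨_, mk_inj.mpr ⟨?_, ?_, ?_, ?_, ?_, ?_, ?_, ?_, ?_, ?_, ?_, ?_, ?_, ?_, ?_, ?_, ?_, ?_, ?_, ?_, ?_, ?_, ?_, ?_, rfl⟩⟩ <;> ring

theorem pw14 : ∃ t : k, (mk 0 u10 u01 u20 u11 u02 u30 u21 u12 u03 u40 u31 u22 u13 u04 u41 u32 u23 u14 u42 u33 u24 u43 u34 u44) ^ 1 *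
    (mk 0 v10 v01 v20 v11 v02 v30 v21 v12 v03 v40 v31 v22 v13 v04 v41 v32 v23 v14 v42 v33 v24 v43 v34 v44) ^ 4 =
    mk 0 0 0 0 0 0 0 0 0 0 0 0 0 0 0 (u01*v10^(4:ℕ) + 4*u10*v01*v10*v10*v10) (4*u01*v01*v10*v10*v10 +
      6*u10*v01*v01*v10*v10) (6*u01*v01*v01*v10*v10 + 4*u10*v01*v01*v01*v10)
      (4*u01*v01*v01*v01*v10 + u10*v01^(4:ℕ)) (12*u01*v01*v10*v10*v20 + 4*u01*v10*v10*v10*v11 +
      u02*v10^(4:ℕ) + 12*u10*v01*v10*v10*v11 + 12*u10*v01*v01*v10*v20 + 4*u10*v02*v10*v10*v10 +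
      4*u11*v01*v10*v10*v10 + 6*u20*v01*v01*v10*v10) (12*u01*v01*v10*v10*v11 +
      12*u01*v01*v01*v10*v20 + 4*u01*v02*v10*v10*v10 + 4*u02*v01*v10*v10*v10 +
      12*u10*v01*v02*v10*v10 + 12*u10*v01*v01*v10*v11 + 4*u10*v01*v01*v01*v20 +
      6*u11*v01*v01*v10*v10 + 4*u20*v01*v01*v01*v10) (12*u01*v01*v02*v10*v10 +
      12*u01*v01*v01*v10*v11 + 4*u01*v01*v01*v01*v20 + 6*u02*v01*v01*v10*v10 +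
      12*u10*v01*v01*v02*v10 + 4*u10*v01*v01*v01*v11 + 4*u11*v01*v01*v01*v10 + u20*v01^(4:ℕ))
      (24*u01*v01*v10*v11*v20 + 12*u01*v01*v10*v10*v21 + 12*u01*v01*v01*v10*v30 +
      6*u01*v01*v01*v20*v20 + 12*u01*v02*v10*v10*v20 + 6*u01*v10*v10*v11*v11 +
      4*u01*v10*v10*v10*v12 + 12*u02*v01*v10*v10*v20 + 4*u02*v10*v10*v10*v11 + u03*v10^(4:ℕ) +
      24*u10*v01*v02*v10*v20 + 12*u10*v01*v10*v11*v11 + 12*u10*v01*v10*v10*v12 +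
      12*u10*v01*v01*v10*v21 + 12*u10*v01*v01*v11*v20 + 4*u10*v01*v01*v01*v30 +
      12*u10*v02*v10*v10*v11 + 4*u10*v03*v10*v10*v10 + 12*u11*v01*v10*v10*v11 +
      12*u11*v01*v01*v10*v20 + 4*u11*v02*v10*v10*v10 + 4*u12*v01*v10*v10*v10 +
      12*u20*v01*v02*v10*v10 + 12*u20*v01*v01*v10*v11 + 4*u20*v01*v01*v01*v20 +
      6*u21*v01*v01*v10*v10 + 4*u30*v01*v01*v01*v10) (24*u01*v01*v02*v10*v20 +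
      12*u01*v01*v10*v11*v11 + 12*u01*v01*v10*v10*v12 + 12*u01*v01*v01*v10*v21 +
      12*u01*v01*v01*v11*v20 + 4*u01*v01*v01*v01*v30 + 12*u01*v02*v10*v10*v11 +
      4*u01*v03*v10*v10*v10 + 12*u02*v01*v10*v10*v11 + 12*u02*v01*v01*v10*v20 +
      4*u02*v02*v10*v10*v10 + 4*u03*v01*v10*v10*v10 + 24*u10*v01*v02*v10*v11 +
      12*u10*v01*v03*v10*v10 + 12*u10*v01*v01*v02*v20 + 12*u10*v01*v01*v10*v12 +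
      6*u10*v01*v01*v11*v11 + 4*u10*v01*v01*v01*v21 + 6*u10*v02*v02*v10*v10 +
      12*u11*v01*v02*v10*v10 + 12*u11*v01*v01*v10*v11 + 4*u11*v01*v01*v01*v20 +
      6*u12*v01*v01*v10*v10 + 12*u20*v01*v01*v02*v10 + 4*u20*v01*v01*v01*v11 +
      4*u21*v01*v01*v01*v10 + u30*v01^(4:ℕ)) t := by
  obtain ⟨t, ht⟩ := pw04 u10 u01 u20 u11 u02 u30 u21 u12 u03 u40 u31 u22 u13 u04 u41 u32 u23 u14 u42 u33 u24 u43 u34 u44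
    v10 v01 v20 v11 v02 v30 v21 v12 v03 v40 v31 v22 v13 v04 v41 v32 v23 v14 v42 v33 v24 v43 v34 v44
  have e : ∀ X Y : O k, X ^ 1 * Y ^ 4 = X ^ 0 * Y ^ 4 * X := fun X Y => by ring
  rw [e, ht, mk_mul]
  refine ⟨_, mk_inj.mpr ⟨?_, ?_, ?_, ?_, ?_, ?_, ?_, ?_, ?_, ?_, ?_, ?_, ?_, ?_, ?_, ?_, ?_, ?_, ?_, ?_, ?_, ?_, ?_, ?_, rfl⟩⟩ <;> ring

theorem pw42 : ∃ t : k, (mk 0 u10 u01 u20 u11 u02 u30 u21 u12 u03 u40 u31 u22 u13 u04 u41 u32 u23 u14 u42 u33 u24 u43 u34 u44) ^ 4 *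
    (mk 0 v10 v01 v20 v11 v02 v30 v21 v12 v03 v40 v31 v22 v13 v04 v41 v32 v23 v14 v42 v33 v24 v43 v34 v44) ^ 2 =
    mk 0 0 0 0 0 0 0 0 0 0 0 0 0 0 0 0 0 0 0 (8*u01*u10*u10*u10*v01*v10 + 6*u01*u01*u10*u10*v10*v10 +
      u10^(4:ℕ)*v01*v01) (4*u01*u10*u10*u10*v01*v01 + 12*u01*u01*u10*u10*v01*v10 +
      4*u01*u01*u01*u10*v10*v10) (6*u01*u01*u10*u10*v01*v01 + 8*u01*u01*u01*u10*v01*v10 +
      u01^(4:ℕ)*v10*v10) (12*u01*u02*u10*u10*v10*v10 + 24*u01*u10*u10*u11*v01*v10 +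
      12*u01*u10*u10*u20*v01*v01 + 8*u01*u10*u10*u10*v01*v11 + 8*u01*u10*u10*u10*v02*v10 +
      12*u01*u01*u10*u11*v10*v10 + 24*u01*u01*u10*u20*v01*v10 + 12*u01*u01*u10*u10*v01*v20 +
      12*u01*u01*u10*u10*v10*v11 + 8*u01*u01*u01*u10*v10*v20 + 4*u01*u01*u01*u20*v10*v10 +
      8*u02*u10*u10*u10*v01*v10 + 4*u10*u10*u10*u11*v01*v01 + 2*u10^(4:ℕ)*v01*v02)
      (24*u01*u02*u10*u10*v01*v10 + 12*u01*u10*u10*u11*v01*v01 + 8*u01*u10*u10*u10*v01*v02 +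
      12*u01*u01*u02*u10*v10*v10 + 24*u01*u01*u10*u11*v01*v10 + 12*u01*u01*u10*u20*v01*v01 +
      12*u01*u01*u10*u10*v01*v11 + 12*u01*u01*u10*u10*v02*v10 + 8*u01*u01*u01*u10*v01*v20 +
      8*u01*u01*u01*u10*v10*v11 + 4*u01*u01*u01*u11*v10*v10 + 8*u01*u01*u01*u20*v01*v10 +
      2*u01^(4:ℕ)*v10*v20 + 4*u02*u10*u10*u10*v01*v01) t := by
  obtain ⟨t, ht⟩ := pw32 u10 u01 u20 u11 u02 u30 u21 u12 u03 u40 u31 u22 u13 u04 u41 u32 u23 u14 u42 u33 u24 u43 u34 u44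
    v10 v01 v20 v11 v02 v30 v21 v12 v03 v40 v31 v22 v13 v04 v41 v32 v23 v14 v42 v33 v24 v43 v34 v44
  have e : ∀ X Y : O k, X ^ 4 * Y ^ 2 = X ^ 3 * Y ^ 2 * X := fun X Y => by ring
  rw [e, ht, mk_mul]
  refine ⟨_, mk_inj.mpr ⟨?_, ?_, ?_, ?_, ?_, ?_, ?_, ?_, ?_, ?_, ?_, ?_, ?_, ?_, ?_, ?_, ?_, ?_, ?_, ?_, ?_, ?_, ?_, ?_, rfl⟩⟩ <;> ring

theorem pw33 : ∃ t : k, (mk 0 u10 u01 u20 u11 u02 u30 u21 u12 u03 u40 u31 u22 u13 u04 u41 u32 u23 u14 u42 u33 u24 u43 u34 u44) ^ 3 *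
    (mk 0 v10 v01 v20 v11 v02 v30 v21 v12 v03 v40 v31 v22 v13 v04 v41 v32 v23 v14 v42 v33 v24 v43 v34 v44) ^ 3 =
    mk 0 0 0 0 0 0 0 0 0 0 0 0 0 0 0 0 0 0 0 (9*u01*u10*u10*v01*v10*v10 + 3*u01*u01*u10*v10*v10*v10 +
      3*u10*u10*u10*v01*v01*v10) (9*u01*u10*u10*v01*v01*v10 + 9*u01*u01*u10*v01*v10*v10 +
      u01*u01*u01*v10*v10*v10 + u10*u10*u10*v01*v01*v01) (3*u01*u10*u10*v01*v01*v01 +
      9*u01*u01*u10*v01*v01*v10 + 3*u01*u01*u01*v01*v10*v10) (6*u01*u02*u10*v10*v10*v10 +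
      18*u01*u10*u11*v01*v10*v10 + 18*u01*u10*u20*v01*v01*v10 + 18*u01*u10*u10*v01*v10*v11 +
      9*u01*u10*u10*v01*v01*v20 + 9*u01*u10*u10*v02*v10*v10 + 18*u01*u01*u10*v01*v10*v20 +
      9*u01*u01*u10*v10*v10*v11 + 3*u01*u01*u11*v10*v10*v10 + 9*u01*u01*u20*v01*v10*v10 +
      3*u01*u01*u01*v10*v10*v20 + 9*u02*u10*u10*v01*v10*v10 + 9*u10*u10*u11*v01*v01*v10 +
      3*u10*u10*u20*v01*v01*v01 + 6*u10*u10*u10*v01*v02*v10 + 3*u10*u10*u10*v01*v01*v11)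
      (18*u01*u02*u10*v01*v10*v10 + 18*u01*u10*u11*v01*v01*v10 + 6*u01*u10*u20*v01*v01*v01 +
      18*u01*u10*u10*v01*v02*v10 + 9*u01*u10*u10*v01*v01*v11 + 3*u01*u01*u02*v10*v10*v10 +
      18*u01*u01*u10*v01*v10*v11 + 9*u01*u01*u10*v01*v01*v20 + 9*u01*u01*u10*v02*v10*v10 +
      9*u01*u01*u11*v01*v10*v10 + 9*u01*u01*u20*v01*v01*v10 + 6*u01*u01*u01*v01*v10*v20 +
      3*u01*u01*u01*v10*v10*v11 + 9*u02*u10*u10*v01*v01*v10 + 3*u10*u10*u11*v01*v01*v01 +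
      3*u10*u10*u10*v01*v01*v02) t := by
  obtain ⟨t, ht⟩ := pw23 u10 u01 u20 u11 u02 u30 u21 u12 u03 u40 u31 u22 u13 u04 u41 u32 u23 u14 u42 u33 u24 u43 u34 u44
    v10 v01 v20 v11 v02 v30 v21 v12 v03 v40 v31 v22 v13 v04 v41 v32 v23 v14 v42 v33 v24 v43 v34 v44
  have e : ∀ X Y : O k, X ^ 3 * Y ^ 3 = X ^ 2 * Y ^ 3 * X := fun X Y => by ring
  rw [e, ht, mk_mul]
  refine ⟨_, mk_inj.mpr ⟨?_, ?_, ?_, ?_, ?_, ?_, ?_, ?_, ?_, ?_, ?_, ?_, ?_, ?_, ?_, ?_, ?_, ?_, ?_, ?_, ?_, ?_, ?_, ?_, rfl⟩⟩ <;> ring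

theorem pw24 : ∃ t : k, (mk 0 u10 u01 u20 u11 u02 u30 u21 u12 u03 u40 u31 u22 u13 u04 u41 u32 u23 u14 u42 u33 u24 u43 u34 u44) ^ 2 *
    (mk 0 v10 v01 v20 v11 v02 v30 v21 v12 v03 v40 v31 v22 v13 v04 v41 v32 v23 v14 v42 v33 v24 v43 v34 v44) ^ 4 =
    mk 0 0 0 0 0 0 0 0 0 0 0 0 0 0 0 0 0 0 0 (8*u01*u10*v01*v10*v10*v10 + u01*u01*v10^(4:ℕ) +
      6*u10*u10*v01*v01*v10*v10) (12*u01*u10*v01*v01*v10*v10 + 4*u01*u01*v01*v10*v10*v10 +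
      4*u10*u10*v01*v01*v01*v10) (8*u01*u10*v01*v01*v01*v10 + 6*u01*u01*v01*v01*v10*v10 +
      u10*u10*v01^(4:ℕ)) (2*u01*u02*v10^(4:ℕ) + 24*u01*u10*v01*v10*v10*v11 +
      24*u01*u10*v01*v01*v10*v20 + 8*u01*u10*v02*v10*v10*v10 + 8*u01*u11*v01*v10*v10*v10 +
      12*u01*u20*v01*v01*v10*v10 + 12*u01*u01*v01*v10*v10*v20 + 4*u01*u01*v10*v10*v10*v11 +
      8*u02*u10*v01*v10*v10*v10 + 12*u10*u11*v01*v01*v10*v10 + 8*u10*u20*v01*v01*v01*v10 +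
      12*u10*u10*v01*v02*v10*v10 + 12*u10*u10*v01*v01*v10*v11 + 4*u10*u10*v01*v01*v01*v20)
      (8*u01*u02*v01*v10*v10*v10 + 24*u01*u10*v01*v02*v10*v10 + 24*u01*u10*v01*v01*v10*v11 +
      8*u01*u10*v01*v01*v01*v20 + 12*u01*u11*v01*v01*v10*v10 + 8*u01*u20*v01*v01*v01*v10 +
      12*u01*u01*v01*v10*v10*v11 + 12*u01*u01*v01*v01*v10*v20 + 4*u01*u01*v02*v10*v10*v10 +
      12*u02*u10*v01*v01*v10*v10 + 8*u10*u11*v01*v01*v01*v10 + 2*u10*u20*v01^(4:ℕ) +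
      12*u10*u10*v01*v01*v02*v10 + 4*u10*u10*v01*v01*v01*v11) t := by
  obtain ⟨t, ht⟩ := pw14 u10 u01 u20 u11 u02 u30 u21 u12 u03 u40 u31 u22 u13 u04 u41 u32 u23 u14 u42 u33 u24 u43 u34 u44
    v10 v01 v20 v11 v02 v30 v21 v12 v03 v40 v31 v22 v13 v04 v41 v32 v23 v14 v42 v33 v24 v43 v34 v44
  have e : ∀ X Y : O k, X ^ 2 * Y ^ 4 = X ^ 1 * Y ^ 4 * X := fun X Y => by ring
  rw [e, ht, mk_mul]
  refine ⟨_, mk_inj.mpr ⟨?_, ?_, ?_, ?_, ?_, ?_, ?_, ?_, ?_, ?_, ?_, ?_, ?_, ?_, ?_, ?_, ?_, ?_, ?_, ?_, ?_, ?_, ?_, ?_, rfl⟩⟩ <;> ring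

theorem pw43 : ∃ t : k, (mk 0 u10 u01 u20 u11 u02 u30 u21 u12 u03 u40 u31 u22 u13 u04 u41 u32 u23 u14 u42 u33 u24 u43 u34 u44) ^ 4 *
    (mk 0 v10 v01 v20 v11 v02 v30 v21 v12 v03 v40 v31 v22 v13 v04 v41 v32 v23 v14 v42 v33 v24 v43 v34 v44) ^ 3 =
    mk 0 0 0 0 0 0 0 0 0 0 0 0 0 0 0 0 0 0 0 0 0 0 (12*u01*u10*u10*u10*v01*v01*v10 +
      18*u01*u01*u10*u10*v01*v10*v10 + 4*u01*u01*u01*u10*v10*v10*v10 + u10^(4:ℕ)*v01*v01*v01)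
      (4*u01*u10*u10*u10*v01*v01*v01 + 18*u01*u01*u10*u10*v01*v01*v10 +
      12*u01*u01*u01*u10*v01*v10*v10 + u01^(4:ℕ)*v10*v10*v10) t := by
  obtain ⟨t, ht⟩ := pw33 u10 u01 u20 u11 u02 u30 u21 u12 u03 u40 u31 u22 u13 u04 u41 u32 u23 u14 u42 u33 u24 u43 u34 u44
    v10 v01 v20 v11 v02 v30 v21 v12 v03 v40 v31 v22 v13 v04 v41 v32 v23 v14 v42 v33 v24 v43 v34 v44
  have e : ∀ X Y : O k, X ^ 4 * Y ^ 3 = X ^ 3 * Y ^ 3 * X := fun X Y => by ring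
  rw [e, ht, mk_mul]
  refine ⟨_, mk_inj.mpr ⟨?_, ?_, ?_, ?_, ?_, ?_, ?_, ?_, ?_, ?_, ?_, ?_, ?_, ?_, ?_, ?_, ?_, ?_, ?_, ?_, ?_, ?_, ?_, ?_, rfl⟩⟩ <;> ring

theorem pw34 : ∃ t : k, (mk 0 u10 u01 u20 u11 u02 u30 u21 u12 u03 u40 u31 u22 u13 u04 u41 u32 u23 u14 u42 u33 u24 u43 u34 u44) ^ 3 *
    (mk 0 v10 v01 v20 v11 v02 v30 v21 v12 v03 v40 v31 v22 v13 v04 v41 v32 v23 v14 v42 v33 v24 v43 v34 v44) ^ 4 =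
    mk 0 0 0 0 0 0 0 0 0 0 0 0 0 0 0 0 0 0 0 0 0 0 (18*u01*u10*u10*v01*v01*v10*v10 +
      12*u01*u01*u10*v01*v10*v10*v10 + u01*u01*u01*v10^(4:ℕ) + 4*u10*u10*u10*v01*v01*v01*v10)
      (12*u01*u10*u10*v01*v01*v01*v10 + 18*u01*u01*u10*v01*v01*v10*v10 +
      4*u01*u01*u01*v01*v10*v10*v10 + u10*u10*u10*v01^(4:ℕ)) t := by
  obtain ⟨t, ht⟩ := pw24 u10 u01 u20 u11 u02 u30 u21 u12 u03 u40 u31 u22 u13 u04 u41 u32 u23 u14 u42 u33 u24 u43 u34 u44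
    v10 v01 v20 v11 v02 v30 v21 v12 v03 v40 v31 v22 v13 v04 v41 v32 v23 v14 v42 v33 v24 v43 v34 v44
  have e : ∀ X Y : O k, X ^ 3 * Y ^ 4 = X ^ 2 * Y ^ 4 * X := fun X Y => by ring
  rw [e, ht, mk_mul]
  refine ⟨_, mk_inj.mpr ⟨?_, ?_, ?_, ?_, ?_, ?_, ?_, ?_, ?_, ?_, ?_, ?_, ?_, ?_, ?_, ?_, ?_, ?_, ?_, ?_, ?_, ?_, ?_, ?_, rfl⟩⟩ <;> ring

end Pool.Agent.H25
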